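import Pool.Agent.MP_a43263_nt.JC.ASpec
import Pool.Agent.MP_a43263_nt.RG.Lya
import Pool.Agent.MP_a43263_nt.RG.Kil

/-! THEOREM J, the analytic half: the abstract Lyapunov lemma. -/

set_option autoImplicit false

noncomputable section

namespace Pool.Agent.MP_a43263_nt.JC

open Finset Filter
open R2 (pri PP chs MERStmt mem_pri mem_PP PP_union PP_eq_pri)
open RG

variable {n : ℕ}

namespace Aly

open RG.Lya (sum_split one_add_sum_le chs_close)

theorem mass2 (P : Finset ℕ) (hP : ∀ p ∈ P, 0 ≤ wt n p) (hm : 3 * n * ∑ p ∈ P, wt n p ≤ 1 / 4) :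
    ∑ A ∈ (TT n P).powerset, Wt A * 2 ^ A.card ≤
      1 + 2 * (3 * n * ∑ p ∈ P, wt n p) + 4 * (3 * n * ∑ p ∈ P, wt n p) ^ 2 := by
  set m := 3 * n * ∑ p ∈ P, wt n p with hmd
  have hw : ∀ b ∈ TT n P, 0 ≤ wt n b.2 := fun b hb => hP _ (mem_TT.1 hb).2
  have hm0 : 0 ≤ m := mul_nonneg (by positivity) (sum_nonneg hP)
  have hs : ∑ b ∈ TT n P, wt n b.2 = m := sum_TT P (wt n)
  have e1 : ∑ A ∈ (TT n P).powerset, Wt A * 2 ^ A.card = ∏ b ∈ TT n P, (1 + 2 * wt n b.2) := by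
    rw [prod_one_add]
    refine sum_congr rfl fun A _ => ?_
    rw [prod_mul_distrib, prod_const, mul_comm]
    rfl
  have e2 : ∏ b ∈ TT n P, (1 + 2 * wt n b.2) ≤ Real.exp (2 * m) := by
    rw [← hs, mul_sum, Real.exp_sum]
    refine prod_le_prod (fun b hb => ?_) fun b _ => ?_
    · linarith [hw b hb]
    · linarith [Real.add_one_le_exp (2 * wt n b.2)]
  have e3 := Real.abs_exp_sub_one_sub_id_le (x := 2 * m) (by
    rw [abs_of_nonneg (by linarith)]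
    linarith)
  rw [e1]
  linarith [(abs_le.1 e3).2]

/-- the average over the new primes, in terms of the average over one new prime -/
theorem avg {φ : Finset (Gen n) → ℝ} (W : Finset (Gen n)) (P : Finset ℕ) (h0 : 0 ≤ φ W)
    (hP : ∀ p ∈ P, 0 ≤ wt n p) (hm : 3 * n * ∑ p ∈ P, wt n p ≤ 1 / 4)
    (hu : ∀ A ⊆ TT n P, φ (W ∪ A) ≤ 2 ^ A.card * φ W) :
    ∑ A ∈ (TT n P).powerset, Wt A * φ (W ∪ A) ≤
      (1 + 4 * (3 * n * ∑ p ∈ P, wt n p) ^ 2) * φ W +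
        ∑ b ∈ TT n P, wt n b.2 * φ (insert b W) := by
  have hQ := mass2 P hP hm
  set m := 3 * n * ∑ p ∈ P, wt n p with hmd
  have hw : ∀ b ∈ TT n P, 0 ≤ wt n b.2 := fun b hb => hP _ (mem_TT.1 hb).2
  have hs : ∑ b ∈ TT n P, wt n b.2 = m := sum_TT P (wt n)
  have h3 : ∑ b ∈ TT n P, wt n b.2 * (2 * φ W - φ (insert b W)) ≤
      ∑ A ∈ (TT n P).powerset, Wt A * (2 ^ A.card * φ W - φ (W ∪ A)) := by
    have := sum_le_sum_of_subset_of_nonneg
      (f := fun A => Wt A * (2 ^ A.card * φ W - φ (W ∪ A)))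
      (s := (TT n P).map ⟨singleton, singleton_injective⟩) (t := (TT n P).powerset)
      (fun A hA => by
        obtain ⟨b, hb, rfl⟩ := mem_map.1 hA
        exact mem_powerset.2 (singleton_subset_iff.2 hb))
      (fun A hA _ => mul_nonneg (prod_nonneg fun b hb => hw b (mem_powerset.1 hA hb))
        (sub_nonneg.2 (hu A (mem_powerset.1 hA))))
    rw [sum_map] at this
    refine le_trans (le_of_eq (sum_congr rfl fun b _ => ?_)) this
    simp [Wt]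
  simp only [mul_sub, sum_sub_distrib, ← mul_assoc, ← sum_mul] at h3
  rw [hs] at h3
  have h4 := mul_le_mul_of_nonneg_right hQ h0
  linarith

theorem avg_triv {φ : Finset (Gen n) → ℝ} (W : Finset (Gen n)) (P : Finset ℕ) (h0 : 0 ≤ φ W)
    (hP : ∀ p ∈ P, 0 ≤ wt n p) (hm : 3 * n * ∑ p ∈ P, wt n p ≤ 1 / 4)
    (hu : ∀ A ⊆ TT n P, φ (W ∪ A) ≤ 2 ^ A.card * φ W) :
    ∑ A ∈ (TT n P).powerset, Wt A * φ (W ∪ A) ≤ 2 * φ W := by
  have hQ := mass2 P hP hm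
  have hm0 : 0 ≤ 3 * n * ∑ p ∈ P, wt n p := mul_nonneg (by positivity) (sum_nonneg hP)
  set m := 3 * n * ∑ p ∈ P, wt n p
  have h1 : ∑ A ∈ (TT n P).powerset, Wt A * φ (W ∪ A) ≤
      ∑ A ∈ (TT n P).powerset, Wt A * 2 ^ A.card * φ W := sum_le_sum fun A hA => by
    rw [mul_assoc]
    exact mul_le_mul_of_nonneg_left (hu A (mem_powerset.1 hA))
      (prod_nonneg fun b hb => hP _ (mem_TT.1 (mem_powerset.1 hA hb)).2)
  rw [← sum_mul] at h1
  exact h1.trans (mul_le_mul_of_nonneg_right (hQ.trans (by nlinarith)) h0)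

/-- the characters that are not exceptional cancel -/
theorem chars {M a y : ℕ} {τ : ℝ} (hn : 1 ≤ n) (hM : 0 < M) (hs : Sm n M) (hτ : 0 < τ)
    (hMa : M ≤ a) (ha : 2400 * (n : ℝ) ^ 2 / τ ≤ a) (hay : a ≤ y)
    (h1 : τ ≤ 3 * n * ∑ p ∈ PP M a y, wt n p) {W : Finset (Gen n)} (hW : W ⊆ TT n (PP M 0 a))
    (hE : ¬Exc M (τ / (600 * n)) a y W) (N : ℤ) (hN : ¬IsSquare N)
    (k4 : ∀ p : ℕ, p.Prime → (p : ℤ) ∣ N → p ∣ M ∨ ∃ t, (t, p) ∈ W) :
    |∑ p ∈ PP M a y, wt n p * jacobiSym N p| ≤ (∑ p ∈ PP M a y, wt n p) / 100 := by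
  obtain ⟨G, s, hG, k1, k3⟩ := RG.Kil.kernel hN
  have e0 : ∑ p ∈ PP M a y, wt n p * jacobiSym N p = ∑ p ∈ PP M a y, wt n p * jacobiSym G p := by
    refine sum_congr rfl fun p hp => ?_
    obtain ⟨e2, -, e3, e4⟩ := mem_PP.1 hp
    have : ¬(p : ℤ) ∣ s := fun h => (k4 p e3 (hG ▸ (h.pow two_ne_zero).mul_left G)).elim e4
      fun ⟨t, ht⟩ => absurd (mem_PP.1 (mem_TT.1 (hW ht)).2).2.1 (not_le.2 e2)
    rw [hG, jacobiSym.mul_left, jacobiSym.sq_one' (Int.isCoprime_iff_gcd_eq_one.1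
      (((Nat.prime_iff_prime_int.1 e3).coprime_iff_not_dvd.2 this).symm)), mul_one]
  have e1 := chs_close hn hM hs hMa hay G
  have e2 : |chs G a y| ≤ τ / (600 * n) := not_lt.1 fun h => hE ⟨G, k1, k3, fun p hp =>
    k4 p (Nat.prime_of_mem_primeFactors hp) (hG ▸
      (Int.natCast_dvd.2 (Nat.dvd_of_mem_primeFactors hp)).mul_right _), h⟩
  rw [e0]
  have n0 : (1 : ℝ) ≤ n := by exact_mod_cast hn
  have a0 : (0 : ℝ) < a := Nat.cast_pos.2 (by omega)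
  have e3 : 4 * (n : ℝ) / a ≤ τ / (600 * n) := by
    rw [div_le_iff₀ hτ] at ha
    rw [div_le_div_iff₀ a0 (by linarith)]
    linarith
  refine (e1.trans (add_le_add e2 e3)).trans ?_
  rw [← add_div, div_le_iff₀ (by linarith)]
  linarith

/-- the choice of the previous scale -/
theorem scale (hm : MERStmt) {M : ℕ} (hn : 1 ≤ n) (hM : 0 < M) (hs : Sm n M) (a₀ : ℕ) {τ : ℝ}
    (hτ : 0 < τ) (hτ' : τ ≤ 0.3) :
    ∃ y₁ : ℕ, ∀ y, y₁ ≤ y → ∃ a, a₀ ≤ a ∧ a < y ∧ y ≤ a ^ 3 ∧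
      τ ≤ 3 * n * ∑ p ∈ PP M a y, wt n p ∧ 3 * n * ∑ p ∈ PP M a y, wt n p ≤ 2 * τ := by
  classical
  obtain ⟨C, hC⟩ := hm.1
  obtain ⟨r₀, hr₀⟩ := eventually_atTop.1 ((Real.tendsto_log_atTop.comp
    tendsto_natCast_atTop_atTop).eventually_ge_atTop (2 * |C|))
  obtain ⟨N, hN⟩ := exists_nat_ge (6 * (n : ℝ) / τ)
  refine ⟨(r₀ + a₀ + M + 3000 * n + N) ^ 2, fun y hy => ?_⟩
  have hr : r₀ + a₀ + M + 3000 * n + N ≤ y.sqrt := Nat.le_sqrt'.2 hy
  have r1 := Nat.sqrt_le' y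
  have r2 := Nat.lt_succ_sqrt' y
  have r3 := Nat.sqrt_le_self y
  have n0 : (1 : ℝ) ≤ n := by exact_mod_cast hn
  set r := y.sqrt
  have hr0 : τ ≤ 3 * n * ∑ p ∈ PP M r y, wt n p := by
    have e1 : ∑ p ∈ pri r y, (1 : ℝ) / p ≤ ∑ p ∈ PP M r y, wt n p := by
      rw [← PP_eq_pri hM (by omega : M ≤ r)]
      exact sum_le_sum fun p hp => le_wt hn (PP_gt hs hp)
    have e2 := (abs_le.1 (hC r y (by omega) r3)).1
    have e3 : 2 * |C| ≤ Real.log r := hr₀ r (by omega)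
    have e4 : 0 < Real.log r := Real.log_pos (by exact_mod_cast (by omega : 1 < r))
    have e5 : C / Real.log r ≤ 1 / 2 := by
      rw [div_le_iff₀ e4]
      linarith [le_abs_self C]
    have e6 : 2 ≤ Real.log y / Real.log r := by
      rw [le_div_iff₀ e4]
      have := Real.log_le_log (pow_pos (Nat.cast_pos.2 (by omega)) 2)
        (show (r : ℝ) ^ 2 ≤ y by exact_mod_cast r1)
      rw [Real.log_pow] at this
      exact_mod_cast this
    have e7 := Real.log_le_log (by norm_num) e6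
    have e8 : 0.1 ≤ ∑ p ∈ PP M r y, wt n p := by linarith [Real.log_two_gt_d9]
    have e9 := mul_le_mul n0 e8 (by norm_num) (by linarith)
    linarith
  let a := Nat.findGreatest (fun a => τ ≤ 3 * n * ∑ p ∈ PP M a y, wt n p) y
  have a1 : r ≤ a := Nat.le_findGreatest r3 hr0
  have a2 : τ ≤ 3 * n * ∑ p ∈ PP M a y, wt n p :=
    Nat.findGreatest_spec (P := fun a => τ ≤ 3 * n * ∑ p ∈ PP M a y, wt n p) r3 hr0
  have a3 : a ≤ y := Nat.findGreatest_le y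
  have a4 : a < y := by
    refine lt_of_le_of_ne a3 fun e => ?_
    rw [e, eq_empty_of_forall_notMem (s := PP M y y) fun p hp => by
      have := mem_PP.1 hp
      omega, sum_empty, mul_zero] at a2
    linarith
  have a5 : ¬ τ ≤ 3 * n * ∑ p ∈ PP M (a + 1) y, wt n p :=
    Nat.findGreatest_is_greatest (P := fun a => τ ≤ 3 * n * ∑ p ∈ PP M a y, wt n p)
      (Nat.lt_succ_self a) a4
  refine ⟨a, by omega, a4, ?_, a2, ?_⟩
  · have := Nat.pow_le_pow_left a1 3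
    have h6 : 3000 ≤ r := by omega
    have : r.succ ^ 2 ≤ r ^ 3 := by
      rw [Nat.succ_eq_add_one]
      nlinarith [Nat.mul_le_mul_left (r * r) h6]
    omega
  · have b1 : 12 * n < a + 1 := by omega
    have b2 : ∑ p ∈ PP M a y, wt n p ≤ ∑ p ∈ insert (a + 1) (PP M (a + 1) y), wt n p := by
      refine sum_le_sum_of_subset_of_nonneg (fun p hp => ?_) fun p hp _ => ?_
      · obtain ⟨k1, k2⟩ := mem_PP.1 hp
        by_cases e : p = a + 1
        · exact mem_insert.2 (.inl e)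
        · exact mem_insert_of_mem (mem_PP.2 ⟨by omega, k2⟩)
      · rcases mem_insert.1 hp with rfl | hp
        · exact (wt_pos b1).le
        · exact (wt_pos (PP_gt hs hp)).le
    rw [sum_insert fun h => lt_irrefl _ (mem_PP.1 h).1] at b2
    have b3 : wt n (a + 1) ≤ 2 / (6 * n / τ) := by
      refine (wt_le b1).trans (div_le_div_of_nonneg_left (by norm_num) (by positivity)
        (hN.trans ?_))
      exact_mod_cast (by omega : N ≤ a + 1)
    rw [div_div_eq_mul_div, le_div_iff₀ (by positivity)] at b3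
    have b4 := mul_le_mul_of_nonneg_left b2 (show (0 : ℝ) ≤ 3 * n by positivity)
    linarith

open Classical in
/-- the weighted sum -/
def LL (M : ℕ) (φ : Finset (Gen n) → ℝ) (y : ℕ) : ℝ :=
  ∑ W ∈ (TT n (PP M 0 y)).powerset.filter RG.Dist, Wt W * φ W

open Classical in
theorem LL_nonneg {M : ℕ} (hs : Sm n M) {φ : Finset (Gen n) → ℝ} (h0 : ∀ W, 0 ≤ φ W) (y : ℕ) :
    0 ≤ LL M φ y :=
  sum_nonneg fun _ hW => mul_nonneg (Wt_nonneg hs (mem_powerset.1 (mem_filter.1 hW).1)) (h0 _)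

open Classical in
theorem point {M a y : ℕ} {η K τ : ℝ} {φ ψ : Finset (Gen n) → ℝ} (hn : 1 ≤ n) (hM : 0 < M)
    (hs : Sm n M) (hK : 0 ≤ K) (h0 : ∀ W, 0 ≤ φ W) (h0' : ∀ W, 0 ≤ ψ W) (hτ : 0 < τ)
    (hτ' : τ ≤ 1 / 8) (hη : 48 * n * τ ≤ η)
    (hu : ∀ W X : Finset (Gen n), (∀ a ∈ W ∪ X, a.2.Prime ∧ ¬a.2 ∣ M) →
      φ (W ∪ X) ≤ 2 ^ X.card * φ W)
    (hMa : M ≤ a) (ha : 2400 * (n : ℝ) ^ 2 / τ ≤ a) (hay : a ≤ y)
    (h1 : τ ≤ 3 * n * ∑ p ∈ PP M a y, wt n p) (h2 : 3 * n * ∑ p ∈ PP M a y, wt n p ≤ 2 * τ)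
    {W : Finset (Gen n)} (hW : W ⊆ TT n (PP M 0 a))
    (hS : (∀ G : ℤ, G ≠ 0 → ¬IsSquare G →
      (∀ p : ℕ, p.Prime → (p : ℤ) ∣ G → p ∣ M ∨ ∃ t, (t, p) ∈ W) →
      |∑ p ∈ PP M a y, wt n p * jacobiSym G p| ≤ (∑ p ∈ PP M a y, wt n p) / 100) →
      ∑ b ∈ TT n (PP M a y), wt n b.2 * φ (insert b W) ≤
        (3 * n - η) * (∑ p ∈ PP M a y, wt n p) * φ W + K * (∑ p ∈ PP M a y, wt n p) * ψ W) :
    ∑ A ∈ (TT n (PP M a y)).powerset, Wt A * φ (W ∪ A) ≤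
      (1 - 4 * τ ^ 2) * Mass n (PP M a y) * φ W + K * ψ W +
        if Exc M (τ / (600 * n)) a y W then 2 * φ ∅ * 2 ^ W.card else 0 := by
  have hP : ∀ p ∈ PP M a y, 0 ≤ wt n p := fun p hp => (wt_pos (PP_gt hs hp)).le
  have hO : ∀ b ∈ W, b.2.Prime ∧ ¬b.2 ∣ M := fun b hb => (mem_PP.1 (mem_TT.1 (hW hb)).2).2.2
  have hu' : ∀ A ⊆ TT n (PP M a y), φ (W ∪ A) ≤ 2 ^ A.card * φ W := fun A hA =>
    hu W A fun b hb => (mem_union.1 hb).elim (hO b) fun k => (mem_PP.1 (mem_TT.1 (hA k)).2).2.2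
  have hθ : 0 ≤ 1 - 4 * τ ^ 2 := by nlinarith
  have t3 := mul_nonneg hK (h0' W)
  split_ifs with hE
  · have t1 := avg_triv W _ (h0 W) hP (by linarith) hu'
    have t2 : 0 ≤ (1 - 4 * τ ^ 2) * Mass n (PP M a y) * φ W :=
      mul_nonneg (mul_nonneg hθ (zero_le_one.trans (one_le_Mass hs a y))) (h0 W)
    have := hu ∅ W (by rwa [empty_union])
    rw [empty_union] at this
    linarith
  have s1 := hS fun G _ hG k => chars hn hM hs hτ hMa ha hay h1 hW hE G hG k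
  have s2 := avg W _ (h0 W) hP (by linarith) hu'
  have s3 : 1 + 3 * n * ∑ p ∈ PP M a y, wt n p ≤ Mass n (PP M a y) := by
    rw [← sum_TT _ (wt n), Mass, ← prod_TT _ fun p => 1 + wt n p]
    exact one_add_sum_le _ _ fun b hb => hP _ (mem_TT.1 hb).2
  have d0 : 0 ≤ ∑ p ∈ PP M a y, wt n p := sum_nonneg hP
  have n0 : (1 : ℝ) ≤ n := by exact_mod_cast hn
  set δ := ∑ p ∈ PP M a y, wt n p
  have d1 : δ ≤ 1 := by nlinarith
  have d2 : 16 * τ * (3 * n * δ) ≤ η * δ := by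
    have := mul_le_mul_of_nonneg_right hη d0
    linarith
  have d3 : (3 * n - η) * δ = 3 * n * δ - η * δ := by ring
  rw [d3] at s1
  set m := 3 * n * δ
  have s4 : 1 + 4 * m ^ 2 + (m - η * δ) ≤ (1 - 4 * τ ^ 2) * Mass n (PP M a y) := by
    refine le_trans ?_ (mul_le_mul_of_nonneg_left s3 hθ)
    have q1 := mul_le_mul_of_nonneg_right h2 (hτ.le.trans h1)
    have q2 := mul_le_mul_of_nonneg_left h1 hτ.le
    have q3 := mul_le_mul_of_nonneg_left (show m ≤ 1 by linarith) (sq_nonneg τ)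
    linarith
  have s5 := mul_le_mul_of_nonneg_right s4 (h0 W)
  have s6 := mul_le_mul_of_nonneg_left d1 t3
  linarith

open Classical in
theorem recur {M a y : ℕ} {θ K B : ℝ} {φ ψ : Finset (Gen n) → ℝ} {Ex : Finset (Gen n) → Prop}
    (hs : Sm n M) (h0 : ∀ W, 0 ≤ φ W) (hB : 0 ≤ B) (hay : a ≤ y)
    (hp : ∀ W ⊆ TT n (PP M 0 a), RG.Dist W →
      ∑ A ∈ (TT n (PP M a y)).powerset, Wt A * φ (W ∪ A) ≤
        θ * φ W + K * ψ W + if Ex W then B * 2 ^ W.card else 0)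
    (hE : ∑ Z ∈ (TT n (PP M 0 a)).powerset.filter Ex, Wt Z * 2 ^ Z.card ≤ 1) :
    LL M φ y ≤ θ * LL M φ a + K * LL M ψ a + B := by
  obtain ⟨u1, u2⟩ := PP_union M (Nat.zero_le a) hay
  have u3 : TT n (PP M 0 y) = TT n (PP M 0 a) ∪ TT n (PP M a y) := by
    rw [u1, TT, product_union]; rfl
  have u4 : Disjoint (TT n (PP M 0 a)) (TT n (PP M a y)) := disjoint_left.2 fun b h h' =>
    disjoint_left.1 u2 (mem_TT.1 h).2 (mem_TT.1 h').2
  have e1 : LL M φ y ≤ ∑ W ∈ (TT n (PP M 0 a)).powerset.filter RG.Dist,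
      Wt W * ∑ A ∈ (TT n (PP M a y)).powerset, Wt A * φ (W ∪ A) := by
    rw [LL, sum_filter, u3, sum_split u4, sum_filter]
    refine sum_le_sum fun W hW => ?_
    split_ifs with hd
    · rw [mul_sum]
      refine sum_le_sum fun A hA => ?_
      have e : Wt (W ∪ A) = Wt W * Wt A :=
        prod_union (u4.mono (mem_powerset.1 hW) (mem_powerset.1 hA))
      split_ifs
      · rw [e, mul_assoc]
      · exact mul_nonneg (Wt_nonneg hs (mem_powerset.1 hW))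
          (mul_nonneg (Wt_nonneg hs (mem_powerset.1 hA)) (h0 _))
    · exact (sum_eq_zero fun A _ => if_neg fun h => hd (h.mono subset_union_left)).le
  have e2 := sum_le_sum fun W (hW : W ∈ (TT n (PP M 0 a)).powerset.filter RG.Dist) =>
    mul_le_mul_of_nonneg_left (hp W (mem_powerset.1 (mem_filter.1 hW).1) (mem_filter.1 hW).2)
      (Wt_nonneg hs (mem_powerset.1 (mem_filter.1 hW).1))
  refine (e1.trans e2).trans ?_
  simp only [mul_add, sum_add_distrib]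
  refine add_le_add (add_le_add (le_of_eq ?_) (le_of_eq ?_)) ?_
  · rw [LL, mul_sum]
    exact sum_congr rfl fun W _ => by ring
  · rw [LL, mul_sum]
    exact sum_congr rfl fun W _ => by ring
  · have := mul_le_mul_of_nonneg_left hE hB
    rw [mul_one, mul_sum, sum_filter] at this
    refine le_trans (le_trans (sum_le_sum_of_subset_of_nonneg (filter_subset _ _) fun W hW _ =>
      mul_nonneg (Wt_nonneg hs (mem_powerset.1 hW)) (by split_ifs <;> positivity))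
      (le_of_eq (sum_congr rfl fun W _ => ?_))) this
    split_ifs <;> ring

end Aly

theorem aly : MERStmt → EXPStmt → ALYStmt := by
  intro hm hE n M η K C φ ψ hn hM hs hη hK h0 h0' hu hS hC
  have n0 : (1 : ℝ) ≤ n := by exact_mod_cast hn
  obtain ⟨τ, hτ, hτ', hτη⟩ : ∃ τ : ℝ, 0 < τ ∧ τ ≤ 1 / 8 ∧ 48 * n * τ ≤ η :=
    ⟨min (1 / 8) (η / (48 * n)), lt_min (by norm_num) (by positivity), min_le_left _ _, by
      have := min_le_right (1 / 8) (η / (48 * n))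
      rw [le_div_iff₀ (by positivity)] at this
      linarith⟩
  obtain ⟨a₀, ha₀⟩ := eventually_atTop.1 (hE n M 3 (τ / (600 * n)) 1 hM hs (by positivity) one_pos)
  obtain ⟨N, hN⟩ := exists_nat_ge (2400 * (n : ℝ) ^ 2 / τ)
  obtain ⟨y₁, hy₁⟩ := Aly.scale hm hn hM hs (a₀ + M + N) hτ (by linarith)
  have hC' : ∀ y, Aly.LL M ψ y ≤ C * Mass n (PP M 0 y) := hC
  have hC0 : 0 ≤ C := by
    have := (Aly.LL_nonneg hs h0' 0).trans (hC' 0)
    exact nonneg_of_mul_nonneg_left this (zero_lt_one.trans_le (one_le_Mass hs 0 0))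
  have hsum : 0 ≤ ∑ y ∈ range y₁, Aly.LL M φ y := sum_nonneg fun y _ => Aly.LL_nonneg hs h0 y
  have hB0 : 0 ≤ 2 * φ ∅ := by linarith [h0 ∅]
  have hKC := mul_nonneg hK hC0
  have hθ : 0 < 4 * τ ^ 2 := by positivity
  have hθ' : 0 ≤ 1 - 4 * τ ^ 2 := by nlinarith
  obtain ⟨D, hD0, hD⟩ : ∃ D : ℝ, 0 ≤ D ∧ 4 * τ ^ 2 * D = K * C + 2 * φ ∅ :=
    ⟨(K * C + 2 * φ ∅) / (4 * τ ^ 2), by positivity, mul_div_cancel₀ _ hθ.ne'⟩
  set C' : ℝ := D + ∑ y ∈ range y₁, Aly.LL M φ y with hC'd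
  refine ⟨C', fun y => ?_⟩
  change Aly.LL M φ y ≤ _
  induction y using Nat.strong_induction_on with
  | _ y ih =>
  have m1 := one_le_Mass hs 0 y
  by_cases hy : y < y₁
  · have := single_le_sum (f := Aly.LL M φ) (fun y _ => Aly.LL_nonneg hs h0 y) (mem_range.2 hy)
    exact (show Aly.LL M φ y ≤ C' by linarith).trans (le_mul_of_one_le_right (by linarith) m1)
  obtain ⟨a, k1, k2, k3, k4, k5⟩ := hy₁ y (not_lt.1 hy)
  have e1 := Aly.recur (ψ := ψ) hs h0 hB0 k2.le (fun W hW hd => Aly.point hn hM hs hK h0 h0' hτ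
    hτ' hτη hu (by omega) (hN.trans (by exact_mod_cast (by omega : N ≤ a))) k2.le k4 k5 hW
    (hS a y W hW hd)) (ha₀ a (by omega) a y le_rfl k3)
  have e2 := ih a k2
  have m2 := one_le_Mass hs 0 a
  have m3 := one_le_Mass hs a y
  have m4 : Mass n (PP M 0 y) = Mass n (PP M 0 a) * Mass n (PP M a y) := by
    obtain ⟨u1, u2⟩ := PP_union M (Nat.zero_le a) k2.le
    rw [u1, Mass, prod_union u2]; rfl
  have m5 : Mass n (PP M 0 a) ≤ Mass n (PP M 0 y) := by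
    rw [m4]
    exact le_mul_of_one_le_right (by linarith) m3
  have e3 := mul_le_mul_of_nonneg_left e2 (mul_nonneg hθ' (zero_le_one.trans m3))
  have e4 : (1 - 4 * τ ^ 2) * Mass n (PP M a y) * (C' * Mass n (PP M 0 a)) =
      (1 - 4 * τ ^ 2) * (C' * Mass n (PP M 0 y)) := by
    rw [m4]; ring
  have e5 : (K * C + 2 * φ ∅) * Mass n (PP M 0 y) ≤ 4 * τ ^ 2 * (C' * Mass n (PP M 0 y)) := by
    rw [← mul_assoc, ← hD]
    exact mul_le_mul_of_nonneg_right (mul_le_mul_of_nonneg_left (by linarith) hθ.le) (by linarith)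
  have e6 := mul_le_mul_of_nonneg_left (hC' a) hK
  have e7 := mul_le_mul_of_nonneg_left m5 hKC
  have e8 := mul_le_mul_of_nonneg_left m1 hB0
  linarith

end Pool.Agent.MP_a43263_nt.JC
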