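import Pool.Agent.MP_a43263_nt.RH.Spec

/-! THEOREM J, the analytic half: the machine of `RH` for a graph on the linear forms.
The forms outside `RF` are dummies: they carry no generators. Note: `/team-store/JAC_NOTE.md`. -/

set_option autoImplicit false

noncomputable section

namespace Pool.Agent.MP_a43263_nt.JC

open Finset Filter
open R2 (Sgn chi Ker sg pri PP chs Sc Shape MERStmt)
open RG
open RH (Smooth)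

variable {n : ℕ}

/-! ### the graph -/

/-- the real forms and the adjacency relation -/
structure Gr (n : ℕ) where
  RF : Finset (Ix n)
  ad : Tag n → Tag n → Bool

structure Gr.Ok (Γ : Gr n) : Prop where
  ir : ∀ t, Γ.ad t t = false
  non : ∀ k ∈ Γ.RF, ∃ h ∈ Γ.RF, h ≠ k ∧ Γ.ad (tg h) (tg k) = false
  con : ∀ B ⊆ Γ.RF, B.Nonempty →
    (∀ h ∈ B, ∀ k ∈ Γ.RF, Γ.ad (tg h) (tg k) = true → k ∈ B) → B = Γ.RF
  hall : ∀ B ⊆ Γ.RF, (∀ h ∈ B, ∀ k ∈ B, Γ.ad (tg h) (tg k) = false) →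
    2 * B.card ≤ (Γ.RF.filter fun k => ∃ h ∈ B, Γ.ad (tg h) (tg k) = true).card

namespace Gr

variable (Γ : Gr n)

/-- the tags of the real forms -/
def RT : Finset (Tag n) := Γ.RF.image tg

/-- the generators that belong to real forms -/
def re (W : Finset (Gen n)) : Finset (Gen n) := W.filter fun a => a.1 ∈ Γ.RT

def Yad (t : Tag n) (y : Finset (Ix n)) : ℕ := (y.filter fun h => Γ.ad (tg h) t = true).card

def Yc : Finset (Finset (Ix n)) :=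
  Γ.RF.powerset.filter fun y => ∀ k ∈ Γ.RF, Even (Γ.Yad (tg k) y)

/-- the exponent of the symbol between medium primes of types `f` and `g` -/
def expo (y y' : Finset (Ix n)) (f g : TL n) : ℕ :=
  (if Γ.ad f.1 g.1 = true then f.2.1.toNat * g.2.2.toNat + f.2.2.toNat * g.2.1.toNat else 0) +
    g.2.2.toNat * Γ.Yad g.1 y + g.2.1.toNat * Γ.Yad g.1 y'

def Osc (y y' : Finset (Ix n)) (π : Finset (TL n)) : Prop :=
  ∃ f ∈ π, ∃ g ∈ π, f.1 ≠ g.1 ∧ Odd (Γ.expo y y' f g)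

open Classical in
/-- the oscillating part of the count of the kernel -/
def osc (g : Gen n → Gen n → ℤ) (Y Y' : ℕ) (V : Finset (Gen n)) : ℝ :=
  ∑ y ∈ Γ.RF.powerset, ∑ y' ∈ Γ.RF.powerset, ∑ U ∈ (le Y' V).powerset,
    ∑ U' ∈ (le Y' V).powerset,
      if Γ.Osc y y' (pat (md Y Y' V) U U') then term g V y y' U U' else 0

/-- the vectors of the kernel made of whole forms and small generators -/
def rset (g : Gen n → Gen n → ℤ) (Y : ℕ) (V : Finset (Gen n)) :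
    Finset (Finset (Ix n) × Finset (Gen n)) :=
  (Γ.Yc ×ˢ (le Y V).powerset).filter fun x => symmDiff x.2 (ones V x.1) ∈ Ker g V

end Gr

/-! ### the data -/

/-- `D` gives the modulus, the pattern and the constants `c` (the character of a whole form at its
own primes); its fields `V0`, `dg` are not used -/
structure Dat3 (n : ℕ) where
  D : Dat n
  Γ : Gr n
  ex : Tag n → Tag n → Bool
  W0 : Finset (Gen n)
  g : Gen n → Gen n → ℤ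
  G : Tag n → Gen n → ℤ

namespace Dat3

variable (E : Dat3 n)

/-- a prime that belongs to a real form -/
def Ord (a : Gen n) : Prop := a.1 ∈ E.Γ.RT ∧ a.2.Prime ∧ ¬a.2 ∣ E.D.M

def Gv (t : Tag n) (x : Finset (Gen n)) : ℤ := ∏ a ∈ x, E.G t a

structure Ok : Prop where
  ok : E.D.Ok
  gr : E.Γ.Ok
  sgn : Sgn E.g
  fix : ∀ a ∈ E.W0, a.1.2 = none ∧ a.2 ≤ E.D.M ∧ ∀ t, Smooth E.D.M (E.G t a)
  ord : ∀ t a, E.Ord a → E.G t a = (if E.ex a.1 t = true ∧ a.2 % 4 = 3 then -1 else 1) *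
    if E.Γ.ad a.1 t = true then (a.2 : ℤ) else 1
  row : ∀ a b, E.Ord b → a ∈ E.W0 ∨ (E.Ord a ∧ a.2 ≠ b.2) → E.g a b = jacobiSym (E.G b.1 a) b.2
  dia : ∀ h ∈ E.Γ.RF, ∀ p : ℕ, p.Prime → ¬p ∣ E.D.M →
    E.g (tg h, p) (tg h, p) = jacobiSym (E.D.c h * E.G (tg h) (tg h, p)) p
  ind : ∀ U ⊆ E.W0, (∀ h ∈ E.Γ.RF, IsSquare (E.Gv (tg h) U)) → U = ∅

def VV (l : Ix n → ℕ) : Finset (Gen n) := E.W0 ∪ E.Γ.re (gens l)

/-- the character of a set of whole forms at the primes of the form `k` -/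
def Cy (y : Finset (Ix n)) (k : Ix n) : ℤ :=
  (if k ∈ y then E.D.c k else 1) *
    ∏ j ∈ y.filter (fun j => E.Γ.ad (tg j) (tg k) = true), (E.D.e j - E.D.e k)

/-- geometric classes -/
def Geo (y : Finset (Ix n)) (U : Finset (Gen n)) : Prop :=
  ∀ k ∈ E.Γ.RF, IsSquare (E.Gv (tg k) U * E.Cy y k)

open Classical in
def geoSet : Finset (Finset (Ix n) × Finset (Gen n)) :=
  (E.Γ.Yc ×ˢ Ker E.g E.W0).filter fun x => E.Geo x.1 x.2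

/-- a class that is not geometric satisfies the rows of `W0`, `W` and `W'` -/
def Bad (W W' : Finset (Gen n)) : Prop :=
  ∃ y ∈ E.Γ.Yc, ∃ U ⊆ E.W0 ∪ E.Γ.re W, ¬E.Geo y U ∧ (∀ b ∈ E.W0, ∏ a ∈ U, E.g a b = 1) ∧
    ∀ k ∈ E.Γ.RF, ∀ p : ℕ, (tg k, p) ∈ W ∪ W' →
      ∏ a ∈ U, E.g a (tg k, p) = jacobiSym (E.Cy y k) p

open Classical in
/-- the vectors of the kernel that the forms of `A` do not see -/
def KA (A : Finset (Ix n)) (W : Finset (Gen n)) : Finset (Finset (Gen n)) :=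
  (Ker E.g (E.W0 ∪ E.Γ.re W)).filter fun x => ∀ h ∈ A, IsSquare (E.Gv (tg h) x)

def phi (A : Finset (Ix n)) (W : Finset (Gen n)) : ℝ := √((E.KA A W).card)

end Dat3

open Classical in
/-- the sum of all terms with given frozen data -/
def keySum3 (S : Sc) (E : Dat3 n) (y y' : Finset (Ix n)) (f g : TL n)
    (ok : Finset (TL n) → Prop) (O O₁ O₂ : Finset (Gen n)) (i : ℕ) : ℝ :=
  ∑ l ∈ AA S E.D, ∑ U ∈ (le S.Y' (E.VV l)).powerset, ∑ U' ∈ (le S.Y' (E.VV l)).powerset,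
    ∑ s ∈ md S.Y S.Y' (E.VV l),
      if ok (pat (md S.Y S.Y' (E.VV l)) U U') ∧ tl U U' s = g ∧
          outer S (E.VV l) U U' f g s = O ∧ O ∩ U = O₁ ∧ O ∩ U' = O₂ ∧
          2 ^ i < nOf S (E.VV l) U U' f ∧ nOf S (E.VV l) U U' f ≤ 2 ^ (i + 1)
        then term E.g (E.VV l) y y' U U' else 0

/-! ### the statements -/

/-- the count of the kernel -/
def CNT3Stmt : Prop := ∀ (n : ℕ) (Γ : Gr n) (g : Gen n → Gen n → ℤ), Γ.Ok → Sgn g →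
  ∀ (V : Finset (Gen n)) (Y Y' J : ℕ), Y ≤ Y' → 1 ≤ J → (∀ a ∈ V, Y < a.2 → a.1 ∈ Γ.RT) →
  (∀ h ∈ Γ.RF, (V.filter fun a => a.1 = tg h ∧ Y' < a.2).card = 1) →
  (∀ h ∈ Γ.RF, 4 * J ≤ ((md Y Y' V).filter fun a => a.1 = tg h).card ∧
    ((md Y Y' V).filter fun a => a.1 = tg h).card ≤ 6 * J) →
  ((Ker g V).card : ℝ) ≤ Γ.osc g Y Y' V + 3 * ((Γ.rset g Y V).card : ℝ) +
    32768 ^ n * ((Ker g (le Y V)).card : ℝ) / 2 ^ J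

/-- rows as Jacobi symbols -/
def KC3Stmt : Prop := ∀ (n : ℕ) (E : Dat3 n), E.Ok →
  (∀ (x : Finset (Gen n)) (b : Gen n), E.Ord b →
    (∀ a ∈ x, a ∈ E.W0 ∨ (E.Ord a ∧ a.2 ≠ b.2)) →
    ∏ a ∈ x, E.g a b = jacobiSym (E.Gv b.1 x) b.2) ∧
  (∀ (x : Finset (Gen n)) (t : Tag n), (∀ a ∈ x, a ∈ E.W0 ∨ E.Ord a) → E.Gv t x ≠ 0 ∧
    ∀ p : ℕ, p.Prime → (p : ℤ) ∣ E.Gv t x → p ∣ E.D.M ∨ ∃ a ∈ x, E.Ord a ∧ a.2 = p) ∧
  (∀ W x : Finset (Gen n), (∀ a ∈ W, E.Ord a) → RG.Dist W → x ⊆ E.W0 ∪ W →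
    (∀ a ∈ x, a ∉ E.W0 → ∀ t, E.Γ.ad a.1 t = true → ∀ C : ℤ, Smooth E.D.M C →
      ¬IsSquare (E.Gv t x * C)) ∧
    ∀ C : Ix n → ℤ, (∀ h ∈ E.Γ.RF, Smooth E.D.M (C h) ∧ IsSquare (E.Gv (tg h) x * C h)) →
      x ⊆ E.W0) ∧
  (∀ (W : Finset (Gen n)) (t : Tag n), (∀ a ∈ W, E.Ord a) → ∃ σ : ℤ, (σ = 1 ∨ σ = -1) ∧
    E.Gv t W = σ * ∏ b ∈ W.filter (fun b => E.Γ.ad b.1 t = true), (b.2 : ℤ)) ∧
  (∀ (x x' : Finset (Gen n)) (t : Tag n),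
    E.Gv t x * E.Gv t x' = E.Gv t (symmDiff x x') * E.Gv t (x ∩ x') ^ 2) ∧
  ∀ (y : Finset (Ix n)) (k : Ix n), Smooth E.D.M (E.Cy y k)

/-- symbols that involve a whole form -/
def SYM3Stmt : Prop := ∀ (n : ℕ) (E : Dat3 n), E.Ok →
  (∀ y ⊆ E.Γ.RF, ∀ y' ⊆ E.Γ.RF, ∀ f g : Ix n, f ≠ g → ∃ (σ : ℤ) (e : ℕ), (σ = 1 ∨ σ = -1) ∧
    ∀ l, Adm E.D l → chi E.g (ones (E.VV l) y) (ones (E.VV l) y') =
      σ * jacobiSym (l g) (l f) ^ e) ∧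
  (∀ y : Finset (Ix n), ∀ b ∈ E.W0, ∀ l, Adm E.D l → ∏ a ∈ ones (E.VV l) y, E.g a b = 1) ∧
  (∀ y ⊆ E.Γ.RF, ∀ k ∈ E.Γ.RF, ∀ k' : Ix n, k ≠ k' → ∃ C : ℤ, ∀ l, Adm E.D l → ∀ p : ℕ,
    p.Prime → p ∣ l k → ∏ a ∈ ones (E.VV l) y, E.g a (tg k, p) =
      jacobiSym C p * jacobiSym (l k') p ^ E.Γ.Yad (tg k) y) ∧
  (∀ y ∈ E.Γ.Yc, ∀ k ∈ E.Γ.RF, ∀ l : Ix n → ℕ, Adm E.D l → ∀ p : ℕ, p.Prime → p ∣ l k →
    ∏ a ∈ ones (E.VV l) y, E.g a (tg k, p) = jacobiSym (E.Cy y k) p)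

/-- growth, the top level, and the contraction by one new prime -/
def STEP3Stmt : Prop := ∀ (n : ℕ) (E : Dat3 n), E.Ok →
  (∀ (A : Finset (Ix n)) (W X : Finset (Gen n)), (∀ a ∈ W ∪ X, a.2.Prime ∧ ¬a.2 ∣ E.D.M) →
    E.phi A (W ∪ X) ≤ 2 ^ X.card * E.phi A W) ∧
  (∀ W : Finset (Gen n), (∀ a ∈ W, a.2.Prime ∧ ¬a.2 ∣ E.D.M) → RG.Dist W →
    E.phi E.Γ.RF W ≤ 1) ∧
  ∀ A ⊆ E.Γ.RF, A ≠ E.Γ.RF → ∀ (W : Finset (Gen n)) (P : Finset ℕ) (w : ℕ → ℝ),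
    (∀ a ∈ W, a.2.Prime ∧ ¬a.2 ∣ E.D.M) → RG.Dist W →
    (∀ p ∈ P, p.Prime ∧ ¬p ∣ E.D.M ∧ 0 ≤ w p ∧ ∀ a ∈ W, a.2 ≠ p) →
    (∀ G : ℤ, G ≠ 0 → ¬IsSquare G →
      (∀ p : ℕ, p.Prime → (p : ℤ) ∣ G → p ∣ E.D.M ∨ ∃ t, (t, p) ∈ W) →
      |∑ p ∈ P, w p * jacobiSym G p| ≤ (∑ p ∈ P, w p) / 100) →
    ∑ b ∈ TT n P, w b.2 * E.phi A (insert b W) ≤
      (3 * n - 0.05) * (∑ p ∈ P, w p) * E.phi A W +
        30 * n * (∑ p ∈ P, w p) * ∑ h ∈ E.Γ.RF \ A, E.phi (insert h A) W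

open Classical in
/-- the abstract Lyapunov lemma -/
def ALYStmt : Prop := ∀ (n M : ℕ) (η K C : ℝ) (φ ψ : Finset (Gen n) → ℝ), 1 ≤ n → 0 < M → Sm n M →
  0 < η → 0 ≤ K → (∀ W, 0 ≤ φ W) → (∀ W, 0 ≤ ψ W) →
  (∀ W X : Finset (Gen n), (∀ a ∈ W ∪ X, a.2.Prime ∧ ¬a.2 ∣ M) → φ (W ∪ X) ≤ 2 ^ X.card * φ W) →
  (∀ (a y : ℕ) (W : Finset (Gen n)), W ⊆ TT n (PP M 0 a) → RG.Dist W →
    (∀ G : ℤ, G ≠ 0 → ¬IsSquare G → (∀ p : ℕ, p.Prime → (p : ℤ) ∣ G → p ∣ M ∨ ∃ t, (t, p) ∈ W) →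
      |∑ p ∈ PP M a y, wt n p * jacobiSym G p| ≤ (∑ p ∈ PP M a y, wt n p) / 100) →
    ∑ b ∈ TT n (PP M a y), wt n b.2 * φ (insert b W) ≤
      (3 * n - η) * (∑ p ∈ PP M a y, wt n p) * φ W + K * (∑ p ∈ PP M a y, wt n p) * ψ W) →
  (∀ y : ℕ, ∑ W ∈ (TT n (PP M 0 y)).powerset.filter RG.Dist, Wt W * ψ W ≤ C * Mass n (PP M 0 y)) →
  ∃ C' : ℝ, ∀ y : ℕ,
    ∑ W ∈ (TT n (PP M 0 y)).powerset.filter RG.Dist, Wt W * φ W ≤ C' * Mass n (PP M 0 y)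

open Classical in
/-- the kernel on the small primes is tight -/
def LYA3Stmt : Prop := ∀ (n : ℕ) (E : Dat3 n), E.Ok → ∃ C : ℝ, ∀ y : ℕ,
  ∑ W ∈ (TT n (PP E.D.M 0 y)).powerset.filter RG.Dist,
    Wt W * √((Ker E.g (E.W0 ∪ E.Γ.re W)).card) ≤ C * Mass n (PP E.D.M 0 y)

open Classical in
/-- classes that are not geometric are killed by the medium primes -/
def KIL3Stmt : Prop := ∀ (n : ℕ) (E : Dat3 n) (T J : ℕ), E.Ok →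
  Ev n E.D.M J fun S =>
    ∑ W ∈ (TT n (PP E.D.M 0 S.Y0)).powerset.filter RG.Dist,
      ∑ W' ∈ (TT n (PP E.D.M S.Y S.Y')).powerset,
      Wt W * Wt W' * (if (Ker E.g (E.W0 ∪ E.Γ.re W)).card ≤ T ∧ E.Bad W W' then 1 else 0) ≤
      3 * 8 ^ n * T / 2 ^ J * (Mass n (PP E.D.M 0 S.Y0) * Mass n (PP E.D.M S.Y S.Y'))

/-- the sum with frozen data -/
def KEY3Stmt : Prop := ∀ (n : ℕ) (E : Dat3 n) (J : ℕ), E.Ok →
  Ev n E.D.M J fun S => ∀ y ⊆ E.Γ.RF, ∀ y' ⊆ E.Γ.RF, ∀ (f g : TL n) (ok : Finset (TL n) → Prop)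
    (O O₁ O₂ : Finset (Gen n)) (i : ℕ), f.1 ≠ g.1 → Odd (E.Γ.expo y y' f g) →
    |keySum3 S E y y' f g ok O O₁ O₂ i| ≤
      (S.Z : ℝ) ^ 2 / ((S.Y0 : ℝ) ^ (30 * n) * ∏ b ∈ O.filter (fun b => S.Y < b.2), (b.2 : ℝ))

open Classical in
def OSC3Stmt : Prop := ∀ (n : ℕ) (E : Dat3 n) (J : ℕ) (ε : ℝ), E.Ok → 0 < ε →
  Ev n E.D.M J fun S => ∀ pr : Finset (Gen n) → Prop,
    |∑ l ∈ (AA S E.D).filter (fun l => pr (le S.Y (E.VV l))), E.Γ.osc E.g S.Y S.Y' (E.VV l)| ≤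
      ε * (S.Z : ℝ) ^ 2

open Classical in
/-- a positive proportion of the tuples has a kernel of the least size -/
def MKV3Stmt : Prop := ∀ (n : ℕ) (E : Dat3 n) (r : ℕ) (δ : ℝ), E.Ok →
  E.geoSet.card ≤ 2 ^ (r + 2) →
  (∀ l, Adm E.D l → Even (∑ h ∈ E.Γ.RF, (l h).primeFactors.card) →
    ∃ κ : ℕ, (Ker E.g (E.VV l)).card = 2 ^ κ ∧ κ % 2 = r % 2) → Even E.Γ.RF.card → 0 < δ →
  ∃ J₀ : ℕ, ∀ J : ℕ, J₀ ≤ J → Ev n E.D.M J fun S => δ * (S.Z : ℝ) ^ 2 ≤ (AA S E.D).card →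
    δ / 32 * (S.Z : ℝ) ^ 2 ≤
      (((AA S E.D).filter fun l => (Ker E.g (E.VV l)).card ≤ 2 ^ (r + 2)).card : ℝ)

theorem mkv_of (mer : MERStmt) (mes : MESStmt) (exp : EXPStmt) (dom : DOMStmt) (gg : GStmt)
    (cnt : CNT3Stmt) (kc : KC3Stmt) (sym : KC3Stmt → SYM3Stmt) (step : KC3Stmt → STEP3Stmt)
    (aly : MERStmt → EXPStmt → ALYStmt) (lya : STEP3Stmt → ALYStmt → LYA3Stmt)
    (kil : KC3Stmt → MERStmt → EXPStmt → KIL3Stmt) (key : KC3Stmt → SYM3Stmt → GStmt → KEY3Stmt)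
    (os : KEY3Stmt → OSC3Stmt)
    (mkv : KC3Stmt → SYM3Stmt → CNT3Stmt → MESStmt → DOMStmt → LYA3Stmt → KIL3Stmt → OSC3Stmt →
      MKV3Stmt) : MKV3Stmt :=
  mkv kc (sym kc) cnt mes dom (lya (step kc) (aly mer exp)) (kil kc mer exp)
    (os (key kc (sym kc) gg))

end Pool.Agent.MP_a43263_nt.JC
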