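import Pool.Agent.MP_a43263_nt.RG.Cnt
import Pool.Agent.MP_a43263_nt.JC.ASpec

/-! THEOREM J, module CNT: the count of the kernel for a graph on the forms. -/

set_option autoImplicit false

noncomputable section

namespace Pool.Agent.MP_a43263_nt.JC

open Finset
open R2 (Sgn chi Ker prod_sgn prod_symmDiff chi_comm chi_sgn chi_eq_rows chi_symmDiff_right mem_Ker)
open RG
open RG.Cnt (sum_powerset_union Rows coset sum_chi abs_chi Diag sum_diag Ker_eq tg_inj mem_le mem_md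
  mem_ones_tg Pr vec add vec_add add_add add_comm' disj tm logic union_symmDiff)

namespace Cnt

variable {n : ℕ} {Γ : Gr n}

theorem mem_RT {t : Tag n} : t ∈ Γ.RT ↔ ∃ h ∈ Γ.RF, t = tg h := by
  simp only [Gr.RT, mem_image, eq_comm]

theorem mem_Yc {y : Finset (Ix n)} :
    y ∈ Γ.Yc ↔ y ⊆ Γ.RF ∧ ∀ k ∈ Γ.RF, Even (Γ.Yad (tg k) y) := by
  simp only [Gr.Yc, mem_filter, mem_powerset]

theorem Yad_symmDiff (t : Tag n) (y y' : Finset (Ix n)) :
    Even (Γ.Yad t (symmDiff y y')) ↔ Even (Γ.Yad t y + Γ.Yad t y') := by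
  have h : ∀ z : Finset (Ix n),
      (∏ a ∈ z, (if Γ.ad (tg a) t = true then -1 else 1 : ℤ)) = (-1) ^ Γ.Yad t z := fun z => by
    rw [prod_ite, prod_const, prod_const_one, mul_one, Gr.Yad]
  have := prod_symmDiff (f := fun a : Ix n => (if Γ.ad (tg a) t = true then -1 else 1 : ℤ))
    (fun a => by split_ifs <;> simp) y y'
  rw [h, h, h, ← pow_add] at this
  rw [← neg_one_pow_eq_one_iff_even (R := ℤ) (by norm_num), this,
    neg_one_pow_eq_one_iff_even (by norm_num)]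

/-- the hypotheses on the set of generators -/
structure Hyp (Γ : Gr n) (V : Finset (Gen n)) (Y Y' J : ℕ) : Prop where
  ok : Γ.Ok
  hle : Y ≤ Y'
  hJ : 1 ≤ J
  tag : ∀ a ∈ V, Y < a.2 → a.1 ∈ Γ.RT
  one : ∀ h ∈ Γ.RF, (V.filter fun a => a.1 = tg h ∧ Y' < a.2).card = 1
  med : ∀ h ∈ Γ.RF, 4 * J ≤ ((md Y Y' V).filter fun a => a.1 = tg h).card ∧
    ((md Y Y' V).filter fun a => a.1 = tg h).card ≤ 6 * J

section
variable {V : Finset (Gen n)} {Y Y' J : ℕ}

theorem Hyp.split (H : Hyp Γ V Y Y' J) : le Y' V = le Y V ∪ md Y Y' V := by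
  ext a
  have := H.hle
  simp only [mem_union, mem_le, mem_md, ← and_or_left]
  exact and_congr_right fun _ => by omega

theorem Hyp.md_tag (H : Hyp Γ V Y Y' J) {a : Gen n} (ha : a ∈ md Y Y' V) :
    ∃ h ∈ Γ.RF, a.1 = tg h :=
  mem_RT.1 (H.tag a (mem_md.1 ha).1 (mem_md.1 ha).2.1)

theorem Hyp.card_V (H : Hyp Γ V Y Y' J) :
    V.card = (le Y V).card + (md Y Y' V).card + Γ.RF.card := by
  rw [← card_union_of_disjoint (disj V Y Y'), ← H.split,
    ← card_filter_add_card_filter_not (s := V) (fun a => a.2 ≤ Y')]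
  congr 1
  rw [card_eq_sum_card_fiberwise (f := fun a : Gen n => a.1) (t := Γ.RF.image tg)]
  · rw [sum_image fun _ _ _ _ e => tg_inj e, sum_congr rfl (g := fun _ => 1)]
    · simp
    · intro h hh
      rw [← H.one h hh, filter_filter]
      exact congrArg _ (filter_congr fun a _ => by rw [not_le, and_comm])
  · intro a ha
    simp only [coe_filter, Set.mem_ofPred_eq, not_le] at ha
    exact mem_coe.2 (H.tag a ha.1 (H.hle.trans_lt ha.2))

theorem Hyp.large (H : Hyp Γ V Y Y' J) {h : Ix n} (hh : h ∈ Γ.RF) :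
    ∃ a ∈ V, a.1 = tg h ∧ Y' < a.2 := by
  obtain ⟨a, ha⟩ := card_pos.1 ((H.one h hh).symm ▸ Nat.one_pos :
    0 < (V.filter fun a => a.1 = tg h ∧ Y' < a.2).card)
  exact ⟨a, (mem_filter.1 ha).1, (mem_filter.1 ha).2⟩

theorem Hyp.large_eq (H : Hyp Γ V Y Y' J) {a b : Gen n} (ha : a ∈ V) (hb : b ∈ V) (h1 : Y' < a.2)
    (h2 : Y' < b.2) (e : a.1 = b.1) : a = b := by
  obtain ⟨j, hj, k⟩ := mem_RT.1 (H.tag a ha (H.hle.trans_lt h1))
  exact card_le_one.1 (H.one j hj).le a (mem_filter.2 ⟨ha, k, h1⟩) b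
    (mem_filter.2 ⟨hb, e.symm.trans k, h2⟩)

def all (Γ : Gr n) (Y' : ℕ) (V : Finset (Gen n)) : Finset (Pr n) :=
  Γ.RF.powerset ×ˢ (le Y' V).powerset

theorem mem_all {p : Pr n} : p ∈ all Γ Y' V ↔ p.1 ⊆ Γ.RF ∧ p.2 ⊆ le Y' V := by
  simp only [all, mem_product, mem_powerset]

theorem add_mem {p q : Pr n} (hp : p ∈ all Γ Y' V) (hq : q ∈ all Γ Y' V) :
    add p q ∈ all Γ Y' V :=
  mem_all.2 ⟨symmDiff_subset_union.trans (union_subset (mem_all.1 hp).1 (mem_all.1 hq).1),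
    symmDiff_subset_union.trans (union_subset (mem_all.1 hp).2 (mem_all.1 hq).2)⟩

theorem vec_sub {p : Pr n} (hp : p ∈ all Γ Y' V) : vec V p ⊆ V :=
  symmDiff_subset_union.trans
    (union_subset ((mem_all.1 hp).2.trans (filter_subset _ _)) (filter_subset _ _))

theorem Hyp.sum_param (H : Hyp Γ V Y Y' J) (F : Finset (Gen n) → ℝ) :
    ∑ p ∈ all Γ Y' V, F (vec V p) = ∑ x ∈ V.powerset, F x := by
  refine sum_bij (fun p _ => vec V p) (fun p hp => mem_powerset.2 (vec_sub hp)) ?_ ?_ fun _ _ => rfl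
  · intro p hp q hq e
    have h1 : p.1 = q.1 := by
      ext h
      by_cases hh : h ∈ Γ.RF
      swap
      · exact iff_of_false (fun k => hh ((mem_all.1 hp).1 k)) fun k => hh ((mem_all.1 hq).1 k)
      obtain ⟨a, ha, k, hl⟩ := H.large hh
      have : ∀ r ∈ all Γ Y' V, a ∈ vec V r ↔ h ∈ r.1 := fun r hr => by
        have : a ∉ r.2 := fun h => not_lt.2 (mem_le.1 ((mem_all.1 hr).2 h)).2 hl
        simp [vec, mem_symmDiff, this, mem_ones_tg k, ha]
      rw [← this p hp, ← this q hq, e]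
    unfold vec at e
    rw [h1] at e
    exact Prod.ext h1 (symmDiff_left_injective _ e)
  · intro x hx
    rw [mem_powerset] at hx
    obtain ⟨y, hy0, hy⟩ : ∃ y ⊆ Γ.RF, ∀ h ∈ Γ.RF, h ∈ y ↔ ∃ a ∈ x, Y' < a.2 ∧ a.1 = tg h :=
      ⟨Γ.RF.filter fun h => ∃ a ∈ x, Y' < a.2 ∧ a.1 = tg h, filter_subset _ _, fun h hh => by
        simp only [mem_filter, hh, true_and]⟩
    refine ⟨(y, symmDiff x (ones V y)), mem_all.2 ⟨hy0, fun a ha => ?_⟩,
      symmDiff_symmDiff_cancel_right (ones V y) x⟩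
    have haV : a ∈ V :=
      symmDiff_subset_union.trans (union_subset hx (filter_subset _ _)) ha
    refine mem_le.2 ⟨haV, not_lt.1 fun hl => ?_⟩
    obtain ⟨j, hj, k⟩ := mem_RT.1 (H.tag a haV (H.hle.trans_lt hl))
    simp only [mem_symmDiff, mem_ones_tg k, hy j hj] at ha
    rcases ha with ⟨h1, h2⟩ | ⟨⟨-, b, h1, h2, h3⟩, h4⟩
    · exact h2 ⟨haV, a, h1, hl, k⟩
    · exact h4 (H.large_eq (hx h1) haV h2 hl (h3.trans k.symm) ▸ h1)

/-! ### the terms that do not oscillate -/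

variable {W : Finset (Gen n)} {p q : Pr n}

/-- the subgroup -/
def InR (Γ : Gr n) (W : Finset (Gen n)) (p : Pr n) : Prop :=
  (∀ k ∈ Γ.RF, Even (Γ.Yad (tg k) p.1)) ∧ ∀ a ∈ W, a ∉ p.2

theorem InR.add (hp : InR Γ W p) (hq : InR Γ W q) : InR Γ W (add p q) :=
  ⟨fun j hj => (Yad_symmDiff _ _ _).2 ((hp.1 j hj).add (hq.1 j hj)),
    fun a ha h => (mem_symmDiff.1 h).elim (fun k => hp.2 a ha k.1) fun k => hq.2 a ha k.1⟩

def Os (Γ : Gr n) (W : Finset (Gen n)) (p q : Pr n) : Prop := Γ.Osc p.1 q.1 (pat W p.2 q.2)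

theorem not_os (hW : ∀ a ∈ W, ∃ h ∈ Γ.RF, a.1 = tg h)
    (h : InR Γ W p ∨ InR Γ W q ∨ InR Γ W (add p q)) : ¬Os Γ W p q := by
  rintro ⟨f, hf, k, hk, -, ho⟩
  obtain ⟨s, hs, rfl⟩ := mem_image.1 hf
  obtain ⟨t, ht, rfl⟩ := mem_image.1 hk
  obtain ⟨j, hj, ej⟩ := hW t ht
  refine Nat.not_odd_iff_even.2 ?_ ho
  rcases h with h | h | h
  · simpa [Gr.expo, tl, h.2 s hs, h.2 t ht, ej] using (h.1 j hj).mul_left _
  · simpa [Gr.expo, tl, h.2 s hs, h.2 t ht, ej] using (h.1 j hj).mul_left _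
  · have e : ∀ a ∈ W, a ∈ q.2 ↔ a ∈ p.2 := fun a ha => by
      have : a ∉ symmDiff p.2 q.2 := h.2 a ha
      rw [mem_symmDiff] at this
      tauto
    have h1 := (Yad_symmDiff (tg j) p.1 q.1).1 (h.1 j hj)
    simp only [Gr.expo, tl, e s hs, e t ht, add_assoc, ← mul_add, ej]
    refine Even.add ?_ (h1.mul_left _)
    split_ifs
    · exact (Even.add_self _).mul_left _
    · exact Even.zero

theorem nosc (h : ¬Os Γ W p q) {s t : Gen n} (hs : s ∈ W) (ht : t ∈ W)
    (hne : s.1 ≠ t.1) : Even (Γ.expo p.1 q.1 (tl p.2 q.2 s) (tl p.2 q.2 t)) :=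
  Nat.not_odd_iff_even.1 fun k =>
    h ⟨_, mem_image_of_mem _ hs, _, mem_image_of_mem _ ht, hne, k⟩

/-- the label of a generator -/
def lab (U U' : Finset (Gen n)) (s : Gen n) : Bool × Bool := (decide (s ∈ U), decide (s ∈ U'))

/-- the conditions on a pair that does not oscillate -/
structure Cond (Γ : Gr n) (W : Finset (Gen n)) (p q : Pr n) : Prop where
  beta : ∀ t ∈ W, Even ((decide (t ∈ q.2)).toNat * Γ.Yad t.1 p.1 +
    (decide (t ∈ p.2)).toNat * Γ.Yad t.1 q.1)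
  alpha : ∀ s ∈ W, ∀ t ∈ W, Γ.ad s.1 t.1 = true → lab p.2 q.2 s ≠ (false, false) →
    lab p.2 q.2 t ≠ (false, false) → lab p.2 q.2 s = lab p.2 q.2 t

theorem Hyp.cond (H : Hyp Γ V Y Y' J) (h : ¬Os Γ (md Y Y' V) p q) : Cond Γ (md Y Y' V) p q := by
  have beta : ∀ t ∈ md Y Y' V, Even ((decide (t ∈ q.2)).toNat * Γ.Yad t.1 p.1 +
      (decide (t ∈ p.2)).toNat * Γ.Yad t.1 q.1) := fun t ht => by
    obtain ⟨j, hj, e⟩ := H.md_tag ht
    obtain ⟨k, hk, k1, k2⟩ := H.ok.non j hj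
    have := H.hJ
    obtain ⟨s, hs⟩ := card_pos.1 (lt_of_lt_of_le (by omega) (H.med k hk).1)
    rw [mem_filter] at hs
    have h1 := nosc h hs.1 ht fun e1 => k1 (tg_inj (hs.2.symm.trans (e1.trans e)))
    have h2 : Γ.ad s.1 t.1 = false := by rw [hs.2, e, k2]
    simpa only [Gr.expo, tl, h2, Bool.false_eq_true, if_false, zero_add] using h1
  refine ⟨beta, fun s hs t ht hne => ?_⟩
  have h1 := nosc h hs ht fun e => by rw [e, H.ok.ir] at hne; exact Bool.false_ne_true hne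
  have h2 := beta t ht
  rw [Gr.expo, if_pos (show Γ.ad (tl p.2 q.2 s).1 (tl p.2 q.2 t).1 = true from hne), add_assoc,
    Nat.even_add] at h1
  simp only [tl, h2, iff_true] at h1
  by_cases a : s ∈ p.2 <;> by_cases b : t ∈ q.2 <;> by_cases c : s ∈ q.2 <;>
    by_cases d : t ∈ p.2 <;> simp [lab, a, b, c, d] at h1 ⊢

/-- the remaining pairs -/
def Nn (Γ : Gr n) (W : Finset (Gen n)) (p q : Pr n) : Prop :=
  ¬Os Γ W p q ∧ ¬(InR Γ W p ∨ InR Γ W q ∨ InR Γ W (add p q))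

/-- the labels that occur on a form, and zero -/
def ty (W U U' : Finset (Gen n)) (h : Ix n) : Finset (Bool × Bool) :=
  insert (false, false) ((W.filter fun a => a.1 = tg h).image (lab U U'))

theorem mem_ty {U U' : Finset (Gen n)} {h : Ix n} {v : Bool × Bool} :
    v ∈ ty W U U' h ↔ v = (false, false) ∨ ∃ s ∈ W, s.1 = tg h ∧ lab U U' s = v := by
  simp only [ty, mem_insert, mem_image, mem_filter, and_assoc]

/-- the empty forms pay for the forms with several labels -/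
def Ad (Γ : Gr n) (τ : Ix n → Finset (Bool × Bool)) : Prop :=
  2 * (Γ.RF.filter fun h => 2 < (τ h).card).card ≤ (Γ.RF.filter fun h => (τ h).card ≤ 1).card ∧
    1 ≤ (Γ.RF.filter fun h => (τ h).card ≤ 1).card

theorem three : ∀ A : Finset (Bool × Bool), 2 < A.card → ∀ v, ∃ a ∈ A, a ≠ (false, false) ∧ a ≠ v := by
  decide

theorem two : ∀ A : Finset (Bool × Bool), ¬A.card ≤ 1 → ∃ a ∈ A, a ≠ (false, false) := by
  decide

theorem two' : ∀ A : Finset (Bool × Bool), ¬2 < A.card → (false, false) ∈ A → ∀ v ∈ A,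
    v ≠ (false, false) → ∀ a ∈ A, a = (false, false) ∨ a = v := by
  decide

theorem Hyp.ad (H : Hyp Γ V Y Y' J) (h : Nn Γ (md Y Y' V) p q) :
    Ad Γ (ty (md Y Y' V) p.2 q.2) := by
  have hc := H.cond h.1
  set W := md Y Y' V
  have get : ∀ {k : Ix n} {v : Bool × Bool}, v ∈ ty W p.2 q.2 k → v ≠ (false, false) →
      ∃ s ∈ W, s.1 = tg k ∧ lab p.2 q.2 s = v := fun h1 h2 => (mem_ty.1 h1).resolve_left h2
  have par : ∀ {j k : Ix n} {v w : Bool × Bool}, Γ.ad (tg j) (tg k) = true → v ∈ ty W p.2 q.2 j →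
      v ≠ (false, false) → w ∈ ty W p.2 q.2 k → w ≠ (false, false) → v = w := by
    intro j k v w e v1 v2 w1 w2
    obtain ⟨s, s1, s2, rfl⟩ := get v1 v2
    obtain ⟨t, t1, t2, rfl⟩ := get w1 w2
    exact hc.alpha s s1 t t1 (by rw [s2, t2, e]) v2 w2
  have nb : ∀ j k : Ix n, Γ.ad (tg j) (tg k) = true → 2 < (ty W p.2 q.2 j).card →
      (ty W p.2 q.2 k).card ≤ 1 := fun j k e hj => by
    by_contra hk
    obtain ⟨w, w1, w2⟩ := two _ hk
    obtain ⟨v, v1, v2, v3⟩ := three _ hj w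
    exact v3 (par e v1 v2 w1 w2)
  have h1 : 2 * (Γ.RF.filter fun h => 2 < (ty W p.2 q.2 h).card).card ≤
      (Γ.RF.filter fun h => (ty W p.2 q.2 h).card ≤ 1).card := by
    refine (H.ok.hall _ (filter_subset _ _) fun j hj k hk => ?_).trans
      (card_le_card fun k hk => ?_)
    · rw [← Bool.not_eq_true]
      intro e
      have := nb j k e (mem_filter.1 hj).2
      have := (mem_filter.1 hk).2
      omega
    · obtain ⟨k1, j, hj, e⟩ := mem_filter.1 hk
      exact mem_filter.2 ⟨k1, nb j k e (mem_filter.1 hj).2⟩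
  refine ⟨h1, ?_⟩
  by_contra h0
  have z : ∀ k ∈ Γ.RF, ¬(ty W p.2 q.2 k).card ≤ 1 := fun k hk e =>
    h0 (card_pos.2 ⟨k, mem_filter.2 ⟨hk, e⟩⟩)
  have b : ∀ k ∈ Γ.RF, ¬2 < (ty W p.2 q.2 k).card := fun k hk e => by
    have : 0 < (Γ.RF.filter fun h => 2 < (ty W p.2 q.2 h).card).card :=
      card_pos.2 ⟨k, mem_filter.2 ⟨hk, e⟩⟩
    omega
  obtain ⟨v, v0, hv⟩ : ∃ v : Bool × Bool, v ≠ (false, false) ∧ ∀ k ∈ Γ.RF, v ∈ ty W p.2 q.2 k := by
    rcases Γ.RF.eq_empty_or_nonempty with e | ⟨k0, hk0⟩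
    · exact ⟨(true, true), by simp, by simp [e]⟩
    obtain ⟨v, v1, v2⟩ := two _ (z k0 hk0)
    have := H.ok.con (Γ.RF.filter fun k => v ∈ ty W p.2 q.2 k) (filter_subset _ _)
      ⟨k0, mem_filter.2 ⟨hk0, v1⟩⟩ fun j hj k hk e => by
        obtain ⟨w, w1, w2⟩ := two _ (z k hk)
        exact mem_filter.2 ⟨hk, par e (mem_filter.1 hj).2 v2 w1 w2 ▸ w1⟩
    exact ⟨v, v2, filter_eq_self.1 this⟩
  have l1 : ∀ s ∈ W, lab p.2 q.2 s = (false, false) ∨ lab p.2 q.2 s = v := fun s hs => by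
    obtain ⟨k, hk, e⟩ := H.md_tag hs
    exact two' _ (b k hk) (mem_ty.2 (.inl rfl)) v (hv k hk) v0 _ (mem_ty.2 (.inr ⟨s, hs, e, rfl⟩))
  have l2 : ∀ k ∈ Γ.RF, Even (v.2.toNat * Γ.Yad (tg k) p.1 + v.1.toNat * Γ.Yad (tg k) q.1) :=
    fun k hk => by
      obtain ⟨s, s1, s2, s3⟩ := get (hv k hk) v0
      have := hc.beta s s1
      rw [s2] at this
      rw [← s3]
      exact this
  obtain ⟨_ | _, _ | _⟩ := v
  · exact v0 rfl
  · refine h.2 (.inl ⟨fun k hk => by simpa using l2 k hk, fun a ha k => ?_⟩)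
    simpa [lab, k] using l1 a ha
  · refine h.2 (.inr (.inl ⟨fun k hk => by simpa using l2 k hk, fun a ha k => ?_⟩))
    simpa [lab, k] using l1 a ha
  · refine h.2 (.inr (.inr ⟨fun k hk => (Yad_symmDiff _ _ _).2 (by simpa using l2 k hk),
      fun a ha k => ?_⟩))
    have := l1 a ha
    rcases mem_symmDiff.1 k with k | k <;> simp [lab, k.1, k.2] at this

theorem Nn_congr {y : Finset (Ix n)} {T T' : Finset (Gen n)} (e : ∀ a ∈ W, a ∈ T ↔ a ∈ T') :
    Nn Γ W p (y, T) ↔ Nn Γ W p (y, T') := by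
  have h1 : pat W p.2 T = pat W p.2 T' := image_congr fun s hs => by simp [tl, e s hs]
  have h2 : InR Γ W (y, T) ↔ InR Γ W (y, T') :=
    and_congr_right fun _ => forall₂_congr fun a ha => not_congr (e a ha)
  have h3 : InR Γ W (add p (y, T)) ↔ InR Γ W (add p (y, T')) :=
    and_congr_right fun _ => forall₂_congr fun a ha => by
      simp only [add, mem_symmDiff, e a ha]
  simp only [Nn, Os, h1, h2, h3]

/-! ### the number of labelings -/

open Classical in
theorem Hyp.card_ty (H : Hyp Γ V Y Y' J) {τ : Ix n → Finset (Bool × Bool)} (hτ : Ad Γ τ) :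
    (((md Y Y' V).powerset ×ˢ (md Y Y' V).powerset).filter
      fun x => ty (md Y Y' V) x.1 x.2 = τ).card * 2 ^ J ≤ 2 ^ (md Y Y' V).card := by
  set W := md Y Y' V
  let r : Ix n → ℕ := fun h => (W.filter fun a => a.1 = tg h).card
  let e : Ix n → ℕ := fun h => if (τ h).card ≤ 1 then 0 else if 2 < (τ h).card then 2 else 1
  have he : ∀ h, (τ h).card ≤ 2 ^ e h := fun h => by
    have := card_le_univ (τ h)
    simp only [Fintype.card_prod, Fintype.card_bool] at this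
    simp only [e]
    split_ifs <;> omega
  have h1 : ((W.powerset ×ˢ W.powerset).filter fun x => ty W x.1 x.2 = τ).card ≤
      (Γ.RF.pi fun h => (W.filter fun a => a.1 = tg h).pi fun _ => τ h).card := by
    refine card_le_card_of_injOn (fun x h _ s _ => lab x.1 x.2 s) (fun x hx => ?_)
      fun x hx x' hx' k => ?_
    · refine mem_coe.2 (mem_pi.2 fun h _ => mem_pi.2 fun s hs => ?_)
      rw [← (mem_filter.1 (mem_coe.1 hx)).2]
      exact mem_ty.2 (.inr ⟨s, (mem_filter.1 hs).1, (mem_filter.1 hs).2, rfl⟩)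
    · obtain ⟨a1, a2⟩ := mem_product.1 (mem_filter.1 (mem_coe.1 hx)).1
      obtain ⟨b1, b2⟩ := mem_product.1 (mem_filter.1 (mem_coe.1 hx')).1
      have k1 : ∀ s ∈ W, lab x.1 x.2 s = lab x'.1 x'.2 s := fun s hs => by
        obtain ⟨h, hh, e⟩ := H.md_tag hs
        exact congrFun (congrFun (congrFun (congrFun k h) hh) s) (mem_filter.2 ⟨hs, e⟩)
      simp only [lab, Prod.mk.injEq, decide_eq_decide] at k1
      refine Prod.ext ?_ ?_ <;> ext s
      · exact ⟨fun k => (k1 s (mem_powerset.1 a1 k)).1.1 k,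
          fun k => (k1 s (mem_powerset.1 b1 k)).1.2 k⟩
      · exact ⟨fun k => (k1 s (mem_powerset.1 a2 k)).2.1 k,
          fun k => (k1 s (mem_powerset.1 b2 k)).2.2 k⟩
  have h2 : (Γ.RF.pi fun h => (W.filter fun a => a.1 = tg h).pi fun _ => τ h).card ≤
      2 ^ ∑ h ∈ Γ.RF, e h * r h := by
    rw [card_pi, ← prod_pow_eq_pow_sum]
    refine prod_le_prod' fun h _ => ?_
    rw [card_pi, prod_const, pow_mul]
    exact Nat.pow_le_pow_left (he h) _
  have h3 : W.card = ∑ h ∈ Γ.RF, r h := by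
    rw [card_eq_sum_card_fiberwise (f := fun a : Gen n => a.1) (t := Γ.RF.image tg),
      sum_image fun _ _ _ _ e => tg_inj e]
    intro a ha
    obtain ⟨h, hh, e⟩ := H.md_tag (mem_coe.1 ha)
    exact mem_coe.2 (mem_image.2 ⟨h, hh, e.symm⟩)
  have h4 : ∑ h ∈ Γ.RF, (e h * r h + 4 * J * if (τ h).card ≤ 1 then 1 else 0) ≤
      ∑ h ∈ Γ.RF, (r h + 6 * J * if 2 < (τ h).card then 1 else 0) := by
    refine sum_le_sum fun h hh => ?_
    have : 4 * J ≤ r h ∧ r h ≤ 6 * J := H.med h hh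
    simp only [e]
    split_ifs <;> omega
  simp only [sum_add_distrib, ← mul_sum, ← card_filter] at h4
  obtain ⟨t1, t2⟩ := hτ
  refine (Nat.mul_le_mul_right _ (h1.trans h2)).trans ?_
  rw [← pow_add]
  refine Nat.pow_le_pow_right two_pos ?_
  rw [h3]
  nlinarith [Nat.mul_le_mul_left J t1, Nat.mul_le_mul_left J t2]

open Classical in
theorem Hyp.card_ad (H : Hyp Γ V Y Y' J) :
    (((md Y Y' V).powerset ×ˢ (md Y Y' V).powerset).filter
      fun x => Ad Γ (ty (md Y Y' V) x.1 x.2)).card * 2 ^ J ≤ 4096 ^ n * 2 ^ (md Y Y' V).card := by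
  rw [card_eq_sum_card_fiberwise (f := fun x : Finset (Gen n) × Finset (Gen n) =>
    ty (md Y Y' V) x.1 x.2) (t := univ.filter (Ad Γ))
    fun x hx => mem_coe.2 (mem_filter.2 ⟨mem_univ _, (mem_filter.1 (mem_coe.1 hx)).2⟩), sum_mul]
  refine (sum_le_card_nsmul _ _ (2 ^ (md Y Y' V).card) fun τ hτ => ?_).trans
    (Nat.mul_le_mul_right _ ((card_filter_le _ _).trans (le_of_eq ?_)))
  · exact (Nat.mul_le_mul_right _ (card_le_card fun x hx => mem_filter.2
      ⟨(mem_filter.1 (mem_filter.1 hx).1).1, (mem_filter.1 hx).2⟩)).trans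
      (H.card_ty (mem_filter.1 hτ).2)
  · simp [pow_mul]

end

/-! ### the sums -/

section
variable {V : Finset (Gen n)} {Y Y' J : ℕ} {g : Gen n → Gen n → ℤ}

theorem Hyp.full (H : Hyp Γ V Y Y' J) (hg : Sgn g) (p : Pr n) :
    ∑ q ∈ all Γ Y' V, tm g V p q = if Rows g V (vec V p) then 1 else 0 := by
  refine (H.sum_param fun x => (chi g (vec V p) x : ℝ) / 2 ^ V.card).trans ?_
  rw [← sum_div, sum_chi hg]
  split_ifs
  · exact div_self (pow_ne_zero _ two_ne_zero)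
  · exact zero_div _

theorem Hyp.total (H : Hyp Γ V Y Y' J) (hg : Sgn g) :
    ((Ker g V).card : ℝ) = ∑ p ∈ all Γ Y' V, ∑ q ∈ all Γ Y' V, tm g V p q := by
  rw [Ker_eq, card_filter, Nat.cast_sum, ← H.sum_param]
  refine sum_congr rfl fun p _ => ?_
  rw [H.full hg, Nat.cast_ite, Nat.cast_one, Nat.cast_zero]

open Classical in
theorem osc_eq : Γ.osc g Y Y' V =
    ∑ p ∈ all Γ Y' V, ∑ q ∈ all Γ Y' V, if Os Γ (md Y Y' V) p q then tm g V p q else 0 := by
  simp only [all, sum_product, Gr.osc]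
  exact sum_congr rfl fun y _ => sum_comm

open Classical in
theorem Hyp.rset_eq (H : Hyp Γ V Y Y' J) : Γ.rset g Y V =
    (all Γ Y' V).filter fun p => InR Γ (md Y Y' V) p ∧ Rows g V (vec V p) := by
  ext p
  simp only [Gr.rset, mem_filter, mem_product, mem_powerset, mem_Ker, mem_Yc]
  constructor
  · rintro ⟨⟨h1, h2⟩, -, h3⟩
    exact ⟨mem_all.2 ⟨h1.1, H.split ▸ h2.trans subset_union_left⟩,
      ⟨h1.2, fun a ha h => disjoint_left.1 (disj V Y Y') (h2 h) ha⟩, h3⟩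
  · rintro ⟨h1, ⟨h2, h3⟩, h4⟩
    refine ⟨⟨⟨(mem_all.1 h1).1, h2⟩, fun a ha => ?_⟩, vec_sub h1, h4⟩
    have := (mem_all.1 h1).2 ha
    rw [H.split, mem_union] at this
    exact this.resolve_right fun h => h3 a h ha

open Classical in
theorem Hyp.sum_a (H : Hyp Γ V Y Y' J) (hg : Sgn g) :
    ∑ p ∈ all Γ Y' V, ∑ q ∈ all Γ Y' V, (if InR Γ (md Y Y' V) p then tm g V p q else 0) =
      (Γ.rset g Y V).card := by
  rw [H.rset_eq, card_filter, Nat.cast_sum]
  refine sum_congr rfl fun p _ => ?_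
  rw [sum_ite_irrel, H.full hg, sum_const_zero]
  by_cases a : InR Γ (md Y Y' V) p <;> simp [a]

open Classical in
theorem Hyp.sum_b (H : Hyp Γ V Y Y' J) (hg : Sgn g) :
    ∑ p ∈ all Γ Y' V, ∑ q ∈ all Γ Y' V, (if InR Γ (md Y Y' V) q then tm g V p q else 0) =
      (Γ.rset g Y V).card := by
  rw [sum_comm, ← H.sum_a hg]
  refine sum_congr rfl fun p _ => sum_congr rfl fun q _ => ?_
  rw [tm, tm, chi_comm hg]

theorem sum_add {p : Pr n} (hp : p ∈ all Γ Y' V) (F : Pr n → ℝ) :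
    ∑ q ∈ all Γ Y' V, F q = ∑ q ∈ all Γ Y' V, F (add p q) :=
  sum_nbij' (add p) (add p) (fun _ h => add_mem hp h) (fun _ h => add_mem hp h)
    (fun q _ => add_add p q) (fun q _ => add_add p q) fun q _ => by rw [add_add]

open Classical in
theorem Hyp.sum_c (H : Hyp Γ V Y Y' J) (hg : Sgn g) :
    ∑ p ∈ all Γ Y' V, ∑ q ∈ all Γ Y' V,
      (if InR Γ (md Y Y' V) (add p q) then tm g V p q else 0) ≤ (Γ.rset g Y V).card := by
  rw [sum_congr rfl fun p hp => sum_add hp _, sum_comm]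
  have h1 : ∀ z ∈ all Γ Y' V, ∑ p ∈ all Γ Y' V,
      (if InR Γ (md Y Y' V) (add p (add p z)) then tm g V p (add p z) else 0) =
      if InR Γ (md Y Y' V) z ∧ Diag g V (vec V z) then 1 else 0 := fun z _ => by
    simp only [add_add, tm, vec_add]
    rw [sum_ite_irrel, sum_const_zero,
      H.sum_param fun x => (chi g x (symmDiff x (vec V z)) : ℝ) / 2 ^ V.card, sum_diag hg, ite_and]
  rw [sum_congr rfl h1, sum_boole, Nat.cast_le, H.rset_eq]
  rcases ((all Γ Y' V).filter fun z => InR Γ (md Y Y' V) z ∧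
    Diag g V (vec V z)).eq_empty_or_nonempty with h | ⟨w, h⟩
  · rw [h]; exact Nat.zero_le _
  · rw [mem_filter] at h
    refine card_le_card_of_injOn (add w) (fun z hz => ?_) fun z _ z' _ e => ?_
    · obtain ⟨k1, k2, k3⟩ := mem_filter.1 (mem_coe.1 hz)
      exact mem_coe.2 (mem_filter.2 ⟨add_mem h.1 k1, h.2.1.add k2,
        vec_add V w z ▸ h.2.2.rows hg k3⟩)
    · rw [← add_add w z, e, add_add]

open Classical in
theorem sum_ab (hg : Sgn g) (W : Finset (Gen n)) (p : Pr n) :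
    0 ≤ ∑ q ∈ all Γ Y' V, (if InR Γ W q then tm g V p q else 0) := by
  by_cases h : ∃ w ∈ all Γ Y' V, InR Γ W w ∧ chi g (vec V p) (vec V w) = -1
  · obtain ⟨w, h1, h2, h3⟩ := h
    have := sum_add h1 fun q => if InR Γ W q then tm g V p q else 0
    have h4 : ∀ q ∈ all Γ Y' V, (if InR Γ W (add w q) then tm g V p (add w q) else 0) =
        -if InR Γ W q then tm g V p q else 0 := fun q _ => by
      by_cases k : InR Γ W q
      · rw [if_pos k, if_pos (h2.add k), tm, tm, vec_add, chi_symmDiff_right hg, h3]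
        push_cast
        ring
      · rw [if_neg k, if_neg fun k1 => k (add_add w q ▸ h2.add k1), neg_zero]
    rw [sum_congr rfl h4, sum_neg_distrib] at this
    linarith
  · refine sum_nonneg fun q hq => ?_
    split_ifs with k
    · rw [tm, (chi_sgn hg _ _).resolve_right fun e => h ⟨q, hq, k, e⟩]
      positivity
    · rfl

open Classical in
theorem Hyp.rest_le (H : Hyp Γ V Y Y' J) (hg : Sgn g) (p : Pr n) :
    ∑ q ∈ all Γ Y' V, (if Nn Γ (md Y Y' V) p q then tm g V p q else 0) ≤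
      ∑ T ∈ (md Y Y' V).powerset, if Ad Γ (ty (md Y Y' V) p.2 T) ∧ Rows g (le Y V) (vec V p) then
        2 ^ Γ.RF.card * (2 ^ (le Y V).card / 2 ^ V.card) else 0 := by
  obtain ⟨c, hc⟩ : ∃ c : ℝ, c = 2 ^ (le Y V).card / 2 ^ V.card := ⟨_, rfl⟩
  have c0 : 0 ≤ c := by rw [hc]; positivity
  have h1 : ∀ y : Finset (Ix n), ∑ U ∈ (le Y' V).powerset,
      (if Nn Γ (md Y Y' V) p (y, U) then tm g V p (y, U) else 0) ≤
      ∑ T ∈ (md Y Y' V).powerset,
        if Ad Γ (ty (md Y Y' V) p.2 T) ∧ Rows g (le Y V) (vec V p) then c else 0 := fun y => by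
    rw [H.split, sum_powerset_union (disj V Y Y')]
    refine sum_le_sum fun T hT => ?_
    have h3 : ∀ W ∈ (le Y V).powerset,
        (if Nn Γ (md Y Y' V) p (y, W ∪ T) then tm g V p (y, W ∪ T) else 0) =
        if Nn Γ (md Y Y' V) p (y, T) then (chi g (vec V p) W : ℝ) / 2 ^ V.card *
          chi g (vec V p) (vec V (y, T)) else 0 := fun W hW => by
      refine if_congr (Nn_congr fun a ha => ?_) ?_ rfl
      · simp [disjoint_right.1 ((disj V Y Y').mono_left (mem_powerset.1 hW)) ha]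
      · rw [tm, show vec V (y, W ∪ T) = symmDiff W (vec V (y, T)) from
          union_symmDiff (mem_powerset.1 hW) (mem_powerset.1 hT) _,
          chi_symmDiff_right hg _ W, Int.cast_mul, mul_div_right_comm]
    rw [sum_congr rfl h3, sum_ite_irrel, sum_const_zero, ← sum_mul, ← sum_div, sum_chi hg]
    by_cases k : Nn Γ (md Y Y' V) p (y, T)
    · rw [if_pos k]
      by_cases r : Rows g (le Y V) (vec V p)
      · have k1 := H.ad k
        dsimp only at k1
        rw [if_pos r, if_pos (And.intro k1 r), ← hc]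
        exact mul_le_of_le_one_right c0 (abs_chi hg _ _)
      · rw [if_neg r, zero_div, zero_mul, if_neg fun k => r k.2]
    · rw [if_neg k]
      split_ifs <;> first | exact c0 | rfl
  rw [all, sum_product, ← hc]
  refine (sum_le_sum fun y _ => h1 y).trans (le_of_eq ?_)
  rw [sum_const, nsmul_eq_mul, card_powerset, mul_sum]
  exact sum_congr rfl fun i _ => by rw [mul_ite, mul_zero]; push_cast; rfl

open Classical in
theorem Hyp.sum_N (H : Hyp Γ V Y Y' J) (hg : Sgn g) :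
    ∑ p ∈ all Γ Y' V, ∑ T ∈ (md Y Y' V).powerset,
      (if Ad Γ (ty (md Y Y' V) p.2 T) ∧ Rows g (le Y V) (vec V p) then
        2 ^ Γ.RF.card * (2 ^ (le Y V).card / 2 ^ V.card) else 0 : ℝ) ≤
      32768 ^ n * (Ker g (le Y V)).card / 2 ^ J := by
  obtain ⟨c, hc⟩ : ∃ c : ℝ, c = 2 ^ Γ.RF.card * (2 ^ (le Y V).card / 2 ^ V.card) := ⟨_, rfl⟩
  have c0 : 0 ≤ c := by rw [hc]; positivity
  rw [← hc, all, sum_product]
  have h1 : ∀ y : Finset (Ix n), ∑ U ∈ (le Y' V).powerset, ∑ T ∈ (md Y Y' V).powerset,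
      (if Ad Γ (ty (md Y Y' V) U T) ∧ Rows g (le Y V) (vec V (y, U)) then c else 0) ≤
      ((((md Y Y' V).powerset ×ˢ (md Y Y' V).powerset).filter
        fun x => Ad Γ (ty (md Y Y' V) x.1 x.2)).card : ℝ) * ((Ker g (le Y V)).card * c) :=
    fun y => by
    rw [H.split, sum_powerset_union (disj V Y Y'), ← nsmul_eq_mul, ← sum_const, sum_filter,
      sum_product]
    refine sum_le_sum fun T hT => ?_
    rw [sum_comm]
    refine sum_le_sum fun T' _ => ?_
    have e : ∀ W ∈ (le Y V).powerset, ty (md Y Y' V) (W ∪ T) T' = ty (md Y Y' V) T T' :=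
      fun W hW => funext fun h => congrArg _ (image_congr fun s hs => by
        simp [lab, disjoint_right.1 ((disj V Y Y').mono_left (mem_powerset.1 hW))
          (mem_filter.1 (mem_coe.1 hs)).1])
    rw [sum_congr rfl fun W hW => by rw [e W hW], ← sum_filter, sum_const, nsmul_eq_mul]
    split_ifs with k
    · refine mul_le_mul_of_nonneg_right (Nat.cast_le.2 ?_) c0
      rw [Ker_eq]
      refine (card_le_card fun W hW => ?_).trans (coset hg _ _ (symmDiff T (ones V y)))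
      rw [mem_filter] at hW ⊢
      exact ⟨hW.1, union_symmDiff (mem_powerset.1 hW.1) (mem_powerset.1 hT) _ ▸ hW.2.2⟩
    · rw [filter_false_of_mem fun W _ h => k h.1, card_empty, Nat.cast_zero, zero_mul]
  refine (sum_le_sum fun y _ => h1 y).trans ?_
  have h4 : ((((md Y Y' V).powerset ×ˢ (md Y Y' V).powerset).filter
      fun x => Ad Γ (ty (md Y Y' V) x.1 x.2)).card : ℝ) * 2 ^ J ≤
      4096 ^ n * 2 ^ (md Y Y' V).card := by exact_mod_cast H.card_ad
  have h5 : (2 : ℝ) ^ Γ.RF.card ≤ 8 ^ n := by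
    rw [show (8 : ℝ) = 2 ^ 3 by norm_num, ← pow_mul]
    exact pow_le_pow_right₀ one_le_two ((card_le_univ _).trans_eq (by simp))
  rw [sum_const, nsmul_eq_mul, card_powerset, le_div_iff₀ (pow_pos two_pos _),
    show (32768 : ℝ) = 8 * 4096 by norm_num, mul_pow]
  have h6 := mul_le_mul h5 h4 (by positivity) (by positivity)
  have h7 := mul_le_mul_of_nonneg_right h6
    (show (0 : ℝ) ≤ (Ker g (le Y V)).card / 2 ^ (md Y Y' V).card by positivity)
  refine le_of_eq_of_le ?_ (h7.trans_eq ?_)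
  · rw [hc, H.card_V]
    simp only [pow_add]
    push_cast
    field_simp
  · field_simp

end

end Cnt

open JC.Cnt in
theorem cnt3 : CNT3Stmt := by
  classical
  intro n Γ g hn hg V Y Y' J h1 h2 h3 h4 h5
  have H : Hyp Γ V Y Y' J := ⟨hn, h1, h2, h3, h4, h5⟩
  have hN := (sum_le_sum fun p (_ : p ∈ all Γ Y' V) => H.rest_le hg p).trans (H.sum_N hg)
  have hab : 0 ≤ ∑ p ∈ all Γ Y' V, ∑ q ∈ all Γ Y' V,
      if InR Γ (md Y Y' V) p then (if InR Γ (md Y Y' V) q then tm g V p q else 0) else 0 :=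
    sum_nonneg fun p _ => by
      rw [sum_ite_irrel, sum_const_zero]
      split_ifs
      · exact sum_ab hg _ p
      · rfl
  have tot := sum_congr (s₁ := all Γ Y' V) rfl fun p _ =>
    sum_congr (s₁ := all Γ Y' V) rfl fun q _ => logic (e := Nn Γ (md Y Y' V) p q) Iff.rfl InR.add
      (fun a b => add_add p q ▸ a.add b) (fun a b => add_add q p ▸ a.add (add_comm' p q ▸ b))
      (not_os fun _ => H.md_tag) (tm g V p q)
  simp only [sum_add_distrib, ← mul_sum] at tot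
  rw [← H.total hg, ← osc_eq, H.sum_a hg, H.sum_b hg] at tot
  have hc := H.sum_c hg
  linarith

end Pool.Agent.MP_a43263_nt.JC
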