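import Pool.Agent.MP_a43263_nt.JC.KeyB

/-! THEOREM J, module KEY3: the sum with frozen data. -/

set_option autoImplicit false

noncomputable section

namespace Pool.Agent.MP_a43263_nt.JC

open Finset Filter
open R2 (Sgn chi pri Sc Core Shape mem_pri chi_comm chi_sgn chi_eq_rows chi_symmDiff_left
  chi_symmDiff_right chi_union_left chi_union_right)
open RG
open RG.KEY (pr mem_pr pr_pos dvd_pr pr_union pr_of_ne pr_of_eq pr_gens res T3 abs_J abs_mul_le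
  abs_pow_le abs_sgn abs_prod_le J_per exists_crt abs_res exists_ix final_bound lo_ok)
open RG.KEY.KD (nu not_dvd_both tl_eq_iff md_eq med_bound abs_ite abs_cast)

variable {nn : ℕ}

namespace KEY

namespace KD

variable {D : KD nn} {i : ℕ} {x : Ix nn → ℕ} {U U' : Finset (Gen nn)} {s : Gen nn}

theorem Tm.tags (h : D.Tm i x U U' s) (h0 : D.E.Ok) (hM : D.E.D.M ≤ D.S.Y) :
    D.f.1 ∈ D.E.Γ.RT ∧ D.g.1 ∈ D.E.Γ.RT := by
  have h1 : ∀ b ∈ md D.S.Y D.S.Y' (D.E.VV x), b.1 ∈ D.E.Γ.RT := by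
    intro b hb
    rw [md_VV h0 hM] at hb
    exact (mem_re.1 (mem_md.1 hb).1).2
  refine ⟨by_contra fun e => ?_, (tl_eq_iff.1 h.lab).1 ▸ h1 s h.hs⟩
  have h2 := h.lo
  rw [nOf, filter_false_of_mem fun b hb e' => e ((tl_eq_iff.1 e').1 ▸ h1 b hb), prod_empty] at h2
  exact absurd h2 (not_lt.2 Nat.one_le_two_pow)

theorem Tm.toOk (h : D.Tm i x U U' s) (sys : D.E.Ok) (rel : Rel nn D.S)
    (hM : D.E.D.M ≤ D.S.Y) (hf : D.f.1 = (tg D.f0)) (hg : D.g.1 = (tg D.g0))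
    (ne : D.f.1 ≠ D.g.1) : D.Ok := by
  have hO : ∀ b, b ∈ D.O ↔ b ∈ le D.S.Y' (D.E.VV x) ∧ (b.2 ≤ D.S.Y ∨
      (b.1 = D.f.1 ∧ tl U U' b ≠ D.f) ∨ (b.1 = D.g.1 ∧ b ≠ s)) :=
    fun b => by rw [← h.out, outer, mem_filter]
  refine ⟨sys, rel, hM, hf, hg, fun e => ne (by rw [hf, hg, e]),
    tg_mem_RT.1 (hf ▸ (h.tags sys hM).1), tg_mem_RT.1 (hg ▸ (h.tags sys hM).2), fun b hb => ?_,
    fun b hb => ?_,
    fun b hb k => ?_, h.o1 ▸ inter_subset_left, h.o2 ▸ inter_subset_left⟩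
  · refine (hO b).2 ⟨?_, .inl ?_⟩
    · rw [le_VV sys (hM.trans rel.Y_le)]
      exact mem_union_left _ hb
    · exact (sys.fix _ hb).2.1.trans hM
  · refine (mem_union.1 (mem_le.1 ((hO b).1 hb).1).1).imp_right fun k => ?_
    obtain ⟨j, hj, e, k⟩ := mem_re_gens.1 k
    refine ⟨e ▸ tg_mem_RT.2 hj, Nat.prime_of_mem_primeFactors k, fun e => ?_⟩
    exact absurd (Nat.eq_one_of_dvd_coprimes ((adm_of_mem rel h.hx).coprime_M j)
      (e ▸ Nat.dvd_of_mem_primeFactors k) sys.ok.two_dvd) (by norm_num)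
  · rcases ((hO b).1 hb).2 with k' | k' | k'
    · omega
    · refine .inl ⟨k'.1, ?_⟩
      rw [← h.o1, ← h.o2]
      simpa only [tl, mem_inter, hb, true_and] using k'.2
    · exact .inr k'.1

open Classical in
theorem keySum_eq (D : KD nn) (y y' : Finset (Ix nn)) (i : ℕ) :
    keySum3 D.S D.E y y' D.f D.g D.ok D.O D.O₁ D.O₂ i =
      ∑ t ∈ ((AA D.S D.E.D).sigma fun x => (le D.S.Y' (D.E.VV x)).powerset ×ˢ
        (le D.S.Y' (D.E.VV x)).powerset ×ˢ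
        md D.S.Y D.S.Y' (D.E.VV x)).filter
        (fun t => D.Tm i t.1 t.2.1 t.2.2.1 t.2.2.2),
        term D.E.g (D.E.VV t.1) y y' t.2.1 t.2.2.1 := by
  rw [sum_filter, sum_sigma, keySum3]
  refine sum_congr rfl fun x hx => ?_
  rw [sum_product]
  refine sum_congr rfl fun U hU => ?_
  rw [sum_product]
  refine sum_congr rfl fun U' hU' => sum_congr rfl fun s hs => if_congr ?_ rfl rfl
  exact ⟨fun ⟨a, b, c, d, e, f, g⟩ => ⟨hx, mem_powerset.1 hU, mem_powerset.1 hU', hs, a, b, c, d,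
    e, f, g⟩, fun h => ⟨h.ok, h.lab, h.out, h.o1, h.o2, h.lo, h.hi⟩⟩

def RR (D : KD nn) (i : ℕ) : ℕ := D.S.Z / (D.m D.f0 * 2 ^ i)

def QQ (D : KD nn) : ℕ := D.S.Z / D.m D.g0

open Classical in
theorem keySum_eq' (hD : D.Ok) (y y' : Finset (Ix nn)) (i : ℕ) :
    keySum3 D.S D.E y y' D.f D.g D.ok D.O D.O₁ D.O₂ i =
      ∑ r ∈ Icc 1 (D.RR i), ∑ q ∈ Icc 1 D.QQ, ∑ s ∈ D.P, ∑ n ∈ Ioc (2 ^ i) (2 * 2 ^ i), ∑ ω ∈ D.W,
        if D.Val r q s n ω ∧ D.ok (D.pt0 ω) then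
          term D.E.g (D.E.VV (D.pt r q n)) y y' (D.U1 n ω s) (D.U2 n ω s)
        else 0 := by
  rw [keySum_eq]
  simp only [← sum_product']
  rw [← sum_filter]
  symm
  refine sum_bij (fun t _ => ⟨D.pt t.1 t.2.1 t.2.2.2.1, D.U1 t.2.2.2.1 t.2.2.2.2 t.2.2.1,
    D.U2 t.2.2.2.1 t.2.2.2.2 t.2.2.1, (D.g.1, t.2.2.1)⟩) ?_ ?_ ?_ fun _ _ => rfl
  · rintro ⟨r, q, s, n, ω⟩ ht
    simp only [mem_filter, mem_product, mem_Ioc] at ht
    have h := (ht.2.1.back hD).2.2.2.2.2 i ht.1.2.2.2.1.1 (pow_succ' 2 i ▸ ht.1.2.2.2.1.2) ht.2.2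
    simp only [mem_filter, mem_sigma, mem_product, mem_powerset]
    exact ⟨⟨h.hx, h.hU, h.hU', h.hs⟩, h⟩
  · rintro ⟨r, q, s, n, ω⟩ ht ⟨r', q', s', n', ω'⟩ ht' e
    have h := (mem_filter.1 ht).2.1
    have h' := (mem_filter.1 ht').2.1
    simp only [Sigma.mk.injEq, heq_eq_eq, Prod.mk.injEq, true_and] at e h h' ⊢
    obtain ⟨e1, e2, e3, rfl⟩ := e
    obtain ⟨a1, a2, a3, a4, -⟩ := h.back hD
    obtain ⟨b1, b2, b3, b4, -⟩ := h'.back hD
    rw [e1, e2, e3, b1] at a1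
    rw [e1, b2] at a2
    rw [e2, ← a2, b3] at a3
    rw [e3, ← a2, b4] at a4
    subst a1
    have c1 := h.lf_f hD
    have c2 := h.lf_g hD
    rw [e1, h'.lf_f hD] at c1
    rw [e1, h'.lf_g hD] at c2
    have := h.one
    exact ⟨(Nat.eq_of_mul_eq_mul_left (Nat.mul_pos (hD.m_pos _) (by omega)) c1).symm,
      (Nat.eq_of_mul_eq_mul_left (hD.m_pos _) c2).symm, rfl, rfl,
      Prod.ext a2.symm (Prod.ext a3.symm a4.symm)⟩
  · rintro ⟨x, U, U', s⟩ ht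
    have h : D.Tm i x U U' s := (mem_filter.1 ht).2
    obtain ⟨r, q, n, ω, hv, rfl, rfl, rfl, e⟩ := h.fwd hD
    obtain ⟨a1, -, -, -, a5, -⟩ := hv.back hD
    have lo := h.lo
    have hi := h.hi
    have ok := h.ok
    rw [a1] at lo hi
    rw [a5] at ok
    have b1 := ((mem_AA.1 h.hx).1 D.f0).2
    have b2 := ((mem_AA.1 h.hx).1 D.g0).2
    have c1 := ((hv.adm hD).sqf D.f0).ne_zero
    have c2 := ((hv.adm hD).sqf D.g0).ne_zero
    rw [hv.lf_f hD] at b1 c1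
    rw [hv.lf_g hD] at b2 c2
    refine ⟨⟨r, q, s.2, n, ω⟩, ?_, by simp only [e]⟩
    simp only [mem_filter, mem_product, mem_Ioc, mem_Icc]
    refine ⟨⟨⟨Nat.pos_of_ne_zero (right_ne_zero_of_mul c1), ?_⟩,
      ⟨Nat.pos_of_ne_zero (right_ne_zero_of_mul c2), ?_⟩, hv.hs, ⟨lo, pow_succ' 2 i ▸ hi⟩, hv.hω⟩,
      hv, ok⟩
    · refine (Nat.le_div_iff_mul_le (Nat.mul_pos (hD.m_pos _) (by positivity))).2 (le_trans ?_ b1)
      rw [mul_comm]
      exact Nat.mul_le_mul_right _ (Nat.mul_le_mul_left _ lo.le)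
    · exact (Nat.le_div_iff_mul_le (hD.m_pos _)).2 (by rwa [mul_comm])

theorem fibre (D : KD nn) (m : ℕ) :
    (D.W.filter fun ω => nu ω = m).card ≤ (2 ^ (3 * (nn + 1) * (18 * nn * D.S.J))) ^ 3 := by
  rcases (D.W.filter fun ω => nu ω = m).eq_empty_or_nonempty with h | ⟨ω₀, h⟩
  · rw [h, card_empty]; exact Nat.zero_le _
  have h1 : ∀ ω ∈ D.W, (nu ω).primeFactors = ω.1.image Prod.snd := by
    intro ω hω
    rw [nu, ← prod_image (f := fun p => p) fun a ha b hb e => (mem_W.1 hω).2.dist a ha b hb e,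
      Nat.primeFactors_prod]
    intro p hp
    obtain ⟨b, hb, rfl⟩ := mem_image.1 hp
    exact (W_el hω hb).2.2.2
  let T : Finset (Gen nn) := univ ×ˢ m.primeFactors
  have h2 : T.card ≤ 3 * (nn + 1) * (18 * nn * D.S.J) := by
    obtain ⟨k, rfl⟩ := mem_filter.1 h
    rw [card_product, h1 _ k]
    exact Nat.mul_le_mul (by simp) (card_image_le.trans (mem_W.1 k).2.card)
  have h3 : (D.W.filter fun ω => nu ω = m) ⊆ T.powerset ×ˢ T.powerset ×ˢ T.powerset := by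
    intro ω hω
    obtain ⟨k, rfl⟩ := mem_filter.1 hω
    have : ω.1 ⊆ T := fun b hb => mem_product.2 ⟨mem_univ _, h1 _ k ▸ mem_image_of_mem _ hb⟩
    simp only [mem_product, mem_powerset]
    exact ⟨this, (mem_W.1 k).2.s1.trans this, (mem_W.1 k).2.s2.trans this⟩
  refine (card_le_card h3).trans ?_
  rw [card_product, card_product, card_powerset, ← sq, ← pow_succ']
  exact Nat.pow_le_pow_left (Nat.pow_le_pow_right (by norm_num) h2) _

theorem Ok.not_dvd_res (hD : D.Ok) {p : ℕ} (h : D.S.Y < p) {j k : Ix nn}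
    (hk : j ≠ k) : ¬(p : ℤ) ∣ res D.E.D.e j k := fun hd => by
  have := Nat.le_of_dvd hD.sys.ok.pos
    (Int.natCast_dvd_natCast.1 (hd.trans (hD.sys.ok.dv k j hk.symm)))
  have := hD.hM
  omega

theorem Ok.prod_le (hD : D.Ok) :
    ∏ b ∈ D.O.filter (fun b => D.S.Y < b.2), b.2 ≤ D.m D.f0 * D.m D.g0 := by
  rw [m, m, pr, pr, ← prod_union (disjoint_filter.2 fun b _ e e' =>
    hD.ne (tg_injective (e.symm.trans e')))]
  refine prod_le_prod_of_subset_of_one_le' (fun b hb => ?_) fun b hb _ => ?_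
  · obtain ⟨k1, k2⟩ := mem_filter.1 hb
    rcases hD.med b k1 k2 with k | k
    · exact mem_union_left _ (mem_filter.2 ⟨k1, k.1.trans hD.hf⟩)
    · exact mem_union_right _ (mem_filter.2 ⟨k1, k.trans hD.hg⟩)
  · rcases mem_union.1 hb with k | k <;>
      exact (hD.prime _ b (mem_filter.1 k).1 (mem_filter.1 k).2).pos

theorem Val.sizes {r q s n : ℕ} {ω : T3 nn} (hD : D.Ok) (h : D.Val r q s n ω) :
    D.m D.f0 ≤ D.S.Y' ^ 6 ∧ D.m D.g0 ≤ D.S.Y' ^ 6 ∧ D.S.Y < n ∧ n ≤ D.S.Y' ^ 3 := by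
  have h1 := h.ib.1 _ hD.rf hD.ne
  rw [cc, if_pos rfl] at h1
  have := h.one
  refine ⟨(Nat.le_mul_of_pos_right _ (by omega)).trans (hD.rel.le_pow h1),
    (Nat.le_mul_of_pos_right _ h.s_el.2.2.pos).trans (hD.rel.le_pow h.ia.1), ?_, le_trans ?_ h1.me⟩
  · obtain ⟨p, hp⟩ := Nat.nonempty_primeFactors.2 h.one
    exact (h.ib.2.1 p hp).trans_le (Nat.le_of_mem_primeFactors hp)
  · conv_lhs => rw [← Nat.prod_primeFactors_of_squarefree (h.sqf hD)]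
    refine prod_le_prod_of_subset_of_one_le' (fun p hp => mem_filter.2 ⟨?_, h.ib.2.1 p hp⟩)
      fun p hp _ => (Nat.prime_of_mem_primeFactors (mem_filter.1 hp).1).pos
    exact Nat.primeFactors_mono (dvd_mul_left _ _) h1.pos.ne' hp

open Classical in
/-- the sum in the shape of the oscillation estimate -/
theorem keySum_shape (hD : D.Ok) {y y' : Finset (Ix nn)} (i : ℕ) {ix : Fin (3 * nn) → Ix nn}
    (i1 : ∀ j, ix j ≠ D.g0) (i2 : ∀ h, h ≠ D.g0 → ∃ j, ix j = h)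
    {a : ℕ → ℕ → ℕ → ℤ} {b : ℕ → T3 nn → ℤ} {p : ℕ → T3 nn → ℤ → ℤ} {σ : ℕ → T3 nn → ℤ} {K : T3 nn → ℤ}
    (h : ∀ r q s n ω, D.Val r q s n ω → chi D.E.g
      (symmDiff (D.U1 n ω s) (ones (D.E.VV (D.pt r q n)) y))
      (symmDiff (D.U2 n ω s) (ones (D.E.VV (D.pt r q n)) y')) =
      a r q s * b n ω * p n ω q * jacobiSym (σ n ω * n ^ 1 * K ω) s) :
    keySum3 D.S D.E y y' D.f D.g D.ok D.O D.O₁ D.O₂ i =
      ∑ r ∈ Icc 1 (D.RR i), ∑ q ∈ Icc 1 D.QQ, ∑ s ∈ D.P.filter (· ∣ q),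
        (if D.IA r q s then (a r q s : ℝ) else 0) * ∑ n ∈ Ioc (2 ^ i) (2 * 2 ^ i), ∑ ω ∈ D.W,
          (if D.IB n ω ∧ D.ok (D.pt0 ω) then
            (b n ω : ℝ) / 2 ^ ((D.O ∪ (D.Nn n ∪ ω.1)).card + (D.E.Γ.RF.card + 1)) else 0) *
          jacobiSym (σ n ω * n * K ω) s *
          (if ω ∈ D.W ∧ IsCoprime (q : ℤ) (n * nu ω) then (p n ω q : ℝ) else 0) *
          ∏ j, if D.IP n ω (ix j) (D.al (ix j) * n * r + D.be (ix j) * q) then (1 : ℝ) else 0 := by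
  rw [keySum_eq' hD]
  refine sum_congr rfl fun r _ => sum_congr rfl fun q _ => ?_
  rw [sum_filter]
  refine sum_congr rfl fun s hs => ?_
  by_cases hd : s ∣ q
  swap
  · rw [if_neg hd]
    exact sum_eq_zero fun n _ => sum_eq_zero fun ω _ => if_neg fun k => hd k.1.dvd
  rw [if_pos hd, mul_sum]
  refine sum_congr rfl fun n hn => ?_
  rw [mul_sum]
  refine sum_congr rfl fun ω hω => ?_
  rw [prod_boole]
  by_cases hv : D.Val r q s n ω ∧ D.ok (D.pt0 ω)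
  · obtain ⟨-, -, d3, -, d5, d6⟩ := hv.1.disj hD
    rw [if_pos hv, if_pos hv.1.ia, if_pos ⟨hv.1.ib, hv.2⟩, if_pos ⟨hω, hv.1.cop⟩,
      if_pos fun j _ => hv.1.ip _ (i1 j), term, h r q s n ω hv.1,
      (hv.1.le_eq hD).2, NL, card_union_of_disjoint (by simp [d3, d5, d6]), card_singleton, pow_one]
    push_cast
    ring
  · rw [if_neg hv]
    by_cases k1 : D.IA r q s
    swap
    · rw [if_neg k1, zero_mul]
    by_cases k2 : D.IB n ω ∧ D.ok (D.pt0 ω)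
    swap
    · rw [if_neg k2]; simp
    by_cases k3 : ω ∈ D.W ∧ IsCoprime (q : ℤ) (n * nu ω)
    swap
    · rw [if_neg k3]; simp
    rw [if_neg (c := ∀ j ∈ univ, _)]
    · simp
    refine fun k4 => hv ⟨⟨hs, hd, Nat.one_le_two_pow.trans_lt (mem_Ioc.1 hn).1, hω, k1, k2.1, k3.2,
      fun h hh => ?_⟩, k2.2⟩
    obtain ⟨j, rfl⟩ := i2 _ hh
    exact k4 j (mem_univ _)

theorem exists_rho (hD : D.Ok) (n : ℕ) {ω : T3 nn} (hω : ω ∈ D.W) : ∃ ρ : ℤ, ∀ r q : ℤ,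
    (∀ h, h ≠ D.g0 → D.IP n ω h (D.al h * n * r + D.be h * q)) → q ≡ ρ * r [ZMOD nu ω] := by
  have hw := (mem_W.1 hω).2
  have h1 : ∀ b : Gen nn, ∃ j : Ix nn, b ∈ ω.1 → b.1 = (tg j) := fun b => by
    by_cases hb : b ∈ ω.1
    · exact (exists_tg (W_el hω hb).1).imp fun _ k _ => k
    · exact ⟨D.f0, fun k => absurd k hb⟩
  choose j hj using h1
  have jf : ∀ b ∈ ω.1, j b ≠ D.f0 := fun b hb e => (hw.tag b hb).1 (by rw [hj b hb, e, hD.hf])
  have jg : ∀ b ∈ ω.1, j b ≠ D.g0 := fun b hb e => (hw.tag b hb).2.1 (by rw [hj b hb, e, hD.hg])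
  obtain ⟨ρ, hρ⟩ := exists_crt ω.1 hw.dist (fun b hb => (W_el hω hb).2.2.2)
    (fun b => D.al (j b) * n) (fun b => D.be (j b)) fun b hb hd => by
      obtain ⟨-, k1, -, k2⟩ := W_el hω hb
      rcases (Nat.prime_iff_prime_int.1 k2).dvd_or_dvd hd with k | k
      · exact hD.not_dvd_res k1 (jf b hb).symm k
      · exact (hw.tag b hb).2.2 (Int.natCast_dvd_natCast.1 k)
  refine ⟨ρ, fun r q h => hρ r q fun b hb => ?_⟩
  obtain ⟨c, P, -, e0, -, -, e, -⟩ := h _ (jg b hb)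
  rw [e, e0 (tg_mem_RT.1 (hj b hb ▸ hw.rt b hb)), cc, if_neg (jf b hb), ← hj b hb]
  exact (Int.natCast_dvd_natCast.2 (((dvd_pr hb).mul_left _).mul_right _)).mul_left _

end KD

end KEY

open JC.KEY JC.KEY.KD in
theorem key3 (kc : KC3Stmt) (sym : SYM3Stmt) (gg : GStmt) : KEY3Stmt := by
  classical
  intro nn E J sys
  refine (((ev_Y (gg (3 * nn) (9 * nn) (EE nn - 10) (2 * EE nn) (128 ^ J)
    ((2 ^ (3 * (nn + 1) * (18 * nn * J))) ^ 3) (lo_ok nn))).and (ev_ge E.D.M))).mono ?_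
  rintro S - rfl rel ⟨G, hM0⟩ y hy y' hy' f g ok O O₁ O₂ i fg ho
  have hM := hM0.trans rel.Y0_le
  have z : Ix nn := (0, ⟨0, by have := sys.ok.two; omega⟩)
  by_cases hw : ∃ x U U' s, Tm ⟨S, E, f, g, z, z, O, O₁, O₂, ok⟩ i x U U' s
  swap
  · rw [keySum_eq ⟨S, E, f, g, z, z, O, O₁, O₂, ok⟩, filter_false_of_mem
      fun t _ h => hw ⟨_, _, _, _, h⟩, sum_empty, abs_zero]
    positivity
  obtain ⟨x, U, U', s, h⟩ := hw
  obtain ⟨f0, hf⟩ := exists_tg (RT_ne (h.tags sys hM).1)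
  obtain ⟨g0, hg⟩ := exists_tg (RT_ne (h.tags sys hM).2)
  let D : KD nn := ⟨S, E, f, g, f0, g0, O, O₁, O₂, ok⟩
  have h' : D.Tm i x U U' s := ⟨h.hx, h.hU, h.hU', h.hs, h.ok, h.lab, h.out, h.o1, h.o2, h.lo, h.hi⟩
  have hD : D.Ok := h'.toOk sys rel hM hf hg fg
  obtain ⟨r, q, n, ω, hv, rfl, rfl, rfl, -⟩ := h'.fwd hD
  obtain ⟨m1, m2, n1, n2⟩ := hv.sizes hD
  have lo := h'.lo
  have hi := h'.hi
  rw [(hv.back hD).1] at lo hi
  obtain ⟨a, b, p, σ, K, a1, a2, a3, a4, a5, a6⟩ := fact_term hD kc sym hy hy' ho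
  obtain ⟨ix, i1, i2⟩ := exists_ix hD.ne
  have H2 : E.D.M ≤ S.Y' := hM.trans rel.Y_le
  have Y1 : 1 ≤ S.Y' := le_trans sys.ok.pos H2
  have hE : 10 ≤ EE nn := le_trans (by omega) (le_EE nn)
  have hb : ∀ (h k : Ix nn) (m : ℕ), m ≤ S.Y' ^ 6 → |res E.D.e h k * m| ≤ (S.Y' : ℤ) ^ 8 := by
    intro h k m hm
    have : (E.D.M * m : ℕ) ≤ S.Y' ^ 8 :=
      (Nat.mul_le_mul H2 hm).trans (by rw [← pow_succ']; exact Nat.pow_le_pow_right Y1 (by norm_num))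
    rw [abs_mul, Nat.abs_cast]
    exact (mul_le_mul_of_nonneg_right (abs_res sys.ok h k) (Nat.cast_nonneg _)).trans
      (by exact_mod_cast this)
  have mp := hD.m_pos
  have main := G S.Y' (D.RR i) D.QQ (2 ^ i) D.P (T3 nn) D.W nu K σ (fun j => D.al (ix j))
    (fun j => D.be (ix j)) (fun r q s => if D.IA r q s then (a r q s : ℝ) else 0)
    (fun n ω => if D.IB n ω ∧ D.ok (D.pt0 ω) then
      (b n ω : ℝ) / 2 ^ ((D.O ∪ (D.Nn n ∪ ω.1)).card + (D.E.Γ.RF.card + 1)) else 0)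
    (fun n ω q => if ω ∈ D.W ∧ IsCoprime q (n * nu ω) then (p n ω q : ℝ) else 0)
    (fun n ω j z => if D.IP n ω (ix j) z then (1 : ℝ) else 0) rel.Y_le rel.hY'.le
    ((Nat.le_div_iff_mul_le (Nat.mul_pos (mp _) (by positivity))).2 (le_trans (by
      refine (Nat.mul_le_mul_left _ (Nat.mul_le_mul m1 (lo.le.trans n2))).trans ?_
      rw [← pow_add, ← pow_add]
      exact Nat.pow_le_pow_right Y1 (by omega)) rel.lo))
    ((Nat.le_div_iff_mul_le (mp _)).2 (le_trans (by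
      refine (Nat.mul_le_mul_left _ m2).trans ?_
      rw [← pow_add]
      exact Nat.pow_le_pow_right Y1 (by omega)) rel.lo))
    ((Nat.div_le_self _ _).trans rel.hi)
    (n1.le.trans (pow_succ' 2 i ▸ hi)) (lo.le.trans n2)
    (fun s hs => by
      obtain ⟨k1, k2⟩ := mem_filter.1 hs
      obtain ⟨k3, k4, k5⟩ := mem_pri.1 k1
      refine ⟨k5, k3, k4, fun j hd => ?_⟩
      rcases (Nat.prime_iff_prime_int.1 k5).dvd_or_dvd hd with k | k
      · exact hD.not_dvd_res k3 (i1 j) k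
      · exact k2 (Int.natCast_dvd_natCast.1 k))
    (fun j => ⟨hb _ _ _ m1, hb _ _ _ m2⟩)
    (fun ω hω => ⟨prod_pos fun b hb => (W_el hω hb).2.2.2.pos, (mem_W.1 hω).2.nu⟩)
    (fun m => by have := D.fibre m; exact this) a5 (fun _ _ _ => abs_ite (abs_cast (a1 _ _ _)))
    (fun n ω => abs_ite (by
      rw [abs_div, div_le_one (by positivity), abs_pow, abs_two]
      exact (abs_cast (a2 n ω)).trans (one_le_pow₀ one_le_two)))
    (fun _ _ _ => abs_ite (abs_cast (a3 _ _ _))) (fun _ _ _ _ => abs_ite (by simp))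
    (fun n ω q => by
      by_cases hω : ω ∈ D.W
      · have := IsCoprime.add_mul_left_left_iff (x := q) (y := (n * nu ω : ℤ)) (z := 1)
        rw [mul_one] at this
        simp only [a4 n ω hω, this]
      · simp only [hω, false_and, if_false])
    (fun n ω q h => by
      by_contra k
      exact h (if_neg fun k' => k k'.2))
    (fun n ω hω => (exists_rho hD n hω).imp fun ρ hρ r q h => hρ r q fun k hk => by
      obtain ⟨j, rfl⟩ := i2 _ hk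
      by_contra k
      exact h j (if_neg k))
  rw [keySum_shape hD i i1 i2 a6]
  refine main.trans ?_
  rw [← Nat.cast_prod, rel.hY]
  refine final_bound (Nat.div_mul_le_self _ _) (Nat.div_mul_le_self _ _) (rel.hY ▸ hD.prod_le) ?_
    (sys.ok.pos.trans_le hM0)
  refine prod_pos fun b hb => ?_
  have := (mem_filter.1 hb).2
  omega

end Pool.Agent.MP_a43263_nt.JC
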