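import Pool.Agent.MP_a43263_nt.JC.ASpec
import Pool.Agent.MP_a43263_nt.RG.Kil

/-! THEOREM J: classes that are not geometric are killed by the medium primes. -/

set_option autoImplicit false

noncomputable section

namespace Pool.Agent.MP_a43263_nt.JC

open Finset Filter
open R2 (Sgn chi Ker sg pri PP chs Sc MERStmt mem_pri mem_PP mem_Ker prod_sgn prod_symmDiff
  PP_eq_pri Ker_card_pos)
open RG

namespace Kil3

variable {n : ℕ}

theorem mem_re {Γ : Gr n} {W : Finset (Gen n)} {a : Gen n} : a ∈ Γ.re W ↔ a ∈ W ∧ a.1 ∈ Γ.RT :=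
  mem_filter

theorem tg_mem {Γ : Gr n} {k : Ix n} (hk : k ∈ Γ.RF) : tg k ∈ Γ.RT := mem_image_of_mem _ hk

theorem card_Yc (Γ : Gr n) : Γ.Yc.card ≤ 8 ^ n := by
  refine (card_le_univ _).trans_eq ?_
  rw [Fintype.card_finset, card_Ix, pow_mul]
  rfl

open Classical in
/-- one vector -/
theorem vec (hK : KC3Stmt) {E : Dat3 n} (hD : E.Ok) {Y0 Y Y' J : ℕ} (hMY : E.D.M ≤ Y)
    (h0 : Y0 ≤ Y) (hθ : J * Real.log 128 - 0.1 ≤ ∑ p ∈ pri Y Y', (1 : ℝ) / p)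
    {W : Finset (Gen n)} (hW : W ⊆ TT n (PP E.D.M 0 Y0))
    (hX : ¬Exc E.D.M 1 Y Y' W) {y : Finset (Ix n)} {U : Finset (Gen n)} (hU : U ⊆ E.W0 ∪ E.Γ.re W)
    (hg : ¬E.Geo y U) :
    ∑ W' ∈ (TT n (PP E.D.M Y Y')).powerset, Wt W' *
      (if ∀ k ∈ E.Γ.RF, ∀ p : ℕ, (tg k, p) ∈ W' →
        ∏ a ∈ U, E.g a (tg k, p) = jacobiSym (E.Cy y k) p then 1 else 0) ≤
      2 / 2 ^ J * Mass n (PP E.D.M Y Y') := by
  have hV : ∀ a ∈ E.Γ.re W, E.Ord a := fun a ha =>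
    ⟨(mem_re.1 ha).2, (mem_PP.1 (mem_TT.1 (hW (mem_re.1 ha).1)).2).2.2.1,
      (mem_PP.1 (mem_TT.1 (hW (mem_re.1 ha).1)).2).2.2.2⟩
  have hn : 1 ≤ n := by have := hD.ok.two; omega
  obtain ⟨k, hk⟩ := not_forall.1 hg
  obtain ⟨hkR, hk⟩ := Classical.not_imp.1 hk
  obtain ⟨G, m, hN, hsq, hG⟩ := RG.Kil.kernel hk
  have hpr : ∀ p ∈ G.natAbs.primeFactors, p ∣ E.D.M ∨ ∃ t, (t, p) ∈ W := by
    intro p hp
    have hp1 := Nat.prime_of_mem_primeFactors hp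
    have hp' : Prime (p : ℤ) := Nat.prime_iff_prime_int.1 hp1
    have h1 : (p : ℤ) ∣ E.Gv (tg k) U * E.Cy y k := by
      rw [hN]
      exact (Int.natCast_dvd.2 (Nat.dvd_of_mem_primeFactors hp)).mul_right _
    rcases hp'.dvd_or_dvd h1 with h2 | h2
    · rcases ((hK n E hD).2.1 U (tg k) fun a ha =>
        (mem_union.1 (hU ha)).imp_right (hV a)).2 p hp1 h2 with h3 | ⟨a, ha, h3, rfl⟩
      · exact .inl h3
      · rcases mem_union.1 (hU ha) with h4 | h4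
        · obtain ⟨j, -, hj⟩ := mem_image.1 h3.1
          exact absurd (hD.fix a h4).1 (hj ▸ tg_ne_none j)
        · exact .inr ⟨a.1, (mem_re.1 h4).1⟩
    · exact .inl (((hK n E hD).2.2.2.2.2 y k).2 p hp1 h2)
  have e5 : chs G Y Y' ≤ 1 := (le_abs_self _).trans (not_lt.1 fun h => hX ⟨G, hsq, hG, hpr, h⟩)
  have hrow : ∀ p ∈ PP E.D.M Y Y', ∏ a ∈ U, E.g a (tg k, p) = jacobiSym (E.Gv (tg k) U) p := by
    intro p hp
    obtain ⟨e2, -, e3, e4⟩ := mem_PP.1 hp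
    refine (hK n E hD).1 U (tg k, p) ⟨tg_mem hkR, e3, e4⟩ fun a ha =>
      (mem_union.1 (hU ha)).imp_right fun hb => ⟨hV a hb, fun e => ?_⟩
    have := (mem_PP.1 (mem_TT.1 (hW (mem_re.1 hb).1)).2).2.1
    have e' : a.2 = p := e
    omega
  have hsg : ∀ p ∈ PP E.D.M Y Y', jacobiSym G p = 1 ∨ jacobiSym G p = -1 := by
    intro p hp
    obtain ⟨e2, -, e3, e4⟩ := mem_PP.1 hp
    refine jacobiSym.eq_one_or_neg_one ?_
    rw [Int.gcd, Int.natAbs_natCast, Nat.gcd_comm]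
    refine (e3.coprime_iff_not_dvd).2 fun h => ?_
    rcases hpr p (Nat.mem_primeFactors.2 ⟨e3, h, hsq.ne_zero⟩) with h1 | ⟨t, h1⟩
    · exact e4 h1
    · have := (mem_PP.1 (mem_TT.1 (hW h1)).2).2.1
      omega
  let Q := (PP E.D.M Y Y').filter fun p => jacobiSym G p = -1
  let F : Finset (Gen n) := Q.image fun p => (tg k, p)
  have hF : F ⊆ TT n (PP E.D.M Y Y') := by
    intro b hb
    obtain ⟨p, hp, rfl⟩ := mem_image.1 hb
    exact mem_TT.2 ⟨tg_ne_none k, (mem_filter.1 hp).1⟩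
  have hw : ∀ b ∈ TT n (PP E.D.M Y Y'), 0 ≤ wt n b.2 := fun b hb =>
    (wt_pos (PP_gt hD.ok.sm (mem_TT.1 hb).2)).le
  have e1 : ∑ W' ∈ (TT n (PP E.D.M Y Y')).powerset, Wt W' *
      (if ∀ k ∈ E.Γ.RF, ∀ p : ℕ, (tg k, p) ∈ W' →
        ∏ a ∈ U, E.g a (tg k, p) = jacobiSym (E.Cy y k) p then 1 else 0) ≤
      ∏ b ∈ TT n (PP E.D.M Y Y') \ F, (1 + wt n b.2) := by
    simp only [mul_ite, mul_one, mul_zero]
    rw [← sum_filter, prod_one_add]
    refine sum_le_sum_of_subset_of_nonneg (fun W' hW' => ?_) fun W' hW' _ =>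
      Wt_nonneg hD.ok.sm ((mem_powerset.1 hW').trans sdiff_subset)
    obtain ⟨k1, k2⟩ := mem_filter.1 hW'
    refine mem_powerset.2 fun b hb => mem_sdiff.2 ⟨mem_powerset.1 k1 hb, fun hbF => ?_⟩
    obtain ⟨p, hp, rfl⟩ := mem_image.1 hbF
    have h1 := k2 k hkR p hb
    have h2 := prod_sgn U fun a _ => hD.sgn.2 a (tg k, p)
    have h3 : jacobiSym (E.Gv (tg k) U * E.Cy y k) p = 1 := by
      rw [jacobiSym.mul_left, ← h1, ← hrow p (mem_filter.1 hp).1]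
      rcases h2 with h2 | h2 <;> rw [h2] <;> norm_num
    rw [hN, jacobiSym.mul_left, jacobiSym.pow_left, (mem_filter.1 hp).2] at h3
    nlinarith [sq_nonneg (jacobiSym m p)]
  have e2 : (∏ b ∈ TT n (PP E.D.M Y Y') \ F, (1 + wt n b.2)) * ∏ b ∈ F, (1 + wt n b.2) =
      Mass n (PP E.D.M Y Y') := by
    rw [prod_sdiff hF, Mass, ← prod_TT _ fun p => 1 + wt n p]
  have e3 : Real.exp (∑ p ∈ Q, (1 : ℝ) / p) ≤ ∏ b ∈ F, (1 + wt n b.2) := by
    rw [prod_image fun _ _ _ _ e => (Prod.mk.inj e).2, Real.exp_sum]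
    exact prod_le_prod (fun _ _ => (Real.exp_pos _).le) fun p hp =>
      RG.Kil.exp_le hn (PP_gt hD.ok.sm (mem_filter.1 hp).1)
  have e4 : 2 * ∑ p ∈ Q, (1 : ℝ) / p = ∑ p ∈ pri Y Y', (1 : ℝ) / p - chs G Y Y' := by
    rw [chs, ← PP_eq_pri hD.ok.pos hMY, ← sum_sub_distrib, sum_filter, mul_sum]
    refine sum_congr rfl fun p hp => ?_
    rcases hsg p hp with k | k <;> rw [k] <;> norm_num
    ring
  have e6 : (2 : ℝ) ^ J / 2 ≤ ∏ b ∈ F, (1 + wt n b.2) := by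
    refine le_trans ?_ e3
    have l1 : Real.log 128 = 7 * Real.log 2 := by
      rw [show (128 : ℝ) = 2 ^ 7 by norm_num, Real.log_pow]; norm_num
    have l2 := Real.log_two_gt_d9
    have l3 : (2 : ℝ) ^ J / 2 = Real.exp (J * Real.log 2 - Real.log 2) := by
      rw [Real.exp_sub, ← Real.log_pow, Real.exp_log (by positivity), Real.exp_log (by norm_num)]
    have l4 : 0 ≤ J * Real.log 2 := mul_nonneg (Nat.cast_nonneg J) (by linarith)
    rw [l3, Real.exp_le_exp]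
    rw [l1] at hθ
    linarith
  have e7 : 0 ≤ ∏ b ∈ TT n (PP E.D.M Y Y') \ F, (1 + wt n b.2) :=
    prod_nonneg fun b hb => by linarith [hw b (mem_sdiff.1 hb).1]
  refine e1.trans ?_
  rw [← e2, div_mul_eq_mul_div, le_div_iff₀ (by positivity)]
  nlinarith [mul_le_mul_of_nonneg_left e6 e7]

open Classical in
/-- the vectors with prescribed rows -/
def coset (E : Dat3 n) (W : Finset (Gen n)) (y : Finset (Ix n)) : Finset (Finset (Gen n)) :=
  (E.W0 ∪ E.Γ.re W).powerset.filter fun U => (∀ b ∈ E.W0, ∏ a ∈ U, E.g a b = 1) ∧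
    ∀ k ∈ E.Γ.RF, ∀ p : ℕ, (tg k, p) ∈ W → ∏ a ∈ U, E.g a (tg k, p) = jacobiSym (E.Cy y k) p

theorem mem_coset {E : Dat3 n} {W U : Finset (Gen n)} {y : Finset (Ix n)} : U ∈ coset E W y ↔
    U ⊆ E.W0 ∪ E.Γ.re W ∧ (∀ b ∈ E.W0, ∏ a ∈ U, E.g a b = 1) ∧
    ∀ k ∈ E.Γ.RF, ∀ p : ℕ, (tg k, p) ∈ W → ∏ a ∈ U, E.g a (tg k, p) = jacobiSym (E.Cy y k) p := by
  classical
  simp only [coset, mem_filter, mem_powerset]

theorem card_coset {E : Dat3 n} (hD : E.Ok) (W : Finset (Gen n))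
    (y : Finset (Ix n)) : (coset E W y).card ≤ (Ker E.g (E.W0 ∪ E.Γ.re W)).card := by
  rcases (coset E W y).eq_empty_or_nonempty with h | ⟨U0, h0⟩
  · simp [h]
  obtain ⟨a1, a2, a3⟩ := mem_coset.1 h0
  refine card_le_card_of_injOn (fun U => symmDiff U U0) (fun U hU => ?_)
    fun U _ U' _ e => symmDiff_left_injective U0 e
  obtain ⟨b1, b2, b3⟩ := mem_coset.1 (mem_coe.1 hU)
  refine mem_coe.2 (mem_Ker.2 ⟨symmDiff_le_sup.trans (sup_le b1 a1), fun b hb => ?_⟩)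
  rw [prod_symmDiff fun a => hD.sgn.2 a b]
  rcases mem_union.1 hb with hb | hb
  · rw [a2 b hb, b2 b hb, one_mul]
  · obtain ⟨t, p⟩ := b
    obtain ⟨hb, hb'⟩ := mem_re.1 hb
    obtain ⟨k, hk, rfl⟩ := mem_image.1 hb'
    have h2 := prod_sgn U0 fun a _ => hD.sgn.2 a (tg k, p)
    rw [b3 k hk p hb, ← a3 k hk p hb]
    rcases h2 with h2 | h2 <;> rw [h2] <;> norm_num

open Classical in
/-- one small configuration -/
theorem conf (hK : KC3Stmt) {E : Dat3 n} (hD : E.Ok) {Y0 Y Y' J : ℕ} (T : ℕ) (hMY : E.D.M ≤ Y)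
    (h0 : Y0 ≤ Y) (hθ : J * Real.log 128 - 0.1 ≤ ∑ p ∈ pri Y Y', (1 : ℝ) / p)
    {W : Finset (Gen n)} (hW : W ⊆ TT n (PP E.D.M 0 Y0)) :
    ∑ W' ∈ (TT n (PP E.D.M Y Y')).powerset, Wt W' *
      (if (Ker E.g (E.W0 ∪ E.Γ.re W)).card ≤ T ∧ E.Bad W W' then 1 else 0) ≤
      8 ^ n * T * Mass n (PP E.D.M Y Y') *
        (2 / 2 ^ J + if Exc E.D.M 1 Y Y' W then 2 ^ W.card else 0) := by
  have m1 := one_le_Mass hD.ok.sm Y Y'
  by_cases hT : (Ker E.g (E.W0 ∪ E.Γ.re W)).card ≤ T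
  swap
  · simp only [hT, false_and, if_false, mul_zero, sum_const_zero]
    refine mul_nonneg (by positivity) (add_nonneg (by positivity) ?_)
    split_ifs <;> positivity
  have hT1 : (1 : ℝ) ≤ T := by exact_mod_cast (Ker_card_pos _).trans_le hT
  have hT2 : (1 : ℝ) ≤ 8 ^ n * T := one_le_mul_of_one_le_of_one_le (one_le_pow₀ (by norm_num)) hT1
  split_ifs with hE
  · have h1 : ∑ W' ∈ (TT n (PP E.D.M Y Y')).powerset, Wt W' *
        (if (Ker E.g (E.W0 ∪ E.Γ.re W)).card ≤ T ∧ E.Bad W W' then 1 else 0) ≤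
        Mass n (PP E.D.M Y Y') := by
      rw [← sum_Wt]
      refine sum_le_sum fun W' hW' => mul_le_of_le_one_right
        (Wt_nonneg hD.ok.sm (mem_powerset.1 hW')) ?_
      split_ifs <;> norm_num
    have h2 : (1 : ℝ) ≤ 2 / 2 ^ J + 2 ^ W.card :=
      le_add_of_nonneg_of_le (by positivity) (one_le_pow₀ (by norm_num))
    refine h1.trans (le_trans ?_ (le_mul_of_one_le_right (by positivity) h2))
    exact le_mul_of_one_le_left (by linarith) hT2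
  set X : Finset (Σ _ : Finset (Ix n), Finset (Gen n)) :=
    E.Γ.Yc.sigma fun y => (coset E W y).filter fun U => ¬E.Geo y U with hX
  have h1 : ∑ W' ∈ (TT n (PP E.D.M Y Y')).powerset, Wt W' *
      (if (Ker E.g (E.W0 ∪ E.Γ.re W)).card ≤ T ∧ E.Bad W W' then 1 else 0) ≤
      ∑ W' ∈ (TT n (PP E.D.M Y Y')).powerset, ∑ x ∈ X, Wt W' *
        (if ∀ k ∈ E.Γ.RF, ∀ p : ℕ, (tg k, p) ∈ W' →
          ∏ a ∈ x.2, E.g a (tg k, p) = jacobiSym (E.Cy x.1 k) p then 1 else 0) := by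
    refine sum_le_sum fun W' hW' => ?_
    rw [← mul_sum]
    refine mul_le_mul_of_nonneg_left ?_ (Wt_nonneg hD.ok.sm (mem_powerset.1 hW'))
    have nn : ∀ x ∈ X, (0 : ℝ) ≤ if ∀ k ∈ E.Γ.RF, ∀ p : ℕ, (tg k, p) ∈ W' →
        ∏ a ∈ x.2, E.g a (tg k, p) = jacobiSym (E.Cy x.1 k) p then 1 else 0 := fun x _ => by
      split_ifs <;> norm_num
    split_ifs with hb
    · obtain ⟨y, k1, U, k2, k3, k4, k5⟩ := hb.2
      have hx : (⟨y, U⟩ : Σ _ : Finset (Ix n), Finset (Gen n)) ∈ X :=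
        mem_sigma.2 ⟨k1, mem_filter.2 ⟨mem_coset.2
          ⟨k2, k4, fun k hk p h => k5 k hk p (mem_union_left _ h)⟩, k3⟩⟩
      refine le_trans ?_ (single_le_sum nn hx)
      rw [if_pos fun k hk p h => k5 k hk p (mem_union_right _ h)]
    · exact sum_nonneg nn
  rw [sum_comm] at h1
  refine h1.trans ((sum_le_card_nsmul _ _ (2 / 2 ^ J * Mass n (PP E.D.M Y Y'))
    fun x hx => ?_).trans ?_)
  · obtain ⟨k1, k2⟩ := mem_filter.1 (mem_sigma.1 hx).2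
    exact vec hK hD hMY h0 hθ hW hE (mem_coset.1 k1).1 k2
  have h2 : (X.card : ℝ) ≤ 8 ^ n * T := by
    have : X.card ≤ 8 ^ n * T := by
      rw [hX, card_sigma]
      refine (sum_le_card_nsmul _ _ T fun y _ =>
        (card_filter_le _ _).trans ((card_coset hD W y).trans hT)).trans ?_
      exact Nat.mul_le_mul_right _ (card_Yc _)
    exact_mod_cast this
  rw [nsmul_eq_mul, add_zero, mul_assoc (8 ^ n * T : ℝ), mul_comm (Mass _ _)]
  exact mul_le_mul_of_nonneg_right h2 (by positivity)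

end Kil3

theorem kil3 : KC3Stmt → MERStmt → EXPStmt → KIL3Stmt := by
  classical
  intro hK hm hE n E T J hD
  obtain ⟨C, hC⟩ := hm.1
  have v1 := ev_Y (n := n) (M := E.D.M) (J := J)
    (hE n E.D.M (128 ^ J) 1 (1 / 2 ^ J) hD.ok.pos hD.ok.sm one_pos (by positivity))
  have v2 := ev_Y (n := n) (M := E.D.M) (J := J) ((Real.tendsto_log_atTop.comp
    tendsto_natCast_atTop_atTop).eventually_ge_atTop (10 * |C|))
  have v3 := ev_Y (n := n) (M := E.D.M) (J := J) (eventually_ge_atTop (E.D.M + 2))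
  refine (v1.and (v2.and v3)).mono fun S _ hJ hR ⟨k1, k2, k3⟩ => ?_
  have k1 := k1 S.Y0 S.Y' hR.Y0_le (by rw [hR.hY', hJ])
  have hθ : J * Real.log 128 - 0.1 ≤ ∑ p ∈ pri S.Y S.Y', (1 : ℝ) / p := by
    have e1 := (abs_le.1 (hC S.Y S.Y' (by omega) hR.Y_le)).1
    have e2 : 0 < Real.log S.Y := Real.log_pos (by exact_mod_cast (by omega : 1 < S.Y))
    have e3 : C / Real.log S.Y ≤ 0.1 := by
      rw [div_le_iff₀ e2]
      have : 10 * |C| ≤ Real.log S.Y := k2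
      linarith [le_abs_self C]
    rw [hR.log_Y', hJ, mul_div_cancel_right₀ _ e2.ne', Real.log_pow] at e1
    linarith
  have m0 := one_le_Mass hD.ok.sm 0 S.Y0
  have m1 := one_le_Mass hD.ok.sm S.Y S.Y'
  have e1 := sum_le_sum fun W (hW : W ∈ (TT n (PP E.D.M 0 S.Y0)).powerset.filter RG.Dist) =>
    mul_le_mul_of_nonneg_left (Kil3.conf hK hD T (by omega) hR.Y0_le hθ
      (mem_powerset.1 (mem_filter.1 hW).1))
      (Wt_nonneg hD.ok.sm (mem_powerset.1 (mem_filter.1 hW).1))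
  refine le_trans (le_of_eq (sum_congr rfl fun W _ => ?_)) (e1.trans ?_)
  · rw [mul_sum]
    exact sum_congr rfl fun W' _ => mul_assoc _ _ _
  have e2 : ∑ W ∈ (TT n (PP E.D.M 0 S.Y0)).powerset.filter RG.Dist, Wt W ≤
      Mass n (PP E.D.M 0 S.Y0) := by
    rw [← sum_Wt]
    exact sum_le_sum_of_subset_of_nonneg (filter_subset _ _)
      fun W hW _ => Wt_nonneg hD.ok.sm (mem_powerset.1 hW)
  rw [sum_filter] at k1
  have k4 : ∑ W ∈ (TT n (PP E.D.M 0 S.Y0)).powerset.filter RG.Dist,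
      (if Exc E.D.M 1 S.Y S.Y' W then Wt W * 2 ^ W.card else 0) ≤ 1 / 2 ^ J := by
    refine le_trans (sum_le_sum_of_subset_of_nonneg (filter_subset _ _) fun W hW _ => ?_) k1
    have := Wt_nonneg hD.ok.sm (mem_powerset.1 hW)
    split_ifs <;> positivity
  have e3 : ∀ W : Finset (Gen n), ∀ (p : Prop) [Decidable p],
      Wt W * (8 ^ n * T * Mass n (PP E.D.M S.Y S.Y') *
        (2 / 2 ^ J + if p then 2 ^ W.card else 0)) = 8 ^ n * T * Mass n (PP E.D.M S.Y S.Y') *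
        (2 / 2 ^ J * Wt W + if p then Wt W * 2 ^ W.card else 0) := by
    intro W p _
    split_ifs <;> ring
  simp only [e3]
  rw [← mul_sum, sum_add_distrib, ← mul_sum]
  have e4 : (0 : ℝ) < 1 / 2 ^ J := by positivity
  have e5 : 3 * 8 ^ n * (T : ℝ) / 2 ^ J * (Mass n (PP E.D.M 0 S.Y0) * Mass n (PP E.D.M S.Y S.Y')) =
      8 ^ n * T * Mass n (PP E.D.M S.Y S.Y') * (2 / 2 ^ J * Mass n (PP E.D.M 0 S.Y0) +
        1 / 2 ^ J * Mass n (PP E.D.M 0 S.Y0)) := by ring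
  rw [e5]
  exact mul_le_mul_of_nonneg_left (add_le_add (mul_le_mul_of_nonneg_left e2 (by positivity))
    (k4.trans (le_mul_of_one_le_right e4.le m0))) (by positivity)

end Pool.Agent.MP_a43263_nt.JC
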