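import Pool.Agent.MP_a43263_nt.JC.ASpec
import Pool.Agent.MP_a43263_nt.RH.Osc

/-! THEOREM J: the oscillating part is small on average. -/

set_option autoImplicit false

noncomputable section

namespace Pool.Agent.MP_a43263_nt.JC

open Finset Filter
open R2 (Sc Core Shape)
open RG

variable {n : ℕ}

namespace OscR

open RG.OscP

/-- the sets of frozen generators that occur -/
def Os3 (E : Dat3 n) (S : Sc) : Finset (Finset (Gen n)) := (Os n 1 S).image fun O => E.W0 ∪ O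

section
variable {S : Sc} {E : Dat3 n} {x : Ix n → ℕ}

theorem md_VV (hM : E.Ok) {Y Y' : ℕ} (h : E.D.M ≤ Y) (l : Ix n → ℕ) :
    md Y Y' (E.VV l) = md Y Y' (E.Γ.re (gens l)) := by
  rw [md, Dat3.VV, filter_union, filter_false_of_mem, empty_union, md]
  intro a ha
  have := (hM.fix a ha).2.1
  omega

theorem re_sub (W : Finset (Gen n)) : E.Γ.re W ⊆ W := filter_subset _ _

theorem card_md2 (hM : E.Ok) (hY : E.D.M ≤ S.Y) (hx : x ∈ AA S E.D) :
    (md S.Y S.Y' (E.VV x)).card ≤ 18 * n * S.J := by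
  rw [md_VV hM hY]
  refine (card_le_card (filter_subset_filter _ (re_sub _))).trans ?_
  have := card_md hM.ok hY hx
  rwa [RG.md_VV hM.ok hY] at this

theorem prod_small3 (hR : Rel n S) (hx : x ∈ AA S E.D) :
    ∏ b ∈ le S.Y (E.Γ.re (gens x)), b.2 ≤ 1 * S.Y0 ^ (9 * n) := by
  refine le_trans (prod_le_prod_of_subset_of_one_le' (filter_subset_filter _ (re_sub _))
    fun b hb _ => RH.OscQ.one_le_gens (mem_filter.1 hb).1) ?_
  exact RH.OscQ.prod_small2 (E := ⟨E.D, ∅, fun _ _ => 1, fun _ _ => 1⟩) hR hx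

theorem outer_mem (hR : Rel n S) (hM : E.Ok) (hY : E.D.M ≤ S.Y) (hx : x ∈ AA S E.D)
    (U U' : Finset (Gen n)) (f g : TL n) (s : Gen n) :
    outer S (E.VV x) U U' f g s ∈ Os3 E S := by
  refine mem_image.2 ⟨outer S (E.Γ.re (gens x)) U U' f g s, mem_filter.2 ⟨mem_powerset.2 fun b hb => ?_,
    ?_, ?_⟩, ?_⟩
  · have := mem_le.1 (mem_filter.1 hb).1
    exact mem_product.2 ⟨mem_univ _, mem_Icc.2 ⟨RH.OscQ.one_le_gens (re_sub _ this.1), this.2⟩⟩
  · rw [le_outer hR.Y_le]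
    exact prod_small3 hR hx
  · refine (card_le_card fun b hb => ?_).trans ((md_VV hM hY x) ▸ card_md2 hM hY hx)
    have := mem_le.1 (mem_filter.1 (mem_filter.1 hb).1).1
    exact mem_md.2 ⟨this.1, (mem_filter.1 hb).2, this.2⟩
  · ext b
    simp only [outer, Dat3.VV, mem_union, mem_filter, mem_le]
    constructor
    · rintro (h | ⟨⟨h1, h2⟩, h3⟩)
      · have := ((hM.fix b h).2.1).trans hY
        exact ⟨⟨.inl h, this.trans hR.Y_le⟩, .inl this⟩
      · exact ⟨⟨.inr h1, h2⟩, h3⟩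
    · rintro ⟨⟨h1 | h1, h2⟩, h3⟩
      · exact .inl h1
      · exact .inr ⟨⟨h1, h2⟩, h3⟩

theorem nOf_bound (hR : Rel n S) (hM : E.Ok) (hY : E.D.M ≤ S.Y) (hx : x ∈ AA S E.D)
    {U U' : Finset (Gen n)} {f : TL n} (hf : f ∈ pat (md S.Y S.Y' (E.VV x)) U U') :
    1 < nOf S (E.VV x) U U' f ∧
      nOf S (E.VV x) U U' f ≤ 2 ^ (Nat.log 2 (S.Y' ^ (18 * n * S.J)) + 1) := by
  have hp := hM.ok.pos
  constructor
  · obtain ⟨s, hs, e⟩ := mem_image.1 hf
    have h1 := (mem_md.1 hs).2.1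
    refine lt_of_lt_of_le (by omega : 1 < s.2) (single_le_prod' (f := fun b : Gen n => b.2)
      (fun b hb => ?_) (mem_filter.2 ⟨hs, e⟩))
    have := (mem_md.1 (mem_filter.1 hb).1).2.1
    omega
  · have := hR.Y_le
    refine (prod_le_pow_card _ _ S.Y' fun b hb => (mem_md.1 (mem_filter.1 hb).1).2.2).trans
      ((Nat.pow_le_pow_right (by omega) ((card_filter_le _ _).trans (card_md2 hM hY hx))).trans
        (Nat.lt_pow_succ_log_self (by norm_num) _).le)

theorem sum_Os3 (hM : E.Ok) (hY : E.D.M ≤ S.Y) :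
    ∑ O ∈ Os3 E S, (4 : ℝ) ^ O.card / ∏ b ∈ O.filter (fun b => S.Y < b.2), (b.2 : ℝ) ≤
      Real.exp (36 * (n + 1)) * ((((2 ^ E.W0.card : ℕ) : ℝ) * S.Y0 ^ (9 * n) : ℝ) ^ 2 *
        (1 + Real.log S.Y') ^ (18 * n * S.J)) := by
  have h1 := sum_Os n 1 S
  have h0 := Real.log_natCast_nonneg S.Y'
  refine (sum_image_le_of_nonneg fun O _ => by positivity).trans ?_
  calc _ ≤ ∑ O ∈ Os n 1 S, (4 : ℝ) ^ E.W0.card *
        ((4 : ℝ) ^ O.card / ∏ b ∈ O.filter (fun b => S.Y < b.2), (b.2 : ℝ)) := by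
        refine sum_le_sum fun O _ => ?_
        have e : (E.W0 ∪ O).filter (fun b => S.Y < b.2) = O.filter (fun b => S.Y < b.2) := by
          rw [filter_union, filter_false_of_mem, empty_union]
          intro a ha
          have := (hM.fix a ha).2.1
          omega
        rw [e, ← mul_div_assoc, ← pow_add]
        gcongr
        · norm_num
        · exact card_union_le _ _
    _ ≤ _ := by
        rw [← mul_sum]
        refine (mul_le_mul_of_nonneg_left h1 (by positivity)).trans (le_of_eq ?_)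
        have e : (4 : ℝ) ^ E.W0.card = ((2 : ℝ) ^ E.W0.card) ^ 2 := by
          rw [← pow_mul, mul_comm, pow_mul]; norm_num
        rw [e]
        push_cast
        ring

end

open Classical in
theorem pair_le {S : Sc} {E : Dat3 n} (hR : Rel n S) (hM : E.Ok)
    (hY : E.D.M ≤ S.Y0)
    (y y' : Finset (Ix n)) {f g : TL n} (hfg : f.1 ≠ g.1) (ok : Finset (TL n) → Prop)
    [DecidablePred ok] (hok : ∀ π, ok π → f ∈ π ∧ g ∈ π) (pr : Finset (Gen n) → Prop)
    (hk : ∀ O O₁ O₂ i, |keySum3 S E y y' f g ok O O₁ O₂ i| ≤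
      (S.Z : ℝ) ^ 2 / ((S.Y0 : ℝ) ^ (30 * n) * ∏ b ∈ O.filter (fun b => S.Y < b.2), (b.2 : ℝ))) :
    |∑ x ∈ AA S E.D, ∑ U ∈ (le S.Y' (E.VV x)).powerset,
      ∑ U' ∈ (le S.Y' (E.VV x)).powerset, if pr (le S.Y (E.VV x)) then
        (if ok (pat (md S.Y S.Y' (E.VV x)) U U') then
          term E.g (E.VV x) y y' U U' else 0) else 0| ≤ Bd n (2 ^ E.W0.card) S := by
  have hY' := hY.trans hR.Y0_le
  have h0 := Real.log_natCast_nonneg S.Y'
  have hY0 : (0 : ℝ) < S.Y0 := Nat.cast_pos.2 (hM.ok.pos.trans_le hY)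
  set I := Nat.log 2 (S.Y' ^ (18 * n * S.J)) + 1 with hI
  calc _ = |∑ k ∈ keys (Os3 E S) I,
          wgt S pr g k * keySum3 S E y y' f g ok k.1 k.2.1 k.2.2.1 k.2.2.2| := by
        congr 1
        simp only [keySum3]
        simp only [mul_sum (s := AA S E.D), mul_sum (s := Finset.powerset _)]
        rw [sum_comm (s := keys _ _)]
        refine sum_congr rfl fun x hx => ?_
        rw [sum_comm (s := keys _ _)]
        refine sum_congr rfl fun U _ => ?_
        rw [sum_comm (s := keys _ _)]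
        refine sum_congr rfl fun U' _ => ?_
        convert single hR.Y_le _ U U' hfg _ _ pr (Os3 E S) I (fun h => (hok _ h).2)
          (fun h => nOf_bound hR hM hY' hx (hok _ h).1) (outer_mem hR hM hY' hx U U' f g)
    _ ≤ ∑ k ∈ keys (Os3 E S) I, (S.Z : ℝ) ^ 2 /
          ((S.Y0 : ℝ) ^ (30 * n) * ∏ b ∈ k.1.filter (fun b => S.Y < b.2), (b.2 : ℝ)) := by
        refine (abs_sum_le_sum_abs _ _).trans (sum_le_sum fun k _ => ?_)
        rw [abs_mul]
        exact (mul_le_of_le_one_left (abs_nonneg _) (abs_wgt_le _ _ _ _)).trans (hk _ _ _ _)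
    _ = (S.Z : ℝ) ^ 2 / (S.Y0 : ℝ) ^ (30 * n) * I * ∑ O ∈ Os3 E S,
          (4 : ℝ) ^ O.card / ∏ b ∈ O.filter (fun b => S.Y < b.2), (b.2 : ℝ) := by
        rw [keys, sum_sigma, mul_sum]
        refine sum_congr rfl fun O _ => ?_
        simp only [sum_const, card_product, card_powerset, card_range, nsmul_eq_mul]
        rw [show (4 : ℝ) = 2 * 2 by norm_num, mul_pow]
        push_cast
        ring
    _ ≤ (S.Z : ℝ) ^ 2 / (S.Y0 : ℝ) ^ (30 * n) * ((36 * n * S.J + 1) * (1 + Real.log S.Y')) *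
          (Real.exp (36 * (n + 1)) * ((((2 ^ E.W0.card : ℕ) : ℝ) * S.Y0 ^ (9 * n) : ℝ) ^ 2 *
            (1 + Real.log S.Y') ^ (18 * n * S.J))) :=
        mul_le_mul (mul_le_mul_of_nonneg_left (card_range_le n S) (by positivity)) (sum_Os3 hM hY')
          (sum_nonneg fun _ _ => by positivity) (by positivity)
    _ = Bd n (2 ^ E.W0.card) S := by
        unfold Bd
        field_simp
        ring

open Classical in
theorem ys_le {S : Sc} {E : Dat3 n} (hR : Rel n S) (hM : E.Ok)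
    (hY : E.D.M ≤ S.Y0)
    (y y' : Finset (Ix n)) (pr : Finset (Gen n) → Prop)
    (hk : ∀ (f g : TL n) (ok : Finset (TL n) → Prop) (O O₁ O₂ : Finset (Gen n)) (i : ℕ), f.1 ≠ g.1 →
      Odd (E.Γ.expo y y' f g) → |keySum3 S E y y' f g ok O O₁ O₂ i| ≤
      (S.Z : ℝ) ^ 2 / ((S.Y0 : ℝ) ^ (30 * n) * ∏ b ∈ O.filter (fun b => S.Y < b.2), (b.2 : ℝ))) :
    |∑ x ∈ AA S E.D, ∑ U ∈ (le S.Y' (E.VV x)).powerset,
      ∑ U' ∈ (le S.Y' (E.VV x)).powerset, if pr (le S.Y (E.VV x)) then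
        (if E.Γ.Osc y y' (pat (md S.Y S.Y' (E.VV x)) U U') then
          term E.g (E.VV x) y y' U U' else 0) else 0| ≤ Fintype.card (TL n × TL n) * Bd n (2 ^ E.W0.card) S := by
  have hex : ∀ π : Finset (TL n), ∃ p : TL n × TL n, E.Γ.Osc y y' π →
      (p.1 ∈ π ∧ p.2 ∈ π) ∧ p.1.1 ≠ p.2.1 ∧ Odd (E.Γ.expo y y' p.1 p.2) := by
    intro π
    by_cases h : E.Γ.Osc y y' π
    · obtain ⟨f, hf, g, hg, k⟩ := h
      exact ⟨(f, g), fun _ => ⟨⟨hf, hg⟩, k⟩⟩
    · exact ⟨default, fun k => absurd k h⟩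
  choose ch hch using hex
  calc _ = |∑ p : TL n × TL n, ∑ x ∈ AA S E.D, ∑ U ∈ (le S.Y' (E.VV x)).powerset,
        ∑ U' ∈ (le S.Y' (E.VV x)).powerset, if pr (le S.Y (E.VV x)) then
          (if E.Γ.Osc y y' (pat (md S.Y S.Y' (E.VV x)) U U') ∧
            ch (pat (md S.Y S.Y' (E.VV x)) U U') = p then
            term E.g (E.VV x) y y' U U' else 0) else 0| := by
        congr 1
        rw [sum_comm (s := univ)]
        refine sum_congr rfl fun x _ => ?_
        rw [sum_comm (s := univ)]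
        refine sum_congr rfl fun U _ => ?_
        rw [sum_comm (s := univ)]
        refine sum_congr rfl fun U' _ => ?_
        split_ifs with h1 h2
        · simp [h2]
        · simp [h2]
        · simp
    _ ≤ ∑ _p : TL n × TL n, Bd n (2 ^ E.W0.card) S := by
        refine (abs_sum_le_sum_abs _ _).trans (sum_le_sum fun p _ => ?_)
        by_cases hp : p.1.1 ≠ p.2.1 ∧ Odd (E.Γ.expo y y' p.1 p.2)
        · exact pair_le hR hM hY y y' hp.1 (fun π => E.Γ.Osc y y' π ∧ ch π = p)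
            (fun π h => h.2 ▸ (hch π h.1).1) pr fun O O₁ O₂ i => hk _ _ _ O O₁ O₂ i hp.1 hp.2
        · rw [sum_eq_zero fun x _ => sum_eq_zero fun U _ => sum_eq_zero fun U' _ => ?_, abs_zero]
          · exact Bd_nonneg _ S
          · rw [if_neg (c := _ ∧ _), ite_self]
            exact fun h => hp (h.2 ▸ (hch _ h.1).2)
    _ = _ := by rw [sum_const, card_univ, nsmul_eq_mul]

end OscR

open OscP OscR in
theorem os3 (key : KEY3Stmt) : OSC3Stmt := by
  classical
  intro n E J ε hD hε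
  set K : ℕ := 2 ^ E.W0.card with hK
  set c1 : ℝ := (E.Γ.RF.powerset.card : ℝ) with hc1
  set c2 : ℝ := (Fintype.card (TL n × TL n) : ℝ) with hc2
  have c1p : 0 ≤ c1 := Nat.cast_nonneg _
  have c2p : 0 ≤ c2 := Nat.cast_nonneg _
  refine (((key n E J hD).and (ev_log (c1 * c1 * c2 * Real.exp (36 * (n + 1)) * (K : ℝ) ^ 2 *
    (36 * n * J + 1) / ε) (18 * n * J + 1))).and (ev_ge (max E.D.M 3))).mono ?_
  rintro S - rfl hR ⟨⟨hk, hl⟩, hge⟩ pr
  have h3 : 3 ≤ S.Y0 := le_of_max_le_right hge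
  have hL : 1 + Real.log S.Y' ≤ Real.log S.Z := by
    have h1 : (3 : ℝ) ≤ S.Y' := by exact_mod_cast h3.trans (hR.Y0_le.trans hR.Y_le)
    have h2 : 1 ≤ Real.log S.Y' := by
      rw [Real.le_log_iff_exp_le (by linarith)]
      linarith [Real.exp_one_lt_d9]
    have h4 : (2 : ℝ) ≤ EE n := by exact_mod_cast le_trans (by omega) (le_EE n)
    nlinarith [hR.le_log_Z]
  have hY0 : (1 : ℝ) ≤ S.Y0 := by exact_mod_cast (by omega : 1 ≤ S.Y0)
  calc _ = |∑ y ∈ E.Γ.RF.powerset, ∑ y' ∈ E.Γ.RF.powerset, ∑ x ∈ AA S E.D,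
        ∑ U ∈ (le S.Y' (E.VV x)).powerset,
        ∑ U' ∈ (le S.Y' (E.VV x)).powerset, if pr (le S.Y (E.VV x)) then
          (if E.Γ.Osc y y' (pat (md S.Y S.Y' (E.VV x)) U U') then
            term E.g (E.VV x) y y' U U' else 0) else 0| := by
        congr 1
        rw [sum_filter, sum_congr rfl (g := fun x => ∑ y ∈ E.Γ.RF.powerset, ∑ y' ∈ E.Γ.RF.powerset,
          ∑ U ∈ (le S.Y' (E.VV x)).powerset,
          ∑ U' ∈ (le S.Y' (E.VV x)).powerset, if pr (le S.Y (E.VV x)) then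
          (if E.Γ.Osc y y' (pat (md S.Y S.Y' (E.VV x)) U U') then
            term E.g (E.VV x) y y' U U' else 0) else 0), sum_comm]
        · exact sum_congr rfl fun y _ => sum_comm
        · intro x _
          split_ifs
          · rfl
          · simp
    _ ≤ ∑ _y ∈ E.Γ.RF.powerset, ∑ _y' ∈ E.Γ.RF.powerset, c2 * Bd n K S :=
        (abs_sum_le_sum_abs _ _).trans (sum_le_sum fun y hy => (abs_sum_le_sum_abs _ _).trans
          (sum_le_sum fun y' hy' => ys_le hR hD (le_of_max_le_left hge) y y' pr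
            (hk y (mem_powerset.1 hy) y' (mem_powerset.1 hy'))))
    _ = c1 * c1 * c2 * Real.exp (36 * (n + 1)) * (K : ℝ) ^ 2 * (36 * n * S.J + 1) / ε *
          (1 + Real.log S.Y') ^ (18 * n * S.J + 1) / (S.Y0 : ℝ) ^ (12 * n) *
          (ε * (S.Z : ℝ) ^ 2) := by
        simp only [sum_const, nsmul_eq_mul, Bd, ← hc1]
        field_simp
    _ ≤ _ := by
        refine mul_le_of_le_one_left (by positivity) ((div_le_one (by positivity)).2
          (le_trans ?_ (hl.trans (le_self_pow₀ hY0 (by have := hD.ok.two; omega)))))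
        have := Real.log_natCast_nonneg S.Y'
        gcongr

end Pool.Agent.MP_a43263_nt.JC
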