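import Pool.Agent.MP_a43263_nt.RH.Lya
import Pool.Agent.MP_a43263_nt.JC.ASpec

/-! THEOREM J, modules STEP and LYA: one new prime contracts each level of the kernel up to the
next level; downward induction on the levels. -/

set_option autoImplicit false

noncomputable section

namespace Pool.Agent.MP_a43263_nt.JC

open Finset Filter
open R2 (Sgn chi Ker PP mem_PP mem_Ker symmDiff_mem_Ker prod_sgn prod_symmDiff chi_eq_rows chi_comm)
open RG

namespace Step

variable {n : ℕ} {E : Dat3 n} {A : Finset (Ix n)} {W x y : Finset (Gen n)}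

theorem mem_re {Γ : Gr n} {a : Gen n} : a ∈ Γ.re W ↔ a ∈ W ∧ a.1 ∈ Γ.RT := mem_filter

theorem tg_mem {Γ : Gr n} {h : Ix n} : tg h ∈ Γ.RT ↔ h ∈ Γ.RF :=
  tg_injective.mem_finset_image

theorem mem_KA : x ∈ E.KA A W ↔
    x ∈ Ker E.g (E.W0 ∪ E.Γ.re W) ∧ ∀ h ∈ A, IsSquare (E.Gv (tg h) x) := by
  classical
  simp only [Dat3.KA, mem_filter]

/-- primes that do not divide the modulus -/
def Pm (E : Dat3 n) (W : Finset (Gen n)) : Prop := ∀ a ∈ W, a.2.Prime ∧ ¬a.2 ∣ E.D.M

theorem Pm.ord (hW : Pm E W) {a : Gen n} (ha : a ∈ E.Γ.re W) : E.Ord a :=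
  ⟨(mem_re.1 ha).2, hW a (mem_re.1 ha).1⟩

theorem sub_KA (hx : x ∈ E.KA A W) : x ⊆ E.W0 ∪ E.Γ.re W := (mem_Ker.1 (mem_KA.1 hx).1).1

theorem KA_add (hK : KC3Stmt) (hE : E.Ok) (hW : Pm E W) (hx : x ∈ E.KA A W) (hy : y ∈ E.KA A W) :
    symmDiff x y ∈ E.KA A W := by
  obtain ⟨-, k2, -, -, k5, -⟩ := hK n E hE
  exact mem_KA.2 ⟨symmDiff_mem_Ker hE.sgn (mem_KA.1 hx).1 (mem_KA.1 hy).1, fun h hh =>
    RH.Step.sq_of_mul (k2 (x ∩ y) _ fun a ha =>
      (mem_union.1 (sub_KA hx (mem_inter.1 ha).1)).imp id hW.ord).1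
      (k5 x y _ ▸ ((mem_KA.1 hx).2 h hh).mul ((mem_KA.1 hy).2 h hh))⟩

theorem KA_down {W' : Finset (Gen n)} (h : W ⊆ W') (hx : x ∈ E.KA A W')
    (hs : x ⊆ E.W0 ∪ E.Γ.re W) : x ∈ E.KA A W :=
  mem_KA.2 ⟨mem_Ker.2 ⟨hs, fun b hb => (mem_Ker.1 (mem_KA.1 hx).1).2 b
    (union_subset_union Subset.rfl (filter_subset_filter _ h) hb)⟩, (mem_KA.1 hx).2⟩

theorem KA_pos (E : Dat3 n) (A : Finset (Ix n)) (W : Finset (Gen n)) : 0 < (E.KA A W).card :=
  card_pos.2 ⟨∅, mem_KA.2 ⟨mem_Ker.2 ⟨empty_subset _, fun _ _ => prod_empty⟩,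
    fun _ _ => ⟨1, by simp [Dat3.Gv]⟩⟩⟩

theorem grow (hK : KC3Stmt) (hE : E.Ok) {X : Finset (Gen n)} (hW : Pm E (W ∪ X)) :
    (E.KA A (W ∪ X)).card ≤ (E.KA A W).card * 2 ^ X.card := by
  rw [← card_powerset]
  refine card_le_mul_card_image_of_maps_to (f := fun x => X.filter fun a => a ∈ x)
    (fun x _ => mem_powerset.2 (filter_subset _ _)) _ fun T _ => ?_
  rcases ((E.KA A (W ∪ X)).filter fun x => (X.filter fun a => a ∈ x) = T).eq_empty_or_nonempty
    with h | ⟨x₀, h₀⟩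
  · rw [h]
    exact Nat.zero_le _
  obtain ⟨h₀, e₀⟩ := mem_filter.1 h₀
  refine card_le_card_of_injOn (fun x => symmDiff x x₀) (fun x hx => ?_)
    fun _ _ _ _ e => symmDiff_left_injective _ e
  obtain ⟨hx, e⟩ := mem_filter.1 (mem_coe.1 hx)
  have h1 := KA_add hK hE hW hx h₀
  refine mem_coe.2 (KA_down subset_union_left h1 fun a ha => ?_)
  refine mem_union.2 ((mem_union.1 (sub_KA h1 ha)).imp id fun k => mem_re.2
    ⟨(mem_union.1 (mem_re.1 k).1).resolve_right fun k1 => ?_, (mem_re.1 k).2⟩)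
  have := congrArg (a ∈ ·) (e.trans e₀.symm)
  simp only [mem_filter, k1, true_and, eq_iff_iff] at this
  rw [mem_symmDiff] at ha
  tauto

theorem phi_nonneg (E : Dat3 n) (A : Finset (Ix n)) (W : Finset (Gen n)) : 0 ≤ E.phi A W :=
  Real.sqrt_nonneg _

theorem phi_sq (E : Dat3 n) (A : Finset (Ix n)) (W : Finset (Gen n)) :
    E.phi A W ^ 2 = (E.KA A W).card := Real.sq_sqrt (Nat.cast_nonneg _)

theorem phi_le {A' : Finset (Ix n)} {W' : Finset (Gen n)} {c : ℝ} (hc : 0 ≤ c)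
    (h : ((E.KA A' W').card : ℝ) ≤ c ^ 2 * (E.KA A W).card) : E.phi A' W' ≤ c * E.phi A W :=
  Real.sqrt_le_iff.2 ⟨mul_nonneg hc (phi_nonneg _ _ _), by rwa [mul_pow, phi_sq]⟩

theorem double (hK : KC3Stmt) (hE : E.Ok) {b : Gen n} (hW : Pm E (insert b W)) :
    E.phi A (insert b W) ≤ 1.42 * E.phi A W := by
  rw [insert_eq, union_comm] at hW ⊢
  have h : ((E.KA A (W ∪ {b})).card : ℝ) ≤ (E.KA A W).card * 2 ^ ({b} : Finset (Gen n)).card := by
    exact_mod_cast grow hK hE hW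
  rw [card_singleton] at h
  have := Nat.cast_nonneg (α := ℝ) (E.KA A W).card
  exact phi_le (by norm_num) (by linarith)

theorem sub_of_not {b : Gen n} (hx : x ∈ E.KA A (insert b W)) (hb : b ∉ x) :
    x ⊆ E.W0 ∪ E.Γ.re W := fun a ha =>
  mem_union.2 ((mem_union.1 (sub_KA hx ha)).imp id fun k => mem_re.2
    ⟨(mem_insert.1 (mem_re.1 k).1).resolve_left fun e : a = b => hb (e ▸ ha), (mem_re.1 k).2⟩)

theorem one (hK : KC3Stmt) (hE : E.Ok) {b : Gen n} (hW : Pm E (insert b W)) (hb : b.1 ∈ E.Γ.RT) :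
    E.phi A (insert b W) * (E.KA A W).card ≤ 0.71 * E.phi A W * ((E.KA A W).card +
      ((∑ x ∈ E.KA A W, ∏ a ∈ x, E.g a b : ℤ) : ℝ)) := by
  have s0 := phi_nonneg E A W
  have s2 := Nat.cast_nonneg (α := ℝ) (E.KA A W).card
  have hW' : Pm E W := fun a ha => hW a (mem_insert_of_mem ha)
  have sg : ∀ x : Finset (Gen n), ∏ a ∈ x, E.g a b = 1 ∨ ∏ a ∈ x, E.g a b = -1 := fun x =>
    prod_sgn x fun a _ => hE.sgn.2 a b
  by_cases h : ∀ x ∈ E.KA A W, ∏ a ∈ x, E.g a b = 1
  · rw [sum_congr rfl h]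
    have := mul_le_mul_of_nonneg_right (double (A := A) hK hE hW) s2
    simp only [sum_const, nsmul_eq_mul, mul_one, Int.cast_natCast]
    linarith
  push Not at h
  obtain ⟨z, hz, h⟩ := h
  replace h := (sg z).resolve_left h
  have h1 : ∑ x ∈ E.KA A W, ∏ a ∈ x, E.g a b = 0 :=
    sum_involution (fun x _ => symmDiff x z)
      (fun x _ => by rw [prod_symmDiff fun a => hE.sgn.2 a b, h]; ring)
      (fun x _ _ e => by
        rw [symmDiff_eq_left.1 e] at h
        simp at h)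
      (fun x hx => KA_add hK hE hW' hx hz) fun x _ => symmDiff_symmDiff_cancel_right _ _
  have h2 : E.KA A (insert b W) ⊆ (E.KA A W).filter fun x => ∏ a ∈ x, E.g a b = 1 := by
    intro x hx
    have k := (mem_Ker.1 (mem_KA.1 hx).1).2
    refine mem_filter.2 ⟨KA_down (subset_insert _ _) hx (sub_of_not hx fun hbx => ?_),
      k b (mem_union_right _ (mem_re.2 ⟨mem_insert_self _ _, hb⟩))⟩
    have c1 : chi E.g x z = 1 := by
      rw [chi_eq_rows]
      exact prod_eq_one fun c hc => k c (union_subset_union Subset.rfl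
        (filter_subset_filter _ (subset_insert _ _)) (sub_KA hz hc))
    rw [chi_comm hE.sgn, chi_eq_rows, ← mul_prod_erase _ _ hbx, h, prod_eq_one] at c1
    · norm_num at c1
    · intro c hc
      refine (mem_Ker.1 (mem_KA.1 hz).1).2 c (mem_union.2
        ((mem_union.1 (sub_KA hx (mem_of_mem_erase hc))).imp id fun k => mem_re.2
          ⟨(mem_insert.1 (mem_re.1 k).1).resolve_left (ne_of_mem_erase hc), (mem_re.1 k).2⟩))
  have h3 : (2 * (((E.KA A W).filter fun x => ∏ a ∈ x, E.g a b = 1).card : ℤ)) =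
      (E.KA A W).card + ∑ x ∈ E.KA A W, ∏ a ∈ x, E.g a b := by
    rw [card_filter, card_eq_sum_ones (E.KA A W)]
    push_cast
    rw [mul_sum, ← sum_add_distrib]
    refine sum_congr rfl fun x _ => ?_
    rcases sg x with e | e <;> rw [e] <;> norm_num
  rw [h1] at h3 ⊢
  have h4 : 2 * ((E.KA A (insert b W)).card : ℝ) ≤ (E.KA A W).card := by
    have := card_le_card h2
    exact_mod_cast (by omega : 2 * (E.KA A (insert b W)).card ≤ (E.KA A W).card)
  have h5 : E.phi A (insert b W) ≤ 0.71 * E.phi A W := phi_le (by norm_num) (by linarith)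
  have := mul_le_mul_of_nonneg_right h5 s2
  push_cast
  linarith

end Step

open Step in
theorem step3 : KC3Stmt → STEP3Stmt := by
  classical
  intro hK n E hE
  obtain ⟨k1, k2, k3, -⟩ := hK n E hE
  have sm1 : RH.Smooth E.D.M 1 :=
    ⟨one_ne_zero, fun _ hp hd => absurd hd (Nat.prime_iff_prime_int.1 hp).not_dvd_one⟩
  refine ⟨fun A W X hW => phi_le (by positivity) ?_, fun W hW hd => ?_,
    fun A hA hne W P w hW hd hP hch => ?_⟩
  · have h : ((E.KA A (W ∪ X)).card : ℝ) ≤ (E.KA A W).card * 2 ^ X.card := by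
      exact_mod_cast grow hK hE hW
    have h1 : (1 : ℝ) ≤ 2 ^ X.card := one_le_pow₀ one_le_two
    have h2 := Nat.cast_nonneg (α := ℝ) (E.KA A W).card
    nlinarith [mul_le_mul_of_nonneg_left h1 (mul_nonneg h2 (zero_le_one.trans h1))]
  · refine Real.sqrt_le_one.2 (Nat.cast_le_one.2 (card_le_one.2 fun x hx y hy => ?_))
    have : ∀ x ∈ E.KA E.Γ.RF W, x = ∅ := fun x hx => hE.ind x
      ((k3 _ x (fun a ha => Pm.ord hW ha) (hd.mono (filter_subset _ _)) (sub_KA hx)).2 (fun _ => 1)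
        fun h hh => ⟨sm1, by rw [mul_one]; exact (mem_KA.1 hx).2 h hh⟩) (mem_KA.1 hx).2
    rw [this x hx, this y hy]
  set δ := ∑ p ∈ P, w p with hδ
  set φ := E.phi A W with hφ
  have hδ0 : 0 ≤ δ := sum_nonneg fun p hp => (hP p hp).2.2.1
  have s0 : 0 ≤ φ := phi_nonneg E A W
  have pm : ∀ (t : Tag n), ∀ p ∈ P, Pm E (insert (t, p) W) := fun t p hp a ha =>
    (mem_insert.1 ha).elim (fun e => e ▸ ⟨(hP p hp).1, (hP p hp).2.1⟩) (hW a)
  have ub : ∀ (t : Tag n) (c : ℝ), (∀ p ∈ P, E.phi A (insert (t, p) W) ≤ c * φ) →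
      ∑ p ∈ P, w p * E.phi A (insert (t, p) W) ≤ δ * (c * φ) := fun t c h => by
    rw [sum_mul]
    exact sum_le_sum fun p hp => mul_le_mul_of_nonneg_left (h p hp) (hP p hp).2.2.1
  set B := A.filter fun h => ∀ k ∈ A, E.Γ.ad (tg h) (tg k) = false with hB
  have tag : ∀ h : Ix n, ∑ p ∈ P, w p * E.phi A (insert (tg h, p) W) ≤
      δ * (φ + (if h ∈ E.Γ.RF \ A then E.phi (insert h A) W - 0.28 * φ else 0) +
        if h ∈ B then 0.42 * φ else 0) := by
    intro h
    by_cases h1 : h ∈ E.Γ.RF \ A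
    · rw [if_pos h1, if_neg fun k => (mem_sdiff.1 h1).2 (mem_filter.1 k).1]
      have h2 := tg_mem.2 (mem_sdiff.1 h1).1
      set N : ℝ := ((E.KA A W).card : ℝ) with hN
      set ψ := E.phi (insert h A) W with hψ
      have N0 : 0 < N := Nat.cast_pos.2 (KA_pos E A W)
      have e1 : (∑ p ∈ P, w p * E.phi A (insert (tg h, p) W)) * N ≤
          ∑ p ∈ P, 0.71 * φ * (w p * N + ∑ x ∈ E.KA A W, w p * jacobiSym (E.Gv (tg h) x) p) := by
        rw [sum_mul]
        refine sum_le_sum fun p hp => ?_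
        obtain ⟨p1, p2, p3, p4⟩ := hP p hp
        have := mul_le_mul_of_nonneg_left (one (A := A) hK hE (pm (tg h) p hp) h2) p3
        rw [sum_congr rfl fun x hx => k1 x (tg h, p) ⟨h2, p1, p2⟩ fun a ha =>
          (mem_union.1 (sub_KA hx ha)).imp id fun k => ⟨Pm.ord hW k, p4 a (mem_re.1 k).1⟩] at this
        push_cast at this
        rw [← mul_sum]
        linarith
      have e2 : ∑ p ∈ P, ∑ x ∈ E.KA A W, w p * (jacobiSym (E.Gv (tg h) x) p : ℝ) ≤
          δ * (0.01 * N + ψ ^ 2) := by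
        rw [sum_comm]
        have : ∀ x ∈ E.KA A W, ∑ p ∈ P, w p * (jacobiSym (E.Gv (tg h) x) p : ℝ) ≤
            δ / 100 + if IsSquare (E.Gv (tg h) x) then δ else 0 := by
          intro x hx
          split_ifs with e
          · have : ∑ p ∈ P, w p * (jacobiSym (E.Gv (tg h) x) p : ℝ) ≤ δ :=
              sum_le_sum fun p hp => mul_le_of_le_one_right (hP p hp).2.2.1 (by
                rcases jacobiSym.trichotomy (E.Gv (tg h) x) p with k | k | k <;> simp [k])
            linarith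
          · obtain ⟨c1, c2⟩ := k2 x (tg h) fun a ha =>
              (mem_union.1 (sub_KA hx ha)).imp id (Pm.ord hW)
            have := hch _ c1 e fun p hp hd => (c2 p hp hd).imp id fun ⟨a, ha, a1, a2⟩ =>
              ⟨a.1, a2 ▸ (mem_re.1 ((mem_union.1 (sub_KA hx ha)).resolve_left fun k => by
                obtain ⟨j, -, e⟩ := mem_image.1 a1.1
                exact tg_ne_none j (e ▸ (hE.fix a k).1))).1⟩
            linarith [(abs_le.1 this).2]
        refine (sum_le_sum this).trans (le_of_eq ?_)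
        rw [sum_add_distrib, ← sum_filter, sum_const, sum_const, nsmul_eq_mul, nsmul_eq_mul, hψ,
          phi_sq, show E.KA (insert h A) W = (E.KA A W).filter fun x => IsSquare (E.Gv (tg h) x) from
            ext fun x => by simp only [mem_KA, mem_filter, forall_mem_insert]; tauto]
        ring
      rw [← mul_sum, sum_add_distrib, ← sum_mul] at e1
      have e3 : ψ ≤ 1 * φ := phi_le zero_le_one (by
        rw [one_pow, one_mul]
        exact Nat.cast_le.2 (card_le_card fun x hx => mem_KA.2 ⟨(mem_KA.1 hx).1, fun k hk =>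
          (mem_KA.1 hx).2 k (mem_insert_of_mem hk)⟩))
      have e4 : φ ^ 2 = N := phi_sq E A W
      have e5 : 0 ≤ ψ := phi_nonneg _ _ _
      refine le_of_mul_le_mul_right (e1.trans ((mul_le_mul_of_nonneg_left (add_le_add le_rfl e2)
        (by positivity)).trans ?_)) N0
      have e6 := mul_le_mul_of_nonneg_left e3 (mul_nonneg hδ0 (mul_nonneg s0 e5))
      have e7 : 0 ≤ δ * φ * φ ^ 2 := by positivity
      have e8 : 0 ≤ δ * ψ * φ ^ 2 := by positivity
      rw [← e4]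
      nlinarith
    rw [if_neg h1, add_zero]
    by_cases h2 : h ∈ B
    · rw [if_pos h2]
      exact (ub _ _ fun p hp => double hK hE (pm _ p hp)).trans_eq (by ring)
    rw [if_neg h2, add_zero]
    refine (ub _ 1 fun p hp => phi_le zero_le_one ?_).trans_eq (by ring)
    rw [one_pow, one_mul]
    refine Nat.cast_le.2 (card_le_card fun x hx =>
      KA_down (subset_insert _ _) hx (sub_of_not hx fun hb => ?_))
    have h3 : (tg h, p) ∉ E.W0 := fun k => tg_ne_none h (hE.fix _ k).1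
    have h4 : h ∈ A := by_contra fun k => h1 (mem_sdiff.2
      ⟨tg_mem.1 (mem_re.1 ((mem_union.1 (sub_KA hx hb)).resolve_left h3)).2, k⟩)
    obtain ⟨k, hk, e⟩ : ∃ k ∈ A, E.Γ.ad (tg h) (tg k) = true := by
      by_contra e
      exact h2 (mem_filter.2 ⟨h4, fun k hk => by
        rw [← Bool.not_eq_true]; exact fun e' => e ⟨k, hk, e'⟩⟩)
    refine (k3 _ x (fun a ha => (pm _ p hp).ord ha) (fun a ha c hc e => ?_) (sub_KA hx)).1 _ hb h3
      _ e 1 sm1 (by rw [mul_one]; exact (mem_KA.1 hx).2 k hk)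
    rcases mem_insert.1 (mem_re.1 ha).1 with a1 | a1 <;>
      rcases mem_insert.1 (mem_re.1 hc).1 with c1 | c1
    · rw [a1, c1]
    · exact absurd (by rw [← e, a1]) ((hP p hp).2.2.2 c c1)
    · exact absurd (by rw [e, c1]) ((hP p hp).2.2.2 a a1)
    · exact hd a a1 c c1 e
  have c1 : 2 * B.card ≤ (E.Γ.RF \ A).card :=
    (hE.gr.hall B ((filter_subset _ _).trans hA) fun h hh k hk =>
      (mem_filter.1 hh).2 k (mem_filter.1 hk).1).trans (card_le_card fun k hk => by
        obtain ⟨c, h, hh, e⟩ := mem_filter.1 hk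
        refine mem_sdiff.2 ⟨c, fun k1 => ?_⟩
        rw [(mem_filter.1 hh).2 k k1] at e
        exact Bool.false_ne_true e)
  have c2 : 1 ≤ (E.Γ.RF \ A).card := card_pos.2 (sdiff_nonempty.2 fun k => hne (hA.antisymm k))
  have c3 : 2 * (B.card : ℝ) ≤ (E.Γ.RF \ A).card := by exact_mod_cast c1
  have c4 : (1 : ℝ) ≤ (E.Γ.RF \ A).card := by exact_mod_cast c2
  have c5 : (2 : ℝ) ≤ n := by exact_mod_cast hE.ok.two
  rw [TT, sum_product, sum_image fun _ _ _ _ e => tg_injective e]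
  refine (sum_le_sum fun h _ => tag h).trans ?_
  rw [← mul_sum, sum_add_distrib, sum_add_distrib, sum_ite_mem, sum_ite_mem, univ_inter, univ_inter,
    sum_sub_distrib]
  simp only [sum_const, card_univ, card_Ix, nsmul_eq_mul]
  push_cast
  have c6 : 0 ≤ δ * ∑ h ∈ E.Γ.RF \ A, E.phi (insert h A) W :=
    mul_nonneg hδ0 (sum_nonneg fun _ _ => phi_nonneg _ _ _)
  have c7 := mul_nonneg hδ0 s0
  nlinarith [mul_le_mul_of_nonneg_left c3 c7, mul_le_mul_of_nonneg_left c4 c7,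
    mul_le_mul_of_nonneg_left c5 c6]

open Step in
theorem lya3 : STEP3Stmt → ALYStmt → LYA3Stmt := by
  classical
  intro hS hA n E hE
  obtain ⟨s1, s2, s3⟩ := hS n E hE
  have hn := hE.ok.two
  have pm : ∀ {a : ℕ} {W : Finset (Gen n)}, W ⊆ TT n (PP E.D.M 0 a) → Pm E W := fun h b hb =>
    (mem_PP.1 (mem_TT.1 (h hb)).2).2.2
  have key : ∀ (k : ℕ), ∀ A ⊆ E.Γ.RF, (E.Γ.RF \ A).card = k → ∃ C : ℝ, ∀ y : ℕ,
      ∑ W ∈ (TT n (PP E.D.M 0 y)).powerset.filter RG.Dist, Wt W * E.phi A W ≤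
        C * Mass n (PP E.D.M 0 y) := by
    intro k
    induction k with
    | zero =>
      intro A h1 h2
      obtain rfl : A = E.Γ.RF := h1.antisymm (sdiff_eq_empty_iff_subset.1 (card_eq_zero.1 h2))
      refine ⟨1, fun y => ?_⟩
      rw [one_mul, ← sum_Wt]
      exact (sum_le_sum fun W hW => mul_le_of_le_one_right
        (Wt_nonneg hE.ok.sm (mem_powerset.1 (mem_filter.1 hW).1))
        (s2 W (pm (mem_powerset.1 (mem_filter.1 hW).1)) (mem_filter.1 hW).2)).trans
        (sum_le_sum_of_subset_of_nonneg (filter_subset _ _)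
          fun W hW _ => Wt_nonneg hE.ok.sm (mem_powerset.1 hW))
    | succ k ih =>
      intro A h1 h2
      have h3 : ∀ h : Ix n, ∃ C : ℝ, h ∈ E.Γ.RF \ A → ∀ y : ℕ,
          ∑ W ∈ (TT n (PP E.D.M 0 y)).powerset.filter RG.Dist, Wt W * E.phi (insert h A) W ≤
            C * Mass n (PP E.D.M 0 y) := fun h => by
        by_cases hh : h ∈ E.Γ.RF \ A
        · exact (ih _ (insert_subset (mem_sdiff.1 hh).1 h1) (by
            rw [sdiff_insert, card_erase_of_mem hh, h2]; rfl)).imp fun _ k _ => k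
        · exact ⟨0, fun k => absurd k hh⟩
      choose C hC using h3
      refine hA n E.D.M 0.05 (30 * n) (∑ h ∈ E.Γ.RF \ A, C h) (E.phi A)
        (fun W => ∑ h ∈ E.Γ.RF \ A, E.phi (insert h A) W) (by omega) hE.ok.pos hE.ok.sm
        (by norm_num) (by positivity) (phi_nonneg E A)
        (fun W => sum_nonneg fun _ _ => phi_nonneg _ _ _) (s1 A) (fun a y W hW hd hch => ?_)
        fun y => ?_
      · refine s3 A h1 (fun e => by simp [e] at h2) W _ _ (pm hW) hd (fun p hp => ?_) hch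
        obtain ⟨e2, -, e3, e4⟩ := mem_PP.1 hp
        refine ⟨e3, e4, (wt_pos (PP_gt hE.ok.sm hp)).le, fun b hb e => ?_⟩
        have := (mem_PP.1 (mem_TT.1 (hW hb)).2).2.1
        omega
      · simp only [mul_sum]
        rw [sum_comm, sum_mul]
        exact sum_le_sum fun h hh => hC h hh y
  obtain ⟨C, hC⟩ := key _ ∅ (empty_subset _) rfl
  refine ⟨C, fun y => le_of_eq_of_le (sum_congr rfl fun W _ => ?_) (hC y)⟩
  rw [Dat3.phi, Dat3.KA, filter_true_of_mem fun _ _ _ h => absurd h (notMem_empty _)]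

end Pool.Agent.MP_a43263_nt.JC
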