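import Pool.Agent.MP_a43263_nt.JC.ASpec
import Pool.Agent.MP_a43263_nt.RG.Sym

/-! THEOREM J, modules KC3 and SYM3: rows of the descent matrix as Jacobi symbols. -/

set_option autoImplicit false

noncomputable section

namespace Pool.Agent.MP_a43263_nt.JC

open Finset
open R2 (sg chi)
open RG
open RH (Smooth)

namespace KC3

variable {n : ℕ} {E : Dat3 n}

theorem notW (hE : E.Ok) {a : Gen n} (ha : E.Ord a) : a ∉ E.W0 := fun h => by
  obtain ⟨k, -, e⟩ := mem_image.1 ha.1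
  have := (hE.fix a h).1
  rw [← e] at this
  exact Option.some_ne_none _ this

theorem sgn_val (hE : E.Ok) (t : Tag n) {a : Gen n} (ha : E.Ord a) :
    ∃ σ : ℤ, (σ = 1 ∨ σ = -1) ∧ E.G t a = σ * if E.Γ.ad a.1 t = true then (a.2 : ℤ) else 1 :=
  ⟨_, by split_ifs <;> simp, hE.ord t a ha⟩

theorem part2 (hE : E.Ok) (x : Finset (Gen n)) (t : Tag n)
    (hx : ∀ a ∈ x, a ∈ E.W0 ∨ E.Ord a) : E.Gv t x ≠ 0 ∧
    ∀ p : ℕ, p.Prime → (p : ℤ) ∣ E.Gv t x → p ∣ E.D.M ∨ ∃ a ∈ x, E.Ord a ∧ a.2 = p := by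
  refine ⟨prod_ne_zero_iff.2 fun a ha => ?_, fun p hp hd => ?_⟩
  · rcases hx a ha with h | h
    · exact ((hE.fix a h).2.2 t).1
    · obtain ⟨σ, hσ, e⟩ := sgn_val hE t h
      have := h.2.1.ne_zero
      rw [e]
      rcases hσ with rfl | rfl <;> split_ifs <;> simp [this]
  · have hp' := Nat.prime_iff_prime_int.1 hp
    obtain ⟨a, ha, hd⟩ := (Prime.dvd_finsetProd_iff hp' _).1 hd
    rcases hx a ha with h | h
    · exact .inl (((hE.fix a h).2.2 t).2 p hp hd)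
    · obtain ⟨σ, hσ, e⟩ := sgn_val hE t h
      have h1 : (p : ℤ) ∣ if E.Γ.ad a.1 t = true then (a.2 : ℤ) else 1 := by
        rw [e] at hd
        rcases hσ with rfl | rfl
        · rwa [one_mul] at hd
        · rwa [neg_one_mul, dvd_neg] at hd
      split_ifs at h1
      · exact .inr ⟨a, ha, h, ((Nat.prime_dvd_prime_iff_eq hp h.2.1).1
          (Int.natCast_dvd_natCast.1 h1)).symm⟩
      · exact absurd h1 hp'.not_dvd_one

theorem part3 (hE : E.Ok) {W x : Finset (Gen n)} (hW : ∀ a ∈ W, E.Ord a)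
    (hD : RG.Dist W) (hx : x ⊆ E.W0 ∪ W) {a : Gen n} (ha : a ∈ x) (h0 : a ∉ E.W0) {t : Tag n}
    (hj : E.Γ.ad a.1 t = true) {C : ℤ} (hC : Smooth E.D.M C) : ¬IsSquare (E.Gv t x * C) := by
  rintro ⟨r, hr⟩
  have haW := (mem_union.1 (hx ha)).resolve_left h0
  have hO := hW a haW
  have hp' := Nat.prime_iff_prime_int.1 hO.2.1
  obtain ⟨σ, hσ, e⟩ := sgn_val hE t hO
  rw [if_pos hj] at e
  rw [Dat3.Gv, ← mul_prod_erase _ _ ha, e] at hr
  have h1 : (a.2 : ℤ) ∣ r := (hp'.dvd_or_dvd (a := r) (b := r) (by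
    rw [← hr]; exact ((dvd_mul_left _ _).mul_right _).mul_right _)).elim id id
  obtain ⟨s, rfl⟩ := h1
  have h2 : (a.2 : ℤ) ∣ σ * (E.Gv t (x.erase a) * C) :=
    ⟨s * s, mul_left_cancel₀ hp'.ne_zero (by rw [Dat3.Gv]; linear_combination hr)⟩
  have h3 : (a.2 : ℤ) ∣ E.Gv t (x.erase a) * C := by
    rcases hσ with rfl | rfl
    · rwa [one_mul] at h2
    · rwa [neg_one_mul, dvd_neg] at h2
  rcases hp'.dvd_or_dvd h3 with h4 | h4
  · rcases (part2 hE (x.erase a) t fun b hb =>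
      (mem_union.1 (hx (mem_of_mem_erase hb))).imp_right (hW b)).2 _ hO.2.1 h4 with h5 | h5
    · exact hO.2.2 h5
    · obtain ⟨b, hb, hb1, hb2⟩ := h5
      rcases mem_union.1 (hx (mem_of_mem_erase hb)) with h6 | h6
      · exact notW hE hb1 h6
      · exact ne_of_mem_erase hb (hD b h6 a haW hb2)
  · exact hO.2.2 (hC.2 _ hO.2.1 h4)

/-- every real form has a neighbour -/
theorem nbr {Γ : Gr n} (hΓ : Γ.Ok) {h : Ix n} (hh : h ∈ Γ.RF) :
    ∃ k ∈ Γ.RF, Γ.ad (tg h) (tg k) = true := by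
  have h1 := hΓ.hall {h} (singleton_subset_iff.2 hh) (by simp [hΓ.ir])
  rw [card_singleton] at h1
  obtain ⟨k, hk⟩ := card_pos.1 (lt_of_lt_of_le (by norm_num) h1)
  obtain ⟨h2, h', h3, h4⟩ := mem_filter.1 hk
  exact ⟨k, h2, mem_singleton.1 h3 ▸ h4⟩

theorem sm_mul {M : ℕ} {a b : ℤ} (ha : Smooth M a) (hb : Smooth M b) : Smooth M (a * b) :=
  ⟨mul_ne_zero ha.1 hb.1, fun p hp hd =>
    ((Nat.prime_iff_prime_int.1 hp).dvd_or_dvd hd).elim (ha.2 p hp) (hb.2 p hp)⟩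

theorem sm_Cy (hE : E.Ok) (y : Finset (Ix n)) (k : Ix n) : Smooth E.D.M (E.Cy y k) := by
  refine sm_mul ?_ (prod_induction _ (Smooth E.D.M) (fun _ _ => sm_mul) SYM.Sml.one
    fun j hj => SYM.sml_e hE.ok ?_)
  · split_ifs
    exacts [⟨hE.ok.c0 k, hE.ok.cM k⟩, SYM.Sml.one]
  · rintro rfl
    have := (mem_filter.1 hj).2
    rw [hE.gr.ir] at this
    exact Bool.false_ne_true this

end KC3

theorem kc3 : KC3Stmt := by
  intro n E hE
  refine ⟨fun x b hb hx => ?_, KC3.part2 hE, fun W x hW hD hx =>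
    ⟨fun a ha h0 t hj C hC => KC3.part3 hE hW hD hx ha h0 hj hC, fun C hC a ha => ?_⟩,
    fun W t hW => ?_, fun x x' t => ?_, KC3.sm_Cy hE⟩
  · rw [prod_congr rfl fun a ha => hE.row a b hb (hx a ha), KC.jac_prod]
    rfl
  · by_contra h0
    obtain ⟨h, hh, e⟩ := mem_image.1 (hW a ((mem_union.1 (hx ha)).resolve_left h0)).1
    obtain ⟨k, hk, h1⟩ := KC3.nbr hE.gr hh
    exact KC3.part3 hE hW hD hx ha h0 (e ▸ h1) (hC k hk).1 (hC k hk).2
  · refine ⟨_, KC.prod_pm (f := fun a => if E.ex a.1 t = true ∧ a.2 % 4 = 3 then -1 else 1) W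
      fun a _ => by split_ifs <;> simp, ?_⟩
    rw [Dat3.Gv, prod_congr rfl fun a ha => hE.ord t a (hW a ha), prod_mul_distrib, prod_filter]
  · unfold Dat3.Gv
    rw [symmDiff_def, sup_eq_union, prod_union disjoint_sdiff_sdiff,
      ← prod_inter_mul_prod_sdiff x x', ← prod_inter_mul_prod_sdiff x' x, inter_comm x' x]
    ring

namespace SYM3

open SYM

variable {n : ℕ} {E : Dat3 n} {l : Ix n → ℕ}

theorem ones_eq (hE : E.Ok) (l : Ix n → ℕ) (y : Finset (Ix n)) : ones (E.VV l) y =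
    (y.filter fun h => h ∈ E.Γ.RF).biUnion
      fun h => (l h).primeFactors.image fun p => (tg h, p) := by
  ext a
  simp only [ones, Dat3.VV, Gr.re, Gr.RT, gens, mem_filter, mem_union, mem_biUnion, mem_image,
    mem_univ, true_and]
  constructor
  · rintro ⟨h | ⟨⟨h, p, hp, rfl⟩, j, hj, e'⟩, k, hk, e⟩
    · have := (hE.fix a h).1
      rw [← e] at this
      exact absurd this (Option.some_ne_none _)
    · obtain rfl := tg_inj e
      obtain rfl := tg_inj e'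
      exact ⟨j, ⟨hk, hj⟩, p, hp, rfl⟩
  · rintro ⟨h, hh, p, hp, rfl⟩
    exact ⟨.inr ⟨⟨h, p, hp, rfl⟩, h, hh.2, rfl⟩, h, hh.1, rfl⟩

theorem prod_ones' {R : Type} [CommMonoid R] (hE : E.Ok) (l : Ix n → ℕ) (y : Finset (Ix n))
    (F : Gen n → R) : ∏ a ∈ ones (E.VV l) y, F a =
      ∏ h ∈ y.filter fun h => h ∈ E.Γ.RF, ∏ p ∈ (l h).primeFactors, F (tg h, p) := by
  rw [ones_eq hE, prod_biUnion]
  · exact prod_congr rfl fun h _ => prod_image fun _ _ _ _ e => congrArg Prod.snd e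
  · intro h _ k _ hk
    refine disjoint_left.2 fun a h1 h2 => hk ?_
    obtain ⟨p, -, rfl⟩ := mem_image.1 h1
    obtain ⟨q, -, e⟩ := mem_image.1 h2
    exact (tg_inj (congrArg Prod.fst e)).symm

theorem prod_ones {R : Type} [CommMonoid R] (hE : E.Ok) (l : Ix n → ℕ) {y : Finset (Ix n)}
    (hy : y ⊆ E.Γ.RF) (F : Gen n → R) : ∏ a ∈ ones (E.VV l) y, F a =
      ∏ h ∈ y, ∏ p ∈ (l h).primeFactors, F (tg h, p) := by
  rw [prod_ones' hE, filter_true_of_mem hy]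

theorem ord_of (hl : Adm E.D l) {h : Ix n} (hh : h ∈ E.Γ.RF) {p : ℕ} (hp : p.Prime)
    (hd : p ∣ l h) : E.Ord (tg h, p) :=
  ⟨mem_image_of_mem _ hh, hp, fun e =>
    hp.ne_one (Nat.eq_one_of_dvd_coprimes (cop_of (hl.one h)) hd e)⟩

theorem part2 (hE : E.Ok) (hl : Adm E.D l) (y : Finset (Ix n)) {b : Gen n} (hb : b ∈ E.W0) :
    ∏ a ∈ ones (E.VV l) y, E.g a b = 1 := by
  rw [prod_ones' hE]
  refine prod_eq_one fun h hh => ?_
  rw [← jac_sml (hl.one h) ((hE.fix b hb).2.2 (tg h)), ← jac_sqf (hl.sqf h)]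
  refine prod_congr rfl fun p hp => ?_
  rw [hE.sgn.1, hE.row b _ (ord_of hl (mem_filter.1 hh).2 (Nat.prime_of_mem_primeFactors hp)
    (Nat.dvd_of_mem_primeFactors hp)) (.inl hb)]

/-- the value of a whole form -/
theorem whole (hE : E.Ok) (hl : Adm E.D l) {h : Ix n} (hh : h ∈ E.Γ.RF) (t : Tag n) :
    ∏ q ∈ (l h).primeFactors, E.G t (tg h, q) =
      if E.Γ.ad (tg h) t = true then (l h : ℤ) else 1 := by
  rw [prod_congr rfl fun q hq => hE.ord t _ (ord_of hl hh (Nat.prime_of_mem_primeFactors hq)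
    (Nat.dvd_of_mem_primeFactors hq)), prod_mul_distrib]
  have h1 : ∏ q ∈ (l h).primeFactors,
      (if E.ex (tg h) t = true ∧ q % 4 = 3 then (-1 : ℤ) else 1) = 1 := by
    by_cases e : E.ex (tg h) t = true
    · rw [← jac_sml (hl.one h) Sml.one.neg, ← jac_sqf (hl.sqf h)]
      refine prod_congr rfl fun q hq => ?_
      rw [KC.jac_neg_one (prime_odd hl (Nat.dvd_of_mem_primeFactors hq)),
        jac_sqf (hl.sqf h), jac_sml (hl.one h) Sml.one.neg]
      simp [e]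
    · simp [e]
  dsimp only
  rw [h1, one_mul]
  split_ifs
  · rw [← Nat.cast_prod, Nat.prod_primeFactors_of_squarefree (hl.sqf h)]
  · exact prod_const_one

theorem entry (hE : E.Ok) (hl : Adm E.D l) {h k : Ix n} (hh : h ∈ E.Γ.RF) (hk : k ∈ E.Γ.RF)
    {p q : ℕ} (hp : p.Prime) (hd : p ∣ l k) (hq : q ∈ (l h).primeFactors) (hne : q ≠ p) :
    E.g (tg h, q) (tg k, p) = jacobiSym (E.G (tg k) (tg h, q)) p :=
  hE.row _ _ (ord_of hl hk hp hd) (.inr ⟨ord_of hl hh (Nat.prime_of_mem_primeFactors hq)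
    (Nat.dvd_of_mem_primeFactors hq), hne⟩)

theorem inner (hE : E.Ok) (hl : Adm E.D l) {h k : Ix n} (hh : h ∈ E.Γ.RF) (hk : k ∈ E.Γ.RF)
    {p : ℕ} (hp : p.Prime) (hd : p ∣ l k) : ∏ q ∈ (l h).primeFactors, E.g (tg h, q) (tg k, p) =
      (if h = k then jacobiSym (E.D.c k) p else 1) *
        if E.Γ.ad (tg h) (tg k) = true then jacobiSym (l h) p else 1 := by
  have h2 := whole hE hl hh (tg k)
  by_cases e : h = k
  · subst e
    have hm : p ∈ (l h).primeFactors := Nat.mem_primeFactors.2 ⟨hp, hd, (hl.sqf h).ne_zero⟩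
    rw [hE.gr.ir, if_neg Bool.false_ne_true, ← mul_prod_erase _ _ hm] at h2
    rw [if_pos rfl, hE.gr.ir, if_neg Bool.false_ne_true, mul_one, ← mul_prod_erase _ _ hm,
      prod_congr rfl fun q hq => entry hE hl hh hh hp hd (mem_of_mem_erase hq) (ne_of_mem_erase hq),
      KC.jac_prod, hE.dia h hh p hp (ord_of hl hh hp hd).2.2, ← jacobiSym.mul_left, mul_assoc, h2,
      mul_one]
  · rw [if_neg e, one_mul, prod_congr rfl fun q hq => entry hE hl hh hk hp hd hq fun e' =>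
      hp.ne_one (Nat.eq_one_of_dvd_coprimes (hl.cop h k e)
        (e' ▸ Nat.dvd_of_mem_primeFactors hq) hd), KC.jac_prod, h2]
    split_ifs
    · rfl
    · exact jacobiSym.one_left _

theorem row0 (hE : E.Ok) (hl : Adm E.D l) {y : Finset (Ix n)} (hy : y ⊆ E.Γ.RF) {k : Ix n}
    (hk : k ∈ E.Γ.RF) {p : ℕ} (hp : p.Prime) (hd : p ∣ l k) :
    ∏ a ∈ ones (E.VV l) y, E.g a (tg k, p) = jacobiSym (if k ∈ y then E.D.c k else 1) p *
      ∏ h ∈ y.filter (fun h => E.Γ.ad (tg h) (tg k) = true), jacobiSym (l h) p := by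
  rw [prod_ones hE l hy, prod_congr rfl fun h hh => inner hE hl (hy hh) hk hp hd, prod_mul_distrib,
    prod_ite_eq', prod_filter]
  split_ifs <;> first | rfl | rw [jacobiSym.one_left]

theorem row1 (hE : E.Ok) (hl : Adm E.D l) {y : Finset (Ix n)} (hy : y ⊆ E.Γ.RF) {k k' : Ix n}
    (hk : k ∈ E.Γ.RF) (hk' : k' ≠ k) {p : ℕ} (hp : p.Prime) (hd : p ∣ l k) :
    ∏ a ∈ ones (E.VV l) y, E.g a (tg k, p) = jacobiSym (E.Cy y k) p *
        (jacobiSym (E.D.e k' - E.D.e k) p * jacobiSym (l k') p) ^ E.Γ.Yad (tg k) y := by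
  rw [row0 hE hl hy hk hp hd, prod_congr rfl fun h _ => change hE.ok hl h hk' hd,
    prod_mul_distrib, prod_const, KC.jac_prod, ← mul_assoc, ← jacobiSym.mul_left]
  rfl

end SYM3

open SYM in
theorem sym3 : KC3Stmt → SYM3Stmt := by
  intro _ n E hE
  have hD := hE.ok
  refine ⟨fun y hy y' hy' f g hfg =>
    ⟨1, ∑ k ∈ y', E.Γ.Yad (tg k) y, .inl rfl, fun l hl => ?_⟩,
    fun y b hb l hl => SYM3.part2 hE hl y hb, fun y hy k hk k' hk' => ⟨E.Cy y k *
      (E.D.e k' - E.D.e k) ^ E.Γ.Yad (tg k) y, fun l hl p hp hd => ?_⟩,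
    fun y hy k hk l hl p hp hd => ?_⟩
  · rw [chi, prod_comm, SYM3.prod_ones hE l hy', one_mul, ← prod_pow_eq_pow_sum]
    refine prod_congr rfl fun k hk => ?_
    rw [prod_congr rfl fun p hp => SYM3.row1 hE hl hy (hy' hk) (other k)
      (Nat.prime_of_mem_primeFactors hp) (Nat.dvd_of_mem_primeFactors hp), prod_mul_distrib,
      prod_pow, prod_mul_distrib, jac_sqf (hl.sqf k), jac_sqf (hl.sqf k), jac_sqf (hl.sqf k),
      jac_sml (hl.one k) (KC3.sm_Cy hE y k), jac_sml (hl.one k) (sml_e hD (other k)), one_mul,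
      one_mul, all_eq hD hl hfg (other k)]
  · rw [SYM3.row1 hE hl hy hk hk'.symm hp hd, jacobiSym.mul_left, jacobiSym.pow_left, mul_pow,
      mul_assoc]
  · obtain ⟨m, hm⟩ := (mem_filter.1 hy).2 k hk
    have h1 := jacobiSym.sq_one ((sml_e hD (other k)).gcd
      ((cop_of (hl.one k)).coprime_dvd_left hd))
    have h2 := jacobiSym.sq_one (a := (l (k.1 + 1, k.2) : ℤ)) (b := p) (by
      rw [Int.gcd_natCast_natCast]
      exact (hl.cop _ _ (other k)).coprime_dvd_right hd)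
    rw [SYM3.row1 hE hl (mem_powerset.1 (mem_filter.1 hy).1) hk (other k) hp hd, hm, ← two_mul,
      pow_mul, mul_pow, h1, h2, one_mul, one_pow, mul_one]

end Pool.Agent.MP_a43263_nt.JC
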