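import Pool.Agent.MP_a43263_nt.RG.Tools
import Pool.Agent.MP_a43263_nt.JC.Cnt
import Pool.Agent.MP_a43263_nt.JC.Sym
import Pool.Agent.MP_a43263_nt.JC.Step
import Pool.Agent.MP_a43263_nt.JC.Aly
import Pool.Agent.MP_a43263_nt.JC.Kil
import Pool.Agent.MP_a43263_nt.JC.Key
import Pool.Agent.MP_a43263_nt.JC.Osc
import Pool.Agent.MP_a43263_nt.JC.Mkv

/-! THEOREM J, the analytic half: assembly. -/

set_option autoImplicit false

namespace Pool.Agent.MP_a43263_nt.JC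

theorem mkvAll : MKV3Stmt :=
  mkv_of RG.T.mer RG.T.mes RG.T.exp RG.T.dom RG.T.gg cnt3 kc3 sym3 step3 aly lya3 kil3 key3 os3
    mkv3

end Pool.Agent.MP_a43263_nt.JC
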