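import Mathlib.Algebra.QuadraticAlgebra.Basic
import Mathlib.RingTheory.PicardGroup
import Pool.Agent.MP_a43263_nt.Defs

/-! THEOREM J: the Jacobian of `y ^ 2 = f(x)` for `f` of odd degree, as the Picard group of the
affine curve, and its Tate-Shafarevich group. -/

noncomputable section

namespace Pool.Agent.MP_a43263_nt.JC

open Polynomial

variable {K L : Type} [Field K] [Field L]

/-- The coordinate ring `K[x][y] / (y ^ 2 - f)`. -/
abbrev Rg (f : K[X]) : Type := QuadraticAlgebra K[X] f 0

/-- The map of coordinate rings that applies `φ` to all coefficients. -/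
def rmap (φ : K →+* L) {f : K[X]} {g : L[X]} (h : f.map φ = g) : Rg f →+* Rg g where
  toFun z := ⟨z.re.map φ, z.im.map φ⟩
  map_one' := by ext1 <;> simp [QuadraticAlgebra.re_one, QuadraticAlgebra.im_one]
  map_mul' z w := by ext1 <;> simp [← h]
  map_zero' := by ext1 <;> simp
  map_add' z w := by ext1 <;> simp

/-- The polynomial `f` over the field `K`. -/
abbrev fK (f : ℚ[X]) (K : Type) [Field K] [CharZero K] : K[X] := f.map (Rat.castHom K)

theorem fK_map (f : ℚ[X]) [CharZero K] [CharZero L] (φ : K →+* L) : (fK f K).map φ = fK f L := by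
  rw [fK, Polynomial.map_map, RingHom.ext_rat (φ.comp _) (Rat.castHom L)]

/-- The Picard group of the affine curve `y ^ 2 = f(x)` over `K`, written additively. -/
abbrev Jac (f : ℚ[X]) (K : Type) [Field K] [CharZero K] : Type :=
  Additive (CommRing.Pic (Rg (fK f K)))

/-- The map of Picard groups induced by a field homomorphism. -/
def jmap (f : ℚ[X]) [CharZero K] [CharZero L] (φ : K →+* L) : Jac f K →+ Jac f L :=
  MonoidHom.toAdditive (CommRing.Pic.mapRingHom (rmap φ (fK_map f φ)))

/-- The action of the absolute Galois group of `ℚ` on the geometric points. -/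
abbrev jac (f : ℚ[X]) (σ : AlgebraicClosure ℚ ≃ₐ[ℚ] AlgebraicClosure ℚ) :
    Jac f (AlgebraicClosure ℚ) →+ Jac f (AlgebraicClosure ℚ) :=
  jmap f (σ : AlgebraicClosure ℚ →+* AlgebraicClosure ℚ)

/-- The rational points: the geometric points fixed by the Galois group. -/
def JQ (f : ℚ[X]) : AddSubgroup (Jac f (AlgebraicClosure ℚ)) where
  carrier := {P | ∀ σ, jac f σ P = P}
  zero_mem' σ := map_zero _
  add_mem' hP hQ σ := by rw [map_add, hP σ, hQ σ]
  neg_mem' hP σ := by rw [map_neg, hP σ]

/-- The restriction of the cocycle `c` to the absolute Galois group of `K` is a coboundary;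
here `τ` is the restriction of `σ` along the fixed embedding. -/
def JLoc (f : ℚ[X]) (K : Type) [Field K] [CharZero K]
    (c : (AlgebraicClosure ℚ ≃ₐ[ℚ] AlgebraicClosure ℚ) → Jac f (AlgebraicClosure ℚ)) : Prop :=
  ∃ R : Jac f (AlgebraicClosure K), ∀ (σ : AlgebraicClosure K ≃ₐ[K] AlgebraicClosure K)
    (τ : AlgebraicClosure ℚ ≃ₐ[ℚ] AlgebraicClosure ℚ), (∀ x, emb K (τ x) = σ (emb K x)) →
      jmap f (emb K) (c τ) = jmap f (σ : AlgebraicClosure K →+* AlgebraicClosure K) R - R

/-- The Tate-Shafarevich group: classes that are trivial over `ℝ` and over every `ℚ_[p]`. -/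
def JSha (f : ℚ[X]) : Set (H1 (jac f)) :=
  {x | ∃ c : Z1 (jac f), H1.mk (jac f) c = x ∧ JLoc f ℝ c ∧
    ∀ (p : ℕ) [Fact p.Prime], JLoc f ℚ_[p] c}

end Pool.Agent.MP_a43263_nt.JC
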