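import Mathlib.Algebra.Polynomial.Monic
import Mathlib.Algebra.Polynomial.Eval.Degree
import Mathlib.Algebra.Field.Defs

/-! THEOREM J: the image of the 2-descent map, in terms of polynomials. -/

noncomputable section

namespace Pool.Agent.MP_a43263_nt.JC

open Polynomial

variable {K ι : Type} [Field K] [Fintype ι]

/-- The monic polynomial with the roots `a i`. -/
def fp (a : ι → K) : K[X] := ∏ i, (X - C (a i))

/-- The product of the differences `β - x` over the roots `β` of the monic polynomial `U`. -/
def nb (U : K[X]) (x : K) : K := (-1) ^ U.natDegree * U.eval x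

/-- `d` is, up to squares, the image under the 2-descent map of the effective divisor
`U(x) = 0, y = V(x)` of the curve `y ^ 2 = fp a`, which avoids the Weierstrass points. -/
def W (a d : ι → K) : Prop := ∃ U V : K[X], U.Monic ∧ U ∣ fp a - V ^ 2 ∧
  ∀ i, U.eval (a i) ≠ 0 ∧ d i ≠ 0 ∧ IsSquare (d i * nb U (a i))

end Pool.Agent.MP_a43263_nt.JC
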