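import Pool.Agent.MP_a43263_nt.RH.Spec
import Pool.Agent.MP_a43263_nt.JC.Defs
import Pool.Agent.MP_a43263_nt.JC.Wk

/-! THEOREM J, the algebraic half: Mumford ideals, 2-descent, local theory.
Note: `/team-store/JAC_NOTE.md`, blueprint: `/team-store/JAC_BLUEPRINT.md`. -/

set_option autoImplicit false

noncomputable section

namespace Pool.Agent.MP_a43263_nt.JC

open Polynomial Finset
open RH (hs up Conic)

/-! ### definitions -/

section
variable {R : Type} [CommRing R]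

open Classical in
/-- the class of an ideal -/
def cl (I : Ideal R) : CommRing.Pic R :=
  if h : Module.Invertible R I then (haveI := h; CommRing.Pic.mk R I) else 1

/-- invertible ideals -/
def Inv (I : Ideal R) : Prop := ∃ (J : Ideal R) (a : R), a ≠ 0 ∧ I * J = Ideal.span {a}

end

variable {K ι : Type} [Field K] [Fintype ι]

/-- `f` has the `2 g + 1` different roots `a i` -/
structure Cv (g : ℕ) (a : ι → K) (f : K[X]) : Prop where
  card : Fintype.card ι = 2 * g + 1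
  pos : 1 ≤ g
  inj : Function.Injective a
  eq : f = fp a

/-- the principal ideal of a polynomial in `x` -/
def PI (f u : K[X]) : Ideal (Rg f) := Ideal.span {⟨u, 0⟩}

/-- the Mumford ideal `(U, y - V)` -/
def MI (f U V : K[X]) : Ideal (Rg f) := Ideal.span {⟨U, 0⟩, ⟨-V, 1⟩}

/-- the conjugate ideal -/
def cj {f : K[X]} (I : Ideal (Rg f)) : Ideal (Rg f) := I.map (starRingEnd (Rg f))

/-- `u` is the norm of `I` -/
def Nu {f : K[X]} (I : Ideal (Rg f)) (u : K[X]) : Prop := u.Monic ∧ I * cj I = PI f u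

/-- Mumford pairs that avoid the Weierstrass points -/
def Mum (a : ι → K) (f U V : K[X]) : Prop := U.Monic ∧ U ∣ f - V ^ 2 ∧ ∀ i, U.eval (a i) ≠ 0

/-- reduced Mumford pairs -/
def Red (g : ℕ) (f U V : K[X]) : Prop :=
  U.Monic ∧ U ∣ f - V ^ 2 ∧ U.natDegree ≤ g ∧ V.degree < U.degree

open Classical in
/-- the leading coefficient at infinity -/
def lc {f : K[X]} (h : Rg f) : K :=
  if h.im = 0 ∨ f.natDegree + 2 * h.im.natDegree < 2 * h.re.natDegree then h.re.leadingCoeff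
  else h.im.leadingCoeff

/-- `R` is a half of the class of `D`, and `ρ i` is the square root of the norm of `D` at `a i`
that belongs to `R` -/
def Z (a : ι → K) (f : K[X]) (R : CommRing.Pic (Rg f)) (D : Ideal (Rg f)) (ρ : ι → K) : Prop :=
  ∃ (E : Ideal (Rg f)) (u : K[X]) (h₁ h₂ : Rg f), Nu E u ∧ cl E = R ∧ lc h₁ = 1 ∧ lc h₂ = 1 ∧
    Ideal.span {h₁} * D = Ideal.span {h₂} * E ^ 2 ∧
    ∀ i, u.eval (a i) ≠ 0 ∧ h₁.re.eval (a i) ≠ 0 ∧ h₂.re.eval (a i) ≠ 0 ∧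
      ρ i * h₁.re.eval (a i) = nb u (a i) * h₂.re.eval (a i)

/-- everywhere locally in the image of the descent map -/
def ELS (a d : ι → ℚ) : Prop := W (fun i => (a i : ℝ)) (fun i => (d i : ℝ)) ∧
  ∀ (p : ℕ) [Fact p.Prime], W (fun i => (a i : ℚ_[p])) fun i => (d i : ℚ_[p])

open Classical in
/-- the derivative of `fp a` at `a i` -/
def fd {A : Type} [CommRing A] (a : ι → A) (i : ι) : A := ∏ k ∈ univ.erase i, (a i - a k)

open Classical in
/-- the image of the Weierstrass point `(a i, 0)` -/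
def tv {A : Type} [CommRing A] (a : ι → A) (i k : ι) : A := if k = i then fd a i else a i - a k

/-- the diagonal form has a totally isotropic subspace of dimension `g` -/
def Iso (g : ℕ) (e : ι → K) : Prop :=
  ∃ S : Submodule K (ι → K), g ≤ Module.finrank K S ∧ ∀ z ∈ S, ∑ i, e i * z i ^ 2 = 0

/-- what is used of the Hilbert symbol -/
structure Sy (s : K → K → ℤ) : Prop where
  pm : ∀ x y, x ≠ 0 → y ≠ 0 → s x y = 1 ∨ s x y = -1
  comm : ∀ x y, s x y = s y x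
  mul : ∀ x x' y, x ≠ 0 → x' ≠ 0 → y ≠ 0 → s (x * x') y = s x y * s x' y
  con : ∀ x y, x ≠ 0 → y ≠ 0 → Conic x y → s x y = 1

/-- the Hasse symbol of a diagonal form -/
def Hs {A : Type} {m : ℕ} (s : A → A → ℤ) (e : Fin m → A) : ℤ := ∏ i, ∏ j ∈ Ioi i, s (e i) (e j)

/-! ### A. ideals -/

def PICStmt : Prop := (∀ (R : Type) [CommRing R] [IsDomain R],
    (∀ x : CommRing.Pic R, ∃ I : Ideal R, Inv I ∧ cl I = x) ∧ cl (⊤ : Ideal R) = 1 ∧
    (∀ I J : Ideal R, Inv I → Inv J → cl (I * J) = cl I * cl J) ∧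
    ∀ I J : Ideal R, Inv I → Inv J → (cl I = cl J ↔
      ∃ a b : R, a ≠ 0 ∧ b ≠ 0 ∧ Ideal.span {a} * I = Ideal.span {b} * J)) ∧
  ∀ (R S : Type) [CommRing R] [IsDomain R] [CommRing S] [IsDomain S] (φ : R →+* S),
    Function.Injective φ → ∀ I : Ideal R, Inv I → CommRing.Pic.mapRingHom φ (cl I) = cl (I.map φ)

/-- the calculus of Mumford ideals and norms -/
def MUMStmt : Prop := ∀ (K ι : Type) [Field K] [CharZero K] [Fintype ι] (g : ℕ) (a : ι → K)
  (f : K[X]), Cv g a f → (f.Monic ∧ f.natDegree = 2 * g + 1 ∧ Squarefree f ∧ IsDomain (Rg f)) ∧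
  (∀ U V : K[X], cj (MI f U V) = MI f U (-V)) ∧
  (∀ U V : K[X], U ∣ f - V ^ 2 → MI f U V * MI f U (-V) = PI f U) ∧
  (∀ U U' V : K[X], U * U' ∣ f - V ^ 2 → MI f U V * MI f U' V = MI f (U * U') V) ∧
  (∀ V : K[X], MI f (f - V ^ 2) V = Ideal.span {⟨-V, 1⟩}) ∧
  (∀ U V V' : K[X], U ∣ V - V' → MI f U V = MI f U V') ∧
  (∀ U U' V : K[X], Associated U U' → MI f U V = MI f U' V) ∧ (∀ V : K[X], MI f 1 V = ⊤) ∧
  (∀ U V : K[X], U ∣ f - V ^ 2 → ∀ h : Rg f, h ∈ MI f U V ↔ U ∣ h.re + h.im * V) ∧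
  (∀ U V : K[X], U.Monic → U ∣ f - V ^ 2 → Nu (MI f U V) U) ∧
  (∀ s : K[X], s.Monic → Nu (PI f s) (s ^ 2)) ∧ Nu (⊤ : Ideal (Rg f)) 1 ∧
  (∀ (I J : Ideal (Rg f)) (u w : K[X]), Nu I u → Nu J w → Nu (I * J) (u * w)) ∧
  (∀ (I : Ideal (Rg f)) (u w : K[X]), Nu I u → Nu I w → u = w) ∧
  (∀ (I : Ideal (Rg f)) (u : K[X]), Nu I u → Nu (cj I) u ∧ Inv I ∧ Inv (cj I)) ∧
  ∀ (h : Rg f) (u : K[X]), h ≠ 0 →
    (Nu (Ideal.span {h}) u ↔ u.Monic ∧ Associated u (QuadraticAlgebra.norm h))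

/-- every ideal is a polynomial times a Mumford ideal -/
def STRStmt : Prop := ∀ (K : Type) [Field K] (f : K[X]) (I : Ideal (Rg f)), IsDomain (Rg f) →
  I ≠ ⊥ → ∃ s U V : K[X], s.Monic ∧ U.Monic ∧ U ∣ f - V ^ 2 ∧ I = PI f s * MI f U V

/-- leading coefficients -/
def LCStmt : Prop := ∀ (K : Type) [Field K] (f : K[X]), f.Monic → Odd f.natDegree →
  (∀ h k : Rg f, lc (h * k) = lc h * lc k) ∧ (∀ h : Rg f, lc h = 0 ↔ h = 0) ∧
  (∀ u : K[X], lc (⟨u, 0⟩ : Rg f) = u.leadingCoeff) ∧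
  (∀ h : Rg f, (QuadraticAlgebra.norm h).leadingCoeff =
    (-1) ^ (QuadraticAlgebra.norm h).natDegree * lc h ^ 2) ∧
  (∀ h : Rg f, h ≠ 0 → (QuadraticAlgebra.norm h).natDegree =
    if h.im.degree = ⊥ then 2 * h.re.natDegree
    else max (2 * h.re.natDegree) (f.natDegree + 2 * h.im.natDegree)) ∧
  (∀ h k : Rg f, Ideal.span {h} = Ideal.span {k} → lc h = lc k → h = k) ∧
  ∀ (L : Type) [Field L] (φ : K →+* L) (F : L[X]) (e : f.map φ = F) (h : Rg f),
    lc (rmap φ e h) = φ (lc h)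

/-- existence and uniqueness of reduced representatives -/
def REDStmt : Prop := ∀ (K ι : Type) [Field K] [CharZero K] [Fintype ι] (g : ℕ) (a : ι → K)
  (f : K[X]), Cv g a f →
  (∀ x : CommRing.Pic (Rg f), ∃ U V : K[X], Red g f U V ∧ cl (MI f U V) = x) ∧
  ∀ U V U' V' : K[X], Red g f U V → Red g f U' V' → cl (MI f U V) = cl (MI f U' V') →
    U = U' ∧ V = V'

/-- representatives that avoid the Weierstrass points -/
def GREPStmt : Prop := ∀ (K ι : Type) [Field K] [CharZero K] [Fintype ι] (g : ℕ) (a : ι → K)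
  (f : K[X]), Cv g a f → ∀ x : CommRing.Pic (Rg f), ∃ U V : K[X], Mum a f U V ∧ cl (MI f U V) = x

/-- the image of the descent map is a group -/
def GRPStmt : Prop := ∀ (K ι : Type) [Field K] [CharZero K] [Fintype ι] (g : ℕ) (a : ι → K),
  Cv g a (fp a) → ∀ d e : ι → K, W a d → W a e → W a fun i => d i * e i

/-- the images of the Weierstrass points -/
def TWStmt : Prop := ∀ (K ι : Type) [Field K] [CharZero K] [Fintype ι] (g : ℕ) (a : ι → K),
  Cv g a (fp a) → ∀ i, W a (tv a i)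

/-- the product of the components is a square -/
def NRMStmt : Prop := ∀ (K ι : Type) [Field K] [Fintype ι] (a d : ι → K),
  W a d → IsSquare (∏ i, d i)

/-! ### B. halves -/

def ZEDStmt : Prop := ∀ (K ι : Type) [Field K] [CharZero K] [Fintype ι] (g : ℕ) (a : ι → K)
  (f : K[X]), Cv g a f →
  (∀ R D ρ w, Z a f R D ρ → Nu D w → R ^ 2 = cl D ∧ ∀ i, ρ i ^ 2 = nb w (a i)) ∧
  (∀ R D w, Nu D w → (∀ i, w.eval (a i) ≠ 0) → R ^ 2 = cl D → ∃ ρ, Z a f R D ρ) ∧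
  (∀ R D ρ R' D' ρ', Z a f R D ρ → Z a f R' D' ρ' → Z a f (R * R') (D * D') fun i => ρ i * ρ' i) ∧
  (∀ R R' D ρ ρ', Z a f R D ρ → Z a f R' D ρ' → Z a f (R' / R) ⊤ fun i => ρ' i / ρ i) ∧
  (∀ ρ, Z a f 1 ⊤ ρ ↔ ∀ i, ρ i = 1) ∧
  ∀ (L : Type) [Field L] (φ : K →+* L) (F : L[X]) (e : f.map φ = F), ∀ R D ρ, Z a f R D ρ →
    Z (fun i => φ (a i)) F (CommRing.Pic.mapRingHom (rmap φ e) R) (D.map (rmap φ e))
      fun i => φ (ρ i)

/-- the 2-torsion and the sign vectors of product one -/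
def ZTStmt : Prop := ∀ (K ι : Type) [Field K] [CharZero K] [Fintype ι] (g : ℕ) (a : ι → K)
  (f : K[X]), Cv g a f →
  (∀ T ε, Z a f T ⊤ ε → ∏ i, ε i = 1 ∧ ((∀ i, ε i = 1) → T = 1)) ∧
  ∀ ε : ι → K, (∀ i, ε i ^ 2 = 1) → ∏ i, ε i = 1 → ∃ T, Z a f T ⊤ ε

/-- divisibility by two -/
def HALFStmt : Prop := ∀ (K ι : Type) [Field K] [CharZero K] [IsAlgClosed K] [Fintype ι] (g : ℕ)
  (a : ι → K) (f : K[X]), Cv g a f → ∀ x : CommRing.Pic (Rg f), ∃ R, R ^ 2 = x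

/-- an invariant class has a rational representative -/
def RATStmt : Prop := ∀ (K ι : Type) [Field K] [CharZero K] [Fintype ι] (g : ℕ) (a : ι → K)
  (f : K[X]) (F : (AlgebraicClosure K)[X]), Cv g a f → f.map (algebraMap K _) = F →
  ∀ P : CommRing.Pic (Rg F), (∀ (σ : AlgebraicClosure K ≃ₐ[K] AlgebraicClosure K)
    (e : F.map (σ : AlgebraicClosure K →+* AlgebraicClosure K) = F),
      CommRing.Pic.mapRingHom (rmap _ e) P = P) →
  ∃ U V : K[X], Mum a f U V ∧ cl (MI F (U.map (algebraMap K _)) (V.map (algebraMap K _))) = P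

/-- stabilisers are open -/
def STABStmt : Prop := ∀ (ι : Type) [Fintype ι] (g : ℕ) (a : ι → ℚ), Cv g a (fp a) →
  ∀ R : Jac (fp a) (AlgebraicClosure ℚ), IsLocallyConstant fun σ => jac (fp a) σ R

/-! ### C. descent -/

def SHAStmt : Prop := ∀ (ι : Type) [Fintype ι] (g : ℕ) (a : ι → ℚ), Cv g a (fp a) →
  (∀ d, ELS a d → W a d) → ∀ k : ℕ, ∀ x ∈ JSha (fp a), 2 ^ k • x = 0 → x = 0

def TORStmt : Prop := ∀ (ι : Type) [Fintype ι] (g : ℕ) (a : ι → ℚ), Cv g a (fp a) →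
  Nat.card {P : JQ (fp a) // 2 • P = 0} = 2 ^ (2 * g)

def IDXStmt : Prop := ∀ (ι : Type) [Fintype ι] (g : ℕ) (a : ι → ℚ) (I : Finset (ι → ℚ)),
  Cv g a (fp a) → (∀ d ∈ I, W a d) → (∀ d ∈ I, ∀ e ∈ I, (∀ i, IsSquare (d i * e i)) → d = e) →
  (∀ d, W a d → ∃ e ∈ I, ∀ i, IsSquare (d i * e i)) →
  (nsmulAddMonoidHom 2 : JQ (fp a) →+ JQ (fp a)).range.index = I.card

/-- the complete 2-descent -/
def DESCStmt : Prop := ∀ (ι : Type) [Fintype ι] (g : ℕ) (a : ι → ℚ) (I : Finset (ι → ℚ)),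
  Cv g a (fp a) → (∀ d ∈ I, W a d) → (∀ d ∈ I, ∀ e ∈ I, (∀ i, IsSquare (d i * e i)) → d = e) →
  (∀ d, ELS a d → ∃ e ∈ I, ∀ i, IsSquare (d i * e i)) →
  (∀ k : ℕ, ∀ x ∈ JSha (fp a), 2 ^ k • x = 0 → x = 0) ∧
    Nat.card {P : JQ (fp a) // 2 • P = 0} = 2 ^ (2 * g) ∧
    (nsmulAddMonoidHom 2 : JQ (fp a) →+ JQ (fp a)).range.index = I.card

/-! ### D. local theory -/

/-- the quadric attached to a class has a large linear subspace -/
def QSStmt : Prop := ∀ (K ι : Type) [Field K] [CharZero K] [Fintype ι] (g : ℕ) (a d : ι → K),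
  Cv g a (fp a) → W a d → Iso g fun i => d i * fd a i

/-- the Hasse symbol of a split form depends on the discriminant only -/
def HWStmt : Prop := ∀ (K : Type) [Field K] [CharZero K] (s : K → K → ℤ), Sy s →
  ∀ (g : ℕ) (e e' : Fin (2 * g + 1) → K), (∀ i, e i ≠ 0) → (∀ i, e' i ≠ 0) → Iso g e → Iso g e' →
    IsSquare ((∏ i, e i) * ∏ i, e' i) → Hs s e = Hs s e'

/-- Hilbert symbols of the completions -/
def SYMBStmt : Prop := (Sy fun x y : ℝ => if x < 0 ∧ y < 0 then -1 else 1) ∧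
  ∀ (p : ℕ) [Fact p.Prime], ∃ s : ℚ_[p] → ℚ_[p] → ℤ, Sy s ∧
    ∀ x y : ℤ, x ≠ 0 → y ≠ 0 → s x y = hs p x y

/-- the quadratic relation and isotropy -/
def QVStmt : Prop := ∀ (K : Type) [Field K] [CharZero K] (s : K → K → ℤ), Sy s →
  ∀ (g : ℕ) (a : Fin (2 * g + 1) → K), Cv g a (fp a) →
    (∀ d, W a d → Hs s d * ∏ i, s (d i) (fd a i) = 1) ∧
    ∀ d e, W a d → W a e → ∏ i, s (d i) (e i) = 1

/-- valuations: a root that is apart from all other roots is unramified -/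
def VALStmt : Prop := ∀ (p : ℕ) [Fact p.Prime] (ι : Type) [Fintype ι] (a d : ι → ℚ_[p]) (i j : ι),
  Odd (Fintype.card ι) → (∀ k, ‖a k‖ ≤ 1) →
  (∀ k l, k ≠ l → ¬(k = i ∧ l = j) → ¬(k = j ∧ l = i) → ‖a k - a l‖ = 1) → W a d →
  ∀ k, (i ≠ j → k ≠ i ∧ k ≠ j) → Even (d k).valuation

open Classical in
/-- the local condition at a prime of nodal reduction -/
def NODStmt : Prop := ∀ (p : ℕ) [Fact p.Prime] (g : ℕ) (a d : Fin (2 * g + 1) → ℤ)
  (i j : Fin (2 * g + 1)), p ≠ 2 → 1 ≤ g → i ≠ j → (p : ℤ) ∣ a i - a j → ¬(p : ℤ) ^ 2 ∣ a i - a j →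
  (∀ k l, k ≠ l → ¬(k = i ∧ l = j) → ¬(k = j ∧ l = i) → ¬(p : ℤ) ∣ a k - a l) →
  W (fun k => (a k : ℚ_[p])) (fun k => (d k : ℚ_[p])) →
  (∀ k, k ≠ i → k ≠ j → Even (padicValInt p (d k))) ∧
    Even (padicValInt p (d i) + padicValInt p (d j)) ∧
    jacobiSym (up p (d i * d j)) p =
      jacobiSym (∏ l ∈ (univ.erase i).erase j, (a i - a l)) p ^ padicValInt p (d i)

/-- the local image is locally constant, uniformly -/
def CSTPStmt : Prop := ∀ (p : ℕ) [Fact p.Prime] (ι : Type) [Fintype ι] (g : ℕ)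
  (a a' d : ι → ℚ_[p]), Cv g a (fp a) → Cv g a' (fp a') →
  (∀ i k, i ≠ k → ‖(a i - a k) - (a' i - a' k)‖ < ‖(4 : ℚ_[p])‖ * ‖a' i - a' k‖) → W a' d → W a d

/-- the real image depends on the order of the roots only -/
def CSTRStmt : Prop := ∀ (ι : Type) [Fintype ι] (g : ℕ) (a a' d : ι → ℝ), Cv g a (fp a) →
  Cv g a' (fp a') → (∀ i k, a i < a k ↔ a' i < a' k) → W a' d → W a d

theorem desc_of (pic : PICStmt) (mum : MUMStmt) (str : STRStmt) (lcs : LCStmt)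
    (red : PICStmt → MUMStmt → STRStmt → LCStmt → REDStmt)
    (grep : PICStmt → MUMStmt → STRStmt → GREPStmt)
    (zed : PICStmt → MUMStmt → LCStmt → GREPStmt → ZEDStmt)
    (zt : PICStmt → MUMStmt → LCStmt → REDStmt → ZEDStmt → ZTStmt)
    (half : PICStmt → MUMStmt → STRStmt → HALFStmt)
    (rat : PICStmt → MUMStmt → REDStmt → GREPStmt → RATStmt)
    (stab : PICStmt → MUMStmt → REDStmt → STABStmt)
    (sha : PICStmt → MUMStmt → ZEDStmt → ZTStmt → HALFStmt → RATStmt → STABStmt → SHAStmt)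
    (tor : PICStmt → MUMStmt → ZEDStmt → ZTStmt → TORStmt)
    (idx : PICStmt → MUMStmt → ZEDStmt → ZTStmt → HALFStmt → RATStmt → IDXStmt)
    (desc : SHAStmt → TORStmt → IDXStmt → DESCStmt) : DESCStmt :=
  have hr := red pic mum str lcs
  have hg := grep pic mum str
  have hz := zed pic mum lcs hg
  have ht := zt pic mum lcs hr hz
  have hh := half pic mum str
  have ha := rat pic mum hr hg
  desc (sha pic mum hz ht hh ha (stab pic mum hr)) (tor pic mum hz ht) (idx pic mum hz ht hh ha)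

end Pool.Agent.MP_a43263_nt.JC
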