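import Mathlib.FieldTheory.Galois.Infinite
import Pool.Agent.MP_a43263_nt.JC.JSpec

/-! THEOREM J: the index of `2 J(ℚ)` in `J(ℚ)` and the complete 2-descent. -/

set_option autoImplicit false

noncomputable section

namespace Pool.Agent.MP_a43263_nt.JC

open Polynomial

namespace Idx

section
variable {K L ι : Type} [Field K] [Field L] [Fintype ι]

theorem fp_map (φ : K →+* L) (a : ι → K) : (fp a).map φ = fp fun i => φ (a i) := by
  simp [fp, Polynomial.map_prod]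

theorem nb_map (φ : K →+* L) (U : K[X]) (x : K) : nb (U.map φ) (φ x) = φ (nb U x) := by
  simp [nb, Polynomial.natDegree_map_eq_of_injective φ.injective, Polynomial.eval_map]

theorem nb_mul {U U' : K[X]} (h : U.Monic) (h' : U'.Monic) (x : K) :
    nb (U * U') x = nb U x * nb U' x := by
  simp only [nb, h.natDegree_mul h', pow_add, eval_mul]; ring

theorem nb_ne {U : K[X]} {x : K} (h : U.eval x ≠ 0) : nb U x ≠ 0 :=
  mul_ne_zero (pow_ne_zero _ (neg_ne_zero.2 one_ne_zero)) h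

theorem ev_map (φ : K →+* L) (U : K[X]) (x : K) : (U.map φ).eval (φ x) = φ (U.eval x) := by
  simp [Polynomial.eval_map]

theorem W_map (φ : K →+* L) {a d : ι → K} (h : W a d) :
    W (fun i => φ (a i)) fun i => φ (d i) := by
  obtain ⟨U, V, hm, hd, h⟩ := h
  refine ⟨U.map φ, V.map φ, hm.map φ, ?_, fun i => ⟨?_, ?_, ?_⟩⟩
  · have := Polynomial.map_dvd φ hd
    rwa [Polynomial.map_sub, Polynomial.map_pow, fp_map] at this
  · rw [ev_map]; exact (map_ne_zero φ).2 (h i).1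
  · exact (map_ne_zero φ).2 (h i).2.1
  · rw [nb_map, ← map_mul]; exact (h i).2.2.map φ

theorem sq_trans {x y z : K} (hy : y ≠ 0) (h : IsSquare (x * y)) (h' : IsSquare (y * z)) :
    IsSquare (x * z) := by
  obtain ⟨s, hs⟩ := h
  obtain ⟨t, ht⟩ := h'
  refine ⟨s * t / y, ?_⟩
  field_simp
  linear_combination (y * z) * hs + (s * s) * ht

theorem W_sq {a d e : ι → K} (h : W a e) (hd : ∀ i, d i ≠ 0) (hs : ∀ i, IsSquare (d i * e i)) :
    W a d := by
  obtain ⟨U, V, hm, hv, h⟩ := h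
  exact ⟨U, V, hm, hv, fun i => ⟨(h i).1, hd i, sq_trans (h i).2.1 (hs i) (h i).2.2⟩⟩

theorem cv_map (φ : K →+* L) {g : ℕ} {a : ι → K} (h : Cv g a (fp a)) :
    Cv g (fun i => φ (a i)) ((fp a).map φ) :=
  ⟨h.card, h.pos, φ.injective.comp h.inj, fp_map φ a⟩

theorem rmap_inj (φ : K →+* L) {f : K[X]} {F : L[X]} (e : f.map φ = F) :
    Function.Injective (rmap φ e) := by
  intro z w h
  have h1 : z.re.map φ = w.re.map φ := congrArg QuadraticAlgebra.re h
  have h2 : z.im.map φ = w.im.map φ := congrArg QuadraticAlgebra.im h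
  ext1
  · exact Polynomial.map_injective φ φ.injective h1
  · exact Polynomial.map_injective φ φ.injective h2

theorem MI_map (φ : K →+* L) {f : K[X]} {F : L[X]} (e : f.map φ = F) (U V : K[X]) :
    (MI f U V).map (rmap φ e) = MI F (U.map φ) (V.map φ) := by
  rw [MI, MI, Ideal.map_span, Set.image_pair]
  congr 2
  · ext1 <;> simp [rmap]
  · congr 1; ext1 <;> simp [rmap]

end

/-- the algebraic closure of the rationals -/
abbrev Kb : Type := AlgebraicClosure ℚ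

variable {ι : Type} [Fintype ι] {g : ℕ} {a : ι → ℚ}

theorem map_fix (σ : Kb →+* Kb) (U : ℚ[X]) :
    (U.map (Rat.castHom Kb)).map σ = U.map (Rat.castHom Kb) :=
  fK_map U σ

/-- the ideal of a rational pair -/
abbrev DI (a : ι → ℚ) (U V : ℚ[X]) : Ideal (Rg (fK (fp a) Kb)) :=
  MI (fK (fp a) Kb) (U.map (Rat.castHom Kb)) (V.map (Rat.castHom Kb))

theorem DI_map (σ : Kb →+* Kb) (U V : ℚ[X]) :
    (DI a U V).map (rmap σ (fK_map (fp a) σ)) = DI a U V := by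
  rw [DI, MI_map, map_fix, map_fix]

theorem DI_nu (mum : MUMStmt) (h : Cv g a (fp a)) {U V : ℚ[X]} (hm : U.Monic)
    (hd : U ∣ fp a - V ^ 2) : Nu (DI a U V) (U.map (Rat.castHom Kb)) := by
  refine (mum Kb ι g _ _ (cv_map (Rat.castHom Kb) h)).2.2.2.2.2.2.2.2.2.1 _ _ (hm.map _) ?_
  have := Polynomial.map_dvd (Rat.castHom Kb) hd
  rwa [Polynomial.map_sub, Polynomial.map_pow] at this

theorem fix_iff (zed : ZEDStmt) (zt : ZTStmt) (h : Cv g a (fp a))
    {R : CommRing.Pic (Rg (fK (fp a) Kb))} {D : Ideal (Rg (fK (fp a) Kb))} {ρ : ι → Kb}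
    (hz : Z (fun i => Rat.castHom Kb (a i)) (fK (fp a) Kb) R D ρ) (h0 : ∀ i, ρ i ≠ 0)
    (σ : Kb →+* Kb) (hD : D.map (rmap σ (fK_map (fp a) σ)) = D) :
    CommRing.Pic.mapRingHom (rmap σ (fK_map (fp a) σ)) R = R ↔ ∀ i, σ (ρ i) = ρ i := by
  have hc := cv_map (Rat.castHom Kb) h
  obtain ⟨-, -, -, z4, z5, z6⟩ := zed Kb ι g _ _ hc
  have h6 := z6 Kb σ _ (fK_map (fp a) σ) R D ρ hz
  have ha : (fun i => σ (Rat.castHom Kb (a i))) = fun i => Rat.castHom Kb (a i) := by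
    funext i; simp
  rw [ha, hD] at h6
  have h4 := z4 _ _ _ _ _ hz h6
  constructor
  · intro e i
    rw [e, div_self'] at h4
    exact (div_eq_one_iff_eq (h0 i)).1 ((z5 _).1 h4 i)
  · intro e
    exact div_eq_one.1 (((zt Kb ι g _ _ hc).1 _ _ h4).2 fun i => by rw [e i, div_self (h0 i)])

theorem range_of_fix (K : Type) [Field K] [CharZero K] {x : AlgebraicClosure K}
    (h : ∀ σ : AlgebraicClosure K ≃ₐ[K] AlgebraicClosure K, σ x = x) :
    ∃ (φ : K →+* AlgebraicClosure K) (q : K), φ q = x :=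
  ⟨algebraMap K _, (InfiniteGalois.mem_range_algebraMap_iff_fixed (k := K) x).2 h⟩

theorem rat_of_fix {x : Kb} (h : ∀ σ : Kb ≃ₐ[ℚ] Kb, σ x = x) : ∃ q : ℚ, Rat.castHom Kb q = x := by
  obtain ⟨φ, q, hq⟩ := range_of_fix ℚ h
  exact ⟨q, by rw [← hq, RingHom.ext_rat φ (Rat.castHom Kb)]⟩

/-- an invariant ideal class is twice a rational point iff the norm is a square at all roots -/
theorem key (zed : ZEDStmt) (zt : ZTStmt) (half : HALFStmt) (h : Cv g a (fp a))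
    {D : Ideal (Rg (fK (fp a) Kb))} {w : ℚ[X]} (hn : Nu D (w.map (Rat.castHom Kb)))
    (hw : ∀ i, w.eval (a i) ≠ 0)
    (hD : ∀ σ : Kb →+* Kb, D.map (rmap σ (fK_map (fp a) σ)) = D) :
    (∃ Q ∈ JQ (fp a), 2 • Q = Additive.ofMul (cl D)) ↔ ∀ i, IsSquare (nb w (a i)) := by
  have hc := cv_map (Rat.castHom Kb) h
  obtain ⟨z1, z2, -⟩ := zed Kb ι g _ _ hc
  have hw' : ∀ i, (w.map (Rat.castHom Kb)).eval (Rat.castHom Kb (a i)) ≠ 0 := fun i => by
    rw [ev_map]; exact (_root_.map_ne_zero _).2 (hw i)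
  have main : ∀ R : CommRing.Pic (Rg (fK (fp a) Kb)), R ^ 2 = cl D →
      (Additive.ofMul R ∈ JQ (fp a) ↔ ∀ i, IsSquare (nb w (a i))) := by
    intro R hR
    obtain ⟨ρ, hz⟩ := z2 R D _ hn hw' hR
    have h1 : ∀ i, ρ i ^ 2 = Rat.castHom Kb (nb w (a i)) := fun i => by
      rw [(z1 R D ρ _ hz hn).2 i, nb_map]
    have h0 : ∀ i, ρ i ≠ 0 := fun i e => by
      have := h1 i
      rw [e, zero_pow two_ne_zero] at this
      exact nb_ne (hw i) ((map_eq_zero _).1 this.symm)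
    constructor
    · intro hJ i
      obtain ⟨q, hq⟩ := rat_of_fix (x := ρ i) fun σ =>
        (fix_iff zed zt h hz h0 (σ : Kb →+* Kb) (hD _)).1 (congrArg Additive.toMul (hJ σ)) i
      refine ⟨q, (Rat.castHom Kb).injective ?_⟩
      rw [map_mul, hq, ← h1, sq]
    · intro hs σ
      refine congrArg Additive.ofMul ((fix_iff zed zt h hz h0 (σ : Kb →+* Kb) (hD _)).2 fun i => ?_)
      obtain ⟨s, hs⟩ := hs i
      have h2 := h1 i
      rw [hs, map_mul, ← sq] at h2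
      rcases sq_eq_sq_iff_eq_or_eq_neg.1 h2 with e | e <;> rw [e] <;> simp
  constructor
  · rintro ⟨Q, hQ, e⟩
    exact (main (Additive.toMul Q) (congrArg Additive.toMul e)).1 hQ
  · intro hs
    obtain ⟨R, hR⟩ := half Kb ι g _ _ hc (cl D)
    exact ⟨Additive.ofMul R, (main R hR).2 hs, congrArg Additive.ofMul hR⟩

theorem mem_JQ (pic : PICStmt) (mum : MUMStmt) (h : Cv g a (fp a)) {U V : ℚ[X]} (hm : U.Monic)
    (hd : U ∣ fp a - V ^ 2) : Additive.ofMul (cl (DI a U V)) ∈ JQ (fp a) := by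
  intro σ
  have hM := mum Kb ι g _ _ (cv_map (Rat.castHom Kb) h)
  have : IsDomain (Rg (fK (fp a) Kb)) := hM.1.2.2.2
  have hi : Inv (DI a U V) := (hM.2.2.2.2.2.2.2.2.2.2.2.2.2.2.1 _ _ (DI_nu mum h hm hd)).2.1
  have := pic.2 _ _ (rmap (σ : Kb →+* Kb) (fK_map (fp a) _)) (rmap_inj _ _) _ hi
  rw [DI_map] at this
  exact congrArg Additive.ofMul this

/-- two rational pairs have the same class modulo `2 J(ℚ)` iff the norms agree up to squares -/
theorem same_iff (pic : PICStmt) (mum : MUMStmt) (zed : ZEDStmt) (zt : ZTStmt) (half : HALFStmt)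
    (h : Cv g a (fp a)) {U V U' V' : ℚ[X]} (hU : Mum a (fp a) U V) (hU' : Mum a (fp a) U' V')
    (P P' : JQ (fp a)) (hP : P.1 = Additive.ofMul (cl (DI a U V)))
    (hP' : P'.1 = Additive.ofMul (cl (DI a U' V'))) :
    -P + P' ∈ (nsmulAddMonoidHom 2 : JQ (fp a) →+ JQ (fp a)).range ↔
      ∀ i, IsSquare (nb U (a i) * nb U' (a i)) := by
  have hM := mum Kb ι g _ _ (cv_map (Rat.castHom Kb) h)
  have : IsDomain (Rg (fK (fp a) Kb)) := hM.1.2.2.2
  have n1 := DI_nu mum h hU.1 hU.2.1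
  have n2 := DI_nu mum h hU'.1 hU'.2.1
  have n3 : Nu (DI a U V * DI a U' V') ((U * U').map (Rat.castHom Kb)) := by
    rw [Polynomial.map_mul]; exact hM.2.2.2.2.2.2.2.2.2.2.2.2.1 _ _ _ _ n1 n2
  have hk := key zed zt half h n3
    (fun i => by rw [eval_mul]; exact mul_ne_zero (hU.2.2 i) (hU'.2.2 i))
    (fun σ => by rw [Ideal.map_mul, DI_map, DI_map])
  have hc : Additive.ofMul (cl (DI a U V * DI a U' V')) = P.1 + P'.1 := by
    rw [(pic.1 _).2.2.1 _ _ (hM.2.2.2.2.2.2.2.2.2.2.2.2.2.2.1 _ _ n1).2.1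
      (hM.2.2.2.2.2.2.2.2.2.2.2.2.2.2.1 _ _ n2).2.1, hP, hP']
    rfl
  simp only [nb_mul hU.1 hU'.1] at hk
  rw [← hk, hc]
  constructor
  · rintro ⟨Q, hQ⟩
    refine ⟨(Q + P : JQ (fp a)).1, (Q + P).2, ?_⟩
    have e : 2 • (Q + P) = P + P' := by
      have hQ' : 2 • Q = -P + P' := hQ
      rw [nsmul_add, hQ', two_nsmul]; abel
    exact congrArg Subtype.val e
  · rintro ⟨Q, hQ, e⟩
    have e' : 2 • (⟨Q, hQ⟩ : JQ (fp a)) = P + P' := Subtype.ext e
    refine ⟨⟨Q, hQ⟩ - P, ?_⟩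
    show 2 • ((⟨Q, hQ⟩ : JQ (fp a)) - P) = -P + P'
    rw [nsmul_sub, e', two_nsmul]; abel

theorem rep (rat : RATStmt) (h : Cv g a (fp a)) (P : JQ (fp a)) :
    ∃ U V : ℚ[X], Mum a (fp a) U V ∧ P.1 = Additive.ofMul (cl (DI a U V)) := by
  have ec : ∀ φ : ℚ →+* Kb, φ = Rat.castHom Kb := fun φ => RingHom.ext_rat _ _
  obtain ⟨U, V, hU, e⟩ := rat ℚ ι g a (fp a) (fK (fp a) Kb) h
    (congrArg (fun φ => (fp a).map φ) (ec _))
    (Additive.toMul P.1) fun σ _ => congrArg Additive.toMul (P.2 σ)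
  have e2 : ∀ φ : ℚ →+* Kb, cl (DI a U V) = cl (MI (fK (fp a) Kb) (U.map φ) (V.map φ)) :=
    fun φ => by rw [ec φ]
  exact ⟨U, V, hU, (congrArg Additive.ofMul ((e2 _).trans e)).symm⟩

end Idx

open Idx in
theorem idx : PICStmt → MUMStmt → ZEDStmt → ZTStmt → HALFStmt → RATStmt → IDXStmt := by
  intro pic mum zed zt half rat ι _ g a I h hW hI hS
  choose U V hm hd hh using hW
  have hM : ∀ d hd', Mum a (fp a) (U d hd') (V d hd') := fun d hd' =>
    ⟨hm d hd', hd d hd', fun i => (hh d hd' i).1⟩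
  let P : I → JQ (fp a) := fun d => ⟨_, mem_JQ pic mum h (hm d.1 d.2) (hd d.1 d.2)⟩
  let q : I → JQ (fp a) ⧸ (nsmulAddMonoidHom 2 : JQ (fp a) →+ JQ (fp a)).range :=
    fun d => QuotientAddGroup.mk (P d)
  have hq : Function.Bijective q := by
    constructor
    · intro d e hde
      have h1 := (same_iff pic mum zed zt half h (hM d.1 d.2) (hM e.1 e.2) (P d) (P e) rfl rfl).1
        (QuotientAddGroup.eq.1 hde)
      refine Subtype.ext (hI d.1 d.2 e.1 e.2 fun i => ?_)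
      have h2 := sq_trans (nb_ne (hh d.1 d.2 i).1) (hh d.1 d.2 i).2.2 (h1 i)
      exact sq_trans (nb_ne (hh e.1 e.2 i).1) h2 (by rw [mul_comm]; exact (hh e.1 e.2 i).2.2)
    · intro x
      obtain ⟨Q, rfl⟩ := QuotientAddGroup.mk_surjective x
      obtain ⟨U', V', hU', e⟩ := rep rat h Q
      obtain ⟨d, hd', hs⟩ := hS (fun i => nb U' (a i))
        ⟨U', V', hU'.1, hU'.2.1, fun i => ⟨hU'.2.2 i, nb_ne (hU'.2.2 i), ⟨_, rfl⟩⟩⟩
      refine ⟨⟨d, hd'⟩, (QuotientAddGroup.eq.2 ?_).symm⟩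
      exact (same_iff pic mum zed zt half h hU' (hM d hd') Q (P ⟨d, hd'⟩) e rfl).2 fun i =>
        sq_trans (hh d hd' i).2.1 (hs i) (hh d hd' i).2.2
  rw [AddSubgroup.index_eq_card, ← Nat.card_eq_of_bijective q hq, Nat.card_eq_fintype_card,
    Fintype.card_coe]

open Idx in
theorem desc : SHAStmt → TORStmt → IDXStmt → DESCStmt := by
  intro sha tor idx ι _ g a I h hW hI hS
  refine ⟨sha ι g a h fun d hd => ?_, tor ι g a h, idx ι g a I h hW hI fun d hd => hS d ?_⟩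
  · obtain ⟨e, he, hs⟩ := hS d hd
    obtain ⟨⟨_, _, _, _, h0⟩, -⟩ := hd
    exact W_sq (hW e he) (fun i e0 => (h0 i).2.1 (by simp [e0])) hs
  · exact ⟨W_map (Rat.castHom ℝ) hd, fun p _ => W_map (Rat.castHom ℚ_[p]) hd⟩

end Pool.Agent.MP_a43263_nt.JC
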