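import Pool.Agent.MP_a43263_nt.JC.SSpec
import Pool.Agent.MP_a43263_nt.RG.Basic

/-! THEOREM J: elementary facts on pencils. -/

set_option autoImplicit false

namespace Pool.Agent.MP_a43263_nt.JC

open Finset

variable {g n r : ℕ}

/-- two different indices form a pair -/
theorem exists_ed {i k : Vx g} (h : i ≠ k) :
    ∃ e : Ed g, (e.1.1 = i ∧ e.1.2 = k) ∨ (e.1.1 = k ∧ e.1.2 = i) :=
  (lt_or_gt_of_ne h).elim (fun c => ⟨⟨(i, k), c⟩, .inl ⟨rfl, rfl⟩⟩)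
    fun c => ⟨⟨(k, i), c⟩, .inr ⟨rfl, rfl⟩⟩

theorem ed_ne (e : Ed g) : e.1.1 ≠ e.1.2 := e.2.ne

theorem card_Vx (g : ℕ) : Fintype.card (Vx g) = 2 * g + 1 := Fintype.card_fin _

theorem filter_not_on (e : Ed g) :
    univ.filter (fun l => ¬On l e) = (univ.erase e.1.1).erase e.1.2 := by
  ext l
  simp [On, not_or, and_comm]

namespace HS

variable (F : HS g n)

theorem L_cast {K : Type} [Field K] (h : Ed g × Fin n) (v : ℤ × ℤ) :
    F.L h ((v.1 : K), (v.2 : K)) = F.LZ h v := by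
  simp [L, LZ]

theorem D_cast {K : Type} [Field K] (e : Ed g) (v : ℤ × ℤ) :
    F.D e ((v.1 : K), (v.2 : K)) = F.DZ e v := by
  simp [D, DZ, L_cast]

theorem a_cast {K : Type} [Field K] (v : ℤ × ℤ) (i : Vx g) :
    F.a ((v.1 : K), (v.2 : K)) i = F.aZ v i := by
  unfold a aZ
  split_ifs
  · exact F.D_cast _ v
  · simp

theorem fibre_eq (v : ℤ × ℤ) : F.fibre v = fp fun i => (F.aZ v i : ℚ) := by
  rw [fibre, funext (F.a_cast v)]

theorem root_eq (h : Ed g × Fin n) : F.root h = (((F.rootZ h).1 : ℚ), ((F.rootZ h).2 : ℚ)) := by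
  simp [root, rootZ]

theorem L_root (h k : Ed g × Fin n) : F.L h (F.root k) = F.LZ h (F.rootZ k) := by
  rw [root_eq, L_cast]

theorem a_root (k : Ed g × Fin n) (i : Vx g) : F.a (F.root k) i = F.aZ (F.rootZ k) i := by
  rw [root_eq, a_cast]

theorem LZ_self (h : Ed g × Fin n) : F.LZ h (F.rootZ h) = 0 := by
  simp only [LZ, rootZ]; ring

theorem gam_eq (h : Ed g × Fin n) : F.gam h = F.gamZ h := by
  simp [gam, gamZ, gm, a_root]

theorem cramer (j k k' : Ed g × Fin n) (v : ℤ × ℤ) :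
    F.LZ k v * F.LZ k' (F.rootZ j) - F.LZ k' v * F.LZ k (F.rootZ j) =
      F.LZ j v * F.LZ k' (F.rootZ k) := by
  simp only [LZ, rootZ]; ring

variable {F}

theorem Hyp.two (h : F.Hyp r) : 2 ≤ n := by
  obtain ⟨m, hm⟩ := h.ev
  rcases Nat.eq_zero_or_pos n with rfl | h0
  · have h1 := h.card
    have h2 : {y | ∃ u, F.InS u y}.ncard ≤ 1 :=
      (Set.ncard_le_one (Set.toFinite _)).2 fun a _ b _ => Subsingleton.elim a b
    have h3 : 2 ^ 1 ≤ 2 ^ (2 * g + r) := Nat.pow_le_pow_right (by omega) (by have := h.pos; omega)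
    omega
  · omega

theorem Hyp.res_ne (h : F.Hyp r) {j k : Ed g × Fin n} (hjk : j ≠ k) :
    F.LZ j (F.rootZ k) ≠ 0 := by
  have := h.ne j k hjk
  rw [L_root] at this
  exact_mod_cast this

theorem Hyp.sumZ (h : F.Hyp r) (e : Ed g) (v : ℤ × ℤ) :
    F.DZ e v = F.aZ v e.1.2 - F.aZ v e.1.1 := by
  have := h.sum e (v.1, v.2)
  rw [D_cast, a_cast, a_cast] at this
  exact_mod_cast this

/-- a difference of roots is, up to sign, the product of the forms of a pair -/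
theorem Hyp.diff (h : F.Hyp r) {i k : Vx g} (hik : i ≠ k) : ∃ e : Ed g, On i e ∧ On k e ∧
    ∃ s : ℤ, (s = 1 ∨ s = -1) ∧ ∀ v, F.aZ v i - F.aZ v k = s * F.DZ e v := by
  obtain ⟨e, ⟨rfl, rfl⟩ | ⟨rfl, rfl⟩⟩ := exists_ed hik
  · exact ⟨e, .inl rfl, .inr rfl, -1, .inr rfl, fun v => by rw [h.sumZ]; ring⟩
  · exact ⟨e, .inr rfl, .inl rfl, 1, .inl rfl, fun v => by rw [h.sumZ, one_mul]⟩

theorem Hyp.inj (h : F.Hyp r) {v : ℤ × ℤ} (hv : ∀ j, F.LZ j v ≠ 0) :
    Function.Injective (F.aZ v) := fun i k e => by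
  by_contra c
  obtain ⟨e', -, -, s, hs, h1⟩ := h.diff c
  have h2 := h1 v
  rw [e, sub_self] at h2
  refine mul_ne_zero ?_ (mul_ne_zero (h.c0 e') (prod_ne_zero_iff.2 fun k _ => hv _)) h2.symm
  rcases hs with rfl | rfl <;> decide

end HS

end Pool.Agent.MP_a43263_nt.JC
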