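import Mathlib.FieldTheory.Separable
import Pool.Agent.MP_a43263_nt.JC.SBasic
import Pool.Agent.MP_a43263_nt.JC.Idx

/-! THEOREM J: the pigeonhole step of the descent and the graph of the forms. -/

set_option autoImplicit false

namespace Pool.Agent.MP_a43263_nt.JC

open Finset
open RG (Ix Tag tg)

namespace Alg

variable {g : ℕ}

theorem adj_iff (e e' : Ed g) : adj e e' = true ↔ e ≠ e' ∧ ∃ z, On z e ∧ On z e' := by
  rw [adj, decide_eq_true_iff]
  refine and_congr_right fun _ => ⟨?_, ?_⟩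
  · rintro (h | h)
    · exact ⟨_, .inl rfl, h⟩
    · exact ⟨_, .inr rfl, h⟩
  · rintro ⟨z, rfl | rfl, h⟩
    · exact .inl h
    · exact .inr h

theorem adj_of {e e' : Ed g} {z w : Vx g} (h : On z e) (h' : On z e') (k : ¬On w e)
    (k' : On w e') : adj e e' = true :=
  (adj_iff e e').2 ⟨fun c => k (c ▸ k'), z, h, h'⟩

theorem adj_symm {e e' : Ed g} (h : adj e e' = true) : adj e' e = true := by
  obtain ⟨h1, z, h2, h3⟩ := (adj_iff e e').1 h
  exact (adj_iff e' e).2 ⟨h1.symm, z, h3, h2⟩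

theorem pair {a b : Vx g} (h : a ≠ b) : ∃ e : Ed g, ∀ z, On z e ↔ z = a ∨ z = b := by
  obtain ⟨e, ⟨rfl, rfl⟩ | ⟨rfl, rfl⟩⟩ := exists_ed h
  · exact ⟨e, fun _ => Iff.rfl⟩
  · exact ⟨e, fun _ => or_comm⟩

/-- pairwise disjoint pairs leave an index free -/
theorem free (C : Finset (Ed g)) (h : ∀ e ∈ C, ∀ e' ∈ C, adj e e' = false) :
    ∃ U : Finset (Vx g), U.card = 2 * C.card ∧ (∀ u ∈ U, ∃ e ∈ C, On u e) ∧
      ∃ z, ∀ e ∈ C, ¬On z e := by
  have hc : (C.biUnion fun e => ({e.1.1, e.1.2} : Finset (Vx g))).card = 2 * C.card := by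
    rw [card_biUnion, sum_congr rfl fun e _ => card_pair (ed_ne e), sum_const, smul_eq_mul,
      mul_comm]
    intro e he e' he' hne
    refine disjoint_left.2 fun z h1 h2 => ?_
    have := (adj_iff e e').2 ⟨hne, z, by simpa using h1, by simpa using h2⟩
    rw [h e he e' he'] at this
    exact Bool.false_ne_true this
  refine ⟨_, hc, fun u hu => ?_, ?_⟩
  · obtain ⟨e, he, h1⟩ := mem_biUnion.1 hu
    exact ⟨e, he, by simpa using h1⟩
  · by_contra! H
    have : (C.biUnion fun e => ({e.1.1, e.1.2} : Finset (Vx g))) = univ :=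
      eq_univ_of_forall fun z => by
        obtain ⟨e, he, h1⟩ := H z
        exact mem_biUnion.2 ⟨e, he, by simpa using h1⟩
    rw [this, card_univ, card_Vx] at hc
    omega

theorem nbr (e : Ed g) : ∃ e', adj e e' = true := by
  obtain ⟨-, -, -, z, hz⟩ := free {e} (by simp [adj])
  have hz' := hz e (mem_singleton_self e)
  obtain ⟨e', h⟩ := pair (a := e.1.1) (b := z) fun c => hz' (.inl c.symm)
  exact ⟨e', adj_of (.inl rfl) ((h _).2 (.inl rfl)) hz' ((h _).2 (.inr rfl))⟩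

theorem path (e e' : Ed g) : ∃ f, adj e f = true ∧ adj f e' = true ∨ adj e e' = true := by
  by_cases h : e = e'
  · obtain ⟨f, hf⟩ := nbr e
    exact ⟨f, .inl ⟨hf, h ▸ adj_symm hf⟩⟩
  by_cases k : ∃ z, On z e ∧ On z e'
  · exact ⟨e, .inr ((adj_iff e e').2 ⟨h, k⟩)⟩
  have n1 : ¬On e.1.1 e' := fun c => k ⟨_, .inl rfl, c⟩
  have n2 : ¬On e'.1.1 e := fun c => k ⟨_, c, .inl rfl⟩
  obtain ⟨f, hf⟩ := pair (a := e.1.1) (b := e'.1.1) fun c => n1 (.inl c)
  exact ⟨f, .inl ⟨adj_of (.inl rfl) ((hf _).2 (.inl rfl)) n2 ((hf _).2 (.inr rfl)),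
    adj_symm (adj_of (.inl rfl) ((hf _).2 (.inr rfl)) n1 ((hf _).2 (.inl rfl)))⟩⟩

end Alg

open Alg

theorem graph : GRAPHStmt := by
  intro g n m T _ hn ct
  have ad : ∀ h k, T.gr.ad (tg (T.em h)) (tg (T.em k)) = adj h.1 k.1 := fun h k => by
    rw [← ct h, ← ct k]; rfl
  have mem : ∀ h, T.em h ∈ T.gr.RF := fun h => mem_map_of_mem _ (mem_univ h)
  have ex : ∀ k ∈ T.gr.RF, ∃ h, T.em h = k := fun k hk => by
    obtain ⟨h, -, e⟩ := mem_map.1 hk
    exact ⟨h, e⟩
  refine ⟨fun t => by simp [Em.gr, adj], fun k hk => ?_, fun B hB ⟨b, hb⟩ cl => ?_,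
    fun B hB ind => ?_⟩
  · obtain ⟨⟨e, i⟩, rfl⟩ := ex k hk
    have : Nontrivial (Fin n) := Fin.nontrivial_iff_two_le.2 hn
    obtain ⟨j, hj⟩ := exists_ne i
    refine ⟨T.em (e, j), mem _, fun c => hj (congrArg Prod.snd (T.em.injective c)), ?_⟩
    rw [ad]; simp [adj]
  · obtain ⟨b, rfl⟩ := ex b (hB hb)
    have st : ∀ h k, T.em h ∈ B → adj h.1 k.1 = true → T.em k ∈ B := fun h k h1 h2 =>
      cl _ h1 _ (mem k) (by rwa [ad])
    refine hB.antisymm fun k hk => ?_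
    obtain ⟨k, rfl⟩ := ex k hk
    obtain ⟨f, ⟨h1, h2⟩ | h1⟩ := path b.1 k.1
    · exact st (f, b.2) k (st b (f, b.2) hb h1) h2
    · exact st b k hb h1
  · classical
    set C : Finset (Ed g) := univ.filter fun e => ∃ i, T.em (e, i) ∈ B
    obtain ⟨U, hU, cov, z, hz⟩ := free C fun e he e' he' => by
      obtain ⟨i, hi⟩ := (mem_filter.1 he).2
      obtain ⟨j, hj⟩ := (mem_filter.1 he').2
      exact (ad (e, i) (e', j)).symm.trans (ind _ hi _ hj)
    have nz : ∀ u ∈ U, u ≠ z := fun u hu c => by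
      obtain ⟨e, he, h1⟩ := cov u hu
      exact hz e he (c ▸ h1)
    choose f hf using fun u : U => pair (nz u.1 u.2)
    have inj : Function.Injective f := fun u w c => by
      have := (hf w u).1 (c ▸ (hf u u).2 (.inl rfl))
      exact Subtype.ext (this.resolve_right (nz _ u.2))
    have b1 : B.card ≤ C.card * n := by
      have : B ⊆ (C ×ˢ univ).map T.em := fun k hk => by
        obtain ⟨⟨e, i⟩, rfl⟩ := ex k (hB hk)
        exact mem_map_of_mem _ (mem_product.2 ⟨mem_filter.2 ⟨mem_univ _, i, hk⟩, mem_univ _⟩)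
      simpa using card_le_card this
    have b2 : ((univ.image f) ×ˢ univ).map T.em ⊆
        T.gr.RF.filter fun k => ∃ h ∈ B, T.gr.ad (tg h) (tg k) = true := fun k hk => by
      obtain ⟨⟨e', j⟩, h1, rfl⟩ := mem_map.1 hk
      obtain ⟨u, -, rfl⟩ := mem_image.1 (mem_product.1 h1).1
      obtain ⟨e, he, h2⟩ := cov u u.2
      obtain ⟨i, hi⟩ := (mem_filter.1 he).2
      refine mem_filter.2 ⟨mem _, _, hi, ?_⟩
      rw [ad]
      exact adj_of h2 ((hf u _).2 (.inl rfl)) (hz e he) ((hf u _).2 (.inr rfl))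
    have b3 := card_le_card b2
    rw [card_map, card_product, card_image_of_injective _ inj, card_univ, card_univ,
      Fintype.card_coe, Fintype.card_fin, hU, mul_assoc] at b3
    omega

theorem alg3 : DESCStmt → ALG3Stmt := by
  intro desc g r a ι ι' I d K φ hg inj hI hW hi hK loc
  classical
  have els : ∀ e, W a e → ELS a e := fun e h =>
    ⟨Idx.W_map (Rat.castHom ℝ) h, fun p _ => Idx.W_map (Rat.castHom ℚ_[p]) h⟩
  choose y hy h₂ using fun i (h : i ∈ I) => loc _ (els _ (hW i h))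
  have tr : ∀ {x w z : ℚ}, w ≠ 0 → IsSquare (x * w) → IsSquare (z * w) → IsSquare (x * z) :=
    fun h h1 h2 => Idx.sq_trans h h1 (by rwa [mul_comm])
  have key : ∀ e, ELS a e → ∃ i ∈ I, ∀ k, IsSquare (e k * d i k) := by
    intro e h
    obtain ⟨z, hz, k₂⟩ := loc _ h
    obtain ⟨i, hiI, rfl⟩ := Finset.surj_on_of_inj_on_of_card_le y hy (fun i j u v e =>
      hi i u j v fun k => tr (h₂ j v k).2 (e ▸ (h₂ i u k).1) (h₂ j v k).1)
        (hK.trans_eq hI.symm) z hz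
    exact ⟨i, hiI, fun k => tr (k₂ k).2 (k₂ k).1 (h₂ i hiI k).1⟩
  have hc : (I.image d).card = 2 ^ (2 * g + r) := by
    rw [card_image_of_injOn fun i u j v e => hi i u j v fun k => ⟨d j k, by rw [e]⟩, hI]
  rw [JGood, ← hc]
  refine ⟨Polynomial.separable_prod_X_sub_C_iff.2 inj,
    desc _ g a _ ⟨card_Vx g, hg, inj, rfl⟩ (fun e he => ?_) (fun e he e' he' h => ?_) fun e h => ?_⟩
  · obtain ⟨i, u, rfl⟩ := mem_image.1 he
    exact hW i u
  · obtain ⟨i, u, rfl⟩ := mem_image.1 he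
    obtain ⟨j, v, rfl⟩ := mem_image.1 he'
    rw [hi i u j v h]
  · obtain ⟨i, u, h1⟩ := key e h
    exact ⟨d i, mem_image_of_mem _ u, h1⟩

end Pool.Agent.MP_a43263_nt.JC
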