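import Pool.Agent.MP_a43263_nt.JC.SBasic
import Pool.Agent.MP_a43263_nt.RH.Base

/-! THEOREM J, rows BASE and EXT: base points of both parities near a fixed fibre, and the
extension to the index set of the analytic part. -/

set_option autoImplicit false

namespace Pool.Agent.MP_a43263_nt.JC

open Finset
open RG (Ix Tag tg)
open RG.Bas
open RH.Bas2 (cop)

namespace Base

variable {g n r : ℕ} {F : HS g n}

theorem ne (h : F.Hyp r) : Nonempty (Ed g × Fin n) :=
  have := h.pos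
  have := h.two
  ⟨(⟨(⟨0, by omega⟩, ⟨1, by omega⟩), Nat.zero_lt_one⟩, ⟨0, by omega⟩)⟩

theorem gam {N : ℕ} {w : ℤ × ℤ} (hF : F.Hyp r) (h : F.Pre N w) (j : Ed g × Fin n) :
    Gd N (F.gamZ j) := by
  unfold HS.gamZ gm
  refine Gd.prod _ fun l hl => ?_
  have hl := (mem_filter.1 hl).2
  obtain ⟨e, -, he, s, hs, h1⟩ := hF.diff (i := j.1.1.1) (k := l) fun c => hl (.inl c.symm)
  rw [h1]
  refine Gd.mul ?_ (Gd.mul (h.sc e) (Gd.prod _ fun k _ => h.sr _ _ fun c => hl (c ▸ he)))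
  exact gd_one.of_dvd (by rcases hs with rfl | rfl <;> decide)

theorem inj {α β : Type} [Fintype α] [Fintype β] (u : α ↪ β) (f : α → ℤ)
    (hf : ∀ a b, a ≠ b → f a ≠ f b) :
    ∃ e : β → ℤ, (∀ a, e (u a) = f a) ∧ ∀ s t, s ≠ t → e s ≠ e t := by
  classical
  obtain ⟨C, hC⟩ : ∃ C : ℤ, ∀ a, f a < C :=
    ⟨∑ a, |f a| + 1, fun a => Int.lt_add_one_iff.2 ((le_abs_self _).trans
      (single_le_sum (f := fun a => |f a|) (fun _ _ => abs_nonneg _) (mem_univ a)))⟩
  refine ⟨Function.extend u f fun t => C + (Fintype.equivFin β t : ℕ),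
    u.injective.extend_apply _ _, fun s t h => ?_⟩
  by_cases hs : ∃ a, u a = s <;> by_cases ht : ∃ a, u a = t
  · obtain ⟨a, rfl⟩ := hs
    obtain ⟨b, rfl⟩ := ht
    rw [u.injective.extend_apply, u.injective.extend_apply]
    exact hf a b fun c => h (c ▸ rfl)
  · obtain ⟨a, rfl⟩ := hs
    rw [u.injective.extend_apply, Function.extend_apply' _ _ _ ht]
    have := hC a
    omega
  · obtain ⟨a, rfl⟩ := ht
    rw [u.injective.extend_apply, Function.extend_apply' _ _ _ hs]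
    have := hC a
    omega
  · rw [Function.extend_apply' _ _ _ hs, Function.extend_apply' _ _ _ ht]
    exact fun c => h ((Fintype.equivFin β).injective (Fin.ext (by omega)))

end Base

theorem ext3 : EXTStmt := by
  classical
  intro g n r F B hF hB
  obtain ⟨d⟩ := Base.ne hF
  obtain ⟨m, hm⟩ : ∃ m, m = Fintype.card (Ed g × Fin n) + 2 := ⟨_, rfl⟩
  obtain ⟨u⟩ : Nonempty (Ed g × Fin n ↪ Ix m) := Function.Embedding.nonempty_of_card_le (by
    rw [Fintype.card_prod (Fin 3), Fintype.card_fin, Fintype.card_fin]; omega)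
  obtain ⟨e, he, ne⟩ := Base.inj u B.e hB.ne
  have tu : Function.Injective fun h => tg (u h) := fun a b c => u.injective (by
    simp only [tg, Prod.mk.injEq, Option.some.injEq] at c
    exact Prod.ext c.1 c.2)
  refine ⟨m, e, fun P => ?_⟩
  set R : ℕ := ∏ q ∈ (univ : Finset (Ix m)).offDiag, (e q.1 - e q.2).natAbs with hR
  have hR0 : 0 < R := prod_pos fun q hq =>
    Int.natAbs_pos.2 (sub_ne_zero.2 (ne _ _ (mem_offDiag.1 hq).2.2))
  have ha : 0 < ∏ j, B.a j := prod_pos fun j _ => Nat.pos_of_ne_zero (hB.sqf j).ne_zero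
  have hN := hB.pre.pos
  refine ⟨⟨u, e, Function.extend u F.gamZ 1,
    Function.extend (fun h => tg (u h)) Prod.fst fun _ => d.1, fun p =>
      if h : ∃ k, p ∣ B.a k then h.choose else d,
    128 * B.N * R * ((∏ j, B.a j) * (P + 12 * m).factorial)⟩,
    ⟨by omega, he, ne, u.injective.extend_apply _ _, fun t => ?_,
      tu.extend_apply Prod.fst fun _ => d.1, fun h p hp hd => ?_, by positivity, fun p hp h =>
        ((Nat.dvd_factorial hp.pos (by omega)).mul_left _).mul_left _, fun h k hk => ?_,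
      fun j => ((dvd_prod_of_mem _ (mem_univ j)).mul_right _).mul_left _⟩, rfl,
    ((Nat.factorial_dvd_factorial (by omega)).mul_left _).mul_left _⟩
  · by_cases ht : ∃ a, u a = t
    · obtain ⟨a, rfl⟩ := ht
      simp only [u.injective.extend_apply]
      exact Base.gam hF hB.pre a
    · simp only [Function.extend_apply' _ _ _ ht]
      exact gd_one
  · have c : ∃ k, p ∣ B.a k := ⟨h, hd⟩
    simp only [dif_pos c]
    by_contra k
    exact hp.ne_one (Nat.eq_one_of_dvd_coprimes (hB.cop _ _ k) c.choose_spec hd)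
  · have h1 : e h - e k ∣ (R : ℤ) := Int.natAbs_dvd.1 (Int.natCast_dvd_natCast.2
      (dvd_prod_of_mem (fun q : Ix m × Ix m => (e q.1 - e q.2).natAbs) (a := (h, k))
        (mem_offDiag.2 ⟨mem_univ _, mem_univ _, hk⟩)))
    simp only [Nat.cast_mul]
    exact (mul_dvd_mul_left _ h1).mul_right _

theorem base3 (pty : RH.PTY2Stmt) : BASE3Stmt := by
  classical
  intro g n r F hF
  have res : ∀ j k, j ≠ k → F.LZ j (F.rootZ k) ≠ 0 := fun j k h => hF.res_ne h
  obtain ⟨x, hx⟩ := Infinite.exists_notMem_finset (univ.image fun j => -F.B j / F.A j)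
  obtain ⟨μ, hμ⟩ : ∃ μ : Ed g × Fin n → ℤ, ∀ j, μ j = F.A j * x + F.B j := ⟨_, fun _ => rfl⟩
  have hw : ∀ j, F.LZ j (x, 1) = μ j := fun j => by rw [hμ, HS.LZ, mul_one]
  have μ0 : ∀ j, μ j ≠ 0 := fun j e => by
    rw [hμ] at e
    by_cases h : F.A j = 0
    · have := Fin.nontrivial_iff_two_le.2 hF.two
      obtain ⟨k, hk⟩ := exists_ne j.2
      refine res (j.1, k) j (fun t => hk (congrArg Prod.snd t)) ?_
      rw [h, zero_mul, zero_add] at e
      simp [HS.LZ, HS.rootZ, h, e]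
    · exact hx (mem_image.2 ⟨j, mem_univ _, Int.ediv_eq_of_eq_mul_right h (by linarith)⟩)
  obtain ⟨c, hc⟩ : ∃ c : Ed g × Fin n → ℤ,
    ∀ j, c j = F.A j * μ j * (∏ k ∈ univ.erase j, μ k) ^ 2 := ⟨_, fun _ => rfl⟩
  obtain ⟨P, hP⟩ : ∃ P : ℤ, P = ∏ k, μ k := ⟨_, rfl⟩
  have cP : ∀ j, μ j * c j = F.A j * P ^ 2 := fun j => by
    rw [hc, hP, ← mul_prod_erase univ μ (mem_univ j)]; ring
  obtain ⟨j0, -, hj⟩ := exists_min_image univ c (univ_nonempty_iff.2 (Base.ne hF))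
  obtain ⟨P₁, hp⟩ := pty {j // j ≠ j0}
  obtain ⟨Z, hZ⟩ : ∃ Z : ℤ, Z = 2 * P₁.factorial * (∏ i, F.c i) *
    (∏ j, ∏ k ∈ univ.erase j, F.LZ j (F.rootZ k)) * P := ⟨_, rfl⟩
  have N0 : 0 < Z.natAbs := by
    rw [Int.natAbs_pos, hZ, hP]
    refine mul_ne_zero (mul_ne_zero (mul_ne_zero (by positivity) ?_) ?_) ?_ <;>
      refine prod_ne_zero_iff.2 fun j _ => ?_
    exacts [hF.c0 j, prod_ne_zero_iff.2 fun k h => res _ _ (ne_of_mem_erase h).symm, μ0 _]
  have gd : ∀ z, z ∣ Z → Gd Z.natAbs z := fun z h => gd_of_dvd N0 (Int.natAbs_dvd_natAbs.2 h)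
  have N2 : 2 ∣ Z.natAbs := Int.natCast_dvd.1 (hZ ▸
    (((dvd_mul_right _ _).mul_right _).mul_right _).mul_right _)
  have NP : ∀ p : ℕ, p.Prime → p ≤ P₁ → p ∣ Z.natAbs := fun p hp h => Int.natCast_dvd.1 (hZ ▸
    ((((Int.natCast_dvd_natCast.2 (Nat.dvd_factorial hp.pos h)).mul_left 2).mul_right
      _).mul_right _).mul_right _)
  have gc : ∀ i, Gd Z.natAbs (F.c i) := fun i => gd _ (hZ ▸
    (((dvd_prod_of_mem F.c (mem_univ i)).mul_left _).mul_right _).mul_right _)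
  have gr : ∀ j k, j ≠ k → Gd Z.natAbs (F.LZ j (F.rootZ k)) := fun j k h => gd _ (hZ ▸
    (((dvd_prod_of_mem (fun k => F.LZ j (F.rootZ k)) (mem_erase.2 ⟨h.symm, mem_univ k⟩)).trans
      (dvd_prod_of_mem (fun j => ∏ k ∈ univ.erase j, F.LZ j (F.rootZ k))
        (mem_univ j))).mul_left _).mul_right _)
  have gP : Gd Z.natAbs P := gd _ (hZ ▸ dvd_mul_left _ _)
  generalize Z.natAbs = N at N0 N2 NP gc gr gP
  have pre : F.Pre N (x, 1) := ⟨N0, N2, gc, gr,
    fun j => hw j ▸ gP.of_dvd (hP ▸ dvd_prod_of_mem μ (mem_univ j))⟩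
  have gQ := gd_Q N0 N2
  set Q : ℕ := 128 * N with hQ
  have NQ : (N : ℤ) ∣ Q := Int.natCast_dvd_natCast.2 (dvd_mul_left _ _)
  obtain ⟨κ, hκ⟩ : ∃ κ : Ed g × Fin n → ℕ, ∀ j, (κ j : ℤ) = Q * (c j - c j0) :=
    ⟨fun j => Q * (c j - c j0).toNat, fun j => by
      rw [Nat.cast_mul, Int.toNat_of_nonneg (sub_nonneg.2 (hj j (mem_univ j)))]⟩
  have κ0 : κ j0 = 0 := by simpa using hκ j0
  have Qκ : ∀ j, (Q : ℤ) ∣ κ j := fun j => hκ j ▸ dvd_mul_right _ _
  have gκ : ∀ i j, i ≠ j → Gd N ((κ i : ℤ) - κ j) := fun i j h => by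
    have e : μ i * μ j * (c i - c j) = P * P * F.LZ i (F.rootZ j) := by
      have a := hμ i
      have b := hμ j
      simp only [HS.LZ, HS.rootZ]
      linear_combination μ j * cP i - μ i * cP j + P ^ 2 * F.A i * b - P ^ 2 * F.A j * a
    rw [hκ, hκ, ← mul_sub, sub_sub_sub_cancel_right]
    exact gQ.mul (((gP.mul gP).mul (gr i j h)).of_dvd (e ▸ dvd_mul_left _ _))
  refine ⟨N, (x, 1), pre, fun ε => ?_⟩
  obtain ⟨s, t, ht, st, sqt, sqa, par⟩ := hp (fun j => κ j.1) Q ε (by positivity)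
    (fun p hp h => (NP p hp h).mul_left 128)
    (fun j => by
      have := gκ j.1 j0 j.2
      rw [κ0, Nat.cast_zero, sub_zero] at this
      exact ⟨Nat.pos_of_ne_zero (Nat.cast_ne_zero.1 this.1), Int.natCast_dvd_natCast.1 (Qκ _),
        fun p hp d => (this.2 p hp (Int.natCast_dvd_natCast.2 d)).mul_left _⟩)
    fun i j h => by
      have := gκ i.1 j.1 fun e => h (Subtype.ext e)
      exact ⟨fun e => this.1 (by rw [e, sub_self]), fun p hp d => (this.2 p hp d).mul_left _⟩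
  have t1 : (Q : ℤ) ∣ t - 1 := ht.symm.dvd
  have cs : IsCoprime (s : ℤ) t := Nat.isCoprime_iff_coprime.2 st
  have sA : ∀ j, Squarefree (t + κ j * s) := fun j => by
    by_cases h : j = j0
    · rwa [h, κ0, zero_mul, add_zero]
    · exact sqa ⟨j, h⟩
  have a1 : ∀ j, (Q : ℤ) ∣ (t + κ j * s : ℕ) - 1 := fun j => by
    rw [Nat.cast_add, Nat.cast_mul (κ j), add_sub_right_comm]
    exact dvd_add t1 ((Qκ j).mul_right _)
  have ea : ∀ j, ((t + κ j * s : ℕ) : ℤ) * ∏ k ∈ univ.erase j, ((t + κ k * s : ℕ) : ℤ) =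
      ∏ k, ((t + κ k * s : ℕ) : ℤ) := fun j =>
    mul_prod_erase univ (fun k => ((t + κ k * s : ℕ) : ℤ)) (mem_univ j)
  have Λ0 : ∏ k, ((t + κ k * s : ℕ) : ℤ) ≠ 0 :=
    prod_ne_zero_iff.2 fun k _ => Nat.cast_ne_zero.2 (sA k).ne_zero
  generalize hΛ : ∏ k, ((t + κ k * s : ℕ) : ℤ) = Λ at ea Λ0
  refine ⟨⟨N, (x, 1), (s * (Q * P ^ 2) + (t - s * (Q * c j0)) * x, t - s * (Q * c j0)),
    (Λ * (Q * P ^ 2 - Q * c j0 * x), -(Λ * (Q * c j0))),
    fun j => κ j * ∏ k ∈ univ.erase j, ((t + κ k * s : ℕ) : ℤ), fun j => t + κ j * s⟩, rfl, rfl,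
    ⟨pre, fun j => ?_, fun j => ?_, ?_, fun j k h e => ?_, sA, fun j k h => ?_, fun j => ?_⟩, ?_⟩
  · have a := hμ j
    simp only [hw]
    simp only [HS.LZ, Nat.cast_add, Nat.cast_mul, hκ]
    linear_combination (s * Q * c j0 - t : ℤ) * a - (s * Q : ℤ) * cP j
  · have a := hμ j
    simp only [hw]
    simp only [HS.LZ]
    rw [mul_assoc (μ j), mul_left_comm _ (κ j : ℤ), ea, hκ]
    linear_combination (Λ * Q * c j0 : ℤ) * a - (Λ * Q : ℤ) * cP j
  · refine IsCoprime.add_mul_left_left (IsCoprime.mul_left ?_ (cop (N := N) ?_ ?_).symm) _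
    · rw [sub_eq_add_neg, ← mul_neg]
      exact cs.add_mul_left_right _
    · rw [pow_two]
      exact gQ.mul (gP.mul gP)
    · rw [sub_right_comm]
      exact NQ.trans (dvd_sub t1 ((dvd_mul_right _ _).mul_left _))
  · have a := ea j
    have b := ea k
    simp only at e
    have t0 : (t : ℤ) ≠ 0 := Nat.cast_ne_zero.2 sqt.ne_zero
    refine mul_ne_zero (mul_ne_zero Λ0 t0) (gκ j k h).1 ?_
    generalize ∏ k ∈ univ.erase j, ((t + κ k * s : ℕ) : ℤ) = u at a e
    generalize ∏ k ∈ univ.erase k, ((t + κ k * s : ℕ) : ℤ) = w at b e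
    push_cast at a b
    linear_combination ((t + κ j * s) * (t + κ k * s) : ℤ) * e - (κ j * (t + κ k * s) : ℤ) * a +
      (κ k * (t + κ j * s) : ℤ) * b
  · have a := (cop (gκ k j h.symm) (NQ.trans (a1 j))).mul_right
      (show IsCoprime ((t + κ j * s : ℕ) : ℤ) s by
        push_cast
        exact cs.symm.add_mul_right_left _)
    refine Nat.isCoprime_iff_coprime.1 ?_
    have b := a.add_mul_left_right 1
    rwa [show ((κ k : ℤ) - κ j) * s + (t + κ j * s : ℕ) * 1 = (t + κ k * s : ℕ) by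
      push_cast; ring] at b
  · exact ((Nat.modEq_iff_dvd).2 (a1 j)).symm
  · rw [← par, Fintype.sum_eq_add_sum_subtype_ne _ j0]
    simp only [κ0, zero_mul, add_zero]

end Pool.Agent.MP_a43263_nt.JC
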