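import Pool.Agent.MP_a43263_nt.JC.SBasic
import Pool.Agent.MP_a43263_nt.RH.Br

/-! THEOREM J: the point of an admissible tuple, and the hypotheses of the descent. -/

set_option autoImplicit false

noncomputable section

namespace Pool.Agent.MP_a43263_nt.JC

open Finset
open RG (Ix Tag Gen Adm tg gens mem_gens dist_gens tg_injective tg_ne_none)
open RG.Br (cop_of_one not_dvd_of_cop prod_modEq jac_one jac_sqf jac_congr)
open RH (Smooth)
open RH.Br2 (sm_mul sm_one sm_neg sm_prod)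

namespace Br

variable {g n m r : ℕ} {F : HS g n} {B : Bs g n} {T : Em g n m} {Fr : Frame g} {l : Ix m → ℕ}

theorem nontriv (hF : F.Hyp r) : Nontrivial (Ed g × Fin n) := by
  have h1 := hF.pos
  have h2 := hF.two
  have e : Ed g := ⟨(⟨0, by omega⟩, ⟨1, by omega⟩), Nat.zero_lt_one⟩
  refine ⟨(e, ⟨0, by omega⟩), (e, ⟨1, by omega⟩), fun e => ?_⟩
  simpa using (Prod.mk.inj e).2

theorem dvdM (hF : F.Hyp r) (hT : T.Ok F B) : 128 * B.N ∣ T.M := by
  have := nontriv hF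
  obtain ⟨f, k, hfk⟩ := exists_pair_ne (Ed g × Fin n)
  have h1 := (dvd_mul_right _ _).trans (hT.dv _ _ (T.em.injective.ne hfk))
  exact_mod_cast h1

theorem l_one (hF : F.Hyp r) (hT : T.Ok F B) (hl : Adm (T.dat B Fr).D l) (j : Ix m) :
    l j ≡ 1 [MOD 128 * B.N] :=
  (hl.one j).of_dvd ((dvdM hF hT).trans (dvd_mul_left _ _))

theorem cop_a (hT : T.Ok F B) (hl : Adm (T.dat B Fr).D l) (j : Ed g × Fin n) (k : Ix m) :
    (B.a j).Coprime (l k) :=
  ((hl.coprime_M k).coprime_dvd_right (hT.aM j)).symm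

theorem cop_al (hB : B.Ok F) (hT : T.Ok F B) (hl : Adm (T.dat B Fr).D l) {j k : Ed g × Fin n}
    (hjk : j ≠ k) : (B.a j * l (T.em j)).Coprime (B.a k * l (T.em k)) :=
  Nat.Coprime.mul_left ((hB.cop j k hjk).mul_right (cop_a hT hl j _))
    ((cop_a hT hl k _).symm.mul_right (hl.cop _ _ (T.em.injective.ne hjk)))

theorem al_one (hF : F.Hyp r) (hB : B.Ok F) (hT : T.Ok F B) (hl : Adm (T.dat B Fr).D l)
    (j : Ed g × Fin n) : B.a j * l (T.em j) ≡ 1 [MOD 128 * B.N] := by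
  simpa using (hB.one j).mul (l_one hF hT hl (T.em j))

/-! ### the generators -/

theorem mem_V1 {x : Gen m} :
    x ∈ Em.V1 m B ↔ ∃ j, ∃ p ∈ (B.a j).primeFactors, x = ((0, none), p) := by
  simp only [Em.V1, mem_image, mem_biUnion, mem_univ, true_and, eq_comm]

theorem re_eq (T : Em g n m) (l : Ix m → ℕ) : T.gr.re (gens l) =
    univ.biUnion fun j => (l (T.em j)).primeFactors.image fun p => (tg (T.em j), p) := by
  ext ⟨t, p⟩
  simp only [Gr.re, Gr.RT, Em.gr, mem_filter, mem_gens, mem_image, mem_map, mem_biUnion, mem_univ,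
    true_and, Prod.mk.injEq]
  constructor
  · rintro ⟨⟨h, e, hp⟩, _, ⟨j, rfl⟩, rfl⟩
    exact ⟨j, p, tg_injective e ▸ hp, rfl, rfl⟩
  · rintro ⟨j, q, hq, rfl, rfl⟩
    exact ⟨⟨_, rfl, hq⟩, _, ⟨j, rfl⟩, rfl⟩

theorem mem_re {x : Gen m} : x ∈ T.gr.re (gens l) ↔
    ∃ j, ∃ p ∈ (l (T.em j)).primeFactors, x = (tg (T.em j), p) := by
  simp only [re_eq, mem_image, mem_biUnion, mem_univ, true_and, eq_comm]

theorem prod_VV (hB : B.Ok F) (T : Em g n m) (l : Ix m → ℕ) {R : Type} [CommMonoid R]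
    (φ : Gen m → R) : ∏ x ∈ Em.V1 m B ∪ T.gr.re (gens l), φ x =
      (∏ j, ∏ p ∈ (B.a j).primeFactors, φ ((0, none), p)) *
        ∏ j, ∏ p ∈ (l (T.em j)).primeFactors, φ (tg (T.em j), p) := by
  rw [prod_union, re_eq, Em.V1, prod_biUnion, prod_biUnion]
  · exact congrArg₂ _ (prod_congr rfl fun j _ => prod_image fun _ _ _ _ e => (Prod.mk.inj e).2)
      (prod_congr rfl fun j _ => prod_image fun _ _ _ _ e => (Prod.mk.inj e).2)
  · intro j _ k _ hjk
    simp only [Function.onFun, disjoint_left, mem_image]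
    rintro _ ⟨p, -, rfl⟩ ⟨q, -, e⟩
    exact hjk (T.em.injective (tg_injective (Prod.mk.inj e).1)).symm
  · intro j _ k _ hjk
    simp only [Function.onFun, disjoint_left, mem_image]
    rintro _ ⟨p, hp, rfl⟩ ⟨q, hq, e⟩
    obtain rfl : q = p := (Prod.mk.inj e).2
    exact not_dvd_of_cop (Nat.prime_of_mem_primeFactors hp) (hB.cop j k hjk)
      (Nat.dvd_of_mem_primeFactors hp) (Nat.dvd_of_mem_primeFactors hq)
  · rw [disjoint_left]
    intro a ha hb
    obtain ⟨j, p, -, rfl⟩ := mem_V1.1 ha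
    obtain ⟨k, q, -, e⟩ := mem_re.1 hb
    exact tg_ne_none _ (congrArg Prod.snd (Prod.mk.inj e).1).symm

theorem cg_a (hT : T.Ok F B) {j : Ed g × Fin n} {p : ℕ} (hp : p ∈ (B.a j).primeFactors) :
    T.cg ((0, none), p) = j.1 := by
  rw [Em.cg, if_pos rfl,
    hT.cp j p (Nat.prime_of_mem_primeFactors hp) (Nat.dvd_of_mem_primeFactors hp)]

theorem cg_l (hT : T.Ok F B) (j : Ed g × Fin n) (p : ℕ) : T.cg (tg (T.em j), p) = j.1 := by
  rw [Em.cg, if_neg (tg_ne_none _), hT.ct]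

theorem dg_a (hT : T.Ok F B) {j : Ed g × Fin n} {p : ℕ} (hp : p ∈ (B.a j).primeFactors) :
    T.dg ((0, none), p) = jacobiSym (-T.c (T.em j)) p := by
  rw [← hT.cp j p (Nat.prime_of_mem_primeFactors hp) (Nat.dvd_of_mem_primeFactors hp)]
  rfl

theorem dg_l (T : Em g n m) (j : Ix m) (p : ℕ) : T.dg (tg j, p) = jacobiSym (-T.c j) p := rfl

/-- products over the generators of one class -/
theorem prod_cls (hB : B.Ok F) (hT : T.Ok F B) (l : Ix m → ℕ) (e : Ed g) {R : Type}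
    [CommMonoid R] (φ : ℕ → R) :
    ∏ x ∈ (Em.V1 m B ∪ T.gr.re (gens l)).filter (fun x => T.cg x = e), φ x.2 =
      ∏ k, (∏ p ∈ (B.a (e, k)).primeFactors, φ p) *
        ∏ p ∈ (l (T.em (e, k))).primeFactors, φ p := by
  have h1 : ∀ (c : Ed g × Fin n → ℕ) (t : Ed g × Fin n → Tag m),
      (∀ j, ∀ p ∈ (c j).primeFactors, T.cg (t j, p) = j.1) →
      ∏ j, ∏ p ∈ (c j).primeFactors, (if T.cg (t j, p) = e then φ p else 1) =
      ∏ k, ∏ p ∈ (c (e, k)).primeFactors, φ p := by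
    intro c t ht
    rw [Fintype.prod_prod_type, prod_eq_single e]
    · exact prod_congr rfl fun k _ => prod_congr rfl fun p hp => if_pos (ht _ p hp)
    · intro e' _ he
      exact prod_eq_one fun k _ => prod_eq_one fun p hp =>
        if_neg fun h => he ((ht _ p hp).symm.trans h)
    · exact fun h => absurd (mem_univ e) h
  rw [prod_filter, prod_VV hB, h1 B.a (fun _ => (0, none)) fun _ _ => cg_a hT,
    h1 (fun j => l (T.em j)) (fun j => tg (T.em j)) fun j p _ => cg_l hT j p, prod_mul_distrib]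

/-! ### the diagonal -/

/-- the diagonal symbol at a prime of the form `j` -/
theorem diag (hF : F.Hyp r) (hB : B.Ok F) (hT : T.Ok F B) (hl : Adm (T.dat B Fr).D l) {v : ℤ × ℤ}
    (hv : ∀ j, F.LZ j v = F.LZ j B.w * B.a j * l (T.em j)) (j : Ed g × Fin n) {p : ℕ}
    (hp : p.Prime) (hd : p ∣ B.a j * l (T.em j)) :
    jacobiSym (-T.c (T.em j)) p = jacobiSym (-gm (F.aZ v) j.1) p := by
  have hp' : Prime (p : ℤ) := Nat.prime_iff_prime_int.1 hp
  have hN : ¬p ∣ B.N := not_dvd_of_cop hp (cop_of_one (al_one hF hB hT hl j)) hd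
  have := nontriv hF
  obtain ⟨k0, hk0⟩ := exists_ne j
  obtain ⟨q, hq⟩ := hF.ev
  have hr : ¬(p : ℤ) ∣ F.LZ k0 (F.rootZ j) := fun h => hN ((hB.pre.sr _ _ hk0).2 p hp h)
  have ht : ¬(p : ℤ) ∣ F.LZ k0 v := fun h => by
    rw [hv, mul_assoc] at h
    rcases hp'.dvd_or_dvd h with h | h
    · exact hN ((hB.pre.sm _).2 p hp h)
    · exact not_dvd_of_cop hp (cop_al hB hT hl hk0.symm) hd (by exact_mod_cast h)
  have hj : (p : ℤ) ∣ F.LZ j v := by
    rw [hv, mul_assoc]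
    exact Dvd.dvd.mul_left (by exact_mod_cast hd) _
  have hD : ∀ e, F.DZ e (F.rootZ j) * F.LZ k0 v ^ n ≡ F.DZ e v * F.LZ k0 (F.rootZ j) ^ n
      [ZMOD p] := fun e => by
    have hP : ∏ k, F.LZ k0 v * F.LZ (e, k) (F.rootZ j) ≡
        ∏ k, F.LZ (e, k) v * F.LZ k0 (F.rootZ j) [ZMOD p] := prod_modEq _ fun k _ =>
      Int.modEq_iff_dvd.2 (by rw [F.cramer]; exact hj.mul_right _)
    rw [prod_mul_distrib, prod_mul_distrib, prod_const, prod_const, card_univ, Fintype.card_fin,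
      mul_comm] at hP
    rw [HS.DZ, HS.DZ, mul_assoc, mul_assoc]
    exact hP.mul_left _
  have hG := prod_modEq (univ.filter fun i => ¬On i j.1)
    (f := fun i => (F.aZ (F.rootZ j) j.1.1.1 - F.aZ (F.rootZ j) i) * F.LZ k0 v ^ n)
    (g := fun i => (F.aZ v j.1.1.1 - F.aZ v i) * F.LZ k0 (F.rootZ j) ^ n) (m := p) fun i hi => by
      obtain ⟨e, -, -, s, -, hs⟩ := hF.diff (i := j.1.1.1) (k := i)
        fun e => (mem_filter.1 hi).2 (.inl e.symm)
      rw [hs, hs, mul_assoc, mul_assoc]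
      exact (hD e).mul_left s
  rw [prod_mul_distrib, prod_mul_distrib, prod_const, prod_const] at hG
  obtain ⟨c, hc⟩ : ∃ c, c = (univ.filter fun i => ¬On i j.1).card := ⟨_, rfl⟩
  have h7 : ∀ x : ℤ, (x ^ n) ^ c = (x ^ (q * c)) ^ 2 := fun x => by
    rw [← pow_mul, ← pow_mul, hq]; congr 1; ring
  rw [← hc, h7, h7] at hG
  rw [hT.c]
  refine jac_congr hp (s := F.LZ k0 v ^ (q * c)) (t := F.LZ k0 (F.rootZ j) ^ (q * c))
    (fun h => ht (hp'.dvd_of_dvd_pow h)) (fun h => hr (hp'.dvd_of_dvd_pow h)) ?_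
  rw [neg_mul, neg_mul]
  exact hG.neg

theorem sb (hF : F.Hyp r) {N : ℕ} {w : ℤ × ℤ} (h : F.Pre N w) : Sb N (F.aZ w) := by
  refine ⟨hF.pos, h.pos, h.two, fun i k hik => ?_⟩
  obtain ⟨e, -, -, s, hs, h1⟩ := hF.diff hik
  rw [h1]
  refine sm_mul ?_ (sm_mul (h.sc e) (sm_prod _ fun k _ => h.sm _))
  rcases hs with rfl | rfl
  · exact sm_one
  · exact sm_neg sm_one

end Br

open Br

theorem pt3 : PT3Stmt := by
  intro g n m r F B T Fr hF hB hT l hl
  have := nontriv hF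
  obtain ⟨f, k, hfk⟩ := exists_pair_ne (Ed g × Fin n)
  have h1 : 128 * B.N * (B.e k - B.e f) ∣ (l (T.em k) : ℤ) - l (T.em f) := by
    rw [← hT.e, ← hT.e]
    refine (hT.dv _ _ (T.em.injective.ne hfk.symm)).trans
      (Dvd.dvd.trans ?_ ((hl.one _).trans (hl.one _).symm).dvd)
    change (T.M : ℤ) ∣ ((8 * T.M : ℕ) : ℤ)
    push_cast
    exact dvd_mul_left _ _
  obtain ⟨d, hd⟩ := h1
  have hlin : ∀ j, (l (T.em j) : ℤ) = l (T.em f) + (B.e j - B.e f) * (128 * B.N * d) := fun j => by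
    refine mul_left_cancel₀ (sub_ne_zero.2 (hB.ne k f hfk.symm)) ?_
    have h3 : (T.e (T.em k) - T.e (T.em f)) * l (T.em j) =
        (T.e (T.em k) - T.e (T.em j)) * l (T.em f) + (T.e (T.em j) - T.e (T.em f)) * l (T.em k) :=
      hl.lin _ _ _
    rw [hT.e, hT.e, hT.e] at h3
    linear_combination h3 + (B.e j - B.e f) * hd
  obtain ⟨D, hD⟩ : ∃ D : ℤ, D = 128 * B.N * d := ⟨_, rfl⟩
  obtain ⟨X, hX⟩ : ∃ X : ℤ, X = l (T.em f) - B.e f * D := ⟨_, rfl⟩
  have hv : ∀ j, F.LZ j (X * B.v0.1 + D * B.v1.1, X * B.v0.2 + D * B.v1.2) =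
      F.LZ j B.w * B.a j * l (T.em j) := fun j => by
    have h3 := hB.l0 j
    have h4 := hB.l1 j
    rw [hlin j, ← hD]
    generalize F.LZ j B.w = μ at h3 h4 ⊢
    simp only [HS.LZ] at h3 h4 ⊢
    linear_combination X * h3 + D * h4 + μ * B.a j * hX
  refine ⟨_, ?_, hv⟩
  refine Int.isCoprime_iff_gcd_eq_one.2 (Nat.coprime_of_dvd fun p hp d1 d2 => ?_)
  have hp' : Prime (p : ℤ) := Nat.prime_iff_prime_int.1 hp
  replace d1 : (p : ℤ) ∣ X * B.v0.1 + D * B.v1.1 := Int.natCast_dvd.2 d1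
  replace d2 : (p : ℤ) ∣ X * B.v0.2 + D * B.v1.2 := Int.natCast_dvd.2 d2
  by_cases hN : p ∣ B.N
  · have hpD : (p : ℤ) ∣ D := by
      rw [hD]
      exact ((Int.natCast_dvd_natCast.2 hN).mul_left _).mul_right _
    have hpX : ¬(p : ℤ) ∣ X := fun h => by
      have h3 : (p : ℤ) ∣ l (T.em f) := by
        have : (l (T.em f) : ℤ) = X + B.e f * D := by rw [hX]; ring
        rw [this]
        exact dvd_add h (hpD.mul_left _)
      exact not_dvd_of_cop hp (cop_of_one (l_one hF hT hl _)) (Int.natCast_dvd_natCast.1 h3) hN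
    have e1 := (hp'.dvd_or_dvd ((dvd_add_left (hpD.mul_right _)).1 d1)).resolve_left hpX
    have e2 := (hp'.dvd_or_dvd ((dvd_add_left (hpD.mul_right _)).1 d2)).resolve_left hpX
    exact hp'.not_isUnit (hB.prim.isUnit_of_dvd' e1 e2)
  · have h3 : ∀ j, p ∣ B.a j * l (T.em j) := fun j => by
      have h4 : (p : ℤ) ∣ F.LZ j B.w * (B.a j * l (T.em j)) := by
        rw [← mul_assoc, ← hv j]
        exact dvd_add (d1.mul_left _) (d2.mul_left _)
      have := (hp'.dvd_or_dvd h4).resolve_left fun h => hN ((hB.pre.sm j).2 p hp h)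
      exact_mod_cast this
    exact not_dvd_of_cop hp (cop_al hB hT hl hfk) (h3 f) (h3 k)

theorem br3 : BR3Stmt := by
  intro g n m r F B T Fr hF hB hT l hl v hv
  have hal : ∀ x ∈ Em.V1 m B, ∀ y ∈ T.gr.re (gens l), x.2 ≠ y.2 := by
    intro x hx y hy e
    obtain ⟨j, p, hp, rfl⟩ := mem_V1.1 hx
    obtain ⟨k, q, hq, rfl⟩ := mem_re.1 hy
    obtain rfl : p = q := e
    exact not_dvd_of_cop (Nat.prime_of_mem_primeFactors hp) (cop_a hT hl j _)
      (Nat.dvd_of_mem_primeFactors hp) (Nat.dvd_of_mem_primeFactors hq)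
  refine ⟨⟨sb hF hB.pre, fun x hx => ?_, fun x hx y hy e => ?_, fun e => ?_, fun e => ?_,
    fun e => ?_, fun x hx => ?_⟩, ?_, ?_⟩
  · rcases mem_union.1 hx with hx | hx
    · obtain ⟨j, p, hp, rfl⟩ := mem_V1.1 hx
      exact ⟨Nat.prime_of_mem_primeFactors hp, not_dvd_of_cop (Nat.prime_of_mem_primeFactors hp)
        (cop_of_one (hB.one j)) (Nat.dvd_of_mem_primeFactors hp)⟩
    · obtain ⟨j, p, hp, rfl⟩ := mem_re.1 hx
      exact ⟨Nat.prime_of_mem_primeFactors hp, not_dvd_of_cop (Nat.prime_of_mem_primeFactors hp)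
        (cop_of_one (l_one hF hT hl _)) (Nat.dvd_of_mem_primeFactors hp)⟩
  · rcases mem_union.1 hx with hx | hx <;> rcases mem_union.1 hy with hy | hy
    · obtain ⟨j, p, -, rfl⟩ := mem_V1.1 hx
      obtain ⟨k, q, -, rfl⟩ := mem_V1.1 hy
      exact Prod.ext rfl e
    · exact absurd e (hal x hx y hy)
    · exact absurd e.symm (hal y hy x hx)
    · exact dist_gens hl.cop x (mem_filter.1 hx).1 y (mem_filter.1 hy).1 e
  · rw [prod_cls hB hT l e fun p => p]
    exact prod_congr rfl fun k _ => by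
      rw [Nat.prod_primeFactors_of_squarefree (hB.sqf _),
        Nat.prod_primeFactors_of_squarefree (hl.sqf _)]
  · exact prod_induction _ (· ≡ 1 [MOD 128 * B.N]) (fun _ _ h h' => by simpa using h.mul h') rfl
      fun k _ => al_one hF hB hT hl (e, k)
  · rw [← hF.sumZ, ← hF.sumZ]
    simp only [HS.DZ, hv, Nat.cast_prod, Nat.cast_mul, mul_assoc, prod_mul_distrib]
  · rcases mem_union.1 hx with hx | hx
    · obtain ⟨j, p, hp, rfl⟩ := mem_V1.1 hx
      rw [dg_a hT hp, cg_a hT hp]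
      exact diag hF hB hT hl hv j (Nat.prime_of_mem_primeFactors hp)
        ((Nat.dvd_of_mem_primeFactors hp).mul_right _)
    · obtain ⟨j, p, hp, rfl⟩ := mem_re.1 hx
      rw [dg_l, cg_l hT]
      exact diag hF hB hT hl hv j (Nat.prime_of_mem_primeFactors hp)
        ((Nat.dvd_of_mem_primeFactors hp).mul_left _)
  · rw [prod_VV hB, prod_eq_one, prod_eq_one, one_mul]
    · intro j _
      simp only [dg_l]
      rw [jac_sqf _ (hl.sqf _),
        jac_one (l_one hF hT hl _) (sm_neg (hT.sc _)).1 (sm_neg (hT.sc _)).2]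
    · intro j _
      rw [prod_congr rfl fun p hp => dg_a hT hp, jac_sqf _ (hB.sqf _),
        jac_one (hB.one _) (sm_neg (hT.sc _)).1 (sm_neg (hT.sc _)).2]
  · have := prod_VV hB T l fun _ => Multiplicative.ofAdd (1 : ℕ)
    rw [show T.gr.RF = univ.map T.em from rfl, sum_map]
    simpa using congrArg Multiplicative.toAdd this

end Pool.Agent.MP_a43263_nt.JC
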