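import Mathlib.NumberTheory.Padics.Complex
import Mathlib.FieldTheory.Galois.Infinite
import Mathlib.Analysis.Polynomial.Factorization
import Mathlib.Analysis.Polynomial.Basic
import Mathlib.Data.Finset.DenselyOrdered
import Pool.Agent.MP_a43263_nt.RH.Const

/-! THEOREM J, row CONST, first part: an irreducible divisor moves to a nearby curve. -/

set_option autoImplicit false

namespace Pool.Agent.MP_a43263_nt.JC.Cst

open Polynomial IntermediateField

/-- `π` moves from the curve with roots `a'` to the curve with roots `a` -/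
def Mv {K ι : Type} [Field K] [Fintype ι] (a a' : ι → K) (π : K[X]) : Prop :=
  ∃ U V : K[X], U.Monic ∧ U ∣ ∏ i, (X - C (a i)) - V ^ 2 ∧ ∀ i, U.eval (a i) ≠ 0 ∧
    ∃ s : K, (-1) ^ U.natDegree * U.eval (a i) = (-1) ^ π.natDegree * π.eval (a' i) * s ^ 2

theorem Mv.shift {K ι : Type} [Field K] [Fintype ι] {a a' : ι → K} {π : K[X]} (δ : K)
    (h : Mv (fun i => a i - δ) a' π) : Mv a a' π := by
  obtain ⟨U, V, hU, ⟨w, hw⟩, hs⟩ := h
  have hd : (X - C δ : K[X]).natDegree = 1 := natDegree_X_sub_C δ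
  refine ⟨U.comp (X - C δ), V.comp (X - C δ), hU.comp (monic_X_sub_C δ) (by rw [hd]; simp),
    ⟨w.comp (X - C δ), ?_⟩, fun i => ?_⟩
  · have := congrArg (fun q => q.comp (X - C δ)) hw
    simp only [sub_comp, pow_comp, mul_comp, Polynomial.prod_comp, X_comp, C_comp] at this
    rw [← this]
    congr 1
    exact Finset.prod_congr rfl fun i _ => by rw [C_sub]; ring
  · rw [natDegree_comp, hd, mul_one, eval_comp, eval_sub, eval_X, eval_C]
    exact hs i

section padic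

variable {p : ℕ} [Fact p.Prime]

theorem norm_gal (σ : PadicAlgCl p ≃ₐ[ℚ_[p]] PadicAlgCl p) (x : PadicAlgCl p) : ‖σ x‖ = ‖x‖ := by
  rw [← PadicAlgCl.spectralNorm_eq, ← PadicAlgCl.spectralNorm_eq, spectralNorm, spectralNorm,
    minpoly.algEquiv_eq]

theorem norm_four : ‖(4 : PadicAlgCl p)‖ = ‖(4 : ℚ_[p])‖ := by
  rw [← PadicAlgCl.norm_extends, map_ofNat]

theorem four_le : ‖(4 : ℚ_[p])‖ ≤ 1 := by exact_mod_cast Padic.norm_int_le_one (p := p) 4

theorem four_pos : 0 < ‖(4 : ℚ_[p])‖ := norm_pos_iff.2 (by norm_num)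

theorem sqrt_mem (L : IntermediateField ℚ_[p] (PadicAlgCl p)) {z : PadicAlgCl p} (hz : z ∈ L)
    (h : ‖z - 1‖ < ‖(4 : ℚ_[p])‖) : ∃ t ∈ L, t ^ 2 = z := by
  have key : ∀ t : PadicAlgCl p, t ^ 2 = z → ‖t - 1‖ < ‖(2 : PadicAlgCl p)‖ → t ∈ L := by
    intro t ht h1
    rw [← InfiniteGalois.fixedField_fixingSubgroup L, IntermediateField.mem_fixedField_iff]
    intro σ hσ
    have e : σ t ^ 2 = t ^ 2 := by
      rw [← map_pow, ht]
      exact (IntermediateField.mem_fixingSubgroup_iff L σ).1 hσ z hz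
    rcases sq_eq_sq_iff_eq_or_eq_neg.1 e with c | c
    · exact c
    · exfalso
      have h2 : ‖-t - 1‖ < ‖(2 : PadicAlgCl p)‖ := by
        rwa [← c, ← map_one σ, ← map_sub, norm_gal]
      have h3 := IsUltrametricDist.norm_add_le_max (t - 1) (-t - 1)
      rw [show t - 1 + (-t - 1) = -2 by ring, norm_neg] at h3
      exact (max_lt h1 h2).not_ge h3
  obtain ⟨t, ht⟩ := IsAlgClosed.exists_pow_nat_eq z two_pos
  by_cases c : ‖t - 1‖ < ‖(2 : PadicAlgCl p)‖
  · exact ⟨t, key t ht c, ht⟩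
  · refine ⟨-t, key _ (by rw [neg_sq, ht]) (lt_of_not_ge fun d => ?_), by rw [neg_sq, ht]⟩
    rw [← norm_four, show (4 : PadicAlgCl p) = 2 * 2 by norm_num, norm_mul, ← ht,
      show t ^ 2 - 1 = -((t - 1) * (-t - 1)) by ring, norm_neg, norm_mul] at h
    exact h.not_ge (mul_le_mul (not_lt.1 c) d (norm_nonneg _) (norm_nonneg _))

theorem near_mul {x y : PadicAlgCl p} (hx : ‖x - 1‖ < ‖(4 : ℚ_[p])‖)
    (hy : ‖y - 1‖ < ‖(4 : ℚ_[p])‖) : ‖x * y - 1‖ < ‖(4 : ℚ_[p])‖ := by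
  have h1 : ‖y‖ ≤ 1 := by
    have := IsUltrametricDist.norm_add_le_max (y - 1) 1
    rw [sub_add_cancel, norm_one] at this
    exact this.trans (max_le (hy.le.trans four_le) le_rfl)
  have := IsUltrametricDist.norm_add_le_max ((x - 1) * y) (y - 1)
  rw [show (x - 1) * y + (y - 1) = x * y - 1 by ring, norm_mul] at this
  exact this.trans_lt (max_lt ((mul_le_of_le_one_right (norm_nonneg _) h1).trans_lt hx) hy)

theorem near_one : ‖(1 : PadicAlgCl p) - 1‖ < ‖(4 : ℚ_[p])‖ := by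
  rw [sub_self, norm_zero]; exact four_pos

theorem near_div {x y : PadicAlgCl p} (h : ‖x - y‖ < ‖(4 : ℚ_[p])‖ * ‖y‖) :
    y ≠ 0 ∧ ‖x / y - 1‖ < ‖(4 : ℚ_[p])‖ := by
  have hy : y ≠ 0 := by
    rintro rfl
    rw [norm_zero, mul_zero] at h
    exact (norm_nonneg _).not_gt h
  exact ⟨hy, by rwa [div_sub_one hy, norm_div, div_lt_iff₀ (norm_pos_iff.2 hy)]⟩

theorem core {ι : Type} [Fintype ι] (b a' : ι → ℚ_[p]) {π V : ℚ_[p][X]} (hm : π.Monic)
    (hi : Irreducible π) (hd : π ∣ ∏ i, (X - C (a' i)) - V ^ 2) {x : PadicAlgCl p}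
    (hx : aeval x π = 0)
    (h : ∀ k, ‖b k - a' k‖ < ‖(4 : ℚ_[p])‖ * ‖x - algebraMap _ (PadicAlgCl p) (a' k)‖) :
    Mv b a' π := by
  have em : π = minpoly ℚ_[p] x := minpoly.eq_of_irreducible_of_monic hi hx hm
  have alg : IsAlgebraic ℚ_[p] x := Algebra.IsAlgebraic.isAlgebraic x
  set φ := algebraMap ℚ_[p] (PadicAlgCl p)
  have h1 : ∀ k, ∀ y ∈ π.aroots (PadicAlgCl p),
      φ (a' k) - y ≠ 0 ∧ ‖(φ (b k) - y) / (φ (a' k) - y) - 1‖ < ‖(4 : ℚ_[p])‖ := by
    intro k y hy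
    obtain ⟨σ, rfl⟩ := minpoly.exists_algEquiv_of_root' alg (em ▸ (mem_aroots.1 hy).2)
    apply near_div
    rw [sub_sub_sub_cancel_right, ← map_sub, PadicAlgCl.norm_extends, ← σ.commutes, ← map_sub,
      norm_gal, norm_sub_rev (φ _)]
    exact h k
  have hxr : x ∈ π.aroots (PadicAlgCl p) := mem_aroots.2 ⟨hm.ne_zero, hx⟩
  have hz : ‖∏ k, (φ (b k) - x) / (φ (a' k) - x) - 1‖ < ‖(4 : ℚ_[p])‖ :=
    Finset.prod_induction _ (fun z => ‖z - 1‖ < ‖(4 : ℚ_[p])‖) (fun _ _ => near_mul) near_one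
      fun k _ => (h1 k x hxr).2
  have hxm : x ∈ ℚ_[p]⟮x⟯ := mem_adjoin_simple_self _ x
  obtain ⟨t, ht, e⟩ := sqrt_mem ℚ_[p]⟮x⟯ (prod_mem fun k _ => div_mem
    (sub_mem (IntermediateField.algebraMap_mem _ _) hxm)
    (sub_mem (IntermediateField.algebraMap_mem _ _) hxm)) hz
  have ht' : t ∈ (ℚ_[p]⟮x⟯).toSubalgebra := ht
  rw [adjoin_simple_toSubalgebra_of_isAlgebraic alg, Algebra.adjoin_singleton_eq_range_aeval] at ht'
  obtain ⟨T, rfl⟩ := ht'
  refine ⟨π, V * T, hm, ?_, fun k => ?_⟩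
  · rw [em]
    apply minpoly.dvd
    have e0 := aeval_eq_zero_of_dvd_aeval_eq_zero hd hx
    simp only [map_sub, map_pow, map_prod, map_mul, aeval_X, aeval_C] at e0 ⊢
    rw [mul_pow, ← sub_eq_zero.1 e0, sub_eq_zero]
    refine Eq.trans ?_ (congrArg _ e.symm)
    rw [← Finset.prod_mul_distrib]
    refine Finset.prod_congr rfl fun k _ => ?_
    rw [← neg_sub (φ (a' k)), neg_mul, mul_div_cancel₀ _ (h1 k x hxr).1, neg_sub]
  · have ev : ∀ c : ℚ_[p], φ (π.eval c) = ((π.aroots (PadicAlgCl p)).map (φ c - ·)).prod :=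
      fun c => by
        rw [← (IsAlgClosed.splits _).aeval_eq_prod_aroots_of_monic hm, aeval_algebraMap_apply,
          coe_aeval_eq_eval]
    have n0 : π.eval (a' k) ≠ 0 := fun c => by
      have := ev (a' k)
      rw [c, map_zero, eq_comm, Multiset.prod_eq_zero_iff, Multiset.mem_map] at this
      obtain ⟨y, hy, e⟩ := this
      exact (h1 k y hy).1 e
    have h2 : ‖π.eval (b k) / π.eval (a' k) - 1‖ < ‖(4 : ℚ_[p])‖ := by
      rw [← PadicAlgCl.norm_extends, map_sub, map_one, map_div₀]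
      refine lt_of_eq_of_lt (congrArg (‖· - 1‖) ?_) (Multiset.prod_induction
        (fun z => ‖z - 1‖ < ‖(4 : ℚ_[p])‖) ((π.aroots (PadicAlgCl p)).map fun y =>
          (φ (b k) - y) / (φ (a' k) - y)) (fun _ _ => near_mul) near_one fun z hz => ?_)
      · rw [Multiset.prod_map_div, ← ev, ← ev]
      · obtain ⟨y, hy, rfl⟩ := Multiset.mem_map.1 hz
        exact (h1 k y hy).2
    obtain ⟨s, hs⟩ := RH.Cst.sq_one h2
    refine ⟨fun c => ?_, s, by rw [← hs]; field_simp⟩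
    rw [c, zero_div, zero_sub, norm_neg, norm_one] at h2
    exact h2.not_ge four_le

theorem padic {ι : Type} [Fintype ι] (a a' : ι → ℚ_[p])
    (h : ∀ i k, i ≠ k → ‖a i - a k - (a' i - a' k)‖ < ‖(4 : ℚ_[p])‖ * ‖a' i - a' k‖)
    {π V : ℚ_[p][X]} (hm : π.Monic) (hi : Irreducible π)
    (hd : π ∣ ∏ i, (X - C (a' i)) - V ^ 2) (h0 : ∀ i, π.eval (a' i) ≠ 0) : Mv a a' π := by
  obtain ⟨x, hx⟩ := IsAlgClosed.exists_aeval_eq_zero (PadicAlgCl p) π (degree_pos_of_irreducible hi).ne'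
  set φ := algebraMap ℚ_[p] (PadicAlgCl p)
  rcases isEmpty_or_nonempty ι with c | c
  · exact core a a' hm hi hd hx fun k => c.elim k
  obtain ⟨i, hi'⟩ := Finite.exists_min fun i => ‖x - φ (a' i)‖
  refine Mv.shift (a i - a' i) (core _ a' hm hi hd hx fun k => ?_)
  by_cases e : i = k
  · subst e
    rw [sub_sub_cancel, sub_self, norm_zero]
    refine mul_pos four_pos (norm_pos_iff.2 fun c => h0 i ?_)
    rw [sub_eq_zero.1 c, aeval_algebraMap_apply, coe_aeval_eq_eval] at hx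
    exact (map_eq_zero φ).1 hx
  · rw [show a k - (a i - a' i) - a' k = -(a i - a k - (a' i - a' k)) by ring, norm_neg]
    refine (h i k e).trans_le (mul_le_mul_of_nonneg_left ?_ four_pos.le)
    have := IsUltrametricDist.norm_add_le_max (x - φ (a' k)) (-(x - φ (a' i)))
    rw [norm_neg, max_eq_left (hi' k),
      show x - φ (a' k) + -(x - φ (a' i)) = φ (a' i - a' k) by rw [map_sub]; ring,
      PadicAlgCl.norm_extends] at this
    exact this

end padic

theorem real {ι : Type} [Fintype ι] (a a' : ι → ℝ) (h : ∀ i k, a' i < a' k → a i < a k)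
    {π V : ℝ[X]} (hm : π.Monic) (hi : Irreducible π)
    (hd : π ∣ ∏ i, (X - C (a' i)) - V ^ 2) (h0 : ∀ i, π.eval (a' i) ≠ 0) : Mv a a' π := by
  have sq : ∀ x y : ℝ, 0 < x * y → ∃ s, x = y * s ^ 2 := fun x y hxy =>
    (RH.Cst.rsq hxy).imp fun _ e => e.symm
  by_cases hr : ∃ x, π.eval x = 0
  · obtain ⟨x, hx⟩ := hr
    obtain rfl : π = X - C x :=
      (eq_of_monic_of_associated (monic_X_sub_C x) hm
        ((irreducible_X_sub_C x).associated_of_dvd hi (dvd_iff_isRoot.2 hx))).symm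
    simp only [eval_sub, eval_X, eval_C] at h0
    obtain ⟨z, hz⟩ : ∃ z, ∀ k, 0 < (z - a k) * (x - a' k) := by
      classical
      obtain ⟨z, h1, h2⟩ := (Set.toFinite (a '' {k | a' k < x})).exists_between'
        (Set.toFinite (a '' {k | x < a' k})) (by
          rintro _ ⟨i, hi, rfl⟩ _ ⟨k, hk, rfl⟩
          exact h i k (lt_trans hi hk))
      refine ⟨z, fun k => ?_⟩
      rcases lt_or_gt_of_ne (sub_ne_zero.1 (h0 k)) with c | c
      · exact mul_pos (sub_pos.2 (h1 _ ⟨k, c, rfl⟩)) (sub_pos.2 c)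
      · exact mul_pos_of_neg_of_neg (sub_neg.2 (h2 _ ⟨k, c, rfl⟩)) (sub_neg.2 c)
    have e0 := dvd_iff_isRoot.1 hd
    simp only [IsRoot, eval_sub, eval_pow, eval_prod, eval_X, eval_C] at e0
    obtain ⟨s, hs⟩ := sq (∏ k, (z - a k)) (∏ k, (x - a' k))
      (by rw [← Finset.prod_mul_distrib]; exact Finset.prod_pos fun k _ => hz k)
    refine ⟨X - C z, C (V.eval x * s), monic_X_sub_C z, dvd_iff_isRoot.2 ?_, fun k => ?_⟩
    · simp only [IsRoot, eval_sub, eval_pow, eval_prod, eval_X, eval_C]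
      rw [hs, sub_eq_zero.1 e0]
      ring
    · simp only [natDegree_X_sub_C, eval_sub, eval_X, eval_C]
      refine ⟨fun c => ?_, sq _ _ (by linarith [hz k])⟩
      have := hz k
      rw [sub_eq_zero.1 c, sub_self, zero_mul] at this
      exact this.false
  · have h2 : π.natDegree = 2 := by
      have h3 := hi.natDegree_le_two
      have h4 := hi.natDegree_pos
      by_contra c
      have h5 : π.natDegree = 1 := by omega
      exact hr ⟨-π.coeff 0, by rw [hm.eq_X_add_C h5]; simp⟩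
    have h3 : ∀ x, 0 < π.eval x := fun x => by
      by_contra c
      have t := π.tendsto_atTop_of_leadingCoeff_nonneg (degree_pos_of_irreducible hi)
        (by rw [hm.leadingCoeff]; exact zero_le_one)
      obtain ⟨y, hy⟩ := (t.eventually_ge_atTop 0).exists
      exact hr (intermediate_value_univ x y π.continuous ⟨not_lt.1 c, hy⟩)
    refine ⟨1, 0, monic_one, one_dvd _, fun k => ⟨by simp, sq _ _ ?_⟩⟩
    simpa [h2] using h3 (a' k)

end Pool.Agent.MP_a43263_nt.JC.Cst
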