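import Pool.Agent.MP_a43263_nt.JC.GrpB
import Pool.Agent.MP_a43263_nt.JC.CstA

/-! THEOREM J, rows CSTP, CSTR: the local image is locally constant. -/

set_option autoImplicit false

namespace Pool.Agent.MP_a43263_nt.JC

open Polynomial

namespace Cst

variable {K ι : Type} [Field K] [Fintype ι]

theorem nb_ne {U : K[X]} {x : K} (h : U.eval x ≠ 0) : nb U x ≠ 0 :=
  mul_ne_zero (pow_ne_zero _ (neg_ne_zero.2 one_ne_zero)) h

/-- `W a` depends on the square classes only -/
theorem congr {a d e : ι → K} (h : W a d) (k : ∀ i, e i ≠ 0 ∧ IsSquare (e i * d i)) : W a e := by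
  obtain ⟨U, V, hU, hd, h⟩ := h
  refine ⟨U, V, hU, hd, fun i => ⟨(h i).1, (k i).1, ?_⟩⟩
  obtain ⟨s, hs⟩ := (h i).2.2
  obtain ⟨t, ht⟩ := (k i).2
  have := (h i).2.1
  exact ⟨s * t / d i, by field_simp; linear_combination (e i * d i) * hs + s * s * ht⟩

theorem move [CharZero K] {a a' d : ι → K} (mv : ∀ π V : K[X], π.Monic → Irreducible π →
    π ∣ fp a' - V ^ 2 → (∀ i, π.eval (a' i) ≠ 0) → Mv a a' π) (h : W a' d) : W a d := by
  obtain ⟨U, V, hU, hd, h⟩ := h
  have key : ∀ (n : ℕ) (U : K[X]), U.natDegree = n → U.Monic → U ∣ fp a' - V ^ 2 →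
      (∀ i, U.eval (a' i) ≠ 0) → W a fun i => nb U (a' i) := by
    intro n
    induction n using Nat.strong_induction_on with
    | _ n ih =>
      intro U hn hU hd h0
      by_cases c : U = 1
      · exact ⟨1, 0, monic_one, one_dvd _, fun i => by simp [c, nb]⟩
      obtain ⟨π, hm, hi, U₁, rfl⟩ := exists_monic_irreducible_factor U
        fun e => c (hU.isUnit_iff.1 e)
      have h1 := hm.of_mul_monic_left hU
      simp only [eval_mul, mul_ne_zero_iff] at h0
      obtain ⟨T, S, hT, hS, e⟩ := mv π V hm hi ((dvd_mul_right _ _).trans hd) fun i => (h0 i).1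
      have h2 : W a fun i => nb π (a' i) := ⟨T, S, hT, hS, fun i => ⟨(e i).1, nb_ne (h0 i).1, by
        obtain ⟨s, hs⟩ := (e i).2
        exact ⟨nb π (a' i) * s, by simp only [nb]; rw [hs]; ring⟩⟩⟩
      have h3 := ih _ (by
        rw [← hn, hm.natDegree_mul h1]
        exact Nat.lt_add_of_pos_left hi.natDegree_pos) U₁ rfl h1 ((dvd_mul_left _ _).trans hd)
        fun i => (h0 i).2
      simpa only [nb_mul hm h1] using h2.mul h3
  exact congr (key _ U rfl hU hd fun i => (h i).1) fun i => (h i).2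

end Cst

theorem cstp : GRPStmt → CSTPStmt := fun _ _ _ _ _ _ a a' _ _ _ h =>
  Cst.move fun _ _ => Cst.padic a a' h

theorem cstr : GRPStmt → CSTRStmt := fun _ _ _ _ a a' _ _ _ h =>
  Cst.move fun _ _ => Cst.real a a' fun i k => (h i k).2

end Pool.Agent.MP_a43263_nt.JC
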