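import Pool.Agent.MP_a43263_nt.JC.XSpec

/-! THEOREM J: the residue group of the cubic family. -/

set_option autoImplicit false

noncomputable section

namespace Pool.Agent.MP_a43263_nt.JC

open Finset

namespace CubA

variable {g : ℕ}

def sg (s : Fin 2) : ℤ := ![-1, 1] s

def sn (s : Fin 2) : SignType := ![1, -1] s

theorem sg_sq (s : Fin 2) : sg s * sg s = 1 := by revert s; decide

theorem sg_add (s t : Fin 2) : sg (s + t) = -(sg s * sg t) := by revert s t; decide

theorem sg_pm (s : Fin 2) : sg s = 1 ∨ sg s = -1 := by revert s; decide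

theorem sn_cast (s : Fin 2) : (sn s : ℤ) = -sg s := by revert s; decide

theorem sn_ne (s : Fin 2) : sn s ≠ 0 := by revert s; decide

theorem sn_inj {s t : Fin 2} (h : sn s = sn t) : s = t := by revert s t; decide

/-! ### parities of valuations -/

def w (p : ℕ) (x : ℚ) : ZMod 2 := (padicValRat p x : ℤ)

section val

variable {p : ℕ} [hp : Fact p.Prime]

theorem w_mul {x y : ℚ} (hx : x ≠ 0) (hy : y ≠ 0) : w p (x * y) = w p x + w p y := by
  rw [w, padicValRat.mul hx hy, Int.cast_add, w, w]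

theorem w_prod {ι : Type} (S : Finset ι) (f : ι → ℚ) (h : ∀ i ∈ S, f i ≠ 0) :
    w p (∏ i ∈ S, f i) = ∑ i ∈ S, w p (f i) := by
  classical
  induction S using Finset.induction_on with
  | empty => simp [w]
  | insert a S ha ih =>
    have h' : ∀ i ∈ S, f i ≠ 0 := fun i hi => h i (mem_insert_of_mem hi)
    rw [prod_insert ha, sum_insert ha, w_mul (h a (mem_insert_self _ _)) (prod_ne_zero_iff.2 h'),
      ih h']

theorem w_sq {x : ℚ} (h : IsSquare x) : w p x = 0 := by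
  obtain ⟨s, rfl⟩ := h
  rcases eq_or_ne s 0 with rfl | hs
  · simp [w]
  · rw [w_mul hs hs]
    exact CharTwo.add_self_eq_zero _

omit hp in
theorem w_sg (s : Fin 2) (x : ℤ) : w p (sg s * x : ℤ) = w p x := by
  rcases sg_pm s with e | e <;> simp [e, w]

omit hp in
theorem w_neg (x : ℚ) : w p (-x) = w p x := by simp [w]

omit hp in
theorem w_zero {x : ℤ} (h : ¬(p : ℤ) ∣ x) : w p x = 0 := by
  rw [w, padicValRat.of_int, padicValInt.eq_zero_of_not_dvd h]; simp

theorem w_one {x : ℤ} (h : (p : ℤ) ∣ x) (h' : ¬(p : ℤ) ^ 2 ∣ x) : w p x = 1 := by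
  have h1 := (padicValInt_dvd_iff 1 x).1 (by rwa [pow_one])
  have h2 := mt (padicValInt_dvd_iff 2 x).2 h'
  rw [w, padicValRat.of_int, show padicValInt p x = 1 by omega]; simp

end val

/-! ### private primes -/

def φ2 (a b : Vx g) (α β : SignType) (x : Vx g) : SignType :=
  if x = a then α else if x = b then β else 0

def φ3 (a b c : Vx g) (β γ : SignType) (x : Vx g) : SignType :=
  if x = a then 1 else if x = b then β else if x = c then γ else 0

theorem sum2 (l : Vx g → ℤ) {a b : Vx g} (h : a ≠ b) (α β : SignType) :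
    ∑ x, φ2 a b α β x * l x = α * l a + β * l b := by
  have e : ∀ x, φ2 a b α β x * l x =
      (if x = a then α * l a else 0) + if x = b then β * l b else 0 := fun x => by
    unfold φ2
    split_ifs <;> simp_all
  simp [e, sum_add_distrib]

theorem sum3 (l : Vx g → ℤ) {a b c : Vx g} (h : a ≠ b) (h' : a ≠ c) (h'' : b ≠ c)
    (β γ : SignType) : ∑ x, φ3 a b c β γ x * l x = l a + β * l b + γ * l c := by
  have e : ∀ x, φ3 a b c β γ x * l x = (if x = a then l a else 0) +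
      (if x = b then β * l b else 0) + if x = c then γ * l c else 0 := fun x => by
    unfold φ3
    split_ifs <;> simp_all
  simp [e, sum_add_distrib]

theorem priv3 {l : Vx g → ℤ} (hl : Priv l) {i j m0 : Vx g} (h1 : i ≠ j) (h2 : i ≠ m0)
    (h3 : j ≠ m0) (s0 t0 : Fin 2) : ∃ p : ℕ, p.Prime ∧ p ≠ 2 ∧
      (p : ℤ) ∣ l i - sg s0 * l j - sg t0 * l m0 ∧
      ¬(p : ℤ) ^ 2 ∣ l i - sg s0 * l j - sg t0 * l m0 ∧
      (∀ a b, a ≠ b → ∀ s, ¬(p : ℤ) ∣ l a + sg s * l b) ∧
      ∀ m, i ≠ m → j ≠ m → ∀ s t, ¬(s = s0 ∧ m = m0 ∧ t = t0) →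
        ¬(p : ℤ) ∣ l i - sg s * l j - sg t * l m := by
  have v1 : φ3 i j m0 (sn s0) (sn t0) i = 1 := by simp [φ3]
  have v2 : φ3 i j m0 (sn s0) (sn t0) j = sn s0 := by simp [φ3, h1.symm]
  have v3 : φ3 i j m0 (sn s0) (sn t0) m0 = sn t0 := by simp [φ3, h2.symm, h3.symm]
  obtain ⟨p, a1, a2, a3, a4, a5⟩ := hl (φ3 i j m0 (sn s0) (sn t0)) fun e => by
    have := congrFun e i
    rw [v1] at this
    exact one_ne_zero this
  rw [sum3 l h1 h2 h3, sn_cast, sn_cast] at a3 a4
  refine ⟨p, a1, a2, by simpa [sub_eq_add_neg] using a3, by simpa [sub_eq_add_neg] using a4,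
    fun a b hab s => ?_, fun m b1 b2 s t hne => ?_⟩
  · have key : ∃ x, φ2 a b 1 (-sn s) x = 0 ∧ φ3 i j m0 (sn s0) (sn t0) x ≠ 0 := by
      by_cases c1 : i = a ∨ i = b
      · by_cases c2 : j = a ∨ j = b
        · refine ⟨m0, ?_, by rw [v3]; exact sn_ne _⟩
          rw [φ2, if_neg, if_neg] <;> rintro rfl <;> rcases c1 with rfl | rfl <;>
            rcases c2 with c | c <;> simp_all
        · exact ⟨j, by rw [φ2, if_neg (not_or.1 c2).1, if_neg (not_or.1 c2).2],
            by rw [v2]; exact sn_ne _⟩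
      · exact ⟨i, by rw [φ2, if_neg (not_or.1 c1).1, if_neg (not_or.1 c1).2], v1 ▸ one_ne_zero⟩
    obtain ⟨x, x1, x2⟩ := key
    have := a5 (φ2 a b 1 (-sn s)) (fun e => by simpa [φ2] using congrFun e a)
      (fun e => x2 (e ▸ x1)) fun e => x2 (by
        have := congrFun e x
        rw [x1, Pi.neg_apply] at this
        simpa using this.symm)
    rw [sum2 l hab] at this
    simpa [sn_cast] using this
  · have := a5 (φ3 i j m (sn s) (sn t)) (fun e => by simpa [φ3] using congrFun e i)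
      (fun e => hne (by
        have e1 := congrFun e j
        have e2 := congrFun e m0
        rw [v2] at e1
        rw [v3] at e2
        simp only [φ3, if_neg h1.symm, if_true] at e1
        simp only [φ3, if_neg h2.symm, if_neg h3.symm] at e2
        split_ifs at e2 with c
        · exact ⟨sn_inj e1, c.symm, sn_inj e2⟩
        · exact absurd e2.symm (sn_ne _)))
      fun e => by simpa [φ3] using congrFun e i
    rw [sum3 l h1 b1 b2, sn_cast, sn_cast] at this
    simpa [sub_eq_add_neg] using this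

/-! ### the forms -/

def r (l : Vx g → ℤ) (v : ℤ × ℤ) (m : Vx g) : ℤ := l m * v.1 + l m ^ 3 * v.2

def T (l : Vx g → ℤ) (v : ℤ × ℤ) (a b : Vx g) (t : Fin 2) : ℤ := r l v a + sg t * r l v b

variable {c : ℤ} {l : Vx g → ℤ}

theorem LZ_eq (k : Ed g × Fin 2) (v : ℤ × ℤ) : (cub c l).LZ k v = T l v k.1.1.1 k.1.1.2 k.2 := by
  simp only [HS.LZ, cub, fam, T, r, sg]; ring

theorem root_eq (k : Ed g × Fin 2) : (cub c l).rootZ k =
    (l k.1.1.1 ^ 3 + sg k.2 * l k.1.1.2 ^ 3, -(l k.1.1.1 + sg k.2 * l k.1.1.2)) := rfl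

theorem T_comm (v : ℤ × ℤ) (a b : Vx g) (t : Fin 2) : T l v b a t = sg t * T l v a b t := by
  unfold T
  linear_combination (-r l v b) * sg_sq t

theorem T_shift (e : Ed g) (s t : Fin 2) (m : Vx g) :
    T l ((cub c l).rootZ (e, s)) e.1.2 m (s + t) =
      -(sg s * T l ((cub c l).rootZ (e, s)) e.1.1 m t) := by
  simp only [T, sg_add, r, root_eq]
  rcases sg_pm s with h | h <;> rw [h] <;> ring

theorem T_fac (e : Ed g) (s t : Fin 2) (m : Vx g) :
    T l ((cub c l).rootZ (e, s)) e.1.1 m t = sg t * ((l e.1.1 + sg s * l e.1.2) *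
      (l e.1.1 + sg t * l m) * (l m + sg (s + t) * l e.1.2) *
      (l e.1.1 - sg s * l e.1.2 - sg t * l m)) := by
  simp only [T, sg_add, r, root_eq]
  rcases sg_pm s with h | h <;> rcases sg_pm t with h' | h' <;> rw [h, h'] <;> ring

theorem aZ_eq (v : ℤ × ℤ) (m : Vx g) : (cub c l).aZ v m = c * (r l v 0 ^ 2 - r l v m ^ 2) := by
  unfold HS.aZ
  split_ifs with h
  · simp only [HS.DZ, Fin.prod_univ_two, LZ_eq, T]
    show c * ((r l v 0 + -1 * r l v m) * (r l v 0 + 1 * r l v m)) = _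
    ring
  · rw [show m = 0 from le_antisymm (not_lt.1 h) (Fin.zero_le _)]; ring

theorem gam_eq (h : Ed g × Fin 2) : (cub c l).gam h = ∏ m ∈ univ.filter (fun m => ¬On m h.1),
    -((c : ℚ) * ∏ t, (T l ((cub c l).rootZ h) h.1.1.1 m t : ℚ)) := by
  rw [HS.gam_eq, HS.gamZ, gm, Int.cast_prod]
  refine prod_congr rfl fun m _ => ?_
  rw [aZ_eq, aZ_eq, Fin.prod_univ_two]
  simp only [T, show sg 0 = -1 from rfl, show sg 1 = 1 from rfl]
  push_cast
  ring

theorem ne_all (hp : ∀ i, 0 < l i) (hg : ∀ i j, i < j → 3 * l i ≤ l j) (h k : Ed g × Fin 2)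
    (hne : h ≠ k) : (cub c l).LZ h ((cub c l).rootZ k) ≠ 0 := by
  obtain ⟨⟨⟨i, j⟩, hij⟩, s⟩ := h
  obtain ⟨⟨⟨i', j'⟩, hij'⟩, s'⟩ := k
  have e : (cub c l).LZ (⟨(i, j), hij⟩, s) ((cub c l).rootZ (⟨(i', j'), hij'⟩, s')) =
      (l i + sg s * l j) * (l i' + sg s' * l j') *
        ((l i' ^ 2 - sg s' * l i' * l j' + l j' ^ 2) - (l i ^ 2 - sg s * l i * l j + l j ^ 2)) := by
    simp only [LZ_eq, T, r, root_eq]
    rcases sg_pm s with h | h <;> rcases sg_pm s' with h' | h' <;> rw [h, h'] <;> ring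
  have a1 := hp i
  have a2 := hp i'
  have a3 := hg i j hij
  have a4 := hg i' j' hij'
  rw [e]
  refine mul_ne_zero (mul_ne_zero ?_ ?_) ?_
  · rcases sg_pm s with h | h <;> rw [h] <;> omega
  · rcases sg_pm s' with h | h <;> rw [h] <;> omega
  rcases lt_trichotomy j j' with c1 | c1 | c1
  · have a5 := hg _ _ c1
    refine ne_of_gt ?_
    rcases sg_pm s with h | h <;> rcases sg_pm s' with h' | h' <;> rw [h, h'] <;> nlinarith
  · subst c1
    have e2 : (l i' ^ 2 - sg s' * l i' * l j + l j ^ 2) - (l i ^ 2 - sg s * l i * l j + l j ^ 2) =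
        (sg s * l i - sg s' * l i') * (l j - sg s * l i - sg s' * l i') := by
      rcases sg_pm s with h | h <;> rcases sg_pm s' with h' | h' <;> rw [h, h'] <;> ring
    rw [e2]
    refine mul_ne_zero (fun e3 => hne ?_) ?_
    · have b1 : s = s' ∧ l i = l i' := by
        revert e3
        fin_cases s <;> fin_cases s' <;> simp [sg] <;> omega
      have b2 : i = i' := by
        rcases lt_trichotomy i i' with c2 | c2 | c2
        · have := hg _ _ c2; omega
        · exact c2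
        · have := hg _ _ c2; omega
      subst b2
      rw [b1.1]
    · rcases sg_pm s with h | h <;> rcases sg_pm s' with h' | h' <;> rw [h, h'] <;> omega
  · have a5 := hg _ _ c1
    refine ne_of_lt ?_
    rcases sg_pm s with h | h <;> rcases sg_pm s' with h' | h' <;> rw [h, h'] <;> nlinarith

/-! ### the residue conditions -/

/-- the form of the pair `a b` with index `t` belongs to `y` -/
def Yp (y : Finset (Ed g × Fin 2)) (a b : Vx g) (t : Fin 2) : Prop :=
  ∃ e : Ed g, (e, t) ∈ y ∧ (e.1 = (a, b) ∨ e.1 = (b, a))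

open Classical in
def Y (y : Finset (Ed g × Fin 2)) (a b : Vx g) (t : Fin 2) : ZMod 2 := if Yp y a b t then 1 else 0

variable {y : Finset (Ed g × Fin 2)}

theorem Y_comm (a b : Vx g) (t : Fin 2) : Y y a b t = Y y b a t := by
  have : Yp y a b t ↔ Yp y b a t := exists_congr fun _ => and_congr_right fun _ => or_comm
  unfold Y
  by_cases h : Yp y b a t <;> simp [this, h]

theorem Y_self (a : Vx g) (t : Fin 2) : Y y a a t = 0 := by
  refine if_neg ?_
  rintro ⟨e, -, h⟩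
  have := ed_ne e
  rw [or_self] at h
  simp [h] at this

theorem Yp_ed (e : Ed g) (t : Fin 2) : Yp y e.1.1 e.1.2 t ↔ (e, t) ∈ y := by
  refine ⟨?_, fun h => ⟨e, h, Or.inl rfl⟩⟩
  rintro ⟨e', h, h1 | h1⟩
  · rwa [← show e' = e from Subtype.ext h1]
  · have := e'.2
    rw [h1] at this
    exact absurd e.2 this.not_gt

/-- `e` is the pair `a b` -/
def Is (e : Ed g) (a b : Vx g) : Prop := e.1 = (a, b) ∨ e.1 = (b, a)

def oth (a : Vx g) (e : Ed g) : Vx g := if e.1.1 = a then e.1.2 else e.1.1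

theorem is_oth {a : Vx g} {e : Ed g} (h : On a e) : Is e a (oth a e) := by
  unfold oth
  split_ifs with c
  · exact Or.inl (by rw [← c])
  · exact Or.inr (by rw [h.resolve_left fun e => c e.symm])

theorem Is.eq {a b : Vx g} {e e' : Ed g} (h : Is e a b) (h' : Is e' a b) : e = e' := by
  have h1 := e.2
  have h2 := e'.2
  rcases h with h | h <;> rcases h' with h' | h'
  · exact Subtype.ext (h.trans h'.symm)
  · rw [h] at h1; rw [h'] at h2; exact absurd h1 h2.not_gt
  · rw [h] at h1; rw [h'] at h2; exact absurd h1 h2.not_gt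
  · exact Subtype.ext (h.trans h'.symm)

theorem Is.on {a b : Vx g} {e : Ed g} (h : Is e a b) : On a e ∧ On b e ∧ a ≠ b ∧ oth a e = b := by
  have := ed_ne e
  rcases h with h | h <;> simp_all [On, oth, eq_comm]

theorem is_on {a b : Vx g} {e : Ed g} (h : On a e) (h' : On b e) (n : a ≠ b) : Is e a b := by
  rcases h with rfl | rfl <;> rcases h' with rfl | rfl
  exacts [absurd rfl n, Or.inl rfl, Or.inr rfl, absurd rfl n]

theorem sum_star (G : Vx g → Vx g → Fin 2 → ZMod 2) (hG : ∀ a b t, G a b t = G b a t) (e : Ed g)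
    {a : Vx g} (ha : On a e) :
    ∑ k ∈ (y.filter fun k => k.1 ≠ e).filter (fun k => On a k.1), G k.1.1.1 k.1.1.2 k.2 =
      ∑ m ∈ univ.filter (fun m => ¬On m e), ∑ t, Y y a m t * G a m t := by
  classical
  simp only [Y, ite_mul, one_mul, zero_mul]
  rw [← sum_product', ← sum_filter]
  refine sum_bij (fun k _ => (oth a k.1, k.2)) ?_ ?_ ?_ ?_
  · intro k hk
    simp only [mem_filter, mem_product, mem_univ, true_and, and_true] at hk ⊢
    have h := is_oth hk.2
    exact ⟨fun c => hk.1.2 (h.eq (is_on ha c h.on.2.2.1)), k.1, hk.1.1, h⟩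
  · intro k hk k' hk' h
    have h1 := is_oth (mem_filter.1 hk).2
    rw [(Prod.mk.inj h).1] at h1
    exact Prod.ext (h1.eq (is_oth (mem_filter.1 hk').2)) (Prod.mk.inj h).2
  · rintro ⟨m, t⟩ hm
    simp only [mem_filter, mem_product, mem_univ, true_and, and_true] at hm
    obtain ⟨h1, e', h2, h3⟩ := hm
    have h4 := Is.on h3
    exact ⟨(e', t), mem_filter.2 ⟨mem_filter.2 ⟨h2, fun c => h1 (c ▸ h4.2.1)⟩, h4.1⟩,
      Prod.ext h4.2.2.2 rfl⟩
  · intro k hk
    rcases is_oth (mem_filter.1 hk).2 with h | h <;> rw [h]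
    exact hG _ _ _

theorem core (hc : c ≠ 0) (hne : ∀ h k, h ≠ k → (cub c l).LZ h ((cub c l).rootZ k) ≠ 0)
    {u : Vx g → ℚ} (hy : (cub c l).InS u y) (p : ℕ) [Fact p.Prime] (e : Ed g) (s : Fin 2) :
    w p (u e.1.1) + w p (u e.1.2) + ∑ m ∈ univ.filter (fun m => ¬On m e),
      (Y y e.1.1 e.1.2 s * w p c + ∑ t, (Y y e.1.1 e.1.2 s + Y y e.1.1 m t + Y y e.1.2 m (s + t)) *
        w p (T l ((cub c l).rootZ (e, s)) e.1.1 m t)) = 0 := by
  obtain ⟨h0, -, -, h⟩ := hy
  have h1 := w_sq (p := p) (h (e, s))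
  have hL : ∀ a, ∀ k ∈ (y.filter fun k => k.1 ≠ e).filter (fun k => On a k.1),
      (cub c l).L k ((cub c l).root (e, s)) ≠ 0 := fun a k hk => by
    rw [HS.L_root]
    exact Int.cast_ne_zero.2 (hne _ _ fun c => (mem_filter.1 (mem_filter.1 hk).1).2 (by rw [c]))
  have hd : ∀ a, On a e →
      (cub c l).del u (y.filter fun k => k.1 ≠ e) ((cub c l).root (e, s)) a ≠ 0 ∧
      w p ((cub c l).del u (y.filter fun k => k.1 ≠ e) ((cub c l).root (e, s)) a) = w p (u a) +
        ∑ m ∈ univ.filter (fun m => ¬On m e), ∑ t,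
          Y y a m t * w p (T l ((cub c l).rootZ (e, s)) a m t) := fun a ha => by
    unfold HS.del
    refine ⟨mul_ne_zero (by simpa using h0 a) (prod_ne_zero_iff.2 (hL a)), ?_⟩
    rw [w_mul (by simpa using h0 a) (prod_ne_zero_iff.2 (hL a)), w_prod _ _ (hL a),
      ← sum_star (fun a b t => w p (T l ((cub c l).rootZ (e, s)) a b t))
        (fun a b t => by rw [T_comm _ a b, w_sg]) e ha]
    simp only [HS.L_root, LZ_eq, Rat.cast_id]
  have hT : ∀ m ∈ univ.filter (fun m => ¬On m e), ∀ t,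
      (T l ((cub c l).rootZ (e, s)) e.1.1 m t : ℚ) ≠ 0 := fun m hm t => by
    have hm := (mem_filter.1 hm).2
    obtain ⟨e', he'⟩ := exists_ed (show e.1.1 ≠ m from fun c => hm (Or.inl c.symm))
    have := hne (e', t) (e, s) fun c => hm (by
      rw [← (Prod.mk.inj c).1]
      exact he'.elim (fun h => Or.inr h.2.symm) fun h => Or.inl h.1.symm)
    rw [LZ_eq] at this
    rcases he' with ⟨a1, a2⟩ | ⟨a1, a2⟩ <;> simp only [a1, a2] at this
    · exact Int.cast_ne_zero.2 this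
    · rw [T_comm] at this
      exact Int.cast_ne_zero.2 (right_ne_zero_of_mul this)
  have hc' : (c : ℚ) ≠ 0 := Int.cast_ne_zero.2 hc
  have hg : (if (e, s) ∈ y then (cub c l).gam (e, s) else 1) ≠ 0 ∧
      w p (if (e, s) ∈ y then (cub c l).gam (e, s) else 1) =
        ∑ m ∈ univ.filter (fun m => ¬On m e), Y y e.1.1 e.1.2 s *
          (w p c + ∑ t, w p (T l ((cub c l).rootZ (e, s)) e.1.1 m t)) := by
    have n : ∀ m ∈ univ.filter (fun m => ¬On m e),
        -((c : ℚ) * ∏ t, (T l ((cub c l).rootZ (e, s)) e.1.1 m t : ℚ)) ≠ 0 := fun m hm =>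
      neg_ne_zero.2 (mul_ne_zero hc' (prod_ne_zero_iff.2 fun t _ => hT m hm t))
    simp only [Y, Yp_ed]
    split_ifs
    · rw [gam_eq]
      refine ⟨prod_ne_zero_iff.2 n, ?_⟩
      rw [w_prod _ _ n]
      refine sum_congr rfl fun m hm => ?_
      rw [w_neg, w_mul hc' (prod_ne_zero_iff.2 fun t _ => hT m hm t),
        w_prod _ _ fun t _ => hT m hm t, one_mul]
    · simp [w]
  obtain ⟨a1, a2⟩ := hd _ (Or.inl rfl)
  obtain ⟨b1, b2⟩ := hd _ (Or.inr rfl)
  rw [w_mul (mul_ne_zero a1 b1) hg.1, w_mul a1 b1, a2, b2, hg.2] at h1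
  have h2 : ∀ m, ∑ t, Y y e.1.2 m t * w p (T l ((cub c l).rootZ (e, s)) e.1.2 m t) =
      ∑ t, Y y e.1.2 m (s + t) * w p (T l ((cub c l).rootZ (e, s)) e.1.1 m t) := fun m => by
    rw [← Equiv.sum_comp (Equiv.addLeft s)]
    refine sum_congr rfl fun t _ => ?_
    rw [Equiv.coe_addLeft, T_shift, Int.cast_neg, w_neg, w_sg]
  simp only [h2] at h1
  simp only [add_mul, mul_add, sum_add_distrib, mul_sum] at h1 ⊢
  linear_combination h1

theorem both (hc : c ≠ 0) (hne : ∀ h k, h ≠ k → (cub c l).LZ h ((cub c l).rootZ k) ≠ 0)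
    {u : Vx g → ℚ} (hy : (cub c l).InS u y) (p : ℕ) [Fact p.Prime] (e : Ed g) :
    ∑ s, ∑ m ∈ univ.filter (fun m => ¬On m e),
      (Y y e.1.1 e.1.2 s * w p c + ∑ t, (Y y e.1.1 e.1.2 s + Y y e.1.1 m t + Y y e.1.2 m (s + t)) *
        w p (T l ((cub c l).rootZ (e, s)) e.1.1 m t)) = 0 := by
  rw [Fin.sum_univ_two]
  have h2 : (2 : ZMod 2) = 0 := rfl
  linear_combination core hc hne hy p e 0 + core hc hne hy p e 1 -
    (w p (u e.1.1) + w p (u e.1.2)) * h2

theorem tri0 (hc : c = 1 ∨ c = 2) (hl : Priv l)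
    (hne : ∀ h k, h ≠ k → (cub c l).LZ h ((cub c l).rootZ k) ≠ 0)
    {u : Vx g → ℚ} (hy : (cub c l).InS u y) (e : Ed g) {m0 : Vx g} (hm : ¬On m0 e)
    (s0 t0 : Fin 2) : Y y e.1.1 e.1.2 s0 + Y y e.1.1 m0 t0 + Y y e.1.2 m0 (s0 + t0) = 0 := by
  have n1 : ∀ m, ¬On m e → e.1.1 ≠ m ∧ e.1.2 ≠ m := fun m h =>
    ⟨fun c => h (Or.inl c.symm), fun c => h (Or.inr c.symm)⟩
  obtain ⟨p, a1, a2, a3, a4, a5, a6⟩ := priv3 hl (ed_ne e) (n1 _ hm).1 (n1 _ hm).2 s0 t0
  have := Fact.mk a1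
  have hp := Nat.prime_iff_prime_int.1 a1
  have h := both (by omega) hne hy p e
  have h1 : w p c = 0 := w_zero fun d => by
    rcases hc with rfl | rfl
    · exact hp.not_dvd_one d
    · exact a2 ((Nat.prime_dvd_prime_iff_eq a1 Nat.prime_two).1 (by exact_mod_cast d))
  have h2 : ∀ s, ∀ m ∈ univ.filter (fun m => ¬On m e), ∀ t,
      w p (T l ((cub c l).rootZ (e, s)) e.1.1 m t) =
        if s = s0 then if m = m0 then if t = t0 then 1 else 0 else 0 else 0 := fun s m hm t => by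
    have n2 := n1 m (mem_filter.1 hm).2
    have n3 : ¬(p : ℤ) ∣ (l e.1.1 + sg s * l e.1.2) * (l e.1.1 + sg t * l m) *
        (l m + sg (s + t) * l e.1.2) := by
      rw [hp.dvd_mul, hp.dvd_mul, not_or, not_or]
      exact ⟨⟨a5 _ _ (ed_ne e) _, a5 _ _ n2.1 _⟩, a5 _ _ n2.2.symm _⟩
    rw [T_fac, w_sg]
    by_cases b : s = s0 ∧ m = m0 ∧ t = t0
    · obtain ⟨rfl, rfl, rfl⟩ := b
      rw [Int.cast_mul, w_mul (Int.cast_ne_zero.2 fun e => n3 (by rw [e]; exact dvd_zero _))
        (Int.cast_ne_zero.2 fun e => a4 (by rw [e]; exact dvd_zero _)), w_zero n3, w_one a3 a4]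
      simp
    · rw [w_zero (by rw [hp.dvd_mul, not_or]; exact ⟨n3, a6 m n2.1 n2.2 s t b⟩)]
      split_ifs <;> simp_all
  rw [sum_congr rfl fun s _ => sum_congr rfl fun m hm => by
    rw [h1, mul_zero, zero_add, sum_congr rfl fun t _ => by rw [h2 s m hm t]]] at h
  simpa [(n1 _ hm).1.symm, (n1 _ hm).2.symm] using h

end CubA

open CubA

theorem cub3 : CUBStmt := by
  intro g c l hg hc hl hp hgr
  have hne := ne_all (c := c) hp hgr
  refine ⟨hne, fun u y hy => ?_⟩
  classical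
  have h2 : (2 : ZMod 2) = 0 := rfl
  have tri : ∀ i j m, i ≠ j → i ≠ m → j ≠ m → ∀ s t,
      Y y i j s + Y y i m t + Y y j m (s + t) = 0 := fun i j m h1 h2 h3 s t => by
    obtain ⟨e, ⟨rfl, rfl⟩ | ⟨rfl, rfl⟩⟩ := exists_ed h1
    · exact tri0 hc hl hne hy e (fun c => c.elim h2.symm h3.symm) s t
    · have := tri0 hc hl hne hy e (fun c => c.elim h3.symm h2.symm) s (s + t)
      rw [(by decide : ∀ s t : Fin 2, s + (s + t) = t), Y_comm] at this
      linear_combination this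
  have zz : ∀ i j m, i ≠ j → i ≠ m → Y y i j 0 + Y y i j 1 = Y y i m 0 + Y y i m 1 :=
    fun i j m h1 h3 => by
      rcases eq_or_ne j m with rfl | h4
      · rfl
      have a1 := tri i j m h1 h3 h4 0 0
      have a2 := tri i j m h1 h3 h4 1 1
      rw [show (0 + 0 : Fin 2) = 0 from rfl] at a1
      rw [show (1 + 1 : Fin 2) = 0 from rfl] at a2
      linear_combination a1 + a2 - (Y y i m 0 + Y y i m 1 + Y y j m 0) * h2
  obtain ⟨e0, he0⟩ : ∃ e : Ed g, e.1.1 = 0 :=
    ⟨⟨(0, ⟨1, by omega⟩), by simp [Fin.lt_def]⟩, rfl⟩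
  have n0 : (0 : Vx g) ≠ e0.1.2 := he0 ▸ ed_ne e0
  have key : ∀ e : Ed g, Y y e.1.1 e.1.2 0 = Y y 0 e.1.1 0 + Y y 0 e.1.2 0 ∧
      Y y e.1.1 e.1.2 0 + Y y e.1.1 e.1.2 1 = Y y 0 e0.1.2 0 + Y y 0 e0.1.2 1 := fun e => by
    have n1 := ed_ne e
    rcases eq_or_ne 0 e.1.1 with c | c
    · rw [← c] at n1 ⊢
      exact ⟨by rw [Y_self, zero_add], zz _ _ _ n1 n0⟩
    · have n2 : (0 : Vx g) ≠ e.1.2 := (lt_of_le_of_lt (Fin.zero_le _) e.2).ne
      have a1 := tri _ _ _ c n2 n1 0 0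
      rw [show (0 + 0 : Fin 2) = 0 from rfl] at a1
      refine ⟨by linear_combination a1 - (Y y 0 e.1.1 0 + Y y 0 e.1.2 0) * h2, ?_⟩
      rw [zz _ _ _ n1 c.symm, Y_comm _ _ 0, Y_comm _ _ 1, zz _ _ _ c n0]
  have hz : c = 2 → Y y 0 e0.1.2 0 + Y y 0 e0.1.2 1 = 0 := by
    rintro rfl
    have h := both two_ne_zero hne hy 2 e0
    rw [sum_congr rfl fun s _ => sum_congr rfl fun m hm => by
      have hm := (mem_filter.1 hm).2
      rw [sum_congr rfl fun t _ => by
        rw [tri _ _ _ (ed_ne e0) (fun c => hm (Or.inl c.symm)) fun c => hm (Or.inr c.symm),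
          zero_mul]]] at h
    have h3 : w 2 ((2 : ℤ) : ℚ) = 1 := w_one (by decide) (by decide)
    have h4 : ((univ.filter fun m => ¬On m e0).card : ZMod 2) = 1 := by
      rw [filter_not_on, card_erase_of_mem (by simp [(ed_ne e0).symm]),
        card_erase_of_mem (mem_univ _), card_univ, card_Vx,
        show 2 * g + 1 - 1 - 1 = 2 * (g - 1) + 1 by omega]
      push_cast
      rw [h2, zero_mul, zero_add]
    simp only [h3, sum_const, nsmul_eq_mul, h4, mul_one, mul_zero, add_zero, one_mul,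
      Fin.sum_univ_two] at h
    rwa [he0] at h
  have hm : ∀ (e : Ed g) (t : Fin 2), (e, t) ∈ y ↔ Y y e.1.1 e.1.2 t = 1 := fun e t => by
    simp [Y, Yp_ed]
  refine ⟨univ.filter fun i => Y y 0 i 0 = 1, ?_⟩
  by_cases hq : Y y 0 e0.1.2 0 + Y y 0 e0.1.2 1 = 0
  · left
    ext ⟨e, t⟩
    obtain ⟨a1, a2⟩ := key e
    rw [hq, a1] at a2
    simp only [hm, cut, mem_filter, mem_univ, true_and]
    fin_cases t <;> simp only [Fin.zero_eta, Fin.mk_one, Fin.isValue, a1] <;> revert a2 <;>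
      generalize Y y 0 e.1.1 0 = a <;> generalize Y y 0 e.1.2 0 = b <;>
      generalize Y y e.1.1 e.1.2 1 = d <;> revert a b d <;> decide
  · refine Or.inr ⟨hc.resolve_right fun c => hq (hz c), ?_⟩
    ext ⟨e, t⟩
    obtain ⟨a1, a2⟩ := key e
    rw [← a2, a1] at hq
    simp only [hm, cut, lay, mem_symmDiff, mem_filter, mem_univ, true_and, mem_singleton]
    fin_cases t <;> simp only [Fin.zero_eta, Fin.mk_one, Fin.isValue, a1] <;> revert hq <;>
      generalize Y y 0 e.1.1 0 = a <;> generalize Y y 0 e.1.2 0 = b <;>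
      generalize Y y e.1.1 e.1.2 1 = d <;> revert a b d <;> decide

end Pool.Agent.MP_a43263_nt.JC
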