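import Pool.Agent.MP_a43263_nt.JC.XSpec
import Pool.Agent.MP_a43263_nt.JC.Idx

/-! THEOREM J, examples: products, Weierstrass points and the criterion. -/

set_option autoImplicit false

noncomputable section

namespace Pool.Agent.MP_a43263_nt.JC

open Finset

namespace Gens

theorem prod_sd {ι M : Type} [DecidableEq ι] [CommMonoid M] (f : ι → M) (y y' : Finset ι) :
    (∏ j ∈ y, f j) * ∏ j ∈ y', f j = (∏ j ∈ symmDiff y y', f j) * (∏ j ∈ y ∩ y', f j) ^ 2 := by
  rw [symmDiff_def, sup_eq_union, prod_union disjoint_sdiff_sdiff,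
    ← prod_inter_mul_prod_sdiff y y', ← prod_inter_mul_prod_sdiff y' y, inter_comm y' y, sq]
  ac_rfl

theorem prod_sd' {ι M : Type} [DecidableEq ι] [CommMonoid M] (f : ι → M) (p : ι → Prop)
    [DecidablePred p] (y y' : Finset ι) :
    (∏ j ∈ y.filter p, f j) * ∏ j ∈ y'.filter p, f j =
      (∏ j ∈ (symmDiff y y').filter p, f j) * (∏ j ∈ (y ∩ y').filter p, f j) ^ 2 := by
  simp only [prod_filter]
  exact prod_sd _ y y'

theorem sq_of {K : Type} [Field K] {x y s : K} (hs : s ≠ 0) (h : IsSquare y) (e : y = x * s ^ 2) :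
    IsSquare x := by
  obtain ⟨r, hr⟩ := h
  exact ⟨r / s, by field_simp; linear_combination hr - e⟩

variable {g n : ℕ} {F : HS g n}

/-- the generic point -/
abbrev gen : RatFunc ℚ × RatFunc ℚ := (RatFunc.X, 1)

theorem two (h : F.Bas) : 2 ≤ n := by
  obtain ⟨m, hm⟩ := h.ev
  have := h.n0
  omega

open Polynomial in
/-- the form as a polynomial -/
def pL (F : HS g n) (j : Ed g × Fin n) : ℚ[X] := C (F.A j : ℚ) * X + C (F.B j : ℚ)

open Polynomial in
def pD (F : HS g n) (e : Ed g) : ℚ[X] := C (F.c e : ℚ) * ∏ k, pL F (e, k)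

open Polynomial in
def pa (F : HS g n) (i : Vx g) : ℚ[X] := if h : 0 < i then pD F ⟨(0, i), h⟩ else 0

theorem pL_map (j : Ed g × Fin n) : algebraMap _ (RatFunc ℚ) (pL F j) = F.L j gen := by
  simp [pL, HS.L]

theorem pD_map (e : Ed g) : algebraMap _ (RatFunc ℚ) (pD F e) = F.D e gen := by
  rw [pD, map_mul, map_prod, RatFunc.algebraMap_C, map_intCast]
  simp only [pL_map, HS.D]

theorem pa_map (i : Vx g) : algebraMap _ (RatFunc ℚ) (pa F i) = F.a gen i := by
  unfold pa HS.a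
  split_ifs
  exacts [pD_map _, map_zero _]

theorem pD_eval (e : Ed g) (x : ℚ) : (pD F e).eval x = F.D e (x, 1) := by
  simp [pD, pL, HS.D, HS.L, Polynomial.eval_prod]

theorem pa_eval (i : Vx g) (x : ℚ) : (pa F i).eval x = F.a (x, 1) i := by
  unfold pa HS.a
  split_ifs
  exacts [pD_eval _ _, Polynomial.eval_zero]

theorem sum_gen (h : F.Bas) (e : Ed g) : F.D e gen = F.a gen e.1.2 - F.a gen e.1.1 := by
  rw [← pD_map, ← pa_map, ← pa_map, ← map_sub]
  congr 1
  exact Polynomial.funext fun x => by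
    rw [Polynomial.eval_sub, pD_eval, pa_eval, pa_eval, h.sum]

theorem L_gen (h : F.Bas) (j : Ed g × Fin n) : F.L j gen ≠ 0 := by
  have h2 := two h
  obtain ⟨k, hk⟩ : ∃ k : Fin n, k ≠ j.2 := by
    have : Nontrivial (Fin n) := Fin.nontrivial_iff_two_le.2 h2
    exact exists_ne _
  rw [← pL_map, map_ne_zero_iff _ (IsFractionRing.injective _ _)]
  intro e
  have e0 := congrArg (Polynomial.eval 0) e
  have e1 := congrArg (Polynomial.eval 1) e
  simp [pL] at e0 e1
  refine h.ne j (j.1, k) (fun c => hk (congrArg Prod.snd c).symm) ?_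
  rw [e0, Int.cast_zero, add_zero] at e1
  simp [HS.L, e0, e1]

theorem del_gen (h : F.Bas) {u : Vx g → ℚ} (hu : ∀ i, u i ≠ 0) (y : Finset (Ed g × Fin n))
    (i : Vx g) : F.del u y gen i ≠ 0 :=
  mul_ne_zero (Rat.cast_ne_zero.2 (hu i)) (prod_ne_zero_iff.2 fun j _ => L_gen h j)

theorem cv (h : F.Bas) : Cv g (F.a gen) (fp (F.a gen)) := by
  refine ⟨card_Vx g, h.pos, fun i k e => ?_, rfl⟩
  by_contra c
  have h0 : ∀ e, F.D e gen ≠ 0 := fun e =>
    mul_ne_zero (Int.cast_ne_zero.2 (h.c0 e)) (prod_ne_zero_iff.2 fun k _ => L_gen h _)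
  obtain ⟨e', ⟨rfl, rfl⟩ | ⟨rfl, rfl⟩⟩ := exists_ed c <;>
    exact h0 e' (by rw [sum_gen h, e, sub_self])

theorem D_root (h : F.Bas) {e : Ed g} {j : Ed g × Fin n} (c : e ≠ j.1) : F.D e (F.root j) ≠ 0 :=
  mul_ne_zero (Int.cast_ne_zero.2 (h.c0 e)) (prod_ne_zero_iff.2 fun _ _ =>
    h.ne _ _ fun e' => c (congrArg Prod.fst e'))

theorem gam_ne (h : F.Bas) (j : Ed g × Fin n) : F.gam j ≠ 0 := by
  refine prod_ne_zero_iff.2 fun l hl c => ?_
  have hl' := (mem_filter.1 hl).2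
  obtain ⟨e, ⟨a, b⟩ | ⟨a, b⟩⟩ := exists_ed (i := j.1.1.1) (k := l) fun c => hl' (.inl c.symm)
  · refine D_root h (e := e) (j := j) (fun c' => hl' (c' ▸ .inr b.symm)) ?_
    rw [h.sum, a, b, ← neg_sub, c, neg_zero]
  · refine D_root h (e := e) (j := j) (fun c' => hl' (c' ▸ .inl a.symm)) ?_
    rw [h.sum, a, b, c]

theorem a_root (h : F.Bas) (j : Ed g × Fin n) :
    F.a (F.root j) j.1.1.2 = F.a (F.root j) j.1.1.1 := by
  rw [← sub_eq_zero, ← h.sum]
  refine mul_eq_zero_of_right _ (prod_eq_zero (mem_univ j.2) ?_)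
  simp only [HS.L, HS.root]; ring

theorem del_mul {K : Type} [Field K] [CharZero K] (u u' : Vx g → ℚ) (y y' : Finset (Ed g × Fin n))
    (v : K × K) (i : Vx g) : F.del u y v i * F.del u' y' v i =
      F.del (fun i => u i * u' i) (symmDiff y y') v i *
        (∏ j ∈ (y ∩ y').filter (fun j => On i j.1), F.L j v) ^ 2 := by
  unfold HS.del
  rw [mul_mul_mul_comm, prod_sd', Rat.cast_mul]
  ring

theorem inS_mul (h : F.Bas) {u u' : Vx g → ℚ} {y y' : Finset (Ed g × Fin n)} (p : F.InS u y)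
    (q : F.InS u' y') : F.InS (fun i => u i * u' i) (symmDiff y y') := by
  refine ⟨fun i => mul_ne_zero (p.1 i) (q.1 i), ?_, fun i => ?_, fun j => ?_⟩
  · rw [prod_mul_distrib]; exact p.2.1.mul q.2.1
  · have := prod_sd' (fun _ => (-1 : ℤ)) (fun j : Ed g × Fin n => On i j.1) y y'
    simp only [prod_const, (p.2.2.1 i).neg_one_pow, (q.2.2.1 i).neg_one_pow] at this
    rw [← pow_mul, mul_comm _ 2, pow_mul, neg_one_sq, one_pow, mul_one, mul_one] at this
    exact (neg_one_pow_eq_one_iff_even (R := ℤ) (by norm_num)).1 this.symm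
  · have ef : (symmDiff y y').filter (fun k => k.1 ≠ j.1) =
        symmDiff (y.filter fun k => k.1 ≠ j.1) (y'.filter fun k => k.1 ≠ j.1) := by
      ext k; simp only [mem_filter, mem_symmDiff]; tauto
    have e2 : ∃ s : ℚ, s ≠ 0 ∧ ((if j ∈ y then F.gam j else 1) * if j ∈ y' then F.gam j else 1) =
        (if j ∈ symmDiff y y' then F.gam j else 1) * s ^ 2 := by
      by_cases a : j ∈ y <;> by_cases b : j ∈ y'
      · exact ⟨F.gam j, gam_ne h j, by simp [mem_symmDiff, a, b, sq]⟩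
      all_goals exact ⟨1, one_ne_zero, by simp [mem_symmDiff, a, b]⟩
    obtain ⟨s, s0, e2⟩ := e2
    have hp : ∀ i, (∏ k ∈ ((y.filter fun k => k.1 ≠ j.1) ∩ (y'.filter fun k => k.1 ≠ j.1)).filter
        (fun k => On i k.1), F.L k (F.root j)) ≠ 0 := fun i =>
      prod_ne_zero_iff.2 fun k hk => h.ne _ _ fun e =>
        (mem_filter.1 (mem_inter.1 (mem_filter.1 hk).1).1).2 (congrArg Prod.fst e)
    have := (p.2.2.2 j).mul (q.2.2.2 j)
    rw [mul_mul_mul_comm, e2, mul_mul_mul_comm (F.del u _ _ _), del_mul, del_mul] at this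
    rw [ef]
    exact sq_of (mul_ne_zero (mul_ne_zero (hp j.1.1.1) (hp j.1.1.2)) s0) this (by ring)

theorem gd_mul (grp : GRPStmt) (h : F.Bas) {u u' : Vx g → ℚ} {y y' : Finset (Ed g × Fin n)}
    (p : F.Gd u y) (q : F.Gd u' y') : F.Gd (fun i => u i * u' i) (symmDiff y y') := by
  have r := inS_mul h p.1 q.1
  refine ⟨r, Idx.W_sq (grp _ _ g _ (cv h) _ _ p.2 q.2) (del_gen h r.1 _) fun i => ?_⟩
  rw [del_mul, ← mul_assoc, ← sq, ← mul_pow]
  exact IsSquare.sq _

/-- the constants are determined up to squares -/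
theorem gd_of (h : F.Bas) {u u' : Vx g → ℚ} {y : Finset (Ed g × Fin n)} (p : F.InS u y)
    (q : F.Gd u' y) : F.Gd u y := by
  have r := inS_mul h p q.1
  have r1 : ∀ e : Ed g, IsSquare (u e.1.1 * u' e.1.1 * (u e.1.2 * u' e.1.2)) := fun e => by
    simpa [HS.del] using r.2.2.2 (e, ⟨0, h.n0⟩)
  have r2 : ∀ i, IsSquare (u i * u' i) := fun i => by
    have h1 : IsSquare (∏ k, u i * u' i * (u k * u' k)) :=
      prod_induction _ IsSquare (fun _ _ => IsSquare.mul) IsSquare.one fun k _ => by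
        by_cases c : i = k
        · subst c; exact ⟨_, rfl⟩
        · obtain ⟨e, ⟨rfl, rfl⟩ | ⟨rfl, rfl⟩⟩ := exists_ed c
          · exact r1 e
          · rw [mul_comm]; exact r1 e
    obtain ⟨t, ht⟩ := r.2.1
    have t0 : t ≠ 0 := fun c => prod_ne_zero_iff.2 (fun k _ => r.1 k) (by rw [ht, c, mul_zero])
    rw [prod_mul_distrib, prod_const, card_univ, card_Vx, ht] at h1
    exact sq_of (mul_ne_zero (pow_ne_zero g (r.1 i)) t0) h1 (by ring)
  refine ⟨p, Idx.W_sq q.2 (del_gen h p.1 _) fun i => ?_⟩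
  rw [del_mul]
  refine IsSquare.mul ?_ (IsSquare.sq _)
  simpa [HS.del] using (r2 i).map (Rat.castHom (RatFunc ℚ))

/-! ### Weierstrass points -/

/-- the forms of the pair `i, k` -/
def S (n : ℕ) (i k : Vx g) : Finset (Ed g × Fin n) := univ.filter fun j => On i j.1 ∧ On k j.1

/-- the signed constant of the pair `i, k` -/
def uu (F : HS g n) (i k : Vx g) : ℚ :=
  if h : i < k then -(F.c ⟨(i, k), h⟩ : ℚ) else if h : k < i then (F.c ⟨(k, i), h⟩ : ℚ) else 1

theorem on_iff (e e' : Ed g) : On e.1.1 e' ∧ On e.1.2 e' ↔ e' = e := by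
  obtain ⟨⟨a, b⟩, hab⟩ := e
  obtain ⟨⟨c, d⟩, hcd⟩ := e'
  have h1 : a.1 < b.1 := hab
  have h2 : c.1 < d.1 := hcd
  simp only [On, Subtype.mk.injEq, Prod.mk.injEq, Fin.ext_iff]
  omega

theorem S_eq (e : Ed g) : S n e.1.1 e.1.2 = univ.map ⟨Prod.mk e, Prod.mk_right_injective e⟩ := by
  ext ⟨e', k⟩
  simp [S, on_iff, eq_comm]

theorem S_comm (i k : Vx g) : S n i k = S n k i := by
  ext j; simp only [S, mem_filter, and_comm]

theorem S_card {i k : Vx g} (c : i ≠ k) : (S n i k).card = n := by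
  obtain ⟨e, ⟨rfl, rfl⟩ | ⟨rfl, rfl⟩⟩ := exists_ed c
  · rw [S_eq, card_map, card_univ, Fintype.card_fin]
  · rw [S_comm, S_eq, card_map, card_univ, Fintype.card_fin]

theorem uu_ne (h : F.Bas) (i k : Vx g) : uu F i k ≠ 0 := by
  unfold uu
  split_ifs
  exacts [neg_ne_zero.2 (Int.cast_ne_zero.2 (h.c0 _)), Int.cast_ne_zero.2 (h.c0 _), one_ne_zero]

theorem uu_S {K : Type} [Field K] {v : K × K} (hs : ∀ e, F.D e v = F.a v e.1.2 - F.a v e.1.1)
    {i k : Vx g} (c : i ≠ k) : (uu F i k : K) * ∏ j ∈ S n i k, F.L j v = F.a v i - F.a v k := by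
  obtain ⟨e, ⟨rfl, rfl⟩ | ⟨rfl, rfl⟩⟩ := exists_ed c
  · rw [S_eq, prod_map, uu, dif_pos e.2, ← neg_sub, ← hs, Rat.cast_neg, Rat.cast_intCast, neg_mul]
    rfl
  · rw [S_comm, S_eq, prod_map, uu, dif_neg e.2.not_gt, dif_pos e.2, ← hs, Rat.cast_intCast]
    rfl

theorem S_dis {i : Vx g} {t : Finset (Vx g)} (ht : i ∉ t) :
    (t : Set (Vx g)).PairwiseDisjoint (S n i) := by
  intro k hk l hl c
  refine disjoint_left.2 fun j a b => ?_
  have h1 : i ≠ k := fun e => ht (e ▸ hk)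
  have h2 : i ≠ l := fun e => ht (e ▸ hl)
  have a' := (mem_filter.1 a).2
  have b' := (mem_filter.1 b).2
  simp only [On] at a' b'
  grind

theorem uu_U {K : Type} [Field K] [CharZero K] {v : K × K}
    (hs : ∀ e, F.D e v = F.a v e.1.2 - F.a v e.1.1) {i : Vx g} {t : Finset (Vx g)} (ht : i ∉ t) :
    ((∏ k ∈ t, uu F i k : ℚ) : K) * ∏ j ∈ t.biUnion (S n i), F.L j v =
      ∏ k ∈ t, (F.a v i - F.a v k) := by
  rw [prod_biUnion (S_dis ht), Rat.cast_prod, ← prod_mul_distrib]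
  exact prod_congr rfl fun k hk => uu_S hs fun e => ht (e ▸ hk)

/-- the constants of the Weierstrass point `i` -/
def uw (F : HS g n) (i k : Vx g) : ℚ := if k = i then ∏ l ∈ univ.erase i, uu F i l else uu F i k

theorem mem_cut1 (i : Vx g) (j : Ed g × Fin n) : j ∈ cut n {i} ↔ On i j.1 := by
  have := ed_ne j.1
  simp only [cut, mem_filter, mem_univ, true_and, mem_singleton, On]
  grind

theorem cut_ne (i k : Vx g) : (cut n {i}).filter (fun j => On k j.1) = S n i k := by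
  ext j; simp only [mem_filter, mem_cut1, S, mem_univ, true_and]

theorem cut_eq (i : Vx g) :
    (cut n {i}).filter (fun j => On i j.1) = (univ.erase i).biUnion (S n i) := by
  ext j
  have := ed_ne j.1
  simp only [mem_filter, mem_cut1, S, mem_univ, true_and, mem_biUnion, mem_erase, and_true,
    and_self]
  constructor
  · rintro (h | h)
    · exact ⟨j.1.1.2, fun e => this (h.symm.trans e.symm), .inl h, .inr rfl⟩
    · exact ⟨j.1.1.1, fun e => this (e.trans h), .inr h, .inl rfl⟩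
  · exact fun ⟨_, _, h, _⟩ => h

theorem del_cut {K : Type} [Field K] [CharZero K] {v : K × K}
    (hs : ∀ e, F.D e v = F.a v e.1.2 - F.a v e.1.1) (i k : Vx g) :
    F.del (uw F i) (cut n {i}) v k = tv (F.a v) i k := by
  unfold HS.del uw tv
  split_ifs with c
  · subst c
    rw [cut_eq, uu_U hs (notMem_erase _ _), fd]
    exact prod_congr (by ext; simp) fun _ _ => rfl
  · rw [cut_ne, uu_S hs (Ne.symm c)]

theorem res_on (h : F.Bas) {i k : Vx g} (c : i ≠ k) (j : Ed g × Fin n) (hi : On i j.1)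
    (hk : On k j.1) :
    F.del (uw F i) ((cut n {i}).filter fun l => l.1 ≠ j.1) (F.root j) i *
      F.del (uw F i) ((cut n {i}).filter fun l => l.1 ≠ j.1) (F.root j) k * F.gam j =
        (uu F i k * F.gam j) ^ 2 := by
  have hne := ed_ne j.1
  have two : ∀ e : Ed g, On i e ∧ On k e ↔ e = j.1 := fun e => by
    rw [← on_iff j.1 e]
    simp only [On] at *
    grind
  have e1 : ((cut n {i}).filter fun l => l.1 ≠ j.1).filter (fun l => On k l.1) = ∅ := by
    refine filter_eq_empty_iff.2 fun l hl a => ?_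
    exact (mem_filter.1 hl).2 ((two _).1 ⟨(mem_cut1 _ _).1 (mem_filter.1 hl).1, a⟩)
  have e2 : ((cut n {i}).filter fun l => l.1 ≠ j.1).filter (fun l => On i l.1) =
      ((univ.erase i).erase k).biUnion (S n i) := by
    ext l
    have := ed_ne l.1
    simp only [mem_filter, mem_cut1, S, mem_univ, true_and, mem_biUnion, mem_erase, and_true,
      ne_eq, ← two]
    constructor
    · rintro ⟨⟨h | h, h'⟩, -⟩
      · exact ⟨l.1.1.2, ⟨fun e => h' ⟨.inl h, .inr e.symm⟩, fun e => this (h.symm.trans e.symm)⟩,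
          .inl h, .inr rfl⟩
      · exact ⟨l.1.1.1, ⟨fun e => h' ⟨.inr h, .inl e.symm⟩, fun e => this (e.trans h)⟩,
          .inr h, .inl rfl⟩
    · rintro ⟨x, ⟨h1, h2⟩, h3, h4⟩
      refine ⟨⟨h3, fun ⟨_, h5⟩ => ?_⟩, h3⟩
      simp only [On] at h3 h4 h5
      grind
  have e3 : F.gam j = ∏ l ∈ (univ.erase i).erase k, (F.a (F.root j) i - F.a (F.root j) l) := by
    have ea : F.a (F.root j) j.1.1.1 = F.a (F.root j) i := by
      rcases hi with a | a
      · rw [a]
      · rw [a, a_root h]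
    rw [HS.gam, ea]
    refine prod_congr ?_ fun _ _ => rfl
    ext l
    simp only [mem_filter, mem_univ, true_and, mem_erase, and_true, On] at *
    grind
  have e4 := uu_U (F := F) (v := F.root j) (h.sum · _) (i := i) (t := (univ.erase i).erase k)
    fun a => notMem_erase _ _ (mem_of_mem_erase a)
  simp only [HS.del, e1, e2, uw, if_true, if_neg c.symm, prod_empty, mul_one, Rat.cast_id] at e4 ⊢
  rw [← mul_prod_erase _ _ (mem_erase.2 ⟨c.symm, mem_univ k⟩), mul_assoc (uu F i k), e4, ← e3]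
  ring

theorem gd_one (tw : TWStmt) (h : F.Bas) (i : Vx g) : F.Gd (uw F i) (cut n {i}) := by
  refine ⟨⟨fun k => ?_, ?_, fun k => ?_, fun j => ?_⟩, ?_⟩
  · unfold uw
    split_ifs
    exacts [prod_ne_zero_iff.2 fun l _ => uu_ne h _ _, uu_ne h _ _]
  · have e : ∏ k ∈ univ.erase i, uw F i k = ∏ k ∈ univ.erase i, uu F i k :=
      prod_congr rfl fun k hk => if_neg (ne_of_mem_erase hk)
    rw [← mul_prod_erase _ _ (mem_univ i), e, uw, if_pos rfl]
    exact ⟨_, rfl⟩
  · by_cases c : k = i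
    · subst c
      rw [cut_eq, card_biUnion (S_dis (notMem_erase _ _))]
      exact even_sum _ fun l hl => by rw [S_card (ne_of_mem_erase hl).symm]; exact h.ev
    · rw [cut_ne, S_card (Ne.symm c)]; exact h.ev
  · by_cases c : On i j.1
    · rw [if_pos ((mem_cut1 i j).2 c)]
      rcases c with c | c
      · rw [← c, res_on h (c ▸ ed_ne j.1) j (.inl c) (.inr rfl)]
        exact IsSquare.sq _
      · rw [← c, mul_comm (F.del _ _ _ j.1.1.1), res_on h (c ▸ (ed_ne j.1).symm) j (.inr c) (.inl rfl)]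
        exact IsSquare.sq _
    · have e : (cut n {i}).filter (fun l => l.1 ≠ j.1) = cut n {i} :=
        filter_true_of_mem fun l hl (e : l.1 = j.1) => c (e ▸ (mem_cut1 i l).1 hl)
      rw [if_neg (mt (mem_cut1 i j).1 c), e, del_cut (h.sum · _), del_cut (h.sum · _), tv, tv,
        if_neg fun e => c (.inl e.symm), if_neg fun e => c (.inr e.symm), a_root h, mul_one]
      exact ⟨_, rfl⟩
  · rw [funext (del_cut (sum_gen h) i)]
    exact tw _ _ g _ (cv h) i

theorem gd_cut (grp : GRPStmt) (tw : TWStmt) (h : F.Bas) (α : Finset (Vx g)) :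
    ∃ u, F.Gd u (cut n α) := by
  induction α using Finset.induction_on with
  | empty =>
    obtain ⟨u, hu⟩ : ∃ u, F.Gd u (symmDiff (cut n {0}) (cut n {0})) :=
      ⟨_, gd_mul grp h (gd_one tw h 0) (gd_one tw h 0)⟩
    refine ⟨u, ?_⟩
    convert hu using 1
    simp [cut]
  | insert i α hi ih =>
    obtain ⟨u, hu⟩ := ih
    refine ⟨_, (?_ : symmDiff (cut n {i}) (cut n α) = cut n (insert i α)) ▸
      gd_mul grp h (gd_one tw h i) hu⟩
    ext j
    simp only [cut, mem_symmDiff, mem_filter, mem_univ, true_and, mem_insert, mem_singleton]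
    by_cases a : j.1.1.1 = i <;> by_cases b : j.1.1.2 = i <;> simp [a, b, hi]

theorem cut_compl (α : Finset (Vx g)) : cut n αᶜ = cut n α := by
  ext j
  simp only [cut, mem_filter, mem_univ, true_and, mem_compl]
  tauto

theorem par_inj (hg : 1 ≤ g) (hn : 0 < n) {α α' : Finset (Vx g)} {β β' : Finset (Fin n)}
    (h0 : 0 ∉ α) (h0' : 0 ∉ α')
    (e : symmDiff (cut n α) (lay g β) = symmDiff (cut n α') (lay g β')) : α = α' ∧ β = β' := by
  have key : ∀ (i j : Vx g) (_ : i < j) (k : Fin n),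
      (¬((i ∈ α ↔ j ∉ α) ↔ k ∈ β)) ↔ ¬((i ∈ α' ↔ j ∉ α') ↔ k ∈ β') := fun i j hij k => by
    have := Finset.ext_iff.1 e (⟨(i, j), hij⟩, k)
    simp only [cut, lay, mem_symmDiff, mem_filter, mem_univ, true_and] at this
    grind
  have hb : ∀ k, k ∈ β ↔ k ∈ β' := fun k => by
    have k1 := key 0 ⟨1, by omega⟩ (by simp [Fin.lt_def]) k
    have k2 := key 0 ⟨2, by omega⟩ (by simp [Fin.lt_def]) k
    have k3 := key ⟨1, by omega⟩ ⟨2, by omega⟩ (by simp [Fin.lt_def]) k
    grind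
  refine ⟨Finset.ext fun i => ?_, Finset.ext hb⟩
  by_cases c : i = 0
  · rw [c]; tauto
  · have k1 := key 0 i (Fin.pos_iff_ne_zero.2 c) ⟨0, hn⟩
    have k2 := hb ⟨0, hn⟩
    grind

end Gens

open Gens in
theorem gens3 : GRPStmt → TWStmt → GENSStmt := by
  intro grp tw g n F h
  refine ⟨fun u y u' y' => gd_mul grp h, gd_cut grp tw h, fun r I hI hβ hS => ?_⟩
  have hg : ∀ α, ∀ β ∈ I, ∃ u, F.Gd u (symmDiff (cut n α) (lay g β)) := fun α β hb => by
    obtain ⟨u, hu⟩ := gd_cut grp tw h α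
    obtain ⟨u', hu'⟩ := hβ β hb
    exact ⟨_, gd_mul grp h hu hu'⟩
  refine ⟨h.pos, h.ev, h.c0, h.ne, h.sum, ?_, fun u y hy => ?_⟩
  · have e : {y | ∃ u, F.InS u y} = ↑(((univ.erase (0 : Vx g)).powerset ×ˢ I).image
        fun x => symmDiff (cut n x.1) (lay g x.2)) := by
      ext y
      simp only [Set.mem_ofPred_eq, coe_image, Set.mem_image, mem_coe, mem_product, mem_powerset]
      constructor
      · rintro ⟨u, hu⟩
        obtain ⟨α, β, hb, rfl⟩ := hS u y hu
        by_cases c : 0 ∈ α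
        · exact ⟨(αᶜ, β), ⟨fun i hi => mem_erase.2 ⟨fun e => mem_compl.1 hi (e ▸ c), mem_univ _⟩,
            hb⟩, by rw [cut_compl]⟩
        · exact ⟨(α, β), ⟨fun i hi => mem_erase.2 ⟨fun e => c (e ▸ hi), mem_univ _⟩, hb⟩, rfl⟩
      · rintro ⟨x, hx, rfl⟩
        exact (hg x.1 x.2 hx.2).imp fun _ k => k.1
    rw [e, Set.ncard_coe_finset, card_image_of_injOn, card_product, card_powerset,
      card_erase_of_mem (mem_univ _), card_univ, card_Vx, hI, pow_add, Nat.add_sub_cancel]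
    intro x hx x' hx' e
    have k := fun {z : Finset (Vx g) × Finset (Fin n)}
      (hz : z ∈ (univ.erase (0 : Vx g)).powerset ×ˢ I) (c : 0 ∈ z.1) =>
        notMem_erase _ _ (mem_powerset.1 (mem_product.1 hz).1 c)
    exact Prod.ext_iff.2 (par_inj h.pos h.n0 (k hx) (k hx') e)
  · obtain ⟨α, β, hb, rfl⟩ := hS u y hy
    obtain ⟨u', hu'⟩ := hg α β hb
    exact (gd_of h hy hu').2

end Pool.Agent.MP_a43263_nt.JC
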