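import Pool.Agent.MP_a43263_nt.JC.XSpec

/-! THEOREM J, examples: the residue group of the hyperbolic family. -/

set_option autoImplicit false

noncomputable section

namespace Pool.Agent.MP_a43263_nt.JC

open Finset

namespace Hyb

variable {g : ℕ} {l : Vx g → ℤ}

/-! ### pairs -/

theorem ed_eq {e e' : Ed g} (h1 : On e.1.1 e') (h2 : On e.1.2 e') : e = e' := by
  have h3 := e.2
  have h4 := e'.2
  simp only [On, Fin.lt_def, Fin.ext_iff] at h1 h2 h3 h4
  refine Subtype.ext (Prod.ext (Fin.ext ?_) (Fin.ext ?_)) <;> omega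

theorem ed_of {e e' : Ed g} {i j : Vx g} (hij : i ≠ j) (hi : On i e) (hj : On j e) (hi' : On i e')
    (hj' : On j e') : e = e' := by
  rcases hi with rfl | rfl <;> rcases hj with rfl | rfl
  exacts [absurd rfl hij, ed_eq hi' hj', ed_eq hj' hi', absurd rfl hij]

theorem other {e : Ed g} {i : Vx g} (hi : On i e) :
    ∃ m, i ≠ m ∧ On m e ∧ ∀ c, On c e → c = i ∨ c = m := by
  rcases hi with rfl | rfl
  · exact ⟨_, ed_ne e, .inr rfl, fun _ h => h⟩
  · exact ⟨_, (ed_ne e).symm, .inl rfl, fun _ h => h.symm⟩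

/-- a symmetric function of pairs that agrees on adjacent pairs is constant -/
theorem const {ι A : Type} (S : ι → Prop) (f : ι → ι → A) (hs : ∀ i j, f i j = f j i)
    (h : ∀ i j k, S i → S j → S k → i ≠ j → j ≠ k → i ≠ k → f i j = f j k) {i j k m : ι}
    (hi : S i) (hj : S j) (hk : S k) (hm : S m) (hij : i ≠ j) (hkm : k ≠ m) : f i j = f k m := by
  have h1 : ∀ i j m, S i → S j → S m → i ≠ j → i ≠ m → f i j = f i m := fun i j m hi hj hm a b => by
    by_cases c : j = m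
    · rw [c]
    · rw [hs i j, h j i m hj hi hm a.symm b c]
  by_cases c : i = k
  · subst c; exact h1 i j m hi hj hm hij hkm
  · rw [h1 i j k hi hj hk hij c, hs i k]
    exact h1 k i m hk hi hm (Ne.symm c) hkm

/-! ### signed sums -/

def two (c d : Vx g) (s : SignType) : Vx g → SignType :=
  fun x => if x = c then 1 else if x = d then s else 0

theorem sum_two (l : Vx g → ℤ) {c d : Vx g} {s : SignType} (h : c ≠ d ∨ s = 0) :
    ∑ x, (two c d s x : ℤ) * l x = l c + s * l d := by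
  have h1 : ∀ x, (two c d s x : ℤ) * l x =
      (if x = c then l x else 0) + if x = d then s * l x else 0 := fun x => by
    unfold two
    by_cases a : x = c
    · by_cases b : x = d
      · rcases h with h | h
        · exact absurd (a.symm.trans b) h
        · simp [a, h]
      · simp [a, a ▸ b]
    · by_cases b : x = d
      · simp [b, b ▸ a]
      · simp [a, b]
  simp only [h1, sum_add_distrib, sum_ite_eq', mem_univ, if_true]

theorem two_c (c d : Vx g) (s : SignType) : two c d s c = 1 := if_pos rfl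

theorem two_ne (c d : Vx g) (s : SignType) : two c d s ≠ 0 := fun e => by
  have := congrFun e c
  rw [two_c] at this
  exact one_ne_zero this

theorem two_neg {c d x : Vx g} {s : SignType} (h : two c d s x = -1) : x = d ∧ s = -1 := by
  unfold two at h
  split_ifs at h with h1 h2
  exact ⟨h2, h⟩

theorem sum_ne (hl : Priv l) {c d : Vx g} {s : SignType} (h : c ≠ d ∨ s = 0) :
    l c + s * l d ≠ 0 := fun e => by
  obtain ⟨p, -, -, -, h2, -⟩ := hl _ (two_ne c d s)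
  rw [sum_two l h, e] at h2
  exact h2 (dvd_zero _)

theorem l_ne (hl : Priv l) (c : Vx g) : l c ≠ 0 := by
  simpa using sum_ne hl (c := c) (d := c) (.inr rfl)

theorem dl_ne (hl : Priv l) {c d : Vx g} (h : c ≠ d) {s : ℤ} (hs : s = 1 ∨ s = -1) :
    l c + s * l d ≠ 0 := by
  rcases hs with rfl | rfl
  · simpa using sum_ne hl (s := 1) (.inl h)
  · simpa using sum_ne hl (s := -1) (.inl h)

theorem own (hl : Priv l) (i : Vx g) :
    ∃ p : ℤ, Prime p ∧ p ∣ l i ∧ ∀ c, p ∣ l c → i = c := by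
  obtain ⟨p, hp, -, h1, -, h3⟩ := hl _ (two_ne i i 0)
  refine ⟨p, Nat.prime_iff_prime_int.1 hp, by simpa [sum_two l (.inr rfl)] using h1, fun c hc => ?_⟩
  by_contra e
  have h4 : two i i 0 c = 0 := by simp [two, Ne.symm e]
  refine h3 _ (two_ne c c 0) (fun a => ?_) (fun a => ?_) (by simpa [sum_two l (.inr rfl)] using hc)
  all_goals
    have := congrFun a c
    simp [two_c, h4] at this

/-! ### the resultants -/

def ep (σ : Fin 2) : ℤ := ![-1, 1] σ

theorem ep_cases (σ : Fin 2) : ep σ = 1 ∨ ep σ = -1 := by revert σ; decide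

theorem ep_sq (σ : Fin 2) : ep σ * ep σ = 1 := by revert σ; decide

def dl (l : Vx g → ℤ) (h : Ed g × Fin 2) : ℤ := l h.1.1.1 + ep h.2 * l h.1.1.2

def pr (l : Vx g → ℤ) (h : Ed g × Fin 2) : ℤ := ep h.2 * (l h.1.1.1 * l h.1.1.2)

theorem res (l : Vx g → ℤ) (k h : Ed g × Fin 2) :
    (hyb l).LZ k ((hyb l).rootZ h) * (pr l k * pr l h) =
      (∏ i, l i) ^ 2 * (dl l k * dl l h * (pr l k - pr l h)) := by
  have hA : ∀ k, (hyb l).A k = (∏ i, l i) * dl l k := fun k => by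
    change _ * _ + ep k.2 * (_ * _) = _
    rw [dl]; ring
  have hB : ∀ k, (hyb l).B k * pr l k = (∏ i, l i) * dl l k := fun k => by
    have h1 := mul_prod_erase univ l (mem_univ k.1.1.1)
    have h2 := mul_prod_erase univ l (mem_univ k.1.1.2)
    change ((∏ i ∈ univ.erase k.1.1.1, l i) + ep k.2 * ∏ i ∈ univ.erase k.1.1.2, l i) * _ = _
    rw [pr, dl]
    linear_combination ep k.2 * l k.1.1.2 * h1 + l k.1.1.1 * h2 +
      (l k.1.1.1 * l k.1.1.2 * ∏ i ∈ univ.erase k.1.1.2, l i) * ep_sq k.2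
  simp only [HS.LZ, HS.rootZ, hA]
  linear_combination ((∏ i, l i) * dl l k * pr l k) * hB h - ((∏ i, l i) * dl l h * pr l h) * hB k

theorem pr_ne (hl : Priv l) {k h : Ed g × Fin 2} (hk : k ≠ h) : pr l k - pr l h ≠ 0 := fun e => by
  replace e := sub_eq_zero.1 e
  have h1 : ∀ i, l i ∣ pr l k → On i h.1 := fun i hi => by
    obtain ⟨p, hp, h2, h3⟩ := own hl i
    have h4 : p ∣ ep h.2 * pr l h := (e ▸ h2.trans hi).mul_left _
    rw [pr, ← mul_assoc, ep_sq, one_mul] at h4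
    exact (hp.dvd_or_dvd h4).imp (h3 _) (h3 _)
  have h2 : k.1 = h.1 :=
    ed_eq (h1 _ ((dvd_mul_right _ _).mul_left _)) (h1 _ ((dvd_mul_left _ _).mul_left _))
  rw [pr, pr, h2] at e
  have h3 := mul_right_cancel₀ (mul_ne_zero (l_ne hl _) (l_ne hl _)) e
  refine hk (Prod.ext h2 ?_)
  revert h3
  generalize k.2 = σ, h.2 = τ
  revert σ τ
  decide

theorem res_ne (hl : Priv l) {k h : Ed g × Fin 2} (hk : k ≠ h) :
    (hyb l).LZ k ((hyb l).rootZ h) ≠ 0 := fun e => by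
  have h1 := res l k h
  rw [e, zero_mul] at h1
  exact mul_ne_zero (pow_ne_zero _ (prod_ne_zero_iff.2 fun i _ => l_ne hl i))
    (mul_ne_zero (mul_ne_zero (dl_ne hl (ed_ne _) (ep_cases _)) (dl_ne hl (ed_ne _) (ep_cases _)))
      (pr_ne hl hk)) h1.symm

theorem a_sub (l : Vx g → ℤ) (v : ℚ × ℚ) (e : Ed g) :
    (hyb l).a v e.1.2 - (hyb l).a v e.1.1 = (hyb l).L (e, 0) v * (hyb l).L (e, 1) v := by
  have h1 : ∀ i, (hyb l).a v i =
      ((((∏ k, l k) * l 0 : ℤ) : ℚ) * v.1 + ((∏ k ∈ univ.erase 0, l k : ℤ) : ℚ) * v.2) ^ 2 -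
      ((((∏ k, l k) * l i : ℤ) : ℚ) * v.1 + ((∏ k ∈ univ.erase i, l k : ℤ) : ℚ) * v.2) ^ 2 := by
    intro i
    unfold HS.a
    split_ifs with h
    · simp only [HS.D, HS.L, hyb, fam, Fin.prod_univ_two, Matrix.cons_val_zero,
        Matrix.cons_val_one, Int.cast_add, Int.cast_mul, Int.cast_neg, Int.cast_one]
      ring
    · rw [(Fin.pos_iff_ne_zero.not.trans not_not).1 h, sub_self]
  rw [h1, h1]
  simp only [HS.L, hyb, fam, Matrix.cons_val_zero, Matrix.cons_val_one, Int.cast_add,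
    Int.cast_mul, Int.cast_neg, Int.cast_one]
  ring

/-! ### the valuation at the prime of `l a - l b` -/

structure Ch (l : Vx g → ℤ) (a b : Vx g) (w : ℚ → ZMod 2) : Prop where
  mul : ∀ x y, x ≠ 0 → y ≠ 0 → w (x * y) = w x + w y
  neg : ∀ x, w (-x) = w x
  l0 : ∀ c, w (l c) = 0
  dl : ∀ c d (s : ℤ), c ≠ d → s = 1 ∨ s = -1 → w ((l c + s * l d : ℤ) : ℚ) =
    if s = -1 ∧ (c = a ∧ d = b ∨ c = b ∧ d = a) then 1 else 0

theorem exists_ch (hl : Priv l) {a b : Vx g} (hab : a ≠ b) : ∃ w, Ch l a b w := by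
  obtain ⟨p, hp, -, h1, h2, h3⟩ := hl _ (two_ne a b (-1))
  rw [sum_two l (.inl hab)] at h1 h2
  have := Fact.mk hp
  have h0 : ∀ z : ℤ, ¬(p : ℤ) ∣ z → ((padicValRat p z : ℤ) : ZMod 2) = 0 := fun z hz => by
    rw [padicValRat.of_int, padicValInt.eq_zero_of_not_dvd hz]; rfl
  have h4 : ((padicValRat p ((l a + -1 * l b : ℤ) : ℚ) : ℤ) : ZMod 2) = 1 := by
    have e1 := (padicValInt_dvd_iff 1 (l a + -1 * l b)).1 (by simpa using h1)
    have e2 := (padicValInt_dvd_iff (p := p) 2 (l a + -1 * l b)).not.1 (by simpa using h2)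
    rw [padicValRat.of_int, show padicValInt p (l a + -1 * l b) = 1 by omega]; rfl
  have h5 : ∀ c d (s : SignType), c ≠ d ∨ s = 0 →
      ¬(s = -1 ∧ (c = a ∧ d = b ∨ c = b ∧ d = a)) → ¬(p : ℤ) ∣ l c + s * l d := by
    intro c d s h hn
    rw [← sum_two l h]
    refine h3 _ (two_ne c d s) (fun e => hn ?_) fun e => hn ?_
    · have e1 : two c d s b = -1 := by rw [e, two, if_neg hab.symm, if_pos rfl]
      have e2 : two a b (-1) c = 1 := by rw [← e, two_c]
      refine ⟨(two_neg e1).2, .inl ⟨?_, (two_neg e1).1.symm⟩⟩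
      by_contra n
      rw [two, if_neg n] at e2
      split_ifs at e2 <;> exact absurd e2 (by decide)
    · have e1 : two c d s a = -1 := by rw [e, Pi.neg_apply, two_c]
      have e2 : two a b (-1) c = -1 := neg_eq_iff_eq_neg.1 ((congrFun e c).symm.trans (two_c ..))
      exact ⟨(two_neg e1).2, .inr ⟨(two_neg e2).1, (two_neg e1).1.symm⟩⟩
  refine ⟨fun x => ((padicValRat p x : ℤ) : ZMod 2), fun x y hx hy => ?_, fun x => ?_,
    fun c => h0 _ (by simpa using h5 c c 0 (.inr rfl) (by simp)), fun c d s hcd hs => ?_⟩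
  · rw [padicValRat.mul hx hy, Int.cast_add]
  · rw [padicValRat.neg]
  · split_ifs with h
    · obtain ⟨rfl, ⟨rfl, rfl⟩ | ⟨rfl, rfl⟩⟩ := h
      · exact h4
      · rw [← h4, ← padicValRat.neg]
        congr 2
        push_cast
        ring
    · rcases hs with rfl | rfl
      · exact h0 _ (by simpa using h5 c d 1 (.inl hcd) (by simp))
      · exact h0 _ (by simpa using h5 c d (-1) (.inl hcd) (by simpa using h))

variable {a b : Vx g} {w : ℚ → ZMod 2}

theorem Ch.prod (hw : Ch l a b w) {ι : Type} (s : Finset ι) {f : ι → ℚ} (h : ∀ i ∈ s, f i ≠ 0) :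
    w (∏ i ∈ s, f i) = ∑ i ∈ s, w (f i) := by
  classical
  induction s using Finset.induction_on with
  | empty => simpa using hw.mul 1 1 one_ne_zero one_ne_zero
  | insert i s hi ih =>
    have h1 := fun j hj => h j (mem_insert_of_mem hj)
    rw [prod_insert hi, sum_insert hi, hw.mul _ _ (h i (mem_insert_self ..))
      (prod_ne_zero_iff.2 h1), ih h1]

theorem Ch.sq (hw : Ch l a b w) {x : ℚ} (hx : x ≠ 0) (h : IsSquare x) : w x = 0 := by
  obtain ⟨r, rfl⟩ := h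
  rw [hw.mul _ _ (left_ne_zero_of_mul hx) (left_ne_zero_of_mul hx), CharTwo.add_self_eq_zero]

theorem Ch.mulZ (hw : Ch l a b w) {x y : ℤ} (hx : x ≠ 0) (hy : y ≠ 0) :
    w ((x * y : ℤ) : ℚ) = w x + w y := by
  rw [Int.cast_mul, hw.mul _ _ (Int.cast_ne_zero.2 hx) (Int.cast_ne_zero.2 hy)]

theorem Ch.sgn (hw : Ch l a b w) (σ : Fin 2) (x : ℤ) : w ((ep σ * x : ℤ) : ℚ) = w x := by
  rcases ep_cases σ with e | e <;> rw [e]
  · rw [one_mul]
  · rw [neg_one_mul, Int.cast_neg, hw.neg]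

theorem pr_eq (l : Vx g → ℤ) {h : Ed g × Fin 2} {i j : Vx g} (hij : i ≠ j) (hi : On i h.1)
    (hj : On j h.1) : pr l h = ep h.2 * (l i * l j) := by
  rcases hi with rfl | rfl <;> rcases hj with rfl | rfl
  exacts [absurd rfl hij, rfl, by rw [pr, mul_comm (l _)], absurd rfl hij]

theorem Ch.dl_eq (hw : Ch l a b w) {h : Ed g × Fin 2} {i j : Vx g} (hij : i ≠ j) (hi : On i h.1)
    (hj : On j h.1) : w (Hyb.dl l h) =
      if ep h.2 = -1 ∧ (i = a ∧ j = b ∨ i = b ∧ j = a) then 1 else 0 := by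
  rw [← hw.dl i j _ hij (ep_cases _)]
  rcases hi with rfl | rfl <;> rcases hj with rfl | rfl
  · exact absurd rfl hij
  · rfl
  · rw [← hw.sgn h.2]
    congr 2
    rw [Hyb.dl]
    linear_combination l h.1.1.2 * ep_sq h.2
  · exact absurd rfl hij

theorem L_ne (hl : Priv l) {k h : Ed g × Fin 2} (hk : k.1 ≠ h.1) :
    (hyb l).L k ((hyb l).root h) ≠ 0 := by
  rw [HS.L_root]
  exact Int.cast_ne_zero.2 (res_ne hl fun e => hk (congrArg Prod.fst e))

theorem Ch.wL (hw : Ch l a b w) (hl : Priv l) {h k : Ed g × Fin 2} {i j : Vx g} (hij : i ≠ j)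
    (hi : On i h.1) (hj : On j h.1) (hb : ¬On b h.1) (hk : On i k.1) (hne : k.1 ≠ h.1) :
    w ((hyb l).L k ((hyb l).root h)) =
      if On b k.1 ∧ (a = i ∧ k.2 = 0 ∨ a = j ∧ k.2 = h.2) then 1 else 0 := by
  obtain ⟨m, him, hm, hc⟩ := other hk
  have hmj : m ≠ j := fun e => hne (ed_of hij hk (e ▸ hm) hi hj)
  have hkh : k ≠ h := fun e => hne (congrArg Prod.fst e)
  have hbi : i ≠ b := fun e => hb (e ▸ hi)
  have hbj : j ≠ b := fun e => hb (e ▸ hj)
  have hp : ∀ h, pr l h ≠ 0 ∧ w (pr l h) = 0 := fun h =>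
    ⟨mul_ne_zero (left_ne_zero_of_mul_eq_one (ep_sq _)) (mul_ne_zero (l_ne hl _) (l_ne hl _)), by
      rw [pr, hw.sgn, hw.mulZ (l_ne hl _) (l_ne hl _), hw.l0, hw.l0, add_zero]⟩
  have hd : ∀ h, Hyb.dl l h ≠ 0 := fun h => dl_ne hl (ed_ne _) (ep_cases _)
  have hL : (∏ i, l i) ^ 2 ≠ 0 := pow_ne_zero _ (prod_ne_zero_iff.2 fun i _ => l_ne hl i)
  have hs : -(ep k.2 * ep h.2) = 1 ∨ -(ep k.2 * ep h.2) = -1 := by
    generalize k.2 = σ, h.2 = τ
    revert σ τ
    decide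
  have h1 : w ((_ : ℤ) : ℚ) = w ((_ : ℤ) : ℚ) := congrArg (fun z : ℤ => w z) (res l k h)
  have h2 : pr l k - pr l h = ep k.2 * (l i * (l m + -(ep k.2 * ep h.2) * l j)) := by
    rw [pr_eq l him hk hm, pr_eq l hij hi hj]
    linear_combination ep h.2 * l i * l j * ep_sq k.2
  rw [hw.mulZ (res_ne hl hkh) (mul_ne_zero (hp k).1 (hp h).1), hw.mulZ (hp k).1 (hp h).1,
    (hp k).2, (hp h).2, hw.mulZ hL (mul_ne_zero (mul_ne_zero (hd k) (hd h)) (pr_ne hl hkh)),
    hw.sq (Int.cast_ne_zero.2 hL) ⟨(∏ i, l i : ℤ), by rw [_root_.sq, Int.cast_mul]⟩,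
    hw.mulZ (mul_ne_zero (hd k) (hd h)) (pr_ne hl hkh), hw.mulZ (hd k) (hd h), h2, hw.sgn,
    hw.mulZ (l_ne hl i) (dl_ne hl hmj hs), hw.l0, hw.dl m j _ hmj hs, hw.dl_eq him hk hm,
    hw.dl_eq hij hi hj] at h1
  have e1 : ∀ σ, ep σ = -1 ↔ σ = 0 := by decide
  have e2 : ∀ σ τ, -(ep σ * ep τ) = -1 ↔ σ = τ := by decide
  have e3 : On b k.1 ↔ m = b := ⟨fun c => ((hc b c).resolve_left hbi.symm).symm, fun c => c ▸ hm⟩
  rw [HS.L_root]
  simp only [add_zero, zero_add, e1, e2, hbi, hbj, and_false, false_and, or_false, false_or,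
    if_false] at h1
  rw [h1]
  simp only [e3]
  by_cases c1 : m = b
  · by_cases c2 : i = a
    · subst c2
      simp [c1, hij, hij.symm]
    · simp [c1, c2, Ne.symm c2, and_comm, eq_comm]
  · simp [c1]

/-! ### the residue conditions -/

def Y (y : Finset (Ed g × Fin 2)) (c d : Vx g) (σ : Fin 2) : ZMod 2 :=
  ∑ k ∈ y, if On c k.1 ∧ On d k.1 ∧ k.2 = σ then 1 else 0

theorem Y_comm (y : Finset (Ed g × Fin 2)) (c d : Vx g) (σ : Fin 2) : Y y c d σ = Y y d c σ := by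
  simp only [Y, and_left_comm]

theorem Y_eq (y : Finset (Ed g × Fin 2)) (h : Ed g × Fin 2) :
    Y y h.1.1.1 h.1.1.2 h.2 = if h ∈ y then 1 else 0 := by
  rw [Y, ← sum_ite_eq' y h fun _ => (1 : ZMod 2)]
  refine sum_congr rfl fun k _ => if_congr ⟨fun c => ?_, ?_⟩ rfl rfl
  · exact Prod.ext (ed_eq c.1 c.2.1).symm c.2.2
  · rintro rfl
    exact ⟨.inl rfl, .inr rfl, rfl⟩

theorem Ch.del (hw : Ch l a b w) (hl : Priv l) {u : Vx g → ℚ} (hu : ∀ i, u i ≠ 0)
    (y : Finset (Ed g × Fin 2)) {h : Ed g × Fin 2} {i j : Vx g} (hij : i ≠ j)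
    (hi : On i h.1) (hj : On j h.1) (hb : ¬On b h.1) :
    (hyb l).del u (y.filter fun k => k.1 ≠ h.1) ((hyb l).root h) i ≠ 0 ∧
    w ((hyb l).del u (y.filter fun k => k.1 ≠ h.1) ((hyb l).root h) i) = w (u i) +
      ((if a = i then Y y i b 0 else 0) + if a = j then Y y i b h.2 else 0) := by
  have h1 : ∀ k ∈ (y.filter fun k => k.1 ≠ h.1).filter fun k => On i k.1,
      (hyb l).L k ((hyb l).root h) ≠ 0 := fun k hk => L_ne hl (mem_filter.1 (mem_filter.1 hk).1).2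
  have h2 := prod_ne_zero_iff.2 h1
  rw [HS.del, Rat.cast_id]
  refine ⟨mul_ne_zero (hu i) h2, ?_⟩
  rw [hw.mul _ _ (hu i) h2, hw.prod _ h1, sum_congr rfl fun k hk => hw.wL hl hij hi hj hb
    (mem_filter.1 hk).2 (mem_filter.1 (mem_filter.1 hk).1).2, filter_filter, sum_filter]
  congr 1
  have h3 : ∀ (k : Ed g × Fin 2) (P : Prop) [Decidable P],
      (if k.1 ≠ h.1 ∧ On i k.1 then if On b k.1 ∧ P then (1 : ZMod 2) else 0 else 0) =
        if On i k.1 ∧ On b k.1 ∧ P then 1 else 0 := fun k P _ => by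
    rw [← ite_and]
    exact if_congr ⟨fun c => ⟨c.1.2, c.2⟩, fun c => ⟨⟨fun e => hb (e ▸ c.2.1), c.1⟩, c.2⟩⟩ rfl rfl
  simp only [h3]
  by_cases c1 : a = i
  · subst c1
    simp [Y, hij]
  · by_cases c2 : a = j
    · subst c2
      simp [Y, c1]
    · simp [c1, c2]

theorem Ch.gam (hw : Ch l a b w) (hl : Priv l) {h : Ed g × Fin 2} (hb : ¬On b h.1) :
    (hyb l).gam h ≠ 0 ∧ w ((hyb l).gam h) = if On a h.1 then 1 else 0 := by
  have h1 : ∀ m ∈ univ.filter (fun m => ¬On m h.1),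
      (hyb l).a ((hyb l).root h) h.1.1.1 - (hyb l).a ((hyb l).root h) m ≠ 0 ∧
      w ((hyb l).a ((hyb l).root h) h.1.1.1 - (hyb l).a ((hyb l).root h) m) =
        if m = b then (if On a h.1 then 1 else 0) else 0 := fun m hm => by
    replace hm := (mem_filter.1 hm).2
    have him : h.1.1.1 ≠ m := fun e => hm (.inl e.symm)
    have key : ∀ e : Ed g, On h.1.1.1 e → On m e →
        (hyb l).L (e, 0) ((hyb l).root h) * (hyb l).L (e, 1) ((hyb l).root h) ≠ 0 ∧
        w ((hyb l).L (e, 0) ((hyb l).root h) * (hyb l).L (e, 1) ((hyb l).root h)) =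
          if m = b then (if On a h.1 then 1 else 0) else 0 := fun e h1 h2 => by
      have hne : ∀ σ : Fin 2, (e, σ).1 ≠ h.1 := fun _ c => hm (c ▸ h2)
      have h3 := fun σ => hw.wL hl (k := (e, σ)) (ed_ne h.1) (.inl rfl) (.inr rfl) hb h1 (hne σ)
      refine ⟨mul_ne_zero (L_ne hl (hne 0)) (L_ne hl (hne 1)), ?_⟩
      rw [hw.mul _ _ (L_ne hl (hne 0)) (L_ne hl (hne 1)), h3, h3]
      have e3 : On b e ↔ m = b := by
        obtain ⟨m', -, -, h4⟩ := other h1
        refine ⟨fun c => ?_, fun c => c ▸ h2⟩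
        exact ((h4 m h2).resolve_left him.symm).trans
          ((h4 b c).resolve_left fun c => hb (.inl c)).symm
      have e4 := ed_ne h.1
      simp only [e3]
      generalize h.2 = σ
      by_cases c1 : m = b
      · by_cases c2 : a = h.1.1.1
        · simp [c1, c2, e4]
        · by_cases c3 : a = h.1.1.2
          · fin_cases σ <;> simp [c1, c3, e4.symm]
          · simp [c2, c3]
      · simp [c1]
    obtain ⟨e, ⟨h2, h3⟩ | ⟨h2, h3⟩⟩ := exists_ed him
    · have := key e (.inl h2.symm) (.inr h3.symm)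
      rw [← a_sub, h2, h3, ← neg_sub, hw.neg, neg_ne_zero] at this
      exact this
    · have := key e (.inr h3.symm) (.inl h2.symm)
      rwa [← a_sub, h2, h3] at this
  refine ⟨prod_ne_zero_iff.2 fun m hm => (h1 m hm).1, ?_⟩
  rw [HS.gam, hw.prod _ fun m hm => (h1 m hm).1, sum_congr rfl fun m hm => (h1 m hm).2,
    sum_ite_eq']
  exact if_pos (mem_filter.2 ⟨mem_univ b, hb⟩)

theorem Ch.cond (hw : Ch l a b w) (hl : Priv l) {u : Vx g → ℚ} {y : Finset (Ed g × Fin 2)}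
    (hS : (hyb l).InS u y) {i j : Vx g} (σ : Fin 2) (hij : i ≠ j) (hi : i ≠ b) (hj : j ≠ b) :
    w (u i) + w (u j) + ((if a = i then Y y i b 0 + Y y j b σ + Y y i j σ else 0) +
      if a = j then Y y j b 0 + Y y i b σ + Y y i j σ else 0) = 0 := by
  wlog hlt : i < j generalizing i j
  · have := this hij.symm hj hi ((lt_or_gt_of_ne hij).resolve_left hlt)
    rw [Y_comm y j i] at this
    linear_combination this
  obtain ⟨h, rfl, rfl, rfl⟩ : ∃ h : Ed g × Fin 2, h.1.1.1 = i ∧ h.1.1.2 = j ∧ h.2 = σ :=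
    ⟨(⟨(i, j), hlt⟩, σ), rfl, rfl, rfl⟩
  have hb : ¬On b h.1 := fun c => c.elim (fun c => hi c.symm) fun c => hj c.symm
  obtain ⟨n1, e1⟩ := hw.del hl hS.1 y hij (.inl rfl) (.inr rfl) hb
  obtain ⟨n2, e2⟩ := hw.del hl hS.1 y hij.symm (.inr rfl) (.inl rfl) hb
  obtain ⟨n3, e3⟩ := hw.gam hl hb
  have n4 : (if h ∈ y then (hyb l).gam h else 1) ≠ 0 := by
    split_ifs
    exacts [n3, one_ne_zero]
  have e4 : w (if h ∈ y then (hyb l).gam h else 1) =
      if On a h.1 then Y y h.1.1.1 h.1.1.2 h.2 else 0 := by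
    rw [Y_eq]
    by_cases c : h ∈ y
    · simp only [c, if_true, e3]
    · simp only [c, if_false, ite_self, hw.sq one_ne_zero IsSquare.one]
  have h1 := hw.sq (mul_ne_zero (mul_ne_zero n1 n2) n4) (hS.2.2.2 h)
  rw [hw.mul _ _ (mul_ne_zero n1 n2) n4, hw.mul _ _ n1 n2, e1, e2, e4] at h1
  by_cases c1 : a = h.1.1.1
  · simp only [c1, hij, On, if_true, if_false, true_or] at h1 ⊢
    linear_combination h1
  · by_cases c2 : a = h.1.1.2
    · simp only [c2, hij.symm, On, if_true, if_false, or_true] at h1 ⊢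
      linear_combination h1
    · simp only [c1, c2, On, if_false, or_self] at h1 ⊢
      linear_combination h1

end Hyb

open Hyb

theorem hyb3 : HYBStmt := by
  intro g l hg hl
  refine ⟨fun h k hk => res_ne hl hk, fun u y hS => ?_⟩
  have h2 : (2 : ZMod 2) = 0 := rfl
  have hz : ∀ i j k : Vx g, True → True → True → i ≠ j → j ≠ k → i ≠ k →
      Y y i j 0 + Y y i j 1 = Y y j k 0 + Y y j k 1 := fun i j k _ _ _ hij hjk hik => by
    obtain ⟨w, hw⟩ := exists_ch hl hik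
    have e0 := hw.cond hl hS 0 hij hik hjk
    have e1 := hw.cond hl hS 1 hij hik hjk
    rw [if_pos rfl, if_neg hij] at e0 e1
    linear_combination e0 + e1 - (w (u i) + w (u j) + Y y i k 0 + Y y j k 0 + Y y j k 1) * h2
  have h4 : ∀ i j k : Vx g, i ≠ 0 → j ≠ 0 → k ≠ 0 → i ≠ j → j ≠ k → i ≠ k →
      Y y i j 0 + (Y y i 0 0 + Y y j 0 0) = Y y j k 0 + (Y y j 0 0 + Y y k 0 0) :=
    fun i j k hi hj hk hij hjk hik => by
    obtain ⟨w, hw⟩ := exists_ch hl hj
    have e0 := hw.cond hl hS 0 hij hi hj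
    have e1 := hw.cond hl hS 0 hjk hj hk
    have e2 := hw.cond hl hS 0 hik hi hk
    rw [if_neg hij.symm, if_pos rfl] at e0
    rw [if_pos rfl, if_neg hjk] at e1
    rw [if_neg hij.symm, if_neg hjk] at e2
    linear_combination e0 + e1 + e2 -
      (w (u i) + w (u j) + w (u k) + Y y j 0 0 + Y y j k 0 + Y y k 0 0) * h2
  obtain ⟨i1, i2, n1, n2, n3⟩ : ∃ i1 i2 : Vx g, i1 ≠ 0 ∧ i2 ≠ 0 ∧ i1 ≠ i2 :=
    ⟨⟨1, by omega⟩, ⟨2, by omega⟩, by simp [Fin.ext_iff], by simp [Fin.ext_iff],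
      by simp [Fin.ext_iff]⟩
  obtain ⟨z, hz⟩ : ∃ z, ∀ i j, i ≠ j → Y y i j 0 + Y y i j 1 = z :=
    ⟨_, fun i j hij => const (fun _ => True) (fun i j => Y y i j 0 + Y y i j 1)
      (fun i j => by rw [Y_comm y i j, Y_comm y i j]) hz trivial trivial trivial trivial hij n3⟩
  obtain ⟨t, ht⟩ : ∃ t, ∀ i j, i ≠ 0 → j ≠ 0 → i ≠ j → Y y i j 0 + (Y y i 0 0 + Y y j 0 0) = t :=
    ⟨_, fun i j hi hj hij => const (· ≠ 0) (fun i j => Y y i j 0 + (Y y i 0 0 + Y y j 0 0))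
      (fun i j => by rw [Y_comm y i j, add_comm (Y y i 0 0)]) h4 hi hj n1 n2 hij n3⟩
  obtain ⟨al, hal⟩ : ∃ al : Vx g → ZMod 2, ∀ e : Ed g,
      Y y e.1.1 e.1.2 0 = al e.1.1 + al e.1.2 + t := by
    refine ⟨fun i => if i = 0 then 0 else Y y i 0 0 + t, fun e => ?_⟩
    have c2 : e.1.2 ≠ 0 := (lt_of_le_of_lt (Fin.zero_le _) e.2).ne'
    by_cases c1 : e.1.1 = 0
    · simp only [c1, c2, if_true, if_false]
      linear_combination Y_comm y 0 e.1.2 0 - t * h2
    · simp only [c1, c2, if_false]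
      linear_combination ht _ _ c1 c2 (ed_ne e) - (Y y e.1.1 0 0 + Y y e.1.2 0 0 + t) * h2
  refine ⟨univ.filter fun i => al i = 1, univ.filter fun σ => ![t, t + z] σ = 1, ?_⟩
  ext ⟨e, σ⟩
  have h5 : Y y e.1.1 e.1.2 σ = al e.1.1 + al e.1.2 + ![t, t + z] σ := by
    fin_cases σ
    · exact hal e
    · change Y y e.1.1 e.1.2 1 = _ + (t + z)
      linear_combination hz _ _ (ed_ne e) + hal e - Y y e.1.1 e.1.2 0 * h2
  have h6 : (e, σ) ∈ y ↔ Y y e.1.1 e.1.2 σ = 1 := by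
    rw [Y_eq y (e, σ)]
    split_ifs with c <;> simp [c]
  rw [h6, h5]
  simp only [mem_symmDiff, cut, lay, mem_filter, mem_univ, true_and]
  generalize al e.1.1 = A, al e.1.2 = B, ![t, t + z] σ = C
  revert A B C
  decide

end Pool.Agent.MP_a43263_nt.JC
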