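import Pool.Agent.MP_a43263_nt.JC.JSpec

/-! THEOREM J: the calculus of Mumford ideals and norms. -/

set_option autoImplicit false

noncomputable section

namespace Pool.Agent.MP_a43263_nt.JC

open Polynomial

namespace Mum

section ring

variable {S : Type} [CommRing S]

theorem l1 (u p : S) : u ∈ Ideal.span {u, p} := Ideal.subset_span (by simp)

theorem l2 (u p : S) : p ∈ Ideal.span {u, p} := Ideal.subset_span (by simp)

theorem prodA {u w p q α β γ : S} (hpq : p * q = u * w) (h : α * u + β * (q - p) + γ * w = 1) :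
    Ideal.span {u, p} * Ideal.span {u, q} = Ideal.span {u} := by
  refine le_antisymm ?_ ?_
  · rw [Ideal.span_pair_mul_span_pair, Ideal.span_le]
    rintro x (rfl | rfl | rfl | rfl) <;> refine Ideal.mem_span_singleton.2 ?_
    exacts [dvd_mul_right _ _, dvd_mul_right _ _, dvd_mul_left _ _, ⟨w, hpq⟩]
  · rw [Ideal.span_singleton_le_iff_mem]
    have e : u = α * (u * u) + β * (u * q - p * u) + γ * (p * q) := by
      linear_combination (-u) * h - γ * hpq
    have k : α * (u * u) + β * (u * q - p * u) + γ * (p * q) ∈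
        Ideal.span {u, p} * Ideal.span {u, q} :=
      add_mem (add_mem (Ideal.mul_mem_left _ _ (Ideal.mul_mem_mul (l1 _ _) (l1 _ _)))
        (Ideal.mul_mem_left _ _ (sub_mem (Ideal.mul_mem_mul (l1 _ _) (l2 _ _))
          (Ideal.mul_mem_mul (l2 _ _) (l1 _ _)))))
        (Ideal.mul_mem_left _ _ (Ideal.mul_mem_mul (l2 _ _) (l2 _ _)))
    rwa [← e] at k

theorem prodB {u u' p v t α β γ : S} (hp : p * p = u * u' * t - v * p)
    (h : α * u + β * u' + γ * v = 1) :
    Ideal.span {u, p} * Ideal.span {u', p} = Ideal.span {u * u', p} := by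
  refine le_antisymm ?_ ?_
  · rw [Ideal.span_pair_mul_span_pair, Ideal.span_le]
    rintro x (rfl | rfl | rfl | rfl)
    exacts [l1 _ _, Ideal.mul_mem_left _ _ (l2 _ _), Ideal.mul_mem_right _ _ (l2 _ _),
      Ideal.mul_mem_left _ _ (l2 _ _)]
  · rw [Ideal.span_le]
    have k1 : u * u' ∈ Ideal.span {u, p} * Ideal.span {u', p} :=
      Ideal.mul_mem_mul (l1 _ _) (l1 _ _)
    rintro x (rfl | rfl)
    · exact k1
    · have e : x = α * (u * x) + β * (x * u') + γ * (u * u' * t - x * x) := by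
        linear_combination (-x) * h + γ * hp
      have k : α * (u * x) + β * (x * u') + γ * (u * u' * t - x * x) ∈
          Ideal.span {u, x} * Ideal.span {u', x} :=
        add_mem (add_mem (Ideal.mul_mem_left _ _ (Ideal.mul_mem_mul (l1 _ _) (l2 _ _)))
          (Ideal.mul_mem_left _ _ (Ideal.mul_mem_mul (l2 _ _) (l1 _ _))))
          (Ideal.mul_mem_left _ _ (sub_mem (Ideal.mul_mem_right _ _ k1)
            (Ideal.mul_mem_mul (l2 _ _) (l2 _ _))))
      rwa [← e] at k

end ring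

variable {K : Type} [Field K] {f : K[X]}

theorem bez (hf : Squarefree f) {U V W : K[X]} (h : ∀ d, d ∣ U → d ∣ V → d ∣ W → d * d ∣ f) :
    ∃ α β γ, α * U + β * V + γ * W = 1 := by
  obtain ⟨d, hd⟩ := (IsPrincipalIdealRing.principal (Ideal.span {U, V, W})).principal
  have m : ∀ x ∈ ({U, V, W} : Set K[X]), d ∣ x := fun x hx =>
    Ideal.mem_span_singleton.1 (by
      have := Ideal.subset_span (α := K[X]) hx
      rw [hd] at this
      exact this)
  have u : IsUnit d := hf d (h d (m _ (by simp)) (m _ (by simp)) (m _ (by simp)))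
  have o : (1 : K[X]) ∈ Ideal.span {U, V, W} := by
    rw [hd]
    exact Ideal.mem_span_singleton.2 u.dvd
  obtain ⟨α, z, hz, e⟩ := Ideal.mem_span_insert.1 o
  obtain ⟨β, γ, rfl⟩ := Ideal.mem_span_pair.1 hz
  exact ⟨α, β, γ, by rw [e]; ring⟩

theorem two_unit [CharZero K] : IsUnit (2 : K[X]) := by
  have : (2 : K[X]) = C 2 := (map_ofNat C 2).symm
  rw [this]
  exact isUnit_C.2 (two_ne_zero (α := K)).isUnit

theorem norm_eq (h : Rg f) : QuadraticAlgebra.norm h = h.re ^ 2 - f * h.im ^ 2 := by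
  rw [QuadraticAlgebra.norm_def]
  ring

theorem norm_ne (hf : f ≠ 0) (ho : Odd f.natDegree) {h : Rg f} (h0 : h ≠ 0) :
    QuadraticAlgebra.norm h ≠ 0 := by
  rw [norm_eq, sub_ne_zero]
  intro e
  by_cases c : h.im = 0
  · rw [c] at e
    refine h0 (QuadraticAlgebra.ext ?_ c)
    simpa using e
  · have d := congrArg natDegree e
    rw [natDegree_mul hf (pow_ne_zero _ c), natDegree_pow, natDegree_pow] at d
    obtain ⟨n, hn⟩ := ho
    omega

theorem domain (hf : f ≠ 0) (ho : Odd f.natDegree) : IsDomain (Rg f) := by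
  have : NoZeroDivisors (Rg f) := ⟨fun {x y} e => by
    by_contra c
    push Not at c
    refine mul_ne_zero (norm_ne hf ho c.1) (norm_ne hf ho c.2) ?_
    rw [← map_mul, e, QuadraticAlgebra.norm_zero]⟩
  exact NoZeroDivisors.to_isDomain _

theorem star_c (u : K[X]) : starRingEnd (Rg f) ⟨u, 0⟩ = ⟨u, 0⟩ := by
  rw [starRingEnd_apply]
  ext1 <;> simp

theorem c_mul (u w : K[X]) : (⟨u, 0⟩ : Rg f) * ⟨w, 0⟩ = ⟨u * w, 0⟩ := by
  ext1 <;> simp

theorem cj_span (h : Rg f) : cj (Ideal.span {h}) = Ideal.span {star h} := by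
  rw [cj, Ideal.map_span, Set.image_singleton, starRingEnd_apply]

theorem cj_PI (u : K[X]) : cj (PI f u) = PI f u := by
  rw [PI, cj, Ideal.map_span, Set.image_singleton, star_c]

theorem cj_mul (I J : Ideal (Rg f)) : cj (I * J) = cj I * cj J := Ideal.map_mul _ _ _

theorem cj_cj (I : Ideal (Rg f)) : cj (cj I) = I := by
  rw [cj, cj, Ideal.map_map]
  have : (starRingEnd (Rg f)).comp (starRingEnd (Rg f)) = RingHom.id _ :=
    RingHom.ext fun x => star_star x
  rw [this, Ideal.map_id]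

theorem cj_top : cj (⊤ : Ideal (Rg f)) = ⊤ := Ideal.map_top _

theorem cj_MI (U V : K[X]) : cj (MI f U V) = MI f U (-V) := by
  have e : starRingEnd (Rg f) ⟨-V, 1⟩ = -⟨- -V, 1⟩ := by
    rw [starRingEnd_apply]
    ext1 <;> simp
  rw [MI, MI, cj, Ideal.map_span, Set.image_pair, star_c, e, Ideal.span_insert,
    Ideal.span_singleton_neg, ← Ideal.span_insert]

theorem PI_mul (u w : K[X]) : PI f u * PI f w = PI f (u * w) := by
  rw [PI, PI, PI, Ideal.span_singleton_mul_span_singleton, c_mul]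

theorem PI_one : PI f 1 = ⊤ := Ideal.span_singleton_one

theorem PI_le {u w : K[X]} : PI f u ≤ PI f w ↔ w ∣ u := by
  rw [PI, PI, Ideal.span_singleton_le_span_singleton]
  exact QuadraticAlgebra.algebraMap_dvd_iff_dvd

theorem PI_eq {u w : K[X]} : PI f u = PI f w ↔ Associated u w := by
  rw [le_antisymm_iff, PI_le, PI_le, and_comm, dvd_dvd_iff_associated]

theorem span_mul_cj (h : Rg f) :
    Ideal.span {h} * cj (Ideal.span {h}) = PI f (QuadraticAlgebra.norm h) := by
  rw [cj_span, Ideal.span_singleton_mul_span_singleton,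
    ← QuadraticAlgebra.algebraMap_norm_eq_mul_star]
  rfl

theorem MI_conj [CharZero K] (hf : Squarefree f) {U V : K[X]} (h : U ∣ f - V ^ 2) :
    MI f U V * MI f U (-V) = PI f U := by
  obtain ⟨W, e⟩ := h
  obtain ⟨α, β, γ, k⟩ := bez hf (U := U) (V := 2 * V) (W := W) fun d h1 h2 h3 => by
    have h4 : d ∣ V := two_unit.dvd_mul_left.1 h2
    rw [show f = U * W + V * V by linear_combination e]
    exact dvd_add (mul_dvd_mul h1 h3) (mul_dvd_mul h4 h4)
  refine prodA (w := ⟨W, 0⟩) (α := ⟨α, 0⟩) (β := ⟨β, 0⟩) (γ := ⟨γ, 0⟩) ?_ ?_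
  · ext1
    · simp only [QuadraticAlgebra.re_mul]
      linear_combination e
    · simp
  · ext1
    · simp only [QuadraticAlgebra.re_mul, QuadraticAlgebra.re_add, QuadraticAlgebra.re_sub,
        QuadraticAlgebra.re_one]
      linear_combination k
    · simp [QuadraticAlgebra.im_one]

theorem MI_mul [CharZero K] (hf : Squarefree f) {U U' V : K[X]} (h : U * U' ∣ f - V ^ 2) :
    MI f U V * MI f U' V = MI f (U * U') V := by
  obtain ⟨W, e⟩ := h
  obtain ⟨α, β, γ, k⟩ := bez hf (U := U) (V := U') (W := 2 * V) fun d h1 h2 h3 => by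
    have h4 : d ∣ V := two_unit.dvd_mul_left.1 h3
    rw [show f = U * U' * W + V * V by linear_combination e]
    exact dvd_add ((mul_dvd_mul h1 h2).mul_right _) (mul_dvd_mul h4 h4)
  rw [MI, MI, MI, ← c_mul]
  refine prodB (v := ⟨2 * V, 0⟩) (t := ⟨W, 0⟩) (α := ⟨α, 0⟩) (β := ⟨β, 0⟩) (γ := ⟨γ, 0⟩) ?_ ?_
  · ext1
    · simp only [QuadraticAlgebra.re_mul, QuadraticAlgebra.im_mul, QuadraticAlgebra.re_sub]
      linear_combination e
    · simp only [QuadraticAlgebra.re_mul, QuadraticAlgebra.im_mul, QuadraticAlgebra.im_sub]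
      ring
  · ext1
    · simp only [QuadraticAlgebra.re_mul, QuadraticAlgebra.re_add, QuadraticAlgebra.re_one]
      linear_combination k
    · simp [QuadraticAlgebra.im_one]

theorem MI_norm (V : K[X]) : MI f (f - V ^ 2) V = Ideal.span {⟨-V, 1⟩} := by
  refine le_antisymm ?_ (Ideal.span_mono (by simp))
  rw [MI, Ideal.span_le]
  rintro x (rfl | rfl)
  · refine Ideal.mem_span_singleton.2 ⟨⟨V, 1⟩, ?_⟩
    ext1
    · simp only [QuadraticAlgebra.re_mul]
      ring
    · simp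
  · exact Ideal.mem_span_singleton_self _

theorem mem_MI_of {U V : K[X]} {h : Rg f} (e : U ∣ h.re + h.im * V) : h ∈ MI f U V := by
  obtain ⟨q, e⟩ := e
  refine Ideal.mem_span_pair.2 ⟨⟨q, 0⟩, ⟨h.im, 0⟩, ?_⟩
  ext1
  · simp only [QuadraticAlgebra.re_mul, QuadraticAlgebra.re_add]
    linear_combination -e
  · simp

theorem mem_MI {U V : K[X]} (hU : U ∣ f - V ^ 2) (h : Rg f) :
    h ∈ MI f U V ↔ U ∣ h.re + h.im * V := by
  refine ⟨fun e => ?_, mem_MI_of⟩
  obtain ⟨α, β, rfl⟩ := Ideal.mem_span_pair.1 e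
  obtain ⟨W, e⟩ := hU
  refine ⟨α.re + α.im * V + β.im * W, ?_⟩
  simp only [QuadraticAlgebra.re_mul, QuadraticAlgebra.im_mul, QuadraticAlgebra.re_add,
    QuadraticAlgebra.im_add]
  linear_combination β.im * e

theorem MI_le {U U' V V' : K[X]} (h : U' ∣ U) (h' : U' ∣ V' - V) : MI f U V ≤ MI f U' V' := by
  rw [MI, Ideal.span_le]
  rintro x (rfl | rfl) <;> refine mem_MI_of ?_
  · simpa using h
  · rwa [show (-V + 1 * V' : K[X]) = V' - V by ring]

theorem MI_one (V : K[X]) : MI f 1 V = ⊤ :=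
  (Ideal.eq_top_iff_one _).2 (l1 _ _)

theorem c_ne {u : K[X]} (h : u ≠ 0) : (⟨u, 0⟩ : Rg f) ≠ 0 := fun e =>
  h (congrArg QuadraticAlgebra.re e)

end Mum

open Mum in
theorem mum : MUMStmt := by
  intro K ι _ _ _ g a f hc
  have mo : f.Monic := hc.eq ▸ monic_prod_of_monic _ _ fun i _ => monic_X_sub_C _
  have dg : f.natDegree = 2 * g + 1 := by
    rw [hc.eq, fp, natDegree_prod_of_monic _ _ fun i _ => monic_X_sub_C _]
    simpa using hc.card
  have sf : Squarefree f := hc.eq ▸ (separable_prod_X_sub_C_iff.2 hc.inj).squarefree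
  refine ⟨⟨mo, dg, sf, domain mo.ne_zero ⟨g, dg⟩⟩, cj_MI, fun U V => MI_conj sf,
    fun U U' V => MI_mul sf, MI_norm,
    fun U V V' h => le_antisymm (MI_le dvd_rfl (dvd_sub_comm.1 h)) (MI_le dvd_rfl h),
    fun U U' V h => le_antisymm (MI_le h.symm.dvd (by simp)) (MI_le h.dvd (by simp)), MI_one,
    fun U V => mem_MI, fun U V h1 h2 => ⟨h1, by rw [cj_MI, MI_conj sf h2]⟩,
    fun s hs => ⟨hs.pow 2, by rw [cj_PI, PI_mul, sq]⟩,
    ⟨monic_one, by rw [cj_top, PI_one, Ideal.top_mul]⟩,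
    fun I J u w h1 h2 => ⟨h1.1.mul h2.1, ?_⟩,
    fun I u w h1 h2 => eq_of_monic_of_associated h1.1 h2.1 (PI_eq.1 (h1.2.symm.trans h2.2)),
    fun I u h => ⟨⟨h.1, ?_⟩, ⟨cj I, _, c_ne h.1.ne_zero, h.2⟩,
      I, _, c_ne h.1.ne_zero, (mul_comm _ _).trans h.2⟩, fun h u _ => ?_⟩
  · rw [cj_mul, mul_mul_mul_comm, h1.2, h2.2, PI_mul]
  · rw [cj_cj, mul_comm, h.2]
  · rw [Nu, span_mul_cj, eq_comm, PI_eq]

end Pool.Agent.MP_a43263_nt.JC
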