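import Pool.Agent.MP_a43263_nt.JC.XSpec
import Mathlib.NumberTheory.PrimeCounting

/-! Integers all of whose signed sums have an odd prime of their own. -/

set_option autoImplicit false

noncomputable section

namespace Pool.Agent.MP_a43263_nt.JC

open Finset

namespace Priv

theorem digits : ∀ (m : ℕ) (c : Fin m → ℤ), (∀ a, |c a| ≤ 2) →
    ∑ a, c a * 3 ^ (a : ℕ) = 0 → ∀ a, c a = 0 := by
  intro m
  induction m with
  | zero => intro c _ _ a; exact a.elim0
  | succ m ih =>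
    intro c hc h
    rw [Fin.sum_univ_succ] at h
    have h3 : ∑ a : Fin m, c a.succ * 3 ^ ((a.succ : Fin (m + 1)) : ℕ)
        = 3 * ∑ a : Fin m, c a.succ * 3 ^ (a : ℕ) := by
      rw [Finset.mul_sum]
      refine Finset.sum_congr rfl fun a _ => ?_
      rw [Fin.val_succ, pow_succ]; ring
    rw [h3] at h
    have h0 := abs_le.1 (hc 0)
    simp only [Fin.val_zero, pow_zero, mul_one] at h
    have hz : c 0 = 0 := by omega
    have hs : ∑ a : Fin m, c a.succ * 3 ^ (a : ℕ) = 0 := by omega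
    have := ih (fun a => c a.succ) (fun a => hc _) hs
    intro a
    exact Fin.cases hz this a

/-- a vector killed by `φ` and by no other sign vector -/
theorem mu {m : ℕ} (φ : Fin m → SignType) (k : Fin m) (hk : φ k ≠ 0) :
    ∃ μ : Fin m → ℤ, ∑ i, (φ i : ℤ) * μ i = 0 ∧
      ∀ ψ : Fin m → SignType, ψ ≠ 0 → ψ ≠ φ → ψ ≠ -φ → ∑ i, (ψ i : ℤ) * μ i ≠ 0 := by
  have key : ∀ ψ : Fin m → SignType,
      ∑ i, (ψ i : ℤ) * (3 ^ (i : ℕ) - if i = k then (φ k : ℤ) * ∑ a, (φ a : ℤ) * 3 ^ (a : ℕ) else 0)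
        = ∑ i, ((ψ i : ℤ) - (ψ k : ℤ) * (φ k : ℤ) * (φ i : ℤ)) * 3 ^ (i : ℕ) := by
    intro ψ
    simp only [mul_sub, sub_mul, Finset.sum_sub_distrib, mul_ite, mul_zero, Finset.sum_ite_eq',
      Finset.mem_univ, if_true]
    congr 1
    rw [← mul_assoc, Finset.mul_sum]
    exact Finset.sum_congr rfl fun a _ => by ring
  refine ⟨fun i => 3 ^ (i : ℕ) - if i = k then (φ k : ℤ) * ∑ a, (φ a : ℤ) * 3 ^ (a : ℕ) else 0,
    ?_, fun ψ h0 h1 h2 h => ?_⟩
  · rw [key]
    refine Finset.sum_eq_zero fun i _ => ?_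
    have : (φ k : ℤ) * (φ k : ℤ) = 1 := by
      revert hk; rcases φ k with _ | _ | _ <;> simp
    rw [this]; ring
  · rw [key] at h
    have hz := digits m _ (fun a => by
      rcases ψ a with _ | _ | _ <;> rcases ψ k with _ | _ | _ <;> rcases φ k with _ | _ | _ <;>
        rcases φ a with _ | _ | _ <;> simp) h
    have he : ∀ a, ψ a = ψ k * φ k * φ a := fun a => by
      have := hz a
      revert this
      rcases ψ a with _ | _ | _ <;> rcases ψ k with _ | _ | _ <;> rcases φ k with _ | _ | _ <;>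
        rcases φ a with _ | _ | _ <;> simp
    rcases hs : ψ k * φ k with _ | _ | _
    · exact h0 (funext fun a => by rw [he a, hs]; simp)
    · exact h2 (funext fun a => by rw [he a, hs]; simp)
    · exact h1 (funext fun a => by rw [he a, hs]; simp)

theorem crt {ι : Type} [Finite ι] (q : ι → ℤ) (hq : Pairwise fun i j => IsCoprime (q i) (q j))
    (x : ι → ℤ) : ∃ r : ℤ, ∀ i, q i ∣ r - x i := by
  obtain ⟨r, hr⟩ := Ideal.exists_forall_sub_mem_ideal (I := fun i => Ideal.span {q i})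
    (fun i j h => (Ideal.isCoprime_span_singleton_iff _ _).2 (hq h)) x
  exact ⟨r, fun i => Ideal.mem_span_singleton.1 (hr i)⟩

end Priv

theorem priv : PRIVStmt := by
  intro m
  classical
  let ι := {φ : Fin m → SignType // φ ≠ 0}
  have hk : ∀ φ : ι, ∃ k, φ.1 k ≠ 0 := fun φ => by
    by_contra h
    push Not at h
    exact φ.2 (funext h)
  choose k hk using hk
  choose μ hμ0 hμ using fun φ : ι => Priv.mu φ.1 (k φ) (hk φ)
  let B : ℕ := ∑ φ : ι, ∑ ψ : Fin m → SignType, (∑ i, (ψ i : ℤ) * μ φ i).natAbs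
  have hB : ∀ (φ : ι) (ψ : Fin m → SignType), (∑ i, (ψ i : ℤ) * μ φ i).natAbs ≤ B := fun φ ψ =>
    le_trans (Finset.single_le_sum (f := fun ψ : Fin m → SignType =>
      (∑ i, (ψ i : ℤ) * μ φ i).natAbs) (fun _ _ => Nat.zero_le _) (Finset.mem_univ ψ))
      (Finset.single_le_sum (f := fun φ : ι => ∑ ψ : Fin m → SignType,
        (∑ i, (ψ i : ℤ) * μ φ i).natAbs) (fun _ _ => Nat.zero_le _) (Finset.mem_univ φ))
  let p : ι → ℕ := fun φ => Nat.nth Nat.Prime (B + 1 + Fintype.equivFin ι φ)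
  have hp : ∀ φ, (p φ).Prime := fun φ => Nat.prime_nth_prime _
  have hpB : ∀ φ, B + 3 ≤ p φ := fun φ =>
    le_trans (by omega) (Nat.add_two_le_nth_prime (B + 1 + Fintype.equivFin ι φ))
  have hpi : Function.Injective p := fun φ ψ h => by
    have := Nat.nth_injective Nat.infinite_setOfPred_prime h
    exact (Fintype.equivFin ι).injective (Fin.ext (by omega))
  have hc : Pairwise fun φ ψ : ι => IsCoprime ((p φ : ℤ) ^ 2) ((p ψ : ℤ) ^ 2) := fun φ ψ h =>
    (Nat.isCoprime_iff_coprime.2 ((Nat.coprime_primes (hp φ) (hp ψ)).2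
      fun e => h (hpi e))).pow
  choose ρ hρ using fun a : Fin m =>
    Priv.crt _ hc fun φ => μ φ a + if a = k φ then (p φ : ℤ) else 0
  let P : ℤ := ∏ φ : ι, (p φ : ℤ) ^ 2
  have hP : 1 ≤ P := by
    have : 0 < P := Finset.prod_pos fun φ _ => pow_pos (by exact_mod_cast (hp φ).pos) 2
    omega
  let R : ℤ := 1 + ∑ a, |ρ a|
  have hR : ∀ a, |ρ a| < R := fun a => by
    have := Finset.single_le_sum (f := fun a => |ρ a|) (fun _ _ => abs_nonneg _)
      (Finset.mem_univ a)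
    simp only [R]; omega
  have hM : ∀ a, |ρ a| < P * R := fun a => by
    have h1 := hR a
    have h2 := abs_nonneg (ρ a)
    nlinarith
  refine ⟨fun a => ρ a + P * R * 8 ^ (a : ℕ), fun φ hφ => ?_, fun a => ?_, fun i j hij => ?_⟩
  · let f : ι := ⟨φ, hφ⟩
    have hd : ∀ ψ : Fin m → SignType, (p f : ℤ) ^ 2 ∣
        ∑ i, (ψ i : ℤ) * (ρ i + P * R * 8 ^ (i : ℕ)) -
          (∑ i, (ψ i : ℤ) * μ f i + (ψ (k f) : ℤ) * p f) := fun ψ => by
      have e : ∑ i, (ψ i : ℤ) * (ρ i + P * R * 8 ^ (i : ℕ)) -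
          (∑ i, (ψ i : ℤ) * μ f i + (ψ (k f) : ℤ) * p f) =
          ∑ i, (ψ i : ℤ) * ((ρ i - (μ f i + if i = k f then (p f : ℤ) else 0)) +
            P * (R * 8 ^ (i : ℕ))) := by
        simp only [mul_add, mul_sub, Finset.sum_add_distrib, Finset.sum_sub_distrib, mul_ite,
          mul_zero, Finset.sum_ite_eq', Finset.mem_univ, if_true, mul_assoc]
        ring
      rw [e]
      exact Finset.dvd_sum fun i _ => Dvd.dvd.mul_left (dvd_add (hρ i f)
        (Dvd.dvd.mul_right (Finset.dvd_prod_of_mem _ (Finset.mem_univ f)) _)) _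
    have h1 : (p f : ℤ) ∣ (p f : ℤ) ^ 2 := dvd_pow_self _ two_ne_zero
    have hp0 : (0 : ℤ) < p f := by exact_mod_cast (hp f).pos
    have hφd := hd φ
    have hz : ∑ i, (φ i : ℤ) * μ f i = 0 := hμ0 f
    rw [hz, zero_add] at hφd
    refine ⟨p f, hp f, by have := hpB f; omega, ?_, fun h => ?_, fun ψ h0 ha hb h => ?_⟩
    · have := dvd_add (h1.trans hφd) (Dvd.intro_left (φ (k f) : ℤ) rfl)
      simpa using this
    · have h2 : (p f : ℤ) ^ 2 ∣ (φ (k f) : ℤ) * p f := by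
        have := dvd_sub h hφd
        simpa using this
      rw [sq] at h2
      have h3 : (p f : ℤ) ∣ (φ (k f) : ℤ) := (mul_dvd_mul_iff_right hp0.ne').1 h2
      have h4 := Int.natAbs_dvd_natAbs.2 h3
      have h5 : ((φ (k f) : ℤ)).natAbs = 1 := by
        have := hk f
        change φ (k f) ≠ 0 at this
        revert this
        rcases φ (k f) with _ | _ | _ <;> simp
      rw [h5, Int.natAbs_natCast] at h4
      exact (hp f).one_lt.ne' (Nat.dvd_one.1 h4)
    · have h2 : (p f : ℤ) ∣ ∑ i, (ψ i : ℤ) * μ f i := by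
        have := dvd_sub (dvd_sub h (h1.trans (hd ψ))) (Dvd.intro_left (ψ (k f) : ℤ) rfl)
        simpa using this
      have h4 := Int.natAbs_dvd_natAbs.2 h2
      rw [Int.natAbs_natCast] at h4
      have h5 := Nat.le_of_dvd (Int.natAbs_pos.2 (hμ f ψ h0 ha hb)) h4
      have := hB f ψ
      have := hpB f
      omega
  · have h1 := abs_lt.1 (hM a)
    have h2 : (1 : ℤ) ≤ 8 ^ (a : ℕ) := one_le_pow₀ (by norm_num)
    have h3 : 0 < P * R := lt_of_le_of_lt (abs_nonneg _) (hM a)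
    show 0 < ρ a + P * R * 8 ^ (a : ℕ)
    nlinarith
  · have h1 := abs_lt.1 (hM i)
    have h1' := abs_lt.1 (hM j)
    have h2 : (1 : ℤ) ≤ 8 ^ (i : ℕ) := one_le_pow₀ (by norm_num)
    have h3 : 0 < P * R := lt_of_le_of_lt (abs_nonneg _) (hM i)
    have h4 : (8 : ℤ) ^ ((i : ℕ) + 1) ≤ 8 ^ (j : ℕ) :=
      pow_le_pow_right₀ (by norm_num) (by have : (i : ℕ) < j := hij; omega)
    rw [pow_succ] at h4
    show 3 * (ρ i + P * R * 8 ^ (i : ℕ)) ≤ ρ j + P * R * 8 ^ (j : ℕ)
    nlinarith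

end Pool.Agent.MP_a43263_nt.JC
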