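import Pool.Agent.MP_a43263_nt.JC.JSpec

/-! THEOREM J: the structure of ideals, and leading coefficients at infinity. -/

set_option autoImplicit false

noncomputable section

namespace Pool.Agent.MP_a43263_nt.JC

open Polynomial

namespace Str

variable {K : Type} [Field K] {f : K[X]}

/-- a nonzero ideal of `K[X]` has a monic generator -/
theorem gen (A : Ideal K[X]) {p : K[X]} (hp : p ∈ A) (h0 : p ≠ 0) :
    ∃ s : K[X], s.Monic ∧ s ∈ A ∧ ∀ q ∈ A, s ∣ q := by
  classical
  obtain ⟨t, ht⟩ := (IsPrincipalIdealRing.principal A).principal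
  have ht' : A = Ideal.span {t} := ht
  have t0 : t ≠ 0 := by
    rintro rfl
    rw [ht', Ideal.mem_span_singleton, zero_dvd_iff] at hp
    exact h0 hp
  refine ⟨normalize t, monic_normalize t0, ?_, fun q hq => ?_⟩
  · rw [ht', Ideal.mem_span_singleton]
    exact dvd_normalize_iff.2 dvd_rfl
  · rw [ht', Ideal.mem_span_singleton] at hq
    exact normalize_dvd_iff.2 hq

/-- the ideal of the `y`-parts -/
def imI (I : Ideal (Rg f)) : Ideal K[X] where
  carrier := {p | ∃ h ∈ I, h.im = p}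
  add_mem' := by
    rintro _ _ ⟨h, hh, rfl⟩ ⟨k, hk, rfl⟩
    exact ⟨h + k, I.add_mem hh hk, rfl⟩
  zero_mem' := ⟨0, I.zero_mem, rfl⟩
  smul_mem' := by
    rintro c _ ⟨h, hh, rfl⟩
    exact ⟨⟨c, 0⟩ * h, I.mul_mem_left _ hh, by simp⟩

/-- the polynomials `p` with `s p` in `I` -/
def reI (I : Ideal (Rg f)) (s : K[X]) : Ideal K[X] where
  carrier := {p | (⟨s * p, 0⟩ : Rg f) ∈ I}
  add_mem' := by
    intro p q hp hq
    have e : (⟨s * (p + q), 0⟩ : Rg f) = ⟨s * p, 0⟩ + ⟨s * q, 0⟩ := by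
      ext1 <;> simp [mul_add]
    simpa only [Set.mem_ofPred_eq, e] using I.add_mem hp hq
  zero_mem' := by
    have e : (⟨s * 0, 0⟩ : Rg f) = 0 := by ext1 <;> simp
    simp only [Set.mem_ofPred_eq, e, I.zero_mem]
  smul_mem' := by
    intro c p hp
    have e : (⟨s * (c • p), 0⟩ : Rg f) = ⟨c, 0⟩ * ⟨s * p, 0⟩ := by
      ext1
      · simp [mul_left_comm]
      · simp
    simpa only [Set.mem_ofPred_eq, e] using I.mul_mem_left _ hp

theorem re_mem {I : Ideal (Rg f)} {h : Rg f} (hh : h ∈ I) : h.re ∈ imI I :=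
  ⟨⟨0, 1⟩ * h, I.mul_mem_left _ hh, by simp⟩

theorem lead {p q : K[X]} (h : p = 0 ∨ p.natDegree < q.natDegree) :
    (p + q).natDegree = q.natDegree ∧ (p + q).leadingCoeff = q.leadingCoeff := by
  rcases h with rfl | h
  · simp
  · exact ⟨natDegree_add_eq_right_of_natDegree_lt h,
      leadingCoeff_add_of_degree_lt (degree_lt_degree h)⟩

/-- the part without `y` dominates -/
def Ev (h : Rg f) : Prop := h.im = 0 ∨ f.natDegree + 2 * h.im.natDegree < 2 * h.re.natDegree

theorem lc_ev {h : Rg f} (e : Ev h) : lc h = h.re.leadingCoeff := by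
  unfold lc
  exact if_pos e

theorem lc_od {h : Rg f} (e : ¬ Ev h) : lc h = h.im.leadingCoeff := by
  unfold lc
  exact if_neg e

theorem ev_re {h : Rg f} (h0 : h ≠ 0) (e : Ev h) : h.re ≠ 0 := by
  intro c
  rcases e with e | e
  · exact h0 (by ext1 <;> simp [c, e])
  · simp [c] at e

theorem od_im {h : Rg f} (ho : Odd f.natDegree) (e : ¬ Ev h) :
    h.im ≠ 0 ∧ 2 * h.re.natDegree < f.natDegree + 2 * h.im.natDegree := by
  simp only [Ev, not_or, not_lt] at e
  obtain ⟨m, hm⟩ := ho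
  exact ⟨e.1, by omega⟩

/-- degree and leading coefficient of `f p q` -/
theorem ftimes (hf : f.Monic) {p q : K[X]} (hp : p ≠ 0) (hq : q ≠ 0) :
    (f * p * q).natDegree = f.natDegree + p.natDegree + q.natDegree ∧
      (f * p * q).leadingCoeff = p.leadingCoeff * q.leadingCoeff := by
  refine ⟨?_, by simp [hf.leadingCoeff]⟩
  rw [natDegree_mul (mul_ne_zero hf.ne_zero hp) hq, natDegree_mul hf.ne_zero hp]

theorem norm_ev (hf : f.Monic) {h : Rg f} (h0 : h ≠ 0) (e : Ev h) :
    (QuadraticAlgebra.norm h).natDegree = 2 * h.re.natDegree ∧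
      (QuadraticAlgebra.norm h).leadingCoeff = lc h ^ 2 := by
  have hr := ev_re h0 e
  have d : (h.re * h.re).natDegree = 2 * h.re.natDegree := by
    rw [natDegree_mul hr hr, two_mul]
  have k := lead (p := -(f * h.im * h.im)) (q := h.re * h.re) (by
    by_cases c : h.im = 0
    · left
      simp [c]
    · right
      rw [natDegree_neg, (ftimes hf c c).1, d]
      have := e.resolve_left c
      omega)
  have n : QuadraticAlgebra.norm h = -(f * h.im * h.im) + h.re * h.re := by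
    rw [QuadraticAlgebra.norm_def]
    ring
  rw [n, k.1, k.2, d, lc_ev e, leadingCoeff_mul, sq]
  exact ⟨rfl, rfl⟩

theorem norm_od (hf : f.Monic) (ho : Odd f.natDegree) {h : Rg f} (e : ¬ Ev h) :
    (QuadraticAlgebra.norm h).natDegree = f.natDegree + 2 * h.im.natDegree ∧
      (QuadraticAlgebra.norm h).leadingCoeff = -lc h ^ 2 := by
  obtain ⟨hi, hlt⟩ := od_im ho e
  obtain ⟨d, l⟩ := ftimes hf hi hi
  have k := lead (p := h.re * h.re) (q := -(f * h.im * h.im)) (by
      right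
      rw [natDegree_neg, d]
      have := natDegree_mul_le (p := h.re) (q := h.re)
      omega)
  have n : QuadraticAlgebra.norm h = h.re * h.re + -(f * h.im * h.im) := by
    rw [QuadraticAlgebra.norm_def]
    ring
  rw [n, k.1, k.2, natDegree_neg, leadingCoeff_neg, d, l, lc_od e, sq]
  exact ⟨by omega, rfl⟩

theorem lc_zero : lc (0 : Rg f) = 0 := by
  rw [lc_ev (Or.inl rfl)]
  simp

theorem lc_ne {h : Rg f} (h0 : h ≠ 0) : lc h ≠ 0 := by
  by_cases e : Ev h
  · rw [lc_ev e]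
    exact leadingCoeff_ne_zero.2 (ev_re h0 e)
  · rw [lc_od e]
    exact leadingCoeff_ne_zero.2 fun c => e (Or.inl c)

theorem norm_ne (hf : f.Monic) (ho : Odd f.natDegree) {h : Rg f} (h0 : h ≠ 0) :
    QuadraticAlgebra.norm h ≠ 0 := by
  rw [← leadingCoeff_ne_zero]
  by_cases e : Ev h
  · rw [(norm_ev hf h0 e).2]
    exact pow_ne_zero _ (lc_ne h0)
  · rw [(norm_od hf ho e).2]
    exact neg_ne_zero.2 (pow_ne_zero _ (lc_ne h0))

/-- the parity of the weight decides the case -/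
theorem ev_iff (hf : f.Monic) (ho : Odd f.natDegree) {h : Rg f} (h0 : h ≠ 0) :
    Ev h ↔ (QuadraticAlgebra.norm h).natDegree % 2 = 0 := by
  obtain ⟨m, hm⟩ := id ho
  by_cases e : Ev h
  · rw [(norm_ev hf h0 e).1]
    exact iff_of_true e (by omega)
  · rw [(norm_od hf ho e).1]
    exact iff_of_false e (by omega)

theorem ev_mul (hf : f.Monic) (ho : Odd f.natDegree) {h k : Rg f} (h0 : h ≠ 0) (k0 : k ≠ 0) :
    Ev (h * k) ↔ (Ev h ↔ Ev k) := by
  have a := norm_ne hf ho h0
  have b := norm_ne hf ho k0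
  have c : h * k ≠ 0 := by
    intro c
    apply mul_ne_zero a b
    rw [← map_mul, c, QuadraticAlgebra.norm_zero]
  rw [ev_iff hf ho c, ev_iff hf ho h0, ev_iff hf ho k0, map_mul, natDegree_mul a b]
  omega

theorem mul_eo (hf : f.Monic) (ho : Odd f.natDegree) {h k : Rg f} (h0 : h ≠ 0) (k0 : k ≠ 0)
    (e : Ev h) (e' : ¬ Ev k) : lc (h * k) = lc h * lc k := by
  have hr := ev_re h0 e
  obtain ⟨ki, hlt⟩ := od_im ho e'
  rw [lc_od fun c => e' (((ev_mul hf ho h0 k0).1 c).1 e), lc_ev e, lc_od e']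
  have n : (h * k).im = h.im * k.re + h.re * k.im := by
    rw [QuadraticAlgebra.im_mul]
    ring
  rw [n, (lead _).2, leadingCoeff_mul]
  by_cases c : h.im = 0
  · left
    simp [c]
  · right
    have := natDegree_mul_le (p := h.im) (q := k.re)
    have := e.resolve_left c
    rw [natDegree_mul hr ki]
    omega

theorem lc_mul (hf : f.Monic) (ho : Odd f.natDegree) (h k : Rg f) : lc (h * k) = lc h * lc k := by
  by_cases h0 : h = 0
  · simp [h0, lc_zero]
  by_cases k0 : k = 0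
  · simp [k0, lc_zero]
  by_cases e : Ev h <;> by_cases e' : Ev k
  · have hr := ev_re h0 e
    have kr := ev_re k0 e'
    rw [lc_ev ((ev_mul hf ho h0 k0).2 (iff_of_true e e')), lc_ev e, lc_ev e',
      QuadraticAlgebra.re_mul, add_comm, (lead _).2, leadingCoeff_mul]
    by_cases c : h.im = 0
    · left
      simp [c]
    by_cases c' : k.im = 0
    · left
      simp [c']
    right
    have := e.resolve_left c
    have := e'.resolve_left c'
    rw [natDegree_mul hr kr, (ftimes hf c c').1]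
    omega
  · exact mul_eo hf ho h0 k0 e e'
  · rw [mul_comm, mul_eo hf ho k0 h0 e' e, mul_comm]
  · obtain ⟨hi, h1⟩ := od_im ho e
    obtain ⟨ki, h2⟩ := od_im ho e'
    obtain ⟨d, l⟩ := ftimes hf hi ki
    rw [lc_ev ((ev_mul hf ho h0 k0).2 (iff_of_false e e')), lc_od e, lc_od e',
      QuadraticAlgebra.re_mul, (lead (Or.inr _)).2, l]
    have := natDegree_mul_le (p := h.re) (q := k.re)
    omega

theorem eq_of_span (hf : f.Monic) (ho : Odd f.natDegree) {h k : Rg f}
    (e : Ideal.span {h} = Ideal.span {k}) (l : lc h = lc k) : h = k := by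
  obtain ⟨u, hu⟩ : k ∣ h := Ideal.mem_span_singleton.1 (e ▸ Ideal.mem_span_singleton_self h)
  obtain ⟨v, hv⟩ : h ∣ k := Ideal.mem_span_singleton.1 (e ▸ Ideal.mem_span_singleton_self k)
  by_cases k0 : k = 0
  · rw [hu, k0, zero_mul]
  have h0 : h ≠ 0 := fun c => k0 (by rw [hv, c, zero_mul])
  have u0 : u ≠ 0 := fun c => h0 (by rw [hu, c, mul_zero])
  have v0 : v ≠ 0 := fun c => k0 (by rw [hv, c, mul_zero])
  have d1 := natDegree_mul (norm_ne hf ho k0) (norm_ne hf ho u0)
  have d2 := natDegree_mul (norm_ne hf ho h0) (norm_ne hf ho v0)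
  rw [← map_mul, ← hu] at d1
  rw [← map_mul, ← hv] at d2
  have eu : Ev u := (ev_iff hf ho u0).2 (by omega)
  have du := (norm_ev hf u0 eu).1
  have ui : u.im = 0 := eu.resolve_right (by omega)
  have l1 : lc u = 1 := by
    apply mul_left_cancel₀ (lc_ne k0)
    rw [← lc_mul hf ho, ← hu, l, mul_one]
  rw [lc_ev eu] at l1
  have ur : u.re = 1 := (Monic.natDegree_eq_zero l1).1 (by omega)
  have : u = 1 := by
    ext1
    · rw [ur, QuadraticAlgebra.re_one]
    · rw [ui, QuadraticAlgebra.im_one]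
  rw [hu, this, mul_one]

end Str

open Str

theorem str : STRStmt := by
  intro K _ f I _ hI
  obtain ⟨h, hh, h0⟩ := Submodule.exists_mem_ne_zero_of_ne_bot hI
  obtain ⟨s, sm, ⟨k, hk, ks⟩, sd⟩ : ∃ s : K[X], s.Monic ∧ s ∈ imI I ∧ ∀ q ∈ imI I, s ∣ q := by
    by_cases c : h.im = 0
    · exact gen _ (re_mem hh) fun c' => h0 (by ext1 <;> simp [c, c'])
    · exact gen _ ⟨h, hh, rfl⟩ c
  obtain ⟨w, hw⟩ := sd _ (re_mem hk)
  have ek : k = ⟨s, 0⟩ * ⟨- -w, 1⟩ := by ext1 <;> simp [hw, ks]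
  have fm : f - (-w) ^ 2 ∈ reI I s := by
    have e : (⟨s * (f - (-w) ^ 2), 0⟩ : Rg f) = ⟨-w, 1⟩ * k := by
      ext1
      · simp [hw, ks]
        ring
      · simp [hw, ks]
        ring
    change (⟨s * (f - (-w) ^ 2), 0⟩ : Rg f) ∈ I
    rw [e]
    exact I.mul_mem_left _ hk
  have f0 : f - (-w) ^ 2 ≠ 0 := by
    intro c
    have e : (⟨-w, 1⟩ * ⟨w, 1⟩ : Rg f) = 0 := by
      ext1
      · simp only [QuadraticAlgebra.re_mul, QuadraticAlgebra.re_zero]
        linear_combination c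
      · simp
    rcases mul_eq_zero.1 e with e | e <;> simpa using congrArg QuadraticAlgebra.im e
  obtain ⟨U, Um, UI, Ud⟩ := gen _ fm f0
  refine ⟨s, U, -w, sm, Um, Ud _ fm, le_antisymm (fun z hz => ?_) ?_⟩
  · obtain ⟨c, hc⟩ := sd _ ⟨z, hz, rfl⟩
    obtain ⟨r, hr⟩ := sd _ (re_mem hz)
    have m : r - c * w ∈ reI I s := by
      have e : (⟨s * (r - c * w), 0⟩ : Rg f) = z - ⟨c, 0⟩ * k := by
        ext1
        · simp [hw, hr]
          ring
        · simp [hc, ks]
          ring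
      change (⟨s * (r - c * w), 0⟩ : Rg f) ∈ I
      rw [e]
      exact I.sub_mem hz (I.mul_mem_left _ hk)
    obtain ⟨t, ht⟩ := Ud _ m
    have e : z = ⟨s, 0⟩ * (⟨t, 0⟩ * ⟨U, 0⟩ + ⟨c, 0⟩ * ⟨- -w, 1⟩) := by
      ext1
      · simp [hr]
        left
        linear_combination ht
      · simp [hc]
    rw [e]
    exact Ideal.mul_mem_mul (Ideal.mem_span_singleton_self _)
      (Ideal.mem_span_pair.2 ⟨_, _, rfl⟩)
  · have e : (⟨s, 0⟩ * ⟨U, 0⟩ : Rg f) = ⟨s * U, 0⟩ := by ext1 <;> simp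
    rw [PI, MI, Ideal.span_insert, Ideal.mul_sup, Ideal.span_singleton_mul_span_singleton,
      Ideal.span_singleton_mul_span_singleton, sup_le_iff, Ideal.span_singleton_le_iff_mem,
      Ideal.span_singleton_le_iff_mem, e, ← ek]
    exact ⟨UI, hk⟩

theorem lcs : LCStmt := by
  intro K _ f hf ho
  refine ⟨lc_mul hf ho, fun h => ⟨fun c => by_contra fun h0 => lc_ne h0 c, fun c => ?_⟩,
    fun u => ?_, fun h => ?_, fun h h0 => ?_, fun h k => eq_of_span hf ho,
    fun L _ φ F e h => ?_⟩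
  · rw [c, lc_zero]
  · exact lc_ev (h := ⟨u, 0⟩) (Or.inl rfl)
  · by_cases h0 : h = 0
    · simp [h0, lc_zero]
    by_cases e : Ev h
    · obtain ⟨d, l⟩ := norm_ev hf h0 e
      rw [d, l, pow_mul, neg_one_sq, one_pow, one_mul]
    · obtain ⟨d, l⟩ := norm_od hf ho e
      rw [d, l, pow_add, pow_mul, ho.neg_one_pow, neg_one_sq, one_pow, mul_one, neg_one_mul]
  · split_ifs with c <;> rw [degree_eq_bot] at c
    · exact (norm_ev hf h0 (Or.inl c)).1
    by_cases e : Ev h
    · have := e.resolve_left c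
      rw [(norm_ev hf h0 e).1]
      omega
    · have := (od_im ho e).2
      rw [(norm_od hf ho e).1]
      omega
  · have r : (rmap φ e h).re = h.re.map φ := rfl
    have i : (rmap φ e h).im = h.im.map φ := rfl
    have k : Ev (rmap φ e h) ↔ Ev h := by
      have d : F.natDegree = f.natDegree := by rw [← e, natDegree_map]
      unfold Ev
      rw [r, i, d, natDegree_map, natDegree_map, Polynomial.map_eq_zero]
    by_cases c : Ev h
    · rw [lc_ev c, lc_ev (k.2 c), r, leadingCoeff_map]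
    · rw [lc_od c, lc_od (mt k.1 c), i, leadingCoeff_map]

end Pool.Agent.MP_a43263_nt.JC
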