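import Pool.Agent.MP_a43263_nt.JC.XSpec

/-! THEOREM J, examples: the halves of a point, and the points of the two families. -/

set_option autoImplicit false

noncomputable section

namespace Pool.Agent.MP_a43263_nt.JC

open Finset Polynomial

namespace Zar

/-- the product of the `t + r j` is `A + t * B` with `t ^ 2 = x - X` -/
theorem pair {K ι : Type} [Field K] [DecidableEq ι] (x : K) (r : ι → K) (s : Finset ι) :
    ∃ A B : K[X], ∏ j ∈ s, (X - C (x - r j ^ 2)) = A ^ 2 + (X - C x) * B ^ 2 ∧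
      (∀ t, A.eval (x - t ^ 2) + t * B.eval (x - t ^ 2) = ∏ j ∈ s, (t + r j)) ∧
      (∀ i ∈ s, B.eval (x - r i ^ 2) = ∏ j ∈ s.erase i, (r i + r j)) ∧
      ∀ k, (s.card < 2 * k → A.coeff k = 0) ∧ (s.card < 2 * k + 1 → B.coeff k = 0) ∧
        (s.card = 2 * k → A.coeff k = (-1) ^ k) ∧ (s.card = 2 * k + 1 → B.coeff k = (-1) ^ k) := by
  induction s using Finset.induction_on with
  | empty =>
    refine ⟨1, 0, by simp, by simp, by simp, fun k => ⟨fun h => ?_, by simp, fun h => ?_, by simp⟩⟩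
    · rw [coeff_one, if_neg (by rw [card_empty] at h; omega)]
    · obtain rfl : k = 0 := by rw [card_empty] at h; omega
      simp
  | insert m s hm ih =>
    obtain ⟨A, B, h1, h2, h3, h4⟩ := ih
    refine ⟨C (r m) * A - B * (X - C x), A + C (r m) * B, ?_, fun t => ?_, fun i hi => ?_,
      fun k => ⟨fun h => ?_, fun h => ?_, fun h => ?_, fun h => ?_⟩⟩
    · rw [prod_insert hm, h1, map_sub, map_pow]; ring
    · rw [prod_insert hm, ← h2]
      simp only [eval_sub, eval_add, eval_mul, eval_C, eval_X]; ring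
    · simp only [eval_add, eval_mul, eval_C]
      rcases mem_insert.1 hi with rfl | hi
      · rw [erase_insert hm, h2]
      · have hne : m ≠ i := fun c => hm (c ▸ hi)
        have h5 := h2 (-r i)
        rw [prod_eq_zero hi (neg_add_cancel _), neg_sq] at h5
        rw [erase_insert_of_ne hne, prod_insert fun c => hm (mem_of_mem_erase c), ← h3 i hi]
        linear_combination h5
    all_goals rw [card_insert_of_notMem hm] at h
    · obtain ⟨j, rfl⟩ : ∃ j, k = j + 1 := ⟨k - 1, by omega⟩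
      rw [coeff_sub, coeff_C_mul, coeff_mul_X_sub_C, (h4 _).1 (by omega), (h4 j).2.1 (by omega),
        (h4 _).2.1 (by omega)]
      ring
    · rw [coeff_add, coeff_C_mul, (h4 _).1 (by omega), (h4 _).2.1 (by omega)]; ring
    · obtain ⟨j, rfl⟩ : ∃ j, k = j + 1 := ⟨k - 1, by omega⟩
      rw [coeff_sub, coeff_C_mul, coeff_mul_X_sub_C, (h4 _).1 (by omega), (h4 j).2.2.2 (by omega),
        (h4 _).2.1 (by omega)]
      ring
    · rw [coeff_add, coeff_C_mul, (h4 _).2.2.1 (by omega), (h4 _).2.1 (by omega)]; ring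

end Zar

theorem zar : ZARStmt := by
  intro K ι _ _ _ _ x r ⟨m, hm⟩ hr
  obtain ⟨A, B, h1, -, h3, h4⟩ := Zar.pair x r univ
  rw [card_univ, hm] at h4
  have hs : ((-1 : K) ^ m) * (-1) ^ m = 1 := by rw [← mul_pow]; simp
  have hc : (C ((-1 : K) ^ m) * B).coeff m = 1 := by rw [coeff_C_mul, (h4 m).2.2.2 rfl, hs]
  have hd : (C ((-1 : K) ^ m) * B).natDegree ≤ m := natDegree_le_iff_coeff_eq_zero.2 fun k hk => by
    rw [coeff_C_mul, (h4 k).2.1 (by omega), mul_zero]
  have he := natDegree_eq_of_le_of_coeff_ne_zero hd (by rw [hc]; exact one_ne_zero)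
  refine ⟨C ((-1) ^ m) * B, A, monic_of_natDegree_le_of_coeff_eq_one m hd hc,
    ⟨C ((-1) ^ m) * (X - C x) * B, ?_⟩, fun i => ?_⟩
  · have h5 : (C ((-1 : K) ^ m)) * C ((-1 : K) ^ m) = 1 := by rw [← map_mul, hs, map_one]
    rw [fp, h1]
    linear_combination (-(X - C x) * B ^ 2) * h5
  · have h6 : ∏ j ∈ univ.erase i, (r i + r j) ≠ 0 :=
      prod_ne_zero_iff.2 fun j hj => hr i j (ne_of_mem_erase hj).symm
    rw [nb, he, eval_mul, eval_C, h3 i (mem_univ i), ← mul_assoc ((-1) ^ m), hs, one_mul]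
    exact ⟨mul_ne_zero (left_ne_zero_of_mul_eq_one hs) h6, h6, _, rfl⟩

namespace Zar

variable {g n : ℕ}

/-- the other index of a pair -/
def oth (i : Vx g) (e : Ed g) : Vx g := if e.1.1 = i then e.1.2 else e.1.1

theorem oth_fst (e : Ed g) : oth e.1.1 e = e.1.2 := if_pos rfl

theorem oth_snd (e : Ed g) : oth e.1.2 e = e.1.1 := if_neg (ed_ne e)

theorem oth_inj {i : Vx g} {e e' : Ed g} (h : On i e) (h' : On i e') (c : oth i e = oth i e') :
    e = e' := by
  have h1 := e.2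
  have h2 := e'.2
  rcases h with rfl | rfl
  · rw [oth_fst] at c
    rcases h' with h' | h'
    · rw [h', oth_fst] at c
      exact Subtype.ext (Prod.ext h' c)
    · rw [h', oth_snd] at c
      exact absurd (h1.trans (c ▸ h' ▸ h2)) (lt_irrefl _)
  · rw [oth_snd] at c
    rcases h' with h' | h'
    · rw [h', oth_fst] at c
      exact absurd (h1.trans (c ▸ h' ▸ h2)) (lt_irrefl _)
    · rw [h', oth_snd] at c
      exact Subtype.ext (Prod.ext c h')

theorem prod_lay {M : Type} [CommMonoid M] (b : Fin n) (i : Vx g) (y : Finset (Ed g × Fin n))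
    (s : Finset (Vx g)) (φ : Ed g × Fin n → M) (ψ : Vx g → M) (hs : i ∉ s)
    (hy : ∀ h, On i h.1 → (h ∈ y ↔ h.2 = b ∧ oth i h.1 ∈ s))
    (hφ : ∀ e, On i e → φ (e, b) = ψ (oth i e)) :
    ∏ h ∈ y.filter (fun h => On i h.1), φ h = ∏ j ∈ s, ψ j := by
  refine prod_nbij (fun h => oth i h.1) (fun h hh => ?_) (fun h hh k hk c => ?_) (fun j hj => ?_)
    fun h hh => ?_
  · exact ((hy h (mem_filter.1 hh).2).1 (mem_filter.1 hh).1).2
  · obtain ⟨h1, h2⟩ := mem_filter.1 (mem_coe.1 hh)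
    obtain ⟨h3, h4⟩ := mem_filter.1 (mem_coe.1 hk)
    exact Prod.ext (oth_inj h2 h4 c) (((hy h h2).1 h1).1.trans ((hy k h4).1 h3).1.symm)
  · have hne : i ≠ j := fun c => hs (c ▸ hj)
    obtain ⟨e, ⟨rfl, rfl⟩ | ⟨rfl, rfl⟩⟩ := exists_ed hne
    · exact ⟨(e, b), mem_coe.2 (mem_filter.2 ⟨(hy (e, b) (.inl rfl)).2
        ⟨rfl, by rw [oth_fst]; exact hj⟩, .inl rfl⟩), oth_fst e⟩
    · exact ⟨(e, b), mem_coe.2 (mem_filter.2 ⟨(hy (e, b) (.inr rfl)).2
        ⟨rfl, by rw [oth_snd]; exact hj⟩, .inr rfl⟩), oth_snd e⟩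
  · obtain ⟨h1, h2⟩ := mem_filter.1 hh
    rw [← hφ _ h2, ← ((hy h h2).1 h1).1]

theorem oth_ne {i : Vx g} {e : Ed g} (h : On i e) : oth i e ≠ i := by
  rcases h with rfl | rfl
  · rw [oth_fst]; exact (ed_ne e).symm
  · rw [oth_snd]; exact ed_ne e

theorem mem_lay (b : Fin n) (h : Ed g × Fin n) : h ∈ lay g {b} ↔ h.2 = b := by simp [lay]

theorem lay_all (b : Fin n) (i : Vx g) (h : Ed g × Fin n) (hh : On i h.1) :
    h ∈ lay g {b} ↔ h.2 = b ∧ oth i h.1 ∈ univ.erase i := by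
  simp [mem_lay, oth_ne hh]

theorem lay_off (b : Fin n) {i : Vx g} {e : Ed g} (he : On i e) (h : Ed g × Fin n)
    (hh : On i h.1) : h ∈ (lay g {b}).filter (fun k => k.1 ≠ e) ↔
      h.2 = b ∧ oth i h.1 ∈ (univ.erase i).erase (oth i e) := by
  rw [mem_filter, mem_lay, mem_erase, mem_erase]
  exact and_congr_right fun _ => ⟨fun c => ⟨fun d => c (oth_inj hh he d), oth_ne hh, mem_univ _⟩,
    fun c d => c.1 (by rw [d])⟩

theorem L_X (F : HS g n) {h : Ed g × Fin n} {w : ℚ × ℚ} (hw : F.L h w ≠ 0) :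
    F.L h ((RatFunc.X : RatFunc ℚ), 1) ≠ 0 := fun c => hw <| by
  have h1 : algebraMap ℚ[X] (RatFunc ℚ) (C (F.A h : ℚ) * X + C (F.B h : ℚ)) = 0 := by
    rw [← c]; simp [HS.L]
  have h2 := (map_eq_zero_iff _ (RatFunc.algebraMap_injective ℚ)).1 h1
  have h3 := congrArg (coeff · 1) h2
  have h4 := congrArg (coeff · 0) h2
  simp only [coeff_add, coeff_C_mul, coeff_X_one, coeff_C_succ, coeff_X_zero, coeff_C_zero,
    coeff_zero] at h3 h4
  rw [HS.L]
  linear_combination w.1 * h3 + w.2 * h4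

/-- the linear forms -/
def rr {K : Type} [Field K] (P Q : Vx g → ℤ) (v : K × K) (i : Vx g) : K := P i * v.1 + Q i * v.2

theorem good (hz : ZARStmt) {F : HS g 2} (hF : F.Bas) (b : Fin 2) (P Q : Vx g → ℤ)
    (κ : Ed g → ℚ) (hκ : ∀ e, κ e ≠ 0)
    (ha : ∀ (K : Type) [Field K] (v : K × K) (i : Vx g), F.a v i = rr P Q v 0 ^ 2 - rr P Q v i ^ 2)
    (hA : ∀ e, κ e * F.A (e, b) = P e.1.1 + P e.1.2)
    (hB : ∀ e, κ e * F.B (e, b) = Q e.1.1 + Q e.1.2) :
    F.Gd (fun i => ∏ h ∈ (lay g {b}).filter (fun h => On i h.1), κ h.1) (lay g {b}) := by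
  have hL : ∀ (K : Type) [Field K] [CharZero K] (v : K × K) (e : Ed g),
      κ e * F.L (e, b) v = rr P Q v e.1.1 + rr P Q v e.1.2 := fun K _ _ v e => by
    have h1 := congrArg (Rat.cast : ℚ → K) (hA e)
    have h2 := congrArg (Rat.cast : ℚ → K) (hB e)
    push_cast at h1 h2
    rw [HS.L, rr, rr]
    linear_combination v.1 * h1 + v.2 * h2
  have hO : ∀ (K : Type) [Field K] [CharZero K] (v : K × K) (i : Vx g) (e : Ed g), On i e →
      κ e * F.L (e, b) v = rr P Q v i + rr P Q v (oth i e) := fun K _ _ v i e he => by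
    rcases he with rfl | rfl
    · rw [oth_fst, hL]
    · rw [oth_snd, hL, add_comm]
  have hD : ∀ (v : ℚ × ℚ) (i : Vx g) (e : Ed g), On i e →
      F.del (fun i => ∏ h ∈ (lay g {b}).filter (fun h => On i h.1), κ h.1)
        ((lay g {b}).filter fun k => k.1 ≠ e) v i =
      κ e * ∏ j ∈ (univ.erase i).erase (oth i e), (rr P Q v i + rr P Q v j) := fun v i e he => by
    have h1 : (lay g {b}).filter (fun h => On i h.1) =
        insert (e, b) (((lay g {b}).filter fun k => k.1 ≠ e).filter fun h => On i h.1) := by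
      ext ⟨e', b'⟩
      simp only [mem_filter, mem_insert, mem_lay, Prod.mk.injEq]
      by_cases c : e' = e
      · subst c; simp [he]
      · simp [c]
    rw [HS.del, h1, prod_insert (by simp), Rat.cast_id, mul_assoc, ← prod_mul_distrib,
      prod_lay b i _ _ (fun h => κ h.1 * F.L h v) (fun j => rr P Q v i + rr P Q v j) (by simp)
        (lay_off b he) fun e he => hO ℚ v i e he]
  refine ⟨⟨fun i => prod_ne_zero_iff.2 fun h _ => hκ _, ?_, fun i => ?_, fun ⟨e, b'⟩ => ?_⟩, ?_⟩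
  · refine ⟨∏ h ∈ lay g {b}, κ h.1, ?_⟩
    simp only [prod_filter]
    rw [prod_comm, ← prod_mul_distrib]
    refine prod_congr rfl fun h _ => ?_
    have h1 : univ.filter (fun i => On i h.1) = {h.1.1.1, h.1.1.2} := by ext; simp [On]
    rw [← prod_filter, h1, prod_pair (ed_ne _)]
  · have h1 := prod_lay b i (lay g {b}) (univ.erase i) (fun _ => 2) (fun _ => 2) (by simp)
      (lay_all b i) fun _ _ => rfl
    rw [prod_const, prod_const, card_erase_of_mem (mem_univ _), card_univ, card_Vx] at h1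
    rw [Nat.pow_right_injective le_rfl h1]
    exact ⟨g, by omega⟩
  · rw [hD _ _ e (.inl rfl), hD _ _ e (.inr rfl), oth_fst, oth_snd, erase_right_comm (a := e.1.2)]
    have h0 : F.L (e, b') (F.root (e, b')) = 0 := by rw [HS.L_root, HS.LZ_self, Int.cast_zero]
    have h1 := hL ℚ (F.root (e, b')) e
    rw [Rat.cast_id] at h1
    split_ifs with c
    · obtain rfl : b' = b := (mem_lay b _).1 c
      rw [h0, mul_zero] at h1
      refine ⟨κ e * F.gam (e, b'), ?_⟩
      have h2 : (∏ j ∈ (univ.erase e.1.1).erase e.1.2, (rr P Q (F.root (e, b')) e.1.1 +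
          rr P Q (F.root (e, b')) j)) * ∏ j ∈ (univ.erase e.1.1).erase e.1.2,
          (rr P Q (F.root (e, b')) e.1.2 + rr P Q (F.root (e, b')) j) = F.gam (e, b') := by
        rw [HS.gam, filter_not_on, ← prod_mul_distrib]
        refine prod_congr rfl fun j _ => ?_
        rw [ha, ha]
        linear_combination -(rr P Q (F.root (e, b')) e.1.1 + rr P Q (F.root (e, b')) j) * h1
      linear_combination κ e ^ 2 * F.gam (e, b') * h2
    · have h2 : F.L (e, b) (F.root (e, b')) ≠ 0 :=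
        hF.ne _ _ fun d => c ((mem_lay b _).2 (congrArg Prod.snd d).symm)
      have h3 := hF.sum e (F.root (e, b'))
      rw [HS.D, prod_eq_zero (mem_univ b') h0, ha, ha] at h3
      have h4 : rr P Q (F.root (e, b')) e.1.2 = rr P Q (F.root (e, b')) e.1.1 := by
        refine mul_left_cancel₀ (mul_ne_zero (hκ e) h2) ?_
        rw [h1]
        linear_combination h3
      rw [h4, mul_one]
      exact ⟨_, rfl⟩
  · have h1 : F.del (fun i => ∏ h ∈ (lay g {b}).filter (fun h => On i h.1), κ h.1) (lay g {b})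
        ((RatFunc.X : RatFunc ℚ), 1) = fun i => ∏ j ∈ univ.erase i,
          (rr P Q ((RatFunc.X : RatFunc ℚ), 1) i + rr P Q ((RatFunc.X : RatFunc ℚ), 1) j) := by
      funext i
      rw [HS.del, Rat.cast_prod, ← prod_mul_distrib]
      exact prod_lay b i _ _ (fun h => (κ h.1 : RatFunc ℚ) * F.L h (RatFunc.X, 1)) _ (by simp)
        (lay_all b i) fun e he => hO _ _ i e he
    rw [h1, _root_.funext (ha _ _)]
    refine hz _ _ _ _ ⟨g, card_Vx g⟩ fun i j hij => ?_
    have h2 : ∀ e : Ed g, rr P Q ((RatFunc.X : RatFunc ℚ), 1) e.1.1 +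
        rr P Q ((RatFunc.X : RatFunc ℚ), 1) e.1.2 ≠ 0 := fun e => by
      obtain ⟨b', hb⟩ := exists_ne b
      rw [← hL]
      exact mul_ne_zero (Rat.cast_ne_zero.2 (hκ e))
        (L_X F (hF.ne (e, b) (e, b') fun d => hb (congrArg Prod.snd d).symm))
    obtain ⟨e, ⟨rfl, rfl⟩ | ⟨rfl, rfl⟩⟩ := exists_ed hij
    · exact h2 e
    · rw [add_comm]; exact h2 e

theorem fam_D {K : Type} [Field K] (c : ℤ) (p q : Vx g → ℤ) (e : Ed g) (v : K × K) :
    (fam c p q).D e v = c * (rr p q v e.1.1 ^ 2 - rr p q v e.1.2 ^ 2) := by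
  simp only [HS.D, HS.L, fam, rr, Fin.prod_univ_two, Matrix.cons_val_zero, Matrix.cons_val_one]
  push_cast
  ring

theorem fam_a {K : Type} [Field K] (c : ℤ) (p q : Vx g → ℤ) (v : K × K) (i : Vx g) :
    (fam c p q).a v i = c * (rr p q v 0 ^ 2 - rr p q v i ^ 2) := by
  unfold HS.a
  split_ifs with h
  · exact fam_D c p q _ v
  · obtain rfl : i = 0 := Fin.le_zero_iff.1 (not_lt.1 h)
    simp

end Zar

theorem fam3 : ZARStmt → FAMStmt := by
  intro hz g c p q hg hc hne
  have hB : (fam c p q).Bas := ⟨hg, two_pos, even_two, fun _ => hc,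
    fun h k hk => by rw [HS.L_root]; exact_mod_cast hne h k hk,
    fun e v => by rw [Zar.fam_D, Zar.fam_a, Zar.fam_a]; ring⟩
  refine ⟨hB, ?_⟩
  rintro rfl
  have h1 := Zar.good hz hB 1 p q (fun _ => 1) (fun _ => one_ne_zero)
    (fun K _ v i => by rw [Zar.fam_a]; simp) (fun e => by simp [fam]) fun e => by simp [fam]
  simpa only [prod_const_one] using h1

theorem sec3 : ZARStmt → SECStmt := by
  intro hz g l _ hB hl
  have hq : ∀ i, l i * ∏ k ∈ univ.erase i, l k = ∏ k, l k := fun i =>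
    mul_prod_erase _ _ (mem_univ i)
  have hm : ∀ (e : Ed g) (b : Fin 2), l e.1.1 + ![-1, 1] b * l e.1.2 ≠ 0 := fun e b c => by
    obtain ⟨b', hb⟩ := exists_ne b
    refine hB.ne (e, b) (e, b') (fun d => hb (congrArg Prod.snd d).symm) ?_
    have hs : (![-1, 1] b : ℤ) ^ 2 = 1 := by fin_cases b <;> rfl
    have h1 : (hyb l).A (e, b) = 0 := by
      simp only [hyb, fam]
      linear_combination (∏ k, l k) * c
    have h2 : (hyb l).B (e, b) = 0 := by
      refine mul_left_cancel₀ (mul_ne_zero (hl e.1.1) (hl e.1.2)) ?_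
      simp only [hyb, fam]
      linear_combination l e.1.2 * hq e.1.1 + ![-1, 1] b * l e.1.1 * hq e.1.2 +
        ![-1, 1] b * (∏ k, l k) * c - l e.1.2 * (∏ k, l k) * hs
    rw [HS.L, h1, h2]
    simp
  have h0 : ∀ e : Ed g, (l e.1.1 : ℚ) - l e.1.2 ≠ 0 := fun e c => hm e 0 <| by
    have : l e.1.1 - l e.1.2 = 0 := by exact_mod_cast c
    simp only [Matrix.cons_val_zero]
    linear_combination this
  have h1 : ∀ e : Ed g, (l e.1.1 : ℚ) + l e.1.2 ≠ 0 := fun e c => hm e 1 <| by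
    have : l e.1.1 + l e.1.2 = 0 := by exact_mod_cast c
    simp only [Matrix.cons_val_one, Matrix.cons_val_zero]
    linear_combination this
  refine ⟨_, Zar.good hz hB 0 (fun i => (∏ k, l k) * l i) (fun i => -∏ k ∈ univ.erase i, l k)
    (fun e => (l e.1.1 + l e.1.2) / (l e.1.1 - l e.1.2)) (fun e => div_ne_zero (h1 e) (h0 e))
    (fun K _ v i => ?_) (fun e => ?_) fun e => ?_⟩
  · have h2 := congrArg (Int.cast : ℤ → K) (hq 0)
    have h3 := congrArg (Int.cast : ℤ → K) (hq i)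
    rw [Int.cast_mul] at h2 h3
    rw [hyb, Zar.fam_a]
    simp only [Zar.rr, Int.cast_mul, Int.cast_neg, Int.cast_one]
    linear_combination 4 * ((∏ k, l k : ℤ) : K) * v.1 * v.2 * (h2 - h3)
  · rw [div_mul_eq_mul_div, div_eq_iff (h0 e)]
    simp only [hyb, fam, Matrix.cons_val_zero, Int.cast_mul, Int.cast_neg, Int.cast_one,
      Int.cast_add]
    ring
  · have h2 := congrArg (Int.cast : ℤ → ℚ) ((hq e.1.1).trans (hq e.1.2).symm)
    rw [Int.cast_mul, Int.cast_mul] at h2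
    rw [div_mul_eq_mul_div, div_eq_iff (h0 e)]
    simp only [hyb, fam, Matrix.cons_val_zero, Int.cast_mul, Int.cast_neg, Int.cast_one,
      Int.cast_add]
    linear_combination 2 * h2

end Pool.Agent.MP_a43263_nt.JC
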