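import Pool.Agent.MP_a43263_nt.JC.Grp
import Pool.Agent.MP_a43263_nt.JC.Mum
import Pool.Agent.MP_a43263_nt.JC.Str
import Pool.Agent.MP_a43263_nt.JC.Gens
import Pool.Agent.MP_a43263_nt.JC.Zar
import Pool.Agent.MP_a43263_nt.JC.Cub
import Pool.Agent.MP_a43263_nt.JC.Hyb
import Pool.Agent.MP_a43263_nt.JC.Priv

/-! THEOREM J: examples in every genus for the ranks `0`, `1`, `2`. -/

set_option autoImplicit false

namespace Pool.Agent.MP_a43263_nt.JC

open Finset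

theorem lay_empty (g n : ℕ) : lay g (∅ : Finset (Fin n)) = ∅ := by simp [lay]

theorem cut_empty (g n : ℕ) : cut n (∅ : Finset (Vx g)) = ∅ := by simp [cut]

theorem lay_two (g : ℕ) : lay g ({0, 1} : Finset (Fin 2)) = symmDiff (lay g {0}) (lay g {1}) := by
  ext h
  have : h.2 = 0 ∨ h.2 = 1 := by omega
  rcases this with c | c <;> simp [lay, mem_symmDiff, c]

theorem exs : EXStmt := by
  intro g r hg hr
  obtain ⟨l, hl, hp, h3⟩ := priv (2 * g + 1)
  have gens := gens3 (grp mum str) tw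
  have e0 : ∀ F : HS g 2, F.Bas → ∃ u, F.Gd u (lay g ∅) := fun F hF => by
    rw [lay_empty, ← cut_empty]
    exact (gens g 2 F hF).2.1 ∅
  have s0 : ∀ y : Finset (Ed g × Fin 2), y = symmDiff y (lay g ∅) := fun y => by
    rw [lay_empty]
    exact (symmDiff_bot y).symm
  obtain rfl | rfl | rfl : r = 0 ∨ r = 1 ∨ r = 2 := by omega
  · obtain ⟨a, b⟩ := cub3 g 2 l hg (.inr rfl) hl hp h3
    have hF := (fam3 zar g 2 l _ hg two_ne_zero a).1
    refine ⟨2, l, _, (gens g 2 _ hF).2.2 0 {∅} rfl (fun β hb => ?_) fun u y hu => ?_⟩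
    · rw [mem_singleton.1 hb]
      exact e0 _ hF
    · obtain ⟨α, c | c⟩ := b u y hu
      · exact ⟨α, ∅, mem_singleton_self _, c.trans (s0 _)⟩
      · exact absurd c.1 (by decide)
  · obtain ⟨a, b⟩ := cub3 g 1 l hg (.inl rfl) hl hp h3
    obtain ⟨hF, h1⟩ := fam3 zar g 1 l _ hg one_ne_zero a
    refine ⟨1, l, _, (gens g 2 _ hF).2.2 1 {∅, {1}} rfl (fun β hb => ?_) fun u y hu => ?_⟩
    · rcases mem_insert.1 hb with rfl | hb
      · exact e0 _ hF
      · rw [mem_singleton.1 hb]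
        exact ⟨_, h1 rfl⟩
    · obtain ⟨α, c | c⟩ := b u y hu
      · exact ⟨α, ∅, by decide, c.trans (s0 _)⟩
      · exact ⟨α, {1}, by decide, c.2⟩
  · obtain ⟨a, b⟩ := hyb3 g l hg hl
    obtain ⟨hF, h1⟩ := fam3 zar g 1 _ _ hg one_ne_zero a
    obtain ⟨u0, h0⟩ := sec3 zar g l hg hF fun i => (hp i).ne'
    refine ⟨1, _, _, (gens g 2 _ hF).2.2 2 univ rfl (fun β _ => ?_) fun u y hu => ?_⟩
    · obtain rfl | rfl | rfl | rfl : β = ∅ ∨ β = {0} ∨ β = {1} ∨ β = {0, 1} := by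
        revert β
        decide
      · exact e0 _ hF
      · exact ⟨u0, h0⟩
      · exact ⟨_, h1 rfl⟩
      · rw [lay_two]
        exact ⟨_, (gens g 2 _ hF).1 _ _ _ _ h0 (h1 rfl)⟩
    · obtain ⟨α, β, c⟩ := b u y hu
      exact ⟨α, β, mem_univ _, c⟩

end Pool.Agent.MP_a43263_nt.JC
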