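import Pool.Agent.MP_a43263_nt.JC.GrpB

/-! THEOREM J, rows GREP, GRP, TW. -/

set_option autoImplicit false

namespace Pool.Agent.MP_a43263_nt.JC

open Polynomial Finset

namespace Grp

variable {K ι : Type} [Field K] [Fintype ι] {g : ℕ} {a : ι → K} {f : K[X]}

theorem tv_ne (h : Cv g a f) (i k : ι) : tv a i k ≠ 0 := by
  classical
  unfold tv fd
  split_ifs with c
  · exact prod_ne_zero_iff.2 fun l hl => sub_ne_zero.2 fun e => ne_of_mem_erase hl (h.inj e).symm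
  · exact sub_ne_zero.2 fun e => c (h.inj e).symm

/-- the polynomial that moves the Weierstrass point `(a i, 0)` away -/
theorem ui (h : Cv g a f) (i : ι) : ∃ U : K[X], U.Monic ∧ U.natDegree = 2 * g ∧
    (X - C (a i)) * U = f - (X - C (a i)) ^ 2 ∧ ∀ k, U.eval (a k) = tv a i k := by
  classical
  have hm : (∏ k ∈ univ.erase i, (X - C (a k)) : K[X]).Monic :=
    monic_prod_of_monic _ _ fun k _ => monic_X_sub_C _
  have hd : (∏ k ∈ univ.erase i, (X - C (a k)) : K[X]).natDegree = 2 * g := by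
    rw [natDegree_finsetProd_X_sub_C_eq_card, card_erase_of_mem (mem_univ i), card_univ, h.card]
    rfl
  have hl : (X - C (a i) : K[X]).natDegree < (∏ k ∈ univ.erase i, (X - C (a k)) : K[X]).natDegree := by
    rw [hd, natDegree_X_sub_C]
    have := h.pos
    omega
  refine ⟨∏ k ∈ univ.erase i, (X - C (a k)) - (X - C (a i)), hm.sub_of_left (degree_lt_degree hl),
    by rw [natDegree_sub_eq_left_of_natDegree_lt hl, hd], ?_, fun k => ?_⟩
  · rw [h.eq, fp, ← mul_prod_erase univ _ (mem_univ i)]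
    ring
  · simp only [eval_sub, eval_prod, eval_X, eval_C, tv, fd]
    split_ifs with c
    · rw [c, sub_self, sub_zero]
    · rw [prod_eq_zero (mem_erase.2 ⟨c, mem_univ k⟩) (sub_self _)]
      ring

theorem mk_ne {u : K[X]} (h : u ≠ 0) : (⟨u, 0⟩ : Rg f) ≠ 0 := fun e =>
  h (congrArg QuadraticAlgebra.re e)

end Grp

open Grp

theorem tw : TWStmt := by
  intro K ι _ _ _ g a h i
  obtain ⟨U, hm, hd, e, hv⟩ := ui h i
  refine ⟨U, X - C (a i), hm, Dvd.intro_left _ e, fun k => ⟨hv k ▸ tv_ne h i k, tv_ne h i k, ?_⟩⟩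
  rw [nb, hd, hv, pow_mul, neg_one_sq, one_pow, one_mul]
  exact ⟨_, rfl⟩

theorem grp : MUMStmt → STRStmt → GRPStmt := fun _ _ => grp0

theorem grep : PICStmt → MUMStmt → STRStmt → GREPStmt := by
  intro pic mum str K ι _ _ _ g a f h x
  obtain ⟨⟨-, -, -, dom⟩, -, m3, m4, m5, m6, -, -, -, n1, n2, -, n4, n5, n6, -⟩ :=
    mum K ι g a f h
  obtain ⟨p1, -, p3, p4⟩ := pic.1 (Rg f)
  have inv : ∀ U V : K[X], U.Monic → U ∣ f - V ^ 2 → Inv (MI f U V) := fun U V h1 h2 =>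
    (n6 _ _ (n1 U V h1 h2)).2.1
  have dec : ∀ I : Ideal (Rg f), Inv I → ∃ s U V : K[X], s.Monic ∧ U.Monic ∧ U ∣ f - V ^ 2 ∧
      I = PI f s * MI f U V ∧ cl (MI f U V) = cl I := by
    intro I hI
    obtain ⟨s, U, V, hs, hU, hd, e⟩ := str K f I dom (by
      obtain ⟨J, c, hc, e⟩ := hI
      rintro rfl
      rw [Ideal.bot_mul, eq_comm, Ideal.span_singleton_eq_bot] at e
      exact hc e)
    refine ⟨s, U, V, hs, hU, hd, e, (p4 _ _ (inv U V hU hd) hI).2
      ⟨⟨s, 0⟩, 1, mk_ne hs.ne_zero, one_ne_zero, ?_⟩⟩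
    rw [Ideal.span_singleton_one, Ideal.top_mul, e, PI]
  have mul : ∀ A B A' B' : K[X], Mum a f A B → Mum a f A' B' →
      ∃ U V, Mum a f U V ∧ cl (MI f U V) = cl (MI f A B * MI f A' B') := by
    intro A B A' B' h1 h2
    have nu := n4 _ _ _ _ (n1 A B h1.1 h1.2.1) (n1 A' B' h2.1 h2.2.1)
    obtain ⟨s, U, V, hs, hU, hd, e, c⟩ := dec _ (n6 _ _ nu).2.1
    refine ⟨U, V, ⟨hU, hd, fun i e0 => ?_⟩, c⟩
    have := congrArg (eval (a i)) (n5 _ _ _ nu (e ▸ n4 _ _ _ _ (n2 s hs) (n1 U V hU hd)))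
    rw [eval_mul, eval_mul, e0, mul_zero] at this
    exact mul_ne_zero (h1.2.2 i) (h2.2.2 i) this
  have key : ∀ (n : ℕ) (U V : K[X]), U.natDegree = n → U.Monic → U ∣ f - V ^ 2 →
      ∃ U' V', Mum a f U' V' ∧ cl (MI f U' V') = cl (MI f U V) := by
    intro n
    induction n using Nat.strong_induction_on with
    | _ n ih =>
      intro U V hn hU hd
      by_cases c : ∀ i, U.eval (a i) ≠ 0
      · exact ⟨U, V, ⟨hU, hd, c⟩, rfl⟩
      obtain ⟨i, hi⟩ := not_forall.1 c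
      obtain ⟨U₁, rfl⟩ := dvd_iff_isRoot.2 (not_not.1 hi)
      have hx := monic_X_sub_C (a i)
      have h1 := hx.of_mul_monic_left hU
      have d0 := (dvd_mul_right _ _).trans hd
      have d1 := (dvd_mul_left _ _).trans hd
      obtain ⟨A, B, hA, eA⟩ := ih _ (by rw [← hn, hx.natDegree_mul h1, natDegree_X_sub_C]; omega)
        U₁ V rfl h1 d1
      obtain ⟨T, hm, -, e, hv⟩ := ui h i
      have d2 : T ∣ f - (X - C (a i)) ^ 2 := Dvd.intro_left _ e
      have d3 : T ∣ f - (-(X - C (a i))) ^ 2 := by rwa [neg_sq]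
      have d4 : X - C (a i) ∣ V - (X - C (a i)) := by
        refine dvd_sub ((prime_X_sub_C (a i)).dvd_of_dvd_pow (n := 2) ?_) dvd_rfl
        have : X - C (a i) ∣ f := ⟨T + (X - C (a i)), by linear_combination -e⟩
        simpa using dvd_sub this d0
      have e1 : cl (MI f (X - C (a i)) V) = cl (MI f T (-(X - C (a i)))) := by
        refine (p4 _ _ (inv _ _ hx d0) (inv _ _ hm d3)).2 ⟨⟨T, 0⟩, ⟨-(X - C (a i)), 1⟩,
          mk_ne hm.ne_zero, fun e => one_ne_zero (congrArg QuadraticAlgebra.im e), ?_⟩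
        rw [← m5, ← e, ← m4 _ _ _ (e ▸ dvd_rfl), mul_assoc, m3 _ _ d2, m6 _ _ _ d4, mul_comm, PI]
      obtain ⟨U', V', hM, e2⟩ := mul T _ A B ⟨hm, d3, fun k => hv k ▸ tv_ne h i k⟩ hA
      refine ⟨U', V', hM, ?_⟩
      rw [e2, ← m4 _ _ _ hd, p3 _ _ (inv _ _ hm d3) (inv _ _ hA.1 hA.2.1),
        p3 _ _ (inv _ _ hx d0) (inv _ _ h1 d1), e1, eA]
  obtain ⟨I, hI, rfl⟩ := p1 x
  obtain ⟨s, U, V, -, hU, hd, -, c⟩ := dec I hI
  exact c ▸ key _ U V rfl hU hd

end Pool.Agent.MP_a43263_nt.JC
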