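import Pool.Agent.MP_a43263_nt.JC.SBasic
import Pool.Agent.MP_a43263_nt.JC.Grp
import Pool.Agent.MP_a43263_nt.JC.Cst
import Pool.Agent.MP_a43263_nt.RG.Cert

/-! THEOREM J, examples, first part: certificates for the hypotheses `card` and `sol`. -/

set_option autoImplicit false

noncomputable section

namespace Pool.Agent.MP_a43263_nt.JC.Ex

open Finset Polynomial
open RG.Cert (prod_sd sq_of)

variable {g n : ℕ}

/-! ### pairs -/

/-- the pair with members `i` and `k` -/
def ed (e₀ : Ed g) (i k : Vx g) : Ed g :=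
  if h : i < k then ⟨(i, k), h⟩ else if h : k < i then ⟨(k, i), h⟩ else e₀

variable {e₀ : Ed g}

theorem ed_comm (i k : Vx g) : ed e₀ i k = ed e₀ k i := by
  unfold ed
  rcases lt_trichotomy i k with h | rfl | h
  · rw [dif_pos h, dif_neg h.not_gt, dif_pos h]
  · rfl
  · rw [dif_pos h, dif_neg h.not_gt, dif_pos h]

theorem ed_self (e : Ed g) : ed e₀ e.1.1 e.1.2 = e := dif_pos e.2

theorem on_ed {i k : Vx g} (h : i ≠ k) (l : Vx g) : On l (ed e₀ i k) ↔ l = i ∨ l = k := by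
  unfold ed
  rcases lt_or_gt_of_ne h with c | c
  · rw [dif_pos c]
  · rw [dif_neg c.not_gt, dif_pos c, or_comm]

theorem ed_inj {i k k' : Vx g} (h : i ≠ k) (h' : i ≠ k') : ed e₀ i k = ed e₀ i k' ↔ k = k' :=
  ⟨fun e => ((on_ed h' k).1 (e ▸ (on_ed h k).2 (.inr rfl))).resolve_left h.symm, fun e => e ▸ rfl⟩

theorem exists_other {i : Vx g} {e : Ed g} (h : On i e) : ∃ k, i ≠ k ∧ e = ed e₀ i k := by
  rcases h with rfl | rfl
  · exact ⟨e.1.2, ed_ne e, (ed_self e).symm⟩
  · exact ⟨e.1.1, (ed_ne e).symm, by rw [ed_comm, ed_self]⟩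

theorem prod_on {M : Type} [CommMonoid M] (e₀ : Ed g) (y : Finset (Ed g × Fin n)) (i : Vx g)
    (f : Ed g × Fin n → M) : ∏ h ∈ y.filter (fun h => On i h.1), f h =
      ∏ k ∈ univ.erase i, ∏ t, if (ed e₀ i k, t) ∈ y then f (ed e₀ i k, t) else 1 := by
  rw [← prod_product' (univ.erase i) univ fun k t =>
    if (ed e₀ i k, t) ∈ y then f (ed e₀ i k, t) else 1, ← prod_filter]
  refine (prod_bij (fun x _ => (ed e₀ i x.1, x.2)) (fun x hx => ?_) (fun x hx z hz e => ?_)
    (fun h hh => ?_) fun _ _ => rfl).symm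
  · simp only [mem_filter, mem_product, mem_erase] at hx ⊢
    exact ⟨hx.2, (on_ed hx.1.1.1.symm i).2 (.inl rfl)⟩
  · simp only [mem_filter, mem_product, mem_erase, Prod.mk.injEq] at hx hz e
    exact Prod.ext ((ed_inj hx.1.1.1.symm hz.1.1.1.symm).1 e.1) e.2
  · obtain ⟨k, hk, e⟩ := exists_other (e₀ := e₀) (mem_filter.1 hh).2
    refine ⟨(k, h.2), ?_, Prod.ext e.symm rfl⟩
    simp only [mem_filter, mem_product, mem_erase, mem_univ, and_true, ← e]
    exact ⟨hk.symm, (mem_filter.1 hh).1⟩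

theorem not_on {i k : Vx g} (h : i ≠ k) :
    univ.filter (fun l => ¬On l (ed e₀ i k)) = (univ.erase i).erase k := by
  ext l
  simp only [mem_filter, mem_univ, true_and, on_ed h, mem_erase, and_true]
  tauto

/-! ### the residue group -/

/-- the generic point -/
abbrev gp : RatFunc ℚ × RatFunc ℚ := (RatFunc.X, 1)

/-- the hypotheses on the shape of the pencil -/
structure P0 (F : HS g n) : Prop where
  pos : 1 ≤ g
  ev : Even n
  two : 2 ≤ n
  c0 : ∀ e, F.c e ≠ 0
  ne : ∀ h k, h ≠ k → F.L h (F.root k) ≠ 0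
  sum : ∀ (K : Type) [Field K] (e : Ed g) (v : K × K), F.D e v = F.a v e.1.2 - F.a v e.1.1

variable {F : HS g n}

/-- the constant in the difference of two roots -/
def cc (F : HS g n) (e₀ : Ed g) (i k : Vx g) : ℤ := (if i < k then -1 else 1) * F.c (ed e₀ i k)

theorem P0.cc_ne (h : P0 F) (i k : Vx g) : cc F e₀ i k ≠ 0 :=
  mul_ne_zero (by split_ifs <;> simp) (h.c0 _)

theorem P0.diff (h : P0 F) {K : Type} [Field K] (v : K × K) {i k : Vx g} (hik : i ≠ k) :
    F.a v i - F.a v k = cc F e₀ i k * ∏ t, F.L (ed e₀ i k, t) v := by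
  unfold cc ed
  rcases lt_or_gt_of_ne hik with c | c
  · have := h.sum K ⟨(i, k), c⟩ v
    rw [dif_pos c, if_pos c]
    rw [HS.D] at this
    push_cast
    linear_combination this
  · have := h.sum K ⟨(k, i), c⟩ v
    rw [dif_neg c.not_gt, dif_pos c, if_neg c.not_gt, one_mul]
    exact this.symm

theorem P0.root (h : P0 F) (k : Ed g × Fin n) : F.a (F.root k) k.1.1.1 = F.a (F.root k) k.1.1.2 := by
  have := h.sum ℚ k.1 (F.root k)
  rw [HS.D, prod_eq_zero (mem_univ k.2) (by simp only [HS.L, HS.root]; ring), mul_zero] at this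
  exact (sub_eq_zero.1 this.symm).symm

theorem P0.gam (h : P0 F) (k : Ed g × Fin n) : F.gam k ≠ 0 :=
  prod_ne_zero_iff.2 fun l hl => by
    have hl := not_or.1 (mem_filter.1 hl).2
    rw [h.diff (e₀ := k.1) _ (Ne.symm hl.1)]
    refine mul_ne_zero (Int.cast_ne_zero.2 (h.cc_ne _ _)) (prod_ne_zero_iff.2 fun t _ =>
      h.ne _ _ fun e => (not_or.2 hl) ?_)
    rw [← e]
    exact (on_ed (Ne.symm hl.1) l).2 (.inr rfl)

theorem P0.L (h : P0 F) (j : Ed g × Fin n) : F.L j gp ≠ 0 := by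
  intro e
  have e' : algebraMap (Polynomial ℚ) (RatFunc ℚ) (C (F.A j : ℚ) * X + C (F.B j : ℚ)) = 0 := by
    simpa [HS.L] using e
  rw [map_eq_zero_iff _ (RatFunc.algebraMap_injective ℚ)] at e'
  have b0 : F.B j = 0 := by simpa using congrArg (eval 0) e'
  have a0 : F.A j = 0 := by simpa [b0] using congrArg (eval 1) e'
  have := h.two
  have : Nontrivial (Fin n) := Fin.nontrivial_iff_two_le.2 this
  obtain ⟨t, ht⟩ := exists_ne j.2
  exact h.ne j (j.1, t) (fun e => ht (congrArg Prod.snd e).symm) (by simp [HS.L, a0, b0])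

theorem P0.cv (h : P0 F) : Cv g (F.a gp) (fp (F.a gp)) :=
  ⟨card_Vx g, h.pos, fun i k e => by
    by_contra c
    obtain ⟨e₀, -⟩ := exists_ed c
    have := h.diff (e₀ := e₀) gp c
    rw [e, sub_self] at this
    exact mul_ne_zero (Int.cast_ne_zero.2 (h.cc_ne _ _))
      (prod_ne_zero_iff.2 fun _ _ => h.L _) this.symm, rfl⟩

/-- the contribution of the form `k` to the residue at the zero of `h` -/
def om (F : HS g n) (h k : Ed g × Fin n) : ℚ :=
  if k = h then F.gam h else if k.1 = h.1 then 1 else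
    (if On h.1.1.1 k.1 then F.L k (F.root h) else 1) *
      if On h.1.1.2 k.1 then F.L k (F.root h) else 1

theorem P0.om (h : P0 F) (j k : Ed g × Fin n) : om F j k ≠ 0 := by
  unfold Ex.om
  by_cases c : k = j
  · rw [if_pos c]; exact h.gam j
  · have := h.ne k j c
    rw [if_neg c]
    split_ifs <;> simp [this]

theorem res_eq (u : Vx g → ℚ) (y : Finset (Ed g × Fin n)) (h : Ed g × Fin n) :
    (F.del u (y.filter fun k => k.1 ≠ h.1) (F.root h) h.1.1.1 *
      F.del u (y.filter fun k => k.1 ≠ h.1) (F.root h) h.1.1.2 * if h ∈ y then F.gam h else 1) =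
      u h.1.1.1 * u h.1.1.2 * ∏ k ∈ y, om F h k := by
  rw [HS.del, HS.del, mul_mul_mul_comm, mul_assoc, ← prod_ite_eq' y h fun _ => F.gam h]
  simp only [prod_filter, ← prod_mul_distrib, Rat.cast_id]
  refine congrArg _ (prod_congr rfl fun k _ => ?_)
  unfold om
  by_cases c : k = h
  · simp [c]
  · by_cases d : k.1 = h.1 <;> simp [c, d]

theorem prod_sd' {M : Type} [CommMonoid M] (f : Ed g × Fin n → M) (i : Vx g)
    (y y' : Finset (Ed g × Fin n)) :
    (∏ j ∈ y.filter (fun j => On i j.1), f j) * ∏ j ∈ y'.filter (fun j => On i j.1), f j =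
      (∏ j ∈ (symmDiff y y').filter (fun j => On i j.1), f j) *
        (∏ j ∈ (y ∩ y').filter (fun j => On i j.1), f j) ^ 2 := by
  simp only [prod_filter]
  exact prod_sd _ y y'

theorem inS_mul (h : P0 F) {u u' : Vx g → ℚ} {y y' : Finset (Ed g × Fin n)} (p : F.InS u y)
    (q : F.InS u' y') : F.InS (u * u') (symmDiff y y') := by
  refine ⟨fun i => mul_ne_zero (p.1 i) (q.1 i), ?_, fun i => ?_, fun j => ?_⟩
  · simp only [Pi.mul_apply, prod_mul_distrib]
    exact p.2.1.mul q.2.1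
  · have := prod_sd' (fun _ => (-1 : ℤ)) i y y'
    simp only [prod_const, (p.2.2.1 i).neg_one_pow, (q.2.2.1 i).neg_one_pow] at this
    rw [← pow_mul, mul_comm _ 2, pow_mul, neg_one_sq, one_pow, mul_one, mul_one] at this
    exact (neg_one_pow_eq_one_iff_even (R := ℤ) (by norm_num)).1 this.symm
  · have := (p.2.2.2 j).mul (q.2.2.2 j)
    rw [res_eq, res_eq, mul_mul_mul_comm, prod_sd] at this
    rw [res_eq]
    refine sq_of (prod_ne_zero_iff.2 fun k (_ : k ∈ y ∩ y') => h.om j k) ?_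
    refine (congrArg IsSquare ?_).mp this
    simp only [Pi.mul_apply]
    ring

/-- the class of `y` has a rational divisor -/
def Gd (F : HS g n) (y : Finset (Ed g × Fin n)) : Prop :=
  ∃ u, F.InS u y ∧ W (F.a gp) (F.del u y gp)

theorem P0.del (h : P0 F) {u : Vx g → ℚ} (hu : ∀ i, u i ≠ 0) (y : Finset (Ed g × Fin n))
    (i : Vx g) : F.del u y gp i ≠ 0 :=
  mul_ne_zero (by exact_mod_cast hu i) (prod_ne_zero_iff.2 fun _ _ => h.L _)

theorem Gd.mul (h : P0 F) {y y' : Finset (Ed g × Fin n)} (p : Gd F y) (q : Gd F y') :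
    Gd F (symmDiff y y') := by
  obtain ⟨u, p, p'⟩ := p
  obtain ⟨u', q, q'⟩ := q
  have r := inS_mul h p q
  refine ⟨u * u', r, Cst.congr (p'.mul q') fun i => ⟨h.del r.1 _ i, F.del (u * u')
    (symmDiff y y') gp i * ∏ j ∈ (y ∩ y').filter (fun j => On i j.1), F.L j gp, ?_⟩⟩
  unfold HS.del
  rw [mul_mul_mul_comm (u i : RatFunc ℚ), prod_sd', Pi.mul_apply, Rat.cast_mul]
  ring

theorem Gd.sol (h : P0 F) {y : Finset (Ed g × Fin n)} (p : Gd F y) {u : Vx g → ℚ}
    (q : F.InS u y) : W (F.a gp) (F.del u y gp) := by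
  obtain ⟨u', p, p'⟩ := p
  have e := inS_mul h q p
  have h1 : ∀ i k, IsSquare ((u * u') i * (u * u') k) := fun i k => by
    by_cases c : i = k
    · exact ⟨_, by rw [c]⟩
    obtain ⟨d, hd⟩ := exists_ed c
    have := e.2.2.2 (d, ⟨0, by have := h.two; omega⟩)
    rw [res_eq, symmDiff_self, bot_eq_empty, prod_empty, mul_one] at this
    rcases hd with ⟨rfl, rfl⟩ | ⟨rfl, rfl⟩
    · exact this
    · rwa [mul_comm]
  refine Cst.congr p' fun i => ⟨h.del q.1 y i, ?_⟩
  have h2 : IsSquare (∏ k, (u * u') i * (u * u') k) :=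
    prod_induction _ IsSquare (fun _ _ => IsSquare.mul) IsSquare.one fun k _ => h1 i k
  obtain ⟨s, hs⟩ := e.2.1
  rw [prod_mul_distrib, prod_const, card_univ, card_Vx, hs] at h2
  have s0 : s ≠ 0 := left_ne_zero_of_mul (hs ▸ prod_ne_zero_iff.2 fun k _ => e.1 k)
  obtain ⟨t, ht⟩ : IsSquare ((u * u') i) := sq_of (mul_ne_zero (pow_ne_zero g (e.1 i)) s0)
    ((congrArg IsSquare (by ring)).mp h2)
  refine ⟨t * ∏ j ∈ y.filter (fun j => On i j.1), F.L j gp, ?_⟩
  unfold HS.del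
  rw [mul_mul_mul_comm, ← Rat.cast_mul, show u i * u' i = t * t from ht, Rat.cast_mul]
  ring

theorem gd_empty : Gd F ∅ :=
  ⟨1, ⟨by simp, by simp, by simp, fun h => by rw [res_eq]; simp⟩, 1, 0, monic_one, one_dvd _,
    fun i => by simp [HS.del, nb]⟩

theorem cert (h : P0 F) {ι : Type} [Fintype ι] [DecidableEq ι] {r : ℕ} (pv : ι → Ed g × Fin n)
    (hc : Fintype.card ι = 2 * g + r) (hb : ∀ k, ∃ b, Gd F b ∧ ∀ i, pv i ∈ b ↔ i = k)
    (h0 : ∀ u y, F.InS u y → (∀ i, pv i ∉ y) → y = ∅) : F.Hyp r := by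
  have ex : ∀ T : Finset ι, ∃ b, Gd F b ∧ ∀ i, pv i ∈ b ↔ i ∈ T := fun T => by
    induction T using Finset.induction_on with
    | empty => exact ⟨∅, gd_empty, by simp⟩
    | insert k T hk ih =>
      obtain ⟨b, b1, b2⟩ := hb k
      obtain ⟨c, c1, c2⟩ := ih
      refine ⟨_, b1.mul h c1, fun i => ?_⟩
      by_cases e : i = k <;> simp [mem_symmDiff, b2, c2, e, hk]
  choose sm s1 s2 using ex
  have key : ∀ u y, F.InS u y → ∃ T, y = sm T := fun u y hy => by
    obtain ⟨u', p, -⟩ := s1 (univ.filter fun i => pv i ∈ y)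
    refine ⟨_, symmDiff_eq_bot.1 (h0 _ _ (inS_mul h hy p) fun i => ?_)⟩
    simp [mem_symmDiff, s2]
  refine ⟨h.pos, h.ev, h.c0, h.ne, h.sum ℚ, ?_, fun u y hy => ?_⟩
  · have : {y | ∃ u, F.InS u y} = Set.range sm := by
      ext y
      constructor
      · rintro ⟨u, hu⟩
        exact (key u y hu).imp fun _ e => e.symm
      · rintro ⟨T, rfl⟩
        exact (s1 T).imp fun _ e => e.1
    rw [this, Set.ncard_range_of_injective, Nat.card_eq_fintype_card, Fintype.card_finset, hc]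
    intro T T' e
    ext i
    rw [← s2, e, s2]
  · obtain ⟨T, rfl⟩ := key u y hy
    exact (s1 T).sol h hy

end Pool.Agent.MP_a43263_nt.JC.Ex
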