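import Mathlib.Algebra.Ring.NegOnePow
import Pool.Agent.MP_a43263_nt.JC.ExA

/-! THEOREM J, examples, second part: the classes of the Weierstrass points and of halves of
points; a criterion for `r = 0`. -/

set_option autoImplicit false

noncomputable section

namespace Pool.Agent.MP_a43263_nt.JC.Ex

open Finset Polynomial

variable {g n : ℕ} {e₀ : Ed g} {F : HS g n}

theorem even_of {ι : Type} {s : Finset ι} (h : ∏ _x ∈ s, (-1 : ℤ) = 1) : Even s.card :=
  (neg_one_pow_eq_one_iff_even (R := ℤ) (by norm_num)).1 (prod_const (-1 : ℤ) ▸ h)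

theorem card_er (i : Vx g) : (univ.erase i).card = 2 * g := by
  rw [card_erase_of_mem (mem_univ i), card_univ, card_Vx]
  rfl

theorem mem_er {p q : Vx g} (h : p ≠ q) : q ∈ univ.erase p := mem_erase.2 ⟨h.symm, mem_univ _⟩

/-! ### Weierstrass points -/

def yT (n : ℕ) (i : Vx g) : Finset (Ed g × Fin n) := univ.filter fun h => On i h.1

def uT (F : HS g n) (e₀ : Ed g) (i k : Vx g) : ℚ :=
  if k = i then ∏ l ∈ univ.erase i, (cc F e₀ i l : ℚ) else cc F e₀ i k

theorem prodT {M : Type} [CommMonoid M] (i p : Vx g) (P : Ed g → Prop) [DecidablePred P]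
    (f : Ed g × Fin n → M) :
    ∏ h ∈ ((yT n i).filter fun k => P k.1).filter (fun h => On p h.1), f h =
      ∏ k ∈ univ.erase p, if (i = p ∨ i = k) ∧ P (ed e₀ p k) then ∏ t, f (ed e₀ p k, t) else 1 := by
  rw [prod_on e₀]
  refine prod_congr rfl fun k hk => ?_
  simp only [yT, mem_filter, mem_univ, true_and, on_ed (ne_of_mem_erase hk).symm]
  split_ifs <;> simp

theorem delT (h : P0 F) {K : Type} [Field K] [CharZero K] (v : K × K) (i p : Vx g) :
    F.del (uT F e₀ i) (yT n i) v p = tv (F.a v) i p := by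
  have := prodT (e₀ := e₀) i p (fun _ => True) fun k : Ed g × Fin n => F.L k v
  rw [filter_true] at this
  rw [HS.del, this, uT, tv]
  by_cases c : p = i
  · subst c
    simp only [if_true, true_or, and_self, fd, Rat.cast_prod, Rat.cast_intCast, ← prod_mul_distrib]
    exact prod_congr (by ext; simp) fun k hk => (h.diff v (Ne.symm (by simpa using hk))).symm
  · simp only [if_neg c, Ne.symm c, false_or, and_true]
    rw [prod_ite_eq, if_pos (mem_er c), h.diff (e₀ := e₀) v (Ne.symm c), ed_comm, Rat.cast_intCast]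

theorem delT2 (h : P0 F) (v : ℚ × ℚ) (i : Vx g) {p q : Vx g} (hpq : p ≠ q) :
    F.del (uT F e₀ i) ((yT n i).filter fun k => k.1 ≠ ed e₀ p q) v p =
      if i = p then cc F e₀ p q * ∏ k ∈ (univ.erase p).erase q, (F.a v p - F.a v k)
      else if i = q then (cc F e₀ q p : ℚ) else F.a v i - F.a v p := by
  rw [HS.del, prodT (e₀ := e₀) i p (fun e => e ≠ ed e₀ p q), uT, Rat.cast_id,
    prod_congr rfl fun k hk => if_congr (and_congr_right' (not_congr
      (ed_inj (ne_of_mem_erase hk).symm hpq))) rfl rfl]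
  by_cases c : i = p
  · subst c
    simp only [if_true, true_or, true_and]
    rw [← mul_prod_erase _ _ (mem_er hpq), ← mul_prod_erase _ _ (mem_er hpq), if_neg (by simp),
      one_mul, mul_assoc, ← prod_mul_distrib]
    exact congrArg _ (prod_congr rfl fun k hk => by
      rw [if_pos (ne_of_mem_erase hk), h.diff v (ne_of_mem_erase (mem_of_mem_erase hk)).symm])
  · rw [if_neg (Ne.symm c), if_neg c]
    simp only [c, false_or]
    by_cases d : i = q
    · subst d
      rw [if_pos rfl, prod_eq_one fun k _ => if_neg fun e => e.2 e.1.symm, mul_one]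
    · rw [if_neg d, prod_eq_single i (fun k _ e => if_neg fun e' => e e'.1.symm)
        (fun e => absurd (mem_er (Ne.symm c)) e), if_pos ⟨rfl, d⟩, h.diff (e₀ := e₀) v c, ed_comm]

theorem gdT (h : P0 F) (e₀ : Ed g) (i : Vx g) : Gd F (yT n i) := by
  refine ⟨uT F e₀ i, ⟨fun k => ?_, ?_, fun k => even_of ?_, fun k => ?_⟩, ?_⟩
  · unfold uT
    split_ifs
    exacts [prod_ne_zero_iff.2 fun l _ => Int.cast_ne_zero.2 (h.cc_ne _ _),
      Int.cast_ne_zero.2 (h.cc_ne _ _)]
  · rw [← mul_prod_erase _ _ (mem_univ i)]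
    exact ⟨uT F e₀ i i, congrArg _ ((prod_congr rfl fun k hk =>
      if_neg (ne_of_mem_erase hk)).trans (if_pos rfl).symm)⟩
  · have := prodT (e₀ := e₀) i k (fun _ => True) fun _ : Ed g × Fin n => (-1 : ℤ)
    rw [filter_true] at this
    rw [this]
    exact prod_eq_one fun l _ => by simp [h.ev.neg_one_pow]
  · have hr := h.root k
    have e1 := delT2 (e₀ := e₀) h (F.root k) i (ed_ne k.1)
    have e2 := delT2 (e₀ := e₀) h (F.root k) i (ed_ne k.1).symm
    rw [ed_comm] at e2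
    rw [ed_self] at e1 e2
    rw [e1, e2, HS.gam, filter_not_on]
    simp only [yT, mem_filter, mem_univ, true_and, On]
    by_cases c : i = k.1.1.1
    · rw [if_pos c, if_neg (c ▸ ed_ne k.1), if_pos c, if_pos (.inl c)]
      exact ⟨_, mul_assoc _ _ _⟩
    by_cases d : i = k.1.1.2
    · rw [if_neg c, if_pos d, if_pos d, if_pos (.inr d), erase_right_comm, ← hr]
      rw [← mul_assoc, mul_assoc]
      exact IsSquare.mul ⟨_, rfl⟩ ⟨_, rfl⟩
    · rw [if_neg c, if_neg d, if_neg d, if_neg c, if_neg (not_or.2 ⟨c, d⟩), mul_one, hr]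
      exact ⟨_, rfl⟩
  · rw [funext (delT h gp i)]
    exact tw _ _ g _ h.cv i

/-! ### halves of points -/

theorem zar {K ι : Type} [Field K] [DecidableEq ι] (a r : ι → K) (x : K)
    (hr : ∀ i, r i ^ 2 = x - a i) (s : Finset ι) : ∃ A B : K[X],
    ∏ i ∈ s, (X - C (a i)) - A ^ 2 = (X - C x) * B * B ∧
    (∀ i (t : K), t ^ 2 = 1 → A.eval (a i) + t * r i * B.eval (a i) = ∏ k ∈ s, (r k + t * r i)) ∧
    ∀ m, (s.card = 2 * m → A.natDegree ≤ m ∧ A.coeff m = (-1) ^ m ∧ B.natDegree ≤ m ∧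
      B.coeff m = 0 ∧ ((X - C x) * B).natDegree ≤ m) ∧
      (s.card = 2 * m + 1 → A.natDegree ≤ m ∧ B.natDegree ≤ m ∧ B.coeff m = (-1) ^ m) := by
  induction s using Finset.induction_on with
  | empty => exact ⟨1, 0, by simp, by simp, fun m => ⟨fun e => by
      obtain rfl : m = 0 := by simpa using e.symm
      simp, fun e => by simp at e⟩⟩
  | insert j s hj ih =>
    obtain ⟨A, B, h1, h2, h3⟩ := ih
    have hr' : (C (r j) : K[X]) ^ 2 = C x - C (a j) := by rw [← C_pow, hr, C_sub]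
    refine ⟨C (r j) * A - (X - C x) * B, A + C (r j) * B, ?_, fun i t ht => ?_, fun m =>
      ⟨fun e => ?_, fun e => ?_⟩⟩
    · rw [prod_insert hj]
      linear_combination (X - C (a j)) * h1 - (A ^ 2 + (X - C x) * B ^ 2) * hr'
    · rw [prod_insert hj, ← h2 i t ht]
      simp only [eval_add, eval_sub, eval_mul, eval_C, eval_X]
      linear_combination (-B.eval (a i)) * hr i - r i ^ 2 * B.eval (a i) * ht
    · rw [card_insert_of_notMem hj] at e
      obtain ⟨m, rfl⟩ : ∃ k, m = k + 1 := ⟨m - 1, by omega⟩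
      obtain ⟨a1, b1, b2⟩ := (h3 m).2 (by omega)
      have d1 : (A + C (r j) * B).natDegree ≤ m :=
        natDegree_add_le_of_degree_le a1 ((natDegree_C_mul_le _ _).trans b1)
      have d2 : ∀ Q : K[X], Q.natDegree ≤ m → ((X - C x) * Q).natDegree ≤ m + 1 := fun Q hQ =>
        natDegree_mul_le.trans (by rw [natDegree_X_sub_C]; omega)
      refine ⟨(natDegree_sub_le_iff_left (d2 B b1)).2 ((natDegree_C_mul_le _ _).trans (by omega)),
        ?_, by omega, coeff_eq_zero_of_natDegree_lt (by omega), d2 _ d1⟩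
      rw [coeff_sub, coeff_C_mul, coeff_X_sub_C_mul, b2, coeff_eq_zero_of_natDegree_lt (by omega),
        coeff_eq_zero_of_natDegree_lt (p := B) (by omega)]
      ring
    · rw [card_insert_of_notMem hj] at e
      obtain ⟨a1, a2, b1, b2, b3⟩ := (h3 m).1 (by omega)
      exact ⟨(natDegree_sub_le_iff_left b3).2 ((natDegree_C_mul_le _ _).trans a1),
        natDegree_add_le_of_degree_le a1 ((natDegree_C_mul_le _ _).trans b1),
        by rw [coeff_add, coeff_C_mul, a2, b2, mul_zero, add_zero]⟩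

theorem zarW {K : Type} [Field K] [CharZero K] (a r : Vx g → K) (x : K)
    (hr : ∀ i, r i ^ 2 = x - a i) (h0 : ∀ i, r i ≠ 0) (h1 : ∀ i k, i ≠ k → r i + r k ≠ 0) :
    W a fun i => ∏ k ∈ univ.erase i, (r i + r k) := by
  obtain ⟨A, B, e1, e2, e3⟩ := zar a r x hr univ
  obtain ⟨-, b1, b2⟩ := (e3 g).2 (by rw [card_univ, card_Vx])
  have s1 : ((-1 : K) ^ g) * (-1) ^ g = 1 := by rw [← mul_pow]; simp
  have hm : (C ((-1) ^ g) * B).IsMonicOfDegree g :=
    (isMonicOfDegree_iff _ _).2 ⟨(natDegree_C_mul_le _ _).trans b1, by rw [coeff_C_mul, b2, s1]⟩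
  have hv : ∀ i, B.eval (a i) = ∏ k ∈ univ.erase i, (r i + r k) := fun i => by
    have f1 := e2 i 1 (by simp)
    have f2 := e2 i (-1) (by simp)
    rw [prod_eq_zero (mem_univ i) (by ring)] at f2
    rw [← mul_prod_erase _ _ (mem_univ i)] at f1
    simp only [one_mul, add_comm (r _) (r i)] at f1
    exact mul_left_cancel₀ (mul_ne_zero two_ne_zero (h0 i)) (by linear_combination f1 - f2)
  have hn : ∀ i, ∏ k ∈ univ.erase i, (r i + r k) ≠ 0 := fun i =>
    prod_ne_zero_iff.2 fun k hk => h1 i k (ne_of_mem_erase hk).symm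
  refine ⟨_, A, hm.monic, ⟨C ((-1) ^ g) * (X - C x) * B, ?_⟩, fun i => ⟨?_, hn i, ?_⟩⟩
  · rw [fp, e1]
    have := congrArg C s1
    rw [C_mul, C_1] at this
    linear_combination (-(X - C x) * B * B) * this
  · rw [eval_C_mul, hv]
    exact mul_ne_zero (left_ne_zero_of_mul_eq_one s1) (hn i)
  · rw [nb, hm.natDegree_eq, eval_C_mul, ← mul_assoc ((-1) ^ g), s1, one_mul, hv]
    exact ⟨_, rfl⟩

def yR (g : ℕ) (t : Fin n) : Finset (Ed g × Fin n) := univ.filter fun h => h.2 = t

theorem prodR {M : Type} [CommMonoid M] (t : Fin n) (p : Vx g) (P : Ed g → Prop)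
    [DecidablePred P] (f : Ed g × Fin n → M) :
    ∏ h ∈ ((yR g t).filter fun k => P k.1).filter (fun h => On p h.1), f h =
      ∏ k ∈ univ.erase p, if P (ed e₀ p k) then f (ed e₀ p k, t) else 1 := by
  rw [prod_on e₀]
  refine prod_congr rfl fun k _ => ?_
  simp only [yR, mem_filter, mem_univ, true_and]
  by_cases c : P (ed e₀ p k) <;> simp [c]

theorem gdR (h : P0 F) (e₀ : Ed g) (t : Fin n) (ρ : Vx g → Vx g → ℤ)
    (r : (K : Type) → [Field K] → K × K → Vx g → K) (hs : ∀ i k, ρ i k = ρ k i)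
    (hρ : ∀ i k, i ≠ k → ρ i k ≠ 0) (h0 : ∀ i, r _ gp i ≠ 0)
    (h1 : ∀ (K : Type) [Field K] (v : K × K) i k, i ≠ k →
      r K v i + r K v k = ρ i k * F.L (ed e₀ i k, t) v)
    (h2 : ∀ (K : Type) [Field K] (v : K × K) i k, r K v i ^ 2 - r K v k ^ 2 = F.a v k - F.a v i) :
    Gd F (yR g t) := by
  have d2 : ∀ (v : ℚ × ℚ) {p q : Vx g}, p ≠ q → F.del (fun i => ∏ k ∈ univ.erase i, (ρ i k : ℚ))
      ((yR g t).filter fun k => k.1 ≠ ed e₀ p q) v p =
      ρ p q * ∏ k ∈ (univ.erase p).erase q, (r ℚ v p + r ℚ v k) := fun v p q hpq => by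
    rw [HS.del, prodR (e₀ := e₀) t p (fun e => e ≠ ed e₀ p q), Rat.cast_id,
      ← mul_prod_erase _ _ (mem_er hpq), ← mul_prod_erase _ _ (mem_er hpq), if_neg (by simp),
      one_mul, mul_assoc, ← prod_mul_distrib]
    refine congrArg _ (prod_congr rfl fun k hk => ?_)
    have := (ne_of_mem_erase (mem_of_mem_erase hk)).symm
    rw [if_pos fun e => ne_of_mem_erase hk ((ed_inj this hpq).1 e), h1 ℚ v p k this]
  refine ⟨fun i => ∏ k ∈ univ.erase i, (ρ i k : ℚ), ⟨fun i => prod_ne_zero_iff.2 fun k hk =>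
    Int.cast_ne_zero.2 (hρ i k (ne_of_mem_erase hk).symm), ?_, fun k => even_of ?_, fun k => ?_⟩, ?_⟩
  · have := prod_prod_Ioi_mul_eq_prod_prod_off_diag fun i k : Vx g => (ρ k i : ℚ)
    simp only [compl_singleton] at this
    rw [← this]
    exact prod_induction _ IsSquare (fun _ _ => IsSquare.mul) IsSquare.one fun i _ =>
      prod_induction _ IsSquare (fun _ _ => IsSquare.mul) IsSquare.one fun k _ =>
        ⟨_, by rw [hs]⟩
  · have := prodR (e₀ := e₀) t k (fun _ => True) fun _ : Ed g × Fin n => (-1 : ℤ)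
    rw [filter_true] at this
    rw [this]
    simp only [if_true]
    rw [prod_const, card_er, pow_mul, neg_one_sq, one_pow]
  · have e1 := d2 (F.root k) (ed_ne k.1)
    have e2 := d2 (F.root k) (ed_ne k.1).symm
    have e3 := h1 ℚ (F.root k) _ _ (ed_ne k.1)
    rw [ed_comm] at e2
    rw [ed_self] at e1 e2 e3
    rw [e1, e2, HS.gam, filter_not_on, erase_right_comm (a := k.1.1.2), hs k.1.1.2,
      mul_mul_mul_comm, ← prod_mul_distrib]
    simp only [yR, mem_filter, mem_univ, true_and]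
    by_cases c : k.2 = t
    · rw [← c, show F.L (k.1, k.2) (F.root k) = 0 by simp only [HS.L, HS.root]; ring,
        mul_zero] at e3
      rw [if_pos c, prod_congr rfl fun l _ => show (r ℚ (F.root k) k.1.1.1 + r ℚ (F.root k) l) *
        (r ℚ (F.root k) k.1.1.2 + r ℚ (F.root k) l) = F.a (F.root k) k.1.1.1 - F.a (F.root k) l by
          linear_combination (r ℚ (F.root k) k.1.1.1 + r ℚ (F.root k) l) * e3 +
            h2 ℚ (F.root k) l k.1.1.1, mul_assoc]
      exact IsSquare.mul ⟨_, rfl⟩ ⟨_, rfl⟩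
    · have e4 := h2 ℚ (F.root k) k.1.1.1 k.1.1.2
      rw [h.root k, sub_self, sq_sub_sq, e3] at e4
      rw [if_neg c, mul_one, sub_eq_zero.1 ((mul_eq_zero.1 e4).resolve_left (mul_ne_zero
        (Int.cast_ne_zero.2 (hρ _ _ (ed_ne k.1))) (h.ne _ _ fun e => c (congrArg Prod.snd e).symm))),
        prod_mul_distrib]
      exact IsSquare.mul ⟨_, rfl⟩ ⟨_, rfl⟩
  · have e : ∀ i, F.del (fun i => ∏ k ∈ univ.erase i, (ρ i k : ℚ)) (yR g t) gp i =
        ∏ k ∈ univ.erase i, (r _ gp i + r _ gp k) := fun i => by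
      have := prodR (e₀ := e₀) t i (fun _ => True) fun k : Ed g × Fin n => F.L k gp
      rw [filter_true] at this
      rw [HS.del, this]
      simp only [if_true, Rat.cast_prod, Rat.cast_intCast, ← prod_mul_distrib]
      exact prod_congr rfl fun k hk => (h1 _ gp i k (ne_of_mem_erase hk).symm).symm
    rw [funext e]
    exact zarW _ _ (r _ gp 0 ^ 2 + F.a gp 0) (fun i => by linear_combination h2 _ gp i 0) h0
      fun i k hik => h1 _ gp i k hik ▸ mul_ne_zero (Int.cast_ne_zero.2 (hρ i k hik)) (h.L _)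

/-! ### quadratic characters -/

def Ch (χ : ℚ →* ℤ) : Prop := ∀ x, x ≠ 0 → χ x = 1 ∨ χ x = -1

theorem Ch.sq {χ : ℚ →* ℤ} (h : Ch χ) {x : ℚ} (h0 : x ≠ 0) (hx : IsSquare x) : χ x = 1 := by
  obtain ⟨s, rfl⟩ := hx
  rw [map_mul]
  rcases h s (left_ne_zero_of_mul h0) with e | e <;> simp [e]

/-- the parity of the valuation at `p` -/
def chi (p : ℕ) [Fact p.Prime] : ℚ →* ℤ where
  toFun x := if x = 0 then 0 else ((padicValRat p x).negOnePow : ℤ)
  map_one' := by simp
  map_mul' x y := by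
    by_cases a : x = 0
    · simp [a]
    by_cases b : y = 0
    · simp [b]
    simp [a, b, padicValRat.mul a b, Int.negOnePow_add]

section
variable {p : ℕ} [Fact p.Prime]

theorem chi_ch : Ch (chi p) := fun x hx => by
  rcases Int.units_eq_one_or (padicValRat p x).negOnePow with e | e <;> simp [chi, hx, e]

theorem chi_one {x : ℤ} (h : ¬(p : ℤ) ∣ x) : chi p x = 1 := by
  have h0 : x ≠ 0 := fun e => h (e ▸ dvd_zero _)
  simp [chi, h0, padicValInt.eq_zero_of_not_dvd h]

theorem chi_neg {x : ℤ} (h : (p : ℤ) ∣ x) (h2 : ¬(p : ℤ) ^ 2 ∣ x) : chi p x = -1 := by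
  have h0 : x ≠ 0 := fun e => h2 (e ▸ dvd_zero _)
  have e : padicValInt p x = 1 := by
    have a := ((padicValInt_dvd_iff 1 x).1 (by rwa [pow_one])).resolve_left h0
    have b := mt (fun c => (padicValInt_dvd_iff 2 x).2 (.inr c)) h2
    omega
  simp [chi, h0, e]

end

theorem res_chi (h : P0 F) {χ : ℚ →* ℤ} (hχ : Ch χ) {u : Vx g → ℚ} {y : Finset (Ed g × Fin n)}
    (hy : F.InS u y) (k : Ed g × Fin n) :
    χ (u k.1.1.1) * χ (u k.1.1.2) * ∏ j ∈ y, χ (om F k j) = 1 := by
  have := hy.2.2.2 k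
  rw [res_eq] at this
  rw [← map_prod, ← map_mul, ← map_mul]
  exact hχ.sq (mul_ne_zero (mul_ne_zero (hy.1 _) (hy.1 _))
    (prod_ne_zero_iff.2 fun j _ => h.om k j)) this

theorem card_nz (g : ℕ) : Fintype.card {i : Vx g // i ≠ 0} = 2 * g := by simp

/-- a character that sees all constants and no resultant -/
theorem hyp_zero (h : P0 F) {χ : ℚ →* ℤ} (hχ : Ch χ) (h1 : χ (-1) = 1) (hc : ∀ e, χ (F.c e) = -1)
    (hL : ∀ j k, j ≠ k → χ (F.L j (F.root k)) = 1) : F.Hyp 0 := by
  have g1 := h.pos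
  obtain ⟨e₀, -⟩ := exists_ed (g := g) (i := 0) (k := ⟨1, by omega⟩) (by simp [Fin.ext_iff])
  obtain ⟨t⟩ : Nonempty (Fin n) := ⟨⟨0, by have := h.two; omega⟩⟩
  have hg : ∀ k, χ (F.gam k) = -1 := fun k => by
    rw [HS.gam, map_prod, prod_congr rfl (g := fun _ => -1) fun l hl => ?_, prod_const,
      filter_not_on, card_erase_of_mem (mem_er (ed_ne k.1)), card_er]
    · exact Odd.neg_one_pow ⟨g - 1, by omega⟩
    have hl := not_or.1 (mem_filter.1 hl).2
    rw [h.diff (e₀ := e₀) _ (Ne.symm hl.1), map_mul, map_prod, prod_eq_one fun s _ =>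
      hL (ed e₀ k.1.1.1 l, s) k fun e => (not_or.2 hl) (by
        rw [← e]; exact (on_ed (Ne.symm hl.1) l).2 (.inr rfl)), cc, Int.cast_mul, map_mul, hc]
    split_ifs <;> simp [h1]
  refine cert h (fun i : {i : Vx g // i ≠ 0} => (ed e₀ 0 i, t)) (card_nz g)
    (fun k => ⟨_, gdT h e₀ k, fun i => ?_⟩) fun u y hy hp => ?_
  · simp only [yT, mem_filter, mem_univ, true_and, on_ed i.2.symm, k.2, false_or, Subtype.ext_iff,
      eq_comm]
  · have key : ∀ k, χ (u k.1.1.1) * χ (u k.1.1.2) * (if k ∈ y then -1 else 1) = 1 := fun k => by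
      rw [← prod_ite_eq' y k fun _ => (-1 : ℤ)]
      refine Eq.trans (congrArg _ (prod_congr rfl fun j _ => ?_)) (res_chi h hχ hy k)
      unfold om
      by_cases c : j = k
      · rw [if_pos c, if_pos c, hg]
      · have := hL j k c
        rw [if_neg c, if_neg c]
        split_ifs <;> simp [this]
    have k0 : ∀ i, χ (u 0) * χ (u i) = 1 := fun i => by
      by_cases c : i = 0
      · rcases hχ _ (hy.1 0) with e | e <;> simp [c, e]
      · have := key (ed e₀ 0 i, t)
        rwa [if_neg (hp ⟨i, c⟩), mul_one, ed, dif_pos (Fin.pos_iff_ne_zero.2 c)] at this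
    refine eq_empty_of_forall_notMem fun k hk => ?_
    have := key k
    rw [if_pos hk, ← Int.eq_of_mul_eq_one (k0 _), ← Int.eq_of_mul_eq_one (k0 k.1.1.2), k0] at this
    omega

end Pool.Agent.MP_a43263_nt.JC.Ex
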