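import Pool.Agent.MP_a43263_nt.JC.ExB

/-! THEOREM J, examples, third part: an explicit pencil in every genus. -/

set_option autoImplicit false

noncomputable section

namespace Pool.Agent.MP_a43263_nt.JC.Ex

open Finset Polynomial

variable {g n : ℕ} {e₀ : Ed g}

/-- the quadratic twist -/
def twist (F : HS g n) (c : ℤ) : HS g n := ⟨F.A, F.B, fun e => c * F.c e⟩

theorem P0.twist {F : HS g n} (h : P0 F) {c : ℤ} (hc : c ≠ 0) : P0 (twist F c) :=
  ⟨h.pos, h.ev, h.two, fun e => mul_ne_zero hc (h.c0 e), h.ne, fun K _ e v => by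
    have e1 : ∀ e, (Ex.twist F c).D e v = c * F.D e v := fun e => by
      simp only [HS.D, Ex.twist, HS.L, Int.cast_mul, mul_assoc]
    have e2 : ∀ i, (Ex.twist F c).a v i = c * F.a v i := fun i => by
      unfold HS.a
      split_ifs
      exacts [e1 _, (mul_zero _).symm]
    rw [e1, e2, e2, h.sum, mul_sub]⟩

/-- the twist by a prime that divides no constant and no resultant -/
theorem twist_zero {F : HS g n} (h : P0 F) {p : ℕ} (hp : p.Prime) (hc : ∀ e, ¬(p : ℤ) ∣ F.c e)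
    (hL : ∀ j k, j ≠ k → ¬(p : ℤ) ∣ F.LZ j (F.rootZ k)) : (twist F p).Hyp 0 := by
  have := Fact.mk hp
  have hp' := Nat.prime_iff_prime_int.1 hp
  refine hyp_zero (h.twist hp'.ne_zero) (chi_ch (p := p)) ?_ (fun e => chi_neg
    (dvd_mul_right _ _) fun d => hc e ?_) fun j k hjk => ?_
  · exact_mod_cast chi_one (p := p) (x := -1) fun d => hp'.not_dvd_one (dvd_neg.1 d)
  · exact (mul_dvd_mul_iff_left hp'.ne_zero).1 (sq (p : ℤ) ▸ d)
  · exact (congrArg _ (F.L_root j k)).trans (chi_one (hL j k hjk))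

theorem exists_zero {F : HS g n} (h : P0 F) : ∃ p : ℕ, p.Prime ∧ (twist F p).Hyp 0 := by
  obtain ⟨p, hle, hp⟩ := Nat.exists_infinite_primes
    ((∑ e, (F.c e).natAbs) + (∑ j, ∑ k, (F.LZ j (F.rootZ k)).natAbs) + 1)
  refine ⟨p, hp, twist_zero h hp (fun e d => ?_) fun j k hjk d => ?_⟩
  · have h1 := Nat.le_of_dvd (Int.natAbs_pos.2 (h.c0 e)) (Int.natCast_dvd.1 d)
    have h2 := single_le_sum (f := fun e => (F.c e).natAbs) (fun _ _ => Nat.zero_le _) (mem_univ e)
    omega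
  · have h0 : F.LZ j (F.rootZ k) ≠ 0 := by
      have := h.ne j k hjk
      rw [F.L_root] at this
      exact_mod_cast this
    have h1 := Nat.le_of_dvd (Int.natAbs_pos.2 h0) (Int.natCast_dvd.1 d)
    have h2 := single_le_sum (f := fun k => (F.LZ j (F.rootZ k)).natAbs)
      (fun _ _ => Nat.zero_le _) (mem_univ k)
    have h3 := single_le_sum (f := fun j => ∑ k, (F.LZ j (F.rootZ k)).natAbs)
      (fun _ _ => Nat.zero_le _) (mem_univ j)
    omega

/-! ### the pencil -/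

def sg (t : Fin 2) : ℤ := if t = 0 then 1 else -1

def qq (l : Vx g → ℤ) (i k : Vx g) : ℤ := ∏ s ∈ (univ.erase i).erase k, l s

def be (l : Vx g → ℤ) (i : Vx g) : ℤ := ∏ s ∈ univ.erase i, l s

/-- the roots are `-(l i ^ 2 x ^ 2 + y ^ 2 / l i ^ 2)`, up to scaling and translation -/
def fam (l : Vx g → ℤ) : HS g 2 :=
  ⟨fun h => l h.1.1.1 * l h.1.1.2, fun h => sg h.2,
    fun e => (l e.1.1 ^ 2 - l e.1.2 ^ 2) * qq l e.1.1 e.1.2 ^ 2⟩

def ss (l : Vx g → ℤ) {K : Type} [Field K] (v : K × K) (i : Vx g) : K :=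
  ((∏ s, l s : ℤ) * l i * v.1) ^ 2 + (be l i * v.2) ^ 2

variable {l : Vx g → ℤ}

theorem qq_comm (i k : Vx g) : qq l i k = qq l k i := by rw [qq, qq, erase_right_comm]

theorem be_eq {i k : Vx g} (h : i ≠ k) : be l i = l k * qq l i k :=
  (mul_prod_erase _ _ (mem_er h)).symm

theorem all_eq (i : Vx g) : ∏ s, l s = l i * be l i := (mul_prod_erase _ _ (mem_univ i)).symm

theorem ss_sub {K : Type} [Field K] (v : K × K) {i k : Vx g} (h : i ≠ k) : ss l v i - ss l v k =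
    (l i ^ 2 - l k ^ 2) * qq l i k ^ 2 * ((l i * l k * v.1) ^ 2 - v.2 ^ 2) := by
  rw [ss, ss, all_eq i, be_eq h, be_eq h.symm, qq_comm k]
  push_cast
  ring

theorem D_fam {K : Type} [Field K] (e : Ed g) (v : K × K) :
    (fam l).D e v = ss l v e.1.1 - ss l v e.1.2 := by
  rw [ss_sub v (ed_ne e)]
  simp only [HS.D, HS.L, fam, sg, Fin.prod_univ_two]
  push_cast
  ring

theorem a_fam {K : Type} [Field K] (v : K × K) (i : Vx g) :
    (fam l).a v i = ss l v 0 - ss l v i := by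
  unfold HS.a
  split_ifs with c
  · exact D_fam _ v
  · rw [Fin.le_zero_iff.1 (not_lt.1 c), sub_self]

theorem A_fam {i k : Vx g} (h : i ≠ k) (t : Fin 2) : (fam l).A (ed e₀ i k, t) = l i * l k := by
  unfold ed
  rcases lt_or_gt_of_ne h with c | c
  · rw [dif_pos c]; rfl
  · rw [dif_neg c.not_gt, dif_pos c]; exact mul_comm _ _

theorem sg_sq (t : Fin 2) : sg t ^ 2 = 1 := by unfold sg; split_ifs <;> simp

structure Gn (l : Vx g → ℤ) : Prop where
  pos : 1 ≤ g
  nz : ∀ i, l i ≠ 0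
  sq : ∀ i k, i ≠ k → l i ^ 2 ≠ l k ^ 2
  ne : ∀ e e' : Ed g, e ≠ e' → (l e.1.1 * l e.1.2) ^ 2 ≠ (l e'.1.1 * l e'.1.2) ^ 2

theorem Gn.qq (h : Gn l) (i k : Vx g) : qq l i k ≠ 0 := prod_ne_zero_iff.2 fun s _ => h.nz s

theorem Gn.p0 (h : Gn l) : P0 (fam l) := by
  refine ⟨h.pos, even_two, le_rfl, fun e => mul_ne_zero (sub_ne_zero.2 (h.sq _ _ (ed_ne e)))
    (pow_ne_zero _ (h.qq _ _)), fun j k hjk e => ?_, fun K _ e v => by
      rw [D_fam, a_fam, a_fam]; ring⟩
  rw [HS.L_root, Int.cast_eq_zero] at e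
  change l j.1.1.1 * l j.1.1.2 * sg k.2 + sg j.2 * -(l k.1.1.1 * l k.1.1.2) = 0 at e
  by_cases c : j.1 = k.1
  · have d : j.2 ≠ k.2 := fun d => hjk (Prod.ext c d)
    have : sg k.2 - sg j.2 ≠ 0 := by
      revert d
      generalize j.2 = a
      generalize k.2 = b
      revert a b
      decide
    rw [c] at e
    exact mul_ne_zero (mul_ne_zero (h.nz k.1.1.1) (h.nz k.1.1.2)) this (by linear_combination e)
  · exact h.ne _ _ c (by
      linear_combination (l j.1.1.1 * l j.1.1.2 * sg k.2 + sg j.2 * (l k.1.1.1 * l k.1.1.2)) * e -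
        (l j.1.1.1 * l j.1.1.2) ^ 2 * sg_sq k.2 + (l k.1.1.1 * l k.1.1.2) ^ 2 * sg_sq j.2)

theorem Gn.gdR (h : Gn l) (e₀ : Ed g) (t : Fin 2) : Gd (fam l) (yR g t) := by
  refine Ex.gdR h.p0 e₀ t (fun i k => (l i + l k) * Ex.qq l i k)
    (fun K _ v i => (∏ s, l s : ℤ) * l i * v.1 + sg t * be l i * v.2)
    (fun i k => by rw [add_comm, qq_comm]) (fun i k hik => mul_ne_zero (fun e => h.sq i k hik
      (by linear_combination (l i - l k) * e)) (h.qq i k)) (fun i e => ?_) (fun K _ v i k hik => ?_)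
    fun K _ v i k => ?_
  · have e' : algebraMap (Polynomial ℚ) (RatFunc ℚ)
        (C (((∏ s, l s) * l i : ℤ) : ℚ) * X + C ((sg t * be l i : ℤ) : ℚ)) = 0 := by
      simpa using e
    rw [map_eq_zero_iff _ (RatFunc.algebraMap_injective ℚ)] at e'
    have := congrArg (coeff · 1) e'
    simp only [coeff_add, coeff_C_mul, coeff_X_one, mul_one, coeff_C_succ, add_zero, coeff_zero,
      Int.cast_eq_zero] at this
    exact mul_ne_zero (prod_ne_zero_iff.2 fun s _ => h.nz s) (h.nz i) this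
  · rw [HS.L, A_fam hik, all_eq i, be_eq hik, be_eq hik.symm, qq_comm k]
    change _ = _ * (_ + (sg t : K) * _)
    push_cast
    ring
  · have e1 : ((∏ s, l s : ℤ) : K) = l i * be l i := by rw [all_eq i, Int.cast_mul]
    have e2 : ((∏ s, l s : ℤ) : K) = l k * be l k := by rw [all_eq k, Int.cast_mul]
    have e3 : (sg t : K) ^ 2 = 1 := by exact_mod_cast congrArg (Int.cast : ℤ → K) (sg_sq t)
    rw [a_fam, a_fam, ss, ss, ss]
    linear_combination ((be l i * v.2) ^ 2 - (be l k * v.2) ^ 2) * e3 -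
      2 * ((∏ s, l s : ℤ) : K) * sg t * v.1 * v.2 * (e1 - e2)

/-! ### the upper bound -/

/-- a character that sees the difference `l j - l r` only -/
structure Pv (l : Vx g → ℤ) (j r : Vx g) (χ : ℚ →* ℤ) : Prop where
  ch : Ch χ
  neg : χ (-1) = 1
  one : ∀ a, χ (l a) = 1
  add : ∀ a b, a ≠ b → χ (l a + l b) = 1
  sub : ∀ a b, a ≠ b → χ (l a - l b) = if (a = j ∧ b = r) ∨ (a = r ∧ b = j) then -1 else 1

variable {j r : Vx g} {χ : ℚ →* ℤ} {u : Vx g → ℚ} {y : Finset (Ed g × Fin 2)}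

theorem Pv.L (h : Pv l j r χ) {p q s : Vx g} (hpq : p ≠ q) (hps : p ≠ s) (hsq : s ≠ q)
    (t t' : Fin 2) : χ ((fam l).L (ed e₀ p s, t') ((fam l).root (ed e₀ p q, t))) =
      if t' = t then χ (l s - l q) else 1 := by
  have e : (fam l).L (ed e₀ p s, t') ((fam l).root (ed e₀ p q, t)) =
      l p * (sg t * l s - sg t' * l q) := by
    rw [HS.L, HS.root, A_fam hps, A_fam hpq]
    change _ * (sg t : ℚ) + (sg t' : ℚ) * _ = _
    push_cast
    ring
  have n : ∀ x, χ (-x) = χ x := fun x => by rw [← neg_one_mul, map_mul, h.neg, one_mul]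
  rw [e, map_mul, h.one, one_mul]
  fin_cases t <;> fin_cases t' <;> simp [sg, h.add s q hsq]
  · rw [← n, ← h.add s q hsq]; congr 1; ring
  · rw [← n]; congr 1; ring

theorem Pv.del (h : Pv l j r χ) {p q : Vx g} (hpq : p ≠ q) (t : Fin 2) :
    χ ((fam l).del u (y.filter fun k => k.1 ≠ ed e₀ p q) ((fam l).root (ed e₀ p q, t)) p) =
      χ (u p) * ∏ s ∈ (univ.erase p).erase q, if (ed e₀ p s, t) ∈ y then χ (l s - l q) else 1 := by
  rw [HS.del, prod_on e₀, map_mul, Rat.cast_id, ← mul_prod_erase _ _ (mem_er hpq),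
    prod_eq_one fun _ _ => if_neg (by simp), one_mul, map_prod]
  refine congrArg _ (prod_congr rfl fun s hs => ?_)
  have h1 := (ne_of_mem_erase (mem_of_mem_erase hs)).symm
  have h2 := ne_of_mem_erase hs
  simp only [map_prod, mem_filter, ne_eq, ed_inj h1 hpq, h2, not_false_eq_true, and_true,
    apply_ite χ, map_one, h.L hpq h1 h2]
  rw [prod_eq_single t (fun b _ hb => by simp [hb]) (by simp), if_pos rfl]

theorem Pv.gam (h : Pv l j r χ) (hl : Gn l) (k : Ed g × Fin 2) : χ ((fam l).gam k) =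
    ∏ s ∈ (univ.erase k.1.1.1).erase k.1.1.2, χ (l s - l k.1.1.1) * χ (l s - l k.1.1.2) := by
  rw [HS.gam, filter_not_on, map_prod]
  refine prod_congr rfl fun s hs => ?_
  have h1 := ne_of_mem_erase (mem_of_mem_erase hs)
  have h2 := ne_of_mem_erase hs
  have e3 : (sg k.2 : ℚ) ^ 2 = 1 := by exact_mod_cast sg_sq k.2
  have e : (fam l).a ((fam l).root k) k.1.1.1 - (fam l).a ((fam l).root k) s =
      (l s - l k.1.1.1) * (l s - l k.1.1.2) * ((l s + l k.1.1.1) * (l s + l k.1.1.2) *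
        ((qq l s k.1.1.1 * l k.1.1.1) * (qq l s k.1.1.1 * l k.1.1.1))) := by
    rw [a_fam, a_fam, sub_sub_sub_cancel_left, ss_sub _ h1]
    simp only [HS.root, fam]
    push_cast
    linear_combination ((l s : ℚ) ^ 2 - l k.1.1.1 ^ 2) * (qq l s k.1.1.1 * l s * l k.1.1.1) ^ 2 * e3
  have n0 : (qq l s k.1.1.1 : ℚ) * l k.1.1.1 ≠ 0 := by
    exact_mod_cast mul_ne_zero (hl.qq _ _) (hl.nz _)
  rw [e, map_mul, map_mul, map_mul, map_mul, h.add _ _ h1, h.add _ _ h2,
    h.ch.sq (mul_ne_zero n0 n0) ⟨_, rfl⟩]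
  simp

theorem Pv.res (h : Pv l j r χ) (hl : Gn l) (hy : (fam l).InS u y) {p q : Vx g} (hpq : p ≠ q)
    (t : Fin 2) : χ (u p) * χ (u q) * ∏ s ∈ (univ.erase p).erase q,
      ((if (ed e₀ p s, t) ∈ y then χ (l s - l q) else 1) *
        (if (ed e₀ q s, t) ∈ y then χ (l s - l p) else 1) *
        if (ed e₀ p q, t) ∈ y then χ (l s - l p) * χ (l s - l q) else 1) = 1 := by
  wlog c : p < q generalizing p q
  · have := this hpq.symm (lt_of_le_of_ne (not_lt.1 c) hpq.symm)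
    refine Eq.trans ?_ this
    rw [erase_right_comm, mul_comm (χ (u p)), ed_comm q p]
    exact congrArg _ (prod_congr rfl fun s _ => by rw [mul_comm (χ (l s - l p))]; ring)
  have e0 : ed e₀ p q = ⟨(p, q), c⟩ := dif_pos c
  have h1 := hy.2.2.2 (⟨(p, q), c⟩, t)
  have h2 := h.ch.sq (by
    rw [res_eq]
    exact mul_ne_zero (mul_ne_zero (hy.1 _) (hy.1 _))
      (prod_ne_zero_iff.2 fun j _ => hl.p0.om _ j)) h1
  have d1 := h.del (e₀ := e₀) (u := u) (y := y) hpq t
  have d2 := h.del (e₀ := e₀) (u := u) (y := y) hpq.symm t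
  rw [ed_comm q p] at d2
  rw [e0] at d1 d2
  rw [map_mul, map_mul, d1, d2, apply_ite χ, h.gam hl, map_one, erase_right_comm (a := q)] at h2
  refine Eq.trans ?_ h2
  rw [e0, prod_mul_distrib, prod_mul_distrib]
  split_ifs
  · ring
  · simp only [prod_const_one]
    ring

theorem const {V : Type} (f : V → V → ℤ) (P : V → Prop) (hs : ∀ a b, f a b = f b a)
    (h : ∀ i j r, P i → P j → P r → i ≠ j → i ≠ r → j ≠ r → f i r = f i j) {a b c d : V}
    (ha : P a) (hb : P b) (hc : P c) (hd : P d) (h1 : a ≠ b) (h2 : c ≠ d) : f a b = f c d := by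
  have st : ∀ i j r, P i → P j → P r → i ≠ j → i ≠ r → f i r = f i j := fun i j r a b c d e => by
    by_cases k : j = r
    · rw [k]
    · exact h i j r a b c d e k
  by_cases k : a = c
  · subst k
    exact st _ _ _ ha hd hb h2 h1
  · rw [st _ _ _ ha hc hb k h1, hs, st _ _ _ hc hd ha h2 (Ne.symm k)]

theorem Gn.two (hl : Gn l) (hp : ∀ j r, j ≠ r → ∃ χ, Pv l j r χ) : (fam l).Hyp 2 := by
  have g1 := hl.pos
  obtain ⟨a, b, ha, hb, hab⟩ : ∃ a b : Vx g, a ≠ 0 ∧ b ≠ 0 ∧ a ≠ b :=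
    ⟨⟨1, by omega⟩, ⟨2, by omega⟩, by simp [Fin.ext_iff], by simp [Fin.ext_iff],
      by simp [Fin.ext_iff]⟩
  obtain ⟨e₀, -⟩ := exists_ed hab
  have T := gdT hl.p0 e₀
  have B1 := hl.gdR e₀ 1
  have B0 := (hl.gdR e₀ 0).mul hl.p0 (T 0)
  refine cert hl.p0 (Sum.elim (fun i : {i : Vx g // i ≠ 0} => (ed e₀ 0 i, 0))
    fun t : Fin 2 => (ed e₀ a b, t)) (by rw [Fintype.card_sum, card_nz, Fintype.card_fin])
    (fun k => ?_) fun u y hy h0 => ?_
  · have m1 : ∀ (i : {i : Vx g // i ≠ 0}) (k : Vx g) (t : Fin 2),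
        (ed e₀ 0 i, t) ∈ yT 2 k ↔ k = 0 ∨ k = i := fun i k t => by simp [yT, on_ed i.2.symm]
    have m2 : ∀ (k : Vx g) (t : Fin 2), (ed e₀ a b, t) ∈ yT 2 k ↔ k = a ∨ k = b := fun k t => by
      simp [yT, on_ed hab]
    have m3 : ∀ (e : Ed g) (s t : Fin 2), (e, s) ∈ yR g t ↔ s = t := fun e s t => by simp [yR]
    rcases k with k | k
    · by_cases c : k.1 = a ∨ k.1 = b
      · refine ⟨_, ((T k).mul hl.p0 B0).mul hl.p0 B1, ?_⟩
        rintro (i | t)
        · simp [mem_symmDiff, m1, m3, k.2, Subtype.ext_iff, eq_comm]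
        · fin_cases t <;> simp [mem_symmDiff, m2, m3, c, ha.symm, hb.symm]
      · refine ⟨_, T k, ?_⟩
        rintro (i | t)
        · simp [m1, k.2, Subtype.ext_iff, eq_comm]
        · simp [m2, c]
    · fin_cases k
      · refine ⟨_, B0, ?_⟩
        rintro (i | t)
        · simp [mem_symmDiff, m1, m3]
        · simp [mem_symmDiff, m2, m3, ha.symm, hb.symm]
      · refine ⟨_, B1, ?_⟩
        rintro (i | t) <;> simp [m3]
  · obtain ⟨Y, hY⟩ : ∃ Y : Fin 2 → Vx g → Vx g → ℤ,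
        ∀ t i k, Y t i k = if (ed e₀ i k, t) ∈ y then -1 else 1 := ⟨_, fun _ _ _ => rfl⟩
    have Ys : ∀ t i k, Y t i k = Y t k i := fun t i k => by rw [hY, hY, ed_comm]
    have Yq : ∀ t i k, Y t i k * Y t i k = 1 := fun t i k => by rw [hY]; split_ifs <;> rfl
    have key : ∀ j r, j ≠ r → ∃ w : Vx g → ℤ, (∀ i k, i ≠ j → i ≠ r → k ≠ j → k ≠ r → i ≠ k →
        w i = w k) ∧ ∀ i t, i ≠ j → i ≠ r → w i * w j * (Y t i r * Y t i j) = 1 := fun j r hjr => by
      obtain ⟨χ, h⟩ := hp j r hjr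
      have m : ∀ s q, s ≠ q → q ≠ j → q ≠ r → χ (l s - l q) = 1 := fun s q a b c => by
        simp [h.sub s q a, b, c]
      refine ⟨fun i => χ (u i), fun i k a b c d e => ?_, fun i t a b => ?_⟩
      · have := h.res (e₀ := e₀) hl hy e 0
        rw [prod_eq_one fun s hs => by
          simp [m s i (ne_of_mem_erase (mem_of_mem_erase hs)) a b, m s k (ne_of_mem_erase hs) c d],
          mul_one] at this
        exact Int.eq_of_mul_eq_one this
      · refine Eq.trans ?_ (h.res (e₀ := e₀) hl hy a t)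
        rw [prod_eq_single r (fun s hs e => by
          simp [m s i (ne_of_mem_erase (mem_of_mem_erase hs)) a b, h.sub s j (ne_of_mem_erase hs),
            e, hjr]) fun e => absurd (mem_erase.2 ⟨hjr.symm, mem_er b⟩) e, hY, hY]
        simp [m r i b.symm a b, h.sub r j hjr.symm]
    have p0 : ∀ i, i ≠ 0 → Y 0 0 i = 1 := fun i hi => (hY _ _ _).trans (if_neg (h0 (.inl ⟨i, hi⟩)))
    have p1 : ∀ t, Y t a b = 1 := fun t => (hY _ _ _).trans (if_neg (h0 (.inr t)))
    have z : ∀ i k, i ≠ k → Y 0 i k * Y 1 i k = 1 := fun i k hik => by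
      rw [const (fun i k => Y 0 i k * Y 1 i k) (fun _ => True) (fun i k => by rw [Ys, Ys 1])
        (fun i j r _ _ _ a b c => ?_) trivial trivial trivial trivial hik hab, p1, p1, one_mul]
      obtain ⟨w, -, hw⟩ := key j r c
      have e := mul_left_cancel₀ (left_ne_zero_of_mul_eq_one (hw i 0 a b))
        ((hw i 0 a b).trans (hw i 1 a b).symm)
      linear_combination (Y 0 i j * Y 1 i r) * e - Y 0 i r * Y 1 i r * Yq 0 i j +
        Y 0 i j * Y 1 i j * Yq 1 i r
    have z0 : ∀ i k, i ≠ k → Y 0 i k = 1 := fun i k hik => by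
      by_cases c : i = 0
      · exact c ▸ p0 k (c ▸ hik.symm)
      by_cases d : k = 0
      · rw [Ys, d, p0 i c]
      rw [const (Y 0) (· ≠ 0) (Ys 0) (fun i j r a b c d e f => ?_) c d ha hb hik hab, p1]
      obtain ⟨w, w1, w2⟩ := key j r f
      have e1 := w2 i 0 d e
      have e2 := w2 0 0 b.symm c.symm
      rw [p0 r c, p0 j b, ← w1 i 0 d e b.symm c.symm a, mul_one, mul_one] at e2
      rw [e2, one_mul] at e1
      exact Int.eq_of_mul_eq_one e1
    refine eq_empty_of_forall_notMem fun k hk => ?_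
    have e1 := z _ _ (ed_ne k.1)
    have e2 := z0 _ _ (ed_ne k.1)
    have e3 := hY k.2 k.1.1.1 k.1.1.2
    rw [ed_self, if_pos hk] at e3
    rw [e2, one_mul] at e1
    revert e3
    generalize k.2 = t
    fin_cases t <;> simp [e1, e2]

end Pool.Agent.MP_a43263_nt.JC.Ex
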