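import Mathlib.Data.Nat.ChineseRemainder
import Pool.Agent.MP_a43263_nt.JC.ExC

/-! THEOREM J, examples, last part: pencils with `r = 0` and `r = 2` exist in every genus. -/

set_option autoImplicit false

noncomputable section

namespace Pool.Agent.MP_a43263_nt.JC.Ex

open Finset

variable {g : ℕ}

theorem Pv.symm {l : Vx g → ℤ} {j r : Vx g} {χ : ℚ →* ℤ} (h : Pv l j r χ) : Pv l r j χ :=
  ⟨h.ch, h.neg, h.one, h.add, fun a b c => (h.sub a b c).trans (if_congr or_comm rfl rfl)⟩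

theorem crt {J V : Type} [Fintype J] (B : ℕ) (res : J → ℕ → V → ℕ) :
    ∃ (p : J → ℕ) (l : V → ℤ), (∀ j, (p j).Prime ∧ B < p j) ∧
      ∀ j k, (p j : ℤ) ^ 2 ∣ l k - res j (p j) k := by
  have hi : {p : ℕ | p.Prime ∧ B < p}.Infinite := Set.infinite_of_forall_exists_gt fun a => by
    obtain ⟨p, h1, h2⟩ := Nat.exists_infinite_primes (a + B + 1)
    exact ⟨p, ⟨h2, by omega⟩, by omega⟩
  have := hi.to_subtype
  obtain ⟨f⟩ : Nonempty (J ↪ {p : ℕ | p.Prime ∧ B < p}) :=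
    ⟨(Fintype.equivFin J).toEmbedding.trans (Fin.valEmbedding.trans (Infinite.natEmbedding _))⟩
  have key := fun k => Nat.chineseRemainderOfFinset (fun j => res j (f j) k)
    (fun j => (f j : ℕ) ^ 2) univ (fun j _ => pow_ne_zero _ (f j).2.1.ne_zero)
    fun i _ j _ hij => Nat.Coprime.pow _ _ ((Nat.coprime_primes (f i).2.1 (f j).2.1).2
      fun e => hij (f.injective (Subtype.ext e)))
  exact ⟨fun j => f j, fun k => (key k).1, fun j => (f j).2, fun j k => by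
    have := ((key k).2 j (mem_univ j)).symm.dvd
    rwa [Nat.cast_pow] at this⟩

theorem exists_l (hg : 1 ≤ g) : ∃ l : Vx g → ℤ, Gn l ∧ ∀ j r, j ≠ r → ∃ χ, Pv l j r χ := by
  obtain ⟨p, l, hp, hl⟩ := crt (J := Ed g ⊕ Vx g) (V := Vx g) (4 * g + 2) (Sum.elim
    (fun e p k => if k = e.1.2 then e.1.1 + 1 + p else k + 1) fun i _ k => if k = i then 0 else 1)
  have A : ∀ e : Ed g, (∀ a, ¬(p (.inl e) : ℤ) ∣ l a) ∧ (∀ a b, ¬(p (.inl e) : ℤ) ∣ l a + l b) ∧
      (∀ a b, a ≠ b → ¬((a = e.1.1 ∧ b = e.1.2) ∨ (a = e.1.2 ∧ b = e.1.1)) →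
        ¬(p (.inl e) : ℤ) ∣ l a - l b) ∧
      (p (.inl e) : ℤ) ∣ l e.1.2 - l e.1.1 ∧ ¬(p (.inl e) : ℤ) ^ 2 ∣ l e.1.2 - l e.1.1 := fun e => by
    obtain ⟨h1, h2⟩ := hp (.inl e)
    have h3 := hl (.inl e)
    simp only [Sum.elim_inl] at h3
    generalize p (.inl e) = q at h1 h2 h3
    have nd : ∀ x : ℤ, x ≠ 0 → x.natAbs < q → ¬(q : ℤ) ∣ x := fun x a b c =>
      (Nat.le_of_dvd (Int.natAbs_pos.2 a) (Int.natCast_dvd.1 c)).not_gt b
    obtain ⟨ρ, r1, r2, r3⟩ : ∃ ρ : Vx g → ℤ, (∀ k, (q : ℤ) ∣ l k - ρ k) ∧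
        (∀ k, 1 ≤ ρ k ∧ ρ k ≤ 2 * g + 1) ∧ ∀ a b, a ≠ b →
          ¬((a = e.1.1 ∧ b = e.1.2) ∨ (a = e.1.2 ∧ b = e.1.1)) → ρ a ≠ ρ b := by
      refine ⟨fun k => if k = e.1.2 then (e.1.1 : ℕ) + 1 else (k : ℕ) + 1, fun k => ?_, fun k => ?_,
        fun a b c d => ?_⟩
      · have := (Dvd.intro _ (sq _).symm).trans (h3 k)
        beta_reduce
        split_ifs at this ⊢
        · exact (dvd_add this dvd_rfl).trans (dvd_of_eq (by push_cast; ring))
        · rwa [Nat.cast_add, Nat.cast_one] at this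
      · have := k.2
        have := e.1.1.2
        beta_reduce
        split_ifs <;> omega
      · simp only [ne_eq, Fin.ext_iff] at c d ⊢
        split_ifs <;> omega
    have e1 := h3 e.1.1
    have e2 := h3 e.1.2
    rw [if_neg (ed_ne e)] at e1
    rw [if_pos rfl] at e2
    have e3 : (q : ℤ) ^ 2 ∣ l e.1.2 - l e.1.1 - q :=
      (dvd_sub e2 e1).trans (dvd_of_eq (by push_cast; ring))
    refine ⟨fun a c => ?_, fun a b c => ?_, fun a b c d k => ?_, ?_, fun c => ?_⟩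
    · have := r2 a
      exact nd (ρ a) (by omega) (by omega) (by simpa using dvd_sub c (r1 a))
    · have := r2 a
      have := r2 b
      exact nd (ρ a + ρ b) (by omega) (by omega)
        ((dvd_sub (dvd_sub c (r1 a)) (r1 b)).trans (dvd_of_eq (by ring)))
    · have := r2 a
      have := r2 b
      have := r3 a b c d
      exact nd (ρ a - ρ b) (by omega) (by omega)
        ((dvd_add (dvd_sub k (r1 a)) (r1 b)).trans (dvd_of_eq (by ring)))
    · simpa using dvd_add ((Dvd.intro _ (sq _).symm).trans e3) dvd_rfl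
    · have : (q : ℤ) * q ∣ q * 1 := by simpa [sq] using dvd_sub c e3
      exact h1.not_dvd_one (by
        exact_mod_cast (mul_dvd_mul_iff_left (by exact_mod_cast h1.ne_zero)).1 this)
  obtain ⟨e₀, -⟩ := exists_ed (g := g) (i := 0) (k := ⟨1, by omega⟩) (by simp [Fin.ext_iff])
  refine ⟨l, ⟨hg, fun i c => (A e₀).1 i (c ▸ dvd_zero _), fun i k c d => ?_, fun e e' c d => ?_⟩,
    fun j r c => ?_⟩
  · obtain ⟨e, he⟩ := exists_ed c
    rcases sq_eq_sq_iff_eq_or_eq_neg.1 d with f | f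
    · refine (A e).2.2.2.2 ?_
      rcases he with ⟨rfl, rfl⟩ | ⟨rfl, rfl⟩ <;> simp [f]
    · exact (A e).2.1 i k (by simp [f])
  · obtain ⟨i, h1, h2⟩ : ∃ i, On i e ∧ ¬On i e' := by
      by_contra k
      have k1 : On e.1.1 e' := not_not.1 fun f => k ⟨_, .inl rfl, f⟩
      have k2 : On e.1.2 e' := not_not.1 fun f => k ⟨_, .inr rfl, f⟩
      have a1 := Fin.lt_def.1 e.2
      have a2 := Fin.lt_def.1 e'.2
      simp only [On, Fin.ext_iff] at k1 k2
      exact c (Subtype.ext (Prod.ext (Fin.ext (by omega)) (Fin.ext (by omega))))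
    have h3 := fun k => (Dvd.intro _ (sq _).symm).trans (hl (.inr i) k)
    simp only [Sum.elim_inr] at h3
    have hq := Nat.prime_iff_prime_int.1 (hp (.inr i)).1
    have h4 : ∀ k, (p (.inr i) : ℤ) ∣ l k → k = i := fun k f => by
      by_contra c
      have := h3 k
      rw [if_neg c] at this
      exact hq.not_dvd_one (by simpa using dvd_sub f this)
    have h5 : (p (.inr i) : ℤ) ∣ l i := by simpa using h3 i
    have h6 : (p (.inr i) : ℤ) ∣ l e.1.1 * l e.1.2 := by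
      rcases h1 with rfl | rfl
      exacts [h5.mul_right _, h5.mul_left _]
    exact h2 ((hq.dvd_or_dvd (hq.dvd_of_dvd_pow (d ▸ dvd_pow h6 two_ne_zero))).imp
      (fun f => (h4 _ f).symm) fun f => (h4 _ f).symm)
  · obtain ⟨e, he⟩ := exists_ed c
    have := Fact.mk (hp (.inl e)).1
    obtain ⟨a1, a2, a3, a4, a5⟩ := A e
    have key : Pv l e.1.1 e.1.2 (chi (p (.inl e))) := by
      refine ⟨chi_ch, ?_, fun a => chi_one (a1 a), fun a b _ => ?_, fun a b d => ?_⟩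
      · exact_mod_cast chi_one (p := p (.inl e)) (x := -1) fun d =>
          (Nat.prime_iff_prime_int.1 this.out).not_dvd_one (dvd_neg.1 d)
      · exact_mod_cast chi_one (a2 a b)
      · split_ifs with f
        · rcases f with ⟨rfl, rfl⟩ | ⟨rfl, rfl⟩
          · exact_mod_cast chi_neg (dvd_sub_comm.1 a4) fun f => a5 (dvd_sub_comm.1 f)
          · exact_mod_cast chi_neg a4 a5
        · exact_mod_cast chi_one (a3 a b d f)
    rcases he with ⟨rfl, rfl⟩ | ⟨rfl, rfl⟩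
    exacts [⟨_, key⟩, ⟨_, key.symm⟩]

/-- in every genus there are pencils with `r = 0` and with `r = 2` -/
theorem exAll (hg : 1 ≤ g) : (∃ F : HS g 2, F.Hyp 0) ∧ ∃ F : HS g 2, F.Hyp 2 := by
  obtain ⟨l, h1, h2⟩ := exists_l hg
  obtain ⟨p, -, h3⟩ := exists_zero h1.p0
  exact ⟨⟨_, h3⟩, _, h1.two h2⟩

end Pool.Agent.MP_a43263_nt.JC.Ex
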