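import Pool.Agent.MP_a43263_nt.JC.SBasic
import Pool.Agent.MP_a43263_nt.RG.Fin
import Pool.Agent.MP_a43263_nt.RH.Br

/-! THEOREM J, row FIN: the final assembly. -/

set_option autoImplicit false

noncomputable section

namespace Pool.Agent.MP_a43263_nt.JC

open Finset Filter
open R2 (Ker Sc Shape)
open RG (Ix Adm AA POSStmt adm_of_mem mem_AA ev_ge)
open RG.FIN (exists_scale)
open RH (Smooth)

namespace FinH

variable {g n r : ℕ} {F : HS g n}

theorem pair (hF : F.Hyp r) : ∃ j k : Ed g × Fin n, j ≠ k := by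
  have h2 := hF.two
  have h1 := hF.pos
  exact ⟨(⟨(⟨0, by omega⟩, ⟨1, by omega⟩), Nat.zero_lt_one⟩, ⟨0, by omega⟩),
    (⟨(⟨0, by omega⟩, ⟨1, by omega⟩), Nat.zero_lt_one⟩, ⟨1, by omega⟩), by simp⟩

/-- a vector is bounded by the values of the forms -/
theorem bound (hF : F.Hyp r) (w : Ed g × Fin n → ℤ) : ∃ C : ℕ, 0 < C ∧
    ∀ (Z : ℕ) (l : Ed g × Fin n → ℕ) (v : ℤ × ℤ), (∀ j, l j ≤ Z) → (∀ j, F.LZ j v = w j * l j) →
      |v.1| ≤ C * Z ∧ |v.2| ≤ C * Z := by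
  obtain ⟨j, k, hjk⟩ := pair hF
  have hr := Int.one_le_abs (hF.res_ne hjk)
  refine ⟨((|F.A k| + |F.B k|) * |w j| + (|F.A j| + |F.B j|) * |w k|).natAbs + 1, by omega,
    fun Z l v hl hv => ?_⟩
  have b : ∀ i, |F.LZ i v| ≤ |w i| * Z := fun i => by
    rw [hv, abs_mul, Nat.abs_cast]
    exact mul_le_mul_of_nonneg_left (by exact_mod_cast hl i) (abs_nonneg _)
  have key : ∀ x p q : ℤ, x * F.LZ j (F.rootZ k) = p * F.LZ j v + q * F.LZ k v →
      |x| ≤ (|p| * |w j| + |q| * |w k|) * Z := fun x p q h => by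
    calc |x| ≤ |x| * |F.LZ j (F.rootZ k)| := le_mul_of_one_le_right (abs_nonneg _) hr
      _ = |p * F.LZ j v + q * F.LZ k v| := by rw [← abs_mul, h]
      _ ≤ |p| * |F.LZ j v| + |q| * |F.LZ k v| := by
          rw [← abs_mul, ← abs_mul]; exact abs_add_le _ _
      _ ≤ |p| * (|w j| * Z) + |q| * (|w k| * Z) := by gcongr <;> exact b _
      _ = _ := by ring
  have k1 := key v.1 (F.B k) (-F.B j) (by simp only [HS.LZ, HS.rootZ]; ring)
  have k2 := key v.2 (-F.A k) (F.A j) (by simp only [HS.LZ, HS.rootZ]; ring)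
  rw [abs_neg] at k1 k2
  have hZ : (0 : ℤ) ≤ Z := Nat.cast_nonneg _
  have p1 := mul_nonneg (abs_nonneg (F.A k)) (abs_nonneg (w j))
  have p2 := mul_nonneg (abs_nonneg (F.B k)) (abs_nonneg (w j))
  have p3 := mul_nonneg (abs_nonneg (F.A j)) (abs_nonneg (w k))
  have p4 := mul_nonneg (abs_nonneg (F.B j)) (abs_nonneg (w k))
  rw [Nat.cast_add, Int.natAbs_of_nonneg (by positivity), Nat.cast_one]
  constructor
  · refine k1.trans (mul_le_mul_of_nonneg_right ?_ hZ); nlinarith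
  · refine k2.trans (mul_le_mul_of_nonneg_right ?_ hZ); nlinarith

/-- the exceptional points are bounded -/
theorem exc (S : Finset ℚ) (A B : ℤ) : ∃ K : ℕ, ∀ v : ℤ × ℤ, IsCoprime v.1 v.2 →
    v.2 = 0 ∨ (v.1 / v.2 : ℚ) ∈ S → (A * v.1 + B * v.2).natAbs ≤ K := by
  refine ⟨(A.natAbs + B.natAbs) * (1 + ∑ q ∈ S, (q.num.natAbs + q.den)), fun v hv h => ?_⟩
  have key : v.1.natAbs ≤ 1 + ∑ q ∈ S, (q.num.natAbs + q.den) ∧
      v.2.natAbs ≤ 1 + ∑ q ∈ S, (q.num.natAbs + q.den) := by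
    by_cases c : v.2 = 0
    · rw [c, isCoprime_zero_right, Int.isUnit_iff_natAbs_eq] at hv
      omega
    have h1 := single_le_sum (f := fun q : ℚ => q.num.natAbs + q.den) (fun _ _ => Nat.zero_le _)
      (h.resolve_left c)
    set q : ℚ := v.1 / v.2 with hq
    have e : v.1 * q.den = q.num * v.2 := by
      have h2 : (v.1 : ℚ) / v.2 = q.num / q.den := hq.symm.trans q.num_div_den.symm
      rw [div_eq_div_iff (by exact_mod_cast c) (by exact_mod_cast q.den_nz)] at h2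
      exact_mod_cast h2
    have d2 := Nat.le_of_dvd q.den_pos
      (Int.natAbs_dvd_natAbs.2 (hv.symm.dvd_of_dvd_mul_left (Dvd.intro_left _ e.symm)))
    have d1 : v.1.natAbs ≤ q.num.natAbs := by
      by_cases c' : q.num = 0
      · rw [c', zero_mul, mul_eq_zero] at e
        have := q.den_nz
        omega
      · exact Nat.le_of_dvd (Int.natAbs_pos.2 c')
          (Int.natAbs_dvd_natAbs.2 (hv.dvd_of_dvd_mul_right (Dvd.intro _ e)))
    omega
  refine (Int.natAbs_add_le _ _).trans ?_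
  rw [Int.natAbs_mul, Int.natAbs_mul, add_mul]
  exact Nat.add_le_add (Nat.mul_le_mul_left _ key.1) (Nat.mul_le_mul_left _ key.2)

theorem sb (hF : F.Hyp r) {N : ℕ} {w : ℤ × ℤ} (h : F.Pre N w) : Sb N (F.aZ w) :=
  ⟨hF.pos, h.pos, h.two, fun i k hik => by
    obtain ⟨e, -, -, s, hs, e1⟩ := hF.diff hik
    have := RH.Br2.sm_mul (h.sc e) (RH.Br2.sm_prod univ fun k _ => h.sm (e, k))
    rw [e1]
    rcases hs with rfl | rfl
    · rwa [one_mul]
    · rw [neg_one_mul]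
      exact RH.Br2.sm_neg this⟩

end FinH

open FinH in
theorem fin3 : FRAMEStmt → PAR3Stmt → POSStmt → MKV3Stmt → BASE3Stmt → EXTStmt → PT3Stmt →
    OK3Stmt → BR3Stmt → GEO3Stmt → GOOD3Stmt → MainStmt := by
  classical
  intro frame par pos mkv base ext pt ok br geo good g n r F hF
  obtain ⟨N, w, hpre, base⟩ := base g n r F hF
  obtain ⟨Fr, hFr⟩ := frame g N _ (sb hF hpre)
  obtain ⟨B, rfl, rfl, hB, hpar⟩ := base (r + Fr.par)
  obtain ⟨m, e₀, ext⟩ := ext g n r F B hF hB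
  obtain ⟨P₀, J₀, hpos⟩ := pos m e₀
  obtain ⟨T, hT, he, hP⟩ := ext (P₀ + 2 * Fr.k)
  have hk : 2 * Fr.k ≤ T.M := ((Nat.le_add_left _ _).trans (Nat.self_le_factorial _)).trans
    (Nat.le_of_dvd hT.pos hP)
  have hD := ok g n m r F B T Fr hF hB hT hFr hk
  obtain ⟨δ, hδ, hpos⟩ := hpos _ hD.ok he fun p hp h =>
    (Nat.dvd_factorial hp.pos (by omega)).trans hP
  have g1 := hF.pos
  have er : 2 * g + r - 2 + 2 = 2 * g + r := by omega
  choose! v hv using pt g n m r F B T Fr hF hB hT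
  obtain ⟨J₁, hJ₁⟩ := mkv m _ (2 * g + r - 2) δ hD (er ▸ geo g n m r F B T Fr hF hB hT hFr hD)
    (fun l hl he => by
      obtain ⟨h1, h2, h3⟩ := br g n m r F B T Fr hF hB hT l hl _ (hv l hl).2
      obtain ⟨κ, k1, k2⟩ := par g m _ _ _ Fr _ _ _ _ hFr h1 h2
      obtain ⟨s, hs⟩ : Even (∑ h ∈ T.gr.RF, (l h).primeFactors.card) := he
      rw [← union_assoc] at k1
      exact ⟨κ, k1, by omega⟩)
    (by
      change Even (univ.map T.em).card
      rw [card_map, card_univ, Fintype.card_prod, Fintype.card_fin]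
      exact hF.ev.mul_left _) hδ
  rw [er] at hJ₁
  obtain ⟨X, good⟩ := good g n m r F B T Fr hF hB hT hFr
  obtain ⟨j₀, k₀, hjk⟩ := pair hF
  obtain ⟨K, hK₀⟩ := exc X (F.A j₀) (F.B j₀)
  obtain ⟨t, ht⟩ := ((hpos (J₀ + J₁) (Nat.le_add_right _ _)).and
    (hJ₁ (J₀ + J₁) (Nat.le_add_left _ _)).par).and (ev_ge K)
  obtain ⟨C, hC, hCb⟩ := bound hF fun j => F.LZ j B.w * B.a j
  have hC' : (0 : ℝ) < C := by exact_mod_cast hC
  have hw : ∀ j, F.LZ j B.w * B.a j ≠ 0 := fun j =>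
    mul_ne_zero (hB.pre.sm j).1 (by exact_mod_cast (hB.sqf j).ne_zero)
  refine ⟨δ / 32 / (2 * C) ^ 2, by positivity, ?_⟩
  filter_upwards [(Nat.tendsto_div_const_atTop (n := C) (by omega)).eventually
    (exists_scale m T.M (J₀ + J₁) t), eventually_ge_atTop C] with H hS hH
  obtain ⟨S, h1, h3, h4, hR, hZ⟩ := hS
  obtain ⟨⟨⟨e, hA⟩, hG⟩, hY⟩ := ht S h1 h3 h4 hR
  have hG' := hG e hA
  have hZH : C * S.Z ≤ H := hZ ▸ Nat.mul_div_le _ _
  have hHZ : (H : ℝ) ≤ 2 * C * S.Z := by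
    have k1 : H < C * (S.Z + 1) := hZ ▸ Nat.lt_mul_div_succ _ hC
    have k2 : 1 ≤ S.Z := hZ ▸ Nat.div_pos hH hC
    have k3 : H ≤ 2 * C * S.Z := by nlinarith
    exact_mod_cast k3
  refine le_trans ?_ (hG'.trans (Nat.cast_le.2 (card_le_card_of_injOn v (fun l hl => ?_)
    fun l hl l' hl' h => ?_)))
  · rw [div_mul_eq_mul_div, div_le_iff₀ (by positivity)]
    calc δ / 32 * (H : ℝ) ^ 2 ≤ δ / 32 * (2 * C * S.Z) ^ 2 := by gcongr
      _ = _ := by ring
  · obtain ⟨hl, hK⟩ := mem_filter.1 (mem_coe.1 hl)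
    have ad := adm_of_mem (hR.par e) hl
    obtain ⟨b1, -, -, -, hsh⟩ := mem_AA.1 hl
    obtain ⟨v1, v2⟩ := hv l ad
    obtain ⟨c1, c2⟩ := hCb S.Z (fun j => l (T.em j)) (v l) (fun j => (b1 _).2) v2
    have c3 : (C * S.Z : ℤ) ≤ H := by exact_mod_cast hZH
    have ne : ¬((v l).2 = 0 ∨ ((v l).1 / (v l).2 : ℚ) ∈ X) := fun c => by
      have d1 : (F.LZ j₀ (v l)).natAbs ≤ K := hK₀ _ v1 c
      rw [v2, Int.natAbs_mul, Int.natAbs_natCast] at d1
      have d4 := (Nat.le_mul_of_pos_left _ (Int.natAbs_pos.2 (hw j₀))).trans d1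
      obtain ⟨c, P, hc, -, hP, e'⟩ := hsh (T.em j₀)
      have d5 : P ≤ l (T.em j₀) := e' ▸ Nat.le_mul_of_pos_left _ hc.pos
      have d6 : S.Y' < P := hP
      have := hR.Y0_le.trans hR.Y_le
      omega
    exact mem_coe.2 (mem_filter.2 ⟨mem_product.2 ⟨mem_Icc.2 (abs_le.1 (c1.trans c3)),
      mem_Icc.2 (abs_le.1 (c2.trans c3))⟩, v1,
      good l ad (fun j => (hsh j).one_lt) hK _ v2 (fun c => ne (.inl c)) fun c => ne (.inr c)⟩)
  · have a1 := adm_of_mem (hR.par e) (mem_filter.1 (mem_coe.1 hl)).1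
    have a2 := adm_of_mem (hR.par e) (mem_filter.1 (mem_coe.1 hl')).1
    have key : ∀ j, l (T.em j) = l' (T.em j) := fun j =>
      Nat.cast_injective (R := ℤ) (mul_left_cancel₀ (hw j) (by
        rw [← (hv l a1).2, ← (hv l' a2).2, h]))
    exact a1.lin.ext a2.lin (hT.ne _ _ (T.em.injective.ne hjk)) (key k₀) (key j₀)

end Pool.Agent.MP_a43263_nt.JC
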