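import Pool.Agent.MP_a43263_nt.JC.SBasic
import Pool.Agent.MP_a43263_nt.RH.Frame

/-! THEOREM J: the frame at the bad places. -/

set_option autoImplicit false

namespace Pool.Agent.MP_a43263_nt.JC

namespace Frm

open Finset
open RH (Smooth)
open RH.Frm (sm_one sm_mul jac_pm jac_sq eq_of core sq_cancel)

abbrev T (g : ℕ) : Type := (Vx g → ℤ) × (Ed g → ℕ)

variable {g N : ℕ} {b : Vx g → ℤ}

def Sv (N : ℕ) (u : Vx g → ℤ) : Prop := ∀ k, Smooth N (u k)

def Cp (N : ℕ) (x : Ed g → ℕ) : Prop := ∀ e, (x e).Coprime N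

def WW (N : ℕ) (b : Vx g → ℤ) (w : T g) : Prop :=
  Sv N w.1 ∧ Cp N w.2 ∧ SolS N b fun k => w.1 k * mm w.2 k

def Sq (u : Vx g → ℤ) : Prop := ∀ k, IsSquare (u k)

noncomputable def kap (b : Vx g → ℤ) (k : Vx g) : ℤ := (-1) ^ g * fd b k

theorem Sv.mul {x y : Vx g → ℤ} (h : Sv N x) (k : Sv N y) : Sv N (x * y) :=
  fun i => sm_mul (h i) (k i)

theorem Cp.mul {x y : Ed g → ℕ} (h : Cp N x) (k : Cp N y) : Cp N (x * y) :=
  fun e => Nat.Coprime.mul_left (h e) (k e)

theorem Cp.odd (h2 : 2 ∣ N) {x : Ed g → ℕ} (h : Cp N x) (e : Ed g) : x e % 2 = 1 := by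
  by_contra c
  have := Nat.dvd_gcd (show 2 ∣ x e by omega) h2
  rw [h e] at this
  omega

theorem Cp.ne (h2 : 2 ∣ N) {x : Ed g → ℕ} (h : Cp N x) (e : Ed g) : x e ≠ 0 := by
  have := h.odd h2 e
  omega

theorem P_pm {u : Vx g → ℤ} {x : Ed g → ℕ} (h : Sv N u) (k : Cp N x) :
    Pj u x = 1 ∨ Pj u x = -1 := by
  refine prod_induction _ (fun z : ℤ => z = 1 ∨ z = -1) ?_ (.inl rfl)
    fun e _ => jac_pm (sm_mul (h _) (h _)) (k e)
  rintro _ _ (rfl | rfl) (rfl | rfl) <;> simp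

theorem P_left (u v : Vx g → ℤ) (x : Ed g → ℕ) : Pj (u * v) x = Pj u x * Pj v x := by
  rw [Pj, Pj, Pj, ← prod_mul_distrib]
  refine prod_congr rfl fun e _ => ?_
  rw [Pi.mul_apply, Pi.mul_apply, mul_mul_mul_comm, jacobiSym.mul_left]

theorem P_right (h2 : 2 ∣ N) (u : Vx g → ℤ) {x y : Ed g → ℕ} (h : Cp N x) (k : Cp N y) :
    Pj u (x * y) = Pj u x * Pj u y := by
  rw [Pj, Pj, Pj, ← prod_mul_distrib]
  exact prod_congr rfl fun e _ => jacobiSym.mul_right' _ (h.ne h2 e) (k.ne h2 e)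

theorem P_sq {u : Vx g → ℤ} {x : Ed g → ℕ} (h : Sv N u) (k : Cp N x) (s : Sq u) : Pj u x = 1 :=
  prod_eq_one fun e _ => jac_sq (sm_mul (h _) (h _)) (k e) ((s _).mul (s _))

theorem cp_one : Cp N (1 : Ed g → ℕ) := fun _ => Nat.coprime_one_left N

theorem sv_prod {ι : Type} (x : Finset ι) {m : ι → Vx g → ℤ} (h : ∀ i, Sv N (m i)) :
    Sv N (∏ i ∈ x, m i) :=
  prod_induction _ _ (fun _ _ => Sv.mul) (fun _ => sm_one) fun i _ => h i

theorem cp_prod {ι : Type} (x : Finset ι) {m : ι → Ed g → ℕ} (h : ∀ i, Cp N (m i)) :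
    Cp N (∏ i ∈ x, m i) :=
  prod_induction _ _ (fun _ _ => Cp.mul) cp_one fun i _ => h i

theorem P_prod_left {ι : Type} (x : Finset ι) (u : ι → Vx g → ℤ) (m : Ed g → ℕ) :
    Pj (∏ i ∈ x, u i) m = ∏ i ∈ x, Pj (u i) m := by
  classical
  induction x using Finset.induction_on with
  | empty => simp [Pj]
  | insert i x hi ih => rw [prod_insert hi, prod_insert hi, P_left, ih]

theorem P_prod_right (h2 : 2 ∣ N) {ι : Type} (x : Finset ι) (u : Vx g → ℤ) {m : ι → Ed g → ℕ}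
    (h : ∀ i, Cp N (m i)) : Pj u (∏ i ∈ x, m i) = ∏ i ∈ x, Pj u (m i) := by
  classical
  induction x using Finset.induction_on with
  | empty => simp [Pj]
  | insert i x hi ih => rw [prod_insert hi, prod_insert hi, P_right h2 _ (h i) (cp_prod x h), ih]

theorem mm_one (k : Vx g) : mm (1 : Ed g → ℕ) k = 1 := by
  simp [mm, mv]

theorem W_unit {K : Type} [Field K] (a : Vx g → K) : W a fun _ => 1 :=
  ⟨1, 0, Polynomial.monic_one, one_dvd _, fun i => by simp [nb]⟩

theorem W_one : WW N b 1 := by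
  have key : ∀ (K : Type) [Field K], W (fun i => (b i : K))
      fun k => (((1 : T g).1 k * mm (1 : T g).2 k : ℤ) : K) := by
    intro K _
    have : (fun k => (((1 : T g).1 k * mm (1 : T g).2 k : ℤ) : K)) = fun _ => 1 := by
      funext k
      rw [Prod.snd_one, mm_one]
      simp
    rw [this]
    exact W_unit _
  exact ⟨fun _ => sm_one, cp_one, key ℝ, fun p _ _ => key _⟩

theorem WW.mul (gp : GP3Stmt) (grp : GRPStmt) (hb : Sb N b) {w w' : T g} (h : WW N b w)
    (k : WW N b w') : WW N b (w * w') := by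
  have key : ∀ (K : Type) [Field K] [CharZero K],
      (W (fun i => (b i : K)) fun i => ((w.1 i * mm w.2 i : ℤ) : K)) →
      (W (fun i => (b i : K)) fun i => ((w'.1 i * mm w'.2 i : ℤ) : K)) →
      W (fun i => (b i : K)) fun i => (((w * w').1 i * mm (w * w').2 i : ℤ) : K) := by
    intro K _ _ p q
    have := grp K (Vx g) g _ ⟨card_Vx g, hb.g1, fun i j e => by
      by_contra c
      exact (hb.sm i j c).1 (sub_eq_zero.2 (Int.cast_injective e)), rfl⟩ _ _ p q
    have e : (fun i => (((w * w').1 i * mm (w * w').2 i : ℤ) : K)) =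
        fun i => ((w.1 i * mm w.2 i : ℤ) : K) * ((w'.1 i * mm w'.2 i : ℤ) : K) := by
      funext i
      rw [← Int.cast_mul, mul_mul_mul_comm, mm, mm, mm, ← prod_mul_distrib]
      exact congrArg (fun z => (((w.1 i * w'.1 i) * z : ℤ) : K)) (prod_congr rfl fun e _ =>
        (gp g).1 e _ _ i (h.2.1.odd hb.two e) (k.2.1.odd hb.two e))
    rw [e]
    exact this
  exact ⟨h.1.mul k.1, h.2.1.mul k.2.1, key ℝ h.2.2.1 k.2.2.1, fun p _ hp =>
    key _ (h.2.2.2 p hp) (k.2.2.2 p hp)⟩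

theorem sm_kap (hb : Sb N b) : Sv N (kap b) := fun k => by
  refine sm_mul ?_ (prod_induction _ _ (fun _ _ => sm_mul) sm_one fun l hl =>
    hb.sm k l fun e => by simp [e] at hl)
  refine ⟨pow_ne_zero _ (by decide), fun p hp e => ?_⟩
  have := (Nat.prime_iff_prime_int.1 hp).dvd_of_dvd_pow e
  rw [dvd_neg] at this
  exact absurd (Int.natCast_dvd_natCast.1 this) hp.not_dvd_one

theorem P_kap (x : Ed g → ℕ) : Pj (kap b) x = Pj (fd b) x := by
  refine prod_congr rfl fun e _ => ?_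
  rw [kap, kap, mul_mul_mul_comm, ← mul_pow]
  simp

theorem sq_kap (b : Vx g → ℤ) : IsSquare (∏ k, kap b k) := by
  have c : ∑ i : Vx g, (Ioi i).card = g * (2 * g + 1) := by
    have := sum_sum_Ioi_add_eq_sum_sum_off_diag fun _ _ : Vx g => (1 : ℕ)
    simp only [sum_const, smul_eq_mul, mul_one, card_compl, card_singleton, card_univ,
      Fintype.card_fin, ← sum_mul] at this
    have e : (2 * g + 1) * (2 * g + 1 - 1) = g * (2 * g + 1) * (1 + 1) := by
      rw [Nat.add_sub_cancel]; ring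
    rw [e] at this
    exact Nat.eq_of_mul_eq_mul_right (by decide) this
  have d : ∏ k, fd b k = ∏ i, ∏ j ∈ Ioi i, (-1) * (b i - b j) ^ 2 := by
    have := prod_prod_Ioi_mul_eq_prod_prod_off_diag fun j i : Vx g => b i - b j
    refine Eq.trans (prod_congr rfl fun i _ => prod_congr ?_ fun _ _ => rfl)
      (this.symm.trans (prod_congr rfl fun i _ => prod_congr rfl fun j _ => by ring))
    ext l
    simp
  refine ⟨(-1) ^ (g * (2 * g + 1)) * ∏ i, ∏ j ∈ Ioi i, (b i - b j), ?_⟩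
  simp only [kap, prod_mul_distrib, d, prod_const, prod_pow_eq_pow_sum, c, prod_pow, card_univ,
    Fintype.card_fin, ← pow_mul]
  rw [mul_mul_mul_comm, ← sq (∏ i, ∏ j ∈ Ioi i, (b i - b j)), ← mul_assoc, ← mul_pow]

theorem qs (rec : REC3Stmt) (hb : Sb N b) {w : T g} (h : WW N b w) :
    Pj w.1 w.2 = Pj (kap b) w.2 :=
  (rec g N b w.1 w.2 hb h.1 h.2.1 h.2.2).2.trans (P_kap _).symm

theorem pol (gp : GP3Stmt) (grp : GRPStmt) (rec : REC3Stmt) (hb : Sb N b) {w w' : T g}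
    (h : WW N b w) (k : WW N b w') : Pj w.1 w'.2 = Pj w'.1 w.2 := by
  have h2 := hb.two
  have e := qs rec hb (h.mul gp grp hb k)
  rw [Prod.fst_mul, Prod.snd_mul, P_left, P_right h2 _ h.2.1 k.2.1, P_right h2 _ h.2.1 k.2.1,
    P_right h2 _ h.2.1 k.2.1, ← qs rec hb h, ← qs rec hb k] at e
  refine eq_of (P_pm h.1 k.2.1) ?_
  rcases P_pm h.1 h.2.1 with p | p <;> rcases P_pm k.1 k.2.1 with q | q <;> rw [p, q] at e <;>
    linarith

def Ind (j : ℕ) (G : ℕ → Vx g → ℤ) : Prop := ∀ x ⊆ range j, Sq (∏ i ∈ x, G i) → x = ∅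

theorem Ind.congr {j : ℕ} {G G' : ℕ → Vx g → ℤ} (h : Ind j G) (e : ∀ i < j, G' i = G i) :
    Ind j G' :=
  fun x hx s => h x hx (by rwa [← prod_congr rfl fun i hi => e i (mem_range.1 (hx hi))])

theorem Ind.succ {j : ℕ} {G : ℕ → Vx g → ℤ} (h : Ind j G)
    (hn : ¬∃ x ⊆ range j, Sq (G j * ∏ i ∈ x, G i)) : Ind (j + 1) G := by
  intro x hx s
  have hs : x.erase j ⊆ range j := fun i hi => by
    have := mem_range.1 (hx (mem_of_mem_erase hi))
    have := ne_of_mem_erase hi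
    exact mem_range.2 (by omega)
  by_cases hj : j ∈ x
  · exact absurd ⟨_, hs, by rwa [mul_prod_erase _ _ hj]⟩ hn
  · exact h x (by rwa [erase_eq_of_notMem hj] at hs) s

theorem Ind.bound (hN : 0 < N) {j : ℕ} {G : ℕ → Vx g → ℤ} (h : Ind j G) (hs : ∀ i, Sv N (G i)) :
    j ≤ (Fintype.piFinset fun _ : Vx g => Icc (-N : ℤ) N).card := by
  choose c a s e using fun (x : Finset ℕ) (k : Vx g) => core hN (sv_prod x hs k)
  refine (Nat.lt_two_pow_self (n := j)).le.trans ?_
  rw [← card_range j, ← card_powerset]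
  refine card_le_card_of_injOn c (fun x _ => mem_coe.2 (Fintype.mem_piFinset.2 (a x)))
    fun x hx y hy f => ?_
  have hx' := mem_powerset.1 (mem_coe.1 hx)
  have hy' := mem_powerset.1 (mem_coe.1 hy)
  have pr : (∏ i ∈ x, G i) * ∏ i ∈ y, G i =
      (∏ i ∈ symmDiff x y, G i) * (∏ i ∈ x ∩ y, G i) ^ 2 := by
    rw [symmDiff_def, sup_eq_union, prod_union disjoint_sdiff_sdiff,
      ← prod_inter_mul_prod_sdiff x y, ← prod_inter_mul_prod_sdiff y x, inter_comm y x, sq]
    ac_rfl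
  refine symmDiff_eq_bot.1 (h _ (symmDiff_le_sup.trans (sup_le hx' hy')) fun k =>
    sq_cancel (sv_prod (x ∩ y) hs k).1 ?_)
  have := congrFun pr k
  rw [Pi.mul_apply, Pi.mul_apply, Pi.pow_apply] at this
  rw [← this, e x, e y, f]
  exact ⟨c y k * s x k * s y k, by ring⟩

theorem basis (hN : 0 < N) : ∃ (j : ℕ) (t : ℕ → T g), (∀ i, WW N b (t i)) ∧
    Ind j (fun i => (t i).1) ∧
    ∀ w, WW N b w → ∃ x ⊆ range j, Sq (w.1 * ∏ i ∈ x, (t i).1) := by
  by_contra hn
  have key : ∀ j, ∃ t : ℕ → T g, (∀ i, WW N b (t i)) ∧ Ind j fun i => (t i).1 := by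
    intro j
    induction j with
    | zero => exact ⟨fun _ => 1, fun _ => W_one, fun x hx _ => by simpa using hx⟩
    | succ j ih =>
      obtain ⟨t, h1, h2⟩ := ih
      by_contra hc
      refine hn ⟨j, t, h1, h2, fun w hw => ?_⟩
      by_contra hx
      have e : ∀ i < j, (Function.update t j w i).1 = (t i).1 := fun i hi => by
        rw [Function.update_of_ne hi.ne]
      refine hc ⟨Function.update t j w, fun i => ?_, (h2.congr e).succ ?_⟩
      · by_cases c : i = j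
        · rwa [c, Function.update_self]
        · rw [Function.update_of_ne c]
          exact h1 i
      · rintro ⟨x, p, q⟩
        refine hx ⟨x, p, ?_⟩
        rwa [Function.update_self, prod_congr rfl fun i hi => e i (mem_range.1 (p hi))] at q
  obtain ⟨t, h1, h2⟩ := key ((Fintype.piFinset fun _ : Vx g => Icc (-N : ℤ) N).card + 1)
  have := h2.bound hN fun i => (h1 i).1
  omega

end Frm

open Finset Frm in
theorem frame : GP3Stmt → GRPStmt → REC3Stmt → FRAMEStmt := by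
  intro gp grp rec g N b hb
  have h2 := hb.two
  obtain ⟨j, t, ht, hi, hm⟩ := basis (b := b) hb.pos
  have hκ : Sv N (kap b) := sm_kap hb
  let G : ℕ → Vx g → ℤ := fun i => if i < j then (t i).1 else kap b
  let τ : ℕ → ℕ → ℤ := fun i i' =>
    if i < j then Pj (G i') (t i).2 else if i' < j then Pj (kap b) (t i').2 else 1
  have hG : ∀ i, Sv N (G i) := fun i => by
    simp only [G]
    split_ifs
    exacts [(ht i).1, hκ]
  have sG : ∀ i, IsSquare (∏ k, G i k) := fun i => by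
    simp only [G]
    split_ifs
    exacts [(rec g N b _ _ hb (ht i).1 (ht i).2.1 (ht i).2.2).1, sq_kap b]
  have eG : ∀ i < j, G i = (t i).1 := fun i hi => if_pos hi
  have pG : ∀ x ⊆ range j, ∏ i ∈ x, G i = ∏ i ∈ x, (t i).1 := fun x hx =>
    prod_congr rfl fun i hi => eG i (mem_range.1 (hx hi))
  have sg : R2.Sgn τ := by
    refine ⟨fun i i' => ?_, fun i i' => ?_⟩
    · by_cases p : i < j <;> by_cases q : i' < j <;> simp only [τ, G, p, q, if_true, if_false]
      exact pol gp grp rec hb (ht i') (ht i)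
    · simp only [τ]
      split_ifs
      exacts [P_pm (hG _) (ht _).2.1, P_pm hκ (ht _).2.1, .inl rfl]
  have dia : ∀ i < j, τ i i = Pj (kap b) (t i).2 := fun i hi => by
    simp only [τ, G, hi, if_true]
    exact qs rec hb (ht i)
  have loc : ∀ k, j ≤ k → ∀ (u : Vx g → ℤ) (x : Ed g → ℕ), (∀ l, RH.Smooth N (u l)) →
      (∀ e, (x e).Coprime N) → SolS N b (fun l => u l * mm x l) → ∃ y ⊆ range k,
      (∀ l, IsSquare (u l * ∏ i ∈ y, G i l)) ∧ ∀ i < k, ∏ s ∈ y, τ s i = Pj (G i) x := by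
    intro k hk u m c1 c2 c3
    have hw : WW N b (u, m) := ⟨c1, c2, c3⟩
    obtain ⟨x, hx, s⟩ := hm _ hw
    have hp : WW N b (∏ i ∈ x, t i) :=
      prod_induction _ _ (fun _ _ => WW.mul gp grp hb) W_one fun i _ => ht i
    have hw' := hw.mul gp grp hb hp
    have s' : Sq (((u, m) : T g) * ∏ i ∈ x, t i).1 := by
      rwa [Prod.fst_mul, Prod.fst_prod]
    rw [← pG x hx] at s
    refine ⟨x, hx.trans (range_mono hk), fun l => by simpa [Finset.prod_apply] using s l,
      fun i _ => ?_⟩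
    have e1 : ∏ s ∈ x, τ s i = Pj (G i) (∏ s ∈ x, t s).2 := by
      rw [Prod.snd_prod, P_prod_right h2 x _ fun s => (ht s).2.1]
      exact prod_congr rfl fun s hs => if_pos (mem_range.1 (hx hs))
    have e2 : Pj (G i) (((u, m) : T g) * ∏ i ∈ x, t i).2 = 1 := by
      by_cases c : i < j
      · rw [eG i c, pol gp grp rec hb (ht i) hw']
        exact P_sq hw'.1 (ht i).2.1 s'
      · rw [show G i = kap b from if_neg c, ← qs rec hb hw']
        exact P_sq hw'.1 hw'.2.1 s'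
    rw [Prod.snd_mul, P_right h2 _ hw.2.1 hp.2.1] at e2
    rw [e1]
    exact (RH.Frm.eq_of (P_pm (hG i) hw.2.1) e2).symm
  have ind : ∀ k, Ind k G → ∀ x ⊆ range k, (∀ l, IsSquare (∏ i ∈ x, G i l)) → x = ∅ :=
    fun k h x hx p => h x hx fun l => by rw [Finset.prod_apply]; exact p l
  have eκ : G j = kap b := if_neg (lt_irrefl j)
  by_cases hc : ∃ x ⊆ range j, Sq (G j * ∏ i ∈ x, G i)
  · obtain ⟨x, hx, s⟩ := hc
    rw [eκ] at s
    refine ⟨⟨j, G, τ, x⟩, sg, hG, sG, ind j (hi.congr eG), hx,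
      fun l => by simpa [Finset.prod_apply, kap] using s l, fun i hi => ?_, loc j le_rfl⟩
    have e1 : ∏ s ∈ x, τ s i = Pj (∏ s ∈ x, G s) (t i).2 := by
      rw [P_prod_left]
      exact prod_congr rfl fun s _ => (sg.1 s i).trans (if_pos hi)
    have e2 := P_sq (hκ.mul (sv_prod x hG)) (ht i).2.1 s
    rw [P_left] at e2
    exact ((dia i hi).trans (RH.Frm.eq_of (P_pm hκ (ht i).2.1) e2)).trans e1.symm
  · refine ⟨⟨j + 1, G, τ, {j}⟩, sg, hG, sG, ind _ ((hi.congr eG).succ hc), by simp, fun l => ?_,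
      fun i hi => ?_, loc _ (Nat.le_succ j)⟩
    · simp only [prod_singleton, eκ]
      exact ⟨_, rfl⟩
    · simp only [prod_singleton]
      rcases Nat.lt_succ_iff_lt_or_eq.1 hi with c | rfl
      · rw [dia i c]
        simp only [τ, lt_irrefl, c, if_true, if_false]
      · rfl

end Pool.Agent.MP_a43263_nt.JC
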