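import Pool.Agent.MP_a43263_nt.JC.SBasic
import Pool.Agent.MP_a43263_nt.RG.Geo

/-! THEOREM J, row GEO: geometric classes satisfy the residue conditions. -/

set_option autoImplicit false

noncomputable section

namespace Pool.Agent.MP_a43263_nt.JC

open Finset
open R2 (Ker)
open RG (Ix Tag Gen tg)

namespace Geo

variable {g n m r : ℕ}

theorem pt {R : Type} [CommMonoid R] (e' e : Ed g) (x : R) :
    (if On e.1.1 e' then x else 1) * (if On e.1.2 e' then x else 1) =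
      (if adj e' e = true then x else 1) * (if e' = e then x else 1) ^ 2 := by
  obtain ⟨⟨i, j⟩, hij⟩ := e
  obtain ⟨⟨k, l⟩, hkl⟩ := e'
  simp only [adj, On, decide_eq_true_eq, ne_eq, Subtype.mk.injEq, Prod.mk.injEq, Fin.ext_iff]
  simp only [Fin.lt_def] at hij hkl
  split_ifs <;> first | omega | simp [sq]

theorem prod_two {R : Type} [CommMonoid R] (Y : Finset (Ed g × Fin n)) (f : Ed g × Fin n → R)
    (e : Ed g) :
    (∏ k ∈ Y.filter (fun k => On e.1.1 k.1), f k) * ∏ k ∈ Y.filter (fun k => On e.1.2 k.1), f k =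
      (∏ k ∈ Y.filter (fun k => adj k.1 e = true), f k) *
        (∏ k ∈ Y.filter (fun k => k.1 = e), f k) ^ 2 := by
  simp only [prod_filter, ← prod_mul_distrib, ← prod_pow]
  exact prod_congr rfl fun k _ => pt k.1 e (f k)

theorem prod_two' {R : Type} [CommMonoid R] (Y : Finset (Ed g × Fin n)) (f : Ed g × Fin n → R)
    (e : Ed g) :
    (∏ k ∈ (Y.filter fun k => k.1 ≠ e).filter (fun k => On e.1.1 k.1), f k) *
      ∏ k ∈ (Y.filter fun k => k.1 ≠ e).filter (fun k => On e.1.2 k.1), f k =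
      ∏ k ∈ Y.filter (fun k => adj k.1 e = true), f k := by
  rw [prod_two, filter_filter, filter_filter,
    filter_false_of_mem (p := fun k : Ed g × Fin n => k.1 ≠ e ∧ k.1 = e) fun k _ h => h.1 h.2,
    prod_empty, one_pow, mul_one]
  refine prod_congr (filter_congr fun k _ => ⟨fun h => h.2, fun h => ⟨?_, h⟩⟩) fun _ _ => rfl
  exact (of_decide_eq_true h).1

theorem prod_on {R : Type} [CommMonoid R] (Y : Finset (Ed g × Fin n)) (f : Ed g × Fin n → R) :
    ∏ i : Vx g, ∏ k ∈ Y.filter (fun k => On i k.1), f k = (∏ k ∈ Y, f k) ^ 2 := by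
  simp only [prod_filter]
  rw [prod_comm, ← prod_pow]
  refine prod_congr rfl fun k _ => ?_
  have e : univ.filter (fun i : Vx g => On i k.1) = {k.1.1.1, k.1.1.2} := by
    ext i
    simp [On]
  rw [← prod_filter, prod_const, e, card_pair (ed_ne k.1)]

/-- all degrees are even -/
theorem deg_even (Y : Finset (Ed g × Fin n))
    (h : ∀ e : Ed g, Even (Y.filter fun k => adj k.1 e = true).card) (i : Vx g) :
    Even (Y.filter fun k => On i k.1).card := by
  have one : ∀ N : ℕ, (-1 : ℤ) ^ N * (-1) ^ N = 1 := fun N => by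
    rw [← mul_pow]; simp
  have h1 : ∀ e : Ed g, (-1 : ℤ) ^ (Y.filter fun k => On e.1.1 k.1).card =
      (-1) ^ (Y.filter fun k => On e.1.2 k.1).card := fun e => by
    have := prod_two Y (fun _ => (-1 : ℤ)) e
    simp only [prod_const] at this
    rw [(h e).neg_one_pow, sq, one, one_mul] at this
    exact mul_right_cancel₀ (pow_ne_zero _ (by decide)) (this.trans (one _).symm)
  have h2 : ∀ j : Vx g, (-1 : ℤ) ^ (Y.filter fun k => On j k.1).card =
      (-1) ^ (Y.filter fun k => On i k.1).card := fun j => by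
    by_cases c : j = i
    · rw [c]
    · obtain ⟨e, ⟨rfl, rfl⟩ | ⟨rfl, rfl⟩⟩ := exists_ed c
      · exact h1 e
      · exact (h1 e).symm
  have h3 := prod_on Y (fun _ => (-1 : ℤ))
  simp only [prod_const, h2] at h3
  rw [card_univ, card_Vx, sq, one, pow_succ, pow_mul, sq, one, one_pow, one_mul] at h3
  exact (neg_one_pow_eq_one_iff_even (by decide)).1 h3

theorem vec_ne {Fr : Frame g} {N : ℕ} {b : Vx g → ℤ} (h : Fr.Ok N b) (cg : Gen m → Ed g)
    (a : Gen m) (k : Vx g) : Fr.vec cg a k ≠ 0 := by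
  unfold Frame.vec mv
  split_ifs with h1 <;> first | exact (h.sm _ _).1 | omega

/-- the values of the forms at a root -/
theorem root_val {F : HS g n} {B : Bs g n} (hF : F.Hyp r) (hB : B.Ok F) (k : Ed g × Fin n) :
    ∃ τ : ℚ, ∀ j, F.L j (F.root k) =
      τ * (((F.LZ j B.w : ℚ) * B.a j) * (B.e j - B.e k)) := by
  obtain ⟨k', hk'⟩ : ∃ k' : Ed g × Fin n, k' ≠ k := by
    have := Fin.nontrivial_iff_two_le.2 hF.two
    obtain ⟨x, hx⟩ := exists_ne k.2
    exact ⟨(k.1, x), fun h => hx (congrArg Prod.snd h)⟩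
  have h0 : ∀ j, (F.A j : ℚ) * B.v0.1 + F.B j * B.v0.2 = F.LZ j B.w * B.a j := fun j => by
    have := hB.l0 j
    rw [HS.LZ] at this
    exact_mod_cast this
  have h1 : ∀ j, (F.A j : ℚ) * B.v1.1 + F.B j * B.v1.2 = F.LZ j B.w * B.a j * B.e j := fun j => by
    have := hB.l1 j
    rw [HS.LZ] at this
    exact_mod_cast this
  have hne : ((F.LZ k' B.w : ℚ) * B.a k') * (B.e k' - B.e k) ≠ 0 := by
    refine mul_ne_zero (mul_ne_zero ?_ ?_) ?_
    · exact_mod_cast (hB.pre.sm k').1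
    · exact_mod_cast (hB.sqf k').ne_zero
    · exact_mod_cast sub_ne_zero.2 (hB.ne k' k hk')
  refine ⟨F.L k' (F.root k) / (((F.LZ k' B.w : ℚ) * B.a k') * (B.e k' - B.e k)), fun j => ?_⟩
  rw [div_mul_eq_mul_div, eq_div_iff hne]
  simp only [HS.L, HS.root]
  linear_combination
    (-((F.A j : ℚ) * F.B k + F.B j * -F.A k)) * (h1 k' - (B.e k : ℚ) * h0 k') +
      ((F.A k' : ℚ) * F.B k + F.B k' * -F.A k) * (h1 j - (B.e k : ℚ) * h0 j) +
      ((F.A j : ℚ) * F.B k' - F.A k' * F.B j) * (h1 k - (B.e k : ℚ) * h0 k)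

theorem filter_em {F : HS g n} {B : Bs g n} {T : Em g n m} (hT : T.Ok F B)
    (Y : Finset (Ed g × Fin n)) (h : Ed g × Fin n) :
    (Y.map T.em).filter (fun j => T.gr.ad (tg j) (tg (T.em h)) = true) =
      (Y.filter fun k => adj k.1 h.1 = true).map T.em := by
  rw [filter_map]
  refine congrArg _ (filter_congr fun k _ => ?_)
  simp only [Em.gr, Function.comp, hT.ct]

/-- a geometric class gives an element of the residue group -/
theorem mem (mat : MAT3Stmt) {F : HS g n} {B : Bs g n} {T : Em g n m} {Fr : Frame g}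
    (hF : F.Hyp r) (hB : B.Ok F) (hT : T.Ok F B) (hR : Fr.Ok B.N (F.aZ B.w))
    {Y : Finset (Ed g × Fin n)} (hy : Y.map T.em ∈ T.gr.Yc) {U : Finset (Gen m)}
    (h : (T.dat B Fr).Geo (Y.map T.em) U) : ∃ u, F.InS u Y := by
  have hm : ∀ k, T.em k ∈ T.gr.RF := fun k => mem_map_of_mem _ (mem_univ k)
  have hev : ∀ k : Ed g × Fin n, Even (Y.filter fun j => adj j.1 k.1 = true).card := fun k => by
    have := (mem_filter.1 hy).2 _ (hm k)
    rwa [Gr.Yad, filter_em hT, card_map] at this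
  obtain ⟨-, -, m3, m4⟩ := mat g m Fr T.cg T.dg
  refine ⟨fun i => (∏ a ∈ U, Fr.vec T.cg a i : ℤ) *
    ∏ j ∈ Y.filter (fun j => On i j.1), ((F.LZ j B.w : ℚ) * B.a j), fun i => ?_, ?_,
    deg_even Y fun e => hev (e, ⟨0, by have := hF.two; omega⟩), fun k => ?_⟩
  · refine mul_ne_zero ?_ (prod_ne_zero_iff.2 fun j _ => mul_ne_zero ?_ ?_)
    · exact Int.cast_ne_zero.2 (prod_ne_zero_iff.2 fun a _ => vec_ne hR _ a i)
    · exact_mod_cast (hB.pre.sm j).1
    · exact_mod_cast (hB.sqf j).ne_zero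
  · obtain ⟨w, e1⟩ := m4 hR.sq U
    rw [prod_mul_distrib, prod_on, ← Int.cast_prod, e1, Int.cast_mul]
    exact (IsSquare.mul_self _).mul (IsSquare.sq _)
  · obtain ⟨τ, hτ⟩ := root_val hF hB k
    obtain ⟨c, hc⟩ := hev k
    obtain ⟨s, hs⟩ := h _ (hm k)
    have hs' : ((∏ a ∈ U, Fr.GG T.cg k.1 a : ℤ) : ℚ) * ((if k ∈ Y then F.gam k else 1) *
        ∏ j ∈ Y.filter (fun j => adj j.1 k.1 = true), ((B.e j : ℚ) - B.e k)) = s * s := by
      have e1 : (T.dat B Fr).Gv (tg (T.em k)) U = ∏ a ∈ U, Fr.GG T.cg k.1 a := by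
        simp only [Dat3.Gv, Em.dat, hT.ct]
      have e2 : (T.dat B Fr).Cy (Y.map T.em) (T.em k) = (if k ∈ Y then F.gamZ k else 1) *
          ∏ j ∈ Y.filter (fun j => adj j.1 k.1 = true), (B.e j - B.e k) := by
        simp only [Dat3.Cy, Em.dat, filter_em hT, prod_map, mem_map', hT.c, hT.e]
      rw [e1, e2] at hs
      have := congrArg (fun z : ℤ => (z : ℚ)) hs
      simp only [Int.cast_mul, Int.cast_prod, Int.cast_sub] at this ⊢
      rw [← this, F.gam_eq]
      split_ifs <;> simp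
    have e3 := congrArg (fun z : ℤ => (z : ℚ)) (m3 U k.1)
    simp only [Int.cast_mul, Int.cast_pow] at e3
    have e4 := prod_two Y (fun j => (F.LZ j B.w : ℚ) * B.a j) k.1
    have e5 := prod_two' Y (fun j => F.L j (F.root k)) k.1
    have e6 : ∏ j ∈ Y.filter (fun j => adj j.1 k.1 = true), F.L j (F.root k) =
        τ ^ c * τ ^ c * ((∏ j ∈ Y.filter (fun j => adj j.1 k.1 = true),
          ((F.LZ j B.w : ℚ) * B.a j)) *
          ∏ j ∈ Y.filter (fun j => adj j.1 k.1 = true), ((B.e j : ℚ) - B.e k)) := by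
      rw [prod_congr rfl fun j _ => hτ j, prod_mul_distrib, prod_mul_distrib, prod_const, hc,
        pow_add]
    simp only [HS.del, Rat.cast_id]
    rw [mul_mul_mul_comm, mul_mul_mul_comm _ _ ((∏ a ∈ U, Fr.vec T.cg a k.1.1.2 : ℤ) : ℚ), e3, e4,
      e5, e6]
    refine ⟨s * τ ^ c * (∏ a ∈ U.filter (fun a => a.2 % 2 = 1 ∧ T.cg a = k.1), (a.2 : ℤ) : ℤ) *
      (∏ j ∈ Y.filter (fun j => adj j.1 k.1 = true), ((F.LZ j B.w : ℚ) * B.a j)) *
      ∏ j ∈ Y.filter (fun j => j.1 = k.1), ((F.LZ j B.w : ℚ) * B.a j), ?_⟩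
    linear_combination (τ ^ c *
      (∏ a ∈ U.filter (fun a => a.2 % 2 = 1 ∧ T.cg a = k.1), (a.2 : ℤ) : ℤ) *
      (∏ j ∈ Y.filter (fun j => adj j.1 k.1 = true), ((F.LZ j B.w : ℚ) * B.a j)) *
      ∏ j ∈ Y.filter (fun j => j.1 = k.1), ((F.LZ j B.w : ℚ) * B.a j)) ^ 2 * hs'

/-- the fixed generators are determined by the forms -/
theorem inj (kc : KC3Stmt) {E : Dat3 m} (hE : E.Ok) (y : Finset (Ix m)) {U U' : Finset (Gen m)}
    (hU : U ⊆ E.W0) (hU' : U' ⊆ E.W0) (h : E.Geo y U) (h' : E.Geo y U') : U = U' := by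
  obtain ⟨-, k2, -, -, k5, k6⟩ := kc m E hE
  have hS : symmDiff U U' ⊆ E.W0 := symmDiff_subset_union.trans (union_subset hU hU')
  refine symmDiff_eq_bot.1 (hE.ind _ hS fun k hk => ?_)
  exact RG.GeoP.sq_of_mul (k2 (U ∩ U') _ fun a ha => .inl (hU (mem_inter.1 ha).1)).1 (k6 y k).1
    (h k hk) (h' k hk) (by rw [← sq]; exact k5 U U' _)

end Geo

theorem geo3 : MAT3Stmt → KC3Stmt → GEO3Stmt := by
  intro mat kc g n m r F B T Fr hF hB hT hR hD
  classical
  have sub : ∀ {U : Finset (Gen m)}, U ∈ Ker (T.dat B Fr).g (T.dat B Fr).W0 →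
      U ⊆ (T.dat B Fr).W0 := fun h => mem_powerset.1 (mem_filter.1 h).1
  have pre : ∀ y ∈ T.gr.Yc, (univ.filter fun h => T.em h ∈ y).map T.em = y := fun y hy => by
    ext j
    refine ⟨fun h => ?_, fun h => ?_⟩
    · obtain ⟨k, hk, rfl⟩ := mem_map.1 h
      exact (mem_filter.1 hk).2
    · obtain ⟨k, -, rfl⟩ := mem_map.1 (mem_powerset.1 (mem_filter.1 hy).1 h)
      exact mem_map_of_mem _ (mem_filter.2 ⟨mem_univ _, h⟩)
  rw [← hF.card, ← Set.ncard_coe_finset]
  refine Set.ncard_le_ncard_of_injOn (fun x => univ.filter fun h => T.em h ∈ x.1)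
    (fun x hx => ?_) (fun x hx x' hx' hxx => ?_) (Set.toFinite _)
  · obtain ⟨hx1, hx2⟩ := mem_filter.1 (mem_coe.1 hx)
    have hy := (mem_product.1 hx1).1
    exact Geo.mem mat hF hB hT hR (U := x.2) (by rw [pre _ hy]; exact hy)
      (by rw [pre _ hy]; exact hx2)
  · obtain ⟨hx1, hx2⟩ := mem_filter.1 (mem_coe.1 hx)
    obtain ⟨hx1', hx2'⟩ := mem_filter.1 (mem_coe.1 hx')
    have e : x.1 = x'.1 := by
      rw [← pre _ (mem_product.1 hx1).1, ← pre _ (mem_product.1 hx1').1]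
      exact congrArg _ hxx
    refine Prod.ext e ?_
    rw [← e] at hx2'
    exact Geo.inj kc hD x.1 (sub (mem_product.1 hx1).2) (sub (mem_product.1 hx1').2) hx2 hx2'

end Pool.Agent.MP_a43263_nt.JC
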