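import Pool.Agent.MP_a43263_nt.JC.SBasic
import Pool.Agent.MP_a43263_nt.RG.Good

/-! THEOREM J: a small kernel gives a good fibre. -/

set_option autoImplicit false

noncomputable section

namespace Pool.Agent.MP_a43263_nt.JC

open Finset
open R2 (Ker)
open RG (Adm Gen)
open RG.GoodAux (Evn Od)
open RH (Smooth)

namespace Good

variable {g n m r : ℕ} {F : HS g n} {N : ℕ} {w : ℤ × ℤ} {p : ℕ} [Fact p.Prime]

theorem evn_sm {u : ℤ} (h : Smooth N u) (hp : ¬p ∣ N) : Evn p (u : ℚ) :=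
  Evn.int fun hd => hp (h.2 p Fact.out hd)

theorem evn_root (hB : F.Pre N w) (hp : ¬p ∣ N) {j k : Ed g × Fin n} (h : j.1 ≠ k.1) :
    Evn p (F.L j (F.root k)) := by
  rw [HS.L_root]
  exact evn_sm (hB.sr j k fun e => h (congrArg Prod.fst e)) hp

theorem evn_gam (hF : F.Hyp r) (hB : F.Pre N w) (hp : ¬p ∣ N) (k : Ed g × Fin n) :
    Evn p (F.gam k) := by
  refine Evn.prod fun l hl => ?_
  have hl' := (mem_filter.1 hl).2
  obtain ⟨e, -, he, s, hs, h⟩ := hF.diff (i := k.1.1.1) (k := l) fun c => hl' (.inl c.symm)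
  have hne : e ≠ k.1 := fun c => hl' (c ▸ he)
  have h1 : Evn p ((F.DZ e (F.rootZ k) : ℤ) : ℚ) := by
    rw [← HS.D_cast, ← HS.root_eq]
    exact (evn_sm (hB.sc e) hp).mul (Evn.prod fun _ _ => evn_root hB hp hne)
  rw [HS.a_root, HS.a_root, ← Int.cast_sub, h]
  rcases hs with rfl | rfl
  · rwa [one_mul]
  · rw [neg_one_mul, Int.cast_neg]; exact h1.neg

theorem evn_pair (hF : F.Hyp r) (hB : F.Pre N w) (hp : ¬p ∣ N) {u : Vx g → ℚ}
    {y : Finset (Ed g × Fin n)} (h : F.InS u y) (e : Ed g) : Evn p (u e.1.1 * u e.1.2) := by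
  have k0 : Fin n := ⟨0, by have := hF.two; omega⟩
  have h1 : ∀ i, Evn p (∏ j ∈ (y.filter fun j => j.1 ≠ e).filter (fun j => On i j.1),
      F.L j (F.root (e, k0))) := fun i =>
    Evn.prod fun j hj => evn_root hB hp (mem_filter.1 (mem_filter.1 hj).1).2
  have h2 : Evn p (if (e, k0) ∈ y then F.gam (e, k0) else 1) := by
    split_ifs
    · exact evn_gam hF hB hp _
    · exact Evn.one
  have h3 := h.2.2.2 (e, k0)
  simp only [HS.del, Rat.cast_id] at h3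
  have h4 := (Evn.of_sq (mul_ne_zero (mul_ne_zero (mul_ne_zero (h.1 _) (h1 _).1)
    (mul_ne_zero (h.1 _) (h1 _).1)) h2.1) h3).left h2
  rw [mul_mul_mul_comm] at h4
  exact h4.left ((h1 _).mul (h1 _))

theorem evn_u (hF : F.Hyp r) (hB : F.Pre N w) (hp : ¬p ∣ N) {u : Vx g → ℚ}
    {y : Finset (Ed g × Fin n)} (h : F.InS u y) (i : Vx g) : Evn p (u i) := by
  have h1 : Evn p (∏ k, u i * u k) := Evn.prod fun k _ => by
    by_cases c : i = k
    · subst c
      exact Evn.of_sq (mul_ne_zero (h.1 i) (h.1 i)) ⟨_, rfl⟩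
    · obtain ⟨e, ⟨rfl, rfl⟩ | ⟨rfl, rfl⟩⟩ := exists_ed c
      · exact evn_pair hF hB hp h e
      · rw [mul_comm]; exact evn_pair hF hB hp h e
  have h3 : u i ^ (2 * g + 1) = u i * (u i ^ g * u i ^ g) := by ring
  rw [prod_mul_distrib, prod_const, card_univ, card_Vx, h3] at h1
  have h2 := pow_ne_zero g (h.1 i)
  exact (h1.left (Evn.of_sq (prod_ne_zero_iff.2 fun k _ => h.1 k) h.2.1)).left
    (Evn.of_sq (mul_ne_zero h2 h2) ⟨_, rfl⟩)

variable {B : Bs g n} {T : Em g n m} {Fr : Frame g}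

/-- the classes stay different after specialisation -/
theorem sub_of_sq (hF : F.Hyp r) (hB : B.Ok F) (hM : T.Ok F B) {l : RG.Ix m → ℕ}
    (hl : Adm (T.dat B Fr).D l) (h1 : ∀ j, 1 < l j) {v : ℤ × ℤ}
    (hv : ∀ h, F.LZ h v = F.LZ h B.w * B.a h * l (T.em h)) {u u' : Vx g → ℚ}
    {y y' : Finset (Ed g × Fin n)} (hy : F.InS u y) (hy' : F.InS u' y')
    (hs : ∀ i, IsSquare
      (F.del u y ((v.1 : ℚ), (v.2 : ℚ)) i * F.del u' y' ((v.1 : ℚ), (v.2 : ℚ)) i)) :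
    y ⊆ y' := by
  intro j hj
  by_contra hj'
  obtain ⟨q, hq, hql⟩ := Nat.exists_prime_and_dvd (h1 (T.em j)).ne'
  have : Fact q.Prime := ⟨hq⟩
  have hqM : ¬q ∣ T.M := fun hd => by
    have h8 : q ∣ 8 * T.M := hd.mul_left 8
    have := ((hl.one (T.em j)).of_dvd h8).symm
    rw [Nat.ModEq, Nat.mod_eq_zero_of_dvd hql, Nat.mod_eq_of_lt hq.one_lt] at this
    exact one_ne_zero this
  have hqN : ¬q ∣ B.N := fun hd => by
    have hne : T.em j ≠ ((T.em j).1 + 1, (T.em j).2) := fun e => by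
      have := congrArg Prod.fst e
      simp at this
    have h := hM.dv _ _ hne
    have h' : (q : ℤ) ∣ (T.M : ℤ) :=
      (((Int.natCast_dvd_natCast.2 hd).mul_left 128).mul_right _).trans h
    exact hqM (Int.natCast_dvd_natCast.1 h')
  have hma : ∀ k, Evn q ((F.LZ k B.w : ℚ) * (B.a k : ℚ)) := fun k =>
    (evn_sm (hB.pre.sm k) hqN).mul (Evn.nat fun hd => hqM (hd.trans (hM.aM k)))
  have hL : ∀ k, F.L k ((v.1 : ℚ), (v.2 : ℚ)) =
      (l (T.em k) : ℚ) * ((F.LZ k B.w : ℚ) * (B.a k : ℚ)) := fun k => by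
    rw [HS.L_cast, hv k]
    push_cast
    ring
  have hk : ∀ k, k ≠ j → Evn q (F.L k ((v.1 : ℚ), (v.2 : ℚ))) := fun k hk => by
    rw [hL]
    refine (Evn.nat fun hd => hq.one_lt.ne' ?_).mul (hma k)
    exact Nat.eq_one_of_dvd_coprimes (hl.cop _ _ (T.em.injective.ne hk)) hd hql
  have hjo : Od q (F.L j ((v.1 : ℚ), (v.2 : ℚ))) := by
    rw [hL]
    exact (Od.nat (hl.sqf _) hql).mul (hma j)
  have e1 : Evn q (F.del u' y' ((v.1 : ℚ), (v.2 : ℚ)) j.1.1.1) := by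
    simp only [HS.del, Rat.cast_id]
    exact (evn_u hF hB.pre hqN hy' _).mul (Evn.prod fun k hk' =>
      hk k fun e => hj' (e ▸ (mem_filter.1 hk').1))
  have e2 : Od q (F.del u y ((v.1 : ℚ), (v.2 : ℚ)) j.1.1.1) := by
    simp only [HS.del, Rat.cast_id]
    rw [← mul_prod_erase _ _ (mem_filter.2 ⟨hj, .inl rfl⟩), mul_left_comm]
    exact hjo.mul ((evn_u hF hB.pre hqN hy _).mul (Evn.prod fun k hk' =>
      hk k (ne_of_mem_erase hk')))
  exact (e2.mul e1).not_sq (hs _)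

end Good

open Good in
theorem good3 : ALG3Stmt → LOC3Stmt → BR3Stmt → SPE3Stmt → GOOD3Stmt := by
  classical
  intro alg loc br sp g n m r F B T Fr hF hB hM hFr
  obtain ⟨u, hu⟩ : ∃ u : Finset (Ed g × Fin n) → Vx g → ℚ,
      ∀ y, (∃ w, F.InS w y) → F.InS (u y) y :=
    ⟨fun y => if h : ∃ w, F.InS w y then h.choose else 0, fun y h => by
      simp only [dif_pos h]
      exact h.choose_spec⟩
  have hS : ∀ y : Finset (Ed g × Fin n), ∃ S : Finset ℚ, (∃ w, F.InS w y) →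
      ∀ v : ℚ × ℚ, v.2 ≠ 0 → v.1 / v.2 ∉ S → W (F.a v) (F.del (u y) y v) := fun y => by
    by_cases hy : ∃ w, F.InS w y
    · obtain ⟨S, h⟩ := sp g n F (u y) y hF.ev (hu y hy).2.2.1 (hF.sol _ _ (hu y hy))
      exact ⟨S, fun _ => h⟩
    · exact ⟨∅, fun h => (hy h).elim⟩
  choose S hS using hS
  refine ⟨univ.biUnion S, fun l hl h1 hK v hv hv2 hvS => ?_⟩
  have hloc := (br g n m r F B T Fr hF hB hM l hl v hv).1
  have hL : ∀ j, F.LZ j v ≠ 0 := fun j => by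
    rw [hv j]
    have h2 := (hB.sqf j).ne_zero
    have h3 := h1 (T.em j)
    exact mul_ne_zero (mul_ne_zero (hB.pre.sm j).1 (by exact_mod_cast h2)) (by omega)
  rw [HS.fibre_eq]
  refine alg g r _ (Finset (Ed g × Fin n)) (Finset (Gen m)) (univ.filter fun y => ∃ w, F.InS w y)
    (fun y => F.del (u y) y ((v.1 : ℚ), (v.2 : ℚ))) _
    (fun y k => ((∏ x ∈ y, Fr.vec T.cg x k : ℤ) : ℚ)) hF.pos
    (Int.cast_injective.comp (hF.inj hL)) ?_ ?_ ?_ hK ?_
  · rw [← hF.card, ← Set.ncard_coe_finset]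
    congr 1
    ext y
    simp
  · intro y hy
    rw [← funext (F.a_cast (K := ℚ) v)]
    exact hS y (mem_filter.1 hy).2 _ (Int.cast_ne_zero.2 hv2)
      fun c => hvS (mem_biUnion.2 ⟨y, mem_univ _, c⟩)
  · intro y hy y' hy' hs
    have a := hu y (mem_filter.1 hy).2
    have a' := hu y' (mem_filter.1 hy').2
    exact Subset.antisymm (sub_of_sq hF hB hM hl h1 hv a a' hs)
      (sub_of_sq hF hB hM hl h1 hv a' a fun i => by rw [mul_comm]; exact hs i)
  · intro e he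
    obtain ⟨y, hy, hs⟩ := loc g m B.N _ _ Fr _ _ _ _ hFr hloc e he
    refine ⟨y, ?_, fun k => ⟨(hs k).1, Int.cast_ne_zero.2 (hs k).2⟩⟩
    rw [← union_assoc] at hy
    exact hy

end Pool.Agent.MP_a43263_nt.JC
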