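import Pool.Agent.MP_a43263_nt.JC.SBasic
import Pool.Agent.MP_a43263_nt.RH.Pf

/-! THEOREM J: the values of odd numbers and the isotropy at the real place and at two. -/

set_option autoImplicit false

namespace Pool.Agent.MP_a43263_nt.JC

open Finset RH.PfAux

namespace GpA

variable {g : ℕ}

theorem sgn_mul (b : Prop) [Decidable b] {p q : ℕ} (hp : p % 2 = 1) (hq : q % 2 = 1) :
    (if b ∧ p * q % 4 = 3 then (-1 : ℤ) else 1) =
      (if b ∧ p % 4 = 3 then -1 else 1) * if b ∧ q % 4 = 3 then -1 else 1 := by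
  by_cases hb : b
  · have h1 : p % 4 = 1 ∨ p % 4 = 3 := by omega
    have h2 : q % 4 = 1 ∨ q % 4 = 3 := by omega
    rcases h1 with h1 | h1 <;> rcases h2 with h2 | h2 <;> simp [hb, Nat.mul_mod, h1, h2]
  · simp [hb]

theorem sx_eq (e e' : Ed g) : sx e e' = true ↔
    ¬((e.1.1 ≤ e'.1.1 ∧ e'.1.1 < e.1.2) ↔ (e.1.1 ≤ e'.1.2 ∧ e'.1.2 < e.1.2)) := by
  unfold sx sv
  by_cases a : e.1.1 ≤ e'.1.1 ∧ e'.1.1 < e.1.2 <;> by_cases b : e.1.1 ≤ e'.1.2 ∧ e'.1.2 < e.1.2 <;>
    simp only [a, b, if_true, if_false] <;>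
    rcases Nat.mod_two_eq_zero_or_one (e.1.2.1 - e.1.1.1) with c | c <;> simp [Nat.add_mod, c]

theorem ed_ext (e e' : Ed g) : e = e' ↔ e.1.1.1 = e'.1.1.1 ∧ e.1.2.1 = e'.1.2.1 := by
  rw [Subtype.ext_iff, Prod.ext_iff, Fin.ext_iff, Fin.ext_iff]

theorem adj_eq (e e' : Ed g) : adj e e' = true ↔ e ≠ e' ∧ (On e.1.1 e' ∨ On e.1.2 e') := by
  simp [adj]

theorem adj_xor (e e' : Ed g) : adj e e' = true ↔ ¬(On e'.1.1 e ↔ On e'.1.2 e) := by
  have h1 : e.1.1.1 < e.1.2.1 := e.2
  have h2 : e'.1.1.1 < e'.1.2.1 := e'.2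
  simp only [adj_eq, Ne, ed_ext, On, Fin.ext_iff]
  omega

theorem sx_adj (e e' : Ed g) : xor (sx e e') (sx e' e) = adj e e' := by
  have h1 : e.1.1.1 < e.1.2.1 := e.2
  have h2 : e'.1.1.1 < e'.1.2.1 := e'.2
  rw [Bool.eq_iff_iff, Bool.xor_iff_ne, Ne, Bool.eq_iff_iff, sx_eq, sx_eq, adj_xor]
  simp only [On, Fin.ext_iff, Fin.le_def, Fin.lt_def]
  omega

theorem sx_self (e : Ed g) : sx e e = true := by
  have h1 : e.1.1 < e.1.2 := e.2
  simp [sx_eq, h1]

/-- the sign pattern and the indicator of a pair over the field with two elements -/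
def s (e : Ed g) (k : Vx g) : ZMod 2 := if sv e k = true then 1 else 0

def o (e : Ed g) (k : Vx g) : ZMod 2 := if On k e then 1 else 0

theorem sum_on {A : Type} [CommMonoid A] (e : Ed g) (f : Vx g → A) :
    ∏ k, (if On k e then f k else 1) = f e.1.1 * f e.1.2 := by
  rw [← prod_filter, show univ.filter (fun k => On k e) = {e.1.1, e.1.2} by ext; simp [On],
    prod_pair (ed_ne e)]

theorem dot_o (e : Ed g) (f : Vx g → ZMod 2) : ∑ k, f k * o e k = f e.1.1 + f e.1.2 := by
  simp only [o, mul_ite, mul_one, mul_zero]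
  exact sum_on (A := Multiplicative (ZMod 2)) e f

theorem sum_s (e : Ed g) : ∑ k, s e k = 0 := by
  have h1 : ∀ k, s e k =
      (if k ∈ Ico e.1.1 e.1.2 then 1 else 0) + ((e.1.2.1 - e.1.1.1 : ℕ) : ZMod 2) := fun k => by
    unfold s sv
    rw [← ZMod.natCast_mod _ 2]
    by_cases a : e.1.1 ≤ k ∧ k < e.1.2 <;> simp only [a, mem_Ico, if_true, if_false] <;>
      rcases Nat.mod_two_eq_zero_or_one (e.1.2.1 - e.1.1.1) with c | c <;>
      simp [Nat.add_mod, c] <;> rfl
  simp only [h1, sum_add_distrib, sum_boole, filter_mem_eq_inter, univ_inter, Fin.card_Ico,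
    sum_const, card_univ, card_Vx, nsmul_eq_mul]
  generalize ((e.1.2.1 - e.1.1.1 : ℕ) : ZMod 2) = d
  have h2 : (2 : ZMod 2) = 0 := rfl
  push_cast
  linear_combination (d + g * d) * h2

theorem s_add (e e' : Ed g) : s e e'.1.1 + s e e'.1.2 = if sx e e' = true then 1 else 0 := by
  unfold s sx
  cases sv e e'.1.1 <;> cases sv e e'.1.2 <;> simp <;> rfl

theorem o_add (e e' : Ed g) : o e e'.1.1 + o e e'.1.2 = if adj e e' = true then 1 else 0 := by
  simp only [adj_xor, o]
  by_cases a : On e'.1.1 e <;> by_cases b : On e'.1.2 e <;> simp [a, b] <;> rfl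

/-- the sign of a residue modulo two -/
def χ (a : ZMod 2) : ℤ := if a = 0 then 1 else -1

theorem χ_add (a b : ZMod 2) : χ (a + b) = χ a * χ b := by
  revert a b; decide

theorem χ_sum {ι : Type} (S : Finset ι) (f : ι → ZMod 2) : χ (∑ i ∈ S, f i) = ∏ i ∈ S, χ (f i) := by
  classical
  induction S using Finset.induction_on with
  | empty => rfl
  | insert a S h ih => rw [sum_insert h, prod_insert h, χ_add, ih]

/-- the second elementary symmetric function -/
def E2 {m : ℕ} (v : Fin m → ZMod 2) : ZMod 2 := ∑ i, ∑ j ∈ Ioi i, v i * v j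

theorem E2_add {m : ℕ} (v w : Fin m → ZMod 2) :
    E2 (v + w) = E2 v + E2 w + ((∑ i, v i) * ∑ i, w i) + ∑ i, v i * w i := by
  have h1 := sum_sum_Ioi_add_eq_sum_sum_off_diag fun i j => v j * w i
  have h2 : ∀ i, ∑ j ∈ ({i}ᶜ : Finset (Fin m)), v i * w j = v i * ∑ j, w j - v i * w i := fun i => by
    rw [mul_sum, ← sum_compl_add_sum {i}, sum_singleton, add_sub_cancel_right]
  simp only [h2, sum_sub_distrib, sum_add_distrib] at h1
  rw [← sum_mul] at h1
  have h3 : (2 : ZMod 2) = 0 := rfl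
  have h4 : E2 (v + w) = E2 v + E2 w + ((∑ i, ∑ j ∈ Ioi i, v i * w j) +
      ∑ i, ∑ j ∈ Ioi i, v j * w i) := by
    simp only [E2, Pi.add_apply, ← sum_add_distrib]
    exact sum_congr rfl fun i _ => sum_congr rfl fun j _ => by ring
  rw [h4, h1]
  linear_combination (-∑ i, v i * w i) * h3

theorem E2_one {m : ℕ} (a : Fin m) : E2 (fun k => if k = a then 1 else 0) = 0 :=
  sum_eq_zero fun i _ => sum_eq_zero fun j hj => by
    have := (mem_Ioi.1 hj).ne
    dsimp only
    split_ifs <;> simp_all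

theorem E2_o (e : Ed g) : E2 (o e) = 1 := by
  have h1 : o e = (fun k => if k = e.1.1 then 1 else 0) + fun k => if k = e.1.2 then 1 else 0 := by
    funext k
    have := ed_ne e
    simp only [o, On, Pi.add_apply]
    by_cases a : k = e.1.1 <;> by_cases b : k = e.1.2 <;> simp_all
  rw [h1, E2_add, E2_one, E2_one]
  simp [(ed_ne e).symm]

theorem sum_o (e : Ed g) : ∑ k, o e k = 0 := by
  have := dot_o e fun _ => 1
  simp only [one_mul] at this
  exact this

theorem quad (T : Finset (Ed g)) :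
    E2 (∑ e ∈ T, o e) = ∑ k, (∑ e ∈ T, s e) k * (∑ e ∈ T, o e) k := by
  classical
  induction T using Finset.induction_on with
  | empty => simp [E2]
  | insert a T h ih =>
    have h1 : ∑ k, o a k * (∑ e ∈ T, o e) k =
        ∑ k, s a k * (∑ e ∈ T, o e) k + ∑ k, (∑ e ∈ T, s e) k * o a k := by
      simp only [Finset.sum_apply, mul_sum, sum_mul]
      rw [sum_comm, sum_comm (s := univ) (t := T), sum_comm (s := univ) (t := T),
        ← sum_add_distrib]
      refine sum_congr rfl fun e _ => ?_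
      rw [dot_o, dot_o, dot_o, o_add, s_add, s_add, ← sx_adj]
      cases sx a e <;> cases sx e a <;> simp <;> rfl
    rw [sum_insert h, sum_insert h, E2_add, E2_o, ih, sum_o, h1]
    simp only [Pi.add_apply, add_mul, mul_add, sum_add_distrib]
    rw [dot_o a (s a), s_add, sx_self]
    simp only [if_true]
    ring

def σ (x : ℤ) : ZMod 2 := if x < 0 then 1 else 0

def ρ (x : ℤ) : ZMod 2 := if x % 4 = 3 then 1 else 0

theorem ph_eq (x y : ℤ) : ph x y = χ (σ x * σ y + ρ x * ρ y) := by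
  unfold ph σ ρ
  by_cases a : x < 0 <;> by_cases b : y < 0 <;> by_cases c : x % 4 = 3 <;>
    by_cases d : y % 4 = 3 <;> simp only [a, b, c, d] <;> decide

theorem hom {x y : ℤ} (hx : x % 2 = 1) (hy : y % 2 = 1) :
    x * y % 2 = 1 ∧ σ (x * y) = σ x + σ y ∧ ρ (x * y) = ρ x + ρ y := by
  refine ⟨by rw [Int.mul_emod, hx, hy]; rfl, ?_, ?_⟩
  · unfold σ
    rcases lt_or_gt_of_ne (show x ≠ 0 by omega) with a | a <;>
      rcases lt_or_gt_of_ne (show y ≠ 0 by omega) with b | b
    · rw [if_neg (mul_pos_of_neg_of_neg a b).not_gt, if_pos a, if_pos b]; rfl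
    · rw [if_pos (mul_neg_of_neg_of_pos a b), if_pos a, if_neg b.not_gt]; rfl
    · rw [if_pos (mul_neg_of_pos_of_neg a b), if_neg a.not_gt, if_pos b]; rfl
    · rw [if_neg (mul_pos a b).not_gt, if_neg a.not_gt, if_neg b.not_gt]; rfl
  · unfold ρ
    have h1 : x % 4 = 1 ∨ x % 4 = 3 := by omega
    have h2 : y % 4 = 1 ∨ y % 4 = 3 := by omega
    rw [Int.mul_emod]
    rcases h1 with h1 | h1 <;> rcases h2 with h2 | h2 <;> rw [h1, h2] <;> decide

theorem hom_prod {ι : Type} (S : Finset ι) (f : ι → ℤ) (h : ∀ i, f i % 2 = 1) :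
    (∏ i ∈ S, f i) % 2 = 1 ∧ σ (∏ i ∈ S, f i) = ∑ i ∈ S, σ (f i) ∧
      ρ (∏ i ∈ S, f i) = ∑ i ∈ S, ρ (f i) := by
  classical
  induction S using Finset.induction_on with
  | empty => exact ⟨rfl, rfl, rfl⟩
  | insert a S ha ih =>
    obtain ⟨h1, h2, h3⟩ := hom (h a) ih.1
    rw [prod_insert ha, sum_insert ha, sum_insert ha, h2, h3, ih.2.1, ih.2.2]
    exact ⟨h1, rfl, rfl⟩

theorem mv_val (e : Ed g) {p : ℕ} (hp : p % 2 = 1) (k : Vx g) : mv e p k % 2 = 1 ∧
    σ (mv e p k) = (if p % 4 = 3 then s e k else 0) ∧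
    ρ (mv e p k) = (if p % 4 = 3 then s e k else 0) + if p % 4 = 3 then o e k else 0 := by
  unfold mv s o σ ρ
  by_cases a : sv e k = true <;> by_cases b : On k e <;> by_cases c : p % 4 = 3 <;>
    simp only [a, b, c, and_self, and_true, and_false, if_true, if_false, Bool.false_eq_true,
      false_and] <;>
    refine ⟨by omega, ?_, ?_⟩ <;> split_ifs <;> first | rfl | omega

end GpA

open GpA

theorem gp3 : GP3Stmt := by
  intro g
  refine ⟨fun e p q k hp hq => ?_, fun e e' p q hp hq => ?_, fun e p => ?_, fun e e' p => ?_,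
    fun e e' => ⟨sx_adj e e', by rw [← sx_adj, ← sx_adj, Bool.xor_comm], sx_self e⟩,
    fun e e' p q hp hq => ?_, fun e p hp => ?_⟩
  · unfold mv
    rw [sgn_mul _ hp hq]
    split_ifs <;> simp
  · unfold Gq
    rw [sgn_mul _ hp hq]
    split_ifs <;> simp
  · unfold mv
    rw [prod_mul_distrib, sum_on e fun _ => (p : ℤ), sq]
    by_cases c : p % 4 = 3
    · have h1 : ∀ k, (if sv e k = true ∧ p % 4 = 3 then (-1 : ℤ) else 1) = χ (s e k) := fun k => by
        unfold s
        cases sv e k <;> simp [c, χ]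
      simp only [h1]
      rw [← χ_sum, sum_s]
      simp [χ]
    · simp [c]
  · have h1 := adj_xor e e'
    have h2 : e = e' ↔ On e'.1.1 e ∧ On e'.1.2 e := by
      have h1 : e.1.1.1 < e.1.2.1 := e.2
      have h2 : e'.1.1.1 < e'.1.2.1 := e'.2
      simp only [ed_ext, On, Fin.ext_iff]
      omega
    unfold mv Gq sx
    simp only [h1, h2]
    by_cases a : On e'.1.1 e <;> by_cases b : On e'.1.2 e <;> by_cases c : p % 4 = 3 <;>
      cases sv e e'.1.1 <;> cases sv e e'.1.2 <;> simp [a, b, c, sq]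
  · have h1 := sx_adj e e'
    have h2 : adj e' e = adj e e' := by rw [← sx_adj, ← sx_adj, Bool.xor_comm]
    unfold Gq
    rw [h2, ← h1, jacobiSym.mul_left, jacobiSym.mul_left]
    have h3 := qr hp hq
    have h4 := jm1 hp
    have h5 := jm1 hq
    by_cases a : p % 4 = 3 <;> by_cases b : q % 4 = 3 <;> cases sx e e' <;> cases sx e' e <;>
      simp [a, b, h3, h4, h5]
  · have h1 : adj e e = false := by simp [adj]
    unfold Gq
    rw [sx_self, h1]
    by_cases a : p % 4 = 3 <;> simp [a, jm1 hp]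

theorem iso : ISOStmt := by
  intro g x hx
  have h1 : ∀ k, σ (mm x k) = (∑ e ∈ univ.filter fun e => x e % 4 = 3, s e) k ∧
      ρ (mm x k) = ((∑ e ∈ univ.filter fun e => x e % 4 = 3, s e) +
        ∑ e ∈ univ.filter fun e => x e % 4 = 3, o e) k := fun k => by
    obtain ⟨-, h2, h3⟩ := hom_prod univ (fun e => mv e (x e) k) fun e => (mv_val e (hx e) k).1
    unfold mm
    rw [h2, h3]
    simp only [(mv_val _ (hx _) k).2.1, (mv_val _ (hx _) k).2.2, Pi.add_apply, Finset.sum_apply,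
      sum_filter, sum_add_distrib, ite_apply, Pi.zero_apply, and_self]
  have h2 : Hs ph (mm x) = χ (E2 (fun k => σ (mm x k)) + E2 fun k => ρ (mm x k)) := by
    simp only [Hs, ph_eq, E2, ← sum_add_distrib, χ_sum]
  rw [h2, funext fun k => (h1 k).1, funext fun k => (h1 k).2, E2_add, quad]
  have h3 : ∑ k, (∑ e ∈ univ.filter fun e => x e % 4 = 3, s e) k = 0 := by
    simp only [Finset.sum_apply]
    rw [sum_comm]
    exact sum_eq_zero fun e _ => sum_s e
  rw [h3]
  have h4 : ∀ a b : ZMod 2, ∀ c, χ (a + (a + b + 0 * c + b)) = 1 := by decide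
  exact h4 _ _ _

end Pool.Agent.MP_a43263_nt.JC
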