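import Pool.Agent.MP_a43263_nt.JC.ASpec

/-! THEOREM J: the graph on the forms that comes from the edges of a complete graph with an odd
number of vertices. -/

set_option autoImplicit false

namespace Pool.Agent.MP_a43263_nt.JC

open Finset RG

namespace Graph

variable {ι : Type} [DecidableEq ι]

theorem inter_one {e : Finset ι} {x z : ι} (hx : x ∈ e) (hz : z ∉ e) : (e ∩ {x, z}).card = 1 := by
  rw [card_eq_one]
  refine ⟨x, ext fun a => ?_⟩
  simp only [mem_inter, mem_insert, mem_singleton]
  exact ⟨fun h => h.2.resolve_right fun k => hz (k ▸ h.1), fun h => ⟨h ▸ hx, .inl h⟩⟩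

theorem eq_or_disj {e e' : Finset ι} (h : e.card = 2) (h' : e'.card = 2) (k : (e ∩ e').card ≠ 1) :
    e = e' ∨ Disjoint e e' := by
  have h1 : (e ∩ e').card ≤ 2 := h ▸ card_le_card inter_subset_left
  rcases (by omega : (e ∩ e').card = 0 ∨ (e ∩ e').card = 2) with k1 | k1
  · exact .inr (disjoint_iff_inter_eq_empty.2 (card_eq_zero.1 k1))
  · exact .inl ((eq_of_subset_of_card_le inter_subset_left (by omega)).symm.trans
      (eq_of_subset_of_card_le inter_subset_right (by omega)))

end Graph

open Graph in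
/-- the forms are distributed equally over the edges; adjacent means one common vertex -/
theorem gr_ok {n : ℕ} {ι : Type} [Fintype ι] [DecidableEq ι] (hodd : Odd (Fintype.card ι))
    (Γ : Gr n) (cl : Tag n → Finset ι) (ν : ℕ) (hν : 2 ≤ ν) (h3 : 3 ≤ Fintype.card ι)
    (h2 : ∀ t, (cl t).card = 2)
    (hc : ∀ i j, i ≠ j → (Γ.RF.filter fun h => cl (tg h) = {i, j}).card = ν)
    (had : ∀ s t, Γ.ad s t = true ↔ (cl s ∩ cl t).card = 1) : Γ.Ok := by
  have hc' : ∀ t, (Γ.RF.filter fun h => cl (tg h) = cl t).card = ν := fun t => by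
    obtain ⟨i, j, hij, e⟩ := card_eq_two.1 (h2 t)
    rw [e, hc i j hij]
  have no : ∀ s t, cl s = cl t → Γ.ad s t = false := fun s t e => by
    rw [← Bool.not_eq_true, had, e, inter_self, h2]
    norm_num
  refine ⟨fun t => no t t rfl, fun k hk => ?_, fun B hB ⟨h, hh⟩ cls => ?_, fun B hB ind => ?_⟩
  · obtain ⟨h, hh, e⟩ := exists_mem_ne
      (show 1 < (Γ.RF.filter fun h => cl (tg h) = cl (tg k)).card by rw [hc']; omega) k
    exact ⟨h, (mem_filter.1 hh).1, e, no _ _ (mem_filter.1 hh).2⟩
  · refine hB.antisymm fun k hk => ?_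
    by_cases e : (cl (tg h) ∩ cl (tg k)).card = 1
    · exact cls h hh k hk ((had _ _).2 e)
    obtain ⟨x, z, hxz, e1, e2⟩ : ∃ x z, x ≠ z ∧ (cl (tg h) ∩ {x, z}).card = 1 ∧
        (cl (tg k) ∩ {x, z}).card = 1 := by
      obtain ⟨x, hx⟩ := card_pos.1 (show 0 < (cl (tg h)).card by rw [h2]; norm_num)
      rcases eq_or_disj (h2 _) (h2 _) e with e | e
      · obtain ⟨z, -, hz⟩ := exists_mem_notMem_of_card_lt_card
          (show (cl (tg h)).card < (univ : Finset ι).card by rw [h2, card_univ]; omega)
        exact ⟨x, z, fun e' => hz (e' ▸ hx), inter_one hx hz, e ▸ inter_one hx hz⟩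
      · obtain ⟨z, hz⟩ := card_pos.1 (show 0 < (cl (tg k)).card by rw [h2]; norm_num)
        exact ⟨x, z, fun e' => disjoint_left.1 e hx (e' ▸ hz),
          inter_one hx (disjoint_right.1 e hz),
          pair_comm z x ▸ inter_one hz (disjoint_left.1 e hx)⟩
    obtain ⟨j, hj⟩ := card_pos.1
      (show 0 < (Γ.RF.filter fun h => cl (tg h) = {x, z}).card by rw [hc x z hxz]; omega)
    obtain ⟨j1, j2⟩ := mem_filter.1 hj
    exact cls j (cls h hh j j1 ((had _ _).2 (j2 ▸ e1))) k hk
      ((had _ _).2 (by rw [j2, inter_comm]; exact e2))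
  · set M := B.image fun h => cl (tg h) with hM
    have m1 : B.card ≤ ν * M.card := card_le_mul_card_image _ _ fun e he => by
      obtain ⟨k, -, rfl⟩ := mem_image.1 he
      exact (card_le_card (filter_subset_filter _ hB)).trans (hc' _).le
    have m2 : (M.biUnion id).card = 2 * M.card := by
      rw [card_biUnion, mul_comm]
      · refine (sum_congr rfl fun e he => ?_).trans (sum_const_nat fun _ _ => rfl)
        obtain ⟨k, -, rfl⟩ := mem_image.1 he
        exact h2 _
      · intro e he e' he' hne
        obtain ⟨k, hk, rfl⟩ := mem_image.1 (mem_coe.1 he)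
        obtain ⟨k', hk', rfl⟩ := mem_image.1 (mem_coe.1 he')
        refine (eq_or_disj (h2 _) (h2 _) fun e => ?_).resolve_left hne
        have := ind k hk k' hk'
        rw [(had _ _).2 e] at this
        exact Bool.false_ne_true this.symm
    obtain ⟨z, hz⟩ : ∃ z, z ∉ M.biUnion id := by
      by_contra h
      push Not at h
      rw [← card_univ, ← eq_univ_of_forall h, m2] at hodd
      exact Nat.not_odd_iff_even.2 (even_two_mul _) hodd
    have m3 : ((M.biUnion id).biUnion fun x => Γ.RF.filter fun h => cl (tg h) = {x, z}).card =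
        2 * M.card * ν := by
      rw [card_biUnion, ← m2]
      · exact (sum_congr rfl fun x hx => hc x z fun e => hz (e ▸ hx)).trans
          (sum_const_nat fun _ _ => rfl)
      · intro x hx x' _ hne
        refine disjoint_left.2 fun h h1 h2 => ?_
        have e : x ∈ ({x', z} : Finset ι) := by
          rw [← (mem_filter.1 h2).2, (mem_filter.1 h1).2]
          exact mem_insert_self _ _
        rcases mem_insert.1 e with e | e
        · exact hne e
        · exact hz (mem_singleton.1 e ▸ mem_coe.1 hx)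
    refine le_trans (by nlinarith) (m3.ge.trans (card_le_card fun k hk => ?_))
    obtain ⟨x, hx, hk⟩ := mem_biUnion.1 hk
    obtain ⟨e, he, hx⟩ := mem_biUnion.1 hx
    obtain ⟨h, hh, rfl⟩ := mem_image.1 he
    refine mem_filter.2 ⟨(mem_filter.1 hk).1, h, hh, (had _ _).2 ?_⟩
    rw [(mem_filter.1 hk).2]
    exact inter_one hx fun k => hz (mem_biUnion.2 ⟨_, he, k⟩)

end Pool.Agent.MP_a43263_nt.JC
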