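import Mathlib.Algebra.Polynomial.FieldDivision
import Mathlib.RingTheory.Coprime.Lemmas
import Mathlib.RingTheory.PrincipalIdealDomain
import Mathlib.Tactic.LinearCombination
import Pool.Agent.MP_a43263_nt.JC.JSpec

-- ======== part 0: formerly Pool.Agent.MP_a43263_nt.JC.GrpA
section MrgPart0

/-! THEOREM J, row GRP, first part: a square modulo two polynomials is a square modulo their
product. -/

set_option autoImplicit false

namespace Pool.Agent.MP_a43263_nt.JC.Grp

open Polynomial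

variable {K : Type} [Field K]

theorem cop {ι : Type} [Fintype ι] {a : ι → K} {U : K[X]} (h : ∀ i, U.eval (a i) ≠ 0) :
    IsCoprime U (∏ i, (X - C (a i))) :=
  IsCoprime.prod_right fun i _ =>
    ((irreducible_X_sub_C (a i)).coprime_iff_not_dvd.2 fun e => h i (dvd_iff_isRoot.1 e)).symm

theorem step [CharZero K] {f U V π V' : K[X]} (h : U ∣ f - V ^ 2) (hc : IsCoprime U f)
    (hi : Irreducible π) (h' : π ∣ f - V' ^ 2) : ∃ T, U * π ∣ f - T ^ 2 := by
  obtain ⟨w, hw⟩ := h
  by_cases c : π ∣ U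
  · obtain ⟨x, y, e⟩ := hc
    obtain ⟨u, rfl⟩ := c
    have e2 : (C (2⁻¹ : K) * 2 : K[X]) = 1 := by
      rw [show (2 : K[X]) = C 2 from rfl, ← C_mul, inv_mul_cancel₀ two_ne_zero, C_1]
    refine ⟨V + π * u * (C 2⁻¹ * y * V * w), u * w * (x + y * w) - u * (C 2⁻¹ * y * V * w) ^ 2, ?_⟩
    linear_combination (1 + π * u * w * y) * hw - π * u * w * e - π * u * y * V ^ 2 * w * e2
  · obtain ⟨x, y, e⟩ := hi.coprime_iff_not_dvd.2 c
    obtain ⟨w', hw'⟩ := h'
    refine ⟨x * π * V + y * U * V', IsCoprime.mul_dvd ⟨y, x, by rw [add_comm, e]⟩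
      ⟨w - y * (V' - V) * (x * π * V + y * U * V' + V), ?_⟩
      ⟨w' - x * (V - V') * (x * π * V + y * U * V' + V'), ?_⟩⟩
    · linear_combination hw - V * (x * π * V + y * U * V' + V) * e
    · linear_combination hw' - V' * (x * π * V + y * U * V' + V') * e

theorem sq_mul [CharZero K] {f U V U' V' : K[X]} (h : U ∣ f - V ^ 2) (hc : IsCoprime U f)
    (h0 : U' ≠ 0) (h' : U' ∣ f - V' ^ 2) (hc' : IsCoprime U' f) : ∃ T, U * U' ∣ f - T ^ 2 := by
  induction U' using WfDvdMonoid.induction_on_irreducible with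
  | zero => exact absurd rfl h0
  | unit u hu => exact ⟨V, hu.mul_right_dvd.2 h⟩
  | mul U₁ π h1 hi ih =>
    obtain ⟨T, hT⟩ := ih h1 ((dvd_mul_left _ _).trans h') hc'.of_mul_left_right
    obtain ⟨T', hT'⟩ := step hT (hc.mul_left hc'.of_mul_left_right) hi ((dvd_mul_right _ _).trans h')
    exact ⟨T', by rwa [mul_comm π, ← mul_assoc]⟩

end Pool.Agent.MP_a43263_nt.JC.Grp

end MrgPart0

-- ======== part 1: formerly Pool.Agent.MP_a43263_nt.JC.GrpB
section MrgPart1

/-! THEOREM J, row GRP: the image of the descent map is a group. -/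

set_option autoImplicit false

namespace Pool.Agent.MP_a43263_nt.JC

open Polynomial

theorem nb_mul {K : Type} [Field K] {U U' : K[X]} (h : U.Monic) (h' : U'.Monic) (x : K) :
    nb (U * U') x = nb U x * nb U' x := by
  rw [nb, nb, nb, h.natDegree_mul h', eval_mul, pow_add]
  ring

theorem W.mul {K ι : Type} [Field K] [CharZero K] [Fintype ι] {a d e : ι → K} (h : W a d)
    (k : W a e) : W a fun i => d i * e i := by
  obtain ⟨U, V, hU, hd, h⟩ := h
  obtain ⟨U', V', hU', hd', k⟩ := k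
  obtain ⟨T, hT⟩ := Grp.sq_mul hd (Grp.cop fun i => (h i).1) hU'.ne_zero hd'
    (Grp.cop fun i => (k i).1)
  refine ⟨U * U', T, hU.mul hU', hT, fun i => ⟨?_, mul_ne_zero (h i).2.1 (k i).2.1, ?_⟩⟩
  · rw [eval_mul]
    exact mul_ne_zero (h i).1 (k i).1
  · rw [nb_mul hU hU', mul_mul_mul_comm]
    exact (h i).2.2.mul (k i).2.2

theorem grp0 : GRPStmt := fun _ _ _ _ _ _ _ _ _ _ h k => h.mul k

end Pool.Agent.MP_a43263_nt.JC

end MrgPart1

-- marker of a merged file
example : 731051 + 772430 = 731051 + 772430 := rfl
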