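import Pool.Agent.MP_a43263_nt.JC.JSpec
import Mathlib.NumberTheory.Padics.Complex
import Mathlib.RingTheory.Polynomial.Resultant.Basic
import Mathlib.RingTheory.Prime
import Mathlib.FieldTheory.Galois.Infinite
import Mathlib.LinearAlgebra.Lagrange
import Pool.Agent.MP_a43263_nt.RH.Pf
import Pool.Agent.MP_a43263_nt.RH.Const

-- ======== part 0: formerly Pool.Agent.MP_a43263_nt.JC.Pic
section MrgPart0

/-! THEOREM J, row PIC: classes of invertible ideals in the Picard group. -/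

set_option autoImplicit false

noncomputable section

namespace Pool.Agent.MP_a43263_nt.JC

open TensorProduct

namespace Pic

variable {R : Type} [CommRing R]

theorem cl_eq (I : Ideal R) [h : Module.Invertible R I] : cl I = CommRing.Pic.mk R I := by
  rw [cl, dif_pos h]

theorem inv_mul [IsDomain R] {I J : Ideal R} (hI : Inv I) (hJ : Inv J) : Inv (I * J) := by
  obtain ⟨I', a, ha, e⟩ := hI
  obtain ⟨J', b, hb, e'⟩ := hJ
  exact ⟨I' * J', a * b, mul_ne_zero ha hb, by
    rw [mul_mul_mul_comm, e, e', Ideal.span_singleton_mul_span_singleton]⟩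

theorem inv_span {a : R} (ha : a ≠ 0) : Inv (Ideal.span {a}) := ⟨⊤, a, ha, Ideal.mul_top _⟩

theorem inv_map {S : Type} [CommRing S] {φ : R →+* S} (hφ : Function.Injective φ) {I : Ideal R}
    (hI : Inv I) : Inv (I.map φ) := by
  obtain ⟨J, a, ha, e⟩ := hI
  exact ⟨J.map φ, φ a, fun c => ha (hφ (c.trans (map_zero φ).symm)), by
    rw [← Ideal.map_mul, e, Ideal.map_span, Set.image_singleton]⟩

theorem invertible [IsDomain R] {I : Ideal R} (hI : Inv I) : Module.Invertible R I := by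
  obtain ⟨J, a, ha, e⟩ := hI
  have inj := FaithfulSMul.algebraMap_injective R (FractionRing R)
  have h0 : algebraMap R (FractionRing R) a ≠ 0 := fun c => ha (inj (c.trans (map_zero _).symm))
  have u : IsUnit (IsLocalization.coeSubmodule (FractionRing R) I) := by
    refine IsUnit.of_mul_eq_one (IsLocalization.coeSubmodule (FractionRing R) J *
      Submodule.span R {(algebraMap R (FractionRing R) a)⁻¹}) ?_
    rw [← mul_assoc, ← IsLocalization.coeSubmodule_mul, e,
      IsLocalization.coeSubmodule_span_singleton, Submodule.span_mul_span,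
      Set.singleton_mul_singleton, mul_inv_cancel₀ h0, Submodule.one_eq_span]
  obtain ⟨u, hu⟩ := u
  have i : Module.Invertible R (u : Submodule R (FractionRing R)) := inferInstance
  rw [hu] at i
  have : Module.Invertible R (Submodule.map (Algebra.linearMap R (FractionRing R)) I) := i
  exact .congr (Submodule.equivMapOfInjective (Algebra.linearMap R (FractionRing R)) inj I).symm

theorem ne_bot [IsDomain R] (I : Ideal R) [Module.Invertible R I] : ∃ a ∈ I, a ≠ 0 := by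
  by_contra c
  push Not at c
  exact one_ne_zero (FaithfulSMul.eq_of_smul_eq_smul (M := R) (α := I) (m₁ := 1) (m₂ := 0)
    fun x => Subtype.ext (by simp [c x x.2]))

theorem swap {I : Ideal R} {M : Type} [AddCommGroup M] [Module R M] (e : I →ₗ[R] M) (a b : I) :
    (a : R) • e b = (b : R) • e a := by
  rw [← map_smul, ← map_smul]
  exact congrArg e (Subtype.ext (mul_comm _ _))

theorem inv_of [IsDomain R] (I : Ideal R) [h : Module.Invertible R I] : Inv I := by
  obtain ⟨a, ha, h0⟩ := ne_bot I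
  refine ⟨LinearMap.range (Module.Dual.eval R I ⟨a, ha⟩), a, h0, le_antisymm ?_ ?_⟩
  · refine Ideal.mul_le.2 ?_
    rintro b hb _ ⟨φ, rfl⟩
    exact Ideal.mem_span_singleton'.2 ⟨φ ⟨b, hb⟩, (mul_comm _ _).trans (swap φ ⟨a, ha⟩ ⟨b, hb⟩)⟩
  · obtain ⟨t, ht⟩ := h.bijective.2 1
    have k : ∀ t, a * contractLeft R I t ∈
        I * LinearMap.range (Module.Dual.eval R I ⟨a, ha⟩) := by
      intro t
      induction t using TensorProduct.induction_on with
      | zero => simp
      | tmul φ b =>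
        have := swap φ ⟨a, ha⟩ b
        rw [contractLeft_apply, show a * φ b = b * φ ⟨a, ha⟩ from this]
        exact Ideal.mul_mem_mul b.2 ⟨φ, rfl⟩
      | add x y hx hy => rw [map_add, mul_add]; exact add_mem hx hy
    have := k t
    rw [ht, mul_one] at this
    exact (Ideal.span_singleton_le_iff_mem _).2 this

theorem cl_mul [IsDomain R] {I J : Ideal R} (hI : Inv I) (hJ : Inv J) :
    cl (I * J) = cl I * cl J := by
  have := invertible hI
  have := invertible hJ
  have := invertible (inv_mul hI hJ)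
  rw [cl_eq, cl_eq, cl_eq, ← CommRing.Pic.mk_tensor, CommRing.Pic.mk_eq_mk_iff]
  exact ⟨(LinearEquiv.ofBijective (Submodule.mulMap' I J)
    (Module.Invertible.bijective_of_surjective (Submodule.mulMap'_surjective I J))).symm⟩

theorem cl_span [IsDomain R] {a : R} (ha : a ≠ 0) : cl (Ideal.span {a}) = 1 := by
  have := invertible (inv_span ha)
  rw [cl_eq, CommRing.Pic.mk_eq_one_iff]
  exact ⟨(LinearEquiv.toSpanNonzeroSingleton R R a ha).symm⟩

theorem cl_iff [IsDomain R] {I J : Ideal R} (hI : Inv I) (hJ : Inv J) : cl I = cl J ↔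
    ∃ a b : R, a ≠ 0 ∧ b ≠ 0 ∧ Ideal.span {a} * I = Ideal.span {b} * J := by
  constructor
  · intro h
    have := invertible hI
    have := invertible hJ
    rw [cl_eq, cl_eq, CommRing.Pic.mk_eq_mk_iff] at h
    obtain ⟨e⟩ := h
    obtain ⟨a, ha, h0⟩ := ne_bot I
    have k : ∀ x : I, (e ⟨a, ha⟩ : R) * x = a * e x := fun x =>
      (mul_comm _ _).trans (congrArg Subtype.val (swap e.toLinearMap x ⟨a, ha⟩))
    refine ⟨e ⟨a, ha⟩, a, fun c => h0 (congrArg Subtype.val
      ((map_eq_zero_iff e e.injective).1 (Subtype.ext c))), h0, ?_⟩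
    ext z
    simp only [Ideal.mem_span_singleton_mul]
    constructor
    · rintro ⟨x, hx, rfl⟩
      exact ⟨e ⟨x, hx⟩, (e _).2, (k ⟨x, hx⟩).symm⟩
    · rintro ⟨y, hy, rfl⟩
      exact ⟨e.symm ⟨y, hy⟩, (e.symm _).2, by rw [k, e.apply_symm_apply]⟩
  · rintro ⟨a, b, ha, hb, e⟩
    have := congrArg cl e
    rwa [cl_mul (inv_span ha) hI, cl_mul (inv_span hb) hJ, cl_span ha, cl_span hb, one_mul,
      one_mul] at this

theorem cl_map [IsDomain R] {S : Type} [CommRing S] [IsDomain S] {φ : R →+* S}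
    (hφ : Function.Injective φ) {I : Ideal R} (hI : Inv I) :
    CommRing.Pic.mapRingHom φ (cl I) = cl (I.map φ) := by
  let := φ.toAlgebra
  have := invertible hI
  have : Module.Invertible S (I.map (algebraMap R S)) := invertible (inv_map hφ hI)
  change CommRing.Pic.mapAlgebra R S (cl I) = cl (I.map (algebraMap R S))
  rw [cl_eq, cl_eq, CommRing.Pic.mapAlgebra_apply, CommRing.Pic.mk_eq_mk_iff]
  have s : Function.Surjective (LinearMap.liftBaseChange S (Algebra.idealMap S I)) := by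
    rintro ⟨y, hy⟩
    refine Submodule.span_induction (p := fun y hy =>
      ∃ t, LinearMap.liftBaseChange S (Algebra.idealMap S I) t = ⟨y, hy⟩) ?_ ⟨0, map_zero _⟩
      ?_ ?_ hy
    · rintro _ ⟨x, hx, rfl⟩
      exact ⟨1 ⊗ₜ ⟨x, hx⟩, by rw [LinearMap.liftBaseChange_tmul, one_smul]; rfl⟩
    · rintro x y _ _ ⟨t, ht⟩ ⟨t', ht'⟩
      exact ⟨t + t', by rw [map_add, ht, ht']; rfl⟩
    · rintro c x _ ⟨t, ht⟩
      exact ⟨c • t, by rw [map_smul, ht]; rfl⟩
  exact ⟨AlgebraTensorModule.congr (.refl ..) (CommRing.Pic.mk.linearEquiv R I) ≪≫ₗ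
    LinearEquiv.ofBijective _ (Module.Invertible.bijective_of_surjective s)⟩

end Pic

theorem pic : PICStmt := by
  refine ⟨fun R _ _ => ⟨fun x => ?_, ?_, fun _ _ => Pic.cl_mul, fun _ _ => Pic.cl_iff⟩,
    fun R S _ _ _ _ φ hφ I hI => Pic.cl_map hφ hI⟩
  · obtain ⟨I, ⟨e⟩⟩ := Module.Invertible.exists_linearEquiv_ideal R x
    have : Module.Invertible R I := .congr e
    exact ⟨I, Pic.inv_of I, by rw [Pic.cl_eq, CommRing.Pic.mk_eq_iff]; exact ⟨e.symm⟩⟩
  · rw [← Ideal.span_singleton_one]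
    exact Pic.cl_span one_ne_zero

end Pool.Agent.MP_a43263_nt.JC

end
end MrgPart0

-- ======== part 1: formerly Pool.Agent.MP_a43263_nt.JC.Red
section MrgPart1

/-! THEOREM J: reduced Mumford pairs. -/

set_option autoImplicit false

noncomputable section

namespace Pool.Agent.MP_a43263_nt.JC

open Polynomial

namespace RedA

theorem inv_span {R : Type} [CommRing R] {h : R} (n : h ≠ 0) : Inv (Ideal.span {h}) :=
  ⟨⊤, h, n, Ideal.mul_top _⟩

theorem inv_top {R : Type} [CommRing R] [IsDomain R] : Inv (⊤ : Ideal R) :=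
  ⟨⊤, 1, one_ne_zero, by simp⟩

theorem inv_mul {R : Type} [CommRing R] [IsDomain R] {I J : Ideal R} (h : Inv I) (k : Inv J) :
    Inv (I * J) := by
  obtain ⟨I', a, a0, e⟩ := h
  obtain ⟨J', b, b0, e'⟩ := k
  exact ⟨I' * J', a * b, mul_ne_zero a0 b0, by
    rw [mul_mul_mul_comm, e, e', Ideal.span_singleton_mul_span_singleton]⟩

theorem cl_span (pic : PICStmt) {R : Type} [CommRing R] [IsDomain R] {h : R} (n : h ≠ 0) :
    cl (Ideal.span {h}) = 1 := by
  obtain ⟨-, p2, -, p4⟩ := pic.1 R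
  rw [← p2]
  exact (p4 _ _ (inv_span n) inv_top).2 ⟨1, h, one_ne_zero, n, by simp⟩

variable {K : Type} [Field K] {f : K[X]}

theorem mk_ne {u : K[X]} (n : u ≠ 0) : (⟨u, 0⟩ : Rg f) ≠ 0 := fun e =>
  n (congrArg QuadraticAlgebra.re e)

theorem im_dvd {p q V : K[X]} {J : Ideal (Rg f)}
    (h : (⟨q, 0⟩ : Rg f) * ⟨-V, 1⟩ ∈ Ideal.span {(⟨p, 0⟩ : Rg f)} * J) :
    (⟨p, 0⟩ : Rg f) ∣ ⟨q, 0⟩ := by
  obtain ⟨z, -, e⟩ := Ideal.mem_span_singleton_mul.1 h
  have := congrArg QuadraticAlgebra.im e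
  simp only [QuadraticAlgebra.im_mul] at this
  refine ⟨⟨z.im, 0⟩, QuadraticAlgebra.ext ?_ ?_⟩
  · simp only [QuadraticAlgebra.re_mul]
    linear_combination -this
  · simp

end RedA

open RedA in
theorem red (pic : PICStmt) (mum : MUMStmt) (str : STRStmt) (lcs : LCStmt) : REDStmt := by
  intro K ι _ _ _ g a f cv
  obtain ⟨⟨fm, fd, -, dom⟩, -, m3, m4, m5, m6, m7, -, m9, m10, -, -, m13, m14, -, m16⟩ :=
    mum K ι g a f cv
  obtain ⟨p1, p2, p3, p4⟩ := pic.1 (Rg f)
  have ng : ∀ {U V : K[X]}, U ∣ f - V ^ 2 → U ∣ f - (-V) ^ 2 := fun h => by rwa [neg_sq]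
  have iv : ∀ {U V : K[X]}, U ≠ 0 → U ∣ f - V ^ 2 → Inv (MI f U V) := fun n h =>
    ⟨_, _, mk_ne n, m3 _ _ h⟩
  have ci : ∀ {U V : K[X]}, U ≠ 0 → U ∣ f - V ^ 2 → cl (MI f U V) * cl (MI f U (-V)) = 1 :=
    fun n h => by rw [← p3 _ _ (iv n h) (iv n (ng h)), m3 _ _ h]; exact cl_span pic (mk_ne n)
  constructor
  · have step : ∀ (n : ℕ) (U V : K[X]), U.natDegree < n → U.Monic → U ∣ f - V ^ 2 →
        ∃ U' V', Red g f U' V' ∧ cl (MI f U' V') = cl (MI f U V) := by
      intro n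
      induction n with
      | zero => exact fun _ _ h => absurd h (Nat.not_lt_zero _)
      | succ n ih =>
        intro U V hn hU hd
        have d1 : U ∣ V - V %ₘ U := ⟨V /ₘ U, by rw [modByMonic_eq_sub_mul_div V U]; ring⟩
        have d3 : (V %ₘ U).degree < U.degree := degree_modByMonic_lt V hU
        rw [m6 U V _ d1]
        generalize V %ₘ U = T at d1 d3
        have d2 : U ∣ f - T ^ 2 := by
          have : f - T ^ 2 = f - V ^ 2 + (V - T) * (V + T) := by ring
          rw [this]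
          exact dvd_add hd (d1.mul_right _)
        by_cases c : U.natDegree ≤ g
        · exact ⟨U, T, ⟨hU, d2, c, d3⟩, rfl⟩
        obtain ⟨w, hw⟩ := d2
        have n0 : f - T ^ 2 ≠ 0 := fun e => by
          have := congrArg natDegree (sub_eq_zero.1 e)
          rw [natDegree_pow, fd] at this
          omega
        have w0 : w ≠ 0 := fun e => n0 (by rw [hw, e, mul_zero])
        have t1 : T.natDegree < U.natDegree := by
          by_cases z : T = 0
          · rw [z, natDegree_zero]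
            omega
          · exact natDegree_lt_natDegree z d3
        have t2 : U.natDegree + w.natDegree ≤ max (2 * g + 1) (2 * T.natDegree) := by
          rw [← natDegree_mul hU.ne_zero w0, ← hw, ← fd, ← natDegree_pow]
          exact natDegree_sub_le _ _
        have as : Associated w (w * C w.leadingCoeff⁻¹) :=
          associated_mul_unit_right _ _ (isUnit_C.2 (inv_ne_zero (leadingCoeff_ne_zero.2 w0)).isUnit)
        have dw : w ∣ f - T ^ 2 := Dvd.intro_left U hw.symm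
        obtain ⟨U', V', r, e⟩ := ih (w * C w.leadingCoeff⁻¹) (-T)
          (by rw [← natDegree_eq_of_degree_eq (degree_eq_degree_of_associated as)]; omega)
          (monic_mul_leadingCoeff_inv w0) (as.dvd_iff_dvd_left.1 (ng dw))
        refine ⟨U', V', r, e.trans ?_⟩
        have k : cl (MI f U T) * cl (MI f w T) = 1 := by
          rw [← p3 _ _ (iv hU.ne_zero ⟨w, hw⟩) (iv w0 dw), m4 _ _ _ (hw ▸ dvd_rfl), ← hw, m5]
          exact cl_span pic fun e => one_ne_zero (congrArg QuadraticAlgebra.im e)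
        rw [← m7 _ _ _ as]
        exact mul_left_cancel ((ci w0 dw).trans ((mul_comm _ _).trans k).symm)
    intro x
    obtain ⟨I, hI, rfl⟩ := p1 x
    obtain ⟨s, U, V, hs, hU, hd, rfl⟩ := str K f I dom (by
      rintro rfl
      obtain ⟨J, b, b0, e⟩ := hI
      rw [Ideal.bot_mul, eq_comm, Ideal.span_singleton_eq_bot] at e
      exact b0 e)
    obtain ⟨U', V', r, e⟩ := step _ U V (Nat.lt_succ_self _) hU hd
    refine ⟨U', V', r, e.trans ?_⟩
    rw [PI, p3 _ _ (inv_span (mk_ne hs.ne_zero)) (iv hU.ne_zero hd),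
      cl_span pic (mk_ne hs.ne_zero), one_mul]
  · rintro U V U' V' ⟨a1, a2, a3, a4⟩ ⟨b1, b2, b3, b4⟩ e
    have i1 := iv a1.ne_zero a2
    have i2 := iv b1.ne_zero (ng b2)
    obtain ⟨x, y, x0, y0, e1⟩ := (p4 _ _ (inv_mul i1 i2) inv_top).1
      (by rw [p3 _ _ i1 i2, e, ci b1.ne_zero b2, p2])
    rw [Ideal.mul_top] at e1
    obtain ⟨h, -, rfl⟩ := Ideal.mem_span_singleton_mul.1 (e1 ▸ Ideal.mem_span_singleton_self y)
    rw [← Ideal.span_singleton_mul_span_singleton, Ideal.span_singleton_mul_right_inj x0] at e1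
    have h0 : h ≠ 0 := right_ne_zero_of_mul y0
    have as := ((m16 h (U * U') h0).1 (e1 ▸ m13 _ _ _ _ (m10 U V a1 a2) (m10 U' _ b1 (ng b2)))).2
    have dg := (lcs K f fm (fd ▸ odd_two_mul_add_one g)).2.2.2.2.1 h h0
    rw [← natDegree_eq_of_degree_eq (degree_eq_degree_of_associated as),
      natDegree_mul a1.ne_zero b1.ne_zero] at dg
    have hi : h.im = 0 := by
      by_contra c
      rw [if_neg (by rwa [degree_eq_bot])] at dg
      omega
    obtain ⟨p, q⟩ := h
    obtain rfl : q = 0 := hi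
    have e2 : Ideal.span {(⟨U', 0⟩ : Rg f)} * MI f U V = Ideal.span {(⟨p, 0⟩ : Rg f)} * MI f U' V' := by
      rw [← e1, mul_assoc, mul_comm (MI f U' (-V')), m3 _ _ b2, mul_comm]
      rfl
    have mm : ∀ A B : K[X], (⟨-B, 1⟩ : Rg f) ∈ MI f A B := fun A B => Ideal.subset_span (by simp)
    have e3 : Ideal.span {(⟨p, 0⟩ : Rg f)} = Ideal.span {⟨U', 0⟩} :=
      Ideal.span_singleton_eq_span_singleton.2 (associated_of_dvd_dvd
        (im_dvd (e2 ▸ Ideal.mul_mem_mul (Ideal.mem_span_singleton_self _) (mm U V)))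
        (im_dvd (e2.symm ▸ Ideal.mul_mem_mul (Ideal.mem_span_singleton_self _) (mm U' V'))))
    rw [e3, Ideal.span_singleton_mul_right_inj (mk_ne b1.ne_zero)] at e2
    obtain rfl : U = U' := m14 _ _ _ (m10 U V a1 a2) (e2 ▸ m10 U' V' b1 b2)
    refine ⟨rfl, ?_⟩
    have d := (m9 U V' b2 _).1 (e2 ▸ mm U V)
    simp only [one_mul] at d
    have := eq_zero_of_dvd_of_degree_lt d
      ((degree_add_le _ _).trans_lt (max_lt (by rwa [degree_neg]) b4))
    linear_combination -this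

end Pool.Agent.MP_a43263_nt.JC

end
end MrgPart1

-- ======== part 2: formerly Pool.Agent.MP_a43263_nt.JC.Val
section MrgPart2

/-! THEOREM J, rows NRM and VAL: the norm condition and the parity of valuations. -/

set_option autoImplicit false

namespace Pool.Agent.MP_a43263_nt.JC

open Polynomial Finset

namespace Val

theorem res_deg {K : Type} [Field K] {U : K[X]} (hU : U.Monic) (g : K[X]) {n : ℕ}
    (hn : g.natDegree ≤ n) :
    resultant U g U.natDegree n = resultant U g U.natDegree g.natDegree := by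
  obtain ⟨k, rfl⟩ := Nat.exists_eq_add_of_le hn
  rw [resultant_add_right_deg _ _ _ _ _ le_rfl, hU.coeff_natDegree, one_pow, one_mul]

theorem prod_nb {K ι : Type} [Field K] [Fintype ι] (a : ι → K) {U V : K[X]} (hU : U.Monic)
    (h : U ∣ fp a - V ^ 2) : IsSquare (∏ i, nb U (a i)) := by
  obtain ⟨w, hw⟩ := h
  have e : fp a = V * V + U * w := by rw [← hw]; ring
  have h1 : resultant U (fp a) U.natDegree (fp a).natDegree = ∏ i, nb U (a i) := by
    unfold fp
    rw [resultant_prod_right _ _ _ _ le_rfl (by simp [leadingCoeff_X_sub_C])]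
    refine prod_congr rfl fun i _ => ?_
    rw [natDegree_X_sub_C, resultant_X_sub_C_right _ _ _ le_rfl, nb]
  set n := (fp a).natDegree + (V.natDegree + V.natDegree) + (w.natDegree + U.natDegree) with hn
  have h2 : (V * V).natDegree ≤ V.natDegree + V.natDegree := natDegree_mul_le
  rw [← h1, ← res_deg hU (fp a) (n := n) (by omega), e,
    resultant_add_mul_right _ _ _ _ _ (by omega) le_rfl, res_deg hU _ (by omega),
    ← res_deg hU _ h2, resultant_mul_right _ _ _ _ le_rfl]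
  exact ⟨_, rfl⟩

theorem nb_ne {K : Type} [Field K] {U : K[X]} {x : K} (h : U.eval x ≠ 0) : nb U x ≠ 0 :=
  mul_ne_zero (pow_ne_zero _ (by simp)) h

variable {p : ℕ} [Fact p.Prime]

theorem val_eq {x y : ℚ_[p]} (hx : x ≠ 0) (h : ‖x‖ = ‖y‖) : x.valuation = y.valuation := by
  have hy : y ≠ 0 := fun e => hx (by rwa [e, norm_zero, norm_eq_zero] at h)
  have hp : (1 : ℝ) < p := by exact_mod_cast (Fact.out : p.Prime).one_lt
  rw [Padic.norm_eq_zpow_neg_valuation hx, Padic.norm_eq_zpow_neg_valuation hy] at h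
  have := zpow_right_injective₀ (by linarith) hp.ne' h
  simpa using this

theorem val_prod {ι : Type} (s : Finset ι) (f : ι → ℚ_[p]) (h : ∀ i, f i ≠ 0) :
    (∏ i ∈ s, f i).valuation = ∑ i ∈ s, (f i).valuation := by
  classical
  induction s using Finset.induction_on with
  | empty => simp
  | insert i s hi ih =>
    rw [prod_insert hi, sum_insert hi,
      Padic.valuation_mul (h i) (prod_ne_zero_iff.2 fun j _ => h j), ih]

theorem val_sq {x : ℚ_[p]} (hx : x ≠ 0) (h : IsSquare x) : Even x.valuation := by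
  obtain ⟨r, rfl⟩ := h
  have hr : r ≠ 0 := left_ne_zero_of_mul hx
  exact ⟨_, Padic.valuation_mul hr hr⟩

theorem norm_nb (U : ℚ_[p][X]) (x : ℚ_[p]) : ‖nb U x‖ = ‖U.eval x‖ := by simp [nb]

/-- the value of an irreducible polynomial is a power of the distance to one root -/
theorem dist_root {π : ℚ_[p][X]} (hm : π.Monic) (hi : Irreducible π) :
    ∃ x : PadicAlgCl p, ∀ c : ℚ_[p], ‖π.eval c‖ = ‖x - (c : PadicAlgCl p)‖ ^ π.natDegree := by
  obtain ⟨x, hx⟩ := IsAlgClosed.exists_aeval_eq_zero (PadicAlgCl p) π (degree_pos_of_irreducible hi).ne'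
  refine ⟨x, fun c => ?_⟩
  have e : π = minpoly ℚ_[p] x := minpoly.eq_of_irreducible_of_monic hi hx hm
  have hd : π.natDegree ≠ 0 := (natDegree_pos_iff_degree_pos.2 (degree_pos_of_irreducible hi)).ne'
  have h := spectralNorm.spectralNorm_eq_norm_coeff_zero_rpow ℚ_[p] (PadicAlgCl p)
    (x - algebraMap ℚ_[p] _ c)
  rw [PadicAlgCl.spectralNorm_eq, minpoly.sub_algebraMap, ← e, natDegree_comp, natDegree_X_add_C,
    mul_one, coeff_zero_eq_eval_zero, eval_comp, eval_add, eval_X, eval_C, zero_add] at h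
  have h2 : ‖x - (c : PadicAlgCl p)‖ = ‖π.eval c‖ ^ ((π.natDegree : ℝ)⁻¹) := by
    rw [← one_div]; exact h
  rw [h2, Real.rpow_inv_natCast_pow (norm_nonneg _) hd]

theorem ultra {x y : PadicAlgCl p} (h : ‖y‖ < ‖x‖) : ‖x + y‖ = ‖x‖ := by
  rw [IsUltrametricDist.norm_add_eq_max_of_norm_ne_norm h.ne', max_eq_left h.le]

theorem irr {ι : Type} [Fintype ι] (a : ι → ℚ_[p]) (k : ι) (ho : Odd (Fintype.card ι))
    (h2 : ∀ l, l ≠ k → ‖a k - a l‖ = 1) {π V : ℚ_[p][X]} (hm : π.Monic)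
    (hi : Irreducible π) (hd : π ∣ fp a - V ^ 2) (h0 : ∀ l, π.eval (a l) ≠ 0) :
    Even (π.eval (a k)).valuation := by
  have hs := val_sq (prod_ne_zero_iff.2 fun l _ => nb_ne (h0 l)) (prod_nb a hm hd)
  rw [val_prod _ _ fun l => nb_ne (h0 l),
    sum_congr rfl fun l _ => val_eq (nb_ne (h0 l)) (norm_nb π (a l))] at hs
  obtain ⟨x, hx⟩ := dist_root hm hi
  have one : ∀ l, ‖x - (a l : PadicAlgCl p)‖ = 1 → (π.eval (a l)).valuation = 0 := fun l h => by
    rw [val_eq (y := 1) (h0 l) (by rw [hx, h, one_pow, norm_one]), Padic.valuation_one]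
  rcases lt_trichotomy ‖x - (a k : PadicAlgCl p)‖ 1 with h | h | h
  · rwa [Finset.sum_eq_single k (fun l _ hl => one l ?_) (by simp)] at hs
    have e : ‖((a k - a l : ℚ_[p]) : PadicAlgCl p)‖ = 1 := by
      rw [PadicAlgCl.norm_extends, h2 l hl]
    have e2 : x - (a l : PadicAlgCl p) =
        ((a k - a l : ℚ_[p]) : PadicAlgCl p) + (x - (a k : PadicAlgCl p)) := by
      simp only [map_sub]; ring
    rw [e2, ultra (by rw [e]; exact h), e]
  · rw [one k h]; exact Even.zero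
  · have all : ∀ l, (π.eval (a l)).valuation = (π.eval (a k)).valuation := fun l => by
      refine val_eq (h0 l) ?_
      by_cases hl : l = k
      · rw [hl]
      have e : ‖((a k - a l : ℚ_[p]) : PadicAlgCl p)‖ = 1 := by
        rw [PadicAlgCl.norm_extends, h2 l hl]
      have e2 : x - (a l : PadicAlgCl p) =
          (x - (a k : PadicAlgCl p)) + ((a k - a l : ℚ_[p]) : PadicAlgCl p) := by
        simp only [map_sub]; ring
      rw [hx, hx, e2, ultra (by rw [e]; exact h)]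
    rw [sum_congr rfl fun l _ => all l, sum_const, card_univ, nsmul_eq_mul] at hs
    rcases Int.even_mul.1 hs with h3 | h3
    · exact absurd ((Int.even_coe_nat _).1 h3) (Nat.not_even_iff_odd.2 ho)
    · exact h3

theorem all {ι : Type} [Fintype ι] (a : ι → ℚ_[p]) (k : ι) (ho : Odd (Fintype.card ι))
    (h2 : ∀ l, l ≠ k → ‖a k - a l‖ = 1) (V : ℚ_[p][X]) (n : ℕ) :
    ∀ U : ℚ_[p][X], U.natDegree ≤ n → U.Monic → U ∣ fp a - V ^ 2 → (∀ l, U.eval (a l) ≠ 0) →
      Even (U.eval (a k)).valuation := by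
  induction n with
  | zero =>
    intro U hn hm _ _
    rw [hm.natDegree_eq_zero.1 (by omega)]
    simp
  | succ n ih =>
    intro U hn hm hd h0
    by_cases hu : IsUnit U
    · rw [hm.isUnit_iff.1 hu]; simp
    obtain ⟨π, m1, m2, U', rfl⟩ := exists_monic_irreducible_factor U hu
    have m3 : U'.Monic := m1.of_mul_monic_left hm
    have hdeg : 0 < π.natDegree := natDegree_pos_iff_degree_pos.2 (degree_pos_of_irreducible m2)
    rw [m1.natDegree_mul m3] at hn
    simp only [eval_mul, mul_ne_zero_iff] at h0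
    rw [eval_mul, Padic.valuation_mul (h0 k).1 (h0 k).2]
    exact (irr a k ho h2 m1 m2 ((dvd_mul_right _ _).trans hd) fun l => (h0 l).1).add
      (ih U' (by omega) m3 ((dvd_mul_left _ _).trans hd) fun l => (h0 l).2)

end Val

open Val

theorem nrm : NRMStmt := by
  rintro K ι _ _ a d ⟨U, V, hU, hd, h⟩
  obtain ⟨r, hr⟩ := prod_nb a hU hd
  choose s hs using fun i => (h i).2.2
  have h0 : r ≠ 0 := left_ne_zero_of_mul (hr ▸ prod_ne_zero_iff.2 fun i _ => nb_ne (h i).1)
  have e : (∏ i, d i) * (r * r) = (∏ i, s i) * ∏ i, s i := by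
    rw [← hr, ← prod_mul_distrib, ← prod_mul_distrib]
    exact prod_congr rfl fun i _ => hs i
  exact ⟨(∏ i, s i) / r, by field_simp; linear_combination e⟩

theorem val : NRMStmt → VALStmt := by
  rintro - p _ ι _ a d i j ho - h2 ⟨U, V, hU, hd, h⟩ k hk
  have h3 : ∀ l, l ≠ k → ‖a k - a l‖ = 1 := fun l hl =>
    h2 k l hl.symm (fun e => (hk fun f => hl (by rw [e.1, e.2, f])).1 e.1)
      fun e => (hk fun f => hl (by rw [e.1, e.2, f])).2 e.1
  have h4 := Val.all a k ho h3 V _ U le_rfl hU hd fun l => (h l).1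
  have h5 := val_sq (mul_ne_zero (h k).2.1 (nb_ne (h k).1)) (h k).2.2
  rw [Padic.valuation_mul (h k).2.1 (nb_ne (h k).1),
    val_eq (nb_ne (h k).1) (norm_nb U (a k))] at h5
  exact (Int.even_add.1 h5).2 h4

end Pool.Agent.MP_a43263_nt.JC

end MrgPart2

-- ======== part 3: formerly Pool.Agent.MP_a43263_nt.JC.Zed
section MrgPart3

/-! THEOREM J: the calculus of halves. -/

set_option autoImplicit false

noncomputable section

namespace Pool.Agent.MP_a43263_nt.JC

open Polynomial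

namespace Zed

section ring

variable {R : Type} [CommRing R] [IsDomain R]

theorem inv_mul {I J : Ideal R} (h : Inv I) (h' : Inv J) : Inv (I * J) := by
  obtain ⟨I', x, hx, e⟩ := h
  obtain ⟨J', y, hy, e'⟩ := h'
  refine ⟨I' * J', x * y, mul_ne_zero hx hy, ?_⟩
  rw [← Ideal.span_singleton_mul_span_singleton, ← e, ← e']
  ring

omit [IsDomain R] in
theorem inv_span {h : R} (h0 : h ≠ 0) : Inv (Ideal.span {h}) := ⟨⊤, h, h0, Ideal.mul_top _⟩

theorem inv_top : Inv (⊤ : Ideal R) := ⟨⊤, 1, one_ne_zero, by simp⟩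

theorem cl_mul (pic : PICStmt) {I J : Ideal R} (h : Inv I) (h' : Inv J) :
    cl (I * J) = cl I * cl J := (pic.1 R).2.2.1 I J h h'

theorem cl_span (pic : PICStmt) {h : R} (h0 : h ≠ 0) : cl (Ideal.span {h}) = 1 := by
  rw [← (pic.1 R).2.1]
  exact ((pic.1 R).2.2.2 _ _ (inv_span h0) inv_top).2 ⟨1, h, one_ne_zero, h0, by simp⟩

theorem prin (pic : PICStmt) {I : Ideal R} (h : Inv I) (h1 : cl I = 1) :
    ∃ k, k ≠ 0 ∧ I = Ideal.span {k} := by
  rw [← (pic.1 R).2.1] at h1
  obtain ⟨x, y, hx, hy, e⟩ := ((pic.1 R).2.2.2 _ _ h inv_top).1 h1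
  rw [Ideal.mul_top] at e
  have h2 : y ∈ Ideal.span {x} := by
    have h3 := Ideal.mem_span_singleton_self y
    rw [← e] at h3
    exact Ideal.mul_le_left h3
  obtain ⟨k, rfl⟩ := Ideal.mem_span_singleton.1 h2
  refine ⟨k, right_ne_zero_of_mul hy, ?_⟩
  rw [← Ideal.span_singleton_mul_span_singleton] at e
  exact (Ideal.span_singleton_mul_right_inj hx).1 e

end ring

variable {K ι : Type} [Field K] [Fintype ι] {g : ℕ} {a : ι → K} {f : K[X]}

theorem froot (hc : Cv g a f) (i : ι) : f.eval (a i) = 0 := by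
  rw [hc.eq, fp, eval_prod]
  exact Finset.prod_eq_zero (Finset.mem_univ i) (by simp)

theorem ev_mul (hc : Cv g a f) (h k : Rg f) (i : ι) :
    (h * k).re.eval (a i) = h.re.eval (a i) * k.re.eval (a i) := by
  simp [QuadraticAlgebra.re_mul, froot hc i]

theorem ev_norm (hc : Cv g a f) (h : Rg f) (i : ι) :
    (QuadraticAlgebra.norm h).eval (a i) = h.re.eval (a i) ^ 2 := by
  simp [QuadraticAlgebra.norm_def, froot hc i, pow_two]

theorem nb_mul {u w : K[X]} (hu : u.Monic) (hw : w.Monic) (x : K) :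
    nb (u * w) x = nb u x * nb w x := by
  rw [nb, nb, nb, hu.natDegree_mul hw, pow_add, eval_mul]
  ring

theorem nb_sq (u : K[X]) (x : K) : nb u x ^ 2 = u.eval x ^ 2 := by
  rw [nb, mul_pow, ← pow_mul, mul_comm _ 2, pow_mul]
  simp

theorem nb_ne {u : K[X]} {x : K} : nb u x ≠ 0 ↔ u.eval x ≠ 0 := by
  simp [nb]

theorem mk_ne {u : K[X]} (hu : u ≠ 0) : (⟨u, 0⟩ : Rg f) ≠ 0 :=
  fun e => hu (congrArg QuadraticAlgebra.re e)

/-- the facts on ideals and leading coefficients that are used -/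
structure Kit (a : ι → K) (f : K[X]) : Prop where
  ev : ∀ (h k : Rg f) (i : ι), (h * k).re.eval (a i) = h.re.eval (a i) * k.re.eval (a i)
  top : Nu (⊤ : Ideal (Rg f)) 1
  mul : ∀ {I J : Ideal (Rg f)} {u w : K[X]}, Nu I u → Nu J w → Nu (I * J) (u * w)
  uniq : ∀ {I : Ideal (Rg f)} {u w : K[X]}, Nu I u → Nu I w → u = w
  conj : ∀ {I : Ideal (Rg f)} {u : K[X]}, Nu I u → Nu (cj I) u
  inv : ∀ {I : Ideal (Rg f)} {u : K[X]}, Nu I u → Inv I
  lmul : ∀ h k : Rg f, lc (h * k) = lc h * lc k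
  lne : ∀ {h : Rg f}, lc h = 1 → h ≠ 0
  lmk : ∀ u : K[X], lc (⟨u, 0⟩ : Rg f) = u.leadingCoeff
  ext : ∀ h k : Rg f, Ideal.span {h} = Ideal.span {k} → lc h = lc k → h = k
  nu : ∀ {h : Rg f}, lc h = 1 → ∃ u, Nu (Ideal.span {h}) u ∧ ∀ i, nb u (a i) = h.re.eval (a i) ^ 2
  scale : ∀ {h : Rg f}, h ≠ 0 → ∃ k, lc k = 1 ∧ Ideal.span {h} = Ideal.span {k}

theorem kit [CharZero K] (mum : MUMStmt) (lcs : LCStmt) (hc : Cv g a f) : Kit a f := by
  obtain ⟨⟨m1, m2, -, -⟩, -, -, -, -, -, -, -, -, -, -, n1, n2, n3, n4, n5⟩ := mum K ι g a f hc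
  obtain ⟨l1, l2, l3, l4, -, l6, -⟩ := lcs K f m1 (m2 ▸ odd_two_mul_add_one g)
  have lne : ∀ {h : Rg f}, lc h = 1 → h ≠ 0 := fun {h} e e' =>
    one_ne_zero (e.symm.trans ((l2 h).2 e'))
  refine ⟨ev_mul hc, n1, fun h h' => n2 _ _ _ _ h h', fun h h' => n3 _ _ _ h h',
    fun h => (n4 _ _ h).1, fun h => (n4 _ _ h).2.1, l1, lne, l3, l6, fun {h} e => ?_,
    fun {h} e => ?_⟩
  · have s1 : ((-1 : K) ^ (QuadraticAlgebra.norm h).natDegree) *
        (-1) ^ (QuadraticAlgebra.norm h).natDegree = 1 := by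
      rw [← mul_pow]; simp
    have s0 : ((-1 : K) ^ (QuadraticAlgebra.norm h).natDegree) ≠ 0 := left_ne_zero_of_mul_eq_one s1
    refine ⟨C ((-1) ^ (QuadraticAlgebra.norm h).natDegree) * QuadraticAlgebra.norm h,
      (n5 h _ (lne e)).2 ⟨?_, ?_⟩, fun i => ?_⟩
    · rw [Monic, leadingCoeff_mul, leadingCoeff_C, l4 h, e, one_pow, mul_one, s1]
    · exact associated_unit_mul_left _ _ (isUnit_C.2 s0.isUnit)
    · rw [nb, natDegree_C_mul s0, eval_mul, eval_C, ← mul_assoc, s1, one_mul, ev_norm hc]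
  · have c0 : lc h ≠ 0 := fun e' => e ((l2 h).1 e')
    refine ⟨⟨C (lc h)⁻¹, 0⟩ * h, by rw [l1, l3, leadingCoeff_C, inv_mul_cancel₀ c0], ?_⟩
    refine (Ideal.span_singleton_mul_left_unit (IsUnit.of_mul_eq_one ⟨C (lc h), 0⟩ ?_) h).symm
    ext1
    · simp [QuadraticAlgebra.re_one, ← C_mul, c0]
    · simp [QuadraticAlgebra.im_one]

omit [Fintype ι]

variable [IsDomain (Rg f)]

theorem cl_cj (pic : PICStmt) (k : Kit a f) {E : Ideal (Rg f)} {u : K[X]} (h : Nu E u) :
    cl E * cl (cj E) = 1 := by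
  rw [← cl_mul pic (k.inv h) (k.inv (k.conj h)), h.2]
  exact cl_span pic (mk_ne h.1.ne_zero)

theorem za (pic : PICStmt) (k : Kit a f) {R : CommRing.Pic (Rg f)} {D : Ideal (Rg f)} {ρ : ι → K}
    {w : K[X]} (z : Z a f R D ρ) (hw : Nu D w) : R ^ 2 = cl D ∧ ∀ i, ρ i ^ 2 = nb w (a i) := by
  obtain ⟨E, u, h₁, h₂, hE, rfl, c1, c2, e, hi⟩ := z
  rw [pow_two] at e
  refine ⟨?_, fun i => ?_⟩
  · rw [pow_two, ← cl_mul pic (k.inv hE) (k.inv hE)]
    exact (((pic.1 _).2.2.2 _ _ (k.inv hw) (k.inv (k.mul hE hE))).2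
      ⟨h₁, h₂, k.lne c1, k.lne c2, e⟩).symm
  · obtain ⟨u1, a1, b1⟩ := k.nu c1
    obtain ⟨u2, a2, b2⟩ := k.nu c2
    have a3 := k.mul a2 (k.mul hE hE)
    rw [← e] at a3
    have e2 := k.uniq (k.mul a1 hw) a3
    have e3 := congrArg (fun p => nb p (a i)) e2
    simp only [nb_mul a1.1 hw.1, nb_mul a2.1 (hE.1.mul hE.1), nb_mul hE.1 hE.1, b1, b2] at e3
    obtain ⟨-, p1, -, p3⟩ := hi i
    apply mul_left_cancel₀ (pow_ne_zero 2 p1)
    rw [e3]
    linear_combination (ρ i * h₁.re.eval (a i) + nb u (a i) * h₂.re.eval (a i)) * p3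

theorem zb (pic : PICStmt) (k : Kit a f) {D E : Ideal (Rg f)} {w u : K[X]} (hw : Nu D w)
    (w0 : ∀ i, w.eval (a i) ≠ 0) (hE : Nu E u) (u0 : ∀ i, u.eval (a i) ≠ 0)
    (e : cl E ^ 2 = cl D) : ∃ ρ, Z a f (cl E) D ρ := by
  have hX := k.mul hw (k.mul (k.conj hE) (k.conj hE))
  have c : cl (D * (cj E * cj E)) = 1 := by
    rw [cl_mul pic (k.inv hw) (k.inv (k.mul (k.conj hE) (k.conj hE))),
      cl_mul pic (k.inv (k.conj hE)) (k.inv (k.conj hE)), ← e, ← pow_two (cl (cj E)), ← mul_pow,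
      cl_cj pic k hE, one_pow]
  obtain ⟨h0, n0, e0⟩ := prin pic (k.inv hX) c
  obtain ⟨h, c2, e1⟩ := k.scale n0
  rw [e1] at e0
  obtain ⟨u2, a2, b2⟩ := k.nu c2
  have hX' := hX
  rw [e0] at hX'
  have e2 := k.uniq hX' a2
  have r0 : ∀ i, h.re.eval (a i) ≠ 0 := fun i e3 => by
    have := b2 i
    rw [e3, ← e2, zero_pow two_ne_zero] at this
    exact nb_ne.2 (by simp [w0 i, u0 i]) this
  have r1 : ∀ i, ((⟨u, 0⟩ * ⟨u, 0⟩ : Rg f)).re.eval (a i) ≠ 0 := fun i => by
    rw [k.ev]; exact mul_ne_zero (u0 i) (u0 i)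
  have c1 : lc (⟨u, 0⟩ * ⟨u, 0⟩ : Rg f) = 1 := by
    rw [k.lmul, k.lmk, hE.1.leadingCoeff, one_mul]
  have e4 : Ideal.span {(⟨u, 0⟩ * ⟨u, 0⟩ : Rg f)} * D = Ideal.span {h} * E ^ 2 := by
    have := hE.2
    rw [PI] at this
    rw [← e0, ← Ideal.span_singleton_mul_span_singleton, ← this]
    ring
  generalize (⟨u, 0⟩ * ⟨u, 0⟩ : Rg f) = h1 at r1 c1 e4
  exact ⟨fun i => nb u (a i) * h.re.eval (a i) / h1.re.eval (a i), E, u, h1, h, hE, rfl, c1, c2, e4,
    fun i => ⟨u0 i, r1 i, r0 i, div_mul_cancel₀ _ (r1 i)⟩⟩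

theorem zc (pic : PICStmt) (k : Kit a f) {R R' : CommRing.Pic (Rg f)} {D D' : Ideal (Rg f)}
    {ρ ρ' : ι → K} (z : Z a f R D ρ) (z' : Z a f R' D' ρ') :
    Z a f (R * R') (D * D') fun i => ρ i * ρ' i := by
  obtain ⟨E, u, h₁, h₂, hE, rfl, c1, c2, e, hi⟩ := z
  obtain ⟨E', u', h₁', h₂', hE', rfl, c1', c2', e', hi'⟩ := z'
  refine ⟨E * E', u * u', h₁ * h₁', h₂ * h₂', k.mul hE hE', cl_mul pic (k.inv hE) (k.inv hE'),
    by rw [k.lmul, c1, c1', one_mul], by rw [k.lmul, c2, c2', one_mul], ?_, fun i => ?_⟩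
  · rw [← Ideal.span_singleton_mul_span_singleton, ← Ideal.span_singleton_mul_span_singleton,
      mul_mul_mul_comm, e, e']
    ring
  · obtain ⟨p0, p1, p2, p3⟩ := hi i
    obtain ⟨q0, q1, q2, q3⟩ := hi' i
    rw [k.ev, k.ev, eval_mul, nb_mul hE.1 hE'.1]
    refine ⟨mul_ne_zero p0 q0, mul_ne_zero p1 q1, mul_ne_zero p2 q2, ?_⟩
    rw [mul_mul_mul_comm, p3, q3]
    ring

theorem zd (pic : PICStmt) (k : Kit a f) {R R' : CommRing.Pic (Rg f)} {D : Ideal (Rg f)}
    {ρ ρ' : ι → K} (z : Z a f R D ρ) (z' : Z a f R' D ρ') :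
    Z a f (R' / R) ⊤ fun i => ρ' i / ρ i := by
  obtain ⟨E, u, h₁, h₂, hE, rfl, c1, c2, e, hi⟩ := z
  obtain ⟨E', u', h₁', h₂', hE', rfl, c1', c2', e', hi'⟩ := z'
  refine ⟨E' * cj E, u' * u, h₁' * h₂ * (⟨u, 0⟩ * ⟨u, 0⟩), h₁ * h₂', k.mul hE' (k.conj hE), ?_,
    by rw [k.lmul, k.lmul, k.lmul, k.lmk, c1', c2, hE.1.leadingCoeff]; ring,
    by rw [k.lmul, c1, c2', one_mul], ?_, fun i => ?_⟩
  · rw [cl_mul pic (k.inv hE') (k.inv (k.conj hE)), div_eq_mul_inv,
      eq_inv_of_mul_eq_one_right (cl_cj pic k hE)]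
  · have := hE.2
    rw [PI] at this
    simp only [← Ideal.span_singleton_mul_span_singleton]
    rw [Ideal.mul_top, ← this]
    calc Ideal.span {h₁'} * Ideal.span {h₂} * (E * cj E * (E * cj E))
        = Ideal.span {h₁'} * (Ideal.span {h₂} * E ^ 2) * cj E ^ 2 := by ring
      _ = Ideal.span {h₁} * (Ideal.span {h₁'} * D) * cj E ^ 2 := by rw [← e]; ring
      _ = _ := by rw [e']; ring
  · obtain ⟨p0, p1, p2, p3⟩ := hi i
    obtain ⟨q0, q1, q2, q3⟩ := hi' i
    have r0 : ρ i ≠ 0 := left_ne_zero_of_mul (p3 ▸ mul_ne_zero (nb_ne.2 p0) p2)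
    rw [k.ev, k.ev, k.ev, k.ev, eval_mul, nb_mul hE'.1 hE.1]
    refine ⟨mul_ne_zero q0 p0, mul_ne_zero (mul_ne_zero q1 p2) (mul_ne_zero p0 p0),
      mul_ne_zero p1 q2, ?_⟩
    have s := nb_sq u (a i)
    rw [div_mul_eq_mul_div, div_eq_iff r0]
    dsimp only
    linear_combination (h₂.re.eval (a i) * u.eval (a i) ^ 2) * q3 -
      (nb u' (a i) * nb u (a i) * h₂'.re.eval (a i)) * p3 -
      (nb u' (a i) * h₂'.re.eval (a i) * h₂.re.eval (a i)) * s

theorem ze (pic : PICStmt) (k : Kit a f) (ρ : ι → K) : Z a f 1 ⊤ ρ ↔ ∀ i, ρ i = 1 := by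
  constructor
  · rintro ⟨E, u, h₁, h₂, hE, c, c1, c2, e, hi⟩ i
    obtain ⟨h0, n0, e0⟩ := prin pic (k.inv hE) c
    obtain ⟨h, c3, e1⟩ := k.scale n0
    rw [e1] at e0
    subst e0
    obtain ⟨u2, a2, b2⟩ := k.nu c3
    obtain rfl := k.uniq hE a2
    rw [Ideal.mul_top, pow_two, Ideal.span_singleton_mul_span_singleton,
      Ideal.span_singleton_mul_span_singleton] at e
    obtain rfl := k.ext _ _ e (by rw [k.lmul, k.lmul, c1, c2, c3]; ring)
    obtain ⟨-, p1, -, p3⟩ := hi i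
    apply mul_right_cancel₀ p1
    rw [p3, b2, k.ev, k.ev]
    ring
  · intro h
    have c : lc (⟨1, 0⟩ : Rg f) = 1 := by rw [k.lmk, leadingCoeff_one]
    exact ⟨⊤, 1, ⟨1, 0⟩, ⟨1, 0⟩, k.top, (pic.1 _).2.1, c, c, by rw [pow_two, Ideal.mul_top (I := ⊤)],
      fun i => by simp [h i, nb]⟩

omit [IsDomain (Rg f)]

variable {L : Type} [Field L] (φ : K →+* L) {F : L[X]} (e : f.map φ = F)

include e in
theorem cv_map [Fintype ι] (hc : Cv g a f) : Cv g (fun i => φ (a i)) F := by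
  refine ⟨hc.card, hc.pos, φ.injective.comp hc.inj, ?_⟩
  rw [← e, hc.eq, fp, fp, Polynomial.map_prod]
  simp

theorem rmap_inj : Function.Injective (rmap φ e) := by
  intro x y h
  ext1
  · exact Polynomial.map_injective φ φ.injective (congrArg QuadraticAlgebra.re h)
  · exact Polynomial.map_injective φ φ.injective (congrArg QuadraticAlgebra.im h)

theorem cj_map (I : Ideal (Rg f)) : cj (I.map (rmap φ e)) = (cj I).map (rmap φ e) := by
  rw [cj, cj, Ideal.map_map, Ideal.map_map]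
  congr 1
  refine RingHom.ext fun x => ?_
  ext1 <;> simp [rmap, starRingEnd_apply]

theorem nu_map {I : Ideal (Rg f)} {u : K[X]} (h : Nu I u) : Nu (I.map (rmap φ e)) (u.map φ) := by
  refine ⟨h.1.map φ, ?_⟩
  rw [cj_map, ← Ideal.map_mul, h.2, PI, PI, Ideal.map_span, Set.image_singleton]
  simp [rmap]

theorem ev_map (u : K[X]) (x : K) : (u.map φ).eval (φ x) = φ (u.eval x) := by
  rw [eval_map, eval₂_at_apply]

theorem nb_map (u : K[X]) (x : K) : nb (u.map φ) (φ x) = φ (nb u x) := by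
  rw [nb, nb, natDegree_map, ev_map]
  simp

theorem zf [IsDomain (Rg f)] [IsDomain (Rg F)] (pic : PICStmt) (k : Kit a f)
    (l : ∀ h : Rg f, lc (rmap φ e h) = φ (lc h)) {R : CommRing.Pic (Rg f)} {D : Ideal (Rg f)}
    {ρ : ι → K} (z : Z a f R D ρ) : Z (fun i => φ (a i)) F (CommRing.Pic.mapRingHom (rmap φ e) R)
      (D.map (rmap φ e)) fun i => φ (ρ i) := by
  obtain ⟨E, u, h₁, h₂, hE, rfl, c1, c2, e1, hi⟩ := z
  refine ⟨E.map (rmap φ e), u.map φ, rmap φ e h₁, rmap φ e h₂, nu_map φ e hE,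
    (pic.2 _ _ _ (rmap_inj φ e) E (k.inv hE)).symm, by rw [l, c1, map_one], by rw [l, c2, map_one],
    ?_, fun i => ?_⟩
  · have := congrArg (Ideal.map (rmap φ e)) e1
    rwa [Ideal.map_mul, Ideal.map_mul, Ideal.map_pow, Ideal.map_span, Ideal.map_span,
      Set.image_singleton, Set.image_singleton] at this
  · obtain ⟨p0, p1, p2, p3⟩ := hi i
    have r : ∀ h : Rg f, (rmap φ e h).re.eval (φ (a i)) = φ (h.re.eval (a i)) :=
      fun h => ev_map φ _ _
    simp only [r, ev_map, nb_map, ← map_mul, p3, ne_eq, map_eq_zero]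
    exact ⟨p0, p1, p2, trivial⟩

end Zed

theorem zed : PICStmt → MUMStmt → LCStmt → GREPStmt → ZEDStmt := by
  intro pic mum lcs grep K ι _ _ _ g a f hc
  have k := Zed.kit mum lcs hc
  obtain ⟨⟨m1, m2, -, dom⟩, -, -, -, -, -, -, -, -, n0, -⟩ := mum K ι g a f hc
  refine ⟨fun _ _ _ _ z hw => Zed.za pic k z hw, fun R D w hw w0 e => ?_,
    fun _ _ _ _ _ _ z z' => Zed.zc pic k z z', fun _ _ _ _ _ z z' => Zed.zd pic k z z',
    Zed.ze pic k, fun L _ φ F e R D ρ z => ?_⟩
  · obtain ⟨U, V, ⟨u1, u2, u3⟩, rfl⟩ := grep K ι g a f hc R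
    exact Zed.zb pic k hw w0 (n0 U V u1 u2) u3 e
  · have : CharZero L := (RingHom.charZero_iff φ.injective).1 inferInstance
    have := (mum L ι g _ F (Zed.cv_map φ e hc)).1.2.2.2
    exact Zed.zf φ e pic k
      ((lcs K f m1 (m2 ▸ odd_two_mul_add_one g)).2.2.2.2.2.2 L φ F e) z

end Pool.Agent.MP_a43263_nt.JC

end
end MrgPart3

-- ======== part 4: formerly Pool.Agent.MP_a43263_nt.JC.Zt
section MrgPart4

/-! THEOREM J: the 2-torsion of the Jacobian and the sign vectors of product one. -/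

set_option autoImplicit false

noncomputable section

namespace Pool.Agent.MP_a43263_nt.JC

open Polynomial Finset

namespace Zt

variable {K ι : Type} [Field K] [CharZero K] [Fintype ι] {g : ℕ} {a : ι → K} {f : K[X]}

open Classical in
/-- the sign vector of the Weierstrass point `i` -/
def ev (K : Type) [Field K] {ι : Type} (i k : ι) : K := if k = i then 1 else -1

theorem cl_span (pic : PICStmt) {R : Type} [CommRing R] [IsDomain R] {x : R} (hx : x ≠ 0) :
    cl (Ideal.span {x}) = 1 := by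
  obtain ⟨-, p2, -, p4⟩ := pic.1 R
  rw [← p2, p4 _ _ ⟨⊤, x, hx, by simp⟩ ⟨⊤, 1, one_ne_zero, by simp⟩]
  exact ⟨1, x, one_ne_zero, hx, by simp⟩

omit [CharZero K] in
theorem mk_ne {u : K[X]} (hu : u ≠ 0) : (⟨u, 0⟩ : Rg f) ≠ 0 := fun e =>
  hu (congrArg QuadraticAlgebra.re e)

theorem zw (pic : PICStmt) (mum : MUMStmt) (h : Cv g a f) (i : ι) :
    Z a f (cl (MI f (X - C (a i)) 0)) ⊤ (ev K i) := by
  classical
  obtain ⟨⟨-, hd, -, hdom⟩, -, m2, m3, m4, m5, -, -, -, m9, -, -, -, -, m14, -⟩ :=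
    mum K ι g a f h
  obtain ⟨-, -, p3, -⟩ := pic.1 (Rg f)
  have hg := h.pos
  obtain ⟨V, hV⟩ : ∃ V : K[X], V = X - C (a i) := ⟨_, rfl⟩
  obtain ⟨P, hP⟩ : ∃ P : K[X], P = ∏ k ∈ univ.erase i, (X - C (a k)) := ⟨_, rfl⟩
  have hf : f = V * P := by
    rw [h.eq, fp, hV, hP, Finset.mul_prod_erase univ (fun k => X - C (a k)) (mem_univ i)]
  have mV : V.Monic := hV ▸ monic_X_sub_C _
  have mP : P.Monic := hP ▸ monic_prod_of_monic _ _ fun k _ => monic_X_sub_C _
  have dV : V.natDegree = 1 := hV ▸ natDegree_X_sub_C _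
  have dP : P.natDegree = 2 * g := by
    rw [hf, mV.natDegree_mul mP, dV] at hd; omega
  have lt : V.natDegree < P.natDegree := by omega
  have mU : (P - V).Monic := mP.sub_of_left (degree_lt_degree lt)
  have mH : (P + V).Monic := mP.add_of_left (degree_lt_degree lt)
  have dU : (P - V).natDegree = 2 * g := by rw [natDegree_sub_eq_left_of_natDegree_lt lt, dP]
  have dH : (P + V).natDegree = 2 * g := by rw [natDegree_add_eq_left_of_natDegree_lt lt, dP]
  have hUV : (P - V) * V = f - V ^ 2 := by rw [hf]; ring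
  have dv : V ∣ f - 0 ^ 2 := ⟨P, by rw [hf]; ring⟩
  have nE := m9 (P - V) V mU ⟨V, hUV.symm⟩
  have nM := m9 V 0 mV dv
  have hEM : MI f (P - V) V * MI f V 0 = Ideal.span {⟨-V, 1⟩} := by
    rw [← m5 V V 0 (by simp), m3 _ _ _ (hUV ▸ dvd_rfl), hUV, m4]
  have hMM : MI f V 0 * MI f V 0 = PI f V := by simpa only [neg_zero] using m2 V 0 dv
  have y0 : (⟨-V, 1⟩ : Rg f) ≠ 0 := fun e => one_ne_zero (congrArg QuadraticAlgebra.im e)
  have cE : cl (MI f (P - V) V) = cl (MI f V 0) := by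
    apply mul_right_cancel (b := cl (MI f V 0))
    rw [← p3 _ _ (m14 _ _ nE).2.1 (m14 _ _ nM).2.1, ← p3 _ _ (m14 _ _ nM).2.1 (m14 _ _ nM).2.1,
      hEM, hMM, PI, cl_span pic y0, cl_span pic (mk_ne mV.ne_zero)]
  have hE2 : Ideal.span {(⟨P + V, -2⟩ : Rg f)} = MI f (P - V) V ^ 2 := by
    rw [← Ideal.span_singleton_mul_right_inj (mk_ne (f := f) mV.ne_zero),
      Ideal.span_singleton_mul_span_singleton]
    have e : (⟨V, 0⟩ : Rg f) * ⟨P + V, -2⟩ = ⟨-V, 1⟩ * ⟨-V, 1⟩ := by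
      ext1 <;> simp only [QuadraticAlgebra.re_mul, QuadraticAlgebra.im_mul]
      · rw [hf]; ring
      · ring
    rw [e, ← Ideal.span_singleton_mul_span_singleton, ← hEM, ← PI, ← hMM]; ring
  have vi : V.eval (a i) = 0 := by simp [hV]
  have pi : P.eval (a i) ≠ 0 := by
    rw [hP, eval_prod]
    exact prod_ne_zero_iff.2 fun k hk => by
      simpa [sub_eq_zero] using fun e => (mem_erase.1 hk).1 (h.inj e).symm
  have vk : ∀ k, k ≠ i → V.eval (a k) ≠ 0 := fun k hk => by
    simpa [hV, sub_eq_zero] using fun e => hk (h.inj e)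
  have pk : ∀ k, k ≠ i → P.eval (a k) = 0 := fun k hk => by
    rw [hP, eval_prod]
    exact prod_eq_zero (mem_erase.2 ⟨hk, mem_univ _⟩) (by simp)
  rw [← hV]
  refine ⟨MI f (P - V) V, P - V, ⟨P + V, -2⟩, 1, nE, cE, ?_, ?_, by simp [hE2], fun k => ?_⟩
  · have d2 : (-2 : K[X]).natDegree = 0 := by simp
    unfold lc
    rw [if_pos (Or.inr (by simp only [d2, dH, hd]; omega))]
    exact mH
  · unfold lc
    rw [if_pos (Or.inl QuadraticAlgebra.im_one)]
    exact leadingCoeff_one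
  · simp only [nb, dU, pow_mul, neg_one_sq, one_pow, one_mul, QuadraticAlgebra.re_one, eval_one,
      mul_one, eval_sub, eval_add, ev]
    by_cases hk : k = i
    · subst hk; simp [vi, pi]
    · simp [pk k hk, vk k hk, hk]

theorem zs (pic : PICStmt) (mum : MUMStmt) (zed : ZEDStmt) (h : Cv g a f) (S : Finset ι) :
    Z a f (cl (MI f (∏ i ∈ S, (X - C (a i))) 0)) ⊤ fun k => ∏ i ∈ S, ev K i k := by
  classical
  obtain ⟨⟨-, -, -, hdom⟩, -, -, m3, -, -, -, m7, -, m9, -, -, -, -, m14, -⟩ := mum K ι g a f h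
  obtain ⟨-, p2, p3, -⟩ := pic.1 (Rg f)
  obtain ⟨-, -, z3, -, z5, -⟩ := zed K ι g a f h
  have dv : ∀ T : Finset ι, (∏ i ∈ T, (X - C (a i))) ∣ f - 0 ^ 2 := fun T => by
    rw [h.eq, fp]; simpa using prod_dvd_prod_of_subset T univ _ (subset_univ T)
  induction S using Finset.induction_on with
  | empty => rw [prod_empty, m7, p2]; exact (z5 _).2 fun _ => prod_empty
  | insert i S hi ih =>
    have d := dv (insert i S)
    rw [prod_insert hi] at d
    have := z3 _ _ _ _ _ _ (zw pic mum h i) ih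
    rw [← p3 _ _ (m14 _ _ (m9 _ _ (monic_X_sub_C _) (dvd_of_mul_right_dvd d))).2.1
      (m14 _ _ (m9 _ _ (monic_prod_of_monic _ _ fun k _ => monic_X_sub_C _) (dv S))).2.1,
      m3 _ _ _ d, Ideal.top_mul] at this
    simpa only [prod_insert hi] using this

omit [CharZero K] [Fintype ι] in
theorem ev_out {S : Finset ι} {k : ι} (hk : k ∉ S) : ∏ i ∈ S, ev K i k = (-1) ^ S.card := by
  rw [← prod_const]
  exact prod_congr rfl fun i hi => if_neg fun e : k = i => hk (e ▸ hi)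

omit [CharZero K] [Fintype ι] in
theorem ev_in {S : Finset ι} {k : ι} (hk : k ∈ S) : ∏ i ∈ S, ev K i k = -(-1) ^ S.card := by
  classical
  rw [← mul_prod_erase S (fun i => ev K i k) hk, ev_out (notMem_erase k S),
    ← card_erase_add_one hk, pow_succ]
  simp [ev]

omit [CharZero K] in
theorem ev_prod (h : Cv g a f) (i : ι) : ∏ k, ev K i k = 1 := by
  classical
  have e : ∏ k ∈ univ.erase i, ev K i k = ∏ k ∈ univ.erase i, (-1 : K) :=
    prod_congr rfl fun k hk => if_neg (mem_erase.1 hk).1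
  rw [← mul_prod_erase univ (fun k => ev K i k) (mem_univ i), e, prod_const,
    card_erase_of_mem (mem_univ i), card_univ, h.card]
  simp [ev, pow_mul]

theorem two (pic : PICStmt) (mum : MUMStmt) (red : REDStmt) (h : Cv g a f)
    (T : CommRing.Pic (Rg f)) (hT : T ^ 2 = 1) :
    ∃ S : Finset ι, S.card ≤ g ∧ cl (MI f (∏ i ∈ S, (X - C (a i))) 0) = T := by
  classical
  obtain ⟨⟨-, -, -, hdom⟩, -, m2, -, -, -, -, -, -, m9, -, -, -, -, m14, -⟩ := mum K ι g a f h
  obtain ⟨-, -, p3, -⟩ := pic.1 (Rg f)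
  obtain ⟨r1, r2⟩ := red K ι g a f h
  obtain ⟨U, V, hr, rfl⟩ := r1 T
  have hr' : Red g f U (-V) := ⟨hr.1, by simpa using hr.2.1, hr.2.2.1, by simpa using hr.2.2.2⟩
  have e : cl (MI f U V) = cl (MI f U (-V)) := by
    apply mul_left_cancel (a := cl (MI f U V))
    rw [← sq, hT, ← p3 _ _ (m14 _ _ (m9 _ _ hr.1 hr.2.1)).2.1 (m14 _ _ (m9 _ _ hr.1 hr'.2.1)).2.1,
      m2 _ _ hr.2.1, PI, cl_span pic (mk_ne hr.1.ne_zero)]
  have v0 : V = 0 := self_eq_neg.1 (r2 _ _ _ _ hr hr' e).2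
  subst v0
  obtain ⟨U', hU⟩ := hr.2.1
  obtain ⟨S, S', b, c, -, -, hbc, hS, -⟩ := mul_eq_mul_prime_prod (x := U) (y := U') (a := 1)
    (s := univ) (p := fun i => X - C (a i)) (fun i _ => prime_X_sub_C _)
    (by rw [← hU, h.eq, fp]; ring)
  have mS : (∏ i ∈ S, (X - C (a i))).Monic := monic_prod_of_monic _ _ fun k _ => monic_X_sub_C _
  have b1 : b = 1 :=
    (mS.of_mul_monic_right (hS ▸ hr.1)).eq_one_of_isUnit (IsUnit.of_mul_eq_one c hbc.symm)
  rw [b1, one_mul] at hS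
  refine ⟨S, ?_, by rw [← hS]⟩
  have := hr.2.2.1
  rwa [hS, natDegree_prod_of_monic _ _ fun k _ => monic_X_sub_C _,
    sum_congr rfl fun k _ => natDegree_X_sub_C (a k), ← card_eq_sum_ones] at this

end Zt

theorem zt : PICStmt → MUMStmt → LCStmt → REDStmt → ZEDStmt → ZTStmt := by
  intro pic mum _ red zed K ι _ _ _ g a f h
  classical
  obtain ⟨⟨-, -, -, hdom⟩, -, -, -, -, -, -, m7, -, -, -, m11, -⟩ := mum K ι g a f h
  obtain ⟨-, p2, -⟩ := pic.1 (Rg f)
  obtain ⟨z1, -, -, z4, z5, -⟩ := zed K ι g a f h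
  refine ⟨fun T ε hz => ?_, fun ε h1 h2 => ?_⟩
  · obtain ⟨t2, e2⟩ := z1 _ _ _ _ hz m11
    obtain ⟨S, hS, rfl⟩ := Zt.two pic mum red h T (t2.trans p2)
    have := z4 _ _ _ _ _ hz (Zt.zs pic mum zed h S)
    rw [div_self', z5] at this
    have e : ∀ k, ε k = ∏ i ∈ S, Zt.ev K i k := fun k => (eq_of_div_eq_one (this k)).symm
    refine ⟨?_, fun h1 => ?_⟩
    · rw [prod_congr rfl fun k _ => e k, prod_comm]
      exact prod_eq_one fun i _ => Zt.ev_prod h i
    · rcases S.eq_empty_or_nonempty with rfl | ⟨k, hk⟩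
      · rw [prod_empty, m7, p2]
      · obtain ⟨l, hl⟩ : ∃ l, l ∉ S := by
          by_contra hc
          push Not at hc
          have := h.card
          rw [eq_univ_of_forall hc, card_univ] at hS
          omega
        have a1 := e k
        have a2 := e l
        rw [h1, Zt.ev_in hk] at a1
        rw [h1, Zt.ev_out hl] at a2
        rw [← a2] at a1
        norm_num at a1
  · have pm : ∀ k, ε k = 1 ∨ ε k = -1 := fun k => sq_eq_one_iff.1 (h1 k)
    have hc : ((-1 : K)) ^ (univ.filter fun k => ε k = -1).card = 1 := by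
      rw [← prod_const, prod_filter]
      refine (prod_congr rfl fun k _ => ?_).trans h2
      split_ifs with hk
      · exact hk.symm
      · exact ((pm k).resolve_right hk).symm
    have e : (fun k => ∏ i ∈ univ.filter fun k => ε k = -1, Zt.ev K i k) = ε := by
      funext k
      by_cases hk : ε k = -1
      · rw [Zt.ev_in (by simpa using hk), hc, hk]
      · rw [Zt.ev_out (by simpa using hk), hc, (pm k).resolve_right hk]
    have := Zt.zs pic mum zed h (univ.filter fun k => ε k = -1)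
    rw [e] at this
    exact ⟨_, this⟩

namespace Zt

variable {K ι : Type} [Field K] [CharZero K] [Fintype ι] {g : ℕ} {a : ι → K} {f : K[X]}

theorem uniq (zed : ZEDStmt) (zt : ZTStmt) (h : Cv g a f) {T T' : CommRing.Pic (Rg f)}
    {ε : ι → K} (h0 : ∀ i, ε i ^ 2 = 1) (h1 : Z a f T ⊤ ε) (h2 : Z a f T' ⊤ ε) : T' = T := by
  obtain ⟨-, -, -, z4, -⟩ := zed K ι g a f h
  refine div_eq_one.1 (((zt K ι g a f h).1 _ _ (z4 _ _ _ _ _ h1 h2)).2 fun i => div_self ?_)
  intro e
  simpa [e] using h0 i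

theorem card_sg (h : Fintype.card ι = 2 * g + 1) :
    Nat.card {ε : ι → ℤˣ // ∏ i, ε i = 1} = 2 ^ (2 * g) := by
  classical
  let φ : (ι → ℤˣ) →* ℤˣ := ∏ i, Pi.evalMonoidHom (fun _ => ℤˣ) i
  have hφ : ∀ ε, φ ε = ∏ i, ε i := fun ε => by simp [φ]
  have hs : φ.range = ⊤ := MonoidHom.range_eq_top.2 fun u => ⟨fun _ => u, by
    rw [hφ, prod_const, card_univ, h, pow_succ, pow_mul, Int.units_sq, one_pow, one_mul]⟩
  have := φ.ker.card_mul_index
  rw [Subgroup.index_ker, hs, Subgroup.card_top, Nat.card_fun, Nat.card_eq_fintype_card (α := ℤˣ),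
    Fintype.card_units_int, Nat.card_eq_fintype_card (α := ι), h, pow_succ] at this
  rw [← Nat.eq_of_mul_eq_mul_right two_pos this]
  exact Nat.card_congr (Equiv.subtypeEquivRight fun ε => by rw [MonoidHom.mem_ker, hφ])

theorem card_two (pic : PICStmt) (mum : MUMStmt) (zed : ZEDStmt) (zt : ZTStmt) (h : Cv g a f) :
    Nat.card {T : CommRing.Pic (Rg f) // T ^ 2 = 1} = 2 ^ (2 * g) := by
  obtain ⟨⟨-, -, -, hdom⟩, -, -, -, -, -, -, -, -, -, -, m11, -⟩ := mum K ι g a f h
  obtain ⟨-, p2, -⟩ := pic.1 (Rg f)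
  obtain ⟨z1, z2, -, z4, z5, -⟩ := zed K ι g a f h
  obtain ⟨t1, t2⟩ := zt K ι g a f h
  have sq : ∀ (ε : ι → ℤˣ) i, (((ε i : ℤ) : K)) ^ 2 = 1 := fun ε i => by
    rw [← Int.cast_pow, ← Units.val_pow_eq_pow_val, Int.units_sq]; simp
  have pr : ∀ ε : ι → ℤˣ, ∏ i, ((ε i : ℤ) : K) = ((∏ i, ε i : ℤˣ) : ℤ) := fun ε => by simp
  have ex : ∀ ε : {ε : ι → ℤˣ // ∏ i, ε i = 1}, ∃ T : {T : CommRing.Pic (Rg f) // T ^ 2 = 1},
      Z a f T ⊤ fun i => ((ε.1 i : ℤ) : K) := fun ε => by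
    obtain ⟨T, hT⟩ := t2 _ (sq ε.1) (by rw [pr, ε.2]; simp)
    exact ⟨⟨T, (z1 _ _ _ _ hT m11).1.trans p2⟩, hT⟩
  choose Φ hΦ using ex
  rw [← card_sg h.card]
  refine (Nat.card_eq_of_bijective Φ ⟨fun ε ε' e => ?_, fun T => ?_⟩).symm
  · have := z4 _ _ _ _ _ (hΦ ε) (e ▸ hΦ ε')
    rw [div_self', z5] at this
    refine Subtype.ext (funext fun i => Units.ext (Int.cast_injective (α := K) ?_))
    exact (eq_of_div_eq_one (this i)).symm
  · obtain ⟨ρ, hρ⟩ := z2 T ⊤ 1 m11 (by simp) (T.2.trans p2.symm)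
    have r2 : ∀ i, ρ i ^ 2 = 1 := fun i => by simpa [nb] using (z1 _ _ _ _ hρ m11).2 i
    have : ∀ i, ∃ u : ℤˣ, ((u : ℤ) : K) = ρ i := fun i => by
      rcases sq_eq_one_iff.1 (r2 i) with e | e
      · exact ⟨1, by simp [e]⟩
      · exact ⟨-1, by simp [e]⟩
    choose ε hε using this
    obtain rfl : (fun i => ((ε i : ℤ) : K)) = ρ := funext hε
    have e1 : ∏ i, ε i = 1 := Units.ext (Int.cast_injective (α := K) (by
      rw [← pr, (t1 _ _ hρ).1]; simp))
    exact ⟨⟨ε, e1⟩, Subtype.ext (uniq zed zt h r2 hρ (hΦ ⟨ε, e1⟩))⟩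

end Zt

theorem tor : PICStmt → MUMStmt → ZEDStmt → ZTStmt → TORStmt := by
  intro pic mum zed zt ι _ g a h
  have h' : Cv g (fun i => (a i : AlgebraicClosure ℚ)) (fK (fp a) (AlgebraicClosure ℚ)) :=
    ⟨h.card, h.pos, fun i j e => h.inj (Rat.cast_injective e), by
      simp [fK, fp, Polynomial.map_prod]⟩
  rw [← Zt.card_two pic mum zed zt h']
  obtain ⟨⟨-, -, -, hdom⟩, -, -, -, -, -, -, -, -, -, -, m11, -⟩ := mum _ ι g _ _ h'
  obtain ⟨-, p2, -⟩ := pic.1 (Rg (fK (fp a) (AlgebraicClosure ℚ)))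
  obtain ⟨z1, z2, -, -, -, z6⟩ := zed _ ι g _ _ h'
  have inv : ∀ T : CommRing.Pic (Rg (fK (fp a) (AlgebraicClosure ℚ))), T ^ 2 = 1 →
      Additive.ofMul T ∈ JQ (fp a) := fun T hT σ => by
    obtain ⟨ρ, hρ⟩ := z2 T ⊤ 1 m11 (by simp) (hT.trans p2.symm)
    have r2 : ∀ i, ρ i ^ 2 = 1 := fun i => by simpa [nb] using (z1 _ _ _ _ hρ m11).2 i
    have := z6 _ (σ : AlgebraicClosure ℚ →+* AlgebraicClosure ℚ) _ (fK_map _ _) _ _ _ hρ
    have e : (fun i => (σ : AlgebraicClosure ℚ →+* AlgebraicClosure ℚ) (ρ i)) = ρ :=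
      funext fun i => by rcases sq_eq_one_iff.1 (r2 i) with e | e <;> simp [e]
    simp only [map_ratCast, Ideal.map_top, e] at this
    exact congrArg Additive.ofMul (Zt.uniq zed zt h' r2 hρ this)
  exact Nat.card_congr
    { toFun := fun P => ⟨Additive.toMul P.1.1, congrArg (fun Q => Additive.toMul Q.1) P.2⟩
      invFun := fun T => ⟨⟨Additive.ofMul T.1, inv T.1 T.2⟩,
        Subtype.ext (congrArg Additive.ofMul T.2)⟩
      left_inv := fun _ => rfl
      right_inv := fun _ => rfl }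

end Pool.Agent.MP_a43263_nt.JC

end
end MrgPart4

-- ======== part 5: formerly Pool.Agent.MP_a43263_nt.JC.Half
section MrgPart5

/-! THEOREM J: the Picard group over an algebraically closed field is divisible by two. -/

set_option autoImplicit false

noncomputable section

namespace Pool.Agent.MP_a43263_nt.JC

open Polynomial Finset

namespace Half

theorem norm_form {K ι : Type} [Field K] [IsAlgClosed K] (a : ι → K) (x0 : K) (s : Finset ι) :
    ∃ A B : K[X], (∏ i ∈ s, (X - C (a i))) - A ^ 2 = (X - C x0) * B * B := by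
  classical
  induction s using Finset.induction_on with
  | empty => exact ⟨1, 0, by simp⟩
  | insert i s hi ih =>
    obtain ⟨A, B, h⟩ := ih
    obtain ⟨r, hr⟩ := IsAlgClosed.exists_pow_nat_eq (x0 - a i) (by norm_num : 0 < 2)
    have hr' : (C r : K[X]) ^ 2 = C x0 - C (a i) := by rw [← C_pow, hr, C_sub]
    refine ⟨C r * A - (X - C x0) * B, A + C r * B, ?_⟩
    rw [Finset.prod_insert hi]
    linear_combination (X - C (a i)) * h - (A ^ 2 + (X - C x0) * B ^ 2) * hr'

theorem inv_span {R : Type} [CommRing R] (h : R) (hh : h ≠ 0) : Inv (Ideal.span {h}) :=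
  ⟨⊤, h, hh, Ideal.mul_top _⟩

theorem cl_span (pic : PICStmt) {R : Type} [CommRing R] [IsDomain R] (h : R) (hh : h ≠ 0) :
    cl (Ideal.span {h}) = 1 := by
  obtain ⟨-, h1, -, h3⟩ := pic.1 R
  have ht : Inv (⊤ : Ideal R) := by
    have := inv_span (1 : R) one_ne_zero
    rwa [Ideal.span_singleton_one] at this
  rw [← h1]
  exact (h3 _ _ (inv_span h hh) ht).mpr ⟨1, h, one_ne_zero, hh, by simp⟩

theorem mk_ne {K : Type} [Field K] {f u : K[X]} (hu : u ≠ 0) : (⟨u, 0⟩ : Rg f) ≠ 0 :=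
  fun h => hu (congrArg QuadraticAlgebra.re h)

end Half

open Half in
theorem half : PICStmt → MUMStmt → STRStmt → HALFStmt := by
  intro pic mum str K ι _ _ _ _ g a f hC x
  obtain ⟨⟨hm, hdeg, -, hdom⟩, -, m3, m4, m5, m6, -, m8, -⟩ := mum K ι g a f hC
  obtain ⟨p1, p2, p3, -⟩ := pic.1 (Rg f)
  have hinv : ∀ U V : K[X], U ≠ 0 → U ∣ f - V ^ 2 → Inv (MI f U V) := fun U V hU hd =>
    ⟨MI f U (-V), ⟨U, 0⟩, mk_ne hU, m3 U V hd⟩
  have hmul : ∀ U U' V : K[X], U * U' ≠ 0 → U * U' ∣ f - V ^ 2 →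
      cl (MI f (U * U') V) = cl (MI f U V) * cl (MI f U' V) := fun U U' V h0 hd => by
    rw [← m4 U U' V hd]
    exact p3 _ _ (hinv U V (left_ne_zero_of_mul h0) ((dvd_mul_right U U').trans hd))
      (hinv U' V (right_ne_zero_of_mul h0) ((dvd_mul_left U' U).trans hd))
  have hpt0 : ∀ (x0 : K) (A B : K[X]), f - A ^ 2 = (X - C x0) * B * B →
      ∃ R, R ^ 2 = cl (MI f (X - C x0) A) := by
    intro x0 A B h
    have h0 : (X - C x0) * B * B ≠ 0 := by
      rw [← h]
      intro h1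
      have h2 : f = A ^ 2 := sub_eq_zero.mp h1
      have h3 := congrArg natDegree h2
      rw [hdeg, natDegree_pow] at h3
      omega
    have hd : (X - C x0) * B * B ∣ f - A ^ 2 := h ▸ dvd_rfl
    have h1 : cl (MI f ((X - C x0) * B * B) A) = 1 := by
      rw [← h, m5 A]
      exact cl_span pic _ fun h2 => one_ne_zero (congrArg QuadraticAlgebra.im h2)
    rw [hmul _ _ _ h0 hd, hmul _ _ _ (left_ne_zero_of_mul h0) ((dvd_mul_right _ B).trans hd)] at h1
    refine ⟨(cl (MI f B A))⁻¹, ?_⟩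
    rw [mul_assoc, ← sq] at h1
    rw [inv_pow]
    exact (eq_inv_of_mul_eq_one_left h1).symm
  have hpt : ∀ (x0 : K) (V : K[X]), (X - C x0) ∣ f - V ^ 2 →
      ∃ R, R ^ 2 = cl (MI f (X - C x0) V) := by
    intro x0 V hd
    obtain ⟨A, B, h⟩ := norm_form a x0 univ
    have hf : f = ∏ i, (X - C (a i)) := hC.eq
    rw [← hf] at h
    have h1 : (X - C x0) ∣ (V - A) * (V - -A) := by
      have h2 : (V - A) * (V - -A) = (X - C x0) * (B * B) - (f - V ^ 2) := by
        linear_combination h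
      rw [h2]
      exact dvd_sub (dvd_mul_right _ _) hd
    rcases (prime_X_sub_C x0).dvd_or_dvd h1 with h2 | h2
    · rw [m6 _ _ _ h2]; exact hpt0 x0 A B h
    · rw [m6 _ _ _ h2]; exact hpt0 x0 (-A) B (by rw [neg_sq]; exact h)
  have hall : ∀ (n : ℕ) (U V : K[X]), U.natDegree = n → U.Monic → U ∣ f - V ^ 2 →
      ∃ R, R ^ 2 = cl (MI f U V) := by
    intro n
    induction n with
    | zero =>
      intro U V hn hU _
      rw [hU.natDegree_eq_zero.mp hn, m8, p2]
      exact ⟨1, one_pow 2⟩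
    | succ n ih =>
      intro U V hn hU hd
      obtain ⟨x0, hx⟩ := IsAlgClosed.exists_root U
        (by rw [degree_eq_natDegree hU.ne_zero, hn]; exact_mod_cast Nat.succ_ne_zero n)
      obtain ⟨U', rfl⟩ := dvd_iff_isRoot.mpr hx
      have hU' : U'.Monic := (monic_X_sub_C x0).of_mul_monic_left hU
      have hn' : U'.natDegree = n := by
        rw [(monic_X_sub_C x0).natDegree_mul hU', natDegree_X_sub_C] at hn
        omega
      obtain ⟨R1, h1⟩ := hpt x0 V ((dvd_mul_right _ _).trans hd)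
      obtain ⟨R2, h2⟩ := ih U' V hn' hU' ((dvd_mul_left _ _).trans hd)
      exact ⟨R1 * R2, by rw [hmul _ _ _ hU.ne_zero hd, mul_pow, h1, h2]⟩
  obtain ⟨I, ⟨J, c, hc, hIJ⟩, rfl⟩ := p1 x
  have hI : I ≠ ⊥ := by
    rintro rfl
    rw [Ideal.bot_mul, eq_comm, Ideal.span_singleton_eq_bot] at hIJ
    exact hc hIJ
  obtain ⟨s, U, V, hs, hU, hd, rfl⟩ := str K f I hdom hI
  obtain ⟨R, hR⟩ := hall _ U V rfl hU hd
  refine ⟨R, ?_⟩
  rw [PI, p3 _ _ (inv_span _ (mk_ne hs.ne_zero)) (hinv U V hU.ne_zero hd),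
    cl_span pic _ (mk_ne hs.ne_zero), one_mul, hR]

end Pool.Agent.MP_a43263_nt.JC

end
end MrgPart5

-- ======== part 6: formerly Pool.Agent.MP_a43263_nt.JC.Rat
section MrgPart6

/-! THEOREM J: invariant classes are rational, stabilisers are open. -/

set_option autoImplicit false

noncomputable section

namespace Pool.Agent.MP_a43263_nt.JC

open Polynomial Filter Topology

namespace RatA

variable {K L ι : Type} [Field K] [Field L] [Fintype ι] {g : ℕ} {a : ι → K} {f : K[X]} {F : L[X]}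

theorem map_MI (φ : K →+* L) (e : f.map φ = F) (U V : K[X]) :
    (MI f U V).map (rmap φ e) = MI F (U.map φ) (V.map φ) := by
  rw [MI, Ideal.map_span, Set.image_pair, MI]
  congr 2 <;> ext1 <;> simp [rmap]

theorem rmap_inj (φ : K →+* L) (e : f.map φ = F) : Function.Injective (rmap φ e) := fun _ _ h =>
  QuadraticAlgebra.ext (map_injective φ φ.injective (congrArg QuadraticAlgebra.re h))
    (map_injective φ φ.injective (congrArg QuadraticAlgebra.im h))

theorem cv_map (h : Cv g a f) (φ : K →+* L) (e : f.map φ = F) : Cv g (fun i => φ (a i)) F :=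
  ⟨h.card, h.pos, φ.injective.comp h.inj, by
    rw [← e, h.eq, fp, fp, Polynomial.map_prod]
    simp⟩

theorem dvd_map (φ : K →+* L) (e : f.map φ = F) {U V : K[X]} :
    U.map φ ∣ F - V.map φ ^ 2 ↔ U ∣ f - V ^ 2 := by
  rw [← map_dvd_map' φ, Polynomial.map_sub, Polynomial.map_pow, e]

theorem red_map (φ : K →+* L) (e : f.map φ = F) {U V : K[X]} (h : Red g f U V) :
    Red g F (U.map φ) (V.map φ) :=
  ⟨h.1.map φ, (dvd_map φ e).2 h.2.1, by rw [natDegree_map]; exact h.2.2.1,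
    by rw [degree_map, degree_map]; exact h.2.2.2⟩

/-- the class of a Mumford ideal is moved coefficientwise -/
theorem cl_map (pic : PICStmt) (mum : MUMStmt) [CharZero K] [CharZero L] (h : Cv g a f)
    (φ : K →+* L) (e : f.map φ = F) {U V : K[X]} (h1 : U.Monic) (h2 : U ∣ f - V ^ 2) :
    CommRing.Pic.mapRingHom (rmap φ e) (cl (MI f U V)) = cl (MI F (U.map φ) (V.map φ)) := by
  obtain ⟨⟨-, -, -, d⟩, -, -, -, -, -, -, -, -, m, -, -, -, -, n, -⟩ := mum K ι g a f h
  have d' := (mum L ι g _ F (cv_map h φ e)).1.2.2.2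
  rw [pic.2 _ _ _ (rmap_inj φ e) _ (n _ _ (m U V h1 h2)).2.1, map_MI]

theorem lift [CharZero K] {U : (AlgebraicClosure K)[X]}
    (h : ∀ σ : AlgebraicClosure K ≃ₐ[K] AlgebraicClosure K,
      U.map (σ : AlgebraicClosure K →+* AlgebraicClosure K) = U) :
    ∃ U0 : K[X], U0.map (algebraMap K _) = U := by
  refine (mem_lifts U).1 ((lifts_iff_coeff_lifts U).2 fun n => ?_)
  refine (InfiniteGalois.mem_range_algebraMap_iff_fixed (k := K) (U.coeff n)).2 fun σ => ?_
  simpa using congrArg (fun p => p.coeff n) (h σ)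

theorem ev_apply [Algebra K L] [Algebra.IsIntegral K L] (σ0 : L ≃ₐ[K] L) (x : L) :
    ∀ᶠ σ in 𝓝 σ0, σ x = σ0 x := by
  have h1 : (MulAction.stabilizer (L ≃ₐ[K] L) x : Set (L ≃ₐ[K] L)) ∈ 𝓝 (σ0⁻¹ * σ0) := by
    rw [inv_mul_cancel]
    exact (stabilizer_isOpen_of_isIntegral x).mem_nhds (Subgroup.one_mem _)
  filter_upwards [(continuous_const_mul σ0⁻¹).continuousAt.preimage_mem_nhds h1] with σ hσ
  have : σ0⁻¹ (σ x) = x := hσ
  exact (σ0.apply_symm_apply _).symm.trans (congrArg σ0 this)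

theorem ev_map [Algebra K L] [Algebra.IsIntegral K L] (σ0 : L ≃ₐ[K] L) (U : L[X]) :
    ∀ᶠ σ : L ≃ₐ[K] L in 𝓝 σ0, U.map (σ : L →+* L) = U.map (σ0 : L →+* L) := by
  filter_upwards [(eventually_all_finset U.support).2 fun n _ => ev_apply σ0 (U.coeff n)] with σ hσ
  ext n
  by_cases c : n ∈ U.support
  · simpa using hσ n c
  · simp [notMem_support_iff.1 c]

end RatA

open RatA

theorem rat (pic : PICStmt) (mum : MUMStmt) (red : REDStmt) (grep : GREPStmt) : RATStmt := by
  intro K ι _ _ _ g a f F h e P hP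
  have h' := cv_map h _ e
  obtain ⟨U, V, hr, rfl⟩ := (red _ ι g _ F h').1 P
  have k : ∀ σ : AlgebraicClosure K ≃ₐ[K] AlgebraicClosure K,
      U.map (σ : AlgebraicClosure K →+* AlgebraicClosure K) = U ∧
        V.map (σ : AlgebraicClosure K →+* AlgebraicClosure K) = V := by
    intro σ
    have e' : F.map (σ : AlgebraicClosure K →+* AlgebraicClosure K) = F := by
      rw [← e, Polynomial.map_map]
      congr 1
      exact RingHom.ext fun x => σ.commutes x
    exact (red _ ι g _ F h').2 _ _ _ _ (red_map _ e' hr) hr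
      ((cl_map pic mum h' _ e' hr.1 hr.2.1).symm.trans (hP σ e'))
  obtain ⟨U0, rfl⟩ := lift fun σ => (k σ).1
  obtain ⟨V0, rfl⟩ := lift fun σ => (k σ).2
  obtain ⟨U1, V1, h1, h2⟩ := grep K ι g a f h (cl (MI f U0 V0))
  refine ⟨U1, V1, h1, ?_⟩
  rw [← cl_map pic mum h _ e h1.1 h1.2.1, h2,
    cl_map pic mum h _ e (monic_of_injective (RingHom.injective _) hr.1) ((dvd_map _ e).1 hr.2.1)]

theorem stab (pic : PICStmt) (mum : MUMStmt) (red : REDStmt) : STABStmt := by
  intro ι _ g a h R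
  have h' := cv_map h (Rat.castHom (AlgebraicClosure ℚ)) rfl
  obtain ⟨U, V, hr, e⟩ := (red _ ι g _ _ h').1 R.toMul
  have k : ∀ σ : AlgebraicClosure ℚ ≃ₐ[ℚ] AlgebraicClosure ℚ, jac (fp a) σ R = Additive.ofMul
      (cl (MI _ (U.map (σ : AlgebraicClosure ℚ →+* AlgebraicClosure ℚ))
        (V.map (σ : AlgebraicClosure ℚ →+* AlgebraicClosure ℚ)))) := fun σ => by
    rw [← cl_map pic mum h' _ (fK_map _ _) hr.1 hr.2.1, e]
    rfl
  refine (IsLocallyConstant.iff_eventually_eq _).2 fun σ0 => ?_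
  filter_upwards [ev_map σ0 U, ev_map σ0 V] with σ h1 h2
  rw [k, k, h1, h2]

end Pool.Agent.MP_a43263_nt.JC

end
end MrgPart6

-- ======== part 7: formerly Pool.Agent.MP_a43263_nt.JC.Qs
section MrgPart7

/-! THEOREM J: the quadric attached to a class has a large linear subspace. -/

set_option autoImplicit false

noncomputable section

namespace Pool.Agent.MP_a43263_nt.JC

open Polynomial Finset

namespace Qs

variable {K : Type} [Field K]

theorem rk (n : ℕ) : Module.finrank K (degreeLT K n) = n := by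
  rw [(degreeLTEquiv K n).finrank_eq, Module.finrank_fin_fun]

theorem quo {g : ℕ} (hg : 1 ≤ g) {f U V p b : K[X]} (hf : f.natDegree = 2 * g + 1) (hU : U.Monic)
    (h : U ∣ f - V ^ 2) (hp : p.degree < ((U.natDegree + 1) / 2 + g : ℕ))
    (hb : b.degree < (U.natDegree / 2 : ℕ)) (k : U ∣ p - b * V) :
    ∃ q : K[X], q.natDegree < 2 * g ∧ p ^ 2 - f * b ^ 2 = U * q := by
  obtain ⟨q, hq⟩ : U ∣ p ^ 2 - f * b ^ 2 := by
    rw [show p ^ 2 - f * b ^ 2 = (p - b * V) * (p + b * V) - (f - V ^ 2) * b ^ 2 by ring]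
    exact (k.mul_right _).sub (h.mul_right _)
  refine ⟨q, ?_, hq⟩
  rcases eq_or_ne q 0 with rfl | q0
  · rw [natDegree_zero]
    omega
  have e1 : p.natDegree < (U.natDegree + 1) / 2 + g := by
    rcases eq_or_ne p 0 with rfl | p0
    · rw [natDegree_zero]
      omega
    · exact (natDegree_lt_iff_degree_lt p0).2 hp
  have e2 : (f * b ^ 2).natDegree < U.natDegree + 2 * g := by
    rcases eq_or_ne b 0 with rfl | b0
    · simp only [ne_eq, OfNat.ofNat_ne_zero, not_false_eq_true, zero_pow, mul_zero, natDegree_zero]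
      omega
    · have e3 := (natDegree_lt_iff_degree_lt b0).2 hb
      have e4 := natDegree_mul_le (p := f) (q := b ^ 2)
      rw [natDegree_pow] at e4
      omega
  have e3 := natDegree_sub_le (p ^ 2) (f * b ^ 2)
  rw [hq, natDegree_mul hU.ne_zero q0, natDegree_pow] at e3
  omega

end Qs

open Qs in
theorem qs : QSStmt := by
  rintro K ι _ _ _ g a d hc ⟨U, V, hU, h, hs⟩
  classical
  choose s hs' using fun i => (hs i).2.2
  have fm : (fp a).Monic := monic_prod_of_monic _ _ fun i _ => monic_X_sub_C (a i)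
  have fn : (fp a).natDegree = 2 * g + 1 := by
    rw [fp, natDegree_prod_of_monic _ _ fun i _ => monic_X_sub_C (a i), ← hc.card]
    simp
  have f0 : ∀ i, (fp a).eval (a i) = 0 := fun i => by
    rw [fp, eval_prod]
    exact prod_eq_zero (mem_univ i) (by simp)
  have d0 : ∀ i, fd a i ≠ 0 := fun i =>
    prod_ne_zero_iff.2 fun k hk => sub_ne_zero.2 fun e => (mem_erase.1 hk).1 (hc.inj e).symm
  have s0 : ∀ i, s i ≠ 0 := fun i e => by
    have := hs' i
    rw [e, zero_mul, nb] at this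
    exact mul_ne_zero (hs i).2.1 (mul_ne_zero (pow_ne_zero _ (by simp)) (hs i).1) this
  have fin : ∀ n, FiniteDimensional K (degreeLT K n) := fun n =>
    (degreeLTEquiv K n).symm.finiteDimensional
  let P := degreeLT K ((U.natDegree + 1) / 2 + g) × degreeLT K (U.natDegree / 2)
  let L : P →ₗ[K] K[X] := (Submodule.subtype _).comp (LinearMap.fst _ _ _)
  let Φ : P →ₗ[K] degreeLT K U.natDegree := LinearMap.codRestrict _ ((modByMonicHom U).comp
    (L - ((LinearMap.mulRight K V).comp (Submodule.subtype _)).comp (LinearMap.snd _ _ _)))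
    fun z => mem_degreeLT.2 (degree_eq_natDegree hU.ne_zero ▸ degree_modByMonic_lt _ hU)
  let Ψ : LinearMap.ker Φ →ₗ[K] ι → K := LinearMap.pi fun i =>
    (s i / (U.eval (a i) * d i * fd a i)) • ((leval (a i)).comp L).comp (Submodule.subtype _)
  have key : ∀ z : LinearMap.ker Φ, ∃ q : K[X], q.natDegree < 2 * g ∧
      z.1.1.1 ^ 2 - fp a * z.1.2.1 ^ 2 = U * q ∧
      ∀ i, z.1.1.1.eval (a i) ^ 2 = U.eval (a i) * q.eval (a i) := fun z => by
    obtain ⟨q, h1, h2⟩ := quo hc.pos fn hU h (mem_degreeLT.1 z.1.1.2) (mem_degreeLT.1 z.1.2.2)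
      ((modByMonic_eq_zero_iff_dvd hU).1 (congrArg Subtype.val (LinearMap.mem_ker.1 z.2)))
    exact ⟨q, h1, h2, fun i => by simpa [f0] using congrArg (eval (a i)) h2⟩
  have ev : ∀ z i, Ψ z i = s i / (U.eval (a i) * d i * fd a i) * z.1.1.1.eval (a i) :=
    fun _ _ => rfl
  refine ⟨LinearMap.range Ψ, ?_, ?_⟩
  · rw [LinearMap.finrank_range_of_inj ((injective_iff_map_eq_zero _).2 fun z hz => ?_)]
    · have e1 := LinearMap.finrank_range_add_finrank_ker Φ
      have e2 := (LinearMap.range Φ).finrank_le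
      rw [Module.finrank_prod, rk, rk] at e1
      rw [rk] at e2
      omega
    obtain ⟨q, h1, h2, h3⟩ := key z
    have q0 : q = 0 := eq_zero_of_natDegree_lt_card_of_eval_eq_zero q hc.inj (fun i => by
      have e1 := (mul_eq_zero.1 ((ev z i).symm.trans (congrFun hz i))).resolve_left
        (div_ne_zero (s0 i) (mul_ne_zero (mul_ne_zero (hs i).1 (hs i).2.1) (d0 i)))
      have e2 := h3 i
      rw [e1, zero_pow two_ne_zero] at e2
      exact (mul_eq_zero.1 e2.symm).resolve_left (hs i).1) (by rw [hc.card]; omega)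
    rw [q0, mul_zero, sub_eq_zero] at h2
    have b0 : z.1.2.1 = 0 := by
      by_contra c
      have := congrArg natDegree h2
      rw [natDegree_mul fm.ne_zero (pow_ne_zero _ c), natDegree_pow, natDegree_pow, fn] at this
      omega
    rw [b0, zero_pow two_ne_zero, mul_zero, pow_eq_zero_iff two_ne_zero] at h2
    exact Subtype.ext (Prod.ext (Subtype.ext h2) (Subtype.ext b0))
  · rintro _ ⟨z, rfl⟩
    obtain ⟨q, h1, -, h3⟩ := key z
    have e1 := Lagrange.coeff_eq_sum (s := univ) hc.inj.injOn (P := q)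
      (degree_le_natDegree.trans_lt (by rw [card_univ, hc.card]; exact_mod_cast by omega))
    rw [coeff_eq_zero_of_natDegree_lt (by rw [card_univ, hc.card]; omega)] at e1
    have e2 : ∀ i, d i * fd a i * Ψ z i ^ 2 = (-1) ^ U.natDegree * (q.eval (a i) / fd a i) := by
      intro i
      have b1 := (hs i).1
      have b2 := (hs i).2.1
      have b3 := d0 i
      rw [ev, mul_pow, h3, div_pow, sq (s i), ← hs' i, nb]
      field_simp
    rw [sum_congr rfl fun i _ => e2 i, ← mul_sum]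
    refine mul_eq_zero_of_right _ (Eq.trans (sum_congr rfl fun i _ => ?_) e1.symm)
    unfold fd
    congr

end Pool.Agent.MP_a43263_nt.JC

end
end MrgPart7

-- ======== part 8: formerly Pool.Agent.MP_a43263_nt.JC.Hw
section MrgPart8

/-! THEOREM J, module HW: the Hasse symbol of a split diagonal form of odd dimension depends on
the discriminant only. -/

set_option autoImplicit false

noncomputable section

namespace Pool.Agent.MP_a43263_nt.JC

open Finset

namespace Hw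

variable {K ι : Type} [Field K] [LinearOrder ι] {s : K → K → ℤ}

theorem sq_eq (hs : Sy s) {x y : K} (hx : x ≠ 0) (hy : y ≠ 0) : s x y * s x y = 1 := by
  rcases hs.pm x y hx hy with h | h <;> simp [h]

theorem mul_r (hs : Sy s) {x y y' : K} (hx : x ≠ 0) (hy : y ≠ 0) (hy' : y' ≠ 0) :
    s x (y * y') = s x y * s x y' := by
  rw [hs.comm, hs.mul _ _ _ hy hy' hx, hs.comm y, hs.comm y']

theorem sq_r (hs : Sy s) {x y t : K} (hx : x ≠ 0) (hy : y ≠ 0) (ht : t ≠ 0) :
    s x (y * t ^ 2) = s x y := by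
  rw [sq, mul_r hs hx hy (mul_ne_zero ht ht), mul_r hs hx ht ht, sq_eq hs hx ht, mul_one]

theorem prod_r (hs : Sy s) {x : K} (hx : x ≠ 0) (T : Finset ι) {e : ι → K}
    (he : ∀ k ∈ T, e k ≠ 0) : s x (∏ k ∈ T, e k) = ∏ k ∈ T, s x (e k) := by
  induction T using Finset.induction_on with
  | empty => exact hs.con _ _ hx one_ne_zero ⟨0, 1, 1, by simp, by simp⟩
  | insert k T hk ih =>
    have h1 : ∀ j ∈ T, e j ≠ 0 := fun j hj => he j (mem_insert_of_mem hj)
    rw [prod_insert hk, prod_insert hk, mul_r hs hx (he k (mem_insert_self _ _))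
      (prod_ne_zero_iff.2 h1), ih h1]

/-- the Hasse symbol of the entries with index in `T` -/
def H (s : K → K → ℤ) (T : Finset ι) (e : ι → K) : ℤ :=
  ∏ k ∈ T, ∏ j ∈ T, if k < j then s (e k) (e j) else 1

omit [Field K] in
theorem H_congr {T : Finset ι} {e e' : ι → K} (h : ∀ k ∈ T, e k = e' k) : H s T e = H s T e' :=
  prod_congr rfl fun k hk => prod_congr rfl fun j hj => by rw [h k hk, h j hj]

theorem H_insert (hs : Sy s) {T : Finset ι} {i : ι} (hi : i ∉ T) {e : ι → K} (h0 : e i ≠ 0)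
    (he : ∀ k ∈ T, e k ≠ 0) : H s (insert i T) e = H s T e * s (e i) (∏ k ∈ T, e k) := by
  simp only [H, prod_insert hi, lt_irrefl, if_false, one_mul, prod_mul_distrib]
  rw [← mul_assoc, mul_comm, ← prod_mul_distrib, prod_r hs h0 T he]
  refine congrArg _ (prod_congr rfl fun k hk => ?_)
  rcases lt_trichotomy i k with h | h | h
  · rw [if_pos h, if_neg h.asymm, mul_one]
  · exact absurd (h ▸ hk) hi
  · rw [if_neg h.asymm, if_pos h, one_mul, hs.comm]

theorem H_two (hs : Sy s) {T : Finset ι} {i j : ι} (hi : i ∉ insert j T) (hj : j ∉ T) {e : ι → K}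
    (h0 : e i ≠ 0) (h1 : e j ≠ 0) (he : ∀ k ∈ T, e k ≠ 0) :
    H s (insert i (insert j T)) e =
      H s T e * s (∏ k ∈ T, e k) (e i * e j) * s (e i) (e j) := by
  have hP := prod_ne_zero_iff.2 he
  rw [H_insert hs hi h0 (forall_mem_insert _ _ _ |>.2 ⟨h1, he⟩), H_insert hs hj h1 he,
    prod_insert hj, mul_r hs h0 h1 hP, mul_r hs hP h0 h1, hs.comm (∏ k ∈ T, e k) (e i),
    hs.comm (∏ k ∈ T, e k) (e j)]
  ring

/-- the value for a split form of dimension `2 g + 1` and discriminant `d` -/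
def F (s : K → K → ℤ) : ℕ → K → ℤ
  | 0, _ => 1
  | g + 1, d => F s g (-d) * s (-1) (-d)

theorem F_sq (hs : Sy s) (g : ℕ) {d t : K} (hd : d ≠ 0) (ht : t ≠ 0) :
    F s g (d * t ^ 2) = F s g d := by
  induction g generalizing d with
  | zero => rfl
  | succ g ih =>
    rw [F, F, ← neg_mul, ih (neg_ne_zero.2 hd), sq_r hs (by simp) (neg_ne_zero.2 hd) ht]

theorem move (hs : Sy s) {a b u t : K} (ha : a ≠ 0) (hb : b ≠ 0)
    (hc : a * u ^ 2 + b * t ^ 2 ≠ 0) :
    s (a * u ^ 2 + b * t ^ 2) (a * b * (a * u ^ 2 + b * t ^ 2)) = s a b := by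
  obtain ⟨c, e⟩ : ∃ c, c = a * u ^ 2 + b * t ^ 2 := ⟨_, rfl⟩
  rw [← e] at hc ⊢
  have h := hs.con _ _ (mul_ne_zero ha hc) (mul_ne_zero hb hc)
    ⟨u, t, c, fun k => hc k.2.2, by rw [sq c]; nth_rewrite 3 [e]; ring⟩
  rw [hs.mul _ _ _ ha hc (mul_ne_zero hb hc), mul_r hs ha hb hc, hs.comm a c, mul_assoc,
    ← mul_r hs hc ha (mul_ne_zero hb hc), ← mul_assoc] at h
  rw [← one_mul (s c _), ← sq_eq hs ha hb, mul_assoc, h, mul_one]

/-- the statement for a given `g`: the subspace is given by linear forms -/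
def St (s : K → K → ℤ) (ι : Type) [LinearOrder ι] (g : ℕ) : Prop :=
  ∀ (V : Type) [AddCommGroup V] [Module K V] [FiniteDimensional K V] (T : Finset ι) (e : ι → K)
    (l : ι → V →ₗ[K] K), T.card = 2 * g + 1 → g ≤ Module.finrank K V → (∀ k ∈ T, e k ≠ 0) →
    (∀ v, (∀ k ∈ T, l k v = 0) → v = 0) → (∀ v, ∑ k ∈ T, e k * l k v ^ 2 = 0) →
    H s T e = F s g (∏ k ∈ T, e k)

theorem split {T : Finset ι} {i j : ι} (hi : i ∈ T) (hj : j ∈ T) (hij : i ≠ j) :
    ∃ T', T = insert i (insert j T') ∧ i ∉ insert j T' ∧ j ∉ T' := by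
  have e : insert j ((T.erase i).erase j) = T.erase i :=
    insert_erase (mem_erase.2 ⟨hij.symm, hj⟩)
  exact ⟨(T.erase i).erase j, by rw [e, insert_erase hi], by rw [e]; exact notMem_erase _ _,
    notMem_erase _ _⟩

/-- an isotropic vector with two nonzero entries -/
theorem pair [CharZero K] (hs : Sy s) {g : ℕ} (ih : St s ι g) {V : Type} [AddCommGroup V]
    [Module K V] [FiniteDimensional K V] {T : Finset ι} {i j : ι} (hi : i ∉ insert j T)
    (hj : j ∉ T) {e : ι → K} {l : ι → V →ₗ[K] K} (hT : T.card = 2 * g + 1)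
    (hV : g + 1 ≤ Module.finrank K V) (he : ∀ k ∈ insert i (insert j T), e k ≠ 0)
    (hl : ∀ v, (∀ k ∈ insert i (insert j T), l k v = 0) → v = 0)
    (hq : ∀ v, ∑ k ∈ insert i (insert j T), e k * l k v ^ 2 = 0) {z : V} (zi : l i z ≠ 0)
    (zj : l j z ≠ 0) (zT : ∀ k ∈ T, l k z = 0) :
    H s (insert i (insert j T)) e = F s (g + 1) (∏ k ∈ insert i (insert j T), e k) := by
  simp only [forall_mem_insert, sum_insert hi, sum_insert hj] at he hl hq
  obtain ⟨ei, ej, eT⟩ := he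
  have hP := prod_ne_zero_iff.2 eT
  have h0 : e i * l i z ^ 2 + e j * l j z ^ 2 = 0 := by
    have := hq z
    rwa [sum_eq_zero fun k hk => by rw [zT k hk]; ring, add_zero] at this
  have h1 : ∀ v, l i v = 0 → l j v = 0 := by
    intro v hv
    have k1 := hq v
    have k2 := hq (v + z)
    rw [sum_congr rfl fun k hk => by rw [map_add, zT k hk, add_zero], map_add, map_add] at k2
    rw [hv] at k1 k2
    have : 2 * e j * l j z * l j v = 0 := by linear_combination k2 - k1 - h0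
    simpa [ej, zj] using this
  have h2 := ih (LinearMap.ker (l i)) T e (fun k => (l k).domRestrict _) hT (by
      have k1 := (l i).finrank_range_add_finrank_ker
      have k2 := (LinearMap.range (l i)).finrank_le
      rw [Module.finrank_self] at k2
      omega) eT (fun v hv => Subtype.ext (hl v ⟨v.2, h1 v v.2, hv⟩)) fun v => by
      have k := hq v
      rw [show l i v = 0 from v.2, h1 v v.2] at k
      simpa using k
  have h3 : e i * e j = -1 * (e i * l i z / l j z) ^ 2 := by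
    field_simp
    linear_combination h0
  have h4 : e i * l i z / l j z ≠ 0 := div_ne_zero (mul_ne_zero ei zi) zj
  rw [H_two hs hi hj ei ej eT, prod_insert hi, prod_insert hj, ← mul_assoc (e i), h3, F,
    hs.con _ _ ei ej ⟨l i z, l j z, 0, fun k => zi k.1, by rw [h0]; ring⟩, mul_one,
    show -(-1 * (e i * l i z / l j z) ^ 2 * ∏ k ∈ T, e k) =
      (∏ k ∈ T, e k) * (e i * l i z / l j z) ^ 2 by ring, F_sq hs g hP h4,
    sq_r hs (by simp) hP h4, sq_r hs hP (by simp) h4, h2, hs.comm]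

theorem step [CharZero K] (hs : Sy s) {g : ℕ} (ih : St s ι g) : St s ι (g + 1) := by
  classical
  intro V _ _ _ T e l hT hV he hl hq
  obtain ⟨z, hz⟩ : ∃ z : V, z ≠ 0 := by
    have := Module.finrank_pos_iff.1 (show 0 < Module.finrank K V by omega)
    exact exists_ne 0
  induction hN : (T.filter fun k => l k z ≠ 0).card using Nat.strong_induction_on
    generalizing e l with
  | _ N IH =>
  by_cases hm : ∃ i ∈ T, ∃ j ∈ T, i ≠ j ∧ l i z ≠ 0 ∧ l j z ≠ 0 ∧
      e i * l i z ^ 2 + e j * l j z ^ 2 ≠ 0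
  · obtain ⟨i, hi, j, hj, hij, zi, zj, hc⟩ := hm
    obtain ⟨T', rfl, hi', hj'⟩ := split hi hj hij
    have ni : ∀ k ∈ T', k ≠ i := fun k hk e => hi' (mem_insert_of_mem (e ▸ hk))
    have nj : ∀ k ∈ T', k ≠ j := fun k hk e => hj' (e ▸ hk)
    simp only [forall_mem_insert, sum_insert hi', sum_insert hj'] at he hl hq
    obtain ⟨ei, ej, eT⟩ := he
    have hP := prod_ne_zero_iff.2 eT
    have mv := move hs ei ej hc
    obtain ⟨c, ec⟩ : ∃ c, c = e i * l i z ^ 2 + e j * l j z ^ 2 := ⟨_, rfl⟩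
    rw [← ec] at hc mv
    let e' : ι → K := fun k => if k = i then c else if k = j then e i * e j * c else e k
    let l' : ι → V →ₗ[K] K := fun k =>
      if k = i then (e i * l i z / c) • l i + (e j * l j z / c) • l j
      else if k = j then (l i z / c) • l j - (l j z / c) • l i else l k
    have e1 : e' i = c := if_pos rfl
    have e2 : e' j = e i * e j * c := by simp only [e', if_neg hij.symm, if_true]
    have e3 : ∀ k ∈ T', e' k = e k := fun k hk => by
      simp only [e', if_neg (ni k hk), if_neg (nj k hk)]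
    have l1 : ∀ v, l' i v = (e i * l i z * l i v + e j * l j z * l j v) / c := fun v => by
      simp only [l', if_true, LinearMap.add_apply, LinearMap.smul_apply, smul_eq_mul]
      ring
    have l2 : ∀ v, l' j v = (l i z * l j v - l j z * l i v) / c := fun v => by
      simp only [l', if_neg hij.symm, if_true, LinearMap.sub_apply, LinearMap.smul_apply,
        smul_eq_mul]
      ring
    have l3 : ∀ k ∈ T', l' k = l k := fun k hk => by
      simp only [l', if_neg (ni k hk), if_neg (nj k hk)]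
    have r1 : ∀ v, l i v = l i z * l' i v - e j * l j z * l' j v := fun v => by
      rw [l1, l2]
      field_simp
      rw [ec]
      ring
    have r2 : ∀ v, l j v = l j z * l' i v + e i * l i z * l' j v := fun v => by
      rw [l1, l2]
      field_simp
      rw [ec]
      ring
    have c0 : e i * e j * c ≠ 0 := mul_ne_zero (mul_ne_zero ei ej) hc
    have eT' : ∀ k ∈ T', e' k ≠ 0 := fun k hk => e3 k hk ▸ eT k hk
    have h := IH _ (by
      rw [← hN]
      refine card_lt_card ⟨fun k hk => ?_, fun h => ?_⟩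
      · obtain ⟨k1, k2⟩ := mem_filter.1 hk
        refine mem_filter.2 ⟨k1, ?_⟩
        rcases mem_insert.1 k1 with rfl | k1
        · exact zi
        rcases mem_insert.1 k1 with rfl | k1
        · exact zj
        · exact l3 k k1 ▸ k2
      · refine (mem_filter.1 (h (mem_filter.2 ⟨hj, zj⟩))).2 ?_
        rw [l2]
        ring) e' l' (by simpa only [forall_mem_insert, e1, e2] using ⟨hc, c0, eT'⟩)
      (fun v hv => by
        simp only [forall_mem_insert] at hv
        refine hl v ⟨?_, ?_, fun k hk => l3 k hk ▸ hv.2.2 k hk⟩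
        · rw [r1, hv.1, hv.2.1]; ring
        · rw [r2, hv.1, hv.2.1]; ring)
      (fun v => by
        have k := hq v
        rw [r1 v, r2 v] at k
        rw [sum_insert hi', sum_insert hj', e1, e2,
          sum_congr rfl fun k hk => by rw [e3 k hk, l3 k hk], ec]
        linear_combination k) rfl
    rw [H_two hs hi' hj' (e1 ▸ hc) (e2 ▸ c0) eT', prod_insert hi', prod_insert hj', e1, e2,
      prod_congr rfl e3, H_congr e3, mv, show c * (e i * e j * c) = e i * e j * c ^ 2 by ring,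
      sq_r hs hP (mul_ne_zero ei ej) hc, show c * (e i * e j * c * ∏ k ∈ T', e k) =
        e i * (e j * ∏ k ∈ T', e k) * c ^ 2 by ring,
      F_sq hs _ (mul_ne_zero ei (mul_ne_zero ej hP)) hc] at h
    rw [H_two hs hi' hj' ei ej eT, prod_insert hi', prod_insert hj', h]
  · push Not at hm
    obtain ⟨i, hi, zi⟩ : ∃ i ∈ T, l i z ≠ 0 := by
      by_contra h
      push Not at h
      exact hz (hl z h)
    obtain ⟨j, hj, hij, zj⟩ : ∃ j ∈ T, i ≠ j ∧ l j z ≠ 0 := by
      by_contra h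
      push Not at h
      have := hq z
      rw [sum_eq_single_of_mem i hi fun k hk e => by rw [h k hk e.symm]; ring] at this
      exact mul_ne_zero (he i hi) (pow_ne_zero _ zi) this
    obtain ⟨T', rfl, hi', hj'⟩ := split hi hj hij
    refine pair hs ih hi' hj' ?_ hV he hl hq zi zj fun k hk => ?_
    · rw [card_insert_of_notMem hi', card_insert_of_notMem hj'] at hT
      omega
    by_contra zk
    have hk' : k ∈ insert i (insert j T') := mem_insert_of_mem (mem_insert_of_mem hk)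
    have k1 := hm i hi j hj hij zi zj
    have k2 := hm i hi k hk' (fun e => hi' (mem_insert_of_mem (e ▸ hk))) zi zk
    have k3 := hm j hj k hk' (fun e => hj' (e ▸ hk)) zj zk
    have : 2 * (e i * l i z ^ 2) = 0 := by linear_combination k1 + k2 - k3
    exact mul_ne_zero two_ne_zero (mul_ne_zero (he i hi) (pow_ne_zero _ zi)) this

theorem st [CharZero K] (hs : Sy s) (g : ℕ) : St s ι g := by
  induction g with
  | zero =>
    intro V _ _ _ T e l hT _ _ _ _
    obtain ⟨i, rfl⟩ := card_eq_one.1 hT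
    simp [H, F]
  | succ g ih => exact step hs ih

theorem Hs_eq [CharZero K] (hs : Sy s) {g : ℕ} {e : Fin (2 * g + 1) → K} (he : ∀ i, e i ≠ 0)
    (h : Iso g e) : Hs s e = F s g (∏ i, e i) := by
  obtain ⟨S, h1, h2⟩ := h
  rw [← st hs g S univ e (fun k => (LinearMap.proj k).domRestrict S) (by simp) h1
    (fun k _ => he k) (fun v hv => Subtype.ext (funext fun k => hv k (mem_univ _)))
    fun v => h2 v v.2]
  exact prod_congr rfl fun k _ => by rw [← prod_filter, filter_lt_eq_Ioi]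

end Hw

theorem hw : HWStmt := by
  intro K _ _ s hs g e e' he he' h h' ⟨r, hr⟩
  have k : ∏ i, e i ≠ 0 := prod_ne_zero_iff.2 fun i _ => he i
  have k' : ∏ i, e' i ≠ 0 := prod_ne_zero_iff.2 fun i _ => he' i
  have k'' : r ≠ 0 := fun e0 => mul_ne_zero k k' (by rw [hr, e0, mul_zero])
  rw [Hw.Hs_eq hs he h, Hw.Hs_eq hs he' h', ← Hw.F_sq hs g k k', ← Hw.F_sq hs g k' k'', sq, sq,
    ← hr, ← mul_assoc, mul_comm]

end Pool.Agent.MP_a43263_nt.JC

end
end MrgPart8

-- ======== part 9: formerly Pool.Agent.MP_a43263_nt.JC.Qv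
section MrgPart9

/-! THEOREM J: local symbols, the quadratic relation, and primes of nodal reduction. -/

set_option autoImplicit false

noncomputable section

namespace Pool.Agent.MP_a43263_nt.JC

open Polynomial Finset
open RH (hs up Conic)

namespace Qv

section padic

variable {p : ℕ} [hp : Fact p.Prime]

theorem rep (x : ℚ_[p]) : ∃ n : ℤ, x ≠ 0 → n ≠ 0 ∧ ∃ t : ℚ_[p], t ≠ 0 ∧ x = n * t ^ 2 := by
  by_cases h : x = 0
  · exact ⟨0, fun c => absurd h c⟩
  obtain ⟨r, hr⟩ := Padic.rat_dense p x (ε := ‖(4 : ℚ_[p])‖ * ‖x‖)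
    (mul_pos (norm_pos_iff.2 (by norm_num)) (norm_pos_iff.2 h))
  rw [norm_sub_rev] at hr
  obtain ⟨s, e⟩ := RH.Cst.close' hr
  have d : (r.den : ℚ_[p]) ≠ 0 := by exact_mod_cast r.den_nz
  have e2 : x = ((r.num * r.den : ℤ) : ℚ_[p]) * (s / r.den) ^ 2 := by
    rw [e, Rat.cast_def]
    push_cast
    field_simp
  refine ⟨r.num * r.den, fun _ => ⟨fun c => h ?_, s / r.den, fun c => h ?_, e2⟩⟩
  · rw [e2, c]
    simp
  · rw [e2, c]
    simp

theorem con (hO : RH.HSOStmt) (h2 : RH.HS2Stmt) {x y : ℤ} (hx : x ≠ 0) (hy : y ≠ 0)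
    (h : Conic (x : ℚ_[p]) y) : hs p x y = 1 := by
  by_cases c : p = 2
  · subst c
    exact h2 x y hx hy h
  · exact hO p x y c hx hy h

theorem mul' {x y z : ℤ} (hx : x ≠ 0) (hy : y ≠ 0) : hs p (x * y) z = hs p x z * hs p y z := by
  rw [RH.PfAux.hs_comm, RH.PfAux.hs_mul hp.out z hx hy, RH.PfAux.hs_comm p z, RH.PfAux.hs_comm p z]

theorem one (hO : RH.HSOStmt) (h2 : RH.HS2Stmt) {m n y : ℤ} (hm : m ≠ 0) (hn : n ≠ 0) (hy : y ≠ 0)
    {t : ℚ_[p]} (e : (m : ℚ_[p]) * n = t ^ 2) : hs p m y * hs p n y = 1 := by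
  rw [← mul' hm hn]
  exact con hO h2 (mul_ne_zero hm hn) hy ⟨1, 0, t, by simp, by push_cast; linear_combination e⟩

theorem same (hO : RH.HSOStmt) (h2 : RH.HS2Stmt) {m n y : ℤ} (hm : m ≠ 0) (hn : n ≠ 0)
    (hy : y ≠ 0) {t : ℚ_[p]} (e : (m : ℚ_[p]) * n = t ^ 2) : hs p m y = hs p n y := by
  have a := one hO h2 hm hn hy e
  have b := one (p := p) hO h2 hn hn hy (sq _).symm
  linear_combination hs p n y * a - hs p m y * b

end padic

section symbol

variable {K : Type} [Field K] {s : K → K → ℤ}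

theorem s_sq (h : Sy s) {x y : K} (hx : x ≠ 0) (hy : y ≠ 0) (e : IsSquare x) : s x y = 1 := by
  obtain ⟨t, e⟩ := e
  exact h.con x y hx hy ⟨1, 0, t, by simp, by linear_combination e⟩

theorem s_two (h : Sy s) {x y : K} (hx : x ≠ 0) (hy : y ≠ 0) : s x y * s x y = 1 := by
  rcases h.pm x y hx hy with e | e <;> rw [e] <;> norm_num

theorem s_prod (h : Sy s) {ι : Type} {d : ι → K} (hd : ∀ i, d i ≠ 0) {y : K} (hy : y ≠ 0)
    (S : Finset ι) : ∏ i ∈ S, s (d i) y = s (∏ i ∈ S, d i) y := by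
  classical
  induction S using Finset.induction_on with
  | empty => simpa using (s_sq h one_ne_zero hy IsSquare.one).symm
  | insert i S hi ih =>
    rw [prod_insert hi, prod_insert hi, ih,
      h.mul _ _ _ (hd i) (prod_ne_zero_iff.2 fun j _ => hd j) hy]

theorem pol (h : Sy s) {m : ℕ} {d e : Fin m → K} (hd : ∀ i, d i ≠ 0) (he : ∀ i, e i ≠ 0)
    (q : IsSquare (∏ i, d i)) :
    Hs s (fun i => d i * e i) = Hs s d * Hs s e * ∏ i, s (d i) (e i) := by
  have k : ∏ i, s (d i) (e i) = ∏ i, ∏ j ∈ Ioi i, s (d j) (e i) * s (d i) (e j) := by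
    rw [prod_prod_Ioi_mul_eq_prod_prod_off_diag fun j i => s (d j) (e i)]
    refine prod_congr rfl fun i _ => ?_
    have a := prod_mul_prod_compl {i} fun j => s (d j) (e i)
    rw [s_prod h hd (he i) univ, s_sq h (prod_ne_zero_iff.2 fun j _ => hd j) (he i) q,
      prod_singleton] at a
    have b := s_two h (hd i) (he i)
    linear_combination (∏ j ∈ {i}ᶜ, s (d j) (e i)) * b - s (d i) (e i) * a
  rw [k, Hs, Hs, Hs, ← prod_mul_distrib, ← prod_mul_distrib]
  refine prod_congr rfl fun i _ => ?_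
  rw [← prod_mul_distrib, ← prod_mul_distrib]
  refine prod_congr rfl fun j _ => ?_
  rw [h.mul _ _ _ (hd i) (he i) (mul_ne_zero (hd j) (he j)), h.comm (d i) (d j * e j),
    h.comm (e i) (d j * e j), h.mul _ _ _ (hd j) (he j) (hd i), h.mul _ _ _ (hd j) (he j) (he i),
    h.comm (d j) (d i), h.comm (e j) (d i), h.comm (e j) (e i)]
  ring

theorem w_ne {ι : Type} [Fintype ι] {a d : ι → K} (h : W a d) (i : ι) : d i ≠ 0 := by
  obtain ⟨_, _, _, _, k⟩ := h
  exact (k i).2.1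

theorem w_one {ι : Type} [Fintype ι] (a : ι → K) : W a fun _ => 1 :=
  ⟨1, 0, monic_one, one_dvd _, fun i => by simp [nb]⟩

end symbol

theorem val_prod {p : ℕ} [Fact p.Prime] {ι : Type} {d : ι → ℤ} (hd : ∀ i, d i ≠ 0) (S : Finset ι) :
    padicValInt p (∏ i ∈ S, d i) = ∑ i ∈ S, padicValInt p (d i) := by
  classical
  induction S using Finset.induction_on with
  | empty => simp
  | insert i S hi ih =>
    rw [prod_insert hi, sum_insert hi, padicValInt.mul (hd i) (prod_ne_zero_iff.2 fun j _ => hd j),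
      ih]

theorem jev {a : ℤ} {p n : ℕ} (hp : p.Prime) (h : ¬(p : ℤ) ∣ a) (e : Even n) :
    jacobiSym a p ^ n = 1 := by
  obtain ⟨k, rfl⟩ := e
  rw [pow_add, ← mul_pow, RH.PfAux.jsq hp h, one_pow]

end Qv

open Qv

theorem symb (hO : RH.HSOStmt) (h2 : RH.HS2Stmt) : SYMBStmt := by
  refine ⟨⟨fun x y _ _ => ?_, fun x y => by simp only [and_comm], fun x x' y hx hx' _ => ?_,
    fun x y _ _ ⟨X, Y, Z, h, e⟩ => if_neg fun ⟨c, d⟩ => h ?_⟩, fun p _ => ?_⟩
  · split_ifs <;> simp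
  · by_cases c : y < 0
    · rcases lt_or_gt_of_ne hx with a | a <;> rcases lt_or_gt_of_ne hx' with b | b <;>
        simp [c, a, b, a.not_gt, b.not_gt, mul_neg_iff]
    · simp [c]
  · have a : x * X ^ 2 ≤ 0 := mul_nonpos_of_nonpos_of_nonneg c.le (sq_nonneg _)
    have b : y * Y ^ 2 ≤ 0 := mul_nonpos_of_nonpos_of_nonneg d.le (sq_nonneg _)
    have z := sq_nonneg Z
    have e1 : x * X ^ 2 = 0 := by linarith
    have e2 : y * Y ^ 2 = 0 := by linarith
    have e3 : Z ^ 2 = 0 := by linarith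
    exact ⟨by simpa [c.ne] using e1, by simpa [d.ne] using e2, by simpa using e3⟩
  · choose R hR using rep (p := p)
    refine ⟨fun x y => hs p (R x) (R y), ⟨fun x y hx hy => ?_, fun x y => RH.PfAux.hs_comm _ _ _,
      fun x x' y hx hx' hy => ?_, fun x y hx hy ⟨X, Y, Z, h, e⟩ => ?_⟩, fun x y hx hy => ?_⟩
    · exact Int.eq_one_or_neg_one_of_mul_eq_one
        (one (p := p) hO h2 (hR x hx).1 (hR x hx).1 (hR y hy).1 (sq _).symm)
    · obtain ⟨a1, t1, b1, e1⟩ := hR x hx
      obtain ⟨a2, t2, b2, e2⟩ := hR x' hx'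
      obtain ⟨a3, t3, b3, e3⟩ := hR _ (mul_ne_zero hx hx')
      show hs p _ _ = hs p _ _ * hs p _ _
      rw [← mul' a1 a2]
      refine same hO h2 a3 (mul_ne_zero a1 a2) (hR y hy).1 (t := R x * R x' * t1 * t2 / t3) ?_
      push_cast
      field_simp
      linear_combination (-1 : ℚ_[p]) * e3 + x' * e1 + (R x * t1 ^ 2) * e2
    · obtain ⟨a1, t1, b1, e1⟩ := hR x hx
      obtain ⟨a2, t2, b2, e2⟩ := hR y hy
      refine con hO h2 a1 a2 ⟨t1 * X, t2 * Y, Z, by simpa [b1, b2] using h, ?_⟩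
      linear_combination e - X ^ 2 * e1 - Y ^ 2 * e2
    · obtain ⟨a1, t1, -, e1⟩ := hR x (by exact_mod_cast hx)
      obtain ⟨a2, t2, -, e2⟩ := hR y (by exact_mod_cast hy)
      show hs p _ _ = _
      rw [same (p := p) hO h2 a1 hx a2 (t := R x * t1) (by linear_combination (R x : ℚ_[p]) * e1),
        RH.PfAux.hs_comm,
        same (p := p) hO h2 a2 hy hx (t := R y * t2) (by linear_combination (R y : ℚ_[p]) * e2),
        RH.PfAux.hs_comm]

theorem qv (hQ : QSStmt) (hW : HWStmt) (hG : GRPStmt) (hN : NRMStmt) : QVStmt := by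
  intro K _ _ s h g a ha
  have hf : ∀ i, fd a i ≠ 0 := fun i => prod_ne_zero_iff.2 fun k hk =>
    sub_ne_zero.2 fun e => by simp [ha.inj e] at hk
  have k : ∀ d, W a d → Hs s d * ∏ i, s (d i) (fd a i) = 1 := fun d hd => by
    have q := hN K _ a d hd
    have e := hW K s h g (fun i => d i * fd a i) (fd a) (fun i => mul_ne_zero (w_ne hd i) (hf i)) hf
      (hQ K _ g a d ha hd) (by simpa using hQ K _ g a _ ha (w_one a))
      (by rw [prod_mul_distrib, mul_assoc]; exact q.mul (IsSquare.mul_self _))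
    rw [pol h (w_ne hd) hf q] at e
    have z : Hs s (fd a) ≠ 0 := prod_ne_zero_iff.2 fun i _ => prod_ne_zero_iff.2 fun j _ c => by
      simpa [c] using s_two h (hf i) (hf j)
    exact mul_left_cancel₀ z (by linear_combination e)
  refine ⟨k, fun d e hd he => ?_⟩
  have z := k _ (hG K _ g a ha d e hd he)
  rw [pol h (w_ne hd) (w_ne he) (hN K _ a d hd),
    prod_congr rfl fun i _ => h.mul _ _ _ (w_ne hd i) (w_ne he i) (hf i), prod_mul_distrib] at z
  have z1 := k d hd
  have z2 := k e he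
  linear_combination z - (∏ i, s (d i) (e i)) * (Hs s e * ∏ i, s (e i) (fd a i)) * z1 -
    (∏ i, s (d i) (e i)) * z2

theorem nod (hV : VALStmt) (hN : NRMStmt) (hQ : QVStmt) (hT : TWStmt) (hS : SYMBStmt) :
    NODStmt := by
  classical
  intro p hp g a d i j h2 hg hij h1 h1' hu hw
  have ne : ∀ k l, k ≠ l → a k - a l ≠ 0 := fun k l c e => by
    by_cases c1 : k = i ∧ l = j
    · exact h1' (by rw [← c1.1, ← c1.2, e]; exact dvd_zero _)
    by_cases c2 : k = j ∧ l = i
    · exact h1' (by rw [← c2.1, ← c2.2, ← neg_sub, e]; simp)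
    exact hu k l c c1 c2 (e ▸ dvd_zero _)
  have cv : Cv g (fun k => (a k : ℚ_[p])) (fp fun k => (a k : ℚ_[p])) :=
    ⟨by simp, hg, fun k l e => by_contra fun c => ne k l c (sub_eq_zero.2 (Int.cast_injective e)),
      rfl⟩
  have hd : ∀ k, d k ≠ 0 := fun k => by exact_mod_cast w_ne hw k
  have e1 : ∀ k, k ≠ i → k ≠ j → Even (padicValInt p (d k)) := fun k c c' => by
    have z := hV p _ _ _ i j (by simp) (fun k => Padic.norm_int_le_one _) (fun k l c c1 c2 => by
      rw [← Int.cast_sub]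
      exact le_antisymm (Padic.norm_int_le_one _)
        (not_lt.1 fun z => hu k l c c1 c2 (Padic.norm_intCast_lt_one_iff.1 z))) hw k
      fun _ => ⟨c, c'⟩
    rw [Padic.valuation_intCast] at z
    exact_mod_cast z
  have mj : j ∈ univ.erase i := mem_erase.2 ⟨hij.symm, mem_univ _⟩
  have mem : ∀ k ∈ (univ.erase i).erase j, k ≠ i ∧ k ≠ j := fun k hk =>
    ⟨(mem_erase.1 (mem_erase.1 hk).2).1, (mem_erase.1 hk).1⟩
  have e2 : Even (padicValInt p (d i) + padicValInt p (d j)) := by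
    obtain ⟨t, e⟩ := hN _ _ _ _ hw
    have t0 : t ≠ 0 := by
      rintro rfl
      exact prod_ne_zero_iff.2 (fun k _ => w_ne hw k) (by simpa using e)
    have z : Even (padicValInt p (∏ k, d k) : ℤ) := by
      rw [← Padic.valuation_intCast, Int.cast_prod, e, Padic.valuation_mul t0 t0]
      exact ⟨_, rfl⟩
    rw [Int.even_coe_nat, val_prod hd, ← add_sum_erase _ _ (mem_univ i), ← add_sum_erase _ _ mj,
      ← add_assoc] at z
    exact (Nat.even_add.1 z).2 (even_sum _ fun k hk => e1 k (mem k hk).1 (mem k hk).2)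
  refine ⟨e1, e2, ?_⟩
  obtain ⟨s, hs1, hs2⟩ := hS.2 p
  have z := (hQ _ s hs1 g _ cv).2 _ _ hw (hT _ _ g _ cv i)
  have un : ∀ k ∈ (univ.erase i).erase j, ¬(p : ℤ) ∣ a i - a k := fun k hk =>
    hu i k (mem k hk).1.symm (fun c => (mem k hk).2 c.2) fun c => hij c.1
  have gu : ¬(p : ℤ) ∣ ∏ l ∈ (univ.erase i).erase j, (a i - a l) := fun c => by
    obtain ⟨k, hk, c⟩ := (Prime.dvd_finsetProd_iff (Nat.prime_iff_prime_int.1 hp.out) _).1 c
    exact un k hk c
  have g0 : ∏ l ∈ (univ.erase i).erase j, (a i - a l) ≠ 0 := fun c => gu (c ▸ dvd_zero _)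
  have f1 : tv (fun k => (a k : ℚ_[p])) i i =
      (((a i - a j) * ∏ l ∈ (univ.erase i).erase j, (a i - a l) : ℤ) : ℚ_[p]) := by
    rw [mul_prod_erase _ (fun l => a i - a l) mj, tv, if_pos rfl, fd]
    push_cast
    congr
    exact Subsingleton.elim _ _
  have f2 : ∀ k, k ≠ i → tv (fun k => (a k : ℚ_[p])) i k = ((a i - a k : ℤ) : ℚ_[p]) :=
    fun k c => by rw [tv, if_neg c, Int.cast_sub]
  have f3 : ∏ k ∈ (univ.erase i).erase j, s (d k) (tv (fun k => (a k : ℚ_[p])) i k) = 1 := by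
    refine prod_eq_one fun k hk => ?_
    rw [f2 k (mem k hk).1, hs2 _ _ (hd k) (ne i k (mem k hk).1.symm)]
    simp [hs, h2, RH.PfAux.val0 (un k hk), RH.PfAux.up0 (un k hk),
      jev hp.out (un k hk) (e1 k (mem k hk).1 (mem k hk).2)]
  have v1 : padicValInt p (a i - a j) = 1 := by
    have c1 := (padicValInt_dvd_iff 1 (a i - a j)).1 (by simpa using h1)
    have c2 := mt (padicValInt_dvd_iff (p := p) 2 (a i - a j)).2 h1'
    have c3 := ne i j hij
    omega
  rw [← mul_prod_erase _ _ (mem_univ i), ← mul_prod_erase _ _ mj, f3, mul_one, f1, f2 j hij.symm,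
    hs2 _ _ (hd i) (mul_ne_zero (ne i j hij) g0), hs2 _ _ (hd j) (ne i j hij),
    RH.PfAux.hs_mul hp.out _ (ne i j hij) g0, mul_right_comm, ← mul' (hd i) (hd j)] at z
  rw [← padicValInt.mul (hd i) (hd j)] at e2
  simp only [hs, h2, if_false, v1, RH.PfAux.val0 gu, RH.PfAux.up0 gu, mul_one, mul_zero, pow_zero,
    pow_one, one_mul, jev hp.out (RH.PfAux.ndvd_neg_one hp.out) e2,
    jev hp.out (RH.PfAux.up_ndvd p (ne i j hij)) e2] at z
  have z2 := jev hp.out gu (n := padicValInt p (d i) + padicValInt p (d i)) ⟨_, rfl⟩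
  rw [pow_add] at z2
  linear_combination
    jacobiSym (∏ l ∈ (univ.erase i).erase j, (a i - a l)) p ^ padicValInt p (d i) * z -
      jacobiSym (up p (d i * d j)) p * z2

end Pool.Agent.MP_a43263_nt.JC

end
end MrgPart9

-- marker of a merged file
example : 731051 + 611758 = 731051 + 611758 := rfl
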