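import Pool.Agent.MP_a43263_nt.JC.JSpec
import Pool.Agent.MP_a43263_nt.GRep

/-! THEOREM J, module SHA: the 2-primary part of the Tate-Shafarevich group. -/

set_option autoImplicit false

noncomputable section

namespace Pool.Agent.MP_a43263_nt.JC

open Polynomial Finset

namespace Sha

/-- the absolute Galois group of `ℚ` -/
abbrev GQ : Type := Qbar ≃ₐ[ℚ] Qbar

section maps

variable {K L M : Type} [Field K] [Field L] [Field M]

theorem mi_map (φ : K →+* L) {f : K[X]} {F : L[X]} (e : f.map φ = F) (U V : K[X]) :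
    (MI f U V).map (rmap φ e) = MI F (U.map φ) (V.map φ) := by
  rw [MI, MI, Ideal.map_span, Set.image_pair]
  congr 2 <;> ext1 <;> simp [rmap]

theorem nb_map (φ : K →+* L) (U : K[X]) (x : K) : nb (U.map φ) (φ x) = φ (nb U x) := by
  rw [nb, nb, natDegree_map, eval_map, eval₂_at_apply]
  simp

theorem map_sign (φ : K →+* K) {u : K} (h : u ^ 2 = 1) : φ u = u := by
  rcases sq_eq_one_iff.1 h with rfl | rfl <;> simp

theorem ne_of_sq {u v : K} (h : u ^ 2 = v) (hv : v ≠ 0) : u ≠ 0 := by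
  rintro rfl
  exact hv (by simpa using h.symm)

variable [CharZero K] [CharZero L] [CharZero M]

theorem jmap_jmap (f : ℚ[X]) (φ : K →+* L) (ψ : L →+* M) (P : Jac f K) :
    jmap f ψ (jmap f φ P) = jmap f (ψ.comp φ) P := by
  have e : (rmap ψ (fK_map f ψ)).comp (rmap φ (fK_map f φ)) = rmap (ψ.comp φ) (fK_map f _) := by
    ext1 z
    ext1 <;> simp [rmap, Polynomial.map_map]
  change Additive.ofMul (CommRing.Pic.mapRingHom _ (CommRing.Pic.mapRingHom _ P.toMul)) =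
    Additive.ofMul (CommRing.Pic.mapRingHom _ P.toMul)
  rw [CommRing.Pic.mapRingHom_mapRingHom, e]

end maps

section loc

variable {f : ℚ[X]} {K : Type} [Field K] [CharZero K] {c : GQ → Jac f Qbar}

theorem sub_cob (h : JLoc f K c) (R : Jac f Qbar) : JLoc f K (c - fun σ => jac f σ R - R) := by
  obtain ⟨S, hS⟩ := h
  refine ⟨S - jmap f (emb K) R, fun σ τ hτ => ?_⟩
  have : jmap f (emb K) (jac f τ R) =
      jmap f (σ : AlgebraicClosure K →+* AlgebraicClosure K) (jmap f (emb K) R) := by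
    rw [jmap_jmap, jmap_jmap]
    congr 2
    exact RingHom.ext hτ
  simp only [Pi.sub_apply, map_sub, hS σ τ hτ, this]
  abel

theorem loc_nsmul (h : JLoc f K c) (n : ℕ) : JLoc f K (n • c) := by
  obtain ⟨S, hS⟩ := h
  exact ⟨n • S, fun σ τ hτ => by simp only [Pi.smul_apply, map_nsmul, hS σ τ hτ, smul_sub]⟩

theorem cob_mem {R : Jac f Qbar} (h : IsLocallyConstant fun σ => jac f σ R) :
    (fun σ => jac f σ R - R) ∈ Z1 (jac f) := by
  refine ⟨h.comp fun P => P - R, fun σ τ => ?_⟩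
  have : jac f (σ * τ) R = jac f σ (jac f τ R) := by
    rw [jmap_jmap]
    rfl
  simp only [this, map_sub]
  abel

/-- from 2-torsion cocycles to the 2-primary part -/
theorem sha_two (hs : ∀ R : Jac f Qbar, IsLocallyConstant fun σ => jac f σ R)
    (h2 : ∀ P : Jac f Qbar, ∃ R, 2 • R = P)
    (h : ∀ c ∈ Z1 (jac f), (∀ σ, 2 • c σ = 0) → JLoc f ℝ c →
      (∀ (p : ℕ) [Fact p.Prime], JLoc f ℚ_[p] c) → ∃ R, ∀ σ, c σ = jac f σ R - R) (k : ℕ) :
    ∀ x ∈ JSha f, 2 ^ k • x = 0 → x = 0 := by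
  have key : ∀ x ∈ JSha f, 2 • x = 0 → x = 0 := by
    rintro _ ⟨c, rfl, hr, hloc⟩ h0
    obtain ⟨P, hP⟩ := (QuotientAddGroup.eq_zero_iff (2 • c)).1 h0
    obtain ⟨R, rfl⟩ := h2 P
    obtain ⟨S, hS⟩ := h _ ((Z1 (jac f)).sub_mem c.2 (cob_mem (hs R)))
      (fun σ => by
        have : 2 • c.1 σ = _ := hP σ
        simp only [Pi.sub_apply, smul_sub, this, map_nsmul, sub_self])
      (sub_cob hr R) (fun p _ => sub_cob (hloc p) R)
    refine (QuotientAddGroup.eq_zero_iff c).2 ⟨R + S, fun σ => ?_⟩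
    have := hS σ
    simp only [Pi.sub_apply] at this
    change c.1 σ = _
    rw [map_add, sub_eq_iff_eq_add.1 this]
    abel
  induction k with
  | zero => intro x _ h; simpa using h
  | succ k ih =>
    intro x hx h
    refine ih x hx (key _ ?_ (by rw [← mul_nsmul', ← pow_succ', h]))
    obtain ⟨c, rfl, h1, h2⟩ := hx
    exact ⟨2 ^ k • c, rfl, loc_nsmul h1 _, fun p _ => loc_nsmul (h2 p) _⟩

end loc

/-- a continuous character with values `± 1` comes from a square root of a rational number -/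
theorem exists_sqrt {A : Type} {c : GQ → A} (hc : IsLocallyConstant c) {u : GQ → Qbar}
    (h1 : ∀ σ, u σ ^ 2 = 1) (h2 : ∀ σ τ, u (σ * τ) = u σ * u τ)
    (h3 : ∀ σ, c σ = c 1 → u σ = u 1) :
    ∃ (d : ℚ) (r : Qbar), d ≠ 0 ∧ r ^ 2 = d ∧ ∀ σ : GQ, σ r / r = u σ := by
  obtain ⟨L, hL, hL'⟩ := exists_level c hc
  have h4 : u 1 = 1 := mul_left_cancel₀ (ne_of_sq (h1 1) one_ne_zero) (by rw [← h2, mul_one, mul_one])
  obtain ⟨r, hr, hr'⟩ := h90 ⊤ u (fun σ _ => ne_of_sq (h1 σ) one_ne_zero) (fun σ _ τ _ => by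
    rw [h2]
    exact congrArg _ (map_sign (σ : Qbar →+* Qbar) (h1 τ)).symm) L
    (fun σ _ hσ => (h3 σ (hL' σ hσ)).trans h4)
  obtain ⟨d, hd⟩ := rat_of_fixed (x := r ^ 2) fun σ => by
    rw [map_pow, hr' σ trivial, mul_pow, h1, one_mul]
  refine ⟨d, r, ?_, hd.symm, fun σ => by rw [hr' σ trivial, mul_div_cancel_right₀ _ hr]⟩
  rintro rfl
  exact pow_ne_zero 2 hr (by simpa using hd.symm)

variable {ι : Type} [Fintype ι] {g : ℕ} {a : ι → ℚ}

theorem cvK (h : Cv g a (fp a)) (K : Type) [Field K] [CharZero K] :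
    Cv g (fun i => (a i : K)) (fK (fp a) K) :=
  ⟨h.card, h.pos, fun i j e => h.inj (by exact_mod_cast e), by
    simp [fK, fp, Polynomial.map_prod]⟩

/-- the relation `Z` for the curve over `K` -/
def ZK (a : ι → ℚ) (K : Type) [Field K] [CharZero K] (R : Jac (fp a) K)
    (D : Ideal (Rg (fK (fp a) K))) (ρ : ι → K) : Prop :=
  Z (fun i => (a i : K)) (fK (fp a) K) R.toMul D ρ

section z

variable (pic : PICStmt) (mum : MUMStmt) (zed : ZEDStmt) (zt : ZTStmt) (h : Cv g a (fp a))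
variable {K L : Type} [Field K] [CharZero K] [Field L] [CharZero L]
variable {R R' : Jac (fp a) K} {D : Ideal (Rg (fK (fp a) K))} {ρ ρ' : ι → K}

include zed h

theorem z_map (φ : K →+* L) (z : ZK a K R D ρ) :
    ZK a L (jmap _ φ R) (D.map (rmap φ (fK_map _ φ))) fun i => φ (ρ i) := by
  have := (zed K ι g _ _ (cvK h K)).2.2.2.2.2 L φ _ (fK_map _ φ) _ _ _ z
  simp only [map_ratCast] at this
  exact this

theorem z_sub (z : ZK a K R D ρ) (z' : ZK a K R' D ρ') : ZK a K (R' - R) ⊤ fun i => ρ' i / ρ i :=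
  (zed K ι g _ _ (cvK h K)).2.2.2.1 _ _ _ _ _ z z'

theorem z_add (z : ZK a K R D ρ) (z' : ZK a K R' ⊤ ρ') : ZK a K (R + R') D fun i => ρ i * ρ' i := by
  have := (zed K ι g _ _ (cvK h K)).2.2.1 _ _ _ _ _ _ z z'
  rw [Ideal.mul_top] at this
  exact this

theorem z_unique (z : ZK a K R D ρ) (z' : ZK a K R D ρ') (i : ι) : ρ' i = ρ i := by
  have := z_sub zed h z z'
  rw [sub_self] at this
  exact eq_of_div_eq_one (((zed K ι g _ _ (cvK h K)).2.2.2.2.1 _).1 this i)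

include mum

theorem z_sq (z : ZK a K R ⊤ ρ) (i : ι) : ρ i ^ 2 = 1 := by
  have := ((zed K ι g _ _ (cvK h K)).1 _ _ _ _ z
    (mum K ι g _ _ (cvK h K)).2.2.2.2.2.2.2.2.2.2.2.1).2 i
  simpa [nb] using this

include zt in
theorem z_inj (z : ZK a K R ⊤ ρ) (z' : ZK a K R' ⊤ ρ) : R' = R :=
  sub_eq_zero.1 (((zt K ι g _ _ (cvK h K)).1 _ _ (z_sub zed h z z')).2 fun i =>
    div_self (ne_of_sq (z_sq mum zed h z i) one_ne_zero))

/-- the square roots that belong to a half of a Mumford ideal -/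
theorem z_mum {U V : K[X]} (hm : Mum (fun i => (a i : K)) (fK (fp a) K) U V)
    (hR : R.toMul ^ 2 = cl (MI _ U V)) :
    ∃ ρ, ZK a K R (MI _ U V) ρ ∧ ∀ i, ρ i ^ 2 = nb U (a i) := by
  have hn := (mum K ι g _ _ (cvK h K)).2.2.2.2.2.2.2.2.2.1 U V hm.1 hm.2.1
  obtain ⟨ρ, z⟩ := (zed K ι g _ _ (cvK h K)).2.1 _ _ _ hn hm.2.2 hR
  exact ⟨ρ, z, ((zed K ι g _ _ (cvK h K)).1 _ _ _ _ z hn).2⟩

include pic in
theorem z_ex (hR : 2 • R = 0) : ∃ ρ, ZK a K R ⊤ ρ := by
  have hd := (mum K ι g _ _ (cvK h K)).1.2.2.2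
  exact (zed K ι g _ _ (cvK h K)).2.1 _ _ _ (mum K ι g _ _ (cvK h K)).2.2.2.2.2.2.2.2.2.2.2.1
    (fun i => by simp) ((congrArg Additive.toMul hR).trans (pic.1 _).2.1.symm)

omit zed h mum in
theorem mum_map (φ : K →+* L) {U V : K[X]} (hm : Mum (fun i => (a i : K)) (fK (fp a) K) U V) :
    Mum (fun i => (a i : L)) (fK (fp a) L) (U.map φ) (V.map φ) := by
  refine ⟨hm.1.map φ, ?_, fun i => ?_⟩
  · have := Polynomial.map_dvd φ hm.2.1
    rwa [Polynomial.map_sub, Polynomial.map_pow, fK_map] at this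
  · beta_reduce
    rw [← map_ratCast φ, eval_map, eval₂_at_apply]
    exact (_root_.map_ne_zero φ).2 (hm.2.2 i)

end z

section main

variable (pic : PICStmt) (mum : MUMStmt) (zed : ZEDStmt) (zt : ZTStmt) (h : Cv g a (fp a))
variable {c : GQ → Jac (fp a) Qbar} {d : ι → ℚ} {r : ι → Qbar}

include mum zed h

include pic in
theorem exists_roots (hc : c ∈ Z1 (jac (fp a))) (h2 : ∀ σ, 2 • c σ = 0) :
    ∃ (d : ι → ℚ) (r : ι → Qbar), (∀ i, d i ≠ 0) ∧ (∀ i, r i ^ 2 = d i) ∧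
      ∀ σ : GQ, ZK a Qbar (c σ) ⊤ fun i => σ (r i) / r i := by
  choose u hu using fun σ => z_ex pic mum zed h (h2 σ)
  have hm : ∀ σ τ i, u (σ * τ) i = u σ i * u τ i := fun σ τ i => by
    have h0 := z_map zed h (σ : Qbar →+* Qbar) (hu τ)
    rw [Ideal.map_top] at h0
    have h1 := z_add zed h (hu σ) h0
    rw [← hc.2] at h1
    rw [z_unique zed h h1 (hu _) i, map_sign _ (z_sq mum zed h (hu τ) i)]
  choose d r hd hr hσ using fun i => exists_sqrt hc.1 (u := fun σ => u σ i)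
    (fun σ => z_sq mum zed h (hu σ) i) (fun σ τ => hm σ τ i)
    fun σ e => z_unique zed h (hu 1) (e ▸ hu σ) i
  exact ⟨d, r, hd, hr, fun σ => by simpa only [hσ] using hu σ⟩

theorem loc (rat : RATStmt) (h2 : ∀ σ, 2 • c σ = 0) (hd : ∀ i, d i ≠ 0) (hr : ∀ i, r i ^ 2 = d i)
    (hu : ∀ σ : GQ, ZK a Qbar (c σ) ⊤ fun i => σ (r i) / r i) (K : Type) [Field K] [CharZero K]
    (hK : JLoc (fp a) K c) : W (fun i => (a i : K)) fun i => (d i : K) := by
  obtain ⟨R, hR⟩ := hK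
  obtain ⟨U, V, hm, hP⟩ := rat K ι g _ _ _ (cvK h K) (fK_map _ (algebraMap K _)) (2 • R).toMul
    fun σ e => by
      obtain ⟨τ, hτ⟩ := exists_res K σ
      have : jmap (fp a) (σ : AlgebraicClosure K →+* AlgebraicClosure K) (2 • R) = 2 • R := by
        rw [map_nsmul, ← sub_eq_zero, ← smul_sub, ← hR σ τ hτ, ← map_nsmul, h2, map_zero]
      exact congrArg Additive.toMul this
  obtain ⟨ρ, z, hρ⟩ := z_mum mum zed h (R := R) (mum_map (algebraMap K _) hm) hP.symm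
  refine ⟨U, V, hm.1, (cvK h K).eq ▸ hm.2.1, fun i => ⟨hm.2.2 i, Rat.cast_ne_zero.2 (hd i), ?_⟩⟩
  have q : emb K (r i) ^ 2 = d i := by rw [← map_pow, hr, map_ratCast]
  have m : emb K (r i) ≠ 0 := ne_of_sq q (by exact_mod_cast hd i)
  have e1 := hρ i
  rw [← map_ratCast (algebraMap K (AlgebraicClosure K)), nb_map] at e1
  have n : ρ i ≠ 0 := ne_of_sq e1 ((_root_.map_ne_zero _).2 (mul_ne_zero (by simp) (hm.2.2 i)))
  obtain ⟨x, hx⟩ := (InfiniteGalois.mem_range_algebraMap_iff_fixed (k := K)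
    (ρ i / emb K (r i))).2 fun σ => by
      obtain ⟨τ, hτ⟩ := exists_res K σ
      have h1 := z_map zed h (emb K) (hu τ)
      rw [Ideal.map_top, hR σ τ hτ] at h1
      have h3 := z_map zed h (σ : AlgebraicClosure K →+* AlgebraicClosure K) z
      have e : (σ : AlgebraicClosure K →+* AlgebraicClosure K).comp (algebraMap K _) =
          algebraMap K _ := RingHom.ext σ.commutes
      rw [mi_map, Polynomial.map_map, Polynomial.map_map, e] at h3
      have h4 := z_unique zed h h1 (z_sub zed h z h3) i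
      rw [map_div₀, hτ, div_eq_div_iff n m] at h4
      rw [map_div₀, div_eq_div_iff ((_root_.map_ne_zero σ).2 m) m]
      exact h4.trans (mul_comm _ _)
  refine ⟨d i * x, (algebraMap K (AlgebraicClosure K)).injective ?_⟩
  simp only [map_mul, map_ratCast]
  rw [← e1, hx, ← q]
  field_simp

include zt in
theorem cover (half : HALFStmt) (hr : ∀ i, r i ^ 2 = d i) (hw : W a d) :
    ∃ R : Jac (fp a) Qbar, ∀ σ : GQ, ZK a Qbar (jac _ σ R - R) ⊤ fun i => σ (r i) / r i := by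
  obtain ⟨U, V, h1, h2, h3⟩ := hw
  have hm0 : Mum (fun i => ((a i : ℚ) : ℚ)) (fK (fp a) ℚ) U V :=
    ⟨h1, by rw [(cvK h ℚ).eq]; exact h2, fun i => (h3 i).1⟩
  have hm := mum_map (Rat.castHom Qbar) hm0
  obtain ⟨R0, hR0⟩ := half Qbar ι g _ _ (cvK h Qbar)
    (cl (MI _ (U.map (Rat.castHom Qbar)) (V.map (Rat.castHom Qbar))))
  obtain ⟨ρ, z, hρ⟩ := z_mum mum zed h (R := Additive.ofMul R0) hm hR0
  choose s hs using fun i => (h3 i).2.2
  have hd : ∀ i, (d i : Qbar) ≠ 0 := fun i => by exact_mod_cast (h3 i).2.1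
  have m : ∀ i, r i ≠ 0 := fun i => ne_of_sq (hr i) (hd i)
  have e1 : ∀ i, ρ i ^ 2 = (nb U (a i) : ℚ) := fun i => (hρ i).trans (nb_map (Rat.castHom Qbar) U _)
  have hn : ∀ i, nb U (a i) ≠ 0 := fun i => mul_ne_zero (by simp) (h3 i).1
  have n : ∀ i, ρ i ≠ 0 := fun i => ne_of_sq (e1 i) (by exact_mod_cast hn i)
  have s0 : ∀ i, (s i : Qbar) ≠ 0 := fun i => by
    exact_mod_cast left_ne_zero_of_mul (hs i ▸ mul_ne_zero (h3 i).2.1 (hn i))
  have e2 : ∀ i, ((s i : Qbar) / r i / ρ i) ^ 2 = 1 := fun i => by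
    have : (d i : Qbar) * (nb U (a i) : ℚ) = s i * s i := by exact_mod_cast hs i
    rw [← hr, ← e1] at this
    have := m i
    have := n i
    field_simp
    linear_combination -‹r i ^ 2 * ρ i ^ 2 = _›
  obtain ⟨η, hη⟩ : ∃ η, η = ∏ i, (s i : Qbar) / r i / ρ i := ⟨_, rfl⟩
  have e3 : η ^ 2 = 1 := by rw [hη, ← prod_pow, prod_eq_one fun i _ => e2 i]
  obtain ⟨T, hT⟩ := (zt Qbar ι g _ _ (cvK h Qbar)).2 (fun i => η * ((s i : Qbar) / r i / ρ i))
    (fun i => by rw [mul_pow, e3, e2, one_mul])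
    (by rw [prod_mul_distrib, prod_const, card_univ, h.card, ← hη, pow_succ, pow_mul, e3, one_pow,
      one_mul, ← sq, e3])
  have z1 := z_add zed h z (R' := Additive.ofMul T) hT
  refine ⟨Additive.ofMul R0 + Additive.ofMul T, fun σ => ?_⟩
  have z2 := z_map zed h (σ : Qbar →+* Qbar) z1
  rw [mi_map, Polynomial.map_map, Polynomial.map_map,
    RingHom.ext_rat (RingHom.comp _ _) (Rat.castHom Qbar)] at z2
  convert z_sub zed h z1 z2 using 2 with i
  have e4 : ρ i * (η * ((s i : Qbar) / r i / ρ i)) = η * (s i / r i) := by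
    have := n i
    field_simp
  have e5 : σ (r i) ^ 2 = r i ^ 2 := by rw [← map_pow, hr, map_ratCast]
  have e6 : σ (r i) ≠ 0 := (_root_.map_ne_zero σ).2 (m i)
  have e7 := ne_of_sq e3 one_ne_zero
  have := m i
  have := s0 i
  rw [e4, map_mul, map_sign _ e3, map_div₀, map_ratCast, RingHom.coe_coe]
  field_simp
  exact e5

end main

end Sha

open Sha

theorem sha (pic : PICStmt) (mum : MUMStmt) (zed : ZEDStmt) (zt : ZTStmt) (half : HALFStmt)
    (rat : RATStmt) (stab : STABStmt) : SHAStmt := by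
  intro ι _ g a h H
  refine sha_two (stab ι g a h) (fun P => ?_) fun c hc h2 hr hp => ?_
  · obtain ⟨R, hR⟩ := half Qbar ι g _ _ (cvK h Qbar) P.toMul
    exact ⟨Additive.ofMul R, congrArg Additive.ofMul hR⟩
  · obtain ⟨d, r, hd, hs, hu⟩ := exists_roots pic mum zed h hc h2
    obtain ⟨R, hR⟩ := cover mum zed zt h half hs (H d
      ⟨loc mum zed h rat h2 hd hs hu ℝ hr, fun p _ => loc mum zed h rat h2 hd hs hu _ (hp p)⟩)
    exact ⟨R, fun σ => z_inj mum zed zt h (hR σ) (hu σ)⟩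

end Pool.Agent.MP_a43263_nt.JC
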