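import Pool.Agent.MP_a43263_nt.RH.Hso
import Pool.Agent.MP_a43263_nt.RH.Hs2
import Pool.Agent.MP_a43263_nt.JC.Qv
import Pool.Agent.MP_a43263_nt.JC.Mum
import Pool.Agent.MP_a43263_nt.JC.Str
import Pool.Agent.MP_a43263_nt.JC.Grp
import Pool.Agent.MP_a43263_nt.JC.Sha
import Pool.Agent.MP_a43263_nt.JC.Idx
import Pool.Agent.MP_a43263_nt.JC.Cst

/-! THEOREM J: the algebraic and local statements as closed theorems. -/

set_option autoImplicit false

namespace Pool.Agent.MP_a43263_nt.JC.T

theorem red : REDStmt := JC.red pic mum str lcs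

theorem grep : GREPStmt := JC.grep pic mum str

theorem grp : GRPStmt := JC.grp mum str

theorem zed : ZEDStmt := JC.zed pic mum lcs grep

theorem zt : ZTStmt := JC.zt pic mum lcs red zed

theorem half : HALFStmt := JC.half pic mum str

theorem rat : RATStmt := JC.rat pic mum red grep

theorem stab : STABStmt := JC.stab pic mum red

theorem desc : DESCStmt :=
  desc_of pic mum str lcs JC.red JC.grep JC.zed JC.zt JC.half JC.rat JC.stab sha tor idx JC.desc

theorem val : VALStmt := JC.val nrm

theorem symb : SYMBStmt := JC.symb RH.hso RH.hs2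

theorem qv : QVStmt := JC.qv qs hw grp nrm

theorem nod : NODStmt := JC.nod val nrm qv tw symb

theorem cstp : CSTPStmt := JC.cstp grp

theorem cstr : CSTRStmt := JC.cstr grp

end Pool.Agent.MP_a43263_nt.JC.T
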