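import Pool.Agent.MP_a43263_nt.JC.ASpec
import Pool.Agent.MP_a43263_nt.RG.Key

/-! THEOREM J, module KEY3: the parametrisation of the terms with frozen data. -/

set_option autoImplicit false

noncomputable section

namespace Pool.Agent.MP_a43263_nt.JC

open Finset Filter
open R2 (Sgn chi pri Sc Core Shape mem_pri chi_comm chi_sgn chi_eq_rows chi_symmDiff_left
  chi_symmDiff_right chi_union_left chi_union_right)
open RG
open RG.KEY (pr mem_pr pr_pos dvd_pr pr_union pr_of_ne pr_of_eq pr_gens res T3 abs_J abs_mul_le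
  abs_pow_le abs_sgn abs_prod_le J_per exists_crt abs_res exists_ix final_bound lo_ok)
open RG.KEY.KD (nu not_dvd_both tl_eq_iff md_eq med_bound abs_ite abs_cast)

variable {nn : ℕ}

namespace KEY

theorem mem_re {Γ : Gr nn} {W : Finset (Gen nn)} {a : Gen nn} : a ∈ Γ.re W ↔ a ∈ W ∧ a.1 ∈ Γ.RT :=
  mem_filter

theorem tg_mem_RT {Γ : Gr nn} {h : Ix nn} : tg h ∈ Γ.RT ↔ h ∈ Γ.RF :=
  tg_injective.mem_finset_image

theorem exists_RF {Γ : Gr nn} {t : Tag nn} (h : t ∈ Γ.RT) : ∃ k ∈ Γ.RF, t = tg k := by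
  obtain ⟨k, hk, e⟩ := mem_image.1 h
  exact ⟨k, hk, e.symm⟩

theorem RT_ne {Γ : Gr nn} {t : Tag nn} (h : t ∈ Γ.RT) : t.2 ≠ none := by
  obtain ⟨k, -, rfl⟩ := exists_RF h
  exact tg_ne_none k

theorem mem_re_gens {Γ : Gr nn} {l : Ix nn → ℕ} {a : Gen nn} :
    a ∈ Γ.re (gens l) ↔ ∃ h ∈ Γ.RF, a.1 = tg h ∧ a.2 ∈ (l h).primeFactors := by
  rw [mem_re, mem_gens]
  exact ⟨fun ⟨⟨h, e, k⟩, k'⟩ => ⟨h, tg_mem_RT.1 (e ▸ k'), e, k⟩,
    fun ⟨h, k', e, k⟩ => ⟨⟨h, e, k⟩, e ▸ tg_mem_RT.2 k'⟩⟩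

theorem mk_mem_re {Γ : Gr nn} {l : Ix nn → ℕ} {h : Ix nn} {p : ℕ} :
    (tg h, p) ∈ Γ.re (gens l) ↔ h ∈ Γ.RF ∧ p ∈ (l h).primeFactors := by
  rw [mem_re, mk_mem_gens, tg_mem_RT, and_comm]

theorem re_sub (Γ : Gr nn) (W : Finset (Gen nn)) : Γ.re W ⊆ W := filter_subset _ _

theorem card_re_gens (Γ : Gr nn) (l : Ix nn → ℕ) :
    (Γ.re (gens l)).card = ∑ h ∈ Γ.RF, (l h).primeFactors.card := by
  have e : Γ.re (gens l) = gens fun h => if h ∈ Γ.RF then l h else 1 := by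
    ext a
    rw [mem_re_gens, mem_gens]
    constructor
    · rintro ⟨h, k, e, k'⟩
      exact ⟨h, e, by rwa [if_pos k]⟩
    · rintro ⟨h, e, k⟩
      by_cases k' : h ∈ Γ.RF
      · exact ⟨h, k', e, by rwa [if_pos k'] at k⟩
      · simp [k'] at k
  rw [e, card_gens, ← sum_filter_add_sum_filter_not univ (· ∈ Γ.RF), filter_mem_eq_inter,
    univ_inter, sum_eq_zero (s := filter _ _) fun h k => by simp [(mem_filter.1 k).2], add_zero]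
  exact sum_congr rfl fun h k => by rw [if_pos k]

theorem pr_re {Γ : Gr nn} {k : Ix nn} (hk : k ∈ Γ.RF) (X : Finset (Gen nn)) :
    pr (Γ.re X) (tg k) = pr X (tg k) := by
  rw [pr, pr, Gr.re, filter_filter]
  exact prod_congr (filter_congr fun b _ => and_iff_right_of_imp fun e => e ▸ tg_mem_RT.2 hk)
    fun _ _ => rfl

theorem disj {E : Dat3 nn} (hE : E.Ok) (l : Ix nn → ℕ) : Disjoint E.W0 (E.Γ.re (gens l)) := by
  rw [disjoint_left]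
  intro a ha hb
  exact RT_ne (mem_re.1 hb).2 (hE.fix a ha).1

theorem mk_mem_VV {E : Dat3 nn} (hE : E.Ok) {l : Ix nn → ℕ} {h : Ix nn} {p : ℕ} :
    (tg h, p) ∈ E.VV l ↔ h ∈ E.Γ.RF ∧ p ∈ (l h).primeFactors := by
  rw [Dat3.VV, mem_union, mk_mem_re]
  exact or_iff_right fun e => tg_ne_none h (hE.fix _ e).1

theorem le_VV {E : Dat3 nn} (hE : E.Ok) {Y : ℕ} (h : E.D.M ≤ Y) (l : Ix nn → ℕ) :
    le Y (E.VV l) = E.W0 ∪ le Y (E.Γ.re (gens l)) := by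
  rw [le, Dat3.VV, filter_union, filter_true_of_mem, le]
  exact fun a ha => (hE.fix a ha).2.1.trans h

theorem md_VV {E : Dat3 nn} (hE : E.Ok) {Y Y' : ℕ} (h : E.D.M ≤ Y) (l : Ix nn → ℕ) :
    md Y Y' (E.VV l) = md Y Y' (E.Γ.re (gens l)) := by
  rw [md, Dat3.VV, filter_union, filter_false_of_mem, empty_union, md]
  exact fun a ha k => not_lt.2 ((hE.fix a ha).2.1.trans h) k.1

theorem le_eq {S : Sc} {E : Dat3 nn} (hR : Rel nn S) (h0 : E.Ok) (hM : E.D.M ≤ S.Y)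
    {l c P : Ix nn → ℕ} (h : ∀ k, Core S (c k) ∧ (P k).Prime ∧ S.Y' < P k ∧ l k = c k * P k) :
    le S.Y' (E.VV l) = E.W0 ∪ E.Γ.re (gens c) := by
  rw [le_VV h0 (hM.trans hR.Y_le)]
  congr 1
  ext ⟨k, p⟩
  simp only [mem_le, mem_re_gens]
  constructor
  · rintro ⟨⟨j, hj, e, h1⟩, h2⟩
    refine ⟨j, hj, e, ?_⟩
    rw [← hR.filter_le (h j).1 (h j).2.1 (h j).2.2.1, ← (h j).2.2.2]
    exact mem_filter.2 ⟨h1, h2⟩
  · rintro ⟨j, hj, e, h1⟩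
    have := h1
    rw [← hR.filter_le (h j).1 (h j).2.1 (h j).2.2.1, ← (h j).2.2.2] at this
    exact ⟨⟨j, hj, e, (mem_filter.1 this).1⟩, (mem_filter.1 this).2⟩

theorem card_VV {S : Sc} {E : Dat3 nn} (hR : Rel nn S) (h0 : E.Ok) {l c P : Ix nn → ℕ}
    (h : ∀ k, Core S (c k) ∧ (P k).Prime ∧ S.Y' < P k ∧ l k = c k * P k) :
    (E.VV l).card = (E.W0 ∪ E.Γ.re (gens c)).card + E.Γ.RF.card := by
  rw [Dat3.VV, card_union_of_disjoint (disj h0 _),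
    card_union_of_disjoint (disj h0 _), card_re_gens, card_re_gens,
    sum_congr rfl fun k _ => by rw [(h k).2.2.2, hR.card_mul (h k).1 (h k).2.1 (h k).2.2.1],
    sum_add_distrib]
  simp [add_assoc]

/-- the frozen data -/
structure KD (nn : ℕ) where
  S : Sc
  E : Dat3 nn
  f : TL nn
  g : TL nn
  f0 : Ix nn
  g0 : Ix nn
  O : Finset (Gen nn)
  O₁ : Finset (Gen nn)
  O₂ : Finset (Gen nn)
  ok : Finset (TL nn) → Prop

namespace KD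

variable (D : KD nn)

def m (h : Ix nn) : ℕ := pr D.O (tg h)

def dl : ℤ := res D.E.D.e D.f0 D.g0

def al (h : Ix nn) : ℤ := res D.E.D.e h D.g0 * D.m D.f0

def be (h : Ix nn) : ℤ := res D.E.D.e D.f0 h * D.m D.g0

def Nn (n : ℕ) : Finset (Gen nn) := n.primeFactors.image fun p => (D.f.1, p)

def NL (n : ℕ) (ω : T3 nn) (s : ℕ) : Finset (Gen nn) := D.O ∪ (D.Nn n ∪ ω.1) ∪ {(D.g.1, s)}

def I1 (n : ℕ) (ω : T3 nn) : Finset (Gen nn) := (if D.f.2.1 then D.Nn n else ∅) ∪ ω.2.1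

def I2 (n : ℕ) (ω : T3 nn) : Finset (Gen nn) := (if D.f.2.2 then D.Nn n else ∅) ∪ ω.2.2

def U1 (n : ℕ) (ω : T3 nn) (s : ℕ) : Finset (Gen nn) :=
  D.O₁ ∪ D.I1 n ω ∪ if D.g.2.1 then {(D.g.1, s)} else ∅

def U2 (n : ℕ) (ω : T3 nn) (s : ℕ) : Finset (Gen nn) :=
  D.O₂ ∪ D.I2 n ω ∪ if D.g.2.2 then {(D.g.1, s)} else ∅

/-- the cores of the forms other than `g` -/
def cc (n : ℕ) (ω : T3 nn) (h : Ix nn) : ℕ := D.m h * if h = D.f0 then n else pr ω.1 (tg h)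

def pt (r q n : ℕ) : Ix nn → ℕ := fun h => ((D.al h * n * r + D.be h * q) / D.dl).toNat

def Cond (l : ℕ) : Prop := l ≤ D.S.Z ∧ l ≡ 1 [MOD 8 * D.E.D.M]

def pt0 (ω : T3 nn) : Finset (TL nn) :=
  pat (D.O.filter fun b => D.S.Y < b.2) D.O₁ D.O₂ ∪ pat ω.1 ω.2.1 ω.2.2 ∪ {D.f, D.g}

structure InW (ω : T3 nn) : Prop where
  s1 : ω.2.1 ⊆ ω.1
  s2 : ω.2.2 ⊆ ω.1
  dist : RG.Dist ω.1
  tag : ∀ b ∈ ω.1, b.1 ≠ D.f.1 ∧ b.1 ≠ D.g.1 ∧ ¬b.2 ∣ D.m D.g0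
  rt : ∀ b ∈ ω.1, b.1 ∈ D.E.Γ.RT
  nu : nu ω ≤ D.S.Y' ^ (9 * nn)
  card : ω.1.card ≤ 18 * nn * D.S.J

open Classical in
def W : Finset (T3 nn) := ((TT nn (pri D.S.Y D.S.Y')).powerset ×ˢ (TT nn (pri D.S.Y D.S.Y')).powerset ×ˢ
  (TT nn (pri D.S.Y D.S.Y')).powerset).filter D.InW

def P : Finset ℕ := (pri D.S.Y D.S.Y').filter fun s => ¬s ∣ D.m D.f0

def IA (r q s : ℕ) : Prop := Core D.S (D.m D.g0 * s) ∧ (q / s).Prime ∧ D.S.Y' < q / s ∧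
  D.Cond (D.m D.g0 * q) ∧ (D.m D.f0 * r).Coprime (D.m D.g0 * q)

def IB (n : ℕ) (ω : T3 nn) : Prop := (∀ h ∈ D.E.Γ.RF, h ≠ D.g0 → Core D.S (D.cc n ω h)) ∧
  (∀ p ∈ n.primeFactors, D.S.Y < p) ∧ n.Coprime (D.m D.g0)

def IP (n : ℕ) (ω : T3 nn) (h : Ix nn) (z : ℤ) : Prop :=
  ∃ c P : ℕ, Core D.S c ∧ (h ∈ D.E.Γ.RF → c = D.cc n ω h) ∧ P.Prime ∧ D.S.Y' < P ∧
    z = D.dl * (c * P : ℕ) ∧ D.Cond (c * P)

/-- the properties of the frozen data -/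
structure Ok : Prop where
  sys : D.E.Ok
  rel : Rel nn D.S
  hM : D.E.D.M ≤ D.S.Y
  hf : D.f.1 = (tg D.f0)
  hg : D.g.1 = (tg D.g0)
  ne : D.f0 ≠ D.g0
  rf : D.f0 ∈ D.E.Γ.RF
  rg : D.g0 ∈ D.E.Γ.RF
  v0 : D.E.W0 ⊆ D.O
  el : ∀ b ∈ D.O, b ∈ D.E.W0 ∨ (b.1 ∈ D.E.Γ.RT ∧ b.2.Prime ∧ b.2 ≠ 2)
  med : ∀ b ∈ D.O, D.S.Y < b.2 → (b.1 = D.f.1 ∧ tl D.O₁ D.O₂ b ≠ D.f) ∨ b.1 = D.g.1
  s1 : D.O₁ ⊆ D.O
  s2 : D.O₂ ⊆ D.O

/-- the tuples that come from a term -/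
structure Val (r q s n : ℕ) (ω : T3 nn) : Prop where
  hs : s ∈ D.P
  dvd : s ∣ q
  one : 1 < n
  hω : ω ∈ D.W
  ia : D.IA r q s
  ib : D.IB n ω
  cop : IsCoprime (q : ℤ) (n * nu ω)
  ip : ∀ h, h ≠ D.g0 → D.IP n ω h (D.al h * n * r + D.be h * q)

variable {D}

theorem mem_W {ω : T3 nn} : ω ∈ D.W ↔ ω.1 ⊆ TT nn (pri D.S.Y D.S.Y') ∧ D.InW ω := by
  simp only [W, mem_filter, mem_product, mem_powerset]
  exact ⟨fun h => ⟨h.1.1, h.2⟩, fun h => ⟨⟨h.1, h.2.s1.trans h.1, h.2.s2.trans h.1⟩, h.2⟩⟩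

theorem mem_Nn {n : ℕ} {b : Gen nn} : b ∈ D.Nn n ↔ b.1 = D.f.1 ∧ b.2 ∈ n.primeFactors := by
  simp only [Nn, mem_image]
  exact ⟨by rintro ⟨p, h, rfl⟩; exact ⟨rfl, h⟩, fun h => ⟨b.2, h.2, Prod.ext h.1.symm rfl⟩⟩

theorem Ok.prime (hD : D.Ok) (h : Ix nn) : ∀ b ∈ D.O, b.1 = (tg h) → b.2.Prime :=
  fun b hb e => (hD.el b hb).elim (fun k => absurd (e ▸ (hD.sys.fix _ k).1) (tg_ne_none h))
    fun k => k.2.1

theorem Ok.mem_m (hD : D.Ok) {h : Ix nn} {p : ℕ} :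
    p ∈ (D.m h).primeFactors ↔ ((tg h), p) ∈ D.O := mem_pr (hD.prime h)

theorem Ok.m_pos (hD : D.Ok) (h : Ix nn) : 0 < D.m h := pr_pos (hD.prime h)

theorem Ok.fg (hD : D.Ok) : D.f.1 ≠ D.g.1 := by
  rw [hD.hf, hD.hg]; exact fun e => hD.ne (tg_injective e)

theorem Ok.dl_ne (hD : D.Ok) : D.dl ≠ 0 := sub_ne_zero.2 (hD.sys.ok.ne _ _ hD.ne.symm)

variable {r q s n : ℕ} {ω : T3 nn}

theorem W_el (h : ω ∈ D.W) {b : Gen nn} (hb : b ∈ ω.1) :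
    b.1.2 ≠ none ∧ D.S.Y < b.2 ∧ b.2 ≤ D.S.Y' ∧ b.2.Prime := by
  have := mem_TT.1 ((mem_W.1 h).1 hb)
  exact ⟨this.1, mem_pri.1 this.2⟩

theorem Val.s_el (h : D.Val r q s n ω) : D.S.Y < s ∧ s ≤ D.S.Y' ∧ s.Prime :=
  mem_pri.1 (mem_filter.1 h.hs).1

/-- the values of the forms -/
theorem Val.forms (hD : D.Ok) (h : D.Val r q s n ω) : ∃ c P : Ix nn → ℕ,
    (∀ k ∈ D.E.Γ.RF, k ≠ D.g0 → c k = D.cc n ω k) ∧ c D.g0 = D.m D.g0 * s ∧
    (∀ k, Core D.S (c k) ∧ (P k).Prime ∧ D.S.Y' < P k ∧ D.pt r q n k = c k * P k) ∧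
    (∀ k, D.Cond (D.pt r q n k)) ∧
    D.pt r q n D.f0 = D.m D.f0 * n * r ∧
    D.pt r q n D.g0 = D.m D.g0 * q ∧
    ∀ k, D.dl * D.pt r q n k = D.al k * n * r + D.be k * q := by
  classical
  have h1 : ∀ k, ∃ c P : ℕ, (k ∈ D.E.Γ.RF → k ≠ D.g0 → c = D.cc n ω k) ∧
      (k = D.g0 → c = D.m D.g0 * s) ∧ Core D.S c ∧ P.Prime ∧ D.S.Y' < P ∧ D.al k * n * r + D.be k * q = D.dl * (c * P : ℕ) ∧
      D.Cond (c * P) := by
    intro k
    by_cases hk : k = D.g0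
    · have e : D.m D.g0 * s * (q / s) = D.m D.g0 * q := by
        rw [mul_assoc, Nat.mul_div_cancel' h.dvd]
      refine ⟨_, q / s, fun _ e => absurd hk e, fun _ => rfl, h.ia.1, h.ia.2.1, h.ia.2.2.1, ?_, ?_⟩
      · rw [e, hk]
        simp only [al, be, dl, res]
        push_cast
        ring
      · rw [e]
        exact h.ia.2.2.2.1
    · obtain ⟨c, P, k0, k5, k1, k2, k3, k4⟩ := h.ip k hk
      exact ⟨c, P, fun e _ => k5 e, fun e => absurd e hk, k0, k1, k2, k3, k4⟩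
  choose c P c1 c2 c3 c4 c5 c6 c7 using h1
  have h4 : ∀ k, D.pt r q n k = c k * P k := fun k => by
    rw [pt, c6, Int.mul_ediv_cancel_left _ hD.dl_ne, Int.toNat_natCast]
  have h3 : ∀ k, D.dl * D.pt r q n k = D.al k * n * r + D.be k * q := fun k => by rw [h4, c6]
  refine ⟨c, P, c1, c2 _ rfl, fun k => ⟨c3 k, c4 k, c5 k, h4 k⟩, fun k => h4 k ▸ c7 k, ?_, ?_, h3⟩
  · refine Nat.cast_injective (R := ℤ) (mul_left_cancel₀ hD.dl_ne ((h3 _).trans ?_))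
    simp only [al, be, dl, res]
    push_cast
    ring
  · refine Nat.cast_injective (R := ℤ) (mul_left_cancel₀ hD.dl_ne ((h3 _).trans ?_))
    simp only [al, be, dl, res]
    push_cast
    ring

theorem Val.mem_AA (hD : D.Ok) (h : D.Val r q s n ω) : D.pt r q n ∈ AA D.S D.E.D := by
  obtain ⟨c, P, -, -, h1, h2, h3, h4, h5⟩ := h.forms hD
  have hsh : ∀ k, Shape D.S (D.pt r q n k) := fun k => ⟨c k, P k, h1 k⟩
  have hl : Lin D.E.D.e (D.pt r q n) := Lin.of_pair (hD.sys.ok.ne _ _ hD.ne.symm) fun k => by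
    have := h5 k
    rw [h3, h4]
    simp only [al, be, dl, res] at this
    push_cast
    linear_combination this
  have hc : (D.pt r q n D.f0).Coprime (D.pt r q n D.g0) := by
    rw [h3, h4, mul_right_comm]
    refine Nat.Coprime.mul_left h.ia.2.2.2.2 (Nat.Coprime.mul_right h.ib.2.2 ?_)
    exact (Nat.isCoprime_iff_coprime.1 h.cop.of_mul_right_left).symm
  exact RG.mem_AA.2 ⟨fun k => ⟨(hsh k).one_lt.le, (h2 k).1⟩, hl, fun k => (h2 k).2,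
    hl.coprime hD.sys.ok (fun k => (h2 k).2) hc, hsh⟩

theorem Val.le_eq (hD : D.Ok) (h : D.Val r q s n ω) :
    le D.S.Y' (D.E.VV (D.pt r q n)) = D.NL n ω s ∧
    (D.E.VV (D.pt r q n)).card = (D.NL n ω s).card + D.E.Γ.RF.card := by
  obtain ⟨c, P, c1, c2, h1, -⟩ := h.forms hD
  rw [KEY.le_eq hD.rel hD.sys hD.hM h1, card_VV hD.rel hD.sys h1]
  suffices e : D.E.W0 ∪ D.E.Γ.re (gens c) = D.NL n ω s by rw [e]; exact ⟨rfl, rfl⟩
  have hn : n ≠ 0 := by have := h.one; omega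
  ext ⟨k, p⟩
  simp only [NL, mem_union, mem_singleton, mem_Nn, Prod.mk.injEq]
  by_cases hk : k ∈ D.E.Γ.RT
  swap
  · have e1 : k ≠ D.f.1 := fun e => hk (e ▸ hD.hf ▸ tg_mem_RT.2 hD.rf)
    have e2 : k ≠ D.g.1 := fun e => hk (e ▸ hD.hg ▸ tg_mem_RT.2 hD.rg)
    have e3 : (k, p) ∉ ω.1 := fun e => hk ((mem_W.1 h.hω).2.rt _ e)
    have e4 : (k, p) ∉ D.E.Γ.re (gens c) := fun e => hk (mem_re.1 e).2
    simp only [e1, e2, e3, e4, false_and, or_false]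
    exact ⟨fun e => hD.v0 e, fun e => (hD.el _ e).resolve_right fun e => hk e.1⟩
  obtain ⟨j, hj, rfl⟩ := exists_RF hk
  have e0 : ((tg j), p) ∉ D.E.W0 := fun e => tg_ne_none j (hD.sys.fix _ e).1
  rw [mk_mem_re, and_iff_right hj, hD.hf, hD.hg, tg_injective.eq_iff, tg_injective.eq_iff,
    ← hD.mem_m]
  simp only [e0, false_or]
  by_cases hg : j = D.g0
  · have e3 : ((tg j), p) ∉ ω.1 := fun e => ((mem_W.1 h.hω).2.tag _ e).2.1 (hg ▸ hD.hg.symm)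
    rw [hg] at e3
    rw [hg, c2, Nat.primeFactors_mul (hD.m_pos _).ne' h.s_el.2.2.ne_zero, h.s_el.2.2.primeFactors]
    simp only [mem_union, mem_singleton, e3, hD.ne.symm, false_and, or_false, true_and]
  · rw [c1 j hj hg, cc]
    split_ifs with hf
    · have e3 : ((tg j), p) ∉ ω.1 := fun e => ((mem_W.1 h.hω).2.tag _ e).1 (hf ▸ hD.hf.symm)
      rw [Nat.primeFactors_mul (hD.m_pos _).ne' hn]
      simp only [mem_union, e3, hg, or_false, false_and]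
      simp only [hf, true_and]
    · have hp : ∀ b ∈ ω.1, b.1 = (tg j) → b.2.Prime := fun b hb _ => (W_el h.hω hb).2.2.2
      rw [Nat.primeFactors_mul (hD.m_pos _).ne' (pr_pos hp).ne', mem_union, mem_pr hp]
      simp only [hg, hf, or_false, false_and, false_or]

/-- the four parts are disjoint -/
theorem Val.disj (hD : D.Ok) (h : D.Val r q s n ω) :
    (∀ b ∈ D.Nn n, b ∉ D.O) ∧ (∀ b ∈ ω.1, b ∉ D.O) ∧ (D.g.1, s) ∉ D.O ∧
    (∀ b ∈ ω.1, b ∉ D.Nn n) ∧ (D.g.1, s) ∉ D.Nn n ∧ (D.g.1, s) ∉ ω.1 := by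
  have ht := (mem_W.1 h.hω).2.tag
  refine ⟨fun b hb e => ?_, fun b hb e => ?_, fun e => ?_, fun b hb e => ?_, fun e => ?_,
    fun e => (ht _ e).2.1 rfl⟩
  · have h1 := (h.ib.1 _ hD.rf hD.ne).sqf
    rw [cc, if_pos rfl] at h1
    obtain ⟨k1, k2⟩ := mem_Nn.1 hb
    refine not_dvd_both h1 (Nat.prime_of_mem_primeFactors k2) ?_ (Nat.dvd_of_mem_primeFactors k2)
    rw [m, ← hD.hf, ← k1]
    exact dvd_pr e
  · rcases hD.med b e (W_el h.hω hb).2.1 with k | k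
    · exact (ht b hb).1 k.1
    · exact (ht b hb).2.1 k
  · refine not_dvd_both h.ia.1.sqf h.s_el.2.2 ?_ dvd_rfl
    rw [m, ← hD.hg]
    exact dvd_pr e
  · exact (ht b hb).1 (mem_Nn.1 e).1
  · exact hD.fg (mem_Nn.1 e).1.symm

/-- the labels of the four parts -/
theorem Val.labels (hD : D.Ok) (h : D.Val r q s n ω) :
    (∀ b ∈ D.O, tl (D.U1 n ω s) (D.U2 n ω s) b = tl D.O₁ D.O₂ b) ∧
    (∀ b ∈ D.Nn n, tl (D.U1 n ω s) (D.U2 n ω s) b = D.f) ∧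
    (∀ b ∈ ω.1, tl (D.U1 n ω s) (D.U2 n ω s) b = tl ω.2.1 ω.2.2 b) ∧
    tl (D.U1 n ω s) (D.U2 n ω s) (D.g.1, s) = D.g := by
  obtain ⟨d1, d2, d3, d4, d5, d6⟩ := h.disj hD
  have w1 := (mem_W.1 h.hω).2.s1
  have w2 := (mem_W.1 h.hω).2.s2
  have key : ∀ (X Y : Finset (Gen nn)) (u v : Bool) (b : Gen nn), b ∈ X ∪ ((if u then D.Nn n else ∅) ∪ Y) ∪
      (if v then {(D.g.1, s)} else ∅) ↔
      b ∈ X ∨ (u ∧ b ∈ D.Nn n) ∨ b ∈ Y ∨ (v ∧ b = (D.g.1, s)) := by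
    intro X Y u v b
    cases u <;> cases v <;> simp <;> tauto
  simp only [tl_eq_iff, U1, U2, I1, I2, key]
  refine ⟨fun b hb => ?_, fun b hb => ?_, fun b hb => ?_, ?_⟩
  · have a1 : b ∉ D.Nn n := fun e => d1 b e hb
    have a2 : b ∉ ω.2.1 := fun e => d2 b (w1 e) hb
    have a3 : b ∉ ω.2.2 := fun e => d2 b (w2 e) hb
    have a4 : b ≠ (D.g.1, s) := fun e => d3 (e ▸ hb)
    simp [tl, a1, a2, a3, a4]
  · have a1 : b ∉ D.O₁ := fun e => d1 b hb (hD.s1 e)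
    have a1' : b ∉ D.O₂ := fun e => d1 b hb (hD.s2 e)
    have a2 : b ∉ ω.2.1 := fun e => d4 b (w1 e) hb
    have a3 : b ∉ ω.2.2 := fun e => d4 b (w2 e) hb
    have a4 : b ≠ (D.g.1, s) := fun e => d5 (e ▸ hb)
    simp [hb, a1, a1', a2, a3, a4, (mem_Nn.1 hb).1]
  · have a1 : b ∉ D.O₁ := fun e => d2 b hb (hD.s1 e)
    have a1' : b ∉ D.O₂ := fun e => d2 b hb (hD.s2 e)
    have a2 := d4 b hb
    have a4 : b ≠ (D.g.1, s) := fun e => d6 (e ▸ hb)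
    simp [tl, a1, a1', a2, a4]
  · have a1 : (D.g.1, s) ∉ D.O₁ := fun e => d3 (hD.s1 e)
    have a1' : (D.g.1, s) ∉ D.O₂ := fun e => d3 (hD.s2 e)
    have a2 : (D.g.1, s) ∉ ω.2.1 := fun e => d6 (w1 e)
    have a3 : (D.g.1, s) ∉ ω.2.2 := fun e => d6 (w2 e)
    simp [a1, a1', a2, a3, d5]

/-- the condition in the definition of `keySum3` -/
structure Tm (D : KD nn) (i : ℕ) (x : Ix nn → ℕ) (U U' : Finset (Gen nn)) (s : Gen nn) : Prop where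
  hx : x ∈ AA D.S D.E.D
  hU : U ⊆ le D.S.Y' (D.E.VV x)
  hU' : U' ⊆ le D.S.Y' (D.E.VV x)
  hs : s ∈ md D.S.Y D.S.Y' (D.E.VV x)
  ok : D.ok (pat (md D.S.Y D.S.Y' (D.E.VV x)) U U')
  lab : tl U U' s = D.g
  out : outer D.S (D.E.VV x) U U' D.f D.g s = D.O
  o1 : D.O ∩ U = D.O₁
  o2 : D.O ∩ U' = D.O₂
  lo : 2 ^ i < nOf D.S (D.E.VV x) U U' D.f
  hi : nOf D.S (D.E.VV x) U U' D.f ≤ 2 ^ (i + 1)

/-- the medium generators of the other forms -/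
def rest (D : KD nn) (x : Ix nn → ℕ) : Finset (Gen nn) :=
  (md D.S.Y D.S.Y' (D.E.VV x)).filter fun b => b.1 ≠ D.f.1 ∧ b.1 ≠ D.g.1

theorem Val.back (hD : D.Ok) (h : D.Val r q s n ω) :
    nOf D.S (D.E.VV (D.pt r q n)) (D.U1 n ω s) (D.U2 n ω s) D.f = n ∧
    D.rest (D.pt r q n) = ω.1 ∧ ω.1 ∩ D.U1 n ω s = ω.2.1 ∧ ω.1 ∩ D.U2 n ω s = ω.2.2 ∧
    pat (md D.S.Y D.S.Y' (D.E.VV (D.pt r q n))) (D.U1 n ω s) (D.U2 n ω s) = D.pt0 ω ∧
    ∀ i, 2 ^ i < n → n ≤ 2 ^ (i + 1) → D.ok (D.pt0 ω) →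
      D.Tm i (D.pt r q n) (D.U1 n ω s) (D.U2 n ω s) (D.g.1, s) := by
  obtain ⟨d1, d2, d3, d4, d5, d6⟩ := h.disj hD
  obtain ⟨l1, l2, l3, l4⟩ := h.labels hD
  have e := (h.le_eq hD).1
  have hw := (mem_W.1 h.hω).2
  have hN : ∀ b ∈ D.Nn n, D.S.Y < b.2 := fun b hb => h.ib.2.1 _ (mem_Nn.1 hb).2
  have hω : ∀ b ∈ ω.1, D.S.Y < b.2 := fun b hb => (W_el h.hω hb).2.1
  have mem : ∀ b, b ∈ D.NL n ω s ↔ b ∈ D.O ∨ b ∈ D.Nn n ∨ b ∈ ω.1 ∨ b = (D.g.1, s) := fun b => by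
    simp only [NL, mem_union, mem_singleton, or_assoc]
  have hsq : Squarefree n := by
    have h1 := (h.ib.1 _ hD.rf hD.ne).sqf
    rw [cc, if_pos rfl] at h1
    exact h1.of_mul_right
  have e1 : nOf D.S (D.E.VV (D.pt r q n)) (D.U1 n ω s) (D.U2 n ω s) D.f = n := by
    rw [nOf, md_eq, e, filter_filter, show (D.NL n ω s).filter (fun b => D.S.Y < b.2 ∧
      tl (D.U1 n ω s) (D.U2 n ω s) b = D.f) = D.Nn n from ?_, Nn,
      prod_image fun _ _ _ _ e => (Prod.mk.inj e).2]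
    · exact Nat.prod_primeFactors_of_squarefree hsq
    ext b
    rw [mem_filter, mem]
    refine ⟨?_, fun hb => ⟨.inr (.inl hb), hN b hb, l2 b hb⟩⟩
    rintro ⟨hb | hb | hb | rfl, k1, k2⟩
    · rcases hD.med b hb k1 with k | k
      · exact absurd (l1 b hb ▸ k2) k.2
      · exact absurd ((tl_eq_iff.1 k2).1.symm.trans k) hD.fg
    · exact hb
    · exact absurd (tl_eq_iff.1 k2).1 (hw.tag b hb).1
    · exact absurd (tl_eq_iff.1 k2).1.symm hD.fg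
  have inter : ∀ (X X₁ X₂ : Finset (Gen nn)), X₁ ⊆ X → X₂ ⊆ X →
      (∀ b ∈ X, tl (D.U1 n ω s) (D.U2 n ω s) b = tl X₁ X₂ b) →
      X ∩ D.U1 n ω s = X₁ ∧ X ∩ D.U2 n ω s = X₂ := by
    intro X X₁ X₂ s1 s2 hl
    constructor <;> ext b <;> rw [mem_inter]
    · exact ⟨fun k => by simpa [tl] using (tl_eq_iff.1 (hl b k.1)).2.1.1 k.2,
        fun k => ⟨s1 k, (tl_eq_iff.1 (hl b (s1 k))).2.1.2 (by simpa [tl] using k)⟩⟩
    · exact ⟨fun k => by simpa [tl] using (tl_eq_iff.1 (hl b k.1)).2.2.1 k.2,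
        fun k => ⟨s2 k, (tl_eq_iff.1 (hl b (s2 k))).2.2.2 (by simpa [tl] using k)⟩⟩
  have sub : ∀ (X Y : Finset (Gen nn)) (u v : Bool), X ⊆ D.O → Y ⊆ ω.1 →
      X ∪ ((if u then D.Nn n else ∅) ∪ Y) ∪ (if v then {(D.g.1, s)} else ∅) ⊆ D.NL n ω s := by
    intro X Y u v s1 s2
    refine union_subset_union (union_subset_union s1 (union_subset_union ?_ s2)) ?_ <;>
      split_ifs <;> simp
  have e2 : pat (md D.S.Y D.S.Y' (D.E.VV (D.pt r q n))) (D.U1 n ω s) (D.U2 n ω s) =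
      D.pt0 ω := by
    rw [md_eq, e]
    ext π
    simp only [pat, pt0, mem_image, mem_filter, mem, mem_union, mem_insert, mem_singleton]
    constructor
    · rintro ⟨b, ⟨hb | hb | hb | rfl, k1⟩, rfl⟩
      · exact .inl (.inl ⟨b, ⟨hb, k1⟩, (l1 b hb).symm⟩)
      · exact .inr (.inl (l2 b hb))
      · exact .inl (.inr ⟨b, hb, (l3 b hb).symm⟩)
      · exact .inr (.inr l4)
    · rintro ((⟨b, ⟨hb, k1⟩, rfl⟩ | ⟨b, hb, rfl⟩) | rfl | rfl)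
      · exact ⟨b, ⟨.inl hb, k1⟩, l1 b hb⟩
      · exact ⟨b, ⟨.inr (.inr (.inl hb)), hω b hb⟩, l3 b hb⟩
      · obtain ⟨p, hp⟩ := Nat.nonempty_primeFactors.2 h.one
        have hb : (D.f.1, p) ∈ D.Nn n := mem_Nn.2 ⟨rfl, hp⟩
        exact ⟨_, ⟨.inr (.inl hb), hN _ hb⟩, l2 _ hb⟩
      · exact ⟨_, ⟨.inr (.inr (.inr rfl)), h.s_el.1⟩, l4⟩
  refine ⟨e1, ?_, (inter _ _ _ hw.s1 hw.s2 l3).1, (inter _ _ _ hw.s1 hw.s2 l3).2, e2,
    fun i i1 i2 hok => ⟨h.mem_AA hD, e ▸ sub _ _ _ _ hD.s1 hw.s1, e ▸ sub _ _ _ _ hD.s2 hw.s2, ?_,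
      e2 ▸ hok, l4, ?_, (inter _ _ _ hD.s1 hD.s2 l1).1, (inter _ _ _ hD.s1 hD.s2 l1).2,
      e1.symm ▸ i1, e1.symm ▸ i2⟩⟩
  · ext b
    rw [rest, md_eq, e, mem_filter, mem_filter, mem]
    refine ⟨?_, fun hb => ⟨⟨.inr (.inr (.inl hb)), hω b hb⟩, (hw.tag b hb).1, (hw.tag b hb).2.1⟩⟩
    rintro ⟨⟨hb | hb | hb | rfl, k1⟩, k2, k3⟩
    · exact ((hD.med b hb k1).elim (fun k => k2 k.1) k3).elim
    · exact absurd (mem_Nn.1 hb).1 k2
    · exact hb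
    · exact absurd rfl k3
  · rw [md_eq, e, mem_filter, mem]
    exact ⟨.inr (.inr (.inr rfl)), h.s_el.1⟩
  · ext b
    rw [outer, e, mem_filter, mem]
    constructor
    · rintro ⟨hb | hb | hb | rfl, k⟩
      · exact hb
      · rcases k with k | k | k
        · exact absurd (hN b hb) (not_lt.2 k)
        · exact absurd (l2 b hb) k.2
        · exact absurd ((mem_Nn.1 hb).1.symm.trans k.1) hD.fg
      · rcases k with k | k | k
        · exact absurd (hω b hb) (not_lt.2 k)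
        · exact absurd k.1 (hw.tag b hb).1
        · exact absurd k.1 (hw.tag b hb).2.1
      · rcases k with k | k | k
        · exact absurd h.s_el.1 (not_lt.2 k)
        · exact absurd k.1.symm hD.fg
        · exact absurd rfl k.2
    · intro hb
      refine ⟨.inl hb, ?_⟩
      by_cases k : b.2 ≤ D.S.Y
      · exact .inl k
      rcases hD.med b hb (not_le.1 k) with k | k
      · exact .inr (.inl ⟨k.1, l1 b hb ▸ k.2⟩)
      · exact .inr (.inr ⟨k, fun e => d3 (e ▸ hb)⟩)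

theorem Tm.fwd (hD : D.Ok) {i : ℕ} {x : Ix nn → ℕ} {U U' : Finset (Gen nn)} {s : Gen nn}
    (h : D.Tm i x U U' s) : ∃ (r q n : ℕ) (ω : T3 nn), D.Val r q s.2 n ω ∧ D.pt r q n = x ∧
      D.U1 n ω s.2 = U ∧ D.U2 n ω s.2 = U' ∧ (D.g.1, s.2) = s := by
  have hA := adm_of_mem hD.rel h.hx
  obtain ⟨x1, -, x3, -, hsh⟩ := RG.mem_AA.1 h.hx
  choose c P hc using hsh
  have hX := KEY.le_eq hD.rel hD.sys hD.hM hc
  have hs1 : s.1 = D.g.1 := (tl_eq_iff.1 h.lab).1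
  set V := D.E.VV x with hV
  set Ns := (md D.S.Y D.S.Y' V).filter fun b => tl U U' b = D.f with hNs
  have med : ∀ b ∈ md D.S.Y D.S.Y' V, b ∈ D.E.Γ.re (gens c) ∧ b.2.Prime := by
    intro b hb
    rw [md_eq, hX, mem_filter, mem_union] at hb
    have k : b ∈ D.E.Γ.re (gens c) := hb.1.resolve_left fun k => by
      have := hD.hM
      have := (hD.sys.fix _ k).2.1
      omega
    obtain ⟨j, -, -, k'⟩ := mem_re_gens.1 k
    exact ⟨k, Nat.prime_of_mem_primeFactors k'⟩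
  have hN1 : ∀ b ∈ Ns, b.1 = D.f.1 := fun b hb => (tl_eq_iff.1 (mem_filter.1 hb).2).1
  have hn : nOf D.S V U U' D.f = pr Ns D.f.1 := (pr_of_eq hN1).symm
  set n := nOf D.S V U U' D.f
  have hNn : D.Nn n = Ns := by
    ext b
    rw [mem_Nn, hn, mem_pr fun b hb _ => (med b (mem_filter.1 hb).1).2]
    exact ⟨fun k => by have h2 := k.2; rw [← k.1] at h2; exact h2,
      fun k => ⟨hN1 b k, by rw [← hN1 b k]; exact k⟩⟩
  have hO : ∀ b, b ∈ D.O ↔ b ∈ le D.S.Y' V ∧ (b.2 ≤ D.S.Y ∨ (b.1 = D.f.1 ∧ tl U U' b ≠ D.f) ∨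
      (b.1 = D.g.1 ∧ b ≠ s)) := fun b => by rw [← h.out, outer, mem_filter]
  have hR : ∀ b, b ∈ D.rest x ↔ (b ∈ le D.S.Y' V ∧ D.S.Y < b.2) ∧ b.1 ≠ D.f.1 ∧ b.1 ≠ D.g.1 :=
    fun b => by rw [rest, md_eq, mem_filter, mem_filter]
  have hN : ∀ b, b ∈ Ns ↔ (b ∈ le D.S.Y' V ∧ D.S.Y < b.2) ∧ tl U U' b = D.f :=
    fun b => by rw [hNs, md_eq, mem_filter, mem_filter]
  have hs : s ∈ le D.S.Y' V ∧ D.S.Y < s.2 := by have := h.hs; rwa [md_eq, mem_filter] at this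
  have fg := hD.fg
  have part : le D.S.Y' V = D.O ∪ (Ns ∪ D.rest x) ∪ {s} := by
    ext b
    simp only [mem_union, mem_singleton, hO, hR, hN]
    constructor
    · intro hb
      by_cases k1 : b.2 ≤ D.S.Y
      · exact .inl (.inl ⟨hb, .inl k1⟩)
      by_cases k2 : b = s
      · exact .inr k2
      by_cases k3 : tl U U' b = D.f
      · exact .inl (.inr (.inl ⟨⟨hb, not_le.1 k1⟩, k3⟩))
      by_cases k4 : b.1 = D.f.1
      · exact .inl (.inl ⟨hb, .inr (.inl ⟨k4, k3⟩)⟩)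
      by_cases k5 : b.1 = D.g.1
      · exact .inl (.inl ⟨hb, .inr (.inr ⟨k5, k2⟩)⟩)
      · exact .inl (.inr (.inr ⟨⟨hb, not_le.1 k1⟩, k4, k5⟩))
    · rintro ((k | k | k) | rfl)
      exacts [k.1, k.1.1, k.1.1, hs.1]
  have d1 : Disjoint Ns (D.rest x) := disjoint_left.2 fun b k k' => ((hR b).1 k').2.1 (hN1 b k)
  have d2 : Disjoint D.O (Ns ∪ D.rest x) := disjoint_left.2 fun b k k' => by
    rcases mem_union.1 k' with k' | k' <;> rcases ((hO b).1 k).2 with k | k | k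
    · exact absurd ((hN b).1 k').1.2 (not_lt.2 k)
    · exact k.2 ((hN b).1 k').2
    · exact fg ((hN1 b k').symm.trans k.1)
    · exact absurd ((hR b).1 k').1.2 (not_lt.2 k)
    · exact ((hR b).1 k').2.1 k.1
    · exact ((hR b).1 k').2.2 k.1
  have d3 : Disjoint (D.O ∪ (Ns ∪ D.rest x)) {s} := disjoint_singleton_right.2 fun k => by
    rcases mem_union.1 k with k | k
    · rcases ((hO s).1 k).2 with k | k | k
      · exact absurd hs.2 (not_lt.2 k)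
      · exact fg (k.1.symm.trans hs1)
      · exact k.2 rfl
    · rcases mem_union.1 k with k | k
      · exact fg ((hN1 s k).symm.trans hs1)
      · exact ((hR s).1 k).2.2 hs1
  have hcc : ∀ k ∈ D.E.Γ.RF, c k = D.m k * (pr Ns (tg k) * pr (D.rest x) (tg k)) *
      pr {s} (tg k) := by
    intro k hk
    rw [m, ← pr_union d1, ← pr_union d2, ← pr_union d3, ← part, hX,
      pr_union (disj hD.sys _), pr_re hk, pr_gens (hc k).1.sqf,
      pr_of_ne (k := tg k) fun b hb e => tg_ne_none k (e ▸ (hD.sys.fix _ hb).1), one_mul]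
  let ω : T3 nn := (D.rest x, D.rest x ∩ U, D.rest x ∩ U')
  have c1 : ∀ k ∈ D.E.Γ.RF, k ≠ D.g0 → c k = D.cc n ω k := by
    intro k hr hk
    rw [hcc k hr, cc, pr_of_ne (X := {s}) (fun b hb e => hk (tg_injective
      (by rw [← e, mem_singleton.1 hb, hs1, hD.hg]))), mul_one]
    split_ifs with hf
    · rw [pr_of_ne (X := D.rest x) (fun b hb e => ((hR b).1 hb).2.1 (by rw [e, hf, hD.hf])),
        mul_one, hn, hf, hD.hf]
    · rw [pr_of_ne (X := Ns) (fun b hb e => hf (tg_injective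
        (by rw [← e, hN1 b hb, hD.hf]))), one_mul]
  have c2 : c D.g0 = D.m D.g0 * s.2 := by
    rw [hcc _ hD.rg, pr_of_ne (X := Ns) (fun b hb e => fg (by rw [← hN1 b hb, e, hD.hg])),
      pr_of_ne (X := D.rest x) (fun b hb e => ((hR b).1 hb).2.2 (by rw [e, hD.hg])),
      pr_of_eq (X := {s}) (fun b hb => by rw [mem_singleton.1 hb, hs1, hD.hg])]
    simp
  have lf1 : x D.f0 = D.m D.f0 * n * P D.f0 := by
    rw [(hc _).2.2.2, c1 _ hD.rf hD.ne, cc, if_pos rfl]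
  have lf2 : x D.g0 = D.m D.g0 * (s.2 * P D.g0) := by
    rw [(hc _).2.2.2, c2, mul_assoc]
  have sp := (med s h.hs).2
  have z : ∀ k, D.al k * n * P D.f0 + D.be k * (s.2 * P D.g0 : ℕ) = D.dl * x k := by
    intro k
    have := hA.lin D.f0 D.g0 k
    rw [lf1, lf2] at this
    simp only [al, be, dl, res]
    push_cast at this ⊢
    linear_combination -this
  have cond : ∀ k, D.Cond (x k) := fun k => ⟨(x1 k).2, x3 k⟩
  have cfg := hA.cop _ _ hD.ne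
  rw [lf1, lf2] at cfg
  have rel : ∀ b ∈ D.rest x, b.2.Coprime (x D.g0) := by
    intro b hb
    obtain ⟨k, -, e, k1⟩ := mem_re_gens.1 (med b (mem_filter.1 hb).1).1
    have k2 : k ≠ D.g0 := fun e' => ((hR b).1 hb).2.2 (by rw [e, e', hD.hg])
    refine Nat.Coprime.coprime_dvd_left ?_ (hA.cop _ _ k2)
    rw [(hc k).2.2.2]
    exact (Nat.dvd_of_mem_primeFactors k1).mul_right _
  have mb := med_bound (fun k => (hc k).1)
    (X := D.rest x) fun b hb => ⟨re_sub _ _ (med b (mem_filter.1 hb).1).1, ((hR b).1 hb).1.2⟩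
  have e5 : s.2 * P D.g0 / s.2 = P D.g0 := Nat.mul_div_cancel_left _ sp.pos
  have un : ∀ (X X₁ : Finset (Gen nn)) (u v : Bool), X ⊆ le D.S.Y' V → D.O ∩ X = X₁ →
      (∀ b ∈ Ns, (b ∈ X ↔ u)) → (s ∈ X ↔ v) →
      X₁ ∪ ((if u then D.Nn n else ∅) ∪ D.rest x ∩ X) ∪ (if v then {(D.g.1, s.2)} else ∅) = X := by
    intro X X₁ u v k1 k2 k3 k4
    rw [hNn, ← hs1, ← k2]
    ext b
    have k5 : b ∈ X → b ∈ D.O ∨ b ∈ Ns ∨ b ∈ D.rest x ∨ b = s := fun hb => by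
      have := k1 hb
      rw [part] at this
      simpa only [mem_union, mem_singleton, or_assoc] using this
    have k6 := k3 b
    cases u <;> cases v <;> simp only [mem_union, mem_inter, mem_singleton, notMem_empty,
      Bool.false_eq_true, if_false, if_true, Prod.mk.eta, iff_false, iff_true] at * <;> grind
  refine ⟨P D.f0, s.2 * P D.g0, n, ω, ⟨?_, dvd_mul_right _ _, ?_, ?_, ?_, ?_, ?_, fun k hk => ?_⟩,
    ?_, un _ _ _ _ h.hU h.o1 (fun b hb => (tl_eq_iff.1 ((hN b).1 hb).2).2.1) (tl_eq_iff.1 h.lab).2.1,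
    un _ _ _ _ h.hU' h.o2 (fun b hb => (tl_eq_iff.1 ((hN b).1 hb).2).2.2) (tl_eq_iff.1 h.lab).2.2,
    by rw [← hs1]⟩
  · refine mem_filter.2 ⟨mem_pri.2 ⟨hs.2, (mem_le.1 hs.1).2, sp⟩, fun hd => sp.ne_one ?_⟩
    exact Nat.eq_one_of_dvd_coprimes cfg ((hd.mul_right _).mul_right _)
      ((dvd_mul_right _ _).mul_left _)
  · exact (Nat.one_le_two_pow).trans_lt h.lo
  · refine mem_W.2 ⟨fun b hb => ?_, inter_subset_left, inter_subset_left,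
      (dist_gens hA.cop).mono fun b hb =>
        re_sub _ _ (mem_md.1 (md_VV hD.sys hD.hM x ▸ (mem_filter.1 hb).1)).1, fun b hb =>
        ⟨((hR b).1 hb).2.1, ((hR b).1 hb).2.2, fun hd => (med b (mem_filter.1 hb).1).2.ne_one ?_⟩,
      fun b hb => (mem_re.1 (med b (mem_filter.1 hb).1).1).2, mb.1, mb.2⟩
    · obtain ⟨k1, k2⟩ := med b (mem_filter.1 hb).1
      exact mem_TT.2 ⟨RT_ne (mem_re.1 k1).2, mem_pri.2 ⟨((hR b).1 hb).1.2,
        (mem_le.1 ((hR b).1 hb).1.1).2, k2⟩⟩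
    · exact Nat.eq_one_of_dvd_coprimes (rel b hb) dvd_rfl (lf2 ▸ hd.mul_right _)
  · refine ⟨c2 ▸ (hc _).1, e5.symm ▸ (hc _).2.1, e5.symm ▸ (hc _).2.2.1, lf2 ▸ cond _, ?_⟩
    exact Nat.Coprime.coprime_dvd_left (by rw [mul_right_comm]; exact dvd_mul_right _ _) cfg
  · refine ⟨fun k hr hk => c1 k hr hk ▸ (hc k).1, fun p hp => ?_, ?_⟩
    · have : (D.f.1, p) ∈ Ns := hNn ▸ mem_Nn.2 ⟨rfl, hp⟩
      exact ((hN _).1 this).1.2
    · exact Nat.Coprime.coprime_dvd_left ((dvd_mul_left _ _).mul_right _)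
        (Nat.Coprime.coprime_dvd_right (dvd_mul_right _ _) cfg)
  · rw [← Nat.cast_mul, Nat.isCoprime_iff_coprime]
    refine Nat.Coprime.mul_right ?_ (Nat.Coprime.prod_right fun b hb => ?_)
    · exact (Nat.Coprime.coprime_dvd_left ((dvd_mul_left _ _).mul_right _)
        (Nat.Coprime.coprime_dvd_right (dvd_mul_left _ _) cfg)).symm
    · exact Nat.Coprime.coprime_dvd_left (lf2 ▸ dvd_mul_left _ _) (rel b hb).symm
  · refine ⟨c k, P k, (hc k).1, fun hr => c1 k hr hk, (hc k).2.1, (hc k).2.2.1, ?_, ?_⟩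
    · rw [z, (hc k).2.2.2]
    · rw [← (hc k).2.2.2]; exact cond k
  · funext k
    rw [pt, z, Int.mul_ediv_cancel_left _ hD.dl_ne, Int.toNat_natCast]

end KD

end KEY

end Pool.Agent.MP_a43263_nt.JC
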