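import Pool.Agent.MP_a43263_nt.JC.KeyA

/-! THEOREM J, module KEY3: the factorisation of a term. -/

set_option autoImplicit false

noncomputable section

namespace Pool.Agent.MP_a43263_nt.JC

open Finset Filter
open R2 (Sgn chi pri Sc Core Shape mem_pri chi_comm chi_sgn chi_eq_rows chi_symmDiff_left
  chi_symmDiff_right chi_union_left chi_union_right)
open RG
open RG.KEY (pr mem_pr pr_pos dvd_pr pr_union pr_of_ne pr_of_eq pr_gens res T3 abs_J abs_mul_le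
  abs_pow_le abs_sgn abs_prod_le J_per exists_crt abs_res exists_ix final_bound lo_ok)
open RG.KEY.KD (nu not_dvd_both tl_eq_iff md_eq med_bound abs_ite abs_cast)

variable {nn : ℕ}

namespace KEY

namespace KD

/-- the shape that the oscillation estimate needs -/
def Fact (D : KD nn) (F : ℕ → ℕ → ℕ → ℕ → T3 nn → ℤ) (e : ℕ) : Prop :=
  ∃ (a : ℕ → ℕ → ℕ → ℤ) (b : ℕ → T3 nn → ℤ) (p : ℕ → T3 nn → ℤ → ℤ) (σ : ℕ → T3 nn → ℤ) (K : T3 nn → ℤ),
    (∀ r q s, |a r q s| ≤ 1) ∧ (∀ n ω, |b n ω| ≤ 1) ∧ (∀ n ω q, |p n ω q| ≤ 1) ∧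
    (∀ n, ∀ ω ∈ D.W, ∀ q, p n ω (q + n * nu ω) = p n ω q) ∧ (∀ n ω, σ n ω = 1 ∨ σ n ω = -1) ∧
    ∀ r q s n ω, D.Val r q s n ω →
      F r q s n ω = a r q s * b n ω * p n ω q * jacobiSym (σ n ω * n ^ e * K ω) s

variable {D : KD nn} {F G : ℕ → ℕ → ℕ → ℕ → T3 nn → ℤ} {e e' : ℕ}

theorem Fact.congr (h : D.Fact G e) (hF : ∀ r q s n ω, D.Val r q s n ω → F r q s n ω = G r q s n ω) :
    D.Fact F e := by
  obtain ⟨a, b, p, σ, K, h1, h2, h3, h4, h5, h6⟩ := h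
  exact ⟨a, b, p, σ, K, h1, h2, h3, h4, h5, fun r q s n ω k => (hF r q s n ω k).trans (h6 r q s n ω k)⟩

theorem Fact.mul (h : D.Fact F e) (h' : D.Fact G e') :
    D.Fact (fun r q s n ω => F r q s n ω * G r q s n ω) (e + e') := by
  obtain ⟨a, b, p, σ, K, h1, h2, h3, h4, h5, h6⟩ := h
  obtain ⟨a', b', p', σ', K', k1, k2, k3, k4, k5, k6⟩ := h'
  refine ⟨fun r q s => a r q s * a' r q s, fun n ω => b n ω * b' n ω,
    fun n ω q => p n ω q * p' n ω q, fun n ω => σ n ω * σ' n ω, fun ω => K ω * K' ω,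
    fun _ _ _ => abs_mul_le (h1 _ _ _) (k1 _ _ _), fun _ _ => abs_mul_le (h2 _ _) (k2 _ _),
    fun _ _ _ => abs_mul_le (h3 _ _ _) (k3 _ _ _), fun n ω hω q => ?_, fun n ω => ?_,
    fun r q s n ω k => ?_⟩
  · simp only [h4 n ω hω, k4 n ω hω]
  · rcases h5 n ω with h | h <;> rcases k5 n ω with k | k <;> simp [h, k]
  · simp only [h6 r q s n ω k, k6 r q s n ω k]
    rw [show σ n ω * σ' n ω * (n : ℤ) ^ (e + e') * (K ω * K' ω) =
      σ n ω * n ^ e * K ω * (σ' n ω * n ^ e' * K' ω) by ring, jacobiSym.mul_left (σ n ω * _ * _)]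
    ring

theorem fact_a {a : ℕ → ℕ → ℕ → ℤ} (h : ∀ r q s, |a r q s| ≤ 1) :
    D.Fact (fun r q s _ _ => a r q s) 0 :=
  ⟨a, fun _ _ => 1, fun _ _ _ => 1, fun _ _ => 1, fun _ => 1, h, by simp, by simp, by simp, by simp,
    by simp⟩

theorem fact_b {b : ℕ → T3 nn → ℤ} (h : ∀ n ω, |b n ω| ≤ 1) :
    D.Fact (fun _ _ _ n ω => b n ω) 0 :=
  ⟨fun _ _ _ => 1, b, fun _ _ _ => 1, fun _ _ => 1, fun _ => 1, by simp, h, by simp, by simp,
    by simp, by simp⟩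

theorem fact_p {p : ℕ → T3 nn → ℤ → ℤ} (h : ∀ n ω q, |p n ω q| ≤ 1)
    (h' : ∀ n, ∀ ω ∈ D.W, ∀ q, p n ω (q + n * nu ω) = p n ω q) :
    D.Fact (fun _ q _ n ω => p n ω q) 0 :=
  ⟨fun _ _ _ => 1, fun _ _ => 1, p, fun _ _ => 1, fun _ => 1, by simp, by simp, h, h',
    by simp, by simp⟩

theorem fact_J {σ : ℕ → T3 nn → ℤ} (h : ∀ n ω, σ n ω = 1 ∨ σ n ω = -1) (K : T3 nn → ℤ) (e : ℕ) :
    D.Fact (fun _ _ s n ω => jacobiSym (σ n ω * n ^ e * K ω) s) e :=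
  ⟨fun _ _ _ => 1, fun _ _ => 1, fun _ _ _ => 1, σ, K, by simp, by simp, by simp, by simp, h,
    by simp⟩

theorem fact_prod (X : Finset (Gen nn)) {F : Gen nn → ℕ → ℕ → ℕ → ℕ → T3 nn → ℤ}
    (h : ∀ b ∈ X, D.Fact (F b) 0) : D.Fact (fun r q s n ω => ∏ b ∈ X, F b r q s n ω) 0 := by
  induction X using Finset.induction_on with
  | empty => exact fact_a (a := fun _ _ _ => 1) (by simp)
  | insert b X hb ih =>
    simp only [prod_insert hb]
    exact (h b (mem_insert_self _ _)).mul (ih fun a ha => h a (mem_insert_of_mem ha))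

theorem Fact.ite (h : D.Fact F e) (v : Bool) :
    D.Fact (fun r q s n ω => if v then F r q s n ω else 1) (v.toNat * e) := by
  cases v
  · simpa using fact_a (D := D) (a := fun _ _ _ => 1) (by simp)
  · simpa using h

theorem Fact.odd (h : D.Fact F e) (he : Odd e) : D.Fact F 1 := by
  obtain ⟨a, b, p, σ, K, h1, h2, h3, h4, h5, h6⟩ := h
  obtain ⟨k, rfl⟩ := he
  refine ⟨a, b, p, σ, K, h1, h2, h3, h4, h5, fun r q s n ω hv => ?_⟩
  have hc : ((n : ℤ) ^ k).gcd s = 1 := by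
    rw [← Int.isCoprime_iff_gcd_eq_one]
    exact (hv.cop.of_mul_right_left.symm.of_isCoprime_of_dvd_right
      (Int.natCast_dvd_natCast.2 hv.dvd)).pow_left
  rw [h6 r q s n ω hv, show σ n ω * (n : ℤ) ^ (2 * k + 1) * K ω =
    σ n ω * n ^ 1 * K ω * (n ^ k) ^ 2 by ring, jacobiSym.mul_left (σ n ω * _ * _),
    jacobiSym.sq_one' hc, mul_one]

variable {r q s n : ℕ} {ω : T3 nn}

theorem Val.adm (hD : D.Ok) (h : D.Val r q s n ω) : Adm D.E.D (D.pt r q n) :=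
  adm_of_mem hD.rel (h.mem_AA hD)

theorem Val.lf_f (hD : D.Ok) (h : D.Val r q s n ω) :
    D.pt r q n D.f0 = D.m D.f0 * n * r := by
  obtain ⟨-, -, -, -, -, -, h, -⟩ := h.forms hD; exact h

theorem Val.lf_g (hD : D.Ok) (h : D.Val r q s n ω) :
    D.pt r q n D.g0 = D.m D.g0 * q := by
  obtain ⟨-, -, -, -, -, -, -, h, -⟩ := h.forms hD; exact h

theorem Val.dvd_lf (hD : D.Ok) (h : D.Val r q s n ω) {k : Ix nn} {p : ℕ}
    (hb : ((tg k), p) ∈ D.NL n ω s) : p.Prime ∧ p ∣ D.pt r q n k := by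
  rw [← (h.le_eq hD).1, mem_le, mk_mem_VV hD.sys] at hb
  exact ⟨Nat.prime_of_mem_primeFactors hb.1.2, Nat.dvd_of_mem_primeFactors hb.1.2⟩

theorem Val.sqf (hD : D.Ok) (h : D.Val r q s n ω) : Squarefree n := by
  have h1 := (h.ib.1 _ hD.rf hD.ne).sqf
  rw [cc, if_pos rfl] at h1
  exact h1.of_mul_right

/-- the inner part of a label set -/
def II (D : KD nn) (u : Bool) (sel : T3 nn → Finset (Gen nn)) (n : ℕ) (ω : T3 nn) : Finset (Gen nn) :=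
  (if u then D.Nn n else ∅) ∪ sel ω

theorem II_sub {u : Bool} {sel : T3 nn → Finset (Gen nn)} (hs : sel ω ⊆ ω.1) :
    D.II u sel n ω ⊆ D.Nn n ∪ ω.1 := by
  refine union_subset_union ?_ hs
  split_ifs <;> simp

theorem Val.dj (hD : D.Ok) (h : D.Val r q s n ω) {X : Finset (Gen nn)} (hX : X ⊆ D.O) {u : Bool}
    {sel : T3 nn → Finset (Gen nn)} (hs : sel ω ⊆ ω.1) (v : Bool) : Disjoint X (D.II u sel n ω) ∧
      Disjoint (X ∪ D.II u sel n ω) (if v then {(D.g.1, s)} else ∅) := by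
  obtain ⟨d1, d2, d3, -, d5, d6⟩ := h.disj hD
  refine ⟨disjoint_left.2 fun b k k' => ?_, ?_⟩
  · rcases mem_union.1 (II_sub hs k') with k' | k'
    exacts [d1 b k' (hX k), d2 b k' (hX k)]
  · split_ifs
    · refine disjoint_singleton_right.2 fun k => ?_
      rcases mem_union.1 k with k | k
      · exact d3 (hX k)
      · rcases mem_union.1 (II_sub hs k) with k | k
        exacts [d5 k, d6 k]
    · exact disjoint_empty_right _

theorem Ok.not_dvd (hD : D.Ok) {p : ℕ} (h : D.S.Y < p) : ¬p ∣ D.E.D.M := fun k =>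
  not_lt.2 ((Nat.le_of_dvd hD.sys.ok.pos k).trans hD.hM) h

theorem Val.II_el (hD : D.Ok) (h : D.Val r q s n ω) {b : Gen nn} (hb : b ∈ D.Nn n ∪ ω.1) :
    b.1 ∈ D.E.Γ.RT ∧ b.1 ≠ D.g.1 ∧ b.2.Prime ∧ ¬b.2 ∣ D.E.D.M ∧ b.2 ≠ s := by
  have hc : ∀ p : ℕ, p.Prime → p ∣ n * nu ω → p ≠ s := by
    rintro p hp hd rfl
    have := h.cop
    rw [← Nat.cast_mul, Nat.isCoprime_iff_coprime] at this
    exact hp.ne_one (Nat.eq_one_of_dvd_coprimes this h.dvd hd)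
  rcases mem_union.1 hb with hb | hb
  · obtain ⟨k1, k2⟩ := mem_Nn.1 hb
    have k3 := Nat.prime_of_mem_primeFactors k2
    exact ⟨k1 ▸ hD.hf ▸ tg_mem_RT.2 hD.rf, k1 ▸ hD.fg, k3, hD.not_dvd (h.ib.2.1 _ k2),
      hc _ k3 ((Nat.dvd_of_mem_primeFactors k2).mul_right _)⟩
  · obtain ⟨-, k2, -, k3⟩ := W_el h.hω hb
    exact ⟨(mem_W.1 h.hω).2.rt b hb, ((mem_W.1 h.hω).2.tag b hb).2.1, k3, hD.not_dvd k2,
      hc _ k3 ((dvd_prod_of_mem _ hb).mul_left _)⟩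

/-- a row of the matrix summed over whole forms -/
def row (D : KD nn) (y : Finset (Ix nn)) (x : Ix nn → ℕ) (b : Gen nn) : ℤ :=
  ∏ a ∈ ones (D.E.VV x) y, D.E.g a b

theorem fact_rows (hD : D.Ok) {y : Finset (Ix nn)}
    (h2 : ∀ b ∈ D.E.W0, ∀ x, Adm D.E.D x → D.row y x b = 1)
    (h3 : ∀ k ∈ D.E.Γ.RF, ∀ k' : Ix nn, k ≠ k' → ∃ C : ℤ, ∀ x, Adm D.E.D x → ∀ p : ℕ, p.Prime →
      p ∣ x k → D.row y x ((tg k), p) =
        jacobiSym C p * jacobiSym (x k') p ^ D.E.Γ.Yad (tg k) y)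
    {X : Finset (Gen nn)} (hX : X ⊆ D.O) (u v : Bool) {sel : T3 nn → Finset (Gen nn)}
    (hs : ∀ ω ∈ D.W, sel ω ⊆ ω.1) :
    D.Fact (fun r q s n ω => ∏ b ∈ X ∪ D.II u sel n ω ∪ (if v then {(D.g.1, s)} else ∅),
      D.row y (D.pt r q n) b) (v.toNat * D.E.Γ.Yad D.g.1 y) := by
  obtain ⟨Cg, hg⟩ := h3 _ hD.rg _ hD.ne.symm
  have h4 : ∀ k : Tag nn, ∃ C : ℤ, k ∈ D.E.Γ.RT → k ≠ D.g.1 → ∀ r q s n ω, D.Val r q s n ω →
      ∀ p : ℕ, (k, p) ∈ D.NL n ω s → D.row y (D.pt r q n) (k, p) =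
        jacobiSym C p * jacobiSym (D.m D.g0 * (q : ℤ)) p ^ D.E.Γ.Yad k y := by
    intro k
    by_cases k1 : k ∈ D.E.Γ.RT
    swap
    · exact ⟨0, fun k => absurd k k1⟩
    obtain ⟨j, hj, rfl⟩ := exists_RF k1
    by_cases k2 : j = D.g0
    · exact ⟨0, fun _ k => absurd (k2 ▸ hD.hg.symm) k⟩
    obtain ⟨C, hC⟩ := h3 _ hj _ k2
    refine ⟨C, fun _ _ r q s n ω hv p hp => ?_⟩
    rw [hC _ (hv.adm hD) p (hv.dvd_lf hD hp).1 (hv.dvd_lf hD hp).2, hv.lf_g hD, Nat.cast_mul]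
  choose C hC using h4
  have h5 : ∀ r q s n ω, D.Val r q s n ω → ∀ p : ℕ, (D.g.1, p) ∈ D.NL n ω s →
      D.row y (D.pt r q n) (D.g.1, p) = jacobiSym Cg p *
        jacobiSym (D.m D.f0 * (r : ℤ)) p ^ D.E.Γ.Yad D.g.1 y *
        jacobiSym (1 * (n : ℤ) ^ D.E.Γ.Yad D.g.1 y * 1) p := by
    intro r q s n ω hv p hp
    rw [hD.hg] at hp ⊢
    rw [hg _ (hv.adm hD) p (hv.dvd_lf hD hp).1 (hv.dvd_lf hD hp).2, hv.lf_f hD, mul_right_comm,
      Nat.cast_mul, jacobiSym.mul_left, mul_pow, one_mul, mul_one, jacobiSym.pow_left, Nat.cast_mul,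
      mul_assoc]
  have f1 : D.Fact (fun r q s n ω => ∏ b ∈ X, D.row y (D.pt r q n) b) 0 := by
    refine fact_prod X fun b hb => ?_
    have hb' : ∀ n ω s, b ∈ D.NL n ω s := fun n ω s =>
      mem_union_left _ (mem_union_left _ (hX hb))
    rcases hD.el b (hX hb) with k | k
    · exact (fact_a (a := fun _ _ _ => 1) fun _ _ _ => by simp).congr
        fun r q s n ω hv => h2 b k _ (hv.adm hD)
    by_cases k2 : b.1 = D.g.1
    · refine ((fact_a fun r q s => abs_mul_le (abs_J Cg b.2) (abs_pow_le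
        (abs_J (D.m D.f0 * (r : ℤ)) b.2) (D.E.Γ.Yad D.g.1 y))).mul
        (fact_b fun n ω => abs_J (1 * (n : ℤ) ^ D.E.Γ.Yad D.g.1 y * 1) b.2)).congr
        fun r q s n ω hv => ?_
      rw [← h5 r q s n ω hv b.2 (k2 ▸ hb' n ω s), ← k2]
    · exact (fact_a fun r q s => abs_mul_le (abs_J (C b.1) b.2) (abs_pow_le
        (abs_J (D.m D.g0 * (q : ℤ)) b.2) (D.E.Γ.Yad b.1 y))).congr
        fun r q s n ω hv => hC b.1 k.1 k2 r q s n ω hv b.2 (hb' n ω s)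
  have f2 : D.Fact (fun r q s n ω => ∏ b ∈ D.II u sel n ω, D.row y (D.pt r q n) b) 0 := by
    refine (fact_p (p := fun n ω q => ∏ b ∈ D.II u sel n ω,
      jacobiSym (C b.1) b.2 * jacobiSym (D.m D.g0 * q) b.2 ^ D.E.Γ.Yad b.1 y)
      (fun n ω q => abs_prod_le _ fun b _ => abs_mul_le (abs_J _ _) (abs_pow_le (abs_J _ _) _))
      fun n ω hω q => prod_congr rfl fun b hb => ?_).congr
      fun r q s n ω hv => prod_congr rfl fun b hb => ?_
    · rw [J_per]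
      rw [← Nat.cast_mul, Int.natCast_dvd_natCast]
      rcases mem_union.1 (II_sub (hs ω hω) hb) with k | k
      · exact (Nat.dvd_of_mem_primeFactors (mem_Nn.1 k).2).mul_right _
      · exact (dvd_prod_of_mem _ k).mul_left _
    · have k := II_sub (hs ω hv.hω) hb
      exact hC b.1 (hv.II_el hD k).1 (hv.II_el hD k).2.1 r q s n ω hv b.2
        (mem_union_left _ (mem_union_right _ k))
  have f3 : D.Fact (fun r q s n ω => D.row y (D.pt r q n) (D.g.1, s)) (0 + D.E.Γ.Yad D.g.1 y) :=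
    ((fact_a fun r q s => abs_mul_le (abs_J Cg s) (abs_pow_le
      (abs_J (D.m D.f0 * (r : ℤ)) s) (D.E.Γ.Yad D.g.1 y))).mul
      (fact_J (σ := fun _ _ => 1) (by simp) (fun _ => 1) _)).congr
      fun r q s n ω hv => h5 r q s n ω hv s (mem_union_right _ (mem_singleton_self _))
  have f4 := (f1.mul f2).mul (f3.ite v)
  simp only [zero_add] at f4
  refine f4.congr fun r q s n ω hv => ?_
  obtain ⟨d1, d2⟩ := hv.dj hD hX (u := u) (hs ω hv.hω) v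
  rw [prod_union d2, prod_union d1]
  cases v <;> simp

theorem fact_col (hD : D.Ok) (kc : KC3Stmt)
    {X : Finset (Gen nn)} (hX : X ⊆ D.O) (u v : Bool) {sel : T3 nn → Finset (Gen nn)}
    (hs : ∀ ω ∈ D.W, sel ω ⊆ ω.1) :
    D.Fact (fun _ _ s n ω => chi D.E.g (X ∪ D.II u sel n ω) (if v then {(D.g.1, s)} else ∅))
      (v.toNat * if D.E.Γ.ad D.f.1 D.g.1 = true then u.toNat else 0) := by
  obtain ⟨k1, -, -, k4, -⟩ := kc _ _ hD.sys
  have h5 : ∀ W : Finset (Gen nn), ∃ σ : ℤ, (σ = 1 ∨ σ = -1) ∧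
      ((∀ b ∈ W, D.E.Ord b) → ∀ s : ℕ, D.E.Ord (D.g.1, s) →
        (∀ b ∈ W, b.2 ≠ s) → ∏ b ∈ W, D.E.g b (D.g.1, s) =
          jacobiSym (σ * ∏ b ∈ W.filter (fun b => D.E.Γ.ad b.1 D.g.1 = true), (b.2 : ℤ)) s) := by
    intro W
    by_cases h : ∀ b ∈ W, D.E.Ord b
    · refine (k4 W D.g.1 h).imp fun _ k => ⟨k.1, fun _ s hs hb => ?_⟩
      rw [k1 W _ hs fun a ha => .inr ⟨h a ha, hb a ha⟩, k.2]
    · exact ⟨1, .inl rfl, fun k => absurd k h⟩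
  choose σ s1 s2 using h5
  have f1 := (fact_a (D := D) fun _ _ s => abs_prod_le X fun b _ =>
    abs_sgn (hD.sys.sgn.2 b (D.g.1, s))).mul (fact_J (fun n ω => s1 (D.II u sel n ω))
      (fun ω => ∏ b ∈ (sel ω).filter (fun b => D.E.Γ.ad b.1 D.g.1 = true), (b.2 : ℤ))
      (if D.E.Γ.ad D.f.1 D.g.1 = true then u.toNat else 0))
  rw [zero_add] at f1
  refine (f1.ite v).congr fun r q s n ω hv => ?_
  have hw := hs ω hv.hω
  cases v
  · simp [chi]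
  simp only [chi, if_true, prod_singleton]
  rw [prod_union (hv.dj hD hX hw true).1, s2 _ (fun b hb => ?_) s
    ⟨hD.hg ▸ tg_mem_RT.2 hD.rg, hv.s_el.2.2, hD.not_dvd hv.s_el.1⟩
    fun b hb => (hv.II_el hD (II_sub hw hb)).2.2.2.2, mul_assoc (σ _)]
  · congr 3
    have hd : Disjoint (if u then D.Nn n else ∅) (sel ω) := by
      split_ifs
      · exact disjoint_right.2 fun b hb => (hv.disj hD).2.2.2.1 b (hw hb)
      · exact disjoint_empty_left _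
    rw [II, filter_union, prod_union (disjoint_filter_filter hd)]
    congr 1
    cases u
    · simp
    simp only [if_true, Bool.toNat_true]
    split_ifs with h
    · rw [filter_true_of_mem fun b hb => by rw [(mem_Nn.1 hb).1]; exact h, Nn,
        prod_image fun _ _ _ _ e => (Prod.mk.inj e).2, pow_one, ← Nat.cast_prod,
        Nat.prod_primeFactors_of_squarefree (hv.sqf hD)]
    · rw [filter_false_of_mem fun b hb => by rw [(mem_Nn.1 hb).1]; exact h, prod_empty, pow_zero]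
  · obtain ⟨k1, -, k2, k3, -⟩ := hv.II_el hD (II_sub hw hb)
    exact ⟨k1, k2, k3⟩

/-- the factorisation of the sign of a term -/
theorem fact_term (hD : D.Ok) (kc : KC3Stmt) (sym : SYM3Stmt) {y y' : Finset (Ix nn)}
    (hy : y ⊆ D.E.Γ.RF) (hy' : y' ⊆ D.E.Γ.RF) (ho : Odd (D.E.Γ.expo y y' D.f D.g)) :
    D.Fact (fun r q s n ω => chi D.E.g
      (symmDiff (D.U1 n ω s) (ones (D.E.VV (D.pt r q n)) y))
      (symmDiff (D.U2 n ω s) (ones (D.E.VV (D.pt r q n)) y'))) 1 := by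
  obtain ⟨y1, y2, y3, -⟩ := sym _ _ hD.sys
  obtain ⟨σ, e, s1, s2⟩ := y1 y hy y' hy' _ _ hD.ne
  have w1 : ∀ ω ∈ D.W, ω.2.1 ⊆ ω.1 := fun ω h => (mem_W.1 h).2.s1
  have w2 : ∀ ω ∈ D.W, ω.2.2 ⊆ ω.1 := fun ω h => (mem_W.1 h).2.s2
  have g := hD.sys.sgn
  have r1 := fact_rows hD (y2 y') (y3 y' hy') hD.s1 D.f.2.1 D.g.2.1 w1
  have r2 := fact_rows hD (y2 y) (y3 y hy) hD.s2 D.f.2.2 D.g.2.2 w2
  have c1 := fact_col hD kc hD.s1 D.f.2.1 D.g.2.2 w1
  have c2 := fact_col hD kc hD.s2 D.f.2.2 D.g.2.1 w2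
  have a1 := fact_a (D := D) fun r q s => abs_mul_le (abs_mul_le (abs_sgn s1)
    (abs_pow_le (abs_J (D.m D.g0 * (q : ℤ)) (D.m D.f0 * r)) e)) (abs_sgn (chi_sgn g
      (if D.g.2.1 then {(D.g.1, s)} else ∅) (if D.g.2.2 then {(D.g.1, s)} else ∅)))
  have b1 := fact_b (D := D) fun n ω => abs_sgn (chi_sgn g (D.O₁ ∪ D.I1 n ω) (D.O₂ ∪ D.I2 n ω))
  have p1 := fact_p (D := D) (p := fun n ω q => jacobiSym (D.m D.g0 * q) n ^ e)
    (fun n ω q => abs_pow_le (abs_J _ _) e) fun n ω _ q => by rw [J_per _ _ (dvd_mul_right _ _)]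
  refine Fact.odd (((((((a1.mul b1).mul p1).mul c1).mul c2).mul r2).mul r1).congr
    fun r q s n ω hv => ?_) ?_
  · have d1 : Disjoint (D.O₁ ∪ D.I1 n ω) _ :=
      (hv.dj hD hD.s1 (u := D.f.2.1) (sel := fun ω => ω.2.1) (w1 ω hv.hω) D.g.2.1).2
    have d2 : Disjoint (D.O₂ ∪ D.I2 n ω) _ :=
      (hv.dj hD hD.s2 (u := D.f.2.2) (sel := fun ω => ω.2.2) (w2 ω hv.hω) D.g.2.2).2
    have h0 : D.m D.f0 * r * n ≠ 0 := by
      rw [mul_right_comm, ← hv.lf_f hD]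
      exact ((hv.adm hD).sqf _).ne_zero
    rw [chi_symmDiff_left g, chi_symmDiff_right g, chi_symmDiff_right g, s2 _ (hv.adm hD),
      chi_comm g (D.U1 n ω s) (ones _ _), chi_eq_rows _ (ones _ _), chi_eq_rows _ (ones _ _),
      hv.lf_f hD, hv.lf_g hD, mul_right_comm (D.m D.f0),
      jacobiSym.mul_right' _ (left_ne_zero_of_mul h0) (right_ne_zero_of_mul h0), mul_pow,
      Nat.cast_mul]
    have e1 : chi D.E.g (D.U1 n ω s) (D.U2 n ω s) =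
        chi D.E.g (D.O₁ ∪ D.I1 n ω) (D.O₂ ∪ D.I2 n ω) *
        chi D.E.g (D.O₁ ∪ D.I1 n ω) (if D.g.2.2 then {(D.g.1, s)} else ∅) *
        (chi D.E.g (D.O₂ ∪ D.I2 n ω) (if D.g.2.1 then {(D.g.1, s)} else ∅) *
        chi D.E.g (if D.g.2.1 then {(D.g.1, s)} else ∅) (if D.g.2.2 then {(D.g.1, s)} else ∅)) := by
      rw [U1, U2, chi_union_left d1, chi_union_right _ d2, chi_union_right _ d2,
        chi_comm g (if D.g.2.1 then _ else _) (D.O₂ ∪ _)]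
    rw [e1]
    simp only [row, U1, U2, I1, I2, II]
    ring
  · have : D.E.Γ.expo y y' D.f D.g = 0 + 0 + 0 +
        (D.g.2.2.toNat * if D.E.Γ.ad D.f.1 D.g.1 = true then D.f.2.1.toNat else 0) +
        (D.g.2.1.toNat * if D.E.Γ.ad D.f.1 D.g.1 = true then D.f.2.2.toNat else 0) +
        D.g.2.2.toNat * D.E.Γ.Yad D.g.1 y + D.g.2.1.toNat * D.E.Γ.Yad D.g.1 y' := by
      rw [Gr.expo]
      split_ifs <;> ring
    exact this ▸ ho

end KD

end KEY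

end Pool.Agent.MP_a43263_nt.JC
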