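import Pool.Agent.MP_a43263_nt.JC.SBasic
import Pool.Agent.MP_a43263_nt.RH.Loc

/-! THEOREM J: the local conditions of the 2-descent. -/

set_option autoImplicit false

noncomputable section

namespace Pool.Agent.MP_a43263_nt.JC

open Finset
open R2 (Ker sg Sgn)
open R2.Loc (exists_sqf even_iff norm_int gcd_one val_one)
open RG (Gen)
open RG.LocH (sg_eq dvd_pr exact_pr jac_prod)
open RH (Smooth up)
open RH.LcH (jac_l jac_eq split)

namespace Loc

variable {g m : ℕ}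

theorem W_scale {K ι : Type} [Field K] [Fintype ι] {a d n s : ι → K} (h : W a d)
    (e : ∀ i, d i = n i * s i ^ 2) : W a n := by
  obtain ⟨U, V, hm, hv, h⟩ := h
  refine ⟨U, V, hm, hv, fun i => ?_⟩
  obtain ⟨h1, h2, w, hw⟩ := h i
  rw [e] at h2 hw
  have hs : s i ≠ 0 := fun c => h2 (by simp [c])
  refine ⟨h1, left_ne_zero_of_mul h2, w / s i, ?_⟩
  field_simp
  linear_combination hw

theorem sq_cancel {x f y : ℤ} (hf : f ≠ 0) (h : x * f ^ 2 = y ^ 2) : IsSquare x := by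
  obtain ⟨z, rfl⟩ := (Int.pow_dvd_pow_iff two_ne_zero).1 (⟨x, by rw [← h, mul_comm]⟩ : f ^ 2 ∣ y ^ 2)
  exact ⟨z, mul_right_cancel₀ (pow_ne_zero 2 hf) (by rw [h]; ring)⟩

theorem abs_mv (e : Ed g) (p : ℕ) (k : Vx g) : (mv e p k).natAbs = if On k e then p else 1 := by
  unfold mv
  split_ifs <;> simp

theorem abs_Gq (e : Ed g) (p : ℕ) (e' : Ed g) :
    (Gq e p e').natAbs = if adj e e' = true then p else 1 := by
  unfold Gq
  split_ifs <;> simp

theorem val_sqf {p : ℕ} [Fact p.Prime] {n : ℤ} (hn : Squarefree n) :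
    padicValInt p n = if (p : ℤ) ∣ n then 1 else 0 := by
  split_ifs with h
  · have := val_one h fun h2 => (Nat.prime_iff_prime_int.1 (Fact.out : p.Prime)).not_isUnit
      (hn _ (by rwa [← sq]))
    rw [Padic.valuation_intCast] at this
    exact_mod_cast this
  · exact padicValInt.eq_zero_of_not_dvd h

theorem up_spec {p : ℕ} [Fact p.Prime] {x : ℤ} (hx : x ≠ 0) :
    x = (p : ℤ) ^ padicValInt p x * up p x ∧ ¬(p : ℤ) ∣ up p x := by
  have e : x = (p : ℤ) ^ padicValInt p x * up p x :=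
    (Int.mul_ediv_cancel' (padicValInt_dvd x)).symm
  refine ⟨e, fun h => ?_⟩
  have : (p : ℤ) ^ (padicValInt p x + 1) ∣ x := by
    conv_rhs => rw [e]
    rw [pow_succ]
    exact mul_dvd_mul_left _ h
  rw [padicValInt_dvd_iff] at this
  omega

theorem mv_prod (gp : GP3Stmt) (e : Ed g) (k : Vx g) (s : Finset (Gen m))
    (h : ∀ x ∈ s, x.2 % 2 = 1) :
    (∏ x ∈ s, x.2) % 2 = 1 ∧ mv e (∏ x ∈ s, x.2) k = ∏ x ∈ s, mv e x.2 k := by
  induction s using Finset.cons_induction with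
  | empty => simp [mv]
  | cons a s ha ih =>
    obtain ⟨h1, h2⟩ := ih fun b hb => h b (mem_cons_of_mem hb)
    have h3 := h a (mem_cons_self _ _)
    rw [prod_cons, prod_cons, (gp g).1 _ _ _ _ h3 h1, h2, Nat.mul_mod, h1, h3]
    exact ⟨rfl, rfl⟩

/-- the local conditions at the primes that do not divide `N` -/
theorem conds (val : VALStmt) (nod : NODStmt) {N : ℕ} {b a : Vx g → ℤ} {cg : Gen m → Ed g}
    {V : Finset (Gen m)} {dg : Gen m → ℤ} {A : Ed g → ℕ} (F : Loc3 N b a cg V dg A)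
    {n : Vx g → ℤ} (sn : ∀ k, Squarefree (n k))
    (S : ∀ (p : ℕ) [Fact p.Prime], W (fun k => (a k : ℚ_[p])) fun k => (n k : ℚ_[p])) :
    (∀ p : ℕ, p.Prime → ∀ k, (p : ℤ) ∣ n k → p ∣ N ∨ ∃ x ∈ V, x.2 = p) ∧
    ∀ x ∈ V, (∀ k, ¬On k (cg x) → ¬(x.2 : ℤ) ∣ n k) ∧
      ((x.2 : ℤ) ∣ n (cg x).1.1 ↔ (x.2 : ℤ) ∣ n (cg x).1.2) ∧
      ∀ d e f : ℤ, f ≠ 0 → n (cg x).1.1 * n (cg x).1.2 * f ^ 2 = d * e ^ 2 → ¬(x.2 : ℤ) ∣ d →
        (if (x.2 : ℤ) ∣ n (cg x).1.1 then dg x * jacobiSym (-1) x.2 else 1) *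
          jacobiSym d x.2 = 1 := by
  have hA : ∀ e, (A e : ℤ) = ∏ x ∈ V.filter (fun x => cg x = e), (x.2 : ℤ) := fun e => by
    rw [F.hA, Nat.cast_prod]
  have pr : ∀ e, ∀ x ∈ V.filter (fun x => cg x = e), x.2.Prime := fun e x hx =>
    (F.pr x (mem_filter.1 hx).1).1
  have dv : ∀ {p : ℕ}, p.Prime → ∀ k l, k ≠ l → (p : ℤ) ∣ a k - a l → p ∣ N ∨ ∃ x ∈ V, x.2 = p ∧
      (k = (cg x).1.1 ∧ l = (cg x).1.2 ∨ k = (cg x).1.2 ∧ l = (cg x).1.1) := by
    intro p hp k l hkl h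
    obtain ⟨e, he⟩ := exists_ed hkl
    have h1 : (p : ℤ) ∣ (b e.1.2 - b e.1.1) * A e := by
      rw [← F.eq]
      rcases he with ⟨rfl, rfl⟩ | ⟨rfl, rfl⟩
      exacts [dvd_sub_comm.1 h, h]
    refine ((Nat.prime_iff_prime_int.1 hp).dvd_or_dvd h1).imp
      ((F.sb.sm _ _ (ed_ne e).symm).2 p hp) fun c => ?_
    obtain ⟨z, hz, e'⟩ := dvd_pr (pr e) hp (hA e ▸ c)
    refine ⟨z, (mem_filter.1 hz).1, e', ?_⟩
    rw [(mem_filter.1 hz).2]
    exact he.imp (fun c => ⟨c.1.symm, c.2.symm⟩) fun c => ⟨c.2.symm, c.1.symm⟩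
  refine ⟨fun p hp k h => ?_, fun x hx => ?_⟩
  · by_contra c
    have := Fact.mk hp
    refine (even_iff (sn k)).1 (val p (Vx g) _ _ k k (by rw [card_Vx]; exact odd_two_mul_add_one g)
      (fun l => Padic.norm_int_le_one _) (fun i l hil _ _ => ?_) (S p) k fun c => absurd rfl c) h
    rw [← Int.cast_sub]
    exact norm_int fun j => c ((dv hp i l hil j).imp_right fun ⟨z, hz, e, _⟩ => ⟨z, hz, e⟩)
  · obtain ⟨hp, hN⟩ := F.pr x hx
    have := Fact.mk hp
    have k := exact_pr (pr (cg x)) (fun y hy z hz => F.dist y (mem_filter.1 hy).1 z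
      (mem_filter.1 hz).1) (mem_filter.2 ⟨hx, rfl⟩)
      fun c => hN ((F.sb.sm _ _ (ed_ne (cg x)).symm).2 _ hp c)
    rw [← hA, ← F.eq, dvd_sub_comm, dvd_sub_comm (a := (x.2 : ℤ) ^ 2)] at k
    obtain ⟨k1, k2, k3⟩ := nod x.2 g a n _ _ (fun c => hN (c ▸ F.sb.two)) F.sb.g1 (ed_ne (cg x))
      k.1 k.2 (fun i l hil c1 c2 j => (dv hp i l hil j).elim hN fun ⟨z, hz, e, t⟩ => by
        rw [F.dist z hz x hx e] at t
        exact t.elim c1 c2) (S x.2)
    have n0 := mul_ne_zero (sn (cg x).1.1).ne_zero (sn (cg x).1.2).ne_zero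
    obtain ⟨u1, u2⟩ := up_spec (p := x.2) n0
    rw [padicValInt.mul (sn _).ne_zero (sn _).ne_zero] at u1
    obtain ⟨t, ht⟩ := id k2
    rw [ht] at u1
    simp only [val_sqf (sn _)] at k1 k2 k3
    refine ⟨fun l hl c => ?_, ?_, fun d e f hf hd hn => ?_⟩
    · have := k1 l (fun c => hl (.inl c)) fun c => hl (.inr c)
      rw [if_pos c] at this
      exact absurd this (by decide)
    · split_ifs at k2 with c1 c2 c2
      exacts [iff_of_true c1 c2, absurd k2 (by decide), absurd k2 (by decide), iff_of_false c1 c2]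
    · have p0 : (x.2 : ℤ) ≠ 0 := by exact_mod_cast hp.ne_zero
      rw [jac_eq hp u2 hn (sq_cancel (f := (x.2 : ℤ) ^ t * f) (y := d * e)
        (mul_ne_zero (pow_ne_zero _ p0) hf) (by
          rw [u1] at hd
          linear_combination d * hd))]
      have j2 := jacobiSym.sq_one (gcd_one u2)
      rw [F.dg x hx, ← jacobiSym.mul_left, neg_mul_neg, mul_one, gm, filter_not_on]
      split_ifs at k3 ⊢
      · rw [pow_one] at k3
        rwa [← k3, ← sq]
      · rw [k3, pow_zero, one_mul]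

end Loc

open Loc in
theorem loc3 : GP3Stmt → MAT3Stmt → VALStmt → NODStmt → CST3Stmt → LOC3Stmt := by
  intro gp mat val nod cst g m N b a Fr cg V dg A hF F d els
  have d0 : ∀ k, d k ≠ 0 := fun k c => by
    obtain ⟨_, _, -, -, h⟩ := els.1
    exact (h k).2.1 (by simp [c])
  choose n s sn hs en using fun k => exists_sqf (d0 k)
  obtain ⟨m1, m2, m3, -⟩ := mat g m Fr cg dg
  replace m1 := m1 hF.sgn
  have S : ∀ (p : ℕ) [Fact p.Prime], W (fun k => (a k : ℚ_[p])) fun k => (n k : ℚ_[p]) :=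
    fun p _ => by
      simpa using W_scale (n := fun k => (n k : ℚ_[p])) (s := fun k => (s k : ℚ_[p])) (els.2 p)
        fun k => by exact_mod_cast en k
  have SR : W (fun k => (a k : ℝ)) fun k => (n k : ℝ) := by
    simpa using W_scale (n := fun k => (n k : ℝ)) (s := fun k => (s k : ℝ)) els.1
      fun k => by exact_mod_cast en k
  have SS := cst g N b a n A F.sb F.one F.eq ⟨SR, fun p _ _ => S p⟩
  obtain ⟨cv, cx⟩ := conds val nod F sn S
  have p2 : ∀ x ∈ V, x.2 ≠ 2 := fun x hx k => (F.pr x hx).2 (k ▸ F.sb.two)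
  have od : ∀ x ∈ V, x.2 % 2 = 1 := fun x hx => (F.pr x hx).1.eq_two_or_odd.resolve_left (p2 x hx)
  have vV : ∀ x ∈ V, ∀ k, Fr.vec cg x k = mv (cg x) x.2 k := fun x hx k =>
    if_neg (by have := od x hx; omega)
  have GV : ∀ x ∈ V, ∀ e, Fr.GG cg e x = Gq (cg x) x.2 e := fun x hx k =>
    if_neg (by have := od x hx; omega)
  have v0 : ∀ i k, Fr.vec cg (((0, none), 2 * i) : Gen m) k = Fr.G i k := fun i k => by
    simp [Frame.vec]
  have G0 : ∀ i e, Fr.GG cg e (((0, none), 2 * i) : Gen m) = Fr.G i e.1.1 * Fr.G i e.1.2 :=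
    fun i e => by simp [Frame.GG]
  have n0 : ∀ i e, ∀ x ∈ V, ¬(x.2 : ℤ) ∣ Fr.GG cg e (((0, none), 2 * i) : Gen m) :=
    fun i e x hx c => by
      rw [G0] at c
      obtain ⟨hp, hN⟩ := F.pr x hx
      exact hN (((Nat.prime_iff_prime_int.1 hp).dvd_or_dvd c).elim ((hF.sm i _).2 _ hp)
        ((hF.sm i _).2 _ hp))
  obtain ⟨y₁, hy₁⟩ : ∃ y₁ : Finset (Gen m), ∀ x, x ∈ y₁ ↔ x ∈ V ∧ (x.2 : ℤ) ∣ n (cg x).1.1 :=
    ⟨V.filter _, fun x => mem_filter⟩
  have hV : ∀ x ∈ y₁, x ∈ V := fun x hx => ((hy₁ x).1 hx).1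
  have ne : ∀ x ∈ V, ∀ k, Fr.vec cg x k ≠ 0 := fun x hx k => Int.natAbs_ne_zero.1 (by
    rw [vV x hx, abs_mv]; split_ifs; exacts [(F.pr x hx).1.ne_zero, one_ne_zero])
  have dy : RG.Dist y₁ := fun x hx z hz => F.dist x (hV x hx) z (hV z hz)
  choose u su fu using fun k => split (N := N) (sn k) dy (fun x => Fr.vec cg x k)
    (fun x hx => ⟨(F.pr x (hV x hx)).1, by
      obtain ⟨h1, h2⟩ := (hy₁ x).1 hx
      rw [vV x h1, abs_mv]
      by_cases c : On k (cg x)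
      · refine Or.inl ⟨if_pos c, ?_⟩
        rcases c with rfl | rfl
        exacts [h2, (cx x h1).2.1.1 h2]
      · exact Or.inr ⟨if_neg c, (cx x h1).1 k c⟩⟩)
    fun p hp h => (cv p hp k h).imp_right fun ⟨x, hx, e⟩ => ⟨x, (hy₁ x).2 ⟨hx, by
      subst e
      by_cases c : On k (cg x)
      · rcases c with rfl | rfl
        exacts [h, (cx x hx).2.1.2 h]
      · exact absurd h ((cx x hx).1 k c)⟩, e⟩
  have fV : ∀ e, ∀ x ∈ y₁.filter (fun x => cg x = e), x ∈ V := fun e x hx =>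
    hV x (mem_filter.1 hx).1
  have em : ∀ k, mm (fun e => ∏ x ∈ y₁.filter (fun x => cg x = e), x.2) k =
      ∏ x ∈ y₁, Fr.vec cg x k := fun k => by
    rw [mm, ← prod_fiberwise y₁ cg]
    refine prod_congr rfl fun e _ => ?_
    rw [(mv_prod gp e k _ fun x hx => od x (fV e x hx)).2]
    exact prod_congr rfl fun x hx => by rw [vV x (fV e x hx), (mem_filter.1 hx).2]
  obtain ⟨x₀, hx₀, q, row⟩ := hF.loc u _ su
    (fun e => Nat.Coprime.prod_left fun x hx =>
      (Nat.Prime.coprime_iff_not_dvd (F.pr x (fV e x hx)).1).2 (F.pr x (fV e x hx)).2)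
    (by simpa only [em, ← fu] using SS)
  choose w q using q
  obtain ⟨y, hy, hp⟩ : ∃ y : Finset (Gen m),
      (∀ x, x ∈ y ↔ (∃ i ∈ x₀, ((0, none), 2 * i) = x) ∨ x ∈ y₁) ∧ ∀ f : Gen m → ℤ,
        ∏ x ∈ y, f x = (∏ i ∈ x₀, f ((0, none), 2 * i)) * ∏ x ∈ y₁, f x := by
    refine ⟨x₀.image (fun i => ((0, none), 2 * i)) ∪ y₁,
      fun x => by simp only [mem_union, mem_image], fun f => ?_⟩
    rw [prod_union, prod_image fun i _ j _ e => by simpa using e]
    refine disjoint_left.2 fun x hx k => ?_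
    obtain ⟨i, -, rfl⟩ := mem_image.1 hx
    have := od _ (hV _ k)
    simp at this
  have E : ∀ k, n k * ∏ x ∈ y, Fr.vec cg x k = (w k * ∏ x ∈ y₁, Fr.vec cg x k) ^ 2 := fun k => by
    rw [hp, fu k]
    simp only [v0]
    linear_combination (∏ x ∈ y₁, Fr.vec cg x k) ^ 2 * q k
  have NZ : ∀ k, ∏ x ∈ y, Fr.vec cg x k ≠ 0 := fun k => prod_ne_zero_iff.2 fun x hx => by
    rcases (hy x).1 hx with ⟨i, -, rfl⟩ | c
    exacts [v0 i k ▸ (hF.sm i k).1, ne x (hV x c) k]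
  refine ⟨y, mem_filter.2 ⟨mem_powerset.2 fun x hx => ?_, fun z hz => ?_⟩,
    fun k => ⟨⟨s k * (w k * ∏ x ∈ y₁, Fr.vec cg x k : ℤ), ?_⟩, NZ k⟩⟩
  · rcases (hy x).1 hx with ⟨i, hi, rfl⟩ | k
    exacts [mem_union_left _ (mem_image_of_mem _ (hx₀ hi)), mem_union_right _ (hV x k)]
  · rcases mem_union.1 hz with hz | hz
    · obtain ⟨i, hi, rfl⟩ := mem_image.1 hz
      have k1 : ∏ t ∈ x₀, Fr.mat cg dg ((0, none), 2 * t) ((0, none), 2 * i) =
          ∏ t ∈ x₀, Fr.τ t i := prod_congr rfl fun t _ => by simp [Frame.mat]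
      have k2 : ∏ x ∈ y₁, Fr.mat cg dg x ((0, none), 2 * i) = ∏ t ∈ x₀, Fr.τ t i := by
        rw [row i (mem_range.1 hi), Pj, ← prod_fiberwise y₁ cg]
        refine prod_congr rfl fun e _ => ?_
        rw [jac_prod _ _ fun x hx => (F.pr x (fV e x hx)).1.ne_zero]
        refine prod_congr rfl fun x hx => ?_
        have k := fV e x hx
        rw [m1.1, m2 _ x (by rintro rfl; simpa using od _ k) (F.pr x k).1 (p2 x k)
          (n0 i _ x k), G0, (mem_filter.1 hx).2]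
      rw [hp, k1, k2]
      exact prod_induction _ (fun z : ℤ => z * z = 1)
        (fun x y hx hy => by rw [mul_mul_mul_comm, hx, hy, one_mul]) rfl fun t _ => by
          rcases hF.sgn.2 t i with e | e <;> simp [e]
    · have hzp := (F.pr z hz).1
      have hzi := Nat.prime_iff_prime_int.1 hzp
      have nd : ∀ x ∈ y, ¬(z.2 : ℤ) ∣ Fr.GG cg (cg z) x := fun x hx j => by
        rcases (hy x).1 hx with ⟨i, -, rfl⟩ | k
        · exact n0 i _ z hz j
        · rw [Int.natCast_dvd, GV x (hV x k), abs_Gq] at j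
          split_ifs at j with t
          · rw [F.dist z hz x (hV x k)
              ((Nat.prime_dvd_prime_iff_eq hzp (F.pr x (hV x k)).1).1 j)] at t
            simp [adj] at t
          · exact hzp.not_dvd_one j
      have nG : ¬(z.2 : ℤ) ∣ ∏ x ∈ y, Fr.GG cg (cg z) x := fun j => by
        obtain ⟨x, hx, j⟩ := (hzi.dvd_finsetProd_iff _).1 j
        exact nd x hx j
      have mem : z ∈ y ↔ (z.2 : ℤ) ∣ n (cg z).1.1 := by
        rw [hy, hy₁]
        refine ⟨fun k => (k.resolve_left ?_).2, fun k => Or.inr ⟨hz, k⟩⟩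
        rintro ⟨i, -, rfl⟩
        simpa using od _ hz
      have key : (if z ∈ y then dg z * jacobiSym (Fr.GG cg (cg z) z) z.2 else 1) *
          jacobiSym (∏ x ∈ y, Fr.GG cg (cg z) x) z.2 = 1 := by
        rw [GV z hz, (gp g).2.2.2.2.2.2 _ _ (od z hz)]
        have hγ := m3 y (cg z)
        generalize (∏ a ∈ y.filter (fun a => a.2 % 2 = 1 ∧ cg a = cg z), (a.2 : ℤ)) = γ at hγ
        have h0 := mul_ne_zero (NZ (cg z).1.1) (NZ (cg z).1.2)
        rw [hγ] at h0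
        have := (cx z hz).2.2 (∏ x ∈ y, Fr.GG cg (cg z) x)
          ((w _ * ∏ x ∈ y₁, Fr.vec cg x (cg z).1.1) * (w _ * ∏ x ∈ y₁, Fr.vec cg x (cg z).1.2))
          ((∏ x ∈ y, Fr.GG cg (cg z) x) * γ)
          (mul_ne_zero (left_ne_zero_of_mul h0) fun c => h0 (by simp [c]))
          (by rw [mul_pow (w _ * _), ← E, ← E, mul_mul_mul_comm (n _), hγ]; ring) nG
        simpa only [mem] using this
      have K : ∏ x ∈ y.erase z, Fr.mat cg dg x z =
          ∏ x ∈ y.erase z, jacobiSym (Fr.GG cg (cg z) x) z.2 :=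
        prod_congr rfl fun x hx => m2 x z (ne_of_mem_erase hx) hzp (p2 z hz)
          (nd x (mem_of_mem_erase hx))
      rw [jac_l] at key
      by_cases k : z ∈ y
      · have := Fact.mk hzp
        rw [if_pos k, ← mul_prod_erase y _ k, ← K, mul_assoc, ← mul_assoc (jacobiSym _ _), ← sq,
          jacobiSym.sq_one (gcd_one (nd z k)), one_mul] at key
        have e : Fr.mat cg dg z z = sg (dg z) := by simp [Frame.mat, od z hz]
        rw [← mul_prod_erase y _ k, e, sg_eq (Int.eq_one_or_neg_one_of_mul_eq_one key), key]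
      · rw [erase_eq_of_notMem k] at K
        rw [K, ← key, if_neg k, one_mul]
  · have := congrArg (Int.cast : ℤ → ℚ) (E k)
    rw [en k]
    push_cast at this ⊢
    linear_combination s k ^ 2 * this

end Pool.Agent.MP_a43263_nt.JC
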