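import Pool.Agent.MP_a43263_nt.JC.SBasic

/-! THEOREM J: the entries of the descent matrix, and the local conditions at the bad places. -/

set_option autoImplicit false

namespace Pool.Agent.MP_a43263_nt.JC

open Finset
open R2 (Sgn sg)
open RG (Gen)

namespace MatA

lemma sg_sgn (j : ℤ) : sg j = 1 ∨ sg j = -1 := by unfold sg; split_ifs <;> simp

lemma sg_eq {j : ℤ} (h : j = 1 ∨ j = -1) : sg j = j := by rcases h with rfl | rfl <;> simp [sg]

/-- the differences of the roots are those of the base fibre times positive numbers close to one -/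
lemma diff {g N : ℕ} {b a : Vx g → ℤ} {A : Ed g → ℕ} (hN : 0 < N)
    (h1 : ∀ e, A e ≡ 1 [MOD 128 * N])
    (h2 : ∀ e : Ed g, a e.1.2 - a e.1.1 = (b e.1.2 - b e.1.1) * A e) (i k : Vx g) :
    ∃ t : ℤ, 0 ≤ t ∧ a i - a k = (b i - b k) * (1 + 128 * N * t) := by
  rcases eq_or_ne i k with rfl | hik
  · exact ⟨0, le_rfl, by ring⟩
  obtain ⟨e, he⟩ := exists_ed hik
  have h3 : A e % (128 * N) = 1 := by
    have := h1 e
    rwa [Nat.ModEq, Nat.mod_eq_of_lt (a := 1) (by omega)] at this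
  have h4 : (A e : ℤ) = 1 + 128 * N * (A e / (128 * N) : ℕ) := by
    have := Nat.mod_add_div (A e) (128 * N)
    rw [h3] at this
    exact_mod_cast this.symm
  refine ⟨(A e / (128 * N) : ℕ), Int.natCast_nonneg _, ?_⟩
  rw [← h4]
  have h5 := h2 e
  rcases he with ⟨rfl, rfl⟩ | ⟨rfl, rfl⟩
  · linear_combination -h5
  · exact h5

lemma cv {K : Type} [Field K] [CharZero K] {g : ℕ} (hg : 1 ≤ g) {a : Vx g → ℤ}
    (h : ∀ i k, i ≠ k → a i - a k ≠ 0) :
    Cv g (fun i => (a i : K)) (fp fun i => (a i : K)) :=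
  ⟨card_Vx g, hg, fun i k e => by
    by_contra c
    exact h i k c (sub_eq_zero.2 (Int.cast_injective (α := K) e)), rfl⟩

end MatA

open MatA

theorem mat3 (h : GP3Stmt) : MAT3Stmt := by
  intro g m Fr cg dg
  obtain ⟨-, -, g3, g4, -, g6, -⟩ := h g
  have h1 : ∀ a b : Gen m, a.2 % 2 = 1 → b.2 % 2 = 1 →
      jacobiSym (Fr.GG cg (cg b) a) b.2 = jacobiSym (Fr.GG cg (cg a) b) a.2 := fun a b ha hb => by
    rw [Frame.GG, Frame.GG, if_neg (by omega), if_neg (by omega)]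
    exact g6 _ _ _ _ ha hb
  have h2 : ∀ a b : Gen m, a ≠ b → b.2 % 2 = 1 →
      Fr.mat cg dg a b = sg (jacobiSym (Fr.GG cg (cg b) a) b.2) := fun a b hab hb => by
    rw [Frame.mat, if_neg (by omega), if_neg hab, if_pos hb]
  have h3 : ∀ a b : Gen m, a.2 % 2 = 1 → b.2 % 2 = 0 →
      Fr.mat cg dg a b = sg (jacobiSym (Fr.GG cg (cg a) b) a.2) := fun a b ha hb => by
    rw [Frame.mat, if_neg (by omega), if_neg (by rintro rfl; omega), if_neg (by omega)]
  refine ⟨fun hτ => ⟨fun a b => ?_, fun a b => ?_⟩, fun a b hab hp hb hd => ?_, fun x e => ?_,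
    fun hs x => ?_⟩
  · rcases eq_or_ne a b with rfl | hab
    · rfl
    rcases Nat.mod_two_eq_zero_or_one a.2 with ha | ha <;>
      rcases Nat.mod_two_eq_zero_or_one b.2 with hb | hb
    · rw [Frame.mat, Frame.mat, if_pos ⟨ha, hb⟩, if_pos ⟨hb, ha⟩, hτ.1]
    · rw [h2 a b hab hb, h3 b a hb ha]
    · rw [h2 b a hab.symm ha, h3 a b ha hb]
    · rw [h2 a b hab hb, h2 b a hab.symm ha, h1 a b ha hb]
  · unfold Frame.mat
    split_ifs
    exacts [hτ.2 _ _, sg_sgn _, sg_sgn _, sg_sgn _]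
  · rw [h2 a b hab (hp.eq_two_or_odd.resolve_left hb)]
    exact sg_eq (jacobiSym.eq_one_or_neg_one (Int.isCoprime_iff_gcd_eq_one.1
      ((Nat.prime_iff_prime_int.1 hp).irreducible.coprime_iff_not_dvd.2 hd).symm))
  · rw [prod_filter, ← prod_pow, ← prod_mul_distrib, ← prod_mul_distrib]
    refine prod_congr rfl fun a _ => ?_
    unfold Frame.vec Frame.GG
    rcases Nat.mod_two_eq_zero_or_one a.2 with ha | ha
    · rw [if_pos ha, if_pos ha, if_pos ha, if_neg (by omega), one_pow, mul_one]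
    · rw [if_neg (by omega), if_neg (by omega), if_neg (by omega), g4]
      simp only [ha, true_and]
  · rw [prod_comm]
    refine Finset.prod_induction _ _ (fun _ _ => IsSquare.mul) IsSquare.one fun a _ => ?_
    unfold Frame.vec
    rcases Nat.mod_two_eq_zero_or_one a.2 with ha | ha
    · simp only [if_pos ha]
      exact hs _
    · simp only [if_neg (show ¬a.2 % 2 = 0 by omega)]
      exact ⟨a.2, by rw [g3, sq]⟩

theorem cst3 (hp : CSTPStmt) (hr : CSTRStmt) : CST3Stmt := by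
  intro g N b a d A sb h1 h2 hs
  have hd := diff sb.pos h1 h2
  have hN : (0 : ℤ) < N := by exact_mod_cast sb.pos
  have hb : ∀ i k, i ≠ k → b i - b k ≠ 0 := fun i k c => (sb.sm i k c).1
  have ha : ∀ i k, i ≠ k → a i - a k ≠ 0 := fun i k c => by
    obtain ⟨t, ht, e⟩ := hd i k
    rw [e]
    exact mul_ne_zero (hb i k c) (by positivity)
  refine ⟨hr _ g _ _ _ (cv sb.g1 hb) (cv sb.g1 ha) (fun i k => ?_) hs.1, fun p _ hpN =>
    hp p _ g _ _ _ (cv sb.g1 hb) (cv sb.g1 ha) (fun i k c => ?_) (hs.2 p hpN)⟩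
  · obtain ⟨t, ht, e⟩ := hd i k
    have h3 : (0 : ℤ) < 1 + 128 * N * t := by positivity
    rw [Int.cast_lt, Int.cast_lt, ← sub_neg, ← sub_neg (a := a i), e]
    exact ⟨fun c => mul_neg_of_neg_of_pos c h3, fun c => neg_of_mul_neg_left c h3.le⟩
  · obtain ⟨t, -, e⟩ := hd i k
    have hpd : (p : ℤ) ∣ 32 * N * t :=
      ((Int.natCast_dvd_natCast.2 hpN).mul_left 32).mul_right t
    have h3 : ‖((32 * N * t : ℤ) : ℚ_[p])‖ < 1 := Padic.norm_intCast_lt_one_iff.2 hpd
    have h4 : ‖((1 + 128 * N * t : ℤ) : ℚ_[p])‖ = 1 := by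
      refine le_antisymm (Padic.norm_int_le_one _) (not_lt.1 fun c => ?_)
      have h5 : (p : ℤ) ∣ 1 + 128 * N * t := Padic.norm_intCast_lt_one_iff.1 c
      have h6 : (p : ℤ) ∣ 128 * N * t := by
        have := hpd.mul_left 4
        rwa [show (4 : ℤ) * (32 * N * t) = 128 * N * t by ring] at this
      exact (Nat.prime_iff_prime_int.1 Fact.out).not_dvd_one ((dvd_add_left h6).1 h5)
    have e1 : (a i : ℚ_[p]) - a k = ((b i : ℚ_[p]) - b k) * ((1 + 128 * N * t : ℤ) : ℚ_[p]) := by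
      exact_mod_cast congrArg (Int.cast (R := ℚ_[p])) e
    have e2 : ((b i : ℚ_[p]) - b k) - ((a i : ℚ_[p]) - a k) =
        -(4 * ((b i : ℚ_[p]) - b k) * ((32 * N * t : ℤ) : ℚ_[p])) := by
      rw [e1]; push_cast; ring
    have h7 : 0 < ‖(4 : ℚ_[p])‖ * ‖(b i : ℚ_[p]) - b k‖ := by
      refine mul_pos (norm_pos_iff.2 (by norm_num)) (norm_pos_iff.2 ?_)
      exact_mod_cast hb i k c
    rw [e2, e1, norm_neg, norm_mul, norm_mul, norm_mul, h4, mul_one]
    exact mul_lt_of_lt_one_right h7 h3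

end Pool.Agent.MP_a43263_nt.JC
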