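import Pool.Agent.MP_a43263_nt.JC.SBasic
import Pool.Agent.MP_a43263_nt.RH.Br

/-! THEOREM J, row OK: the data of the analytic part are admissible. -/

set_option autoImplicit false

noncomputable section

namespace Pool.Agent.MP_a43263_nt.JC

open Finset
open R2 (Sgn sg)
open RG (Ix Tag Gen tg neg tg_ne_none)
open RG.Br (nontriv cop_of_one not_dvd_of_cop)
open RH (Smooth)
open RH.Br2 (sm_mul sm_one sm_neg sm_mono sm_prime sq_cancel odd_of)

namespace Ok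

variable {g n m : ℕ} {F : HS g n} {B : Bs g n} {T : Em g n m} {Fr : Frame g} {cg : Gen m → Ed g}

theorem mem_V0 {x : Gen m} : x ∈ Fr.V0 m ↔ ∃ i < Fr.k, x = ((0, none), 2 * i) := by
  simp only [Frame.V0, mem_image, mem_range, eq_comm]

theorem mem_V1 {x : Gen m} :
    x ∈ Em.V1 m B ↔ ∃ h, ∃ p ∈ (B.a h).primeFactors, x = ((0, none), p) := by
  simp only [Em.V1, mem_image, mem_biUnion, mem_univ, true_and, eq_comm]

theorem G_even (e : Ed g) (t : Tag m) (i : ℕ) :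
    Fr.GG cg e (t, 2 * i) = Fr.G i e.1.1 * Fr.G i e.1.2 := by
  simp [Frame.GG]

theorem G_odd (e : Ed g) {a : Gen m} (h : ¬2 ∣ a.2) : Fr.GG cg e a = Gq (cg a) a.2 e :=
  if_neg fun k => h (Nat.dvd_of_mod_eq_zero k)

theorem sm_Gq (e e' : Ed g) {p : ℕ} (hp : p.Prime) : Smooth p (Gq e p e') := by
  unfold Gq
  refine sm_mul ?_ ?_ <;> split_ifs
  exacts [sm_neg sm_one, sm_one, sm_prime hp, sm_one]

theorem NM (hT : T.Ok F B) : B.N ∣ T.M := by
  have := nontriv hT.two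
  obtain ⟨h, k, hk⟩ := exists_pair_ne (Ix m)
  exact Int.natCast_dvd_natCast.1 (((dvd_mul_left _ _).mul_right _).trans (hT.dv h k hk))

theorem sm_V0 {N : ℕ} {b : Vx g → ℤ} (hFr : Fr.Ok N b) {x : Gen m} (hx : x ∈ Fr.V0 m) (e : Ed g) :
    Smooth N (Fr.GG cg e x) := by
  obtain ⟨i, -, rfl⟩ := mem_V0.1 hx
  rw [G_even]
  exact sm_mul (hFr.sm i _) (hFr.sm i _)

theorem G_V1 (hB : B.Ok F) {x : Gen m} (hx : x ∈ Em.V1 m B) (e : Ed g) :
    x.2.Prime ∧ ¬x.2 ∣ B.N ∧ Fr.GG cg e x = Gq (cg x) x.2 e := by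
  obtain ⟨h, p, hp, rfl⟩ := mem_V1.1 hx
  have hq := Nat.prime_of_mem_primeFactors hp
  have hN : ¬p ∣ B.N := not_dvd_of_cop hq (cop_of_one (hB.one h)) (Nat.dvd_of_mem_primeFactors hp)
  exact ⟨hq, hN, G_odd e (odd_of hq hB.pre.two hN)⟩

theorem exists_adj (hg : 1 ≤ g) (c : Ed g) : ∃ e : Ed g, adj c e = true := by
  obtain ⟨l, hl⟩ : ((univ.erase c.1.1).erase c.1.2).Nonempty := by
    rw [← card_pos, card_erase_of_mem (mem_erase.2 ⟨(ed_ne c).symm, mem_univ _⟩),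
      card_erase_of_mem (mem_univ _), card_univ, card_Vx]
    omega
  obtain ⟨l2, l1, -⟩ : l ≠ c.1.2 ∧ l ≠ c.1.1 ∧ l ∈ univ := by simpa only [mem_erase] using hl
  obtain ⟨e, he⟩ := exists_ed l1.symm
  refine ⟨e, decide_eq_true ⟨?_, .inl ?_⟩⟩
  · rintro rfl
    rcases he with h | h
    exacts [l2 h.2.symm, l1 h.1.symm]
  · rcases he with h | h
    exacts [.inl h.1.symm, .inr h.2.symm]

theorem not_sq (hB : B.Ok F) {b : Vx g → ℤ} (hFr : Fr.Ok B.N b) {U : Finset (Gen m)}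
    (hU : U ⊆ Fr.V0 m ∪ Em.V1 m B) {x : Gen m} (hxU : x ∈ U) (hx : x ∈ Em.V1 m B) {e : Ed g}
    (he : adj (cg x) e = true) : ¬IsSquare (∏ a ∈ U, Fr.GG cg e a) := by
  obtain ⟨hp, hN, e1⟩ := G_V1 (Fr := Fr) (cg := cg) hB hx e
  have hp' : Prime (x.2 : ℤ) := Nat.prime_iff_prime_int.1 hp
  have h1 : ¬(x.2 : ℤ) ∣ ∏ y ∈ U.erase x, Fr.GG cg e y := fun h => by
    obtain ⟨y, hy, hd⟩ := (hp'.dvd_finsetProd_iff _).1 h
    rcases mem_union.1 (hU (mem_of_mem_erase hy)) with h0 | h0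
    · exact hN ((sm_V0 hFr h0 e).2 _ hp hd)
    · obtain ⟨hq, -, e'⟩ := G_V1 (Fr := Fr) (cg := cg) hB h0 e
      rw [e'] at hd
      have e2 := (Nat.prime_dvd_prime_iff_eq hp hq).1 ((sm_Gq _ _ hq).2 _ hp hd)
      obtain ⟨_, _, -, a1⟩ := mem_V1.1 hx
      obtain ⟨_, _, -, a2⟩ := mem_V1.1 h0
      exact ne_of_mem_erase hy (Prod.ext (by rw [a1, a2]) e2.symm)
  rintro ⟨t, ht⟩
  rw [← mul_prod_erase U _ hxU, e1] at ht
  have h2 : ∃ s : ℤ, s * s = 1 ∧ Gq (cg x) x.2 e = s * x.2 := by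
    rw [Gq, if_pos he]
    exact ⟨_, by split_ifs <;> norm_num, rfl⟩
  obtain ⟨s, hs, e'⟩ := h2
  rw [e'] at ht
  have h3 : (x.2 : ℤ) ∣ t * t := ⟨s * ∏ y ∈ U.erase x, Fr.GG cg e y, by linear_combination -ht⟩
  obtain ⟨u, rfl⟩ : (x.2 : ℤ) ∣ t := (hp'.dvd_or_dvd h3).elim id id
  refine h1 ⟨s * (u * u), mul_left_cancel₀ hp'.ne_zero ?_⟩
  linear_combination s * ht - (x.2 * ∏ y ∈ U.erase x, Fr.GG cg e y) * hs

theorem ind (hg : 1 ≤ g) (hB : B.Ok F) {b : Vx g → ℤ} (hFr : Fr.Ok B.N b) {U : Finset (Gen m)}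
    (hU : U ⊆ Fr.V0 m ∪ Em.V1 m B) (hs : ∀ e, IsSquare (∏ a ∈ U, Fr.GG cg e a)) : U = ∅ := by
  have h0 : U ⊆ Fr.V0 m := fun x hx => (mem_union.1 (hU hx)).elim id fun h1 => by
    obtain ⟨e, he⟩ := exists_adj hg (cg x)
    exact absurd (hs e) (not_sq hB hFr hU hx h1 he)
  obtain ⟨x, hx, rfl⟩ := subset_image_iff.1 h0
  obtain ⟨P, hP⟩ : ∃ P : Vx g → ℤ, ∀ k, P k = ∏ i ∈ x, Fr.G i k := ⟨_, fun _ => rfl⟩
  have P0 : ∀ k, P k ≠ 0 := fun k => hP k ▸ prod_ne_zero_iff.2 fun i _ => (hFr.sm i k).1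
  have h1 : ∀ e : Ed g, IsSquare (P e.1.1 * P e.1.2) := fun e => by
    have := hs e
    rw [prod_image fun s _ t _ e => by have := (Prod.mk.inj e).2; omega] at this
    simp only [G_even] at this
    rwa [prod_mul_distrib, ← hP, ← hP] at this
  have h2 : ∀ j k, IsSquare (P j * P k) := fun j k => by
    by_cases c : j = k
    · exact ⟨P j, by rw [c]⟩
    · obtain ⟨e, ⟨rfl, rfl⟩ | ⟨rfl, rfl⟩⟩ := exists_ed c
      exacts [h1 e, mul_comm (P e.1.1) _ ▸ h1 e]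
  have h3 : IsSquare (∏ k, P k) := by
    simp only [hP]
    rw [prod_comm]
    exact prod_induction _ IsSquare (fun _ _ => IsSquare.mul) IsSquare.one fun i _ => hFr.sq i
  rw [hFr.ind x hx fun j => ?_, image_empty]
  have h4 : IsSquare (∏ k, P j * P k) :=
    prod_induction _ IsSquare (fun _ _ => IsSquare.mul) IsSquare.one fun k _ => h2 j k
  rw [prod_mul_distrib, prod_const, card_univ, card_Vx, mul_comm] at h4
  have h5 := sq_cancel (prod_ne_zero_iff.2 fun k _ => P0 k) h3 h4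
  rw [pow_succ] at h5
  exact hP j ▸ sq_cancel (pow_ne_zero _ (P0 j)) ⟨P j ^ g, by rw [two_mul, pow_add]⟩ h5

end Ok

open Ok in
theorem ok3 (gp : GP3Stmt) (mat : MAT3Stmt) (graph : GRAPHStmt) : OK3Stmt := by
  intro g n m r F B T Fr hF hB hT hFr hk
  have hNM := NM hT
  have h2M : 2 ∣ T.M := hB.pre.two.trans hNM
  obtain ⟨m1, m2, -⟩ := mat g m Fr T.cg T.dg
  have fix : ∀ x ∈ Fr.V0 m ∪ Em.V1 m B, x.1.2 = none ∧ x.2 ≤ T.M ∧
      ∀ e, Smooth T.M (Fr.GG T.cg e x) := by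
    intro x hx
    rcases mem_union.1 hx with h | h
    · refine ⟨?_, ?_, fun e => sm_mono (sm_V0 hFr h e) hNM⟩
      · obtain ⟨i, -, rfl⟩ := mem_V0.1 h
        rfl
      · obtain ⟨i, hi, rfl⟩ := mem_V0.1 h
        change 2 * i ≤ T.M
        omega
    · have h1 : x.2 ∣ T.M := by
        obtain ⟨j, p, hp, rfl⟩ := mem_V1.1 h
        exact (Nat.dvd_of_mem_primeFactors hp).trans (hT.aM j)
      refine ⟨?_, Nat.le_of_dvd hT.pos h1, fun e => ?_⟩
      · obtain ⟨j, p, -, rfl⟩ := mem_V1.1 h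
        rfl
      · obtain ⟨hp, -, e'⟩ := G_V1 (Fr := Fr) (cg := T.cg) hB h e
        rw [e']
        exact sm_mono (sm_Gq _ _ hp) h1
  have nn : ∀ x : Gen m, (T.dat B Fr).Ord x → x.1.2 ≠ none := fun x hx => by
    obtain ⟨h, -, e⟩ := mem_image.1 hx.1
    rw [← e]
    exact tg_ne_none h
  have cg : ∀ x : Gen m, (T.dat B Fr).Ord x → T.cg x = T.ct x.1 := fun x hx => if_neg (nn x hx)
  have ord : ∀ e (x : Gen m), (T.dat B Fr).Ord x → Fr.GG T.cg e x = Gq (T.ct x.1) x.2 e :=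
    fun e x hx => by rw [G_odd e (odd_of hx.2.1 h2M hx.2.2), cg x hx]
  refine ⟨⟨hT.two, hT.pos, hT.sm, hT.ne, fun h k hk => (dvd_mul_left _ _).trans (hT.dv h k hk),
    fun h => (hT.sc h).1, fun h => (sm_mono (hT.sc h) hNM).2, ?_, fun x hx => ?_,
    fun _ _ => rfl⟩, graph g n m T hF.pos hF.two hT.ct, m1 hFr.sgn,
    fun x hx => ⟨(fix x hx).1, (fix x hx).2.1, fun t => (fix x hx).2.2 _⟩,
    fun t x hx => ord _ x hx, fun x y hy hx => ?_, fun h hh p hp hd => ?_,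
    fun U hU hs => ind (cg := T.cg) hF.pos hB hFr hU fun e => ?_⟩
  · refine ⟨mem_singleton_self _, fun x hx => .inl (mem_singleton.1 hx), fun x hx y hy _ => ?_,
      fun x hx h0 => ?_⟩
    · rw [mem_singleton.1 hx, mem_singleton.1 hy]
    · rw [mem_singleton.1 hx] at h0
      exact absurd rfl h0
  · rw [mem_singleton.1 hx]
    exact ⟨rfl, one_dvd _⟩
  · change Fr.mat T.cg T.dg x y = jacobiSym (Fr.GG T.cg (T.ct y.1) x) y.2
    rw [← cg y hy]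
    refine m2 x y ?_ hy.2.1 (fun e => hy.2.2 (e ▸ h2M)) fun hd => ?_
    · rintro rfl
      rcases hx with hx | hx
      · exact nn x hy (fix x hx).1
      · exact hx.2 rfl
    · rcases hx with hx | hx
      · exact hy.2.2 (((fix x hx).2.2 _).2 _ hy.2.1 hd)
      · rw [ord _ x hx.1] at hd
        exact hx.2 ((Nat.prime_dvd_prime_iff_eq hy.2.1 hx.1.2.1).1
          ((sm_Gq _ _ hx.1.2.1).2 _ hy.2.1 hd)).symm
  · have h1 : ¬2 ∣ p := odd_of hp h2M hd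
    have h3 : ¬(p : ℤ) ∣ -T.c h := fun e => hd ((sm_mono (sm_neg (hT.sc h)) hNM).2 p hp e)
    have h4 := jacobiSym.eq_one_or_neg_one (a := -T.c h) (b := p)
      (Int.isCoprime_iff_gcd_eq_one.1
        (((Nat.prime_iff_prime_int.1 hp).irreducible.coprime_iff_not_dvd).2 h3).symm)
    have ho : (T.dat B Fr).Ord (tg h, p) := ⟨mem_image_of_mem _ hh, hp, hd⟩
    change Fr.mat T.cg T.dg (tg h, p) (tg h, p) =
      jacobiSym (T.c h * Fr.GG T.cg (T.ct (tg h)) (tg h, p)) p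
    rw [ord _ _ ho, jacobiSym.mul_left, (gp g).2.2.2.2.2.2 _ p (by omega), ← jacobiSym.mul_left,
      mul_neg_one, Frame.mat, if_neg fun e => h1 (Nat.dvd_of_mod_eq_zero e.1), if_pos rfl]
    change sg (jacobiSym (-T.c h) p) = _
    rcases h4 with e | e <;> rw [e] <;> rfl
  · have k := hs (T.em (e, ⟨0, by have := hF.two; omega⟩)) (mem_map_of_mem _ (mem_univ _))
    change IsSquare (∏ a ∈ U, Fr.GG T.cg (T.ct (tg (T.em _))) a) at k
    rwa [hT.ct] at k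

end Pool.Agent.MP_a43263_nt.JC
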