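import Pool.Agent.MP_a43263_nt.JC.SBasic
import Pool.Agent.MP_a43263_nt.RH.Par

/-! THEOREM J: the parity of the corank of the descent matrix. -/

set_option autoImplicit false

noncomputable section

namespace Pool.Agent.MP_a43263_nt.JC

open Finset
open R2 (Sgn chi Ker sg sg_eq chi_eq_rows)
open RG (Gen)
open RH (Smooth BOR5Stmt)
open RH.ParH (jac_smooth jac_eq jac_nat_prod)

namespace Par

variable {g m N : ℕ} {a b : Vx g → ℤ} {Fr : Frame g} {cg : Gen m → Ed g} {V : Finset (Gen m)}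
  {dg : Gen m → ℤ} {A : Ed g → ℕ}

/-- the other index of a pair -/
def oth (k : Vx g) (e : Ed g) : Vx g := if e.1.1 = k then e.1.2 else e.1.1

/-- the pairs at an index -/
theorem star {M : Type} [CommMonoid M] (k : Vx g) (φ : Vx g → M) :
    ∏ e ∈ univ.filter (fun e : Ed g => On k e), φ (oth k e) = ∏ l ∈ univ.erase k, φ l := by
  refine prod_bij (fun e _ => oth k e) (fun e he => ?_) (fun e he e' he' h => ?_)
    (fun l hl => ?_) fun _ _ => rfl
  · have := ed_ne e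
    have := (mem_filter.1 he).2
    refine mem_erase.2 ⟨?_, mem_univ _⟩
    unfold oth
    split_ifs <;> grind
  · have h1 := (mem_filter.1 he).2
    have h2 := (mem_filter.1 he').2
    have h3 := e.2
    have h4 := e'.2
    refine Subtype.ext (Prod.ext ?_ ?_) <;> unfold oth at h <;> split_ifs at h <;> grind
  · obtain ⟨e, ⟨h1, h2⟩ | ⟨h1, h2⟩⟩ := exists_ed (ne_of_mem_erase hl)
    · refine ⟨e, mem_filter.2 ⟨mem_univ _, Or.inr h2.symm⟩, ?_⟩
      rw [oth, if_neg (h1 ▸ ne_of_mem_erase hl), h1]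
    · refine ⟨e, mem_filter.2 ⟨mem_univ _, Or.inl h1.symm⟩, ?_⟩
      rw [oth, if_pos h1, h2]

theorem fd_eq (c : Vx g → ℤ) (k : Vx g) : fd c k = ∏ l ∈ univ.erase k, (c k - c l) := by
  unfold fd
  exact prod_congr (by ext; simp) fun _ _ => rfl

theorem fd_mul (h : ∀ e : Ed g, a e.1.2 - a e.1.1 = (b e.1.2 - b e.1.1) * A e) (k : Vx g) :
    fd a k = fd b k * ∏ e ∈ univ.filter (fun e : Ed g => On k e), (A e : ℤ) := by
  rw [fd_eq, fd_eq, ← star k fun l => a k - a l, ← star k fun l => b k - b l, ← prod_mul_distrib]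
  refine prod_congr rfl fun e he => ?_
  have := h e
  unfold oth
  split_ifs with c
  · rw [← c]
    linear_combination -this
  · rw [(mem_filter.1 he).2.resolve_left (Ne.symm c)]
    exact this

/-- the generator of the frame with number `i` -/
def fr (m i : ℕ) : Gen m := ((0, none), 2 * i)

theorem fr_inj : Function.Injective (fr m) := fun i j e => by
  have := (Prod.mk.inj e).2
  omega

theorem g_fr (i j : ℕ) : Fr.mat cg dg (fr m i) (fr m j) = Fr.τ i j := by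
  simp [Frame.mat, fr]

theorem G_fr (i : ℕ) (e : Ed g) : Fr.GG cg e (fr m i) = Fr.G i e.1.1 * Fr.G i e.1.2 := by
  simp [Frame.GG, fr]

theorem odd_V (L : Loc3 N b a cg V dg A) {x : Gen m} (hx : x ∈ V) : x.2 ≠ 2 ∧ x.2 % 2 = 1 :=
  have h : x.2 ≠ 2 := fun e => (L.pr x hx).2 (e ▸ L.sb.two)
  ⟨h, (L.pr x hx).1.eq_two_or_odd.resolve_left h⟩

theorem fr_ne (L : Loc3 N b a cg V dg A) {x : Gen m} (hx : x ∈ V) (i : ℕ) : fr m i ≠ x := by
  rintro rfl
  have := (odd_V L hx).2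
  simp [fr] at this

theorem G_V (L : Loc3 N b a cg V dg A) {x : Gen m} (hx : x ∈ V) (e : Ed g) :
    Fr.GG cg e x = Gq (cg x) x.2 e := if_neg (by have := (odd_V L hx).2; omega)

theorem g_V (L : Loc3 N b a cg V dg A) {x : Gen m} (hx : x ∈ V) :
    Fr.mat cg dg x x = sg (dg x) := by
  have := (odd_V L hx).2
  simp [Frame.mat, this]

theorem nd_sm (L : Loc3 N b a cg V dg A) {x : Gen m} (hx : x ∈ V) {u : ℤ} (hu : Smooth N u) :
    ¬(x.2 : ℤ) ∣ u := fun k => (L.pr x hx).2 (hu.2 _ (L.pr x hx).1 k)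

theorem nd_fr (hF : Fr.Ok N b) (L : Loc3 N b a cg V dg A) {x : Gen m} (hx : x ∈ V) (i : ℕ)
    (e : Ed g) : ¬(x.2 : ℤ) ∣ Fr.GG cg e (fr m i) := by
  rw [G_fr]
  exact fun k => ((Nat.prime_iff_prime_int.1 (L.pr x hx).1).dvd_or_dvd k).elim
    (nd_sm L hx (hF.sm _ _)) (nd_sm L hx (hF.sm _ _))

theorem nd_V (L : Loc3 N b a cg V dg A) {x t : Gen m} (hx : x ∈ V) (ht : t ∈ V)
    (hne : t ≠ x) (e : Ed g) : ¬(x.2 : ℤ) ∣ Fr.GG cg e t := by
  have hp := (L.pr x hx).1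
  have n1 : ¬(x.2 : ℤ) ∣ 1 := fun k => hp.not_dvd_one (by exact_mod_cast k)
  have n2 : ¬(x.2 : ℤ) ∣ t.2 := fun k => hne (L.dist t ht x hx
    ((Nat.prime_dvd_prime_iff_eq hp (L.pr t ht).1).1 (by exact_mod_cast k)).symm)
  rw [G_V L ht, Gq]
  split_ifs <;> simpa using (by assumption)

theorem four (L : Loc3 N b a cg V dg A) (e : Ed g) : A e % 4 = 1 :=
  (L.one e).of_dvd (Dvd.dvd.mul_right (by norm_num : 4 ∣ 128) _)

theorem Gq_prod (gp : GP3Stmt) (e e' : Ed g) (s : Finset (Gen m)) (h : ∀ x ∈ s, x.2 % 2 = 1) :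
    (∏ x ∈ s, x.2) % 2 = 1 ∧ ∏ x ∈ s, Gq e x.2 e' = Gq e (∏ x ∈ s, x.2) e' := by
  classical
  induction s using Finset.induction_on with
  | empty => simp [Gq]
  | insert x s hx ih =>
    obtain ⟨h1, h2⟩ := ih fun y hy => h y (mem_insert_of_mem hy)
    have h3 := h x (mem_insert_self _ _)
    rw [prod_insert hx, prod_insert hx, (gp g).2.1 e e' _ _ h3 h1, h2]
    exact ⟨by rw [Nat.mul_mod, h3, h1], rfl⟩

theorem prod_V (gp : GP3Stmt) (L : Loc3 N b a cg V dg A) (e : Ed g) :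
    ∏ t ∈ V, Fr.GG cg e t =
      (∏ e' ∈ (univ.filter fun e' : Ed g => On e.1.1 e').erase e, (A e' : ℤ)) *
        ∏ e' ∈ (univ.filter fun e' : Ed g => On e.1.2 e').erase e, (A e' : ℤ) := by
  have k : ∀ (i : Vx g), ∏ e' ∈ (univ.filter fun e' : Ed g => On i e').erase e, (A e' : ℤ) =
      ∏ e', if e' ≠ e ∧ On i e' then (A e' : ℤ) else 1 := fun i => by
    rw [← prod_filter]
    exact prod_congr (by ext; simp) fun _ _ => rfl
  rw [k, k, ← prod_mul_distrib, ← prod_fiberwise_of_maps_to (t := univ) (g := cg)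
    fun _ _ => mem_univ _]
  refine prod_congr rfl fun e' _ => ?_
  rw [prod_congr rfl (g := fun x : Gen m => Gq e' x.2 e) fun x hx => by
      rw [G_V L (mem_filter.1 hx).1, (mem_filter.1 hx).2],
    (Gq_prod gp e' e _ fun x hx => (odd_V L (mem_filter.1 hx).1).2).2, ← L.hA, Gq,
    if_neg (by have := four L e'; omega), one_mul, ((gp g).2.2.2.2.1 e' e).2.1]
  have h3 := e.2
  have h4 := e'.2
  have h5 : On e.1.1 e' → On e.1.2 e' → e' = e := fun h1 h2 =>
    Subtype.ext (Prod.ext (by grind) (by grind))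
  by_cases c : e' = e
  · simp [adj, c]
  · by_cases c1 : On e.1.1 e' <;> by_cases c2 : On e.1.2 e'
    · exact absurd (h5 c1 c2) c
    all_goals simp only [adj, c1, c2, c, Ne.symm c, ne_eq, not_false_eq_true]; simp

/-- the symbol of the characteristic vector at a prime of `V` -/
theorem jac_w (gp : GP3Stmt) (hF : Fr.Ok N b) (L : Loc3 N b a cg V dg A) {x : Gen m} (hx : x ∈ V)
    (h0 : dg x ≠ 0) :
    jacobiSym ((∏ t ∈ Fr.κ.image (fr m), Fr.GG cg (cg x) t) * ∏ t ∈ V, Fr.GG cg (cg x) t) x.2 =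
      jacobiSym (-1) x.2 := by
  have hp := (L.pr x hx).1
  have := Fact.mk hp
  have hP := Nat.prime_iff_prime_int.1 hp
  have dA : (x.2 : ℤ) ∣ A (cg x) := by
    rw [Int.natCast_dvd_natCast, L.hA]
    exact dvd_prod_of_mem _ (mem_filter.2 ⟨hx, rfl⟩)
  rw [L.dg x hx] at h0
  rw [prod_image fr_inj.injOn, prod_V gp L]
  generalize cg x = e at *
  have ne := ed_ne e
  have nd : ¬(x.2 : ℤ) ∣ ∏ i ∈ Fr.κ, Fr.GG cg e (fr m i) := fun k => by
    obtain ⟨i, -, k⟩ := hP.dvd_finsetProd_iff _ |>.1 k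
    exact nd_fr hF L hx i _ k
  have nf : ∀ k, ¬(x.2 : ℤ) ∣ fd b k := fun k h => by
    rw [fd_eq] at h
    obtain ⟨l, hl, h⟩ := hP.dvd_finsetProd_iff _ |>.1 h
    exact nd_sm L hx (L.sb.sm k l (ne_of_mem_erase hl).symm) h
  have sq : IsSquare (fd b e.1.1 * fd b e.1.2 * ∏ i ∈ Fr.κ, Fr.GG cg e (fr m i)) := by
    have := (hF.kk e.1.1).mul (hF.kk e.1.2)
    have e1 : ((-1 : ℤ) ^ g) * (-1) ^ g = 1 := by rw [← mul_pow]; simp
    simp only [G_fr, prod_mul_distrib]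
    obtain ⟨r, hr⟩ := this
    exact ⟨r, by linear_combination hr - (fd b e.1.1 * fd b e.1.2 * (∏ i ∈ Fr.κ, Fr.G i e.1.1) *
      ∏ i ∈ Fr.κ, Fr.G i e.1.2) * e1⟩
  have A0 : (A e : ℤ) ≠ 0 := by have := four L e; omega
  have f1 := fd_mul L.eq e.1.1
  have f2 := fd_mul L.eq e.1.2
  rw [← mul_prod_erase _ _ (mem_filter.2 ⟨mem_univ e, Or.inl rfl⟩), fd_eq,
    ← mul_prod_erase _ _ (mem_erase.2 ⟨ne.symm, mem_univ _⟩), ← filter_not_on] at f1
  rw [← mul_prod_erase _ _ (mem_filter.2 ⟨mem_univ e, Or.inr rfl⟩), fd_eq,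
    ← mul_prod_erase _ _ (mem_erase.2 ⟨ne, mem_univ _⟩), erase_right_comm, ← filter_not_on] at f2
  have q := L.eq e
  rw [gm] at h0
  set P1 := ∏ e' ∈ (univ.filter fun e' : Ed g => On e.1.1 e').erase e, (A e' : ℤ)
  set P2 := ∏ e' ∈ (univ.filter fun e' : Ed g => On e.1.2 e').erase e, (A e' : ℤ)
  set γ1 := ∏ l ∈ univ.filter (fun l => ¬On l e), (a e.1.1 - a l) with hγ1
  set γ2 := ∏ l ∈ univ.filter (fun l => ¬On l e), (a e.1.2 - a l) with hγ2
  have g1 : fd b e.1.1 * P1 = -(b e.1.2 - b e.1.1) * γ1 :=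
    mul_left_cancel₀ A0 (by linear_combination -f1 - γ1 * q)
  have g2 : fd b e.1.2 * P2 = (b e.1.2 - b e.1.1) * γ2 :=
    mul_left_cancel₀ A0 (by linear_combination -f2 + γ2 * q)
  have c12 : (a e.1.2 : ZMod x.2) = a e.1.1 :=
    (ZMod.intCast_eq_intCast_iff_dvd_sub _ _ _).2 (dvd_sub_comm.1 (q ▸ dA.mul_left _))
  have cγ : (γ2 : ZMod x.2) = γ1 := by
    rw [hγ1, hγ2]
    push_cast
    rw [c12]
  have n1 : ¬(x.2 : ℤ) ∣ γ1 := fun k => h0 (by
    rw [jacobiSym.mod_left, Int.emod_eq_zero_of_dvd (dvd_neg.2 k), jacobiSym.zero_left hp.one_lt])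
  have n2 : ¬(x.2 : ℤ) ∣ (b e.1.2 - b e.1.1) * γ1 := fun k =>
    (hP.dvd_or_dvd k).elim (nd_sm L hx (L.sb.sm _ _ ne.symm)) n1
  rw [jacobiSym.mul_left, jac_eq hp sq (fun k => (hP.dvd_or_dvd k).elim (nf _) (nf _)) nd,
    ← jacobiSym.mul_left, mul_mul_mul_comm, g1, g2,
    jacobiSym.mod_left' (a₂ := -1 * ((b e.1.2 - b e.1.1) * γ1) ^ 2)
      ((ZMod.intCast_eq_intCast_iff _ _ _).1 (by push_cast; rw [cγ]; ring)),
    jacobiSym.mul_left, jacobiSym.sq_one' (R2.Loc.gcd_one n2), mul_one]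

end Par

open Par in
theorem par3 : GP3Stmt → MAT3Stmt → BOR5Stmt → PAR3Stmt := by
  intro gp mat hB g m N b a Fr cg V dg A hF L h1
  obtain ⟨m1, m2, -⟩ := mat g m Fr cg dg
  have hg := m1 hF.sgn
  have hV0 : Fr.V0 m = (range Fr.k).image (fr m) := rfl
  have dis : ∀ s : Finset ℕ, Disjoint (s.image (fr m)) V := by
    intro s
    rw [disjoint_left]
    intro x h1 h2
    obtain ⟨i, -, rfl⟩ := mem_image.1 h1
    exact fr_ne L h2 i rfl
  have un : ∀ x ∈ V, dg x = 1 ∨ dg x = -1 := fun x hx =>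
    Int.isUnit_iff.1 (isUnit_of_dvd_one (h1 ▸ dvd_prod_of_mem _ hx))
  have hw : Fr.κ.image (fr m) ∪ V ⊆ Fr.V0 m ∪ V :=
    union_subset_union (image_subset_image hF.sub) Subset.rfl
  have hd : ∀ x ∈ Fr.V0 m ∪ V,
      Fr.mat cg dg x x = ∏ t ∈ Fr.κ.image (fr m) ∪ V, Fr.mat cg dg t x := by
    intro x hx
    rcases mem_union.1 hx with hx | hx
    · obtain ⟨i, hi, rfl⟩ := mem_image.1 (hV0 ▸ hx)
      have e : ∏ t ∈ V, Fr.mat cg dg t (fr m i) = 1 := by
        rw [← prod_fiberwise_of_maps_to (t := univ) (g := cg) fun _ _ => mem_univ _]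
        refine prod_eq_one fun e _ => ?_
        have : jacobiSym (Fr.G i e.1.1 * Fr.G i e.1.2) (A e) = 1 := by
          rw [jacobiSym.mul_left, jac_smooth (hF.sm _ _) (L.one e),
            jac_smooth (hF.sm _ _) (L.one e), mul_one]
        rw [← this, L.hA e, jac_nat_prod _ _ _ fun t ht => (L.pr t (mem_filter.1 ht).1).1.ne_zero]
        refine prod_congr rfl fun t ht => ?_
        obtain ⟨h2, h3⟩ := mem_filter.1 ht
        rw [hg.1, m2 _ t (fr_ne L h2 i) (L.pr t h2).1 (odd_V L h2).1 (nd_fr hF L h2 i _), G_fr, h3]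
      rw [prod_union (dis _), prod_image fr_inj.injOn, e, mul_one, g_fr,
        hF.wu i (mem_range.1 hi)]
      exact prod_congr rfl fun t _ => (g_fr t i).symm
    · have row : ∏ t ∈ (Fr.κ.image (fr m) ∪ V).erase x, Fr.mat cg dg t x =
          jacobiSym (∏ t ∈ (Fr.κ.image (fr m) ∪ V).erase x, Fr.GG cg (cg x) t) x.2 := by
        rw [RG.Par.jac_prod]
        refine prod_congr rfl fun t ht => ?_
        obtain ⟨hne, ht⟩ := mem_erase.1 ht
        refine m2 t x hne (L.pr x hx).1 (odd_V L hx).1 ?_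
        rcases mem_union.1 ht with ht | ht
        · obtain ⟨i, -, rfl⟩ := mem_image.1 ht
          exact nd_fr hF L hx i _
        · exact nd_V L hx ht hne _
      have jw := jac_w gp hF L hx (by rcases un x hx with h | h <;> rw [h] <;> decide)
      have hxw : x ∈ Fr.κ.image (fr m) ∪ V := mem_union_right _ hx
      rw [← prod_union (dis _), ← mul_prod_erase _ _ hxw, jacobiSym.mul_left, ← row, G_V L hx,
        (gp g).2.2.2.2.2.2 _ _ (odd_V L hx).2] at jw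
      have ne : jacobiSym (-1) x.2 ≠ 0 := jacobiSym.ne_zero (by simp)
      rw [← mul_prod_erase _ _ hxw, (mul_eq_left₀ ne).1 jw, mul_one]
  obtain ⟨κ, k1, k2⟩ := hB _ _ hg _ _ hw hd
  have e : chi (Fr.mat cg dg) (Fr.κ.image (fr m) ∪ V) (Fr.κ.image (fr m) ∪ V) =
      chi Fr.τ Fr.κ Fr.κ := by
    have e1 : ∏ x ∈ V, Fr.mat cg dg x x = 1 := by
      rw [← h1]
      exact prod_congr rfl fun x hx => (g_V L hx).trans (sg_eq (un x hx))
    rw [chi_eq_rows, ← prod_congr rfl fun x hx => hd x (hw hx), prod_union (dis _), e1,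
      mul_one, prod_image fr_inj.injOn, chi_eq_rows]
    exact prod_congr rfl fun i hi => (g_fr i i).trans (hF.wu i (mem_range.1 (hF.sub hi)))
  refine ⟨κ, k1, ?_⟩
  rw [k2, e, hV0, card_union_of_disjoint (dis _), card_image_of_injective _ fr_inj,
    card_range, Frame.par, add_right_comm]

end Pool.Agent.MP_a43263_nt.JC
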