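import Pool.Agent.MP_a43263_nt.JC.SBasic
import Pool.Agent.MP_a43263_nt.RH.Pf

/-! THEOREM J, row REC: the global quadratic relation. -/

set_option autoImplicit false

namespace Pool.Agent.MP_a43263_nt.JC

open Finset
open RH (Smooth hs)
open RH.PfAux

namespace Rec

theorem nat_sq {k : ℕ} (h0 : k ≠ 0) (h : ∀ p : ℕ, p.Prime → Even (padicValNat p k)) :
    IsSquare k := by
  obtain ⟨a, b, e, ha⟩ := Nat.sq_mul_squarefree k
  have hb : b ≠ 0 := fun c => h0 (by rw [← e, c]; simp)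
  have h1 : a = 1 := by
    by_contra c
    obtain ⟨p, hp, hd⟩ := Nat.exists_prime_and_dvd c
    have := Fact.mk hp
    have h2 := h p hp
    rw [← e, padicValNat.mul (pow_ne_zero _ hb) ha.ne_zero, sq, padicValNat.mul hb hb,
      ← Nat.factorization_def a hp, Nat.factorization_eq_one_of_squarefree ha hp hd] at h2
    obtain ⟨t, ht⟩ := h2
    omega
  exact ⟨b, by rw [← e, h1]; ring⟩

theorem sm_prod {N : ℕ} {ι : Type} (s : Finset ι) {f : ι → ℤ} (h : ∀ i ∈ s, Smooth N (f i)) :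
    Smooth N (∏ i ∈ s, f i) :=
  ⟨prod_ne_zero_iff.2 fun i hi => (h i hi).1, fun p hp hd => by
    obtain ⟨i, hi, hd⟩ := (Prime.dvd_finsetProd_iff (Nat.prime_iff_prime_int.1 hp) _).1 hd
    exact (h i hi).2 p hp hd⟩

theorem jac_prod {ι : Type} (s : Finset ι) (a : ℤ) {f : ι → ℕ} (h : ∀ i, f i ≠ 0) :
    jacobiSym a (∏ i ∈ s, f i) = ∏ i ∈ s, jacobiSym a (f i) := by
  classical
  induction s using Finset.induction_on with
  | empty => simp
  | insert i s hi ih =>
    rw [prod_insert hi, prod_insert hi,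
      jacobiSym.mul_right' _ (h i) (prod_ne_zero_iff.2 fun j _ => h j), ih]

theorem jac_prod' {ι : Type} (s : Finset ι) (f : ι → ℤ) (b : ℕ) :
    jacobiSym (∏ i ∈ s, f i) b = ∏ i ∈ s, jacobiSym (f i) b := by
  classical
  induction s using Finset.induction_on with
  | empty => simp
  | insert i s hi ih => rw [prod_insert hi, prod_insert hi, jacobiSym.mul_left, ih]

variable {g : ℕ}

theorem abs_mm (x : Ed g → ℕ) (k : Vx g) :
    (mm x k).natAbs = ∏ e, if On k e then x e else 1 := by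
  refine (map_prod (⟨⟨Int.natAbs, rfl⟩, Int.natAbs_mul⟩ : ℤ →* ℕ) _ _).trans (prod_congr rfl fun e _ => ?_)
  change (mv e (x e) k).natAbs = _
  rw [mv, Int.natAbs_mul]
  split_ifs <;> simp

theorem pj_eq (v : Vx g → ℤ) {x : Ed g → ℕ} (h : ∀ e, x e ≠ 0) :
    ∏ k, jacobiSym (v k) (mm x k).natAbs = Pj v x := by
  have e1 : ∀ k, jacobiSym (v k) (mm x k).natAbs =
      ∏ e, if On k e then jacobiSym (v k) (x e) else 1 := fun k => by
    rw [abs_mm, jac_prod _ _ fun e => by split_ifs; exacts [h e, one_ne_zero]]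
    refine prod_congr rfl fun e _ => ?_
    split_ifs <;> simp
  rw [prod_congr rfl fun k _ => e1 k, prod_comm, Pj]
  refine prod_congr rfl fun e _ => ?_
  rw [← prod_filter, jacobiSym.mul_left, ← prod_pair (ed_ne e) (f := fun k => jacobiSym (v k) (x e))]
  refine prod_congr ?_ fun _ _ => rfl
  ext k
  simp

theorem fd_cast {K : Type} [Field K] (b : Vx g → ℤ) (i : Vx g) :
    fd (fun k => (b k : K)) i = (fd b i : ℤ) := by
  simp [fd]

theorem cv {K : Type} [Field K] [CharZero K] {N : ℕ} {b : Vx g → ℤ} (h : Sb N b) :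
    Cv g (fun k => (b k : K)) (fp fun k => (b k : K)) :=
  ⟨card_Vx g, h.g1, fun i k e => by
    by_contra c
    exact (h.sm i k c).1 (sub_eq_zero.2 (by exact_mod_cast e)), rfl⟩

end Rec

open Rec

theorem rec3 : GP3Stmt → ISOStmt → NRMStmt → QVStmt → SYMBStmt → REC3Stmt := by
  intro gp iso nrm qv symb g N b u x hb hu hx hS
  have hxn : ∀ e (p : ℕ), p.Prime → p ∣ N → ¬p ∣ x e := fun e => ndvd_cop (hx e)
  have hxo : ∀ e, x e % 2 = 1 := fun e => by have := hxn e 2 Nat.prime_two hb.two; omega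
  have hx0 : ∀ e, x e ≠ 0 := fun e => by have := hxo e; omega
  have hm : ∀ k (p : ℕ), p.Prime → p ∣ N → ¬(p : ℤ) ∣ mm x k := fun k p hp hd c => by
    rw [Int.natCast_dvd, abs_mm] at c
    obtain ⟨e, -, c⟩ := (Prime.dvd_finsetProd_iff hp.prime _).1 c
    split_ifs at c
    exacts [hxn e p hp hd c, hp.not_dvd_one c]
  have hmo : ∀ k, mm x k % 2 = 1 := fun k => by
    have := hm k 2 Nat.prime_two hb.two; push_cast at this; omega
  have hm0 : ∀ k, mm x k ≠ 0 := fun k => by have := hmo k; omega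
  have hd0 : ∀ k, u k * mm x k ≠ 0 := fun k => mul_ne_zero (hu k).1 (hm0 k)
  have hU : Smooth N (∏ k, u k) := sm_prod _ fun k _ => hu k
  have hM0 : (∏ e, (x e : ℤ)) ≠ 0 := prod_ne_zero_iff.2 fun e _ => by exact_mod_cast hx0 e
  have hM : ∏ k, u k * mm x k = (∏ k, u k) * (∏ e, (x e : ℤ)) ^ 2 := by
    rw [prod_mul_distrib, ← prod_pow]
    congr 1
    simp only [mm]
    rw [prod_comm]
    exact prod_congr rfl fun e _ => (gp g).2.2.1 e (x e)
  have sq : IsSquare (∏ k, u k) := by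
    have h1 := nrm ℝ _ _ _ hS.1
    rw [← Int.cast_prod, hM] at h1
    have h2 : 0 ≤ (∏ k, u k) * (∏ e, (x e : ℤ)) ^ 2 := by exact_mod_cast h1.nonneg
    have h3 : 0 ≤ ∏ k, u k := nonneg_of_mul_nonneg_left h2 (by positivity)
    obtain ⟨r, hr⟩ := nat_sq (Int.natAbs_ne_zero.2 hU.1) fun p hp => by
      have := Fact.mk hp
      change Even (padicValInt p _)
      by_cases c : p ∣ N
      · obtain ⟨r, hr⟩ := nrm ℚ_[p] _ _ _ (hS.2 p c)
        rw [← Int.cast_prod, hM] at hr
        have r0 : r ≠ 0 := fun e => mul_ne_zero hU.1 (pow_ne_zero 2 hM0) (by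
          rw [e, mul_zero] at hr; exact_mod_cast hr)
        have h4 := congrArg Padic.valuation hr
        rw [Padic.valuation_intCast, Padic.valuation_mul r0 r0, sq,
          padicValInt.mul hU.1 (mul_ne_zero hM0 hM0), padicValInt.mul hM0 hM0] at h4
        rw [Nat.even_iff]
        omega
      · rw [val0 fun e => c (hU.2 p hp e)]; exact Even.zero
    exact ⟨r, by rw [← Int.natAbs_of_nonneg h3, hr]; simp⟩
  refine ⟨sq, ?_⟩
  have hf : ∀ i, Smooth N (fd b i) := fun i =>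
    sm_prod _ fun k hk => hb.sm i k fun e => by simp [e] at hk
  have key : Hs (Phi N) (fun k => u k * mm x k) * ∏ i, Phi N (u i * mm x i) (fd b i) = 1 := by
    have h1 := (qv ℝ _ symb.1 g _ (cv hb)).1 _ hS.1
    simp only [Hs, fd_cast, Int.cast_lt_zero] at h1
    have h2 : ∀ p ∈ N.primeFactors, (∏ i, ∏ j ∈ Ioi i, hs p (u i * mm x i) (u j * mm x j)) *
        ∏ i, hs p (u i * mm x i) (fd b i) = 1 := fun p hp => by
      have := Fact.mk (Nat.prime_of_mem_primeFactors hp)
      obtain ⟨s, hs1, hs2⟩ := symb.2 p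
      have h3 := (qv ℚ_[p] s hs1 g _ (cv hb)).1 _ (hS.2 p (Nat.dvd_of_mem_primeFactors hp))
      simp only [Hs, fd_cast, hs2 _ _ (hd0 _) (hd0 _), hs2 _ _ (hd0 _) (hf _).1] at h3
      exact h3
    have h4 := prod_eq_one h2
    rw [prod_mul_distrib, prod_comm, prod_comm (s := N.primeFactors),
      prod_congr rfl fun i _ => prod_comm (s := N.primeFactors)] at h4
    simp only [Hs, Phi, prod_mul_distrib]
    linear_combination (exp := 1) ((∏ i, ∏ j ∈ Ioi i, ∏ p ∈ N.primeFactors,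
      hs p (u i * mm x i) (u j * mm x j)) * ∏ i, ∏ p ∈ N.primeFactors,
        hs p (u i * mm x i) (fd b i)) * h1 + h4
  have J : ∀ v, Smooth N v → ∀ k, Phi N v (mm x k) = jacobiSym v (mm x k).natAbs :=
    fun v hv k => Phi_unit hb.pos hb.two (hm k) v hv
  have e1 : ∀ i, Phi N (u i * mm x i) (fd b i) = jacobiSym (fd b i) (mm x i).natAbs := fun i => by
    rw [Phi_mul' N (hu i).1 (hm0 i) (hf i).1, Phi_smooth hb.pos hb.two (hu i) (hf i), one_mul,
      Phi_comm, J _ (hf i)]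
  have e2 : ∀ i j, Phi N (u i * mm x i) (u j * mm x j) = ph (mm x i) (mm x j) *
      (jacobiSym (u j) (mm x i).natAbs * jacobiSym (u i) (mm x j).natAbs) := fun i j => by
    rw [Phi_mul' N (hu i).1 (hm0 i) (hd0 j), Phi_mul N (hu i).1 (hu j).1 (hm0 j),
      Phi_mul N (hm0 i) (hu j).1 (hm0 j), Phi_smooth hb.pos hb.two (hu i) (hu j), J _ (hu i),
      Phi_comm N (mm x i) (u j), J _ (hu j), Phi_eq hb.pos {2} (by simp)
        (by simp [Nat.prime_two, hb.two]) (fun p hp hd _ => ⟨hm i p hp hd, hm j p hp hd⟩),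
      prod_singleton, hs2_odd (hmo i) (hmo j), ph]
    ring
  have e3 : ∀ i, jacobiSym (u i) (mm x i).natAbs *
      ∏ j ∈ {i}ᶜ, jacobiSym (u j) (mm x i).natAbs = 1 := fun i => by
    have := prod_mul_prod_compl {i} fun j => jacobiSym (u j) (mm x i).natAbs
    rw [prod_singleton] at this
    obtain ⟨r, hr⟩ := sq
    rw [this, ← jac_prod', hr, ← _root_.sq]
    refine jacobiSym.sq_one' ?_
    rw [Int.gcd_eq_natAbs, Int.natAbs_natCast]
    refine Nat.coprime_of_dvd fun p hp c1 c2 => hm i p hp (hU.2 p hp ?_) (Int.natCast_dvd.2 c2)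
    rw [hr]
    exact (Int.natCast_dvd.2 c1).mul_right _
  have e4 := iso g x hxo
  have e5 := prod_eq_one fun i (_ : i ∈ univ) => e3 i
  rw [prod_mul_distrib, pj_eq u hx0, ← prod_prod_Ioi_mul_eq_prod_prod_off_diag
    fun j i => jacobiSym (u j) (mm x i).natAbs] at e5
  simp only [Hs, e1, e2, prod_mul_distrib] at key e4 e5
  rw [e4, one_mul, pj_eq _ hx0] at key
  linear_combination (exp := 1) (-Pj u x) * key + Pj (fd b) x * e5

end Pool.Agent.MP_a43263_nt.JC
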