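import Pool.Agent.MP_a43263_nt.JC.SBasic

/-! THEOREM J: specialisation of the descent image outside a finite set. -/

set_option autoImplicit false

noncomputable section

namespace Pool.Agent.MP_a43263_nt.JC

open Finset Filter Polynomial

namespace Spe

variable {K L R ι : Type} [Field K] [Field L] [CommRing R] [Fintype ι]

/-- scaling the roots by a square -/
theorem scale {a d : ι → K} (h : W a d) (s : K) (hs : s ≠ 0) (z : ι → K) (hz : ∀ i, z i ≠ 0) :
    W (fun i => s ^ 2 * a i) fun i => z i ^ 2 * d i := by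
  obtain ⟨U, V, h1, h2, h3⟩ := h
  set c : K[X] := C (s ^ 2)⁻¹ * X with hc
  have c0 : (s ^ 2)⁻¹ ≠ 0 := by simpa using hs
  have c1 : c.natDegree = 1 := natDegree_C_mul_X _ c0
  have c2 : ∀ x, c.eval (s ^ 2 * x) = x := fun x => by
    simp only [hc, eval_mul, eval_C, eval_X]
    field_simp
  have e : fp (fun i => s ^ 2 * a i) = C (s ^ Fintype.card ι) ^ 2 * (fp a).comp c := by
    rw [fp, fp, Polynomial.prod_comp, ← C_pow, ← pow_mul, mul_comm (Fintype.card ι), pow_mul, C_pow,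
      ← card_univ, ← prod_const, ← prod_mul_distrib]
    refine prod_congr rfl fun i _ => ?_
    rw [sub_comp, X_comp, C_comp, mul_sub, hc, ← mul_assoc, ← C_mul, ← C_mul,
      mul_inv_cancel₀ (pow_ne_zero 2 hs), C_1, one_mul]
  have p0 : (s ^ 2) ^ U.natDegree ≠ 0 := by simp [hs]
  have dg : (C ((s ^ 2) ^ U.natDegree) * U.comp c).natDegree = U.natDegree := by
    rw [natDegree_C_mul p0, natDegree_comp, c1, mul_one]
  refine ⟨C ((s ^ 2) ^ U.natDegree) * U.comp c, C (s ^ Fintype.card ι) * V.comp c, ?_, ?_,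
    fun i => ?_⟩
  · rw [Monic, leadingCoeff_mul, leadingCoeff_comp (by omega), h1.leadingCoeff, hc,
      leadingCoeff_C_mul_X, leadingCoeff_C, one_mul, ← mul_pow,
      mul_inv_cancel₀ (pow_ne_zero 2 hs), one_pow]
  · rw [C_mul_dvd p0, e, mul_pow, ← mul_sub, ← pow_comp, ← sub_comp]
    obtain ⟨Q, hQ⟩ := h2
    rw [hQ, mul_comp]
    exact (dvd_mul_right _ _).mul_left _
  · obtain ⟨k1, k2, r, k3⟩ := h3 i
    have ev : (C ((s ^ 2) ^ U.natDegree) * U.comp c).eval (s ^ 2 * a i) =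
        (s ^ 2) ^ U.natDegree * U.eval (a i) := by rw [eval_mul, eval_C, eval_comp, c2]
    refine ⟨ev ▸ mul_ne_zero p0 k1, mul_ne_zero (pow_ne_zero 2 (hz i)) k2,
      z i * s ^ U.natDegree * r, ?_⟩
    rw [nb] at k3
    rw [nb, dg, ev, ← pow_mul, mul_comm 2, pow_mul]
    linear_combination z i ^ 2 * (s ^ U.natDegree) ^ 2 * k3

/-- a divisor that is defined over a subring is mapped to another field -/
theorem down (j : R →+* K) (hj : Function.Injective j) (φ : R →+* L) {a d : ι → R}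
    {U V Q : K[X]} {e s : ι → K} (h1 : U.Monic) (h2 : fp (fun i => j (a i)) - V ^ 2 = U * Q)
    (h3 : ∀ i, U.eval (j (a i)) * j (d i) * e i = 1)
    (h4 : ∀ i, j (d i) * nb U (j (a i)) = s i * s i) (lU : U ∈ lifts j) (lV : V ∈ lifts j)
    (lQ : Q ∈ lifts j) (le : ∀ i, ∃ r, j r = e i) (ls : ∀ i, ∃ r, j r = s i) :
    W (fun i => φ (a i)) fun i => φ (d i) := by
  obtain ⟨U, rfl, dU, mU⟩ := lifts_and_natDegree_eq_and_monic lU h1
  obtain ⟨V, rfl⟩ := (mem_lifts V).1 lV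
  obtain ⟨Q, rfl⟩ := (mem_lifts Q).1 lQ
  have : Nontrivial R := j.domain_nontrivial
  have e2 : ∏ i, (X - C (a i)) - V ^ 2 = U * Q := by
    apply map_injective j hj
    rw [Polynomial.map_mul, ← h2, Polynomial.map_sub, Polynomial.map_pow, Polynomial.map_prod, fp]
    simp
  refine ⟨U.map φ, V.map φ, mU.map φ, ⟨Q.map φ, ?_⟩, fun i => ?_⟩
  · rw [← Polynomial.map_mul, ← e2, Polynomial.map_sub, Polynomial.map_pow, Polynomial.map_prod, fp]
    simp
  · obtain ⟨e', he⟩ := le i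
    obtain ⟨s', hs⟩ := ls i
    have e3 : U.eval (a i) * d i * e' = 1 := hj (by
      rw [map_mul, map_mul, map_one, he, ← h3 i, eval_map_apply])
    have e4 : d i * ((-1) ^ U.natDegree * U.eval (a i)) = s' * s' := hj (by
      rw [map_mul j s', hs, ← h4 i, nb, eval_map_apply, ← dU]
      simp)
    have e5 := congrArg φ e3
    rw [map_mul, map_mul, map_one] at e5
    have n := left_ne_zero_of_mul_eq_one e5
    refine ⟨by rw [eval_map_apply]; exact left_ne_zero_of_mul n, right_ne_zero_of_mul n, φ s', ?_⟩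
    rw [← map_mul, ← e4, nb, eval_map_apply, mU.natDegree_map]
    simp

/-- a rational function that is regular at `t`, with its value -/
def Gm (t : ℚ) : Subring (RatFunc ℚ × ℚ) where
  carrier := {z | ∃ p q : ℚ[X], q.eval t ≠ 0 ∧ z.1 * algebraMap _ _ q = algebraMap _ _ p ∧
    z.2 * q.eval t = p.eval t}
  one_mem' := ⟨1, 1, by simp⟩
  zero_mem' := ⟨0, 1, by simp⟩
  mul_mem' := by
    rintro z w ⟨p, q, h1, h2, h3⟩ ⟨p', q', k1, k2, k3⟩
    refine ⟨p * p', q * q', by simp [h1, k1], ?_, ?_⟩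
    · rw [map_mul, map_mul, ← h2, ← k2, Prod.fst_mul]
      ring
    · rw [eval_mul, eval_mul, ← h3, ← k3, Prod.snd_mul]
      ring
  add_mem' := by
    rintro z w ⟨p, q, h1, h2, h3⟩ ⟨p', q', k1, k2, k3⟩
    refine ⟨p * q' + p' * q, q * q', by simp [h1, k1], ?_, ?_⟩
    · rw [map_add, map_mul, map_mul, map_mul, ← h2, ← k2, Prod.fst_add]
      ring
    · rw [eval_add, eval_mul, eval_mul, eval_mul, ← h3, ← k3, Prod.snd_add]
      ring
  neg_mem' := by
    rintro z ⟨p, q, h1, h2, h3⟩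
    exact ⟨-p, q, h1, by simp [h2], by simp [h3]⟩

def jj (t : ℚ) : Gm t →+* RatFunc ℚ := (RingHom.fst _ _).comp (Gm t).subtype

def ph (t : ℚ) : Gm t →+* ℚ := (RingHom.snd _ _).comp (Gm t).subtype

theorem jj_inj (t : ℚ) : Function.Injective (jj t) := by
  refine (injective_iff_map_eq_zero _).2 ?_
  rintro ⟨⟨x, y⟩, p, q, h1, h2, h3⟩ (rfl : x = 0)
  obtain rfl : p = 0 := (map_eq_zero_iff _ (RatFunc.algebraMap_injective ℚ)).1 (by simpa using h2.symm)
  obtain rfl : y = 0 := by simpa [h1] using h3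
  rfl

theorem ev_reg (x : RatFunc ℚ) : ∀ᶠ t in cofinite, ∃ r, jj t r = x := by
  filter_upwards [(finite_setOfPred_isRoot (RatFunc.denom_ne_zero x)).compl_mem_cofinite] with t ht
  refine ⟨⟨(x, x.num.eval t / x.denom.eval t), x.num, x.denom, ht, ?_, div_mul_cancel₀ _ ht⟩, rfl⟩
  rw [← eq_div_iff (RatFunc.algebraMap_ne_zero (RatFunc.denom_ne_zero x)), RatFunc.num_div_denom]

theorem ev_lift (U : (RatFunc ℚ)[X]) : ∀ᶠ t in cofinite, U ∈ lifts (jj t) := by
  filter_upwards [(eventually_all_finset U.support).2 fun n _ => ev_reg (U.coeff n)] with t ht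
  refine (lifts_iff_coeff_lifts U).2 fun n => ?_
  by_cases c : n ∈ U.support
  · exact ht n c
  · exact ⟨0, by rw [notMem_support_iff.1 c, map_zero]⟩

/-- specialisation at almost all points -/
theorem spec {a d : ι → RatFunc ℚ} (h : W a d) : ∀ᶠ t in cofinite, ∀ a' d' : ι → ℚ,
    (∀ i, (a i, a' i) ∈ Gm t) → (∀ i, (d i, d' i) ∈ Gm t) → W a' d' := by
  obtain ⟨U, V, h1, ⟨Q, h2⟩, h3⟩ := h
  choose k1 k2 s k3 using h3
  filter_upwards [ev_lift U, ev_lift V, ev_lift Q,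
    eventually_all.2 fun i => ev_reg (U.eval (a i) * d i)⁻¹, eventually_all.2 fun i => ev_reg (s i)]
    with t l1 l2 l3 l4 l5 a' d' ha hd
  exact down (jj t) (jj_inj t) (ph t) (a := fun i => ⟨_, ha i⟩) (d := fun i => ⟨_, hd i⟩) h1 h2
    (fun i => mul_inv_cancel₀ (mul_ne_zero (k1 i) (k2 i))) k3 l1 l2 l3 l4 l5

theorem cst_mem (t u : ℚ) : ((u : RatFunc ℚ), u) ∈ Gm t :=
  ⟨C u, 1, by simp, by rw [map_one, mul_one, RatFunc.algebraMap_C, eq_ratCast], by simp⟩

theorem prod_mem' {t : ℚ} {α : Type} (S : Finset α) {f : α → RatFunc ℚ} {f' : α → ℚ}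
    (h : ∀ i, (f i, f' i) ∈ Gm t) : (∏ i ∈ S, f i, ∏ i ∈ S, f' i) ∈ Gm t := by
  rw [prod_mk_prod]
  exact prod_mem fun i _ => h i

variable {g n : ℕ} (F : HS g n)

theorem L_mem (t : ℚ) (h : Ed g × Fin n) : (F.L h (RatFunc.X, 1), F.L h (t, 1)) ∈ Gm t :=
  ⟨C (F.A h : ℚ) * X + C (F.B h : ℚ), 1, by simp, by simp [HS.L], by simp [HS.L]⟩

theorem L_hom (h : Ed g × Fin n) {v : ℚ × ℚ} (hv : v.2 ≠ 0) :
    F.L h v = v.2 * F.L h (v.1 / v.2, 1) := by
  simp only [HS.L]
  field_simp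

end Spe

open Spe in
theorem spe3 : SPE3Stmt := by
  intro g n F u y ⟨m, hm⟩ hy h
  refine ⟨(eventually_cofinite.1 (spec h)).toFinset, fun v hv hS => ?_⟩
  rw [Set.Finite.mem_toFinset, Set.mem_ofPred_eq, not_not] at hS
  choose k hk using hy
  have w := hS (F.a (v.1 / v.2, 1)) (F.del u y (v.1 / v.2, 1)) (fun i => ?_) fun i =>
    (Gm _).mul_mem (cst_mem _ (u i)) (prod_mem' _ fun h => L_mem F _ h)
  · have e1 : F.a v = fun i => (v.2 ^ m) ^ 2 * F.a (v.1 / v.2, 1) i := by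
      funext i
      unfold HS.a
      split_ifs
      · simp only [HS.D, L_hom F _ hv, prod_mul_distrib, prod_const, card_univ, Fintype.card_fin]
        rw [show v.2 ^ n = (v.2 ^ m) ^ 2 by rw [hm]; ring]
        ring
      · rw [mul_zero]
    have e2 : F.del u y v = fun i => (v.2 ^ k i) ^ 2 * F.del u y (v.1 / v.2, 1) i := by
      funext i
      simp only [HS.del, L_hom F _ hv, prod_mul_distrib, prod_const, hk i]
      ring
    rw [e1, e2]
    exact scale w _ (pow_ne_zero _ hv) _ fun i => pow_ne_zero _ hv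
  · unfold HS.a
    split_ifs
    · rename_i c
      exact (Gm _).mul_mem (intCast_mem (Gm _) (F.c ⟨(0, i), c⟩))
        (prod_mem' univ fun k => L_mem F _ (⟨(0, i), c⟩, k))
    · exact (Gm _).zero_mem

end Pool.Agent.MP_a43263_nt.JC
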