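import Mathlib
import Pool.Agent.MP_a43263_nt.RH.Par
import Pool.Agent.MP_a43263_nt.RH.Pty
import Pool.Agent.MP_a43263_nt.JC.JAll
import Pool.Agent.MP_a43263_nt.JC.AAll
import Pool.Agent.MP_a43263_nt.JC.Gp
import Pool.Agent.MP_a43263_nt.JC.Rec
import Pool.Agent.MP_a43263_nt.JC.Frame
import Pool.Agent.MP_a43263_nt.JC.Mat
import Pool.Agent.MP_a43263_nt.JC.Loc
import Pool.Agent.MP_a43263_nt.JC.Par
import Pool.Agent.MP_a43263_nt.JC.Alg
import Pool.Agent.MP_a43263_nt.JC.Base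
import Pool.Agent.MP_a43263_nt.JC.Br
import Pool.Agent.MP_a43263_nt.JC.Ok
import Pool.Agent.MP_a43263_nt.JC.Geo
import Pool.Agent.MP_a43263_nt.JC.Spe
import Pool.Agent.MP_a43263_nt.JC.Good
import Pool.Agent.MP_a43263_nt.JC.Fin

/-! THEOREM J: assembly. -/

set_option autoImplicit false

namespace Pool.Agent.MP_a43263_nt.JC

theorem main : MainStmt :=
  main_of T.desc T.grp nrm T.qv T.symb T.val T.nod T.cstp T.cstr (RH.bor5 RG.T.bor) RG.T.pos RH.pty
    kc3 mkvAll gp3 iso rec3 frame mat3 cst3 loc3 par3 alg3 graph base3 ext3 pt3 ok3 br3 geo3 spe3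
    good3 fin3

end Pool.Agent.MP_a43263_nt.JC
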