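import Pool.Agent.MP_a43263_nt.JC.Defs

/-! The Jacobian of `y ^ 2 = f(x)` for `f` of odd degree, as the Picard group of the affine curve,
and its Tate-Shafarevich group. -/

noncomputable section

namespace Pool.Agent.MP_a43263_nt.JP

open Polynomial JC

/-- The map of Picard groups induced by a ring homomorphism, written additively. -/
def pmap {R S : Type} [CommRing R] [CommRing S] (φ : R →+* S) :
    Additive (CommRing.Pic R) →+ Additive (CommRing.Pic S) :=
  MonoidHom.toAdditive (CommRing.Pic.mapRingHom φ)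

/-- The elements fixed by all the maps `ρ σ`. -/
def Fix {G A : Type} [AddCommGroup A] (ρ : G → A →+ A) : AddSubgroup A where
  carrier := {P | ∀ σ, ρ σ P = P}
  zero_mem' σ := map_zero _
  add_mem' hP hQ σ := by rw [map_add, hP σ, hQ σ]
  neg_mem' hP σ := by rw [map_neg, hP σ]

variable {K L : Type} [Field K] [Field L] [CharZero K] [CharZero L]

/-- The Picard group of the affine curve `y ^ 2 = f(x)` over `K`, written additively. -/
def Jac (f : ℚ[X]) (K : Type) [Field K] [CharZero K] : Type :=
  Additive (CommRing.Pic (Rg (fK f K)))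

instance jacGroup (f : ℚ[X]) (K : Type) [Field K] [CharZero K] : AddCommGroup (Jac f K) :=
  Additive.addCommGroup (α := CommRing.Pic (Rg (fK f K)))

/-- The map of Picard groups induced by a field homomorphism. -/
def jmap (f : ℚ[X]) (φ : K →+* L) : Jac f K →+ Jac f L := pmap (rmap φ (fK_map f φ))

/-- The action of the absolute Galois group of `ℚ` on the geometric points. -/
def jac (f : ℚ[X]) (σ : AlgebraicClosure ℚ ≃ₐ[ℚ] AlgebraicClosure ℚ) :
    Jac f (AlgebraicClosure ℚ) →+ Jac f (AlgebraicClosure ℚ) :=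
  jmap f (σ : AlgebraicClosure ℚ →+* AlgebraicClosure ℚ)

/-- The rational points: the geometric points fixed by the Galois group. -/
def JQ (f : ℚ[X]) : Type := Fix (jac f)

instance jqGroup (f : ℚ[X]) : AddCommGroup (JQ f) := (Fix (jac f)).toAddCommGroup

/-- The Galois cohomology group `H¹(ℚ, J)`. -/
def JH (f : ℚ[X]) : Type := H1 (jac f)

instance jhGroup (f : ℚ[X]) : AddCommGroup (JH f) := instAddCommGroupH1 (jac f)

/-- The restriction of the cocycle `c` to the absolute Galois group of `K` is a coboundary;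
here `τ` is the restriction of `σ` along the fixed embedding. -/
def JLoc (f : ℚ[X]) (K : Type) [Field K] [CharZero K]
    (c : (AlgebraicClosure ℚ ≃ₐ[ℚ] AlgebraicClosure ℚ) → Jac f (AlgebraicClosure ℚ)) : Prop :=
  ∃ R : Jac f (AlgebraicClosure K), ∀ (σ : AlgebraicClosure K ≃ₐ[K] AlgebraicClosure K)
    (τ : AlgebraicClosure ℚ ≃ₐ[ℚ] AlgebraicClosure ℚ), (∀ x, emb K (τ x) = σ (emb K x)) →
      jmap f (emb K) (c τ) = jmap f (σ : AlgebraicClosure K →+* AlgebraicClosure K) R - R

/-- The Tate-Shafarevich group: classes that are trivial over `ℝ` and over every `ℚ_[p]`. -/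
def JSha (f : ℚ[X]) : Set (JH f) :=
  {x | ∃ c : Z1 (jac f), H1.mk (jac f) c = x ∧ JLoc f ℝ c ∧
    ∀ (p : ℕ) [Fact p.Prime], JLoc f ℚ_[p] c}

end Pool.Agent.MP_a43263_nt.JP
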