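import Mathlib.FieldTheory.RatFunc.AsPolynomial
import Pool.Agent.MP_a43263_nt.JC.Defs
import Pool.Agent.MP_a43263_nt.JC.Wk

/-! THEOREM J: pencils of hyperelliptic curves with rational Weierstrass points whose
discriminant is a product of rational linear forms. -/

noncomputable section

namespace Pool.Agent.MP_a43263_nt.JC

open Finset Polynomial

/-- The indices of the roots. -/
abbrev Vx (g : ℕ) : Type := Fin (2 * g + 1)

/-- The pairs of indices. -/
abbrev Ed (g : ℕ) : Type := {p : Vx g × Vx g // p.1 < p.2}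

/-- The index `i` belongs to the pair `e`. -/
abbrev On {g : ℕ} (i : Vx g) (e : Ed g) : Prop := i = e.1.1 ∨ i = e.1.2

/-- For each pair a constant and `n` binary linear forms `A h * x + B h * y`. -/
structure HS (g n : ℕ) where
  A : Ed g × Fin n → ℤ
  B : Ed g × Fin n → ℤ
  c : Ed g → ℤ

namespace HS

variable {g n : ℕ} (F : HS g n) {K : Type} [Field K]

/-- The linear form with index `h`. -/
def L (h : Ed g × Fin n) (v : K × K) : K := F.A h * v.1 + F.B h * v.2

/-- The product of the forms of the pair `e`, with its constant. -/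
def D (e : Ed g) (v : K × K) : K := F.c e * ∏ k, F.L (e, k) v

/-- The roots. -/
def a (v : K × K) (i : Vx g) : K := if h : 0 < i then F.D ⟨(0, i), h⟩ v else 0

/-- The zero of the form `h`. -/
def root (h : Ed g × Fin n) : ℚ × ℚ := (F.B h, -F.A h)

/-- The constant `u i` times the product of the forms of `y` whose pair contains `i`. -/
def del (u : Vx g → ℚ) (y : Finset (Ed g × Fin n)) (v : K × K) (i : Vx g) : K :=
  u i * ∏ h ∈ y.filter (fun h => On i h.1), F.L h v

/-- The node of the fibre at the zero of `h` is split when this number is a square. -/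
def gam (h : Ed g × Fin n) : ℚ :=
  ∏ l ∈ univ.filter (fun l => ¬On l h.1), (F.a (F.root h) h.1.1.1 - F.a (F.root h) l)

/-- The residue conditions at all bad fibres. -/
def InS (u : Vx g → ℚ) (y : Finset (Ed g × Fin n)) : Prop :=
  (∀ i, u i ≠ 0) ∧ IsSquare (∏ i, u i) ∧ (∀ i, Even (y.filter fun h => On i h.1).card) ∧
    ∀ h, IsSquare (F.del u (y.filter fun k => k.1 ≠ h.1) (F.root h) h.1.1.1 *
      F.del u (y.filter fun k => k.1 ≠ h.1) (F.root h) h.1.1.2 * if h ∈ y then F.gam h else 1)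

/-- The hypotheses of the main theorem. -/
structure Hyp (r : ℕ) : Prop where
  pos : 1 ≤ g
  ev : Even n
  c0 : ∀ e, F.c e ≠ 0
  ne : ∀ h k, h ≠ k → F.L h (F.root k) ≠ 0
  sum : ∀ (e : Ed g) (v : ℚ × ℚ), F.D e v = F.a v e.1.2 - F.a v e.1.1
  card : {y | ∃ u, F.InS u y}.ncard = 2 ^ (2 * g + r)
  sol : ∀ u y, F.InS u y →
    W (F.a ((RatFunc.X : RatFunc ℚ), 1)) (F.del u y ((RatFunc.X : RatFunc ℚ), 1))

/-- The fibre over `(x : y)`. -/
def fibre (v : ℤ × ℤ) : ℚ[X] := fp (F.a ((v.1 : ℚ), (v.2 : ℚ)))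

end HS

/-- `f` is separable, the 2-primary part of the Tate-Shafarevich group of the Jacobian vanishes,
the rational 2-torsion has order `2 ^ (2 g)` and `J(ℚ) / 2 J(ℚ)` has order `2 ^ (2 g + r)`. -/
def JGood (g r : ℕ) (f : ℚ[X]) : Prop :=
  f.Separable ∧ (∀ k : ℕ, ∀ x ∈ JSha f, 2 ^ k • x = 0 → x = 0) ∧
    Nat.card {P : JQ f // 2 • P = 0} = 2 ^ (2 * g) ∧
    (nsmulAddMonoidHom 2 : JQ f →+ JQ f).range.index = 2 ^ (2 * g + r)

end Pool.Agent.MP_a43263_nt.JC
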