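import Pool.Agent.MP_a43263_nt.JC.JSpec
import Pool.Agent.MP_a43263_nt.JC.ASpec
import Pool.Agent.MP_a43263_nt.JC.Surf

/-! THEOREM J, the arithmetic of the pencil: frame, descent matrix, parity, base point.
Note: `/team-store/JAC_NOTE.md`. The files of `RH` with the same names are the case `g = 1`. -/

set_option autoImplicit false

noncomputable section

namespace Pool.Agent.MP_a43263_nt.JC

open Finset Filter Polynomial
open R2 (Sgn chi Ker sg Sc)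
open RG (Ix Tag Gen Dat Adm Sm AA Ev tg gens neg POSStmt BORStmt)
open RH (Smooth hs BOR5Stmt PTY2Stmt)

variable {g n m : ℕ}

/-! ### the values of primes -/

/-- the two pairs share exactly one index -/
def adj (e e' : Ed g) : Bool := decide (e ≠ e' ∧ (On e.1.1 e' ∨ On e.1.2 e'))

/-- the sign pattern of the pair `e` -/
def sv (e : Ed g) (k : Vx g) : Bool :=
  decide (((if e.1.1 ≤ k ∧ k < e.1.2 then 1 else 0) + (e.1.2.1 - e.1.1.1)) % 2 = 1)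

def sx (e e' : Ed g) : Bool := xor (sv e e'.1.1) (sv e e'.1.2)

/-- the component `k` of the odd number `p` of class `e` -/
def mv (e : Ed g) (p : ℕ) (k : Vx g) : ℤ :=
  (if sv e k = true ∧ p % 4 = 3 then -1 else 1) * if On k e then (p : ℤ) else 1

/-- the character of the odd number `p` of class `e` at the primes of class `e'` -/
def Gq (e : Ed g) (p : ℕ) (e' : Ed g) : ℤ :=
  (if sx e e' = true ∧ p % 4 = 3 then -1 else 1) * if adj e e' = true then (p : ℤ) else 1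

def mm (x : Ed g → ℕ) (k : Vx g) : ℤ := ∏ e, mv e (x e) k

/-- the pairing of a smooth vector with a vector prime to `N` -/
def Pj (u : Vx g → ℤ) (x : Ed g → ℕ) : ℤ := ∏ e : Ed g, jacobiSym (u e.1.1 * u e.1.2) (x e)

/-- in the local image at the real place and at the primes of `N` -/
def SolS (N : ℕ) (a d : Vx g → ℤ) : Prop := W (fun i => (a i : ℝ)) (fun i => (d i : ℝ)) ∧
  ∀ (p : ℕ) [Fact p.Prime], p ∣ N → W (fun i => (a i : ℚ_[p])) fun i => (d i : ℚ_[p])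

/-- the base fibre has bad reduction at primes of `N` only -/
structure Sb (N : ℕ) (b : Vx g → ℤ) : Prop where
  g1 : 1 ≤ g
  pos : 0 < N
  two : 2 ∣ N
  sm : ∀ i k, i ≠ k → Smooth N (b i - b k)

def gm (a : Vx g → ℤ) (e : Ed g) : ℤ := ∏ l ∈ univ.filter (fun l => ¬On l e), (a e.1.1 - a l)

/-! ### the frame and the matrix -/

/-- generators for the bad places: values, matrix, characteristic vector -/
structure Frame (g : ℕ) where
  k : ℕ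
  G : ℕ → Vx g → ℤ
  τ : ℕ → ℕ → ℤ
  κ : Finset ℕ

structure Frame.Ok (Fr : Frame g) (N : ℕ) (b : Vx g → ℤ) : Prop where
  sgn : Sgn Fr.τ
  sm : ∀ i k, Smooth N (Fr.G i k)
  sq : ∀ i, IsSquare (∏ k, Fr.G i k)
  ind : ∀ x ⊆ range Fr.k, (∀ k, IsSquare (∏ i ∈ x, Fr.G i k)) → x = ∅
  sub : Fr.κ ⊆ range Fr.k
  kk : ∀ k, IsSquare ((-1) ^ g * fd b k * ∏ i ∈ Fr.κ, Fr.G i k)
  wu : ∀ i < Fr.k, Fr.τ i i = ∏ t ∈ Fr.κ, Fr.τ t i
  loc : ∀ (u : Vx g → ℤ) (x : Ed g → ℕ), (∀ k, Smooth N (u k)) → (∀ e, (x e).Coprime N) →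
    SolS N b (fun k => u k * mm x k) → ∃ y ⊆ range Fr.k,
      (∀ k, IsSquare (u k * ∏ i ∈ y, Fr.G i k)) ∧ ∀ i < Fr.k, ∏ t ∈ y, Fr.τ t i = Pj (Fr.G i) x

namespace Frame

variable (Fr : Frame g) (cg : Gen m → Ed g)

/-- the parity of the corank of the frame -/
def par : ℕ := Fr.k + if chi Fr.τ Fr.κ Fr.κ = 1 then 0 else 1

/-- the generators of the frame carry even labels -/
def V0 (m : ℕ) : Finset (Gen m) := (range Fr.k).image fun i => ((0, none), 2 * i)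

/-- the components of a generator; `cg` gives the class of a prime -/
def vec (a : Gen m) (k : Vx g) : ℤ := if a.2 % 2 = 0 then Fr.G (a.2 / 2) k else mv (cg a) a.2 k

/-- the character of a generator at the primes of class `e` -/
def GG (e : Ed g) (a : Gen m) : ℤ :=
  if a.2 % 2 = 0 then Fr.G (a.2 / 2) e.1.1 * Fr.G (a.2 / 2) e.1.2 else Gq (cg a) a.2 e

/-- the descent matrix -/
def mat (dg : Gen m → ℤ) (a b : Gen m) : ℤ :=
  if a.2 % 2 = 0 ∧ b.2 % 2 = 0 then Fr.τ (a.2 / 2) (b.2 / 2)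
  else if a = b then sg (dg a)
  else if b.2 % 2 = 1 then sg (jacobiSym (Fr.GG cg (cg b) a) b.2)
  else sg (jacobiSym (Fr.GG cg (cg a) b) a.2)

end Frame

/-- the curves with roots `a` close to the base fibre `b` at the bad places -/
structure Loc3 (N : ℕ) (b a : Vx g → ℤ) (cg : Gen m → Ed g) (V : Finset (Gen m)) (dg : Gen m → ℤ)
    (A : Ed g → ℕ) : Prop where
  sb : Sb N b
  pr : ∀ x ∈ V, x.2.Prime ∧ ¬x.2 ∣ N
  dist : RG.Dist V
  hA : ∀ e, A e = ∏ x ∈ V.filter (fun x => cg x = e), x.2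
  one : ∀ e, A e ≡ 1 [MOD 128 * N]
  eq : ∀ e : Ed g, a e.1.2 - a e.1.1 = (b e.1.2 - b e.1.1) * A e
  dg : ∀ x ∈ V, dg x = jacobiSym (-gm a (cg x)) x.2

/-! ### the pencil -/

namespace HS

variable (F : HS g n)

def LZ (h : Ed g × Fin n) (v : ℤ × ℤ) : ℤ := F.A h * v.1 + F.B h * v.2

def DZ (e : Ed g) (v : ℤ × ℤ) : ℤ := F.c e * ∏ k, F.LZ (e, k) v

def aZ (v : ℤ × ℤ) (i : Vx g) : ℤ := if h : 0 < i then F.DZ ⟨(0, i), h⟩ v else 0

def rootZ (h : Ed g × Fin n) : ℤ × ℤ := (F.B h, -F.A h)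

def gamZ (h : Ed g × Fin n) : ℤ := gm (F.aZ (F.rootZ h)) h.1

/-- the fixed fibre `w` -/
structure Pre (N : ℕ) (w : ℤ × ℤ) : Prop where
  pos : 0 < N
  two : 2 ∣ N
  sc : ∀ e, Smooth N (F.c e)
  sr : ∀ h k, h ≠ k → Smooth N (F.LZ h (F.rootZ k))
  sm : ∀ h, Smooth N (F.LZ h w)

end HS

/-- a base point `v0` close to the fixed fibre `w` and a second vector `v1` -/
structure Bs (g n : ℕ) where
  N : ℕ
  w : ℤ × ℤ
  v0 : ℤ × ℤ
  v1 : ℤ × ℤ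
  e : Ed g × Fin n → ℤ
  a : Ed g × Fin n → ℕ

structure Bs.Ok (F : HS g n) (B : Bs g n) : Prop where
  pre : F.Pre B.N B.w
  l0 : ∀ h, F.LZ h B.v0 = F.LZ h B.w * B.a h
  l1 : ∀ h, F.LZ h B.v1 = F.LZ h B.w * B.a h * B.e h
  prim : IsCoprime B.v0.1 B.v0.2
  ne : ∀ h k, h ≠ k → B.e h ≠ B.e k
  sqf : ∀ h, Squarefree (B.a h)
  cop : ∀ h k, h ≠ k → (B.a h).Coprime (B.a k)
  one : ∀ h, B.a h ≡ 1 [MOD 128 * B.N]

/-- the forms among the `3 m` indices of the analytic part; classes and diagonal constants of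
tags and of the primes of the base point; the modulus -/
structure Em (g n m : ℕ) where
  em : Ed g × Fin n ↪ Ix m
  e : Ix m → ℤ
  c : Ix m → ℤ
  ct : Tag m → Ed g
  cp : ℕ → Ed g × Fin n
  M : ℕ

structure Em.Ok (T : Em g n m) (F : HS g n) (B : Bs g n) : Prop where
  two : 2 ≤ m
  e : ∀ h, T.e (T.em h) = B.e h
  ne : ∀ h k, h ≠ k → T.e h ≠ T.e k
  c : ∀ h, T.c (T.em h) = F.gamZ h
  sc : ∀ h, Smooth B.N (T.c h)
  ct : ∀ h, T.ct (tg (T.em h)) = h.1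
  cp : ∀ h, ∀ p : ℕ, p.Prime → p ∣ B.a h → T.cp p = h
  pos : 0 < T.M
  sm : Sm m T.M
  dv : ∀ h k, h ≠ k → 128 * B.N * (T.e h - T.e k) ∣ T.M
  aM : ∀ h, B.a h ∣ T.M

namespace Em

variable (T : Em g n m)

/-- the class of a prime -/
def cg (x : Gen m) : Ed g := if x.1.2 = none then (T.cp x.2).1 else T.ct x.1

def dg (x : Gen m) : ℤ :=
  jacobiSym (-T.c (x.1.2.elim (T.em (T.cp x.2)) fun k => (x.1.1, k))) x.2

def gr : Gr m := ⟨univ.map T.em, fun s t => adj (T.ct s) (T.ct t)⟩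

/-- the primes of the base point -/
def V1 (m : ℕ) (B : Bs g n) : Finset (Gen m) :=
  univ.biUnion fun h => (B.a h).primeFactors.image fun p => ((0, none), p)

def dat (B : Bs g n) (Fr : Frame g) : Dat3 m where
  D := ⟨T.M, T.e, T.c, {neg}, fun x => x.1.2.elim 1 fun k => jacobiSym (T.c (x.1.1, k)) x.2⟩
  Γ := T.gr
  ex := fun s t => sx (T.ct s) (T.ct t)
  W0 := Fr.V0 m ∪ V1 m B
  g := Fr.mat T.cg T.dg
  G := fun t => Fr.GG T.cg (T.ct t)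

end Em

/-! ### the statements -/

/-- the values of odd numbers -/
def GP3Stmt : Prop := ∀ g : ℕ,
  (∀ (e : Ed g) (p q : ℕ) (k : Vx g), p % 2 = 1 → q % 2 = 1 →
    mv e (p * q) k = mv e p k * mv e q k) ∧
  (∀ (e e' : Ed g) (p q : ℕ), p % 2 = 1 → q % 2 = 1 → Gq e (p * q) e' = Gq e p e' * Gq e q e') ∧
  (∀ (e : Ed g) (p : ℕ), ∏ k, mv e p k = (p : ℤ) ^ 2) ∧
  (∀ (e e' : Ed g) (p : ℕ),
    mv e p e'.1.1 * mv e p e'.1.2 = Gq e p e' * (if e = e' then (p : ℤ) else 1) ^ 2) ∧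
  (∀ e e' : Ed g, xor (sx e e') (sx e' e) = adj e e' ∧ adj e e' = adj e' e ∧ sx e e = true) ∧
  (∀ (e e' : Ed g) (p q : ℕ), p % 2 = 1 → q % 2 = 1 →
    jacobiSym (Gq e p e') q = jacobiSym (Gq e' q e) p) ∧
  ∀ (e : Ed g) (p : ℕ), p % 2 = 1 → jacobiSym (Gq e p e) p = jacobiSym (-1) p

/-- the symbol at the real place times the symbol at two, for odd numbers -/
def ph (x y : ℤ) : ℤ := (if x < 0 ∧ y < 0 then -1 else 1) * if x % 4 = 3 ∧ y % 4 = 3 then -1 else 1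

/-- the vectors prime to `N` are isotropic at the real place and at two together -/
def ISOStmt : Prop := ∀ (g : ℕ) (x : Ed g → ℕ), (∀ e, x e % 2 = 1) → Hs ph (mm x) = 1

/-- the global quadratic relation -/
def REC3Stmt : Prop := ∀ (g N : ℕ) (b u : Vx g → ℤ) (x : Ed g → ℕ), Sb N b →
  (∀ k, Smooth N (u k)) → (∀ e, (x e).Coprime N) → SolS N b (fun k => u k * mm x k) →
  IsSquare (∏ k, u k) ∧ Pj u x = Pj (fd b) x

def FRAMEStmt : Prop := ∀ (g N : ℕ) (b : Vx g → ℤ), Sb N b → ∃ Fr : Frame g, Fr.Ok N b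

/-- the entries of the descent matrix -/
def MAT3Stmt : Prop := ∀ (g m : ℕ) (Fr : Frame g) (cg : Gen m → Ed g) (dg : Gen m → ℤ),
  (Sgn Fr.τ → Sgn (Fr.mat cg dg)) ∧
  (∀ a b : Gen m, a ≠ b → b.2.Prime → b.2 ≠ 2 → ¬(b.2 : ℤ) ∣ Fr.GG cg (cg b) a →
    Fr.mat cg dg a b = jacobiSym (Fr.GG cg (cg b) a) b.2) ∧
  (∀ (x : Finset (Gen m)) (e : Ed g), (∏ a ∈ x, Fr.vec cg a e.1.1) * ∏ a ∈ x, Fr.vec cg a e.1.2 =
    (∏ a ∈ x, Fr.GG cg e a) * (∏ a ∈ x.filter (fun a => a.2 % 2 = 1 ∧ cg a = e), (a.2 : ℤ)) ^ 2) ∧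
  ((∀ i, IsSquare (∏ k, Fr.G i k)) → ∀ x : Finset (Gen m), IsSquare (∏ k, ∏ a ∈ x, Fr.vec cg a k))

/-- the local conditions at the bad places are those of the base fibre -/
def CST3Stmt : Prop := ∀ (g N : ℕ) (b a d : Vx g → ℤ) (A : Ed g → ℕ), Sb N b →
  (∀ e, A e ≡ 1 [MOD 128 * N]) → (∀ e : Ed g, a e.1.2 - a e.1.1 = (b e.1.2 - b e.1.1) * A e) →
  SolS N a d → SolS N b d

/-- the local conditions -/
def LOC3Stmt : Prop := ∀ (g m N : ℕ) (b a : Vx g → ℤ) (Fr : Frame g) (cg : Gen m → Ed g)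
  (V : Finset (Gen m)) (dg : Gen m → ℤ) (A : Ed g → ℕ), Fr.Ok N b → Loc3 N b a cg V dg A →
  ∀ d : Vx g → ℚ, ELS (fun k => (a k : ℚ)) d → ∃ y ∈ Ker (Fr.mat cg dg) (Fr.V0 m ∪ V),
    ∀ k, IsSquare (d k * (∏ x ∈ y, Fr.vec cg x k : ℤ)) ∧ ∏ x ∈ y, Fr.vec cg x k ≠ 0

/-- the parity of the corank -/
def PAR3Stmt : Prop := ∀ (g m N : ℕ) (b a : Vx g → ℤ) (Fr : Frame g) (cg : Gen m → Ed g)
  (V : Finset (Gen m)) (dg : Gen m → ℤ) (A : Ed g → ℕ), Fr.Ok N b → Loc3 N b a cg V dg A →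
  ∏ x ∈ V, dg x = 1 →
    ∃ κ : ℕ, (Ker (Fr.mat cg dg) (Fr.V0 m ∪ V)).card = 2 ^ κ ∧ κ % 2 = (Fr.par + V.card) % 2

def ALG3Stmt : Prop := ∀ (g r : ℕ) (a : Vx g → ℚ) (ι ι' : Type) (I : Finset ι) (d : ι → Vx g → ℚ)
  (K : Finset ι') (φ : ι' → Vx g → ℚ), 1 ≤ g → Function.Injective a → I.card = 2 ^ (2 * g + r) →
  (∀ i ∈ I, W a (d i)) → (∀ i ∈ I, ∀ j ∈ I, (∀ k, IsSquare (d i k * d j k)) → i = j) →
  K.card ≤ 2 ^ (2 * g + r) →
  (∀ e, ELS a e → ∃ y ∈ K, ∀ k, IsSquare (e k * φ y k) ∧ φ y k ≠ 0) → JGood g r (fp a)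

/-- the graph of the forms -/
def GRAPHStmt : Prop := ∀ (g n m : ℕ) (T : Em g n m), 1 ≤ g → 2 ≤ n →
  (∀ h, T.ct (tg (T.em h)) = h.1) → T.gr.Ok

/-- base points of both parities near a fixed fibre -/
def BASE3Stmt : Prop := ∀ (g n r : ℕ) (F : HS g n), F.Hyp r → ∃ (N : ℕ) (w : ℤ × ℤ), F.Pre N w ∧
  ∀ ε : ℕ, ∃ B : Bs g n, B.N = N ∧ B.w = w ∧ B.Ok F ∧ (∑ h, (B.a h).primeFactors.card) % 2 = ε % 2

/-- the extension to the index set of the analytic part; the pattern does not depend on `M` -/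
def EXTStmt : Prop := ∀ (g n r : ℕ) (F : HS g n) (B : Bs g n), F.Hyp r → B.Ok F →
  ∃ (m : ℕ) (e : Ix m → ℤ), ∀ P : ℕ, ∃ T : Em g n m, T.Ok F B ∧ T.e = e ∧ P.factorial ∣ T.M

/-- the point that belongs to an admissible tuple -/
def PT3Stmt : Prop := ∀ (g n m r : ℕ) (F : HS g n) (B : Bs g n) (T : Em g n m) (Fr : Frame g),
  F.Hyp r → B.Ok F → T.Ok F B → ∀ l, Adm (T.dat B Fr).D l →
    ∃ v : ℤ × ℤ, IsCoprime v.1 v.2 ∧ ∀ h, F.LZ h v = F.LZ h B.w * B.a h * l (T.em h)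

/-- the data of the analytic part are admissible -/
def OK3Stmt : Prop := ∀ (g n m r : ℕ) (F : HS g n) (B : Bs g n) (T : Em g n m) (Fr : Frame g),
  F.Hyp r → B.Ok F → T.Ok F B → Fr.Ok B.N (F.aZ B.w) → 2 * Fr.k ≤ T.M → (T.dat B Fr).Ok

/-- the descent applies to admissible tuples -/
def BR3Stmt : Prop := ∀ (g n m r : ℕ) (F : HS g n) (B : Bs g n) (T : Em g n m) (Fr : Frame g),
  F.Hyp r → B.Ok F → T.Ok F B → ∀ l, Adm (T.dat B Fr).D l → ∀ v : ℤ × ℤ,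
    (∀ h, F.LZ h v = F.LZ h B.w * B.a h * l (T.em h)) →
    Loc3 B.N (F.aZ B.w) (F.aZ v) T.cg (Em.V1 m B ∪ T.gr.re (gens l)) T.dg
      (fun e => ∏ k, B.a (e, k) * l (T.em (e, k))) ∧
    ∏ x ∈ Em.V1 m B ∪ T.gr.re (gens l), T.dg x = 1 ∧
    (Em.V1 m B ∪ T.gr.re (gens l)).card =
      ∑ h, (B.a h).primeFactors.card + ∑ h ∈ T.gr.RF, (l h).primeFactors.card

/-- geometric classes satisfy the residue conditions -/
def GEO3Stmt : Prop := ∀ (g n m r : ℕ) (F : HS g n) (B : Bs g n) (T : Em g n m) (Fr : Frame g),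
  F.Hyp r → B.Ok F → T.Ok F B → Fr.Ok B.N (F.aZ B.w) → (T.dat B Fr).Ok →
  (T.dat B Fr).geoSet.card ≤ 2 ^ (2 * g + r)

/-- specialisation outside a finite set -/
def SPE3Stmt : Prop := ∀ (g n : ℕ) (F : HS g n) (u : Vx g → ℚ) (y : Finset (Ed g × Fin n)),
  Even n → (∀ i, Even (y.filter fun h => On i h.1).card) →
  W (F.a ((RatFunc.X : RatFunc ℚ), 1)) (F.del u y ((RatFunc.X : RatFunc ℚ), 1)) →
  ∃ S : Finset ℚ, ∀ v : ℚ × ℚ, v.2 ≠ 0 → v.1 / v.2 ∉ S → W (F.a v) (F.del u y v)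

/-- a small kernel gives a good fibre -/
def GOOD3Stmt : Prop := ∀ (g n m r : ℕ) (F : HS g n) (B : Bs g n) (T : Em g n m) (Fr : Frame g),
  F.Hyp r → B.Ok F → T.Ok F B → Fr.Ok B.N (F.aZ B.w) →
  ∃ S : Finset ℚ, ∀ l, Adm (T.dat B Fr).D l → (∀ h, 1 < l h) →
    (Ker (T.dat B Fr).g ((T.dat B Fr).VV l)).card ≤ 2 ^ (2 * g + r) → ∀ v : ℤ × ℤ,
    (∀ h, F.LZ h v = F.LZ h B.w * B.a h * l (T.em h)) → v.2 ≠ 0 → (v.1 / v.2 : ℚ) ∉ S →
    JGood g r (F.fibre v)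

open Classical in
def MainStmt : Prop := ∀ (g n r : ℕ) (F : HS g n), F.Hyp r → ∃ c : ℝ, 0 < c ∧ ∀ᶠ H : ℕ in atTop,
  c * (H : ℝ) ^ 2 ≤ (((Icc (-H : ℤ) H ×ˢ Icc (-H : ℤ) H).filter fun v : ℤ × ℤ =>
    IsCoprime v.1 v.2 ∧ JGood g r (F.fibre v)).card : ℝ)

theorem main_of (desc : DESCStmt) (grp : GRPStmt) (nrm : NRMStmt) (qv : QVStmt) (symb : SYMBStmt)
    (val : VALStmt) (nod : NODStmt) (cstp : CSTPStmt) (cstr : CSTRStmt) (bor5 : BOR5Stmt)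
    (pos : POSStmt) (pty : PTY2Stmt) (kc : KC3Stmt) (mkv : MKV3Stmt) (gp : GP3Stmt)
    (iso : ISOStmt) (rec : GP3Stmt → ISOStmt → NRMStmt → QVStmt → SYMBStmt → REC3Stmt)
    (frame : GP3Stmt → GRPStmt → REC3Stmt → FRAMEStmt) (mat : GP3Stmt → MAT3Stmt)
    (cst : CSTPStmt → CSTRStmt → CST3Stmt)
    (loc : GP3Stmt → MAT3Stmt → VALStmt → NODStmt → CST3Stmt → LOC3Stmt)
    (par : GP3Stmt → MAT3Stmt → BOR5Stmt → PAR3Stmt) (alg : DESCStmt → ALG3Stmt)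
    (graph : GRAPHStmt) (base : PTY2Stmt → BASE3Stmt) (ext : EXTStmt) (pt : PT3Stmt)
    (ok : GP3Stmt → MAT3Stmt → GRAPHStmt → OK3Stmt) (br : BR3Stmt)
    (geo : MAT3Stmt → KC3Stmt → GEO3Stmt) (spe : SPE3Stmt)
    (good : ALG3Stmt → LOC3Stmt → BR3Stmt → SPE3Stmt → GOOD3Stmt)
    (fin : FRAMEStmt → PAR3Stmt → POSStmt → MKV3Stmt → BASE3Stmt → EXTStmt → PT3Stmt → OK3Stmt →
      BR3Stmt → GEO3Stmt → GOOD3Stmt → MainStmt) : MainStmt :=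
  have hm := mat gp
  fin (frame gp grp (rec gp iso nrm qv symb)) (par gp hm bor5) pos mkv (base pty) ext pt
    (ok gp hm graph) br (geo hm kc) (good (alg desc) (loc gp hm val nod (cst cstp cstr)) br spe)

end Pool.Agent.MP_a43263_nt.JC
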