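import Pool.Agent.MP_a43263_nt.JC.SBasic

/-! THEOREM J, examples in every genus: the pencils with roots `c (r 0 ^ 2 - r i ^ 2)`,
`r i = p i * x + q i * y`. -/

set_option autoImplicit false

noncomputable section

namespace Pool.Agent.MP_a43263_nt.JC

open Finset

variable {g n : ℕ}

/-- the hypotheses of the main theorem that do not mention the residue group -/
structure HS.Bas (F : HS g n) : Prop where
  pos : 1 ≤ g
  n0 : 0 < n
  ev : Even n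
  c0 : ∀ e, F.c e ≠ 0
  ne : ∀ h k, h ≠ k → F.L h (F.root k) ≠ 0
  sum : ∀ (e : Ed g) (v : ℚ × ℚ), F.D e v = F.a v e.1.2 - F.a v e.1.1

/-- a class in the residue group that comes from a point of the generic fibre -/
def HS.Gd (F : HS g n) (u : Vx g → ℚ) (y : Finset (Ed g × Fin n)) : Prop :=
  F.InS u y ∧ W (F.a ((RatFunc.X : RatFunc ℚ), 1)) (F.del u y ((RatFunc.X : RatFunc ℚ), 1))

/-- all forms of the pairs with exactly one index in `α` -/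
def cut (n : ℕ) (α : Finset (Vx g)) : Finset (Ed g × Fin n) :=
  univ.filter fun h => h.1.1.1 ∈ α ↔ h.1.1.2 ∉ α

/-- all forms with second index in `β` -/
def lay (g : ℕ) (β : Finset (Fin n)) : Finset (Ed g × Fin n) := univ.filter fun h => h.2 ∈ β

/-- the pencil with the forms `r i - r j` (index `0`) and `r i + r j` (index `1`) -/
def fam (c : ℤ) (p q : Vx g → ℤ) : HS g 2 where
  A := fun h => p h.1.1.1 + ![-1, 1] h.2 * p h.1.1.2
  B := fun h => q h.1.1.1 + ![-1, 1] h.2 * q h.1.1.2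
  c := fun _ => c

/-- every signed sum of the `l i` has an odd prime of its own -/
def Priv {ι : Type} [Fintype ι] (l : ι → ℤ) : Prop := ∀ φ : ι → SignType, φ ≠ 0 →
  ∃ p : ℕ, p.Prime ∧ p ≠ 2 ∧ (p : ℤ) ∣ ∑ i, φ i * l i ∧ ¬(p : ℤ) ^ 2 ∣ ∑ i, φ i * l i ∧
    ∀ ψ : ι → SignType, ψ ≠ 0 → ψ ≠ φ → ψ ≠ -φ → ¬(p : ℤ) ∣ ∑ i, ψ i * l i

/-- points on the cubic -/
def cub (c : ℤ) (l : Vx g → ℤ) : HS g 2 := fam c l fun i => l i ^ 3

/-- points on the hyperbola -/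
def hyb (l : Vx g → ℤ) : HS g 2 :=
  fam 1 (fun i => (∏ k, l k) * l i) fun i => ∏ k ∈ univ.erase i, l k

def PRIVStmt : Prop := ∀ m : ℕ, ∃ l : Fin m → ℤ, Priv l ∧ (∀ i, 0 < l i) ∧
  ∀ i j, i < j → 3 * l i ≤ l j

/-- products, Weierstrass points, and the criterion -/
def GENSStmt : Prop := ∀ (g n : ℕ) (F : HS g n), F.Bas →
  (∀ u y u' y', F.Gd u y → F.Gd u' y' → F.Gd (fun i => u i * u' i) (symmDiff y y')) ∧
  (∀ α, ∃ u, F.Gd u (cut n α)) ∧
  ∀ (r : ℕ) (I : Finset (Finset (Fin n))), I.card = 2 ^ r → (∀ β ∈ I, ∃ u, F.Gd u (lay g β)) →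
    (∀ u y, F.InS u y → ∃ α, ∃ β ∈ I, y = symmDiff (cut n α) (lay g β)) → F.Hyp r

/-- the halves of a point all of whose differences are squares -/
def ZARStmt : Prop := ∀ (K ι : Type) [Field K] [CharZero K] [Fintype ι] [DecidableEq ι] (x : K)
  (r : ι → K), Odd (Fintype.card ι) → (∀ i j, i ≠ j → r i + r j ≠ 0) →
  W (fun i => x - r i ^ 2) fun i => ∏ j ∈ univ.erase i, (r i + r j)

def FAMStmt : Prop := ∀ (g : ℕ) (c : ℤ) (p q : Vx g → ℤ), 1 ≤ g → c ≠ 0 →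
  (∀ h k, h ≠ k → (fam c p q).LZ h ((fam c p q).rootZ k) ≠ 0) →
  (fam c p q).Bas ∧ (c = 1 → (fam c p q).Gd (fun _ => 1) (lay g {1}))

/-- the residue group of the cubic family -/
def CUBStmt : Prop := ∀ (g : ℕ) (c : ℤ) (l : Vx g → ℤ), 1 ≤ g → c = 1 ∨ c = 2 → Priv l →
  (∀ i, 0 < l i) → (∀ i j, i < j → 3 * l i ≤ l j) →
  (∀ h k, h ≠ k → (cub c l).LZ h ((cub c l).rootZ k) ≠ 0) ∧
  ∀ u y, (cub c l).InS u y →
    ∃ α, y = cut 2 α ∨ (c = 1 ∧ y = symmDiff (cut 2 α) (lay g {1}))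

/-- the residue group of the hyperbolic family -/
def HYBStmt : Prop := ∀ (g : ℕ) (l : Vx g → ℤ), 1 ≤ g → Priv l →
  (∀ h k, h ≠ k → (hyb l).LZ h ((hyb l).rootZ k) ≠ 0) ∧
  ∀ u y, (hyb l).InS u y → ∃ α β, y = symmDiff (cut 2 α) (lay g β)

/-- the second point of the hyperbolic family -/
def SECStmt : Prop := ∀ (g : ℕ) (l : Vx g → ℤ), 1 ≤ g → (hyb l).Bas → (∀ i, l i ≠ 0) →
  ∃ u, (hyb l).Gd u (lay g {0})

def EXStmt : Prop := ∀ g r : ℕ, 1 ≤ g → r ≤ 2 → ∃ (c : ℤ) (p q : Vx g → ℤ), (fam c p q).Hyp r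

end Pool.Agent.MP_a43263_nt.JC
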